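import Pool.Agent.DH10.Cyc

/-!
# DH10.AvgCyc : second moments of the curvature indicators over `Z¹(R;G)` (6.3)

`gg f t = q 1[curT f t = 0] - 1 = ∑_{χ ≠ 1} χ(curT f t)`.  If the only cycle supported in `R` is `1`, then
`q^{|R|} |Z¹(R)| = q^{|E|}` (`card_cocycles_fourier`) and by `fourier_cocycles` (`κ = χ_t χ'_{t'}`, i.e.
`Pi.mulSingle t χ * Pi.mulSingle t' χ'`):
`∑_{f ∈ Z¹(R)} χ(curT f t) χ'(curT f t') = |Z¹(R)| #{c : supp c ⊆ R, c κ cycle}`; sum over `χ, χ' ≠ 1`: `avg_two`.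
`second_moments`: with `Y = B diag(gg f) Bᵀ`, `tr Y = ∑_t gg f t |B_t|²`, `∑_{ij} Y_ij² = ∑_{t,t'} gg f t gg f t' ⟨B_t,B_t'⟩²`,
and `⟨B_t,B_t'⟩² ≤ |B_t|² |B_t'|²`; the averages of `gg f t gg f t'` are `cnt ≥ 0`.
-/

set_option autoImplicit false

open Finset

namespace Pool.Agent.DH10

noncomputable section

variable {n : ℕ} {G : Type} [AddCommGroup G] [Fintype G] [DecidableEq G]

/-- `q 1[curT f t = 0] - 1` -/
def gg (f : Coch n G) (t : Tri n) : ℝ := (if t ∈ Z f then (Fintype.card G : ℝ) else 0) - 1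

open Classical in
/-- number of `(χ, χ', c)`, `χ, χ' ≠ 1`, `supp c ⊆ R`, such that `c χ_t χ'_{t'}` is a cycle -/
def cnt (G : Type) [AddCommGroup G] [Fintype G] (R : Finset (Tri n)) (t t' : Tri n) : ℕ :=
  (univ.filter fun x : AddChar G ℂ × AddChar G ℂ × (Tri n → AddChar G ℂ) =>
    x.1 ≠ 1 ∧ x.2.1 ≠ 1 ∧ supp x.2.2 ⊆ R ∧
      IsCyc (x.2.2 * (Pi.mulSingle t x.1 * Pi.mulSingle t' x.2.1))).card

private theorem curT_mem (f : Coch n G) (t : Tri n) : t ∈ Z f ↔ curT f t = 0 := by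
  simp [Z]

open Classical in
private theorem gg_eq (f : Coch n G) (t : Tri n) :
    ((gg f t : ℝ) : ℂ) = ∑ χ ∈ univ.filter (fun χ : AddChar G ℂ => χ ≠ 1), χ (curT f t) := by
  have h := AddChar.sum_apply_eq_ite (curT f t)
  have h1 : ∑ χ : AddChar G ℂ, χ (curT f t) =
      1 + ∑ χ ∈ univ.filter (fun χ : AddChar G ℂ => χ ≠ 1), χ (curT f t) := by
    rw [← Finset.sum_filter_add_sum_filter_not univ (fun χ : AddChar G ℂ => χ = 1)]
    congr 1
    rw [Finset.filter_eq']
    simp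
  rw [h1] at h
  unfold gg
  simp only [curT_mem]
  have h2 : ∑ χ ∈ univ.filter (fun χ : AddChar G ℂ => χ ≠ 1), χ (curT f t) =
      (if curT f t = 0 then (Fintype.card G : ℂ) else 0) - 1 := by
    rw [← h]
    ring
  rw [h2]
  split_ifs <;> simp

private theorem prod_single (f : Coch n G) (t : Tri n) (χ : AddChar G ℂ) :
    ∏ s, (Pi.mulSingle t χ : Tri n → AddChar G ℂ) s (curT f s) = χ (curT f t) := by
  rw [Finset.prod_eq_single t]
  · rw [Pi.mulSingle_eq_same]
  · intro s _ hs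
    rw [Pi.mulSingle_eq_of_ne hs, AddChar.one_apply]
  · intro h
    exact absurd (Finset.mem_univ t) h

private theorem prod_two (f : Coch n G) (t t' : Tri n) (χ χ' : AddChar G ℂ) :
    ∏ s, (Pi.mulSingle t χ * Pi.mulSingle t' χ' : Tri n → AddChar G ℂ) s (curT f s) =
      χ (curT f t) * χ' (curT f t') := by
  rw [← prod_single f t χ, ← prod_single f t' χ', ← Finset.prod_mul_distrib]
  refine Finset.prod_congr rfl fun s _ => ?_
  rw [Pi.mul_apply, AddChar.mul_apply]

open Classical in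
private theorem cnt_eq (R : Finset (Tri n)) (t t' : Tri n) :
    cnt G R t t' = ∑ χ ∈ univ.filter (fun χ : AddChar G ℂ => χ ≠ 1),
      ∑ χ' ∈ univ.filter (fun χ : AddChar G ℂ => χ ≠ 1),
        (univ.filter fun c : Tri n → AddChar G ℂ => supp c ⊆ R ∧
          IsCyc (c * (Pi.mulSingle t χ * Pi.mulSingle t' χ'))).card := by
  unfold cnt
  rw [Finset.card_filter, Fintype.sum_prod_type, Finset.sum_filter]
  refine Finset.sum_congr rfl fun χ _ => ?_
  rw [Fintype.sum_prod_type]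
  by_cases h : χ ≠ 1
  · rw [if_pos h, Finset.sum_filter]
    refine Finset.sum_congr rfl fun χ' _ => ?_
    by_cases h' : χ' ≠ 1
    · rw [if_pos h', Finset.card_filter]
      refine Finset.sum_congr rfl fun c _ => ?_
      simp only [h, h', true_and, ne_eq, not_false_eq_true]
    · rw [if_neg h']
      refine Finset.sum_eq_zero fun c _ => ?_
      rw [if_neg]
      rintro ⟨_, h1, _⟩
      exact h' h1
  · rw [if_neg h]
    refine Finset.sum_eq_zero fun χ' _ => Finset.sum_eq_zero fun c _ => ?_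
    rw [if_neg]
    rintro ⟨h1, _⟩
    exact h h1

theorem avg_two (R : Finset (Tri n)) (hR : (cycIn G R).card = 1) (t t' : Tri n) :
    ∑ f ∈ univ.filter (fun f : Coch n G => R ⊆ Z f), gg f t * gg f t'
      = ((univ.filter (fun f : Coch n G => R ⊆ Z f)).card : ℝ) * cnt G R t t' := by
  classical
  have h1 : ∀ f : Coch n G, ((gg f t * gg f t' : ℝ) : ℂ) =
      ∑ χ ∈ univ.filter (fun χ : AddChar G ℂ => χ ≠ 1), ∑ χ' ∈ univ.filter (fun χ : AddChar G ℂ => χ ≠ 1),
        ∏ s, (Pi.mulSingle t χ * Pi.mulSingle t' χ' : Tri n → AddChar G ℂ) s (curT f s) := by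
    intro f
    rw [Complex.ofReal_mul, gg_eq, gg_eq, Finset.sum_mul_sum]
    refine Finset.sum_congr rfl fun χ _ => Finset.sum_congr rfl fun χ' _ => ?_
    rw [prod_two]
  have hq : (Fintype.card G : ℂ) ≠ 0 := by
    exact_mod_cast Fintype.card_ne_zero
  have h2 : ∀ χ χ' : AddChar G ℂ, ∑ f ∈ univ.filter (fun f : Coch n G => R ⊆ Z f),
      ∏ s, (Pi.mulSingle t χ * Pi.mulSingle t' χ' : Tri n → AddChar G ℂ) s (curT f s) =
      ((univ.filter (fun f : Coch n G => R ⊆ Z f)).card : ℂ) *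
        ((univ.filter fun c : Tri n → AddChar G ℂ => supp c ⊆ R ∧
          IsCyc (c * (Pi.mulSingle t χ * Pi.mulSingle t' χ'))).card : ℂ) := by
    intro χ χ'
    have h3 := fourier_cocycles (G := G) R (Pi.mulSingle t χ * Pi.mulSingle t' χ')
    have h4 := card_cocycles_fourier (G := G) R
    rw [hR, mul_one] at h4
    have h5 : (Fintype.card G : ℂ) ^ R.card * ((univ.filter (fun f : Coch n G => R ⊆ Z f)).card : ℂ)
        = (Fintype.card G : ℂ) ^ (Fintype.card (Edg n)) := by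
      exact_mod_cast h4
    rw [← h5, mul_assoc] at h3
    exact mul_left_cancel₀ (pow_ne_zero _ hq) h3
  have h6 : ((∑ f ∈ univ.filter (fun f : Coch n G => R ⊆ Z f), gg f t * gg f t' : ℝ) : ℂ) =
      ((((univ.filter (fun f : Coch n G => R ⊆ Z f)).card : ℝ) * cnt G R t t' : ℝ) : ℂ) := by
    rw [Complex.ofReal_sum, Finset.sum_congr rfl (fun f _ => h1 f), Finset.sum_comm]
    have h7 : ∀ χ : AddChar G ℂ, ∑ f ∈ univ.filter (fun f : Coch n G => R ⊆ Z f),
        ∑ χ' ∈ univ.filter (fun χ : AddChar G ℂ => χ ≠ 1),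
          ∏ s, (Pi.mulSingle t χ * Pi.mulSingle t' χ' : Tri n → AddChar G ℂ) s (curT f s) =
        ∑ χ' ∈ univ.filter (fun χ : AddChar G ℂ => χ ≠ 1),
          ((univ.filter (fun f : Coch n G => R ⊆ Z f)).card : ℂ) *
          ((univ.filter fun c : Tri n → AddChar G ℂ => supp c ⊆ R ∧
            IsCyc (c * (Pi.mulSingle t χ * Pi.mulSingle t' χ'))).card : ℂ) := by
      intro χ
      rw [Finset.sum_comm]
      exact Finset.sum_congr rfl fun χ' _ => h2 χ χ'
    rw [Finset.sum_congr rfl (fun χ _ => h7 χ)]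
    simp only [← Finset.mul_sum]
    rw [cnt_eq]
    push_cast
    rfl
  exact_mod_cast h6

theorem second_moments (R : Finset (Tri n)) (hR : (cycIn G R).card = 1) {k : ℕ}
    (B : Matrix (Fin k) (Tri n) ℝ) :
    ∑ f ∈ univ.filter (fun f : Coch n G => R ⊆ Z f),
        ((B * Matrix.diagonal (gg f) * B.transpose).trace ^ 2 +
          ∑ i, ∑ j, (B * Matrix.diagonal (gg f) * B.transpose) i j ^ 2)
      ≤ 2 * ((univ.filter (fun f : Coch n G => R ⊆ Z f)).card : ℝ) *
        ∑ t, ∑ t', (∑ i, B i t ^ 2) * (∑ i, B i t' ^ 2) * cnt G R t t' := by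
  classical
  have hY : ∀ (f : Coch n G) (i j : Fin k), (B * Matrix.diagonal (gg f) * B.transpose) i j =
      ∑ t, gg f t * (B i t * B j t) := by
    intro f i j
    rw [Matrix.mul_apply]
    refine Finset.sum_congr rfl fun t _ => ?_
    rw [Matrix.mul_diagonal, Matrix.transpose_apply]
    ring
  have htr : ∀ f : Coch n G, (B * Matrix.diagonal (gg f) * B.transpose).trace ^ 2 =
      ∑ t, ∑ t', (gg f t * gg f t') * ((∑ i, B i t ^ 2) * (∑ i, B i t' ^ 2)) := by
    intro f
    have h1 : (B * Matrix.diagonal (gg f) * B.transpose).trace = ∑ t, gg f t * ∑ i, B i t ^ 2 := by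
      unfold Matrix.trace
      simp only [Matrix.diag_apply]
      rw [Finset.sum_congr rfl (fun i _ => hY f i i), Finset.sum_comm]
      refine Finset.sum_congr rfl fun t _ => ?_
      rw [Finset.mul_sum]
      refine Finset.sum_congr rfl fun i _ => ?_
      ring
    rw [h1, sq, Finset.sum_mul_sum]
    refine Finset.sum_congr rfl fun t _ => Finset.sum_congr rfl fun t' _ => ?_
    ring
  have hsq : ∀ f : Coch n G, ∑ i, ∑ j, (B * Matrix.diagonal (gg f) * B.transpose) i j ^ 2 =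
      ∑ t, ∑ t', (gg f t * gg f t') * (∑ i, B i t * B i t') ^ 2 := by
    intro f
    have h1 : ∀ i j : Fin k, (B * Matrix.diagonal (gg f) * B.transpose) i j ^ 2 =
        ∑ t, ∑ t', (gg f t * gg f t') * ((B i t * B i t') * (B j t * B j t')) := by
      intro i j
      rw [hY, sq, Finset.sum_mul_sum]
      refine Finset.sum_congr rfl fun t _ => Finset.sum_congr rfl fun t' _ => ?_
      ring
    have h2 : ∀ i : Fin k, ∑ j, (B * Matrix.diagonal (gg f) * B.transpose) i j ^ 2 =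
        ∑ t, ∑ t', ∑ j, (gg f t * gg f t') * ((B i t * B i t') * (B j t * B j t')) := by
      intro i
      rw [Finset.sum_congr rfl (fun j _ => h1 i j), Finset.sum_comm]
      refine Finset.sum_congr rfl fun t _ => ?_
      rw [Finset.sum_comm]
    rw [Finset.sum_congr rfl (fun i _ => h2 i), Finset.sum_comm]
    refine Finset.sum_congr rfl fun t _ => ?_
    rw [Finset.sum_comm]
    refine Finset.sum_congr rfl fun t' _ => ?_
    rw [sq, Finset.sum_mul_sum, Finset.mul_sum]
    refine Finset.sum_congr rfl fun i _ => ?_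
    rw [Finset.mul_sum]
  have hsum : ∀ c : Tri n → Tri n → ℝ, ∑ f ∈ univ.filter (fun f : Coch n G => R ⊆ Z f),
      ∑ t, ∑ t', (gg f t * gg f t') * c t t' =
      ((univ.filter (fun f : Coch n G => R ⊆ Z f)).card : ℝ) * ∑ t, ∑ t', c t t' * cnt G R t t' := by
    intro c
    rw [Finset.sum_comm, Finset.mul_sum]
    refine Finset.sum_congr rfl fun t _ => ?_
    rw [Finset.sum_comm, Finset.mul_sum]
    refine Finset.sum_congr rfl fun t' _ => ?_
    rw [← Finset.sum_mul, avg_two R hR]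
    ring
  have hle : ∑ t, ∑ t', (∑ i, B i t * B i t') ^ 2 * (cnt G R t t' : ℝ) ≤
      ∑ t, ∑ t', (∑ i, B i t ^ 2) * (∑ i, B i t' ^ 2) * (cnt G R t t' : ℝ) := by
    refine Finset.sum_le_sum fun t _ => Finset.sum_le_sum fun t' _ => ?_
    exact mul_le_mul_of_nonneg_right (Finset.sum_mul_sq_le_sq_mul_sq _ _ _) (Nat.cast_nonneg _)
  rw [Finset.sum_add_distrib, Finset.sum_congr rfl (fun f _ => htr f),
    Finset.sum_congr rfl (fun f _ => hsq f), hsum, hsum]
  have hc : (0 : ℝ) ≤ ((univ.filter (fun f : Coch n G => R ⊆ Z f)).card : ℝ) := Nat.cast_nonneg _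
  have := mul_le_mul_of_nonneg_left hle hc
  linarith

end

end Pool.Agent.DH10
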