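import Pool.Agent.DH10.SpecIneq

/-!
# DH10.PsdDet : monotonicity of the determinant, Fischer and Hadamard inequalities (real symmetric PSD matrices)

Pure linear algebra.  Suggested proofs.
* `det_mono`: if `B` is singular then so is `A` (a kernel vector `v` of `B` has `vᵀAv ≤ vᵀBv = 0`), and both
  determinants are `0`.  Otherwise `B` is positive definite; write `B = Cᵀ C` with `C` invertible (Mathlib:
  `Matrix.PosSemidef` square root, or `Matrix.PosDef` factorisations), `A' = C⁻ᵀ A C⁻¹` satisfies `0 ≤ A' ≤ 1`,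
  so its eigenvalues are in `[0,1]` and `det A = det A' * det B ≤ det B`.
* `det_le_block`: reindex `ι` as `S ⊕ Sᶜ`.  By `det_mono`-type arguments / Schur complement: for positive definite
  `A = [[P,Q],[Qᵀ,R]]` one has `det A = det P * det (R - Qᵀ P⁻¹ Q) ≤ det P * det R` (`Matrix.det_fromBlocks₁₁`), and
  `det R ≤ ∏ R_ii` by induction on the size (block of size one).  For semidefinite `A` apply this to `A + ε I`
  and let `ε → 0` (continuity), or treat a singular `P` separately.
* pieces of such code may exist in `Pool/Agent/LiebT2/PSD.lean`, `Pool/Agent/SRig/Psd.lean`,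
  `Pool/Agent/PG/Lin.lean` (not required).
-/

set_option autoImplicit false

open Finset

namespace Pool.Agent.DH10

variable {ι : Type*} [Fintype ι] [DecidableEq ι]

/-! ### perturbation by a small multiple of the identity -/

omit [Fintype ι] in
theorem psd_eps {A : Matrix ι ι ℝ} (hA : A.PosSemidef) {ε : ℝ} (hε : 0 < ε) :
    (A + ε • (1 : Matrix ι ι ℝ)).PosDef :=
  Matrix.PosDef.posSemidef_add hA (Matrix.PosDef.one.smul hε)

omit [Fintype ι] in
theorem psd_cont (A : Matrix ι ι ℝ) :
    Filter.Tendsto (fun ε : ℝ => A + ε • (1 : Matrix ι ι ℝ)) (nhdsWithin 0 (Set.Ioi 0)) (nhds A) := by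
  have h : Continuous fun ε : ℝ => A + ε • (1 : Matrix ι ι ℝ) := by fun_prop
  have h2 := h.tendsto 0
  simp only [zero_smul, add_zero] at h2
  exact h2.mono_left nhdsWithin_le_nhds

theorem psd_cont_det (A : Matrix ι ι ℝ) :
    Filter.Tendsto (fun ε : ℝ => (A + ε • (1 : Matrix ι ι ℝ)).det) (nhdsWithin 0 (Set.Ioi 0))
      (nhds A.det) :=
  ((continuous_id.matrix_det).tendsto A).comp (psd_cont A)

theorem psd_conj {X : Matrix ι ι ℝ} (hX : X.IsHermitian) :
    star (hX.eigenvectorUnitary : Matrix ι ι ℝ) * X * (hX.eigenvectorUnitary : Matrix ι ι ℝ) =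
      Matrix.diagonal hX.eigenvalues := by
  have h5 := congrArg (fun Y => star (hX.eigenvectorUnitary : Matrix ι ι ℝ) * Y *
    (hX.eigenvectorUnitary : Matrix ι ι ℝ)) (spi_spec hX)
  have h6 : star (hX.eigenvectorUnitary : Matrix ι ι ℝ) *
      ((hX.eigenvectorUnitary : Matrix ι ι ℝ) * Matrix.diagonal hX.eigenvalues *
        star (hX.eigenvectorUnitary : Matrix ι ι ℝ)) * (hX.eigenvectorUnitary : Matrix ι ι ℝ) =
      (star (hX.eigenvectorUnitary : Matrix ι ι ℝ) * (hX.eigenvectorUnitary : Matrix ι ι ℝ)) *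
        Matrix.diagonal hX.eigenvalues *
        (star (hX.eigenvectorUnitary : Matrix ι ι ℝ) * (hX.eigenvectorUnitary : Matrix ι ι ℝ)) := by
    simp only [Matrix.mul_assoc]
  refine h5.trans ?_
  rw [h6, spi_uu' hX, Matrix.one_mul, Matrix.mul_one]

/-- a positive semidefinite matrix `≤ 1` has determinant `≤ 1` -/
theorem psd_det_le_one {X : Matrix ι ι ℝ} (hX : X.PosSemidef)
    (h : ((1 : Matrix ι ι ℝ) - X).PosSemidef) : X.det ≤ 1 := by
  have hdet : X.det = ∏ i, hX.1.eigenvalues i := by
    have := hX.1.det_eq_prod_eigenvalues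
    simpa using this
  rw [hdet]
  refine Finset.prod_le_one (fun i _ => hX.eigenvalues_nonneg i) fun i _ => ?_
  set U : Matrix ι ι ℝ := (hX.1.eigenvectorUnitary : Matrix ι ι ℝ) with hU
  have hv := h.conjTranspose_mul_mul_same U
  have hstar : U.conjTranspose = star U := rfl
  have hm : U.conjTranspose * ((1 : Matrix ι ι ℝ) - X) * U =
      Matrix.diagonal (fun i => 1 - hX.1.eigenvalues i) := by
    rw [hstar, Matrix.mul_sub, Matrix.sub_mul, Matrix.mul_one, spi_uu' hX.1]
    rw [psd_conj hX.1]
    ext a b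
    by_cases hab : a = b
    · subst hab
      simp
    · simp [hab]
  rw [hm, Matrix.posSemidef_diagonal_iff] at hv
  have := hv i
  linarith

theorem det_mono_pd {A B : Matrix ι ι ℝ} (hA : A.PosSemidef) (hB : B.PosDef)
    (h : (B - A).PosSemidef) : A.det ≤ B.det := by
  have hH := hB.1
  have hl : ∀ i, 0 < hH.eigenvalues i := fun i => hB.eigenvalues_pos i
  set U : Matrix ι ι ℝ := (hH.eigenvectorUnitary : Matrix ι ι ℝ) with hU
  set C : Matrix ι ι ℝ := U * Matrix.diagonal (fun i => (√(hH.eigenvalues i))⁻¹) with hC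
  have hstar : U.conjTranspose = star U := rfl
  have hCt : C.conjTranspose = Matrix.diagonal (fun i => (√(hH.eigenvalues i))⁻¹) * star U := by
    rw [hC, Matrix.conjTranspose_mul, Matrix.diagonal_conjTranspose, hstar]
    congr 1
  have hCBC : C.conjTranspose * B * C = 1 := by
    have h1 : C.conjTranspose * B * C = Matrix.diagonal (fun i => (√(hH.eigenvalues i))⁻¹) *
        (star U * B * U) * Matrix.diagonal (fun i => (√(hH.eigenvalues i))⁻¹) := by
      rw [hCt, hC]
      simp only [Matrix.mul_assoc]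
    rw [h1, psd_conj hH, Matrix.diagonal_mul_diagonal, Matrix.diagonal_mul_diagonal]
    ext a b
    by_cases hab : a = b
    · subst hab
      have h2 := Real.mul_self_sqrt (hl a).le
      have h3 : √(hH.eigenvalues a) ≠ 0 := (Real.sqrt_pos.2 (hl a)).ne'
      simp only [Matrix.diagonal_apply_eq, Matrix.one_apply_eq]
      field_simp
      rw [sq, h2]
    · simp [hab]
  have h1 := hA.conjTranspose_mul_mul_same C
  have h2 := h.conjTranspose_mul_mul_same C
  rw [Matrix.mul_sub, Matrix.sub_mul, hCBC] at h2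
  have h3 := psd_det_le_one h1 h2
  have h4 : (C.conjTranspose).det * B.det * C.det = 1 := by
    rw [← Matrix.det_mul, ← Matrix.det_mul, hCBC, Matrix.det_one]
  rw [Matrix.det_mul, Matrix.det_mul] at h3
  have h5 : (C.conjTranspose).det = C.det := by
    rw [Matrix.det_conjTranspose, star_trivial]
  rw [h5] at h3 h4
  have h6 : 0 < B.det := hB.det_pos
  have h7 : C.det ^ 2 * B.det = 1 := by linear_combination h4
  have h8 : C.det ^ 2 * A.det ≤ 1 := by linarith [h3]
  have h9 : 0 < C.det ^ 2 := by
    by_contra hcon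
    have h10 : C.det ^ 2 = 0 := le_antisymm (not_lt.1 hcon) (sq_nonneg _)
    rw [h10, zero_mul] at h7
    exact zero_ne_one h7
  rw [← h7] at h8
  exact le_of_mul_le_mul_left h8 h9

/-- the determinant is monotone on positive semidefinite matrices -/
theorem det_mono {A B : Matrix ι ι ℝ} (hA : A.PosSemidef) (h : (B - A).PosSemidef) :
    A.det ≤ B.det := by
  have hB : B.PosSemidef := by
    have := hA.add h
    rwa [add_sub_cancel] at this
  refine le_of_tendsto_of_tendsto (psd_cont_det A) (psd_cont_det B) ?_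
  filter_upwards [self_mem_nhdsWithin] with ε hε
  refine det_mono_pd (psd_eps hA hε).posSemidef (psd_eps hB hε) ?_
  rwa [add_sub_add_right_eq_sub]

/-! ### removal of one index -/

theorem psd_step_pd {m : Type*} [Fintype m] [DecidableEq m] {M : Matrix (m ⊕ Unit) (m ⊕ Unit) ℝ}
    (hM : M.PosDef) : M.det ≤ M.toBlocks₁₁.det * M (Sum.inr ()) (Sum.inr ()) := by
  have hP : M.toBlocks₁₁.PosDef := hM.submatrix Sum.inl_injective
  have hdet : 0 < M.toBlocks₁₁.det := hP.det_pos
  have : Invertible M.toBlocks₁₁ := Matrix.invertibleOfIsUnitDet _ (isUnit_iff_ne_zero.2 hdet.ne')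
  have h1 := Matrix.det_fromBlocks₁₁ M.toBlocks₁₁ M.toBlocks₁₂ M.toBlocks₂₁ M.toBlocks₂₂
  rw [Matrix.fromBlocks_toBlocks] at h1
  rw [h1]
  refine mul_le_mul_of_nonneg_left ?_ hdet.le
  have h2 : M.toBlocks₂₁ = M.toBlocks₁₂.conjTranspose := by
    ext i j
    exact (hM.1.apply (Sum.inr i) (Sum.inl j)).symm
  have h3 : (M.toBlocks₂₁ * ⅟M.toBlocks₁₁ * M.toBlocks₁₂).PosSemidef := by
    rw [h2, Matrix.invOf_eq_nonsing_inv]
    exact hP.posSemidef.inv.conjTranspose_mul_mul_same M.toBlocks₁₂
  have h4 := h3.diag_nonneg (i := ())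
  rw [Matrix.det_unique, Matrix.sub_apply]
  have h5 : M.toBlocks₂₂ default default = M (Sum.inr ()) (Sum.inr ()) := rfl
  rw [h5]
  have h6 : (default : Unit) = () := rfl
  rw [h6]
  linarith

theorem psd_step {m : Type*} [Fintype m] [DecidableEq m] {M : Matrix (m ⊕ Unit) (m ⊕ Unit) ℝ}
    (hM : M.PosSemidef) : M.det ≤ M.toBlocks₁₁.det * M (Sum.inr ()) (Sum.inr ()) := by
  have hc : Filter.Tendsto (fun ε : ℝ => (M + ε • (1 : Matrix (m ⊕ Unit) (m ⊕ Unit) ℝ)).toBlocks₁₁.det *
      (M + ε • (1 : Matrix (m ⊕ Unit) (m ⊕ Unit) ℝ)) (Sum.inr ()) (Sum.inr ()))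
      (nhdsWithin 0 (Set.Ioi 0)) (nhds (M.toBlocks₁₁.det * M (Sum.inr ()) (Sum.inr ()))) := by
    have h1 : Continuous fun N : Matrix (m ⊕ Unit) (m ⊕ Unit) ℝ =>
        N.toBlocks₁₁.det * N (Sum.inr ()) (Sum.inr ()) := by
      have h2 : Continuous fun N : Matrix (m ⊕ Unit) (m ⊕ Unit) ℝ => N.toBlocks₁₁ := by
        refine continuous_matrix fun i j => ?_
        exact Continuous.matrix_elem continuous_id _ _
      exact h2.matrix_det.mul (Continuous.matrix_elem continuous_id _ _)
    exact (h1.tendsto M).comp (psd_cont M)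
  refine le_of_tendsto_of_tendsto (psd_cont_det M) hc ?_
  filter_upwards [self_mem_nhdsWithin] with ε hε
  exact psd_step_pd (psd_eps hM hε)

/-- the principal minor on the finset `T` -/
noncomputable def psd_minor (A : Matrix ι ι ℝ) (T : Finset ι) : ℝ :=
  (A.submatrix (fun i : T => i.1) (fun i : T => i.1)).det

omit [Fintype ι] in
theorem psd_minor_nonneg {A : Matrix ι ι ℝ} (hA : A.PosSemidef) (T : Finset ι) :
    0 ≤ psd_minor A T := (hA.submatrix _).det_nonneg

theorem psd_minor_insert {A : Matrix ι ι ℝ} (hA : A.PosSemidef) {T : Finset ι} {a : ι}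
    (ha : a ∉ T) : psd_minor A (insert a T) ≤ psd_minor A T * A a a := by
  let f : T ⊕ Unit → ι := Sum.elim (fun i => i.1) (fun _ => a)
  have hf : ∀ x, f x ∈ insert a T := by
    rintro (x | x)
    · exact Finset.mem_insert_of_mem x.2
    · exact Finset.mem_insert_self _ _
  let g : T ⊕ Unit → (insert a T : Finset ι) := fun x => ⟨f x, hf x⟩
  have hg : Function.Bijective g := by
    constructor
    · rintro (x | x) (y | y) hxy
      · have : x.1 = y.1 := congrArg (fun z : (insert a T : Finset ι) => z.1) hxy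
        rw [Subtype.ext this]
      · have : x.1 = a := congrArg (fun z : (insert a T : Finset ι) => z.1) hxy
        exact absurd (this ▸ x.2) ha
      · have : a = y.1 := congrArg (fun z : (insert a T : Finset ι) => z.1) hxy
        exact absurd (this ▸ y.2) ha
      · rfl
    · rintro ⟨y, hy⟩
      rcases Finset.mem_insert.1 hy with h | h
      · exact ⟨Sum.inr (), Subtype.ext h.symm⟩
      · exact ⟨Sum.inl ⟨y, h⟩, rfl⟩
  have h1 := psd_step (hA.submatrix f)
  have h2 : (A.submatrix f f).det = psd_minor A (insert a T) := by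
    have := Matrix.det_submatrix_equiv_self (Equiv.ofBijective g hg)
      (A.submatrix (fun i : (insert a T : Finset ι) => i.1) (fun i : (insert a T : Finset ι) => i.1))
    rw [psd_minor, ← this]
    rfl
  rw [h2] at h1
  exact h1

/-- Fischer's inequality combined with Hadamard's on the complement -/
theorem det_le_block {A : Matrix ι ι ℝ} (hA : A.PosSemidef) (S : Finset ι) :
    A.det ≤ (A.submatrix (fun i : S => i.1) (fun i : S => i.1)).det * ∏ i ∈ Sᶜ, A i i := by
  have key : ∀ U : Finset ι, Disjoint S U → psd_minor A (S ∪ U) ≤ psd_minor A S * ∏ i ∈ U, A i i := by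
    intro U
    induction U using Finset.induction_on with
    | empty => intro _; simp
    | insert a U ha ih =>
      intro hd
      rw [Finset.disjoint_insert_right] at hd
      have h1 : a ∉ S ∪ U := by
        rw [Finset.mem_union, not_or]
        exact ⟨hd.1, ha⟩
      rw [Finset.union_insert, Finset.prod_insert ha]
      calc psd_minor A (insert a (S ∪ U)) ≤ psd_minor A (S ∪ U) * A a a := psd_minor_insert hA h1
        _ ≤ (psd_minor A S * ∏ i ∈ U, A i i) * A a a :=
            mul_le_mul_of_nonneg_right (ih hd.2) hA.diag_nonneg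
        _ = psd_minor A S * (A a a * ∏ i ∈ U, A i i) := by ring
  have h := key Sᶜ disjoint_compl_right
  rw [Finset.union_compl] at h
  have h2 : A.det = psd_minor A univ := by
    have hb : Function.Bijective (fun i : (univ : Finset ι) => i.1) :=
      ⟨Subtype.val_injective, fun y => ⟨⟨y, Finset.mem_univ y⟩, rfl⟩⟩
    exact (Matrix.det_submatrix_equiv_self (Equiv.ofBijective _ hb) A).symm
  rw [h2]
  exact h

/-- Hadamard's inequality -/
theorem det_le_prod_diag {A : Matrix ι ι ℝ} (hA : A.PosSemidef) : A.det ≤ ∏ i, A i i := by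
  have h := det_le_block hA ∅
  have h0 : (A.submatrix (fun i : (∅ : Finset ι) => i.1) (fun i : (∅ : Finset ι) => i.1)).det = 1 :=
    Matrix.det_isEmpty
  rw [Finset.compl_empty, h0, one_mul] at h
  exact h

/-- Gram-type matrices `M diag(x) Mᵀ` with `x ≥ 0` are positive semidefinite -/
theorem psd_gram {κ : Type*} [Fintype κ] [DecidableEq κ] (M : Matrix ι κ ℝ) (x : κ → ℝ)
    (hx : ∀ k, 0 ≤ x k) : (M * Matrix.diagonal x * M.transpose).PosSemidef := by
  have h := (Matrix.posSemidef_diagonal_iff.2 hx).mul_mul_conjTranspose_same M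
  rwa [Matrix.conjTranspose_eq_transpose_of_trivial] at h

/-- a criterion in terms of quadratic forms -/
theorem psd_sub_of_forall {A B : Matrix ι ι ℝ} (hA : A.transpose = A) (hB : B.transpose = B)
    (h : ∀ v : ι → ℝ, ∑ i, ∑ j, A i j * v i * v j ≤ ∑ i, ∑ j, B i j * v i * v j) :
    (B - A).PosSemidef := by
  refine Matrix.PosSemidef.of_dotProduct_mulVec_nonneg ?_ fun v => ?_
  · rw [Matrix.IsHermitian, Matrix.conjTranspose_eq_transpose_of_trivial, Matrix.transpose_sub,
      hA, hB]
  · have h1 : star v ⬝ᵥ ((B - A).mulVec v) =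
        ∑ i, ∑ j, B i j * v i * v j - ∑ i, ∑ j, A i j * v i * v j := by
      rw [← Finset.sum_sub_distrib, dotProduct]
      refine Finset.sum_congr rfl fun i _ => ?_
      rw [Matrix.mulVec, dotProduct, Finset.mul_sum, ← Finset.sum_sub_distrib]
      refine Finset.sum_congr rfl fun j _ => ?_
      simp only [Matrix.sub_apply, Pi.star_apply, star_trivial]
      ring
    rw [h1]
    exact sub_nonneg.2 (h v)

end Pool.Agent.DH10
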