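import Pool.Agent.DH10.Master
import Pool.Agent.DH10.PsdDet

/-!
# DH10.Basic1 : first consequences of the master identity (1.3), (1.5)

* `sum_W`: `x = 1` and (1.1).
* `indep_of_W_ne_zero`: `W S ≠ 0` gives `det (B_S B_Sᵀ) ≠ 0` (`card_H1_sq`), so the columns of `B_S` (hence of `D_S`) are
  linearly independent.
* `prob_superset_le`: `x = 1 + s 1_A` in the master identity: by (1.1) and Sylvester's identity
  `E (1+s)^{|A ∩ T|} = det (1 + (s/n) D_A D_Aᵀ) = det (1_A + (s/n) D_Aᵀ D_A) ≤ (1 + 3s/n)^{|A|}` (Hadamard,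
  `|D(t)|² = 3`); the left side is `≥ (1+s)^{|A|} P(A ⊆ T)`; divide and let `s → ∞`.
* `w_eq_det`: master identity for the indicator of `Z f`.
* `Mx_diag`: the diagonal entry of `n Mx(1_{Z f})` at `e = (x,y)` is `2 + #{t ∈ Z f : e ∈ t} = D_xy`.
* `w_le_Phi`: Hadamard.
-/

set_option autoImplicit false

open Finset

namespace Pool.Agent.DH10

noncomputable section

variable {n : ℕ}

theorem W_nonneg (S : Finset (Tri n)) : 0 ≤ W S := by
  unfold W
  positivity

theorem sum_W (hn : 3 ≤ n) : ∑ S ∈ cand n, W S = 1 := by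
  have h := master hn (fun _ => (1 : ℝ))
  simp only [prod_const_one, mul_one] at h
  rw [h]
  have hn0 : (n : ℝ) ≠ 0 := by
    have : (0 : ℝ) < n := by exact_mod_cast (by omega : 0 < n)
    exact this.ne'
  have h1 : Mx (fun _ : Tri n => (1 : ℝ)) = 1 := by
    unfold Mx
    rw [Matrix.diagonal_one, Matrix.mul_one, dM_mul_add, smul_smul, one_div,
      inv_mul_cancel₀ hn0, one_smul]
  rw [h1, Matrix.det_one]

theorem indep_of_W_ne_zero {S : Finset (Tri n)} (hS : S ∈ cand n) (hn : 3 ≤ n) (h : W S ≠ 0) :
    LinearIndependent ℝ (fun t : S => fun e : Edg n => DM n e t.1) := by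
  have hcard : S.card = NN n := (mem_powersetCard.mp hS).2
  have h1 := card_H1_sq S (by omega) hcard
  have h2 : (Nat.card (H1 S) : ℤ) ≠ 0 := by
    intro h0
    apply h
    unfold W
    have : (Nat.card (H1 S) : ℝ) = 0 := by exact_mod_cast h0
    rw [this]
    simp
  have h3 : (Bm S * (Bm S).transpose).det ≠ 0 := by
    rw [← h1]
    exact pow_ne_zero 2 h2
  have hce : Fintype.card (NSE n) = Fintype.card S := by
    rw [card_NSE, Fintype.card_coe, hcard]
  obtain ⟨e⟩ := Fintype.card_eq.mp hce
  set B' : Matrix (NSE n) (NSE n) ℤ := (Bm S).submatrix id e with hB'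
  have h4 : B' * B'.transpose = Bm S * (Bm S).transpose := by
    ext i j
    simp only [Matrix.mul_apply, hB', Matrix.transpose_apply, Matrix.submatrix_apply, id]
    exact e.sum_comp (fun k => Bm S i k * Bm S j k)
  have h5 : B'.det ≠ 0 := by
    intro h0
    apply h3
    rw [← h4, Matrix.det_mul, h0, zero_mul]
  have h6 : (B'.map (Int.castRingHom ℝ)).det ≠ 0 := by
    have := RingHom.map_det (Int.castRingHom ℝ) B'
    rw [RingHom.mapMatrix_apply] at this
    rw [← this]
    simpa using h5
  rw [Fintype.linearIndependent_iff]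
  intro g hg
  have h7 : (B'.map (Int.castRingHom ℝ)).mulVec (fun k => g (e k)) = 0 := by
    funext i
    have h8 := congrFun hg i.1
    rw [Finset.sum_apply] at h8
    simp only [Pi.smul_apply, smul_eq_mul, Pi.zero_apply] at h8
    simp only [Matrix.mulVec, dotProduct, Matrix.map_apply, hB', Matrix.submatrix_apply, id,
      Pi.zero_apply]
    rw [← h8, ← e.sum_comp]
    apply sum_congr rfl
    intro k _
    rw [mul_comm]
    rfl
  have h8 := Matrix.eq_zero_of_mulVec_eq_zero h6 h7
  intro t
  have := congrFun h8 (e.symm t)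
  simpa using this

private theorem basic1_D2_sq (e : Edg n) (t : Tri n) :
    (D2 e t) ^ 2 = (if e = t.ab then 1 else 0) + (if e = t.bc then 1 else 0)
      + (if e = t.ac then 1 else 0) := by
  unfold D2
  have h1 : t.ab ≠ t.bc := by
    intro h
    have := congrArg (fun q : Edg n => q.1.1) h
    exact t.2.1.ne this
  have h2 : t.ab ≠ t.ac := by
    intro h
    have := congrArg (fun q : Edg n => q.1.2) h
    exact t.2.2.ne this
  have h3 : t.bc ≠ t.ac := by
    intro h
    have := congrArg (fun q : Edg n => q.1.1) h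
    exact t.2.1.ne this.symm
  by_cases a1 : e = t.ab
  · subst a1
    rw [if_pos rfl, if_neg h1, if_neg h2]
    norm_num
  · by_cases a2 : e = t.bc
    · subst a2
      rw [if_neg h1.symm, if_pos rfl, if_neg h3]
      norm_num
    · rw [if_neg a1, if_neg a2]
      split_ifs <;> norm_num

private theorem basic1_D2_norm (t : Tri n) : ∑ e : Edg n, (DM n e t) ^ 2 = 3 := by
  have h : ∀ e : Edg n, (DM n e t) ^ 2 = (if e = t.ab then (1 : ℝ) else 0)
      + (if e = t.bc then 1 else 0) + (if e = t.ac then 1 else 0) := by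
    intro e
    have := basic1_D2_sq e t
    unfold DM
    rw [Matrix.of_apply]
    exact_mod_cast this
  rw [sum_congr rfl (fun e _ => h e), sum_add_distrib, sum_add_distrib, sum_ite_eq', sum_ite_eq',
    sum_ite_eq']
  simp
  norm_num

private theorem basic1_exp_bound (hn : 3 ≤ n) (A : Finset (Tri n)) {s : ℝ} (hs : 0 ≤ s) :
    (Mx (fun t => 1 + s * (if t ∈ A then (1 : ℝ) else 0))).det ≤ (1 + 3 * s / n) ^ A.card := by
  have hnpos : (0 : ℝ) < n := by exact_mod_cast (by omega : 0 < n)
  set DA : Matrix (Edg n) A ℝ := Matrix.of fun e t => DM n e t.1 with hDA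
  have h2 : DM n * Matrix.diagonal (fun t => 1 + s * (if t ∈ A then (1 : ℝ) else 0))
      * (DM n).transpose = DM n * (DM n).transpose + s • (DA * DA.transpose) := by
    ext i j
    have e1 : ∀ t : Tri n, (DM n * Matrix.diagonal
        (fun t => 1 + s * (if t ∈ A then (1 : ℝ) else 0))) i t * (DM n).transpose t j
        = DM n i t * DM n j t + s * (if t ∈ A then DM n i t * DM n j t else 0) := by
      intro t
      rw [Matrix.mul_diagonal, Matrix.transpose_apply]
      split_ifs <;> ring
    have e2 : (DM n * (DM n).transpose + s • (DA * DA.transpose)) i j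
        = ∑ t, DM n i t * DM n j t + s * ∑ t : A, DM n i t.1 * DM n j t.1 := rfl
    rw [e2, Matrix.mul_apply, sum_congr rfl (fun t _ => e1 t), sum_add_distrib, ← mul_sum]
    congr 2
    rw [← sum_filter, sum_coe_sort A (fun t => DM n i t * DM n j t)]
    apply sum_congr
    · ext t
      simp
    · intro t _
      rfl
  have h1 : Mx (fun t => 1 + s * (if t ∈ A then (1 : ℝ) else 0))
      = 1 + DA * ((s / n) • DA.transpose) := by
    unfold Mx
    rw [h2, ← add_assoc, dM_mul_add, smul_add, smul_smul, smul_smul, one_div,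
      inv_mul_cancel₀ hnpos.ne', one_smul, Matrix.mul_smul]
    congr 2
    rw [div_eq_inv_mul]
  rw [h1, Matrix.det_one_add_mul_comm]
  obtain ⟨E, hE⟩ : ∃ E : Matrix A (Edg n) ℝ, E = (s / n) • DA.transpose := ⟨_, rfl⟩
  obtain ⟨K, hK⟩ : ∃ K : Matrix A A ℝ, K = 1 + E * DA := ⟨_, rfl⟩
  have hgoal : (1 + ((s / n) • DA.transpose) * DA) = K := by rw [hK, hE]
  rw [hgoal]
  have h3 : K.PosSemidef := by
    rw [hK]
    apply Matrix.PosSemidef.add Matrix.PosSemidef.one
    have h4 := psd_gram DA.transpose (fun _ => (s / n : ℝ)) (fun _ => by positivity)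
    have h4' : DA.transpose * (Matrix.diagonal (fun _ => (s / n : ℝ)) :
        Matrix (Edg n) (Edg n) ℝ) = E := by
      rw [hE]
      ext i j
      rw [Matrix.mul_diagonal, Matrix.smul_apply, smul_eq_mul, mul_comm]
    have h5 : DA.transpose * (Matrix.diagonal (fun _ => (s / n : ℝ)) :
        Matrix (Edg n) (Edg n) ℝ) * DA.transpose.transpose = E * DA := by
      rw [h4', Matrix.transpose_transpose]
    rw [h5] at h4
    exact h4
  refine (det_le_prod_diag h3).trans (le_of_eq ?_)
  have h6 : ∀ t : A, K t t = 1 + 3 * s / n := by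
    intro t
    have e3 : K t t = (1 : Matrix A A ℝ) t t + ∑ e, (s / n) * DM n e t.1 * DM n e t.1 := by
      rw [hK, hE]
      rfl
    rw [e3, Matrix.one_apply_eq]
    have e4 : ∑ e, (s / n) * DM n e t.1 * DM n e t.1 = (s / n) * ∑ e, (DM n e t.1) ^ 2 := by
      rw [mul_sum]
      exact sum_congr rfl (fun e _ => by ring)
    rw [e4, basic1_D2_norm]
    ring
  rw [prod_congr rfl (fun t _ => h6 t), prod_const, card_univ, Fintype.card_coe]

theorem prob_superset_le (hn : 3 ≤ n) (A : Finset (Tri n)) :
    ∑ S ∈ (cand n).filter (fun S => A ⊆ S), W S ≤ (3 / (n : ℝ)) ^ A.card := by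
  set P := ∑ S ∈ (cand n).filter (fun S => A ⊆ S), W S with hP
  have key : ∀ s : ℝ, 0 ≤ s → P ≤ ((1 + 3 * s / n) / (1 + s)) ^ A.card := by
    intro s hs
    have h1 := basic1_exp_bound hn A hs
    rw [← master hn] at h1
    have h2 : (1 + s) ^ A.card * P ≤ ∑ S ∈ cand n, W S *
        ∏ t ∈ S, (1 + s * (if t ∈ A then (1 : ℝ) else 0)) := by
      rw [hP, mul_sum]
      refine le_trans ?_ (sum_le_sum_of_subset_of_nonneg (filter_subset (fun S => A ⊆ S) _) ?_)
      · apply sum_le_sum
        intro S hS
        rw [mul_comm]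
        apply mul_le_mul_of_nonneg_left _ (W_nonneg S)
        have hAS := (mem_filter.mp hS).2
        rw [← prod_subset_one_on_sdiff hAS (f := fun _ => (1 + s : ℝ))
          (g := fun t => 1 + s * (if t ∈ A then (1 : ℝ) else 0)) ?_ ?_, prod_const]
        · intro t ht
          have := (mem_sdiff.mp ht).2
          simp [this]
        · intro t ht
          simp [ht]
      · intro S _ _
        apply mul_nonneg (W_nonneg S)
        apply prod_nonneg
        intro t _
        split_ifs <;> linarith
    rw [div_pow, le_div_iff₀ (by positivity), mul_comm]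
    exact h2.trans h1
  have hlim : Filter.Tendsto (fun s : ℝ => ((1 + 3 * s / n) / (1 + s)) ^ A.card) Filter.atTop
      (nhds ((3 / (n : ℝ)) ^ A.card)) := by
    apply Filter.Tendsto.pow
    have h3 : Filter.Tendsto (fun s : ℝ => 3 / (n : ℝ) + (1 - 3 / (n : ℝ)) * (1 + s)⁻¹)
        Filter.atTop (nhds (3 / (n : ℝ) + (1 - 3 / (n : ℝ)) * 0)) := by
      apply Filter.Tendsto.const_add
      apply Filter.Tendsto.const_mul
      apply Filter.Tendsto.inv_tendsto_atTop
      exact Filter.tendsto_atTop_add_const_left _ _ Filter.tendsto_id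
    rw [mul_zero, add_zero] at h3
    refine h3.congr' ?_
    filter_upwards [Filter.eventually_ge_atTop (0 : ℝ)] with s hs
    have : (1 + s) ≠ 0 := by positivity
    field_simp
    ring
  refine ge_of_tendsto hlim ?_
  filter_upwards [Filter.eventually_ge_atTop (0 : ℝ)] with s hs
  exact key s hs

theorem prob_superset_dep (hn : 3 ≤ n) (A : Finset (Tri n))
    (hA : ¬ LinearIndependent ℝ (fun t : A => fun e : Edg n => DM n e t.1)) :
    ∑ S ∈ (cand n).filter (fun S => A ⊆ S), W S = 0 := by
  apply sum_eq_zero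
  intro S hS
  obtain ⟨hS1, hS2⟩ := mem_filter.mp hS
  by_contra hW
  apply hA
  have h1 := indep_of_W_ne_zero hS1 hn hW
  exact h1.comp (fun t : A => (⟨t.1, hS2 t.2⟩ : S)) (fun a b hab => by
    apply Subtype.ext
    exact congrArg (fun q : S => q.1) hab)

theorem Mx_psd {x : Tri n → ℝ} (hx : ∀ t, 0 ≤ x t) : (Mx x).PosSemidef := by
  unfold Mx
  apply Matrix.PosSemidef.smul _ (by positivity)
  apply Matrix.PosSemidef.add
  · have := psd_gram (dM n) (fun _ => (1 : ℝ)) (fun _ => zero_le_one)
    rwa [Matrix.diagonal_one, Matrix.mul_one] at this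
  · exact psd_gram (DM n) x hx

variable {G : Type} [AddCommGroup G] [DecidableEq G]

theorem w_nonneg (f : Coch n G) : 0 ≤ w f :=
  sum_nonneg (fun S _ => W_nonneg S)

theorem w_le_one (hn : 3 ≤ n) (f : Coch n G) : w f ≤ 1 := by
  rw [← sum_W hn]
  exact sum_le_sum_of_subset_of_nonneg (filter_subset _ _) (fun S _ _ => W_nonneg S)

theorem w_eq_det (hn : 3 ≤ n) (f : Coch n G) :
    w f = (Mx (fun t => if t ∈ Z f then (1 : ℝ) else 0)).det := by
  rw [← master hn]
  unfold w
  rw [sum_filter]
  apply sum_congr rfl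
  intro S _
  split_ifs with h
  · rw [prod_congr rfl (fun t ht => if_pos (h ht)), prod_const_one, mul_one]
  · obtain ⟨t, ht, htZ⟩ := not_subset.mp h
    rw [prod_eq_zero ht (if_neg htZ), mul_zero]

private theorem basic1_mem_Z (f : Coch n G) (t : Tri n) : t ∈ Z f ↔ curT f t = 0 := by
  unfold Z
  rw [mem_filter]
  simp

omit [DecidableEq G] in
private theorem basic1_val_swap (f : Coch n G) (x y : Fin n) : val f y x = - val f x y := by
  unfold val
  rcases lt_trichotomy x y with h | h | h
  · rw [dif_neg (not_lt.mpr h.le), dif_pos h, dif_pos h]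
  · subst h
    simp
  · rw [dif_pos h, dif_neg (not_lt.mpr h.le), dif_pos h, neg_neg]

omit [DecidableEq G] in
private theorem basic1_val_self (f : Coch n G) (x : Fin n) : val f x x = 0 := by
  unfold val
  simp

omit [DecidableEq G] in
private theorem basic1_cur_iff (f : Coch n G) (x y z : Fin n) :
    (cur f x z y = 0 ↔ val f x z + val f z y = val f x y)
      ∧ (cur f x y z = 0 ↔ val f x z + val f z y = val f x y)
      ∧ (cur f z x y = 0 ↔ val f x z + val f z y = val f x y) := by
  unfold cur
  rw [basic1_val_swap f x y, basic1_val_swap f z y, basic1_val_swap f x z]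
  refine ⟨?_, ?_, ?_⟩
  · rw [← sub_eq_add_neg, sub_eq_zero]
  · constructor
    · intro h
      have : val f x y - (val f x z + val f z y) = 0 := by rw [← h]; abel
      exact (sub_eq_zero.mp this).symm
    · intro h
      rw [← h]
      abel
  · constructor
    · intro h
      have : val f x y - (val f x z + val f z y) = 0 := by rw [← h]; abel
      exact (sub_eq_zero.mp this).symm
    · intro h
      rw [← h]
      abel

private theorem basic1_dd (e : Edg n) : (dM n * (dM n).transpose) e e = 2 := by
  have h1 : (dM n * (dM n).transpose) e e = ∑ v : Fin n, ((D1 v e : ℝ)) * (D1 v e : ℝ) := rfl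
  have hne : e.1.1 ≠ e.1.2 := e.2.ne
  have h2 : ∀ v : Fin n, ((D1 v e : ℝ)) * (D1 v e : ℝ)
      = (if v = e.1.2 then (1 : ℝ) else 0) + (if v = e.1.1 then 1 else 0) := by
    intro v
    unfold D1
    by_cases h : v = e.1.2
    · subst h
      rw [if_pos rfl, if_neg hne.symm, if_pos rfl, if_neg hne.symm]
      norm_num
    · rw [if_neg h, if_neg h]
      split_ifs <;> norm_num
  rw [h1, sum_congr rfl (fun v _ => h2 v), sum_add_distrib, sum_ite_eq', sum_ite_eq']
  simp
  norm_num

private theorem basic1_DD (x : Tri n → ℝ) (e : Edg n) :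
    (DM n * Matrix.diagonal x * (DM n).transpose) e e
      = ∑ t ∈ univ.filter (fun t : Tri n => e = t.ab), x t
        + ∑ t ∈ univ.filter (fun t : Tri n => e = t.bc), x t
        + ∑ t ∈ univ.filter (fun t : Tri n => e = t.ac), x t := by
  rw [Matrix.mul_apply, sum_filter, sum_filter, sum_filter, ← sum_add_distrib, ← sum_add_distrib]
  apply sum_congr rfl
  intro t _
  rw [Matrix.mul_diagonal, Matrix.transpose_apply]
  have h : (DM n e t) * (DM n e t) = (if e = t.ab then (1 : ℝ) else 0)
      + (if e = t.bc then 1 else 0) + (if e = t.ac then 1 else 0) := by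
    have := basic1_D2_sq e t
    unfold DM
    rw [Matrix.of_apply, ← sq]
    exact_mod_cast this
  have h2 : DM n e t * x t * DM n e t = (DM n e t * DM n e t) * x t := by ring
  rw [h2, h, add_mul, add_mul, ite_mul, ite_mul, ite_mul, one_mul, zero_mul]

theorem Mx_diag (hn : 3 ≤ n) (f : Coch n G) (e : Edg n) :
    Mx (fun t => if t ∈ Z f then (1 : ℝ) else 0) e e = (Dg f e.1.1 e.1.2 : ℝ) / n := by
  have h1 : Mx (fun t => if t ∈ Z f then (1 : ℝ) else 0) e e
      = (1 / (n : ℝ)) * ((dM n * (dM n).transpose) e e + (DM n * Matrix.diagonal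
        (fun t => if t ∈ Z f then (1 : ℝ) else 0) * (DM n).transpose) e e) := rfl
  rw [h1, basic1_dd, basic1_DD, one_div, div_eq_inv_mul]
  congr 1
  obtain ⟨⟨x, y⟩, hxy⟩ := e
  have hxy' : x < y := hxy
  have c1 : ∑ t ∈ univ.filter (fun t : Tri n => (⟨(x, y), hxy⟩ : Edg n) = t.ab),
      (if t ∈ Z f then (1 : ℝ) else 0)
      = ∑ z ∈ univ.filter (fun z : Fin n => y < z),
        (if val f x z + val f z y = val f x y then (1 : ℝ) else 0) := by
    symm
    refine sum_bij' (fun z hz => ⟨(x, y, z), ⟨hxy', (mem_filter.mp hz).2⟩⟩) (fun t _ => t.1.2.2)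
      ?_ ?_ ?_ ?_ ?_
    · intro z hz
      simp [Tri.ab]
    · intro t ht
      have := (mem_filter.mp ht).2
      have h2 := congrArg (fun q : Edg n => q.1.2) this
      simp only [Tri.ab] at h2
      rw [mem_filter]
      refine ⟨mem_univ _, ?_⟩
      rw [h2]
      exact t.2.2
    · intro z hz
      rfl
    · intro t ht
      have := (mem_filter.mp ht).2
      have h2 := congrArg (fun q : Edg n => q.1.2) this
      have h3 := congrArg (fun q : Edg n => q.1.1) this
      simp only [Tri.ab] at h2 h3
      apply Subtype.ext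
      simp only [h2, h3]
    · intro z hz
      refine if_congr ?_ rfl rfl
      rw [basic1_mem_Z]
      exact (basic1_cur_iff f x y z).2.1.symm
  have c2 : ∑ t ∈ univ.filter (fun t : Tri n => (⟨(x, y), hxy⟩ : Edg n) = t.bc),
      (if t ∈ Z f then (1 : ℝ) else 0)
      = ∑ z ∈ univ.filter (fun z : Fin n => z < x),
        (if val f x z + val f z y = val f x y then (1 : ℝ) else 0) := by
    symm
    refine sum_bij' (fun z hz => ⟨(z, x, y), ⟨(mem_filter.mp hz).2, hxy'⟩⟩) (fun t _ => t.1.1)
      ?_ ?_ ?_ ?_ ?_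
    · intro z hz
      simp [Tri.bc]
    · intro t ht
      have := (mem_filter.mp ht).2
      have h2 := congrArg (fun q : Edg n => q.1.1) this
      simp only [Tri.bc] at h2
      rw [mem_filter]
      refine ⟨mem_univ _, ?_⟩
      rw [h2]
      exact t.2.1
    · intro z hz
      rfl
    · intro t ht
      have := (mem_filter.mp ht).2
      have h2 := congrArg (fun q : Edg n => q.1.2) this
      have h3 := congrArg (fun q : Edg n => q.1.1) this
      simp only [Tri.bc] at h2 h3
      apply Subtype.ext
      simp only [h2, h3]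
    · intro z hz
      refine if_congr ?_ rfl rfl
      rw [basic1_mem_Z]
      exact (basic1_cur_iff f x y z).2.2.symm
  have c3 : ∑ t ∈ univ.filter (fun t : Tri n => (⟨(x, y), hxy⟩ : Edg n) = t.ac),
      (if t ∈ Z f then (1 : ℝ) else 0)
      = ∑ z ∈ univ.filter (fun z : Fin n => x < z ∧ z < y),
        (if val f x z + val f z y = val f x y then (1 : ℝ) else 0) := by
    symm
    refine sum_bij' (fun z hz => ⟨(x, z, y), (mem_filter.mp hz).2⟩) (fun t _ => t.1.2.1)
      ?_ ?_ ?_ ?_ ?_
    · intro z hz
      simp [Tri.ac]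
    · intro t ht
      have := (mem_filter.mp ht).2
      have h2 := congrArg (fun q : Edg n => q.1.1) this
      have h3 := congrArg (fun q : Edg n => q.1.2) this
      simp only [Tri.ac] at h2 h3
      rw [mem_filter]
      refine ⟨mem_univ _, ?_⟩
      rw [h2, h3]
      exact t.2
    · intro z hz
      rfl
    · intro t ht
      have := (mem_filter.mp ht).2
      have h2 := congrArg (fun q : Edg n => q.1.2) this
      have h3 := congrArg (fun q : Edg n => q.1.1) this
      simp only [Tri.ac] at h2 h3
      apply Subtype.ext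
      simp only [h2, h3]
    · intro z hz
      refine if_congr ?_ rfl rfl
      rw [basic1_mem_Z]
      exact (basic1_cur_iff f x y z).1.symm
  rw [c1, c2, c3]
  have h6 : (Dg f x y : ℝ)
      = ∑ z : Fin n, (if val f x z + val f z y = val f x y then (1 : ℝ) else 0) := by
    unfold Dg
    rw [card_filter]
    push_cast
    rfl
  rw [h6, sum_filter, sum_filter, sum_filter]
  have h7 : (2 : ℝ) = ∑ z : Fin n, ((if z = x then (1 : ℝ) else 0)
      + (if z = y then (1 : ℝ) else 0)) := by
    rw [sum_add_distrib, sum_ite_eq', sum_ite_eq']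
    simp
    norm_num
  rw [h7, ← sum_add_distrib, ← sum_add_distrib, ← sum_add_distrib]
  apply sum_congr rfl
  intro z _
  rcases lt_trichotomy z x with hz | hz | hz
  · rw [if_neg hz.ne, if_neg (hz.trans hxy').ne, if_neg (not_lt.mpr (hz.trans hxy').le),
      if_pos hz, if_neg (fun h : x < z ∧ z < y => lt_asymm h.1 hz)]
    ring
  · subst hz
    rw [basic1_val_self, zero_add, if_pos rfl, if_pos rfl, if_neg hxy'.ne,
      if_neg (not_lt.mpr hxy'.le), if_neg (lt_irrefl _), if_neg (fun h : z < z ∧ z < y => lt_irrefl _ h.1)]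
    ring
  · rcases lt_trichotomy z y with hz' | hz' | hz'
    · rw [if_neg hz.ne', if_neg hz'.ne, if_neg (not_lt.mpr hz'.le), if_neg (not_lt.mpr hz.le),
        if_pos ⟨hz, hz'⟩]
      ring
    · subst hz'
      rw [basic1_val_self, add_zero, if_neg hz.ne', if_pos rfl, if_neg (lt_irrefl _),
        if_neg (not_lt.mpr hz.le), if_neg (fun h : x < z ∧ z < z => lt_irrefl _ h.2), if_pos rfl]
      ring
    · rw [if_neg hz.ne', if_neg hz'.ne', if_pos hz', if_neg (not_lt.mpr hz.le),
        if_neg (fun h : x < z ∧ z < y => lt_asymm h.2 hz')]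
      ring

theorem w_le_Phi (hn : 3 ≤ n) (f : Coch n G) : w f ≤ Phi f := by
  rw [w_eq_det hn]
  refine (det_le_prod_diag (Mx_psd (fun t => by split_ifs <;> norm_num))).trans (le_of_eq ?_)
  unfold Phi
  exact prod_congr rfl (fun e _ => Mx_diag hn f e)

end

end Pool.Agent.DH10
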