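import Pool.Agent.DH10.GroupPairs

/-!
# DH10.PsiEx : finite abelian p-groups and homomorphisms to `ZMod p`

* `exists_psi`: a proper subgroup `H` of a finite abelian `p`-group `G` is contained in the kernel of a surjection
  `G → ZMod p`.  (Choose a maximal proper subgroup `M ≥ H`; `G/M` is a simple abelian `p`-group, hence of order `p`, hence
  isomorphic to `ZMod p`.  Or: `A = G/H ≠ 0` is a finite abelian `p`-group, `pA ≠ A`, take a nonzero linear functional of the
  `F_p`-vector space `A/pA`.)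
* `hom_le`: if `|G| = p^l` then `|Hom(H,G)| ≤ |Hom(H,F_p)|^l` for every finite `H`.  Induction on `l`: for
  `ψ : G → ZMod p` onto with kernel `G'` (`|G'| = p^{l-1}`), the fibres of `Hom(H,G) → Hom(H,F_p)`, `φ ↦ ψ φ`, are cosets of
  `Hom(H,G')` (or empty).  Finally `Hom(H, F_p^l) = Hom(H,F_p)^l`.
* `sur_syl`: for `A` finite abelian and `B` an abelian `p`-group, restriction to the `p`-primary component is a bijection
  `Sur(A,B) → Sur(A_p,B)` (`A = A_p × A'` with `|A'|` prime to `p`: if `|A| = p^k m`, `p ∤ m`, choose `u` with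
  `u m ≡ 1 mod p^k`; then `a = (u m) a + (1 - u m) a` with `(u m) a ∈ A_p` and `φ((1 - um) a) = 0` for each `φ : A → B`; the
  inverse map is `φ ↦ (a ↦ φ ((u m) a))`).
-/

set_option autoImplicit false

open Finset

namespace Pool.Agent.DH10

noncomputable section

theorem exists_psi (p : ℕ) [Fact p.Prime] (G : Type) [AddCommGroup G] [Finite G] (hG : IsP p G)
    (H : AddSubgroup G) (hH : H ≠ ⊤) : ∃ ψ : G →+ ZMod p, Function.Surjective ψ ∧ H ≤ ψ.ker := by
  have hp : p.Prime := Fact.out
  obtain ⟨M, hM, hHM⟩ := (eq_top_or_exists_le_coatom H).resolve_left hH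
  -- an element `x ∉ M` with `p x ∈ M`
  obtain ⟨y, hy⟩ : ∃ y : G, y ∉ M := by
    by_contra h
    push Not at h
    exact hM.1 (eq_top_iff.2 fun z _ => h z)
  have hex : ∃ k : ℕ, p ^ k • y ∈ M := by
    obtain ⟨k, hk⟩ := hG y
    exact ⟨k, by rw [hk]; exact M.zero_mem⟩
  classical
  obtain ⟨x, hx, hpx⟩ : ∃ x : G, x ∉ M ∧ p • x ∈ M := by
    have h1 := Nat.find_spec hex
    have h0 : Nat.find hex ≠ 0 := by
      intro h0
      rw [h0, pow_zero, one_nsmul] at h1
      exact hy h1
    obtain ⟨j, hj⟩ := Nat.exists_eq_succ_of_ne_zero h0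
    refine ⟨p ^ j • y, Nat.find_min hex (by omega), ?_⟩
    rw [← mul_nsmul', ← pow_succ']
    rw [hj] at h1
    exact h1
  have htop : M ⊔ AddSubgroup.zmultiples x = ⊤ := by
    refine hM.2 _ ?_
    refine lt_of_le_of_ne le_sup_left fun h => hx ?_
    rw [h]
    exact (le_sup_right : AddSubgroup.zmultiples x ≤ _) (AddSubgroup.mem_zmultiples x)
  set xb : G ⧸ M := QuotientAddGroup.mk x with hxb
  have hgen : ∀ g : G ⧸ M, g ∈ AddSubgroup.zmultiples xb := by
    intro g
    induction g using QuotientAddGroup.induction_on with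
    | H g =>
      have hg : g ∈ M ⊔ AddSubgroup.zmultiples x := by rw [htop]; trivial
      obtain ⟨m, hm, z, hz, rfl⟩ := AddSubgroup.mem_sup.1 hg
      obtain ⟨k, rfl⟩ := AddSubgroup.mem_zmultiples_iff.1 hz
      refine AddSubgroup.mem_zmultiples_iff.2 ⟨k, ?_⟩
      rw [hxb, QuotientAddGroup.mk_add, (QuotientAddGroup.eq_zero_iff m).2 hm, zero_add,
        QuotientAddGroup.mk_zsmul]
  have hord : addOrderOf xb = p := by
    refine addOrderOf_eq_prime ?_ ?_
    · rw [hxb, ← QuotientAddGroup.mk_nsmul, QuotientAddGroup.eq_zero_iff]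
      exact hpx
    · rw [hxb, Ne, QuotientAddGroup.eq_zero_iff]
      exact hx
  have hcyc : IsAddCyclic (G ⧸ M) := ⟨⟨xb, hgen⟩⟩
  have hcard : Nat.card (G ⧸ M) = p := by
    rw [← hord]
    exact (addOrderOf_eq_card_of_forall_mem_zmultiples hgen).symm
  set e : G ⧸ M ≃+ ZMod p :=
    (zmodAddCyclicAddEquiv hcyc).symm.trans (ZMod.ringEquivCongr hcard).toAddEquiv with he
  refine ⟨e.toAddMonoidHom.comp (QuotientAddGroup.mk' M), ?_, ?_⟩
  · intro b
    obtain ⟨a, ha⟩ := e.surjective b
    obtain ⟨g, hg⟩ := QuotientAddGroup.mk'_surjective M a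
    exact ⟨g, by simp only [AddMonoidHom.comp_apply, hg]; exact ha⟩
  · intro g hg
    rw [AddMonoidHom.mem_ker, AddMonoidHom.comp_apply]
    have : QuotientAddGroup.mk' M g = 0 := by
      rw [QuotientAddGroup.mk'_apply, QuotientAddGroup.eq_zero_iff]
      exact hHM hg
    rw [this, map_zero]

private theorem px_fin {H G : Type} [AddCommGroup H] [AddCommGroup G] [Finite H] [Finite G] :
    Finite (H →+ G) :=
  Finite.of_injective (fun φ : H →+ G => (φ : H → G)) DFunLike.coe_injective

private theorem px_card_pi (H V : Type) [AddCommGroup H] [AddCommGroup V] (l : ℕ) :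
    Nat.card (H →+ (Fin l → V)) = Nat.card (H →+ V) ^ l := by
  have e : (H →+ (Fin l → V)) ≃ (Fin l → (H →+ V)) :=
    { toFun := fun φ i => (Pi.evalAddMonoidHom (fun _ : Fin l => V) i).comp φ
      invFun := fun s => AddMonoidHom.pi s
      left_inv := fun φ => by ext; rfl
      right_inv := fun s => by ext; rfl }
  rw [Nat.card_congr e, Nat.card_pi]
  simp

theorem hom_le (p : ℕ) [Fact p.Prime] (G : Type) [AddCommGroup G] [Finite G] (hG : IsP p G) :
    ∃ l : ℕ, ∀ (H : Type) [AddCommGroup H] [Finite H],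
      Nat.card (H →+ G) ≤ Nat.card (H →+ (Fin l → ZMod p)) := by
  have hp : p.Prime := Fact.out
  haveI : NeZero p := ⟨hp.ne_zero⟩
  have key : ∀ N : ℕ, ∀ (G : Type) [AddCommGroup G] [Finite G], IsP p G → Nat.card G ≤ N →
      ∃ l : ℕ, ∀ (H : Type) [AddCommGroup H] [Finite H],
        Nat.card (H →+ G) ≤ Nat.card (H →+ (Fin l → ZMod p)) := by
    intro N
    induction N with
    | zero =>
      intro G _ _ _ h
      have := Nat.card_pos (α := G)
      omega
    | succ N ih =>
      intro G _ _ hG hN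
      by_cases hbt : (⊥ : AddSubgroup G) = ⊤
      · refine ⟨0, fun H _ _ => ?_⟩
        have hs : Subsingleton (H →+ G) := by
          refine ⟨fun a b => AddMonoidHom.ext fun x => ?_⟩
          have h1 : ∀ g : G, g = 0 := fun g => by
            have : g ∈ (⊥ : AddSubgroup G) := by rw [hbt]; trivial
            exact AddSubgroup.mem_bot.1 this
          rw [h1 (a x), h1 (b x)]
        have h2 : Nat.card (H →+ G) = 1 := by
          rw [Nat.card_eq_one_iff_unique]
          exact ⟨hs, ⟨0⟩⟩
        haveI : Finite (H →+ (Fin 0 → ZMod p)) := px_fin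
        haveI : Nonempty (H →+ (Fin 0 → ZMod p)) := ⟨0⟩
        rw [h2]
        exact Nat.card_pos
      · obtain ⟨ψ, hψ, -⟩ := exists_psi p G hG ⊥ hbt
        have hK : Nat.card ψ.ker ≤ N := by
          have h1 : Nat.card ψ.ker < Nat.card G := by
            have h2 := AddSubgroup.card_mul_index ψ.ker
            have h3 : ψ.ker.index = p := by
              rw [AddSubgroup.index_ker, AddMonoidHom.range_eq_top.2 hψ]
              simp
            rw [h3] at h2
            have h4 : 0 < Nat.card ψ.ker := Nat.card_pos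
            have h5 := hp.two_le
            nlinarith
          omega
        have hKp : IsP p ψ.ker := by
          intro a
          obtain ⟨k, hk⟩ := hG a.1
          exact ⟨k, Subtype.ext (by simpa using hk)⟩
        obtain ⟨l, hl⟩ := ih ψ.ker hKp hK
        refine ⟨l + 1, fun H _ _ => ?_⟩
        haveI f1 : Finite (H →+ ZMod p) := px_fin
        haveI f2 : Finite (H →+ ψ.ker) := px_fin
        classical
        let lift : (H →+ ZMod p) → (H →+ G) := fun χ =>
          if h : ∃ φ : H →+ G, ψ.comp φ = χ then h.choose else 0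
        have hlift : ∀ φ : H →+ G, ψ.comp (lift (ψ.comp φ)) = ψ.comp φ := by
          intro φ
          have h : ∃ φ' : H →+ G, ψ.comp φ' = ψ.comp φ := ⟨φ, rfl⟩
          simp only [lift, dif_pos h]
          exact h.choose_spec
        have hmem : ∀ (φ : H →+ G) (x : H), (φ - lift (ψ.comp φ)) x ∈ ψ.ker := by
          intro φ x
          rw [AddMonoidHom.mem_ker, AddMonoidHom.sub_apply, map_sub]
          have := DFunLike.congr_fun (hlift φ) x
          simp only [AddMonoidHom.comp_apply] at this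
          rw [this, sub_self]
        let F : (H →+ G) → (H →+ ZMod p) × (H →+ ψ.ker) := fun φ =>
          (ψ.comp φ, (φ - lift (ψ.comp φ)).codRestrict ψ.ker (hmem φ))
        have hF : Function.Injective F := by
          intro φ φ' h
          have h1 : ψ.comp φ = ψ.comp φ' := congrArg Prod.fst h
          have h2 := congrArg Prod.snd h
          refine AddMonoidHom.ext fun x => ?_
          have h3 := congrArg Subtype.val (DFunLike.congr_fun h2 x)
          simp only [F, AddMonoidHom.codRestrict_apply, AddMonoidHom.sub_apply] at h3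
          rw [h1] at h3
          exact sub_left_injective h3
        have h1 := Nat.card_le_card_of_injective F hF
        rw [Nat.card_prod] at h1
        refine h1.trans ?_
        rw [px_card_pi, pow_succ']
        have h2 := hl H
        rw [px_card_pi] at h2
        exact Nat.mul_le_mul_left _ h2
  exact key _ G hG le_rfl

theorem sur_syl (p : ℕ) [Fact p.Prime] (A : Type) [AddCommGroup A] [Finite A] (B : Type) [AddCommGroup B]
    (hB : IsP p B) :
    Nat.card (Sur A B) = Nat.card (Sur (AddCommGroup.primaryComponent A p) B) := by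
  have hp : p.Prime := Fact.out
  set N := Nat.card A with hN
  have hNpos : N ≠ 0 := Nat.card_pos.ne'
  obtain ⟨k, m, hm, hNkm⟩ := Nat.exists_eq_pow_mul_and_not_dvd hNpos p hp.ne_one
  -- `c ≡ 1 mod p^k`, `m ∣ c`
  have hcop : Nat.Coprime (p ^ k) m := (hp.coprime_iff_not_dvd.2 hm).pow_left k
  obtain ⟨c, hc1, hc2⟩ : ∃ c : ℤ, (m : ℤ) ∣ c ∧ ((p ^ k : ℕ) : ℤ) ∣ (1 - c) := by
    have hb := Nat.gcd_eq_gcd_ab (p ^ k) m
    rw [hcop] at hb
    refine ⟨m * Nat.gcdB (p ^ k) m, Dvd.intro _ rfl, ?_⟩
    refine ⟨Nat.gcdA (p ^ k) m, ?_⟩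
    have : (1 : ℤ) = ((p ^ k : ℕ) : ℤ) * Nat.gcdA (p ^ k) m + m * Nat.gcdB (p ^ k) m := by
      exact_mod_cast hb
    linarith
  obtain ⟨u, hu⟩ := hc1
  obtain ⟨v, hv⟩ := hc2
  have hNa : ∀ a : A, N • a = 0 := fun a => card_nsmul_eq_zero'
  have hca : ∀ a : A, c • a ∈ AddCommGroup.primaryComponent A p := by
    intro a
    rw [AddCommGroup.mem_primaryComponent]
    refine ⟨k, ?_⟩
    have h1 : (p ^ k) • c • a = u • (N • a) := by
      rw [← natCast_zsmul (c • a), ← natCast_zsmul a N, smul_smul, smul_smul, hu, hNkm]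
      congr 1
      push_cast
      ring
    rw [h1, hNa, smul_zero]
  -- if `N b = 0` and `p^j b = 0` then `c b = b`
  have hcb : ∀ (B : Type) [AddCommGroup B] (b : B), N • b = 0 → (∃ j : ℕ, p ^ j • b = 0) →
      c • b = b := by
    intro B _ b h1 h2
    obtain ⟨j, hj⟩ := h2
    have hd1 : addOrderOf b ∣ p ^ k * m := by rw [← hNkm]; exact addOrderOf_dvd_of_nsmul_eq_zero h1
    have hd2 : addOrderOf b ∣ p ^ j := addOrderOf_dvd_of_nsmul_eq_zero hj
    have hcopm : Nat.Coprime (addOrderOf b) m :=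
      Nat.Coprime.coprime_dvd_left hd2 ((hp.coprime_iff_not_dvd.2 hm).pow_left j)
    have hd3 : addOrderOf b ∣ p ^ k := hcopm.dvd_of_dvd_mul_right hd1
    have h3 : (p ^ k) • b = 0 := addOrderOf_dvd_iff_nsmul_eq_zero.1 hd3
    have h4 : (1 - c) • b = 0 := by
      rw [hv, mul_comm, mul_smul, natCast_zsmul, h3, smul_zero]
    rw [sub_smul, one_smul, sub_eq_zero] at h4
    exact h4.symm
  let π : A →+ AddCommGroup.primaryComponent A p :=
    (zsmulAddGroupHom c : A →+ A).codRestrict _ (fun a => by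
      rw [zsmulAddGroupHom_apply]; exact hca a)
  have hπ : ∀ a : A, (π a : A) = c • a := fun a => rfl
  have hπx : ∀ x : AddCommGroup.primaryComponent A p, π x = x := by
    intro x
    refine Subtype.ext ?_
    rw [hπ]
    refine hcb A x (hNa _) ?_
    exact AddCommGroup.mem_primaryComponent.1 x.2
  have hφ : ∀ (φ : A →+ B) (a : A), φ (π a) = φ a := by
    intro φ a
    rw [hπ, map_zsmul]
    refine hcb B (φ a) ?_ (hB _)
    rw [← map_nsmul, hNa, map_zero]
  refine Nat.card_congr
    { toFun := fun φ => ⟨φ.1.comp (AddCommGroup.primaryComponent A p).subtype, ?_⟩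
      invFun := fun ψ => ⟨ψ.1.comp π, ?_⟩
      left_inv := ?_
      right_inv := ?_ }
  · intro b
    obtain ⟨a, ha⟩ := φ.2 b
    refine ⟨π a, ?_⟩
    rw [AddMonoidHom.comp_apply]
    exact (hφ φ.1 a).trans ha
  · intro b
    obtain ⟨a, ha⟩ := ψ.2 b
    exact ⟨a, by rw [AddMonoidHom.comp_apply, hπx, ha]⟩
  · intro φ
    refine Subtype.ext (AddMonoidHom.ext fun a => ?_)
    exact hφ φ.1 a
  · intro ψ
    refine Subtype.ext (AddMonoidHom.ext fun x => ?_)
    change ψ.1 (π x) = ψ.1 x
    rw [hπx]

end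

end Pool.Agent.DH10
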