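import Pool.Agent.DH10.Boot
import Pool.Agent.DH10.PsiEx

/-!
# DH10.BddMom : bounded moments for every finite abelian `p`-group (5.4)

`Mth n G 1 = HomMom n G` for `n ≥ 3` (`homMom_eq`, `homMom_eq_Mth`).  If `W S ≠ 0` then `H1 S` is finite
(`Nat.card (H1 S) ≠ 0`), so `hom_le` gives `HomMom n G ≤ HomMom n (Fin l → ZMod p)`.  `Mth_tendsto_one` from `Mth_one_le`,
`one_le_Mth` and boundedness.
`hom_sq`: `Hom(H,G) × Hom(H,G) = Hom(H, G × G)`.
-/

set_option autoImplicit false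

open Finset Filter Topology

namespace Pool.Agent.DH10

noncomputable section

private theorem bm_eq (n : ℕ) (hn : 3 ≤ n) (G : Type) [AddCommGroup G] [Fintype G] :
    Mth n G 1 = HomMom n G := by
  classical
  have hq : ((Fintype.card G : ℝ)) ^ (n - 1) ≠ 0 := by
    have : 0 < Fintype.card G := Fintype.card_pos
    positivity
  rw [homMom_eq (by omega), homMom_eq_Mth hn, mul_div_cancel_left₀ _ hq]

private theorem bm_finite {n : ℕ} {S : Finset (Tri n)} (h : W S ≠ 0) : Finite (H1 S) := by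
  apply Nat.finite_of_card_ne_zero
  intro h0
  apply h
  unfold W
  rw [h0]
  simp

theorem mom_bdd (p : ℕ) [Fact p.Prime] (hp : p ≠ 2) (G : Type) [AddCommGroup G] [Fintype G]
    (hG : IsP p G) : ∃ B : ℝ, ∀ᶠ n : ℕ in atTop, Mth n G 1 ≤ B := by
  obtain ⟨l, hl⟩ := hom_le p G hG
  obtain ⟨B, hB⟩ := mom_fp_bdd p hp l
  refine ⟨B, ?_⟩
  filter_upwards [hB, eventually_ge_atTop 3] with n hn hn3
  refine le_trans ?_ hn
  rw [bm_eq n hn3, bm_eq n hn3]
  unfold HomMom Ex
  refine Finset.sum_le_sum fun S _ => ?_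
  by_cases hW : W S = 0
  · rw [hW, zero_mul, zero_mul]
  · have := bm_finite hW
    refine mul_le_mul_of_nonneg_left ?_ (W_nonneg S)
    exact Nat.cast_le.2 (hl (H1 S))

private theorem bm_th {n : ℕ} (hn : 5 ≤ n) : 0 ≤ th n := by
  have h1 : n - 1 ≤ NN n := by
    have h2 : NN n = (n - 1) * (n - 1 - 1) / 2 := Nat.choose_two_right _
    rw [h2, Nat.le_div_iff_mul_le (by norm_num)]
    exact Nat.mul_le_mul le_rfl (by omega)
  have h1' : ((n : ℝ) - 1) ≤ NN n := by
    have : ((n - 1 : ℕ) : ℝ) ≤ NN n := by exact_mod_cast h1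
    rwa [Nat.cast_sub (by omega), Nat.cast_one] at this
  have hn' : (5 : ℝ) ≤ n := by exact_mod_cast hn
  have hN : (0 : ℝ) < NN n := by linarith
  rw [th, sub_nonneg, div_le_one hN]
  have h2 : tt n ≤ (n : ℝ) ^ (1 / 2 : ℝ) := by
    rw [tt]
    apply Real.rpow_le_rpow_of_exponent_le (by linarith)
    norm_num
  have h3 : (n : ℝ) ^ (1 / 2 : ℝ) ≤ n - 1 := by
    rw [← Real.sqrt_eq_rpow]
    apply Real.sqrt_le_iff.2
    constructor
    · linarith
    · nlinarith
  linarith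

theorem Mth_tendsto_one (p : ℕ) [Fact p.Prime] (hp : p ≠ 2) (G : Type) [AddCommGroup G] [Fintype G]
    (hG : IsP p G) : Tendsto (fun n : ℕ => Mth n G (th n)) atTop (𝓝 1) := by
  classical
  obtain ⟨B, hB⟩ := mom_bdd p hp G hG
  have h1 : Tendsto (fun n : ℕ => Real.exp (-(n : ℝ) ^ (1 / 200 : ℝ))) atTop (𝓝 0) := by
    apply Real.tendsto_exp_atBot.comp
    apply tendsto_neg_atTop_atBot.comp
    exact (tendsto_rpow_atTop (by norm_num)).comp tendsto_natCast_atTop_atTop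
  have h2 : Tendsto (fun n : ℕ => Real.exp (-(n : ℝ) ^ (1 / 200 : ℝ)) * B) atTop (𝓝 0) := by
    have := h1.mul_const B
    rwa [zero_mul] at this
  rw [Metric.tendsto_atTop']
  intro ε hε
  have h3 := Mth_one_le G (ε / 2) (half_pos hε)
  have h4 := h2.eventually (gt_mem_nhds (half_pos hε))
  have h5 : ∀ᶠ n : ℕ in atTop, dist (Mth n G (th n)) 1 < ε := by
    filter_upwards [hB, h3, h4, eventually_ge_atTop 5] with n hn1 hn2 hn3 hn5
    have h6 := one_le_Mth G (n := n) (by omega) (bm_th hn5)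
    have h7 : Real.exp (-(n : ℝ) ^ (1 / 200 : ℝ)) * Mth n G 1 ≤
        Real.exp (-(n : ℝ) ^ (1 / 200 : ℝ)) * B :=
      mul_le_mul_of_nonneg_left hn1 (Real.exp_pos _).le
    rw [Real.dist_eq, abs_of_nonneg (by linarith)]
    linarith
  obtain ⟨N, hN⟩ := eventually_atTop.1 h5
  exact ⟨N, fun n hn => hN n hn.le⟩

private theorem bm_card_sq (A G : Type) [AddCommGroup A] [AddCommGroup G] :
    Nat.card (A →+ G × G) = Nat.card (A →+ G) ^ 2 := by
  have e : (A →+ G × G) ≃ (A →+ G) × (A →+ G) :=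
    { toFun := fun φ => ((AddMonoidHom.fst G G).comp φ, (AddMonoidHom.snd G G).comp φ)
      invFun := fun s => AddMonoidHom.prod s.1 s.2
      left_inv := fun φ => by ext <;> rfl
      right_inv := fun s => by ext <;> rfl }
  rw [Nat.card_congr e, Nat.card_prod, sq]

theorem hom_sq (p : ℕ) [Fact p.Prime] (hp : p ≠ 2) (G : Type) [AddCommGroup G] [Fintype G]
    (hG : IsP p G) :
    ∃ B : ℝ, ∀ᶠ n : ℕ in atTop, Ex n (fun S => (Nat.card (H1 S →+ G) : ℝ) ^ 2) ≤ B := by
  have hGG : IsP p (G × G) := by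
    intro a
    obtain ⟨k, hk⟩ := hG a.1
    obtain ⟨m, hm⟩ := hG a.2
    refine ⟨k + m, ?_⟩
    rw [pow_add]
    apply Prod.ext
    · rw [Prod.smul_fst, mul_comm, mul_smul, hk, smul_zero]
      rfl
    · rw [Prod.smul_snd, mul_smul, hm, smul_zero]
      rfl
  obtain ⟨B, hB⟩ := mom_bdd p hp (G × G) hGG
  refine ⟨B, ?_⟩
  filter_upwards [hB, eventually_ge_atTop 3] with n hn hn3
  rw [bm_eq n hn3] at hn
  refine le_trans (le_of_eq ?_) hn
  unfold HomMom
  congr 1
  funext S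
  rw [bm_card_sq]
  push_cast
  rfl

end

end Pool.Agent.DH10
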