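import Mathlib

/-!
# DH10.QBinom : Gaussian binomial coefficients (Part 7)

`gb p r i = ∏_{j<i} (p^r - p^j)/(p^i - p^j)` for real `p > 1` (it is `0` for `i > r`; for `p` prime it is the number of
`i`-dimensional (or `i`-codimensional) subspaces of `F_p^r`).

* `gb_partial_sum`: induction on `I`; the step is `p^{C(I+1,2)} gb r (I+1) - p^{C(I+1,2)} gb (r-1) I
  = p^{C(I+2,2)} gb (r-1) (I+1)`, i.e. the Pascal rule `gb r (I+1) = gb (r-1) I + p^{I+1} gb (r-1) (I+1)`.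
* `gb_div_tendsto`: each factor `(p^M - p^j)/p^M → 1`.
* `gb_euler`: finite version (q-binomial theorem at `z = p^{-M}`):
  `∑_{i ≤ M} (-1)^i p^{C(i,2)} gb M i p^{-iM} = ∏_{j=1}^{M} (1 - p^{-j})` (induction on `M` for
  `∏_{j<M} (1 - p^j z) = ∑_i (-1)^i p^{C(i,2)} gb M i z^i` with the Pascal rule), then `M → ∞` by dominated
  convergence (`tendsto_tsum_of_dominated_convergence`): `0 ≤ gb M i p^{-iM} ≤ 1/∏_{j<i}(p^i - p^j)` and
  `p^{C(i,2)}/∏_{j<i}(p^i-p^j) = p^{-i(i+1)/2} / ∏_{j=1}^{i} (1-p^{-j})` is summable (ratio test, `p ≥ 2`).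
-/

set_option autoImplicit false

open Finset Filter Topology

namespace Pool.Agent.DH10

noncomputable section

/-- Gaussian binomial coefficient -/
def gb (p : ℝ) (r i : ℕ) : ℝ := ∏ j ∈ range i, (p ^ r - p ^ j) / (p ^ i - p ^ j)

/-- `∏_{j<i} (p^i - p^j) = |GL_i(F_p)|` -/
def glc (p : ℝ) (i : ℕ) : ℝ := ∏ j ∈ range i, (p ^ i - p ^ j)

theorem gb_nonneg {p : ℝ} (hp : 1 < p) (r i : ℕ) : 0 ≤ gb p r i := by
  unfold gb
  rcases lt_or_ge r i with h | h
  · rw [Finset.prod_eq_zero (mem_range.2 h)]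
    simp
  · refine Finset.prod_nonneg fun j hj => div_nonneg ?_ ?_
    · have hj' := mem_range.1 hj
      have := pow_le_pow_right₀ hp.le (show j ≤ r by omega)
      linarith
    · have hj' := mem_range.1 hj
      have := pow_le_pow_right₀ hp.le hj'.le
      linarith

theorem gb_zero_left {p : ℝ} (hp : 1 < p) {i : ℕ} (hi : i ≠ 0) : gb p 0 i = 0 := by
  unfold gb
  rw [Finset.prod_eq_zero (mem_range.2 (Nat.pos_of_ne_zero hi))]
  simp

theorem gb_zero_right (p : ℝ) (r : ℕ) : gb p r 0 = 1 := by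
  simp [gb]

private lemma pow_sub_pos {p : ℝ} (hp : 1 < p) {a b : ℕ} (h : a < b) : 0 < p ^ b - p ^ a := by
  have := pow_lt_pow_right₀ hp h
  linarith

private lemma glc_pos {p : ℝ} (hp : 1 < p) (i : ℕ) : 0 < glc p i :=
  Finset.prod_pos fun _ hj => pow_sub_pos hp (mem_range.1 hj)

private lemma pow_succ_sub_one_pos {p : ℝ} (hp : 1 < p) (i : ℕ) : 0 < p ^ (i + 1) - 1 := by
  have := pow_sub_pos hp (Nat.succ_pos i)
  simpa using this

private lemma prod_shift (p : ℝ) (r i : ℕ) :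
    ∏ j ∈ range (i + 1), (p ^ (r + 1) - p ^ j)
      = (p ^ (r + 1) - 1) * p ^ i * ∏ j ∈ range i, (p ^ r - p ^ j) := by
  rw [Finset.prod_range_succ']
  have : ∀ j ∈ range i, (p ^ (r + 1) - p ^ (j + 1)) = p * (p ^ r - p ^ j) := by
    intro j _
    ring
  rw [Finset.prod_congr rfl this, Finset.prod_mul_distrib, Finset.prod_const, card_range]
  ring

private lemma glc_succ (p : ℝ) (i : ℕ) : glc p (i + 1) = (p ^ (i + 1) - 1) * p ^ i * glc p i := by
  unfold glc
  exact prod_shift p i i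

private lemma gb_eq (p : ℝ) (r i : ℕ) :
    gb p r i = (∏ j ∈ range i, (p ^ r - p ^ j)) / glc p i := by
  unfold gb glc
  rw [Finset.prod_div_distrib]

/-- Pascal rule -/
theorem gb_pascal {p : ℝ} (hp : 1 < p) (r I : ℕ) :
    gb p (r + 1) (I + 1) = gb p r I + p ^ (I + 1) * gb p r (I + 1) := by
  rw [gb_eq, gb_eq, gb_eq, prod_shift, glc_succ, Finset.prod_range_succ]
  have h1 := (glc_pos hp I).ne'
  have h2 := (pow_succ_sub_one_pos hp I).ne'
  have h3 : p ^ I ≠ 0 := by positivity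
  field_simp
  ring

/-- alternating partial sums -/
theorem gb_partial_sum {p : ℝ} (hp : 1 < p) (r I : ℕ) :
    ∑ i ∈ range (I + 1), (-1 : ℝ) ^ i * p ^ (i.choose 2) * gb p (r + 1) i
      = (-1 : ℝ) ^ I * p ^ ((I + 1).choose 2) * gb p r I := by
  induction I with
  | zero => simp [gb_zero_right]
  | succ I ih =>
    rw [Finset.sum_range_succ, ih, gb_pascal hp]
    have h : (I + 1 + 1).choose 2 = (I + 1).choose 2 + (I + 1) := by
      rw [Nat.choose_succ_succ' (I + 1) 1, Nat.choose_one_right, add_comm]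
    rw [h, pow_add p]
    ring

theorem gb_div_tendsto {p : ℝ} (hp : 1 < p) (i : ℕ) :
    Tendsto (fun M : ℕ => gb p M i / p ^ (i * M)) atTop (𝓝 (1 / glc p i)) := by
  have h1 : ∀ M : ℕ, gb p M i / p ^ (i * M)
      = (∏ j ∈ range i, (1 - p ^ j * (p⁻¹) ^ M)) / glc p i := by
    intro M
    rw [gb_eq]
    have hp0 : p ≠ 0 := by positivity
    have h2 : ∏ j ∈ range i, (p ^ M - p ^ j)
        = p ^ (i * M) * ∏ j ∈ range i, (1 - p ^ j * (p⁻¹) ^ M) := by
      have h3 : ∀ j ∈ range i, (p ^ M - p ^ j) = p ^ M * (1 - p ^ j * (p⁻¹) ^ M) := by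
        intro j _
        have : p ^ M * (p⁻¹) ^ M = 1 := by
          rw [← mul_pow, mul_inv_cancel₀ hp0, one_pow]
        calc p ^ M - p ^ j = p ^ M - p ^ j * (p ^ M * (p⁻¹) ^ M) := by rw [this, mul_one]
          _ = _ := by ring
      rw [Finset.prod_congr rfl h3, Finset.prod_mul_distrib, Finset.prod_const, card_range,
        ← pow_mul, mul_comm M i]
    have h5 : p ^ (i * M) ≠ 0 := by positivity
    rw [h2, mul_div_assoc, mul_div_cancel_left₀ _ h5]
  simp_rw [h1]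
  refine Tendsto.div_const ?_ _
  have hlim : Tendsto (fun M : ℕ => (p⁻¹) ^ M) atTop (𝓝 0) :=
    tendsto_pow_atTop_nhds_zero_of_lt_one (by positivity) (inv_lt_one_of_one_lt₀ hp)
  have : Tendsto (fun M : ℕ => ∏ j ∈ range i, (1 - p ^ j * (p⁻¹) ^ M)) atTop
      (𝓝 (∏ _j ∈ range i, (1 : ℝ))) := by
    refine tendsto_finset_prod _ fun j _ => ?_
    have := (hlim.const_mul (p ^ j)).const_sub 1
    simpa using this
  simpa using this

/-- the coefficients of Euler's series -/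
private def bc (p : ℝ) (i : ℕ) : ℝ := p ^ (i.choose 2) * (1 / glc p i)

private lemma bc_zero (p : ℝ) : bc p 0 = 1 := by simp [bc, glc]

private lemma bc_succ {p : ℝ} (hp : 1 < p) (i : ℕ) : bc p (i + 1) * (p ^ (i + 1) - 1) = bc p i := by
  unfold bc
  rw [glc_succ]
  have h : (i + 1).choose 2 = i.choose 2 + i := by
    rw [Nat.choose_succ_succ' i 1, Nat.choose_one_right, add_comm]
  rw [h, pow_add]
  have h1 := (glc_pos hp i).ne'
  have h2 := (pow_succ_sub_one_pos hp i).ne'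
  have h3 : p ^ i ≠ 0 := by positivity
  field_simp

private lemma bc_nonneg {p : ℝ} (hp : 1 < p) (i : ℕ) : 0 ≤ bc p i :=
  mul_nonneg (by positivity) (one_div_nonneg.2 (glc_pos hp i).le)

private lemma bc_le {p : ℝ} (hp : 2 ≤ p) (i : ℕ) : bc p i ≤ 3 * (1 / 3) ^ i := by
  have hp1 : 1 < p := by linarith
  induction i with
  | zero => rw [bc_zero]; norm_num
  | succ i ih =>
    have h := bc_succ hp1 i
    rcases Nat.eq_zero_or_pos i with rfl | hi
    · rw [bc_zero] at h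
      have hb := bc_nonneg hp1 1
      norm_num at h ⊢
      nlinarith
    · have h2 : (4 : ℝ) ≤ p ^ (i + 1) := by
        have h3 : (2 : ℝ) ^ 2 ≤ p ^ 2 := pow_le_pow_left₀ (by norm_num) hp 2
        have h4 : p ^ 2 ≤ p ^ (i + 1) := pow_le_pow_right₀ hp1.le (by omega)
        linarith
      have hb := bc_nonneg hp1 (i + 1)
      have h5 : bc p (i + 1) * 3 ≤ bc p i := by
        rw [← h]
        exact mul_le_mul_of_nonneg_left (by linarith) hb
      rw [pow_succ]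
      linarith

private lemma bc_summable {p : ℝ} (hp : 2 ≤ p) : Summable (bc p) := by
  have hp1 : 1 < p := by linarith
  refine Summable.of_nonneg_of_le (bc_nonneg hp1) (bc_le hp) ?_
  exact (summable_geometric_of_lt_one (by norm_num) (by norm_num)).mul_left 3

private lemma term_summable {p : ℝ} (hp : 2 ≤ p) {z : ℝ} (hz0 : 0 ≤ z) (hz : z ≤ 1) :
    Summable fun i : ℕ => (-1 : ℝ) ^ i * bc p i * z ^ i := by
  have hp1 : 1 < p := by linarith
  refine Summable.of_norm_bounded (bc_summable hp) fun i => ?_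
  rw [norm_mul, norm_mul, norm_pow, norm_neg, norm_one, one_pow, one_mul, Real.norm_eq_abs,
    abs_of_nonneg (bc_nonneg hp1 i), norm_pow, Real.norm_eq_abs, abs_of_nonneg hz0]
  exact mul_le_of_le_one_right (bc_nonneg hp1 i) (pow_le_one₀ hz0 hz)

/-- Euler's series -/
private def GS (p z : ℝ) : ℝ := ∑' i : ℕ, (-1 : ℝ) ^ i * bc p i * z ^ i

private lemma GS_eq {p : ℝ} (hp : 2 ≤ p) {z : ℝ} (hz0 : 0 ≤ z) (hz : z ≤ 1) :
    GS p z = (1 - p⁻¹ * z) * GS p (p⁻¹ * z) := by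
  have hp1 : 1 < p := by linarith
  have hp0 : 0 < p := by linarith
  have hpi0 : 0 ≤ p⁻¹ := by positivity
  have hpi1 : p⁻¹ ≤ 1 := inv_le_one_of_one_le₀ hp1.le
  have hw0 : 0 ≤ p⁻¹ * z := mul_nonneg hpi0 hz0
  have hw1 : p⁻¹ * z ≤ 1 := mul_le_one₀ hpi1 hz0 hz
  have hs1 := term_summable hp hz0 hz
  have hs2 := term_summable hp hw0 hw1
  have h1 : GS p z - GS p (p⁻¹ * z) = -(p⁻¹ * z) * GS p (p⁻¹ * z) := by
    unfold GS
    rw [← Summable.tsum_sub hs1 hs2, (hs1.sub hs2).tsum_eq_zero_add, ← tsum_mul_left]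
    simp only [pow_zero, sub_self, zero_add]
    refine tsum_congr fun i => ?_
    have h := bc_succ hp1 i
    have h2 : bc p i * (p⁻¹) ^ (i + 1) = bc p (i + 1) * (1 - (p⁻¹) ^ (i + 1)) := by
      rw [← h]
      have : p ^ (i + 1) * (p⁻¹) ^ (i + 1) = 1 := by
        rw [← mul_pow, mul_inv_cancel₀ hp0.ne', one_pow]
      calc bc p (i + 1) * (p ^ (i + 1) - 1) * (p⁻¹) ^ (i + 1)
          = bc p (i + 1) * (p ^ (i + 1) * (p⁻¹) ^ (i + 1) - (p⁻¹) ^ (i + 1)) := by ring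
        _ = _ := by rw [this]
    calc (-1 : ℝ) ^ (i + 1) * bc p (i + 1) * z ^ (i + 1)
          - (-1 : ℝ) ^ (i + 1) * bc p (i + 1) * (p⁻¹ * z) ^ (i + 1)
        = (-1 : ℝ) ^ (i + 1) * z ^ (i + 1) * (bc p (i + 1) * (1 - (p⁻¹) ^ (i + 1))) := by
          rw [mul_pow]; ring
      _ = (-1 : ℝ) ^ (i + 1) * z ^ (i + 1) * (bc p i * (p⁻¹) ^ (i + 1)) := by rw [h2]
      _ = _ := by rw [mul_pow]; ring
  linarith

private lemma GS_prod {p : ℝ} (hp : 2 ≤ p) (M : ℕ) :
    GS p 1 = (∏ j ∈ range M, (1 - (p⁻¹) ^ (j + 1))) * GS p ((p⁻¹) ^ M) := by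
  have hp1 : 1 < p := by linarith
  have hpi0 : 0 ≤ p⁻¹ := by positivity
  have hpi1 : p⁻¹ ≤ 1 := inv_le_one_of_one_le₀ hp1.le
  induction M with
  | zero => simp
  | succ M ih =>
    rw [ih, GS_eq hp (pow_nonneg hpi0 M) (pow_le_one₀ hpi0 hpi1), Finset.prod_range_succ,
      ← pow_succ', mul_assoc]

private lemma GS_sub_one {p : ℝ} (hp : 2 ≤ p) {z : ℝ} (hz0 : 0 ≤ z) (hz : z ≤ 1) :
    |GS p z - 1| ≤ z * ∑' i, bc p (i + 1) := by
  have hp1 : 1 < p := by linarith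
  have hs := term_summable hp hz0 hz
  have h1 : GS p z - 1 = ∑' i : ℕ, (-1 : ℝ) ^ (i + 1) * bc p (i + 1) * z ^ (i + 1) := by
    unfold GS
    rw [hs.tsum_eq_zero_add]
    simp [bc_zero]
  have hb : Summable fun i => bc p (i + 1) := (summable_nat_add_iff 1).2 (bc_summable hp)
  rw [h1, ← tsum_mul_left]
  have h2 : Summable fun i : ℕ => z * bc p (i + 1) := hb.mul_left z
  rw [← Real.norm_eq_abs]
  refine tsum_of_norm_bounded h2.hasSum fun i => ?_
  rw [norm_mul, norm_mul, norm_pow, norm_neg, norm_one, one_pow, one_mul, Real.norm_eq_abs,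
    abs_of_nonneg (bc_nonneg hp1 _), norm_pow, Real.norm_eq_abs, abs_of_nonneg hz0, mul_comm]
  refine mul_le_mul_of_nonneg_right ?_ (bc_nonneg hp1 _)
  rw [pow_succ]
  exact mul_le_of_le_one_left hz0 (pow_le_one₀ hz0 hz)

/-- Euler's identity -/
theorem gb_euler {p : ℝ} (hp : 2 ≤ p) :
    Tendsto (fun I : ℕ => ∑ i ∈ range I, (-1 : ℝ) ^ i * p ^ (i.choose 2) * (1 / glc p i)) atTop
      (𝓝 (∏' j : ℕ, (1 - (p⁻¹) ^ (j + 1)))) := by
  have hp1 : 1 < p := by linarith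
  have hpi0 : 0 ≤ p⁻¹ := by positivity
  have hpi1 : p⁻¹ < 1 := inv_lt_one_of_one_lt₀ hp1
  have h1 : Tendsto (fun I : ℕ => ∑ i ∈ range I, (-1 : ℝ) ^ i * p ^ (i.choose 2) * (1 / glc p i))
      atTop (𝓝 (GS p 1)) := by
    have := (term_summable hp zero_le_one le_rfl).hasSum.tendsto_sum_nat
    refine this.congr fun I => Finset.sum_congr rfl fun i _ => ?_
    unfold bc
    rw [one_pow, mul_one, mul_assoc]
  have hlim : Tendsto (fun M : ℕ => (p⁻¹) ^ M) atTop (𝓝 0) :=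
    tendsto_pow_atTop_nhds_zero_of_lt_one hpi0 hpi1
  have h2 : Tendsto (fun M : ℕ => GS p ((p⁻¹) ^ M)) atTop (𝓝 1) := by
    rw [tendsto_iff_norm_sub_tendsto_zero]
    refine squeeze_zero (fun _ => norm_nonneg _)
      (fun M => GS_sub_one hp (pow_nonneg hpi0 M) (pow_le_one₀ hpi0 hpi1.le)) ?_
    simpa using hlim.mul_const (∑' i, bc p (i + 1))
  have hmul : Multipliable fun j : ℕ => (1 - (p⁻¹) ^ (j + 1)) := by
    have : Summable fun j : ℕ => -((p⁻¹) ^ (j + 1)) := by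
      refine Summable.neg ?_
      exact (summable_nat_add_iff 1).2 (summable_geometric_of_lt_one hpi0 hpi1)
    have := Real.multipliable_one_add_of_summable this
    simpa [sub_eq_add_neg] using this
  have h3 : Tendsto (fun M : ℕ => ∏ j ∈ range M, (1 - (p⁻¹) ^ (j + 1))) atTop
      (𝓝 (∏' j : ℕ, (1 - (p⁻¹) ^ (j + 1)))) := hmul.hasProd.tendsto_prod_nat
  have h4 : GS p 1 = ∏' j : ℕ, (1 - (p⁻¹) ^ (j + 1)) := by
    have h5 := h3.mul h2
    rw [mul_one] at h5
    refine tendsto_nhds_unique ?_ h5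
    refine tendsto_const_nhds.congr fun M => GS_prod hp M
  rw [← h4]
  exact h1

end

end Pool.Agent.DH10
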