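import Mathlib
import Pool.Agent.DH10.QBinom

/-!
# DH10.GroupPairs : counting surjections (Part 7)

`FAb` = finite abelian groups (bundled).  For a surjection `φ : Γ → G` let `r = rkKer φ` be the rank of its kernel `N`,
i.e. `p^r = |N[p]| = |N/pN|`.

`exists_coeff`: for fixed `G` and `i` there are finitely many finite abelian `p`-groups `B_j` and coefficients `c_j ≥ 0`
with, for EVERY finite abelian `p`-group `Γ`,
  `∑_{φ ∈ Sur(Γ,G)} gb p (rkKer φ) i = ∑_j c_j #Sur(Γ, B_j)`.
Proof.  The left side is the number of pairs `(φ, N')`, `φ ∈ Sur(Γ,G)`, `N' ≤ ker φ`, `ker φ/N'` elementary abelian of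
order `p^i` (subgroups of index `p^i` of `N/pN ≅ F_p^r` : `gb p r i` of them; `|N/pN| = |N[p]|` by the
multiplication-by-`p` map of the finite group `N`).  Take for `(B_j)` all abelian group structures `σ` on
`Fin m`, `m = |G| p^i`, which are `p`-groups (finitely many), and
`c_σ = (1/m!) #{π : σ → G onto with kernel elementary abelian (of order p^i)}`: the triples
`(σ, ψ : Γ → σ onto, π : σ → G onto with kernel of exponent p)` correspond `m!`-to-one to the pairs `(φ,N')`
(`φ = π ψ`, `N' = ker ψ`; given `(φ,N')` choose a bijection `Γ/N' ≃ Fin m`).  Any other choice of finitely many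
representatives is fine (for instance: one `B_j` in each isomorphism class of abelian groups of order `m`, and
`c_j = s_i(B_j,G)/|Aut B_j|`).

-/

set_option autoImplicit false

open Finset Filter Topology

namespace Pool.Agent.DH10

noncomputable section

/-- finite abelian groups -/
structure FAb where
  carrier : Type
  [grp : AddCommGroup carrier]
  [fin : Finite carrier]

attribute [instance] FAb.grp FAb.fin

/-- abelian `p`-group (every element is killed by a power of `p`) -/
def IsP (p : ℕ) (A : Type) [AddCommGroup A] : Prop := ∀ a : A, ∃ k : ℕ, p ^ k • a = 0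

/-- surjective homomorphisms -/
abbrev Sur (A B : Type) [AddCommGroup A] [AddCommGroup B] := {φ : A →+ B // Function.Surjective φ}

/-- the rank of the kernel, `Nat.log p |ker φ [p]|` -/
def rkKer (p : ℕ) {A B : Type} [AddCommGroup A] [AddCommGroup B] (φ : A →+ B) : ℕ :=
  Nat.log p (Nat.card {x : A // φ x = 0 ∧ p • x = 0})

section aux

variable {A B C : Type} [AddCommGroup A] [AddCommGroup B] [AddCommGroup C]

private instance finHom [Finite A] [Finite B] : Finite (A →+ B) :=
  Finite.of_injective (fun f : A →+ B => (f : A → B)) DFunLike.coe_injective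

private instance finSur [Finite A] [Finite B] : Finite (Sur A B) := Subtype.finite

private instance finEquiv [Finite A] [Finite B] : Finite (A ≃+ B) :=
  Finite.of_injective (fun f : A ≃+ B => (f : A → B)) DFunLike.coe_injective

private instance finSub [Finite A] : Finite (AddSubgroup A) :=
  Finite.of_injective (fun f : AddSubgroup A => (f : Set A)) SetLike.coe_injective

/-- surjections with a given kernel -/
private def surKerEquiv (N : AddSubgroup A) :
    {ψ : Sur A B // ψ.1.ker = N} ≃ ((A ⧸ N) ≃+ B) where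
  toFun ψ := (QuotientAddGroup.quotientAddEquivOfEq ψ.2.symm).trans
    (QuotientAddGroup.quotientKerEquivOfSurjective ψ.1.1 ψ.1.2)
  invFun e := ⟨⟨e.toAddMonoidHom.comp (QuotientAddGroup.mk' N),
    e.surjective.comp (QuotientAddGroup.mk'_surjective N)⟩, by
      ext x; simp⟩
  left_inv ψ := by
    obtain ⟨⟨ψ, hs⟩, rfl⟩ := ψ
    apply Subtype.ext; apply Subtype.ext
    ext x
    rfl
  right_inv e := by
    ext x
    induction x using QuotientAddGroup.induction_on with
    | H x => rfl

/-- `#Sur(A,B) = |Aut B| #{N : A/N ≅ B}` -/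
private theorem card_sur [Finite A] [Finite B] :
    Nat.card (Sur A B) = Nat.card (B ≃+ B) * Nat.card {N : AddSubgroup A // Nonempty ((A ⧸ N) ≃+ B)} := by
  classical
  have := Fintype.ofFinite (AddSubgroup A)
  have h1 : Nat.card (Sur A B) = ∑ N : AddSubgroup A, Nat.card ((A ⧸ N) ≃+ B) := by
    rw [← Nat.card_congr (Equiv.sigmaFiberEquiv (fun ψ : Sur A B => ψ.1.ker)), Nat.card_sigma]
    exact Finset.sum_congr rfl fun N _ => Nat.card_congr (surKerEquiv N)
  have h2 : ∀ N : AddSubgroup A, Nat.card ((A ⧸ N) ≃+ B)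
      = if Nonempty ((A ⧸ N) ≃+ B) then Nat.card (B ≃+ B) else 0 := by
    intro N
    split_ifs with h
    · obtain ⟨e⟩ := h
      exact Nat.card_congr ⟨fun f => e.symm.trans f, fun f => e.trans f, fun f => by ext; simp,
        fun f => by ext; simp⟩
    · have : IsEmpty ((A ⧸ N) ≃+ B) := not_nonempty_iff.mp h
      exact Nat.card_of_isEmpty
  rw [h1, Finset.sum_congr rfl fun N _ => h2 N, ← Finset.sum_filter, Finset.sum_const, smul_eq_mul,
    mul_comm]
  congr 1
  rw [Nat.card_eq_fintype_card, Fintype.card_subtype]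

/-- surjections onto `(ZMod p)^i` are the linearly independent families of characters -/
private theorem surj_iff_li {p : ℕ} [Fact p.Prime] {i : ℕ} (s : Fin i → (A →+ ZMod p)) :
    Function.Surjective (fun a : A => fun j => s j a) ↔ LinearIndependent (ZMod p) s := by
  rw [Fintype.linearIndependent_iff]
  constructor
  · intro hs g hg j
    obtain ⟨a, ha⟩ := hs (Pi.single j 1)
    have := DFunLike.congr_fun hg a
    simp only [AddMonoidHom.finsetSum_apply, AddMonoidHom.smul_apply, AddMonoidHom.zero_apply] at this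
    rw [Finset.sum_eq_single j] at this
    · have h1 : s j a = 1 := by simpa using congrFun ha j
      rw [h1] at this; simpa using this
    · intro k _ hk
      have h1 : s k a = 0 := by simpa [hk] using congrFun ha k
      rw [h1]; simp
    · simp
  · intro h
    let f : A →+ (Fin i → ZMod p) := AddMonoidHom.pi s
    let W : Submodule (ZMod p) (Fin i → ZMod p) := AddSubgroup.toZModSubmodule p f.range
    by_contra hc
    have hW : W < ⊤ := by
      rw [lt_top_iff_ne_top]
      intro hW
      apply hc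
      intro x
      have : x ∈ W := by rw [hW]; trivial
      obtain ⟨a, ha⟩ := this
      exact ⟨a, ha⟩
    obtain ⟨g, hg0, hg⟩ := Submodule.exists_le_ker_of_lt_top W hW
    apply hg0
    have := h (fun j => g (Pi.single j 1)) (by
      ext a
      simp only [AddMonoidHom.finsetSum_apply, AddMonoidHom.smul_apply, AddMonoidHom.zero_apply]
      have h1 : f a ∈ W := ⟨a, rfl⟩
      have h2 : g (f a) = 0 := hg h1
      rw [LinearMap.pi_apply_eq_sum_univ] at h2
      rw [← h2]
      refine Finset.sum_congr rfl fun j _ => ?_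
      simp only [smul_eq_mul, f]
      rw [mul_comm]
      congr 2
      ext k
      simp [Pi.single_apply, eq_comm])
    ext j
    simpa using this j

private def surLiEquiv (p : ℕ) [Fact p.Prime] (i : ℕ) :
    Sur A (Fin i → ZMod p) ≃ {s : Fin i → (A →+ ZMod p) // LinearIndependent (ZMod p) s} where
  toFun φ := ⟨fun j => (Pi.evalAddMonoidHom (fun _ : Fin i => ZMod p) j).comp φ.1,
    (surj_iff_li _).1 φ.2⟩
  invFun s := ⟨AddMonoidHom.pi s.1, (surj_iff_li s.1).2 s.2⟩
  left_inv φ := by ext; rfl
  right_inv s := by ext; rfl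

/-- `|Hom(A, Z/p)| = |A[p]|` -/
private theorem card_hom (p : ℕ) [Fact p.Prime] [Finite A] :
    Nat.card (A →+ ZMod p) = Nat.card {x : A // p • x = 0} := by
  have hfin : Finite (ModN A p) := Finite.of_surjective (ModN.mkQ (G := A) p) (by
    unfold ModN.mkQ
    exact Submodule.mkQ_surjective _)
  have h1 : Nat.card (A →+ ZMod p) = Nat.card (ModN A p) := by
    rw [← Nat.card_congr (((ModN.liftEquiv' (n := p) (G := A) (H := ZMod p))).trans
      (Equiv.subtypeUnivEquiv (fun φ g => by simp)))]
    have : Finite (ModN A p →ₗ[ZMod p] ZMod p) := Finite.of_injective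
      (fun f => (f : ModN A p → ZMod p)) DFunLike.coe_injective
    rw [Module.natCard_eq_pow_finrank (K := ZMod p), Module.natCard_eq_pow_finrank (K := ZMod p)
      (V := ModN A p)]
    congr 1
    exact Subspace.dual_finrank_eq
  rw [h1]
  let f : A →ₗ[ℤ] A := LinearMap.lsmul ℤ A (p : ℤ)
  have h2 : Nat.card A = Nat.card f.range * Nat.card (ModN A p) :=
    Submodule.card_eq_card_quotient_mul_card _
  have h3 : Nat.card A = Nat.card f.ker * Nat.card (A ⧸ f.ker) :=
    Submodule.card_eq_card_quotient_mul_card _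
  have h4 : Nat.card (A ⧸ f.ker) = Nat.card f.range := Nat.card_congr f.quotKerEquivRange.toEquiv
  have h5 : Nat.card f.ker = Nat.card {x : A // p • x = 0} := by
    apply Nat.card_congr
    apply Equiv.subtypeEquivRight
    intro x
    simp [f]
  have h6 : 0 < Nat.card f.range := Nat.card_pos
  rw [h4, h5, mul_comm] at h3
  rw [h2] at h3
  exact Nat.eq_of_mul_eq_mul_left h6 h3

private theorem card_surV (p : ℕ) [Fact p.Prime] [Finite A] (i : ℕ) :
    (Nat.card (Sur A (Fin i → ZMod p)) : ℝ)
      = ∏ j ∈ range i, ((p : ℝ) ^ (Nat.log p (Nat.card {x : A // p • x = 0})) - (p : ℝ) ^ j) := by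
  have hp : p.Prime := Fact.out
  rw [Nat.card_congr (surLiEquiv p i)]
  have h1 : Nat.card {x : A // p • x = 0} = p ^ Module.finrank (ZMod p) (A →+ ZMod p) := by
    rw [← card_hom, Module.natCard_eq_pow_finrank (K := ZMod p)]
    simp
  rw [h1, Nat.log_pow hp.one_lt]
  rcases Nat.lt_or_ge (Module.finrank (ZMod p) (A →+ ZMod p)) i with h | h
  · have : IsEmpty {s : Fin i → (A →+ ZMod p) // LinearIndependent (ZMod p) s} := by
      constructor
      rintro ⟨s, hs⟩
      have := hs.fintype_card_le_finrank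
      simp at this
      omega
    rw [Nat.card_of_isEmpty, Nat.cast_zero, eq_comm]
    exact Finset.prod_eq_zero (Finset.mem_range.2 h) (sub_self _)
  · rw [card_linearIndependent h, ZMod.card, Nat.cast_prod, Finset.prod_range]
    refine Finset.prod_congr rfl fun j _ => ?_
    rw [Nat.cast_sub, Nat.cast_pow, Nat.cast_pow]
    exact Nat.pow_le_pow_right hp.pos (by omega)

private theorem card_autV (p : ℕ) [Fact p.Prime] (i : ℕ) :
    (Nat.card ((Fin i → ZMod p) ≃+ (Fin i → ZMod p)) : ℝ)
      = ∏ j ∈ range i, ((p : ℝ) ^ i - (p : ℝ) ^ j) := by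
  have hp : p.Prime := Fact.out
  have h1 : Nat.card {x : (Fin i → ZMod p) // p • x = 0} = p ^ i := by
    rw [Nat.card_congr (Equiv.subtypeUnivEquiv (fun x => by ext j; simp))]
    simp
  have h2 := card_surV (A := Fin i → ZMod p) p i
  rw [h1, Nat.log_pow hp.one_lt] at h2
  rw [← h2]
  congr 1
  apply Nat.card_congr
  exact {
    toFun := fun e => ⟨e.toAddMonoidHom, e.surjective⟩
    invFun := fun φ => AddEquiv.ofBijective φ.1 (Finite.surjective_iff_bijective.1 φ.2)
    left_inv := fun e => by ext; rfl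
    right_inv := fun e => by ext; rfl }

private theorem gb_eq_card (p : ℕ) [Fact p.Prime] [Finite A] (i : ℕ) :
    gb p (Nat.log p (Nat.card {x : A // p • x = 0})) i
      = (Nat.card {N : AddSubgroup A // Nonempty ((A ⧸ N) ≃+ (Fin i → ZMod p))} : ℝ) := by
  have h1 := card_surV (A := A) p i
  have h2 := card_autV p i
  have h3 := card_sur (A := A) (B := Fin i → ZMod p)
  rw [h3, Nat.cast_mul] at h1
  have h4 : (Nat.card ((Fin i → ZMod p) ≃+ (Fin i → ZMod p)) : ℝ) ≠ 0 := by
    have : Nonempty ((Fin i → ZMod p) ≃+ (Fin i → ZMod p)) := ⟨AddEquiv.refl _⟩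
    exact_mod_cast Nat.card_pos.ne'
  unfold gb
  rw [Finset.prod_div_distrib, ← h2, ← h1, mul_div_cancel_left₀ _ h4]

private theorem natCardZ (p : ℕ) [Fact p.Prime] [Finite A] [Module (ZMod p) A] :
    Nat.card A = p ^ Module.finrank (ZMod p) A := by
  rw [Module.natCard_eq_pow_finrank (K := ZMod p) (V := A), Nat.card_zmod]

private theorem vecEquiv (p : ℕ) [Fact p.Prime] [Finite A] [Module (ZMod p) A] (i : ℕ)
    (h2 : Nat.card A = p ^ i) : Nonempty (A ≃+ (Fin i → ZMod p)) := by
  have h3 : Module.finrank (ZMod p) A = i := by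
    have h : Nat.card A = p ^ Module.finrank (ZMod p) A := natCardZ p
    rw [h2] at h
    exact (Nat.pow_right_injective (Fact.out : p.Prime).two_le h).symm
  have h4 : Module.finrank (ZMod p) (Fin i → ZMod p) = i := by simp
  exact ⟨(LinearEquiv.ofFinrankEq A (Fin i → ZMod p) (h3.trans h4.symm)).toAddEquiv⟩

/-- elementary abelian groups -/
private theorem elem_iff (p : ℕ) [Fact p.Prime] [Finite A] (i : ℕ) :
    Nonempty (A ≃+ (Fin i → ZMod p)) ↔ ((∀ x : A, p • x = 0) ∧ Nat.card A = p ^ i) := by
  constructor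
  · rintro ⟨e⟩
    refine ⟨fun x => ?_, ?_⟩
    · apply e.injective
      rw [map_nsmul, map_zero]
      ext j; simp
    · rw [Nat.card_congr e.toEquiv]; simp
  · rintro ⟨h1, h2⟩
    exact @vecEquiv A _ p _ _ (AddCommGroup.zmodModule h1) i h2

/-- the condition on the pair `(φ, N)` -/
private def PairC (p i : ℕ) (φ : A →+ B) (N : AddSubgroup A) : Prop :=
  N ≤ φ.ker ∧ (∀ x, φ x = 0 → p • x ∈ N) ∧ Nat.card (A ⧸ N) = Nat.card B * p ^ i

private theorem pairC_iff (p : ℕ) [Fact p.Prime] [Finite A] [Finite B] (i : ℕ) (φ : A →+ B)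
    (hφ : Function.Surjective φ) (N : AddSubgroup A) (hN : N ≤ φ.ker) :
    PairC p i φ N ↔ Nonempty ((φ.ker ⧸ N.addSubgroupOf φ.ker) ≃+ (Fin i → ZMod p)) := by
  rw [elem_iff]
  have h1 : Nat.card (A ⧸ N) = Nat.card (φ.ker ⧸ N.addSubgroupOf φ.ker) * Nat.card B := by
    have h := AddSubgroup.relIndex_mul_index hN
    have h' : Nat.card (A ⧸ φ.ker) = Nat.card B :=
      Nat.card_congr (QuotientAddGroup.quotientKerEquivOfSurjective φ hφ).toEquiv
    rw [← h']
    exact h.symm
  have h2 : 0 < Nat.card B := Nat.card_pos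
  unfold PairC
  constructor
  · rintro ⟨-, h3, h4⟩
    refine ⟨fun x => ?_, ?_⟩
    · induction x using QuotientAddGroup.induction_on with
      | H x =>
        rw [← QuotientAddGroup.mk_nsmul, QuotientAddGroup.eq_zero_iff, AddSubgroup.mem_addSubgroupOf]
        exact h3 x.1 x.2
    · rw [h1, mul_comm] at h4
      exact Nat.eq_of_mul_eq_mul_left h2 h4
  · rintro ⟨h3, h4⟩
    refine ⟨hN, fun x hx => ?_, ?_⟩
    · have := h3 (QuotientAddGroup.mk (⟨x, hx⟩ : φ.ker))
      rw [← QuotientAddGroup.mk_nsmul, QuotientAddGroup.eq_zero_iff, AddSubgroup.mem_addSubgroupOf] at this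
      exact this
    · rw [h1, h4, mul_comm]

private def pairKerEquiv (p : ℕ) [Fact p.Prime] [Finite A] [Finite B] (i : ℕ) (φ : A →+ B)
    (hφ : Function.Surjective φ) :
    {N : AddSubgroup A // PairC p i φ N}
      ≃ {N : AddSubgroup φ.ker // Nonempty ((φ.ker ⧸ N) ≃+ (Fin i → ZMod p))} where
  toFun N := ⟨N.1.addSubgroupOf φ.ker, (pairC_iff p i φ hφ N.1 N.2.1).1 N.2⟩
  invFun N := ⟨N.1.map φ.ker.subtype, by
    have h1 : N.1.map φ.ker.subtype ≤ φ.ker := by
      rintro x ⟨y, -, rfl⟩; exact y.2
    rw [pairC_iff p i φ hφ _ h1]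
    have h2 : (N.1.map φ.ker.subtype).addSubgroupOf φ.ker = N.1 :=
      AddSubgroup.comap_map_eq_self_of_injective Subtype.val_injective _
    rw [h2]
    exact N.2⟩
  left_inv N := by
    apply Subtype.ext
    change (N.1.addSubgroupOf φ.ker).map φ.ker.subtype = N.1
    rw [AddSubgroup.addSubgroupOf_map_subtype]
    exact inf_eq_left.2 N.2.1
  right_inv N := by
    apply Subtype.ext
    exact AddSubgroup.comap_map_eq_self_of_injective Subtype.val_injective _

private theorem gb_rkKer (p : ℕ) [Fact p.Prime] [Finite A] [Finite B] (i : ℕ) (φ : A →+ B)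
    (hφ : Function.Surjective φ) :
    gb p (rkKer p φ) i = (Nat.card {N : AddSubgroup A // PairC p i φ N} : ℝ) := by
  rw [Nat.card_congr (pairKerEquiv p i φ hφ), ← gb_eq_card]
  unfold rkKer
  congr 2
  apply Nat.card_congr
  exact {
    toFun := fun x => ⟨⟨x.1, x.2.1⟩, Subtype.ext x.2.2⟩
    invFun := fun x => ⟨x.1.1, x.1.2, congrArg Subtype.val x.2⟩
    left_inv := fun x => rfl
    right_inv := fun x => rfl }

/-- the number of surjections with elementary abelian kernel -/
private def fC (p : ℕ) (A B : Type) [AddCommGroup A] [AddCommGroup B] : ℕ :=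
  Nat.card {π : Sur A B // ∀ x, π.1 x = 0 → p • x = 0}

private theorem fC_congr (p : ℕ) (e : A ≃+ C) : fC p A B = fC p C B := by
  apply Nat.card_congr
  exact {
    toFun := fun π => ⟨⟨π.1.1.comp e.symm.toAddMonoidHom, π.1.2.comp e.symm.surjective⟩, fun x hx => by
      have := π.2 (e.symm x) hx
      apply e.symm.injective
      rw [map_nsmul, map_zero]; exact this⟩
    invFun := fun π => ⟨⟨π.1.1.comp e.toAddMonoidHom, π.1.2.comp e.surjective⟩, fun x hx => by
      have := π.2 (e x) hx
      apply e.injective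
      rw [map_nsmul, map_zero]; exact this⟩
    left_inv := fun π => by ext; simp
    right_inv := fun π => by ext; simp }

private theorem fC_quot (p : ℕ) (N : AddSubgroup A) :
    fC p (A ⧸ N) B = Nat.card {φ : Sur A B // N ≤ φ.1.ker ∧ ∀ x, φ.1 x = 0 → p • x ∈ N} := by
  apply Nat.card_congr
  exact {
    toFun := fun π => ⟨⟨π.1.1.comp (QuotientAddGroup.mk' N), π.1.2.comp (QuotientAddGroup.mk'_surjective N)⟩,
      fun x hx => by
        have : (QuotientAddGroup.mk' N) x = 0 := (QuotientAddGroup.eq_zero_iff x).2 hx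
        rw [AddMonoidHom.mem_ker, AddMonoidHom.comp_apply, this, map_zero],
      fun x hx => by
        have := π.2 _ hx
        rw [← map_nsmul] at this
        exact (QuotientAddGroup.eq_zero_iff _).1 this⟩
    invFun := fun φ => ⟨⟨QuotientAddGroup.lift N φ.1.1 φ.2.1, by
        intro b
        obtain ⟨a, ha⟩ := φ.1.2 b
        exact ⟨QuotientAddGroup.mk a, ha⟩⟩, fun x => by
          induction x using QuotientAddGroup.induction_on with
          | H x =>
            intro hx
            rw [← QuotientAddGroup.mk_nsmul, QuotientAddGroup.eq_zero_iff]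
            exact φ.2.2 x hx⟩
    left_inv := fun π => by
      apply Subtype.ext; apply Subtype.ext
      ext x
      rfl
    right_inv := fun φ => by
      apply Subtype.ext; apply Subtype.ext
      ext x
      rfl }

end aux

section reps

variable {m : ℕ}

/-- an abelian group structure on `Fin m`, as a bundled group -/
private def fabOf (σ : AddCommGroup (Fin m)) : FAb :=
  @FAb.mk (Fin m) σ (inferInstance)

private theorem fin_str : Finite (AddCommGroup (Fin m)) :=
  Finite.of_injective (fun σ : AddCommGroup (Fin m) => fun a b : Fin m => σ.add a b) fun _ _ h =>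
    AddCommGroup.ext h

private def isoSetoid (m : ℕ) : Setoid (AddCommGroup (Fin m)) where
  r := fun σ τ => Nonempty ((fabOf σ).carrier ≃+ (fabOf τ).carrier)
  iseqv := ⟨fun _ => ⟨AddEquiv.refl _⟩, fun ⟨e⟩ => ⟨e.symm⟩, fun ⟨e⟩ ⟨f⟩ => ⟨e.trans f⟩⟩

private theorem card_fabOf (σ : AddCommGroup (Fin m)) : Nat.card (fabOf σ).carrier = m := by
  change Nat.card (Fin m) = m
  simp

private theorem exists_fabOf (A : Type) [AddCommGroup A] [Finite A] (h : Nat.card A = m) :
    ∃ σ : AddCommGroup (Fin m), Nonempty (A ≃+ (fabOf σ).carrier) := by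
  let e : A ≃ Fin m := Finite.equivFinOfCardEq h
  refine ⟨e.symm.addCommGroup, ⟨?_⟩⟩
  exact {
    toFun := fun a => (e a : Fin m)
    invFun := fun b => e.symm b
    left_inv := fun a => e.symm_apply_apply a
    right_inv := fun b => e.apply_symm_apply b
    map_add' := fun a b => by
      change e (a + b) = e (e.symm (e a) + e.symm (e b))
      rw [e.symm_apply_apply, e.symm_apply_apply] }

/-- finitely many representatives of the abelian groups of order `m` -/
private theorem exists_reps (m : ℕ) : ∃ (k : ℕ) (B : Fin k → FAb), (∀ j, Nat.card (B j).carrier = m) ∧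
    ∀ (A : Type) [AddCommGroup A] [Finite A], Nat.card A = m →
      ∃! j, Nonempty (A ≃+ (B j).carrier) := by
  have hf : Finite (AddCommGroup (Fin m)) := fin_str
  have hq : Finite (Quotient (isoSetoid m)) := Quotient.finite _
  obtain ⟨k, ⟨e⟩⟩ := Finite.exists_equiv_fin (Quotient (isoSetoid m))
  refine ⟨k, fun j => fabOf (e.symm j).out, fun j => card_fabOf _, ?_⟩
  intro A _ _ hA
  obtain ⟨σ, ⟨f⟩⟩ := exists_fabOf A hA
  refine ⟨e (Quotient.mk (isoSetoid m) σ), ?_, ?_⟩
  · have h : (isoSetoid m).r σ (Quotient.mk (isoSetoid m) σ).out :=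
      (isoSetoid m).symm (Quotient.mk_out (s := isoSetoid m) σ)
    obtain ⟨g⟩ := h
    change Nonempty (A ≃+ (fabOf (e.symm (e (Quotient.mk (isoSetoid m) σ))).out).carrier)
    rw [e.symm_apply_apply]
    exact ⟨f.trans g⟩
  · rintro j ⟨g⟩
    rw [← e.symm_apply_eq]
    rw [← Quotient.out_eq (s := isoSetoid m) (e.symm j)]
    exact Quotient.sound (s := isoSetoid m) ⟨g.symm.trans f⟩

end reps

theorem exists_coeff (p : ℕ) (hp : p.Prime) (G : FAb) (hG : IsP p G.carrier) (i : ℕ) :
    ∃ (k : ℕ) (B : Fin k → FAb) (c : Fin k → ℝ),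
      (∀ j, 0 ≤ c j) ∧ (∀ j, IsP p (B j).carrier) ∧
      (∀ j, Nat.card (B j).carrier = Nat.card G.carrier * p ^ i) ∧
      ∀ Γ : FAb, IsP p Γ.carrier →
        ∑ᶠ φ : Sur Γ.carrier G.carrier, gb p (rkKer p φ.1) i
          = ∑ j, c j * (Nat.card (Sur Γ.carrier (B j).carrier) : ℝ) := by
  classical
  have : Fact p.Prime := ⟨hp⟩
  obtain ⟨k, B, hB, hrep⟩ := exists_reps (Nat.card G.carrier * p ^ i)
  obtain ⟨e, he⟩ : ∃ e : ℕ, Nat.card G.carrier = p ^ e := by
    have h1 : IsPGroup p (Multiplicative G.carrier) := by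
      intro g
      obtain ⟨k, hk⟩ := hG g.toAdd
      exact ⟨k, by rw [← toAdd_eq_zero]; simpa using hk⟩
    exact (IsPGroup.iff_card (p := p) (G := Multiplicative G.carrier)).1 h1
  refine ⟨k, B, fun j => (fC p (B j).carrier G.carrier : ℝ) / (Nat.card ((B j).carrier ≃+ (B j).carrier) : ℝ),
    fun j => by positivity, ?_, hB, ?_⟩
  · intro j b
    refine ⟨e + i, ?_⟩
    have h1 : Nat.card (B j).carrier = p ^ (e + i) := by rw [hB j, he, pow_add]
    rw [← h1]
    exact card_nsmul_eq_zero'
  · intro Γ _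
    have : Fintype (Sur Γ.carrier G.carrier) := Fintype.ofFinite _
    have : Fintype (AddSubgroup Γ.carrier) := Fintype.ofFinite _
    rw [finsum_eq_sum_of_fintype]
    have h1 : ∀ φ : Sur Γ.carrier G.carrier, gb p (rkKer p φ.1) i
        = ∑ N : AddSubgroup Γ.carrier, if PairC p i φ.1 N then (1 : ℝ) else 0 := by
      intro φ
      rw [gb_rkKer p i φ.1 φ.2, Nat.card_eq_fintype_card, Fintype.card_subtype, Finset.sum_boole]
    have h2 : ∀ N : AddSubgroup Γ.carrier,
        ∑ φ : Sur Γ.carrier G.carrier, (if PairC p i φ.1 N then (1 : ℝ) else 0)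
        = ∑ j, if Nonempty ((Γ.carrier ⧸ N) ≃+ (B j).carrier) then
            (fC p (B j).carrier G.carrier : ℝ) else 0 := by
      intro N
      by_cases hN : Nat.card (Γ.carrier ⧸ N) = Nat.card G.carrier * p ^ i
      · obtain ⟨j, ⟨f⟩, hu⟩ := hrep (Γ.carrier ⧸ N) hN
        rw [Finset.sum_eq_single j (fun j' _ hj' => if_neg fun h => hj' (hu j' h)) (by simp),
          if_pos ⟨f⟩, ← fC_congr p f, fC_quot, Finset.sum_boole, Nat.card_eq_fintype_card,
          Fintype.card_subtype]
        congr 2
        ext φ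
        simp only [Finset.mem_filter, Finset.mem_univ, true_and, PairC, hN, and_true]
      · rw [Finset.sum_eq_zero fun φ _ => if_neg fun h => hN h.2.2,
          Finset.sum_eq_zero fun j _ => if_neg ?_]
        rintro ⟨f⟩
        exact hN ((Nat.card_congr f.toEquiv).trans (hB j))
    rw [Finset.sum_congr rfl fun φ _ => h1 φ, Finset.sum_comm, Finset.sum_congr rfl fun N _ => h2 N,
      Finset.sum_comm]
    refine Finset.sum_congr rfl fun j _ => ?_
    rw [card_sur, ← Finset.sum_filter, Finset.sum_const, nsmul_eq_mul, Nat.cast_mul,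
      Nat.card_eq_fintype_card (α := {N : AddSubgroup Γ.carrier // _}), Fintype.card_subtype]
    have h4 : (Nat.card ((B j).carrier ≃+ (B j).carrier) : ℝ) ≠ 0 := by
      have : Nonempty ((B j).carrier ≃+ (B j).carrier) := ⟨AddEquiv.refl _⟩
      exact_mod_cast Nat.card_pos.ne'
    field_simp

end

end Pool.Agent.DH10
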