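import Pool.Agent.DH10.Basic1
import Pool.Agent.DH10.GroupPairs

/-!
# DH10.HomCount : cocycles and homomorphisms from `H_1` (1.4)

`#{f ∈ C^1(G) : S ⊆ Z f} = q^{n-1} #Hom(H_1(S), G)`, and with `ST f` (values of the curvature generate `G`) on the left and
surjective homomorphisms on the right.
Proof.  `f ∈ C^1(G)` = homomorphism `F : (Edg n → ℤ) → G`, `F c = ∑ c_e f_e` (`f e` the value on the basis vector).
`S ⊆ Z f` iff `F` kills `range (bd2 S)` (`F (bd2 1_t) = f(ab) + f(bc) - f(ac) = curT f t`).  Restricting `F` to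
`Z_1 = ker bd1` gives a homomorphism on `Z_1 / range (bd2 S) = H1 S`; conversely every homomorphism
`φ : H1 S → G` has exactly `q^{n-1}` extensions `F`: `Z_1` is a direct summand, e.g.
`(Edg n → ℤ) = Z_1 ⊕ (span of the n-1 star edges {v, last})` (subtract star edges to kill the boundary; the star is a
spanning tree), so the values on the star edges are arbitrary.  This needs `n ≥ 1`.
`φ` is onto iff `F(Z_1) = G`, and `Z_1` is spanned by the boundaries of all triangles
(a cycle is `∑_e c_e e = ∑_{e not star} c_e (e + star edges)`, boundaries of triangles `{x,y,last}`), so `F(Z_1)` is the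
subgroup generated by the `cur f x y z`.
`homMom_eq`, `surMom_eq` follow by exchanging sums:
`∑_f w f = ∑_f ∑_S W S 1[S ⊆ Z f] = ∑_S W S #{f : S ⊆ Z f}`.
-/

set_option autoImplicit false

open Finset

namespace Pool.Agent.DH10

noncomputable section

variable {n : ℕ} {G : Type} [AddCommGroup G] [Fintype G] [DecidableEq G]

/-! ### the universal cochain -/

private def uu (n : ℕ) : Coch n (Edg n → ℤ) := fun e => Pi.single e 1

section generic

variable {M M' : Type} [AddCommGroup M] [AddCommGroup M']

private theorem val_map (F : M →+ M') (f : Coch n M) (x y : Fin n) :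
    val (fun e => F (f e)) x y = F (val f x y) := by
  unfold val
  split_ifs <;> simp

private theorem val_self' (f : Coch n M) (x : Fin n) : val f x x = 0 := by
  unfold val
  simp

private theorem val_anti (f : Coch n M) (x y : Fin n) : val f y x = - val f x y := by
  unfold val
  rcases lt_trichotomy x y with h | h | h
  · simp [h, h.not_gt]
  · subst h
    simp
  · simp [h, h.not_gt]

private theorem val_lt (f : Coch n M) (e : Edg n) : val f e.1.1 e.1.2 = f e := by
  unfold val
  rw [dif_pos e.2]

private theorem val_cob (c : Fin n → M) (x y : Fin n) : val (cob c) x y = c y - c x := by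
  unfold val cob
  rcases lt_trichotomy x y with h | h | h
  · simp [h]
  · subst h
    simp
  · simp [h, h.not_gt]

private def ev (f : Coch n M) : (Edg n → ℤ) →ₗ[ℤ] M := Fintype.linearCombination ℤ f

private theorem ev_apply (f : Coch n M) (c : Edg n → ℤ) : ev f c = ∑ e, c e • f e := by
  simp [ev, Fintype.linearCombination_apply]

private theorem ev_single (f : Coch n M) (e : Edg n) : ev f (Pi.single e 1) = f e := by
  rw [ev_apply, Finset.sum_eq_single e]
  · simp
  · intro b _ hb
    rw [Pi.single_eq_of_ne hb, zero_smul]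
  · intro h
    exact absurd (Finset.mem_univ e) h

private theorem ev_val (f : Coch n M) (x y : Fin n) : ev f (val (uu n) x y) = val f x y := by
  have h := val_map (ev f).toAddMonoidHom (uu n) x y
  have h2 : (fun e => (ev f).toAddMonoidHom (uu n e)) = f := by
    funext e
    exact ev_single f e
  rw [h2] at h
  exact h.symm

private theorem ev_cur (f : Coch n M) (x y z : Fin n) :
    ev f (cur (uu n) x y z) = cur f x y z := by
  unfold cur
  rw [map_add, map_add, ev_val, ev_val, ev_val]

private theorem bd1_single (e : Edg n) :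
    bd1 n (Pi.single e 1) = (Pi.single e.1.2 1 : Fin n → ℤ) - Pi.single e.1.1 1 := by
  unfold bd1
  rw [Matrix.mulVecLin_apply, Matrix.mulVec_single_one]
  funext v
  simp [D1, Matrix.col_apply, Pi.single_apply]

private theorem bd1_val (x y : Fin n) :
    bd1 n (val (uu n) x y) = (Pi.single y 1 : Fin n → ℤ) - Pi.single x 1 := by
  have h := val_map (bd1 n).toAddMonoidHom (uu n) x y
  have h2 : (fun e => (bd1 n).toAddMonoidHom (uu n e)) =
      cob (fun v : Fin n => (Pi.single v 1 : Fin n → ℤ)) := by
    funext e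
    exact bd1_single e
  rw [h2, val_cob] at h
  exact h.symm

private theorem cur_mem (x y z : Fin n) : cur (uu n) x y z ∈ LinearMap.ker (bd1 n) := by
  rw [LinearMap.mem_ker]
  unfold cur
  rw [map_add, map_add, bd1_val, bd1_val, bd1_val]
  abel

private theorem ev_cob_eq (h : Fin n → M) (c : Edg n → ℤ) :
    ev (cob h) c = Fintype.linearCombination ℤ h (bd1 n c) := by
  have key : ev (cob h) = (Fintype.linearCombination ℤ h).comp (bd1 n) := by
    refine LinearMap.pi_ext' fun e => ?_
    refine LinearMap.ext_ring ?_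
    rw [LinearMap.comp_apply, LinearMap.comp_apply, LinearMap.coe_single, ev_single,
      LinearMap.comp_apply, bd1_single, map_sub, Fintype.linearCombination_apply_single,
      Fintype.linearCombination_apply_single]
    simp [cob]
  rw [key]
  rfl

private theorem ev_cob (h : Fin n → M) {c : Edg n → ℤ} (hc : c ∈ LinearMap.ker (bd1 n)) :
    ev (cob h) c = 0 := by
  rw [ev_cob_eq, LinearMap.mem_ker.mp hc, map_zero]

end generic

private def gam (r : Fin n) (e : Edg n) : LinearMap.ker (bd1 n) :=
  ⟨cur (uu n) e.1.1 e.1.2 r, cur_mem _ _ _⟩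

private theorem sum_gam (r : Fin n) (c : LinearMap.ker (bd1 n)) :
    ∑ e, c.1 e • gam r e = c := by
  apply Subtype.ext
  rw [AddSubmonoidClass.coe_finsetSum]
  have h1 : ∀ e : Edg n, ((c.1 e • gam r e : LinearMap.ker (bd1 n)) : Edg n → ℤ) =
      c.1 e • uu n e + c.1 e • cob (fun v => val (uu n) v r) e := by
    intro e
    rw [← smul_add]
    change c.1 e • cur (uu n) e.1.1 e.1.2 r = _
    congr 1
    unfold cur cob
    rw [val_lt, val_anti (uu n) e.1.1 r]
    abel
  rw [Finset.sum_congr rfl fun e _ => h1 e, Finset.sum_add_distrib, ← ev_apply, ← ev_apply,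
    ev_cob _ c.2, add_zero]
  rw [ev_apply]
  funext e
  rw [Finset.sum_apply, Finset.sum_eq_single e]
  · simp [uu]
  · intro b _ hb
    simp [uu, Pi.single_eq_of_ne (Ne.symm hb)]
  · intro h
    exact absurd (Finset.mem_univ e) h

private theorem bd2_single (S : Finset (Tri n)) (t : S) :
    bd2 S (Pi.single t 1) = curT (uu n) t.1 := by
  unfold bd2 curT cur
  rw [Matrix.mulVecLin_apply, Matrix.mulVec_single_one]
  have h1 : val (uu n) t.1.a t.1.b = uu n t.1.ab := val_lt _ t.1.ab
  have h2 : val (uu n) t.1.b t.1.c = uu n t.1.bc := val_lt _ t.1.bc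
  have h3 : val (uu n) t.1.a t.1.c = uu n t.1.ac := val_lt _ t.1.ac
  rw [val_anti (uu n) t.1.a t.1.c, h1, h2, h3]
  funext e
  simp [D2, Matrix.col_apply, uu, Pi.single_apply]
  ring

private theorem range_le {S : Finset (Tri n)} {f : Coch n G} (hf : S ⊆ Z f) {x : Edg n → ℤ}
    (hx : x ∈ LinearMap.range (bd2 S)) : ev f x = 0 := by
  obtain ⟨c, rfl⟩ := hx
  have key : (ev f).comp (bd2 S) = 0 := by
    refine LinearMap.pi_ext' fun t => ?_
    refine LinearMap.ext_ring ?_
    rw [LinearMap.comp_apply, LinearMap.comp_apply, LinearMap.coe_single, bd2_single]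
    unfold curT
    rw [ev_cur]
    have := hf t.2
    simp only [Z, Finset.mem_filter, Finset.mem_univ, true_and] at this
    simpa [curT] using this
  have := congrArg (fun F => F c) key
  simpa using this

private def toHom {S : Finset (Tri n)} (f : Coch n G) (hf : S ⊆ Z f) : H1 S →+ G :=
  (Submodule.liftQ _ ((ev f).comp (LinearMap.ker (bd1 n)).subtype) (by
    intro x hx
    rw [LinearMap.mem_ker]
    exact range_le hf hx)).toAddMonoidHom

private theorem toHom_mk {S : Finset (Tri n)} (f : Coch n G) (hf : S ⊆ Z f)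
    (c : LinearMap.ker (bd1 n)) : toHom f hf (Submodule.Quotient.mk c) = ev f c.1 := by
  rfl

private def fromPair (S : Finset (Tri n)) (r : Fin n) (s : {v : Fin n // v ≠ r} → G)
    (φ : H1 S →+ G) : Coch n G :=
  fun e => φ (Submodule.Quotient.mk (gam r e)) -
    cob (fun v => if h : v = r then 0 else s ⟨v, h⟩) e

private theorem ev_fromPair (S : Finset (Tri n)) (r : Fin n) (s : {v : Fin n // v ≠ r} → G)
    (φ : H1 S →+ G) (c : LinearMap.ker (bd1 n)) :
    ev (fromPair S r s φ) c.1 = φ (Submodule.Quotient.mk c) := by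
  have h1 : ev (fromPair S r s φ) c.1 = ∑ e, c.1 e • φ (Submodule.Quotient.mk (gam r e)) -
      ev (cob (fun v => if h : v = r then 0 else s ⟨v, h⟩)) c.1 := by
    rw [ev_apply, ev_apply, ← Finset.sum_sub_distrib]
    refine Finset.sum_congr rfl fun e _ => ?_
    rw [← smul_sub]
    rfl
  rw [h1, ev_cob _ c.2, sub_zero]
  conv_rhs => rw [← sum_gam r c]
  have h2 : (Submodule.Quotient.mk (∑ e, c.1 e • gam r e) : H1 S) =
      ∑ e, c.1 e • (Submodule.Quotient.mk (gam r e) : H1 S) := by
    have := map_sum (Submodule.mkQ ((LinearMap.range (bd2 S)).submoduleOf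
      (LinearMap.ker (bd1 n)))) (fun e => c.1 e • gam r e) Finset.univ
    exact this
  rw [h2, map_sum]
  refine Finset.sum_congr rfl fun e _ => ?_
  rw [map_zsmul]

private theorem curT_mem (S : Finset (Tri n)) (t : Tri n) (ht : t ∈ S) :
    curT (uu n) t ∈ LinearMap.range (bd2 S) := ⟨Pi.single ⟨t, ht⟩ 1, bd2_single S ⟨t, ht⟩⟩

private theorem fromPair_sub (S : Finset (Tri n)) (r : Fin n) (s : {v : Fin n // v ≠ r} → G)
    (φ : H1 S →+ G) : S ⊆ Z (fromPair S r s φ) := by
  intro t ht
  simp only [Z, Finset.mem_filter, Finset.mem_univ, true_and]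
  unfold curT
  rw [← ev_cur]
  have h1 := ev_fromPair S r s φ ⟨cur (uu n) t.a t.b t.c, cur_mem _ _ _⟩
  rw [h1]
  have h2 : (Submodule.Quotient.mk (⟨cur (uu n) t.a t.b t.c, cur_mem _ _ _⟩ :
      LinearMap.ker (bd1 n)) : H1 S) = 0 := by
    rw [Submodule.Quotient.mk_eq_zero]
    exact curT_mem S t ht
  rw [h2, map_zero]

private def cocEquiv (S : Finset (Tri n)) (r : Fin n) (hr : ∀ v, v ≠ r → v < r) :
    {f : Coch n G // S ⊆ Z f} ≃ ({v : Fin n // v ≠ r} → G) × (H1 S →+ G) where
  toFun f := (fun v => val f.1 v.1 r, toHom f.1 f.2)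
  invFun p := ⟨fromPair S r p.1 p.2, fromPair_sub S r p.1 p.2⟩
  left_inv f := by
    apply Subtype.ext
    funext e
    change toHom f.1 f.2 (Submodule.Quotient.mk (gam r e)) -
      cob (fun v => if h : v = r then 0 else val f.1 v r) e = f.1 e
    rw [toHom_mk]
    change ev f.1 (cur (uu n) e.1.1 e.1.2 r) - _ = _
    rw [ev_cur]
    have h1 : (fun v : Fin n => if h : v = r then (0 : G) else val f.1 v r) =
        fun v => val f.1 v r := by
      funext v
      split_ifs with h
      · rw [h, val_self']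
      · rfl
    rw [h1]
    unfold cur cob
    rw [val_lt, val_anti f.1 e.1.1 r]
    abel
  right_inv p := by
    apply Prod.ext
    · funext v
      change val (fromPair S r p.1 p.2) v.1 r = p.1 v
      have hlt := hr v.1 v.2
      have h1 : val (fromPair S r p.1 p.2) v.1 r = fromPair S r p.1 p.2 ⟨(v.1, r), hlt⟩ :=
        val_lt _ ⟨(v.1, r), hlt⟩
      rw [h1]
      unfold fromPair
      have h2 : gam r (⟨(v.1, r), hlt⟩ : Edg n) = 0 := by
        apply Subtype.ext
        change cur (uu n) v.1 r r = 0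
        unfold cur
        rw [val_self', val_anti (uu n) v.1 r]
        abel
      rw [h2, Submodule.Quotient.mk_zero, map_zero]
      unfold cob
      simp [v.2]
    · refine AddMonoidHom.ext fun x => ?_
      obtain ⟨c, rfl⟩ := Submodule.Quotient.mk_surjective _ x
      change toHom (fromPair S r p.1 p.2) (fromPair_sub S r p.1 p.2) (Submodule.Quotient.mk c) = _
      rw [toHom_mk, ev_fromPair]

private theorem ST_iff {S : Finset (Tri n)} (r : Fin n) (f : Coch n G) (hf : S ⊆ Z f) :
    ST f ↔ Function.Surjective (toHom f hf) := by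
  unfold ST
  rw [← AddMonoidHom.range_eq_top]
  have h : AddSubgroup.closure
      (Set.range fun p : Fin n × Fin n × Fin n => cur f p.1 p.2.1 p.2.2) =
      (toHom f hf).range := by
    apply le_antisymm
    · rw [AddSubgroup.closure_le]
      rintro _ ⟨p, rfl⟩
      refine ⟨Submodule.Quotient.mk ⟨cur (uu n) p.1 p.2.1 p.2.2, cur_mem _ _ _⟩, ?_⟩
      rw [toHom_mk]
      exact ev_cur _ _ _ _
    · rintro _ ⟨x, rfl⟩
      obtain ⟨c, rfl⟩ := Submodule.Quotient.mk_surjective _ x
      rw [toHom_mk]
      have h1 : ev f c.1 = ∑ e, c.1 e • cur f e.1.1 e.1.2 r := by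
        conv_lhs => rw [← sum_gam r c]
        rw [AddSubmonoidClass.coe_finsetSum, map_sum]
        refine Finset.sum_congr rfl fun e _ => ?_
        change ev f (c.1 e • cur (uu n) e.1.1 e.1.2 r) = _
        rw [map_zsmul, ev_cur]
      rw [h1]
      refine AddSubgroup.sum_mem _ fun e _ => AddSubgroup.zsmul_mem _ ?_ _
      exact AddSubgroup.subset_closure ⟨(e.1.1, e.1.2, r), rfl⟩
  rw [h]

private def cocEquivST (S : Finset (Tri n)) (r : Fin n) (hr : ∀ v, v ≠ r → v < r) :
    {f : Coch n G // S ⊆ Z f ∧ ST f} ≃ ({v : Fin n // v ≠ r} → G) × Sur (H1 S) G where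
  toFun f := ((cocEquiv S r hr ⟨f.1, f.2.1⟩).1,
    ⟨(cocEquiv S r hr ⟨f.1, f.2.1⟩).2, (ST_iff r f.1 f.2.1).mp f.2.2⟩)
  invFun p := ⟨((cocEquiv S r hr).symm (p.1, p.2.1)).1,
    ((cocEquiv S r hr).symm (p.1, p.2.1)).2, by
      rw [ST_iff r _ ((cocEquiv S r hr).symm (p.1, p.2.1)).2]
      have h1 : toHom _ ((cocEquiv S r hr).symm (p.1, p.2.1)).2 =
          ((cocEquiv S r hr) ((cocEquiv S r hr).symm (p.1, p.2.1))).2 := rfl
      rw [h1, Equiv.apply_symm_apply]
      exact p.2.2⟩
  left_inv f := by
    apply Subtype.ext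
    change ((cocEquiv S r hr).symm (cocEquiv S r hr ⟨f.1, f.2.1⟩)).1 = f.1
    rw [Equiv.symm_apply_apply]
  right_inv p := by
    have h1 : (cocEquiv S r hr) ((cocEquiv S r hr).symm (p.1, p.2.1)) = (p.1, p.2.1) :=
      Equiv.apply_symm_apply _ _
    have h2 := congrArg Prod.fst h1
    have h3 := congrArg Prod.snd h1
    apply Prod.ext
    · exact h2
    · apply Subtype.ext
      exact h3

private theorem exists_root (hn : 1 ≤ n) : ∃ r : Fin n, ∀ v, v ≠ r → v < r := by
  refine ⟨⟨n - 1, by omega⟩, fun v hv => ?_⟩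
  have h1 := v.2
  rw [Fin.lt_def]
  rcases Nat.lt_or_ge v.1 (n - 1) with h | h
  · exact h
  · exfalso
    apply hv
    apply Fin.ext
    simp only
    omega

private theorem card_star (r : Fin n) :
    Nat.card ({v : Fin n // v ≠ r} → G) = Fintype.card G ^ (n - 1) := by
  rw [Nat.card_fun, Nat.card_eq_fintype_card, Nat.card_eq_fintype_card, Fintype.card_subtype_compl]
  simp

theorem card_cocycles (hn : 1 ≤ n) (S : Finset (Tri n)) :
    Nat.card {f : Coch n G // S ⊆ Z f} = Fintype.card G ^ (n - 1) * Nat.card (H1 S →+ G) := by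
  obtain ⟨r, hr⟩ := exists_root hn
  rw [Nat.card_congr (cocEquiv (G := G) S r hr), Nat.card_prod, card_star]

theorem card_cocycles_ST (hn : 1 ≤ n) (S : Finset (Tri n)) :
    Nat.card {f : Coch n G // S ⊆ Z f ∧ ST f} = Fintype.card G ^ (n - 1) * Nat.card (Sur (H1 S) G) := by
  obtain ⟨r, hr⟩ := exists_root hn
  rw [Nat.card_congr (cocEquivST (G := G) S r hr), Nat.card_prod, card_star]

open Classical in
private theorem exch (P : Coch n G → Prop) :
    ∑ f ∈ univ.filter (fun f : Coch n G => P f), w f =
      ∑ S ∈ cand n, W S * (Nat.card {f : Coch n G // S ⊆ Z f ∧ P f} : ℝ) := by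
  unfold w
  simp_rw [Finset.sum_filter]
  rw [← Finset.sum_filter, Finset.sum_comm]
  refine Finset.sum_congr rfl fun S _ => ?_
  rw [← Finset.sum_filter, Finset.filter_filter, Finset.sum_const, nsmul_eq_mul, mul_comm,
    Nat.card_eq_fintype_card, Fintype.card_subtype]
  congr 2
  refine congrArg Finset.card ?_
  ext f
  simp [and_comm]

theorem homMom_eq (hn : 1 ≤ n) :
    HomMom n G = (∑ f : Coch n G, w f) / (Fintype.card G : ℝ) ^ (n - 1) := by
  classical
  have hq : ((Fintype.card G : ℝ)) ^ (n - 1) ≠ 0 := by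
    have : 0 < Fintype.card G := Fintype.card_pos
    positivity
  rw [eq_div_iff hq]
  have h1 := exch (n := n) (G := G) (fun _ => True)
  simp only [Finset.filter_true, and_true] at h1
  rw [h1]
  unfold HomMom Ex
  rw [Finset.sum_mul]
  refine Finset.sum_congr rfl fun S _ => ?_
  rw [card_cocycles hn S]
  push_cast
  ring

open Classical in
theorem surMom_eq (hn : 1 ≤ n) :
    SurMom n G = (∑ f ∈ univ.filter (fun f : Coch n G => ST f), w f) / (Fintype.card G : ℝ) ^ (n - 1) := by
  have hq : ((Fintype.card G : ℝ)) ^ (n - 1) ≠ 0 := by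
    have : 0 < Fintype.card G := Fintype.card_pos
    positivity
  rw [eq_div_iff hq]
  have h1 := exch (n := n) (G := G) (fun f => ST f)
  rw [h1]
  unfold SurMom Ex
  rw [Finset.sum_mul]
  refine Finset.sum_congr rfl fun S _ => ?_
  rw [card_cocycles_ST hn S]
  push_cast
  ring

end

end Pool.Agent.DH10
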