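import Mathlib

/-!
# DH10.Mid2 : deterministic spectral argument (Part 3 (5)), pure matrix statement

`A` Hermitian `n × n` complex with all `|A_xy| = 1/n` and trace `1`; `P` any matrix with `‖A² - P‖_F ≤ κ²`, `κ ≤ 1/100`, and
`|∑ u_x v_y (A-P)_xy| ≤ 2 n κ⁴` for all sign vectors `u, v`.  Then `τ = Re tr A³` satisfies `|τ| ≤ κ` or `τ ≥ 1 - 64κ`.
Proof.  Let `lam` be an eigenvalue of `A`, `v` a unit eigenvector, `|lam| ≥ κ`.  `|v_x| = |(Av)_x|/|lam| ≤ (1/κ)(1/n) ∑|v_y|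
≤ κ^{-1} n^{-1/2}` (Cauchy-Schwarz).  Write `v = a + i b` with real `a, b`, entries `≤ B = κ^{-1} n^{-1/2}` in absolute value.
`v^*(A-P)v = aᵀ(A-P)a + bᵀ(A-P)b + i (aᵀ(A-P)b - bᵀ(A-P)a)`, and for real vectors with entries in `[-B,B]`,
`|aᵀ(A-P)b| ≤ B² max_{signs} |uᵀ(A-P)v|` (the modulus of a bilinear form is convex in each variable, a cube is the convex
hull of its vertices).  So `|v^*(A-P)v| ≤ 4 B² 2 n κ⁴ = 8 κ²`.  `v^*Av = lam`, `|v^*Pv - lam²| = |v^*(P-A²)v| ≤ κ²`.  Hence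
`|lam - lam²| ≤ 9κ²` and `|1-lam| ≤ 9κ`.
So every eigenvalue satisfies `|lam| < κ` or `|1 - lam| ≤ 9κ`.  `∑ lam_i² = tr A² = ∑ |A_xy|² = 1`.  If no eigenvalue is near
`1`: `|τ| = |∑ lam_i³| ≤ κ ∑ lam_i² = κ`.  Otherwise some `lam_1 ≥ 1 - 9κ`, `∑_{i≠1} lam_i² ≤ 1-(1-9κ)² ≤ 18κ`, all
`|lam_i| ≤ 1`, so `τ ≥ (1-9κ)³ - 18κ ≥ 1 - 64κ`.
-/

set_option autoImplicit false

open Finset

namespace Pool.Agent.DH10

noncomputable section

/-- convexity in one variable -/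
private theorem mid2_conv {ι : Type} [Fintype ι] (c : ι → ℂ) (a : ι → ℝ) {B T : ℝ} (hB : 0 ≤ B)
    (ha : ∀ x, |a x| ≤ B)
    (hT : ∀ u : ι → ℝ, (∀ x, u x = 1 ∨ u x = -1) → ‖∑ x, (u x : ℂ) * c x‖ ≤ T) :
    ‖∑ x, (a x : ℂ) * c x‖ ≤ B * T := by
  set z : ℂ := ∑ x, (a x : ℂ) * c x with hz
  obtain ⟨θ, hθ, hθz⟩ : ∃ θ : ℂ, ‖θ‖ = 1 ∧ (θ * z).re = ‖z‖ := by
    by_cases h0 : z = 0
    · exact ⟨1, by simp, by simp [h0]⟩
    · refine ⟨(starRingEnd ℂ) z / ‖z‖, ?_, ?_⟩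
      · rw [norm_div, RCLike.norm_conj, Complex.norm_real, norm_norm,
          div_self (norm_ne_zero_iff.mpr h0)]
      · have h1 : (starRingEnd ℂ) z / ‖z‖ * z = ((‖z‖ : ℝ) : ℂ) := by
          have h2 : (starRingEnd ℂ) z * z = ((‖z‖ : ℝ) : ℂ) ^ 2 := by
            rw [mul_comm, Complex.mul_conj, Complex.normSq_eq_norm_sq]
            push_cast
            rfl
          have h3 : ((‖z‖ : ℝ) : ℂ) ≠ 0 := by
            exact_mod_cast norm_ne_zero_iff.mpr h0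
          rw [div_mul_eq_mul_div, h2, sq, mul_div_assoc, div_self h3, mul_one]
        rw [h1, Complex.ofReal_re]
  have h1 : ‖z‖ = ∑ x, a x * (θ * c x).re := by
    rw [← hθz, hz, mul_sum, Complex.re_sum]
    apply sum_congr rfl
    intro x _
    rw [show θ * ((a x : ℂ) * c x) = (a x : ℂ) * (θ * c x) by ring, Complex.re_ofReal_mul]
  set u : ι → ℝ := fun x => if 0 ≤ (θ * c x).re then 1 else -1 with hu
  have hu1 : ∀ x, u x = 1 ∨ u x = -1 := by
    intro x
    simp only [hu]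
    split_ifs
    · exact Or.inl rfl
    · exact Or.inr rfl
  have hu2 : ∀ x, |(θ * c x).re| = u x * (θ * c x).re := by
    intro x
    simp only [hu]
    split_ifs with h
    · rw [abs_of_nonneg h, one_mul]
    · rw [abs_of_neg (not_le.mp h)]
      ring
  have h2 : ‖z‖ ≤ B * ∑ x, u x * (θ * c x).re := by
    rw [h1, mul_sum]
    apply sum_le_sum
    intro x _
    rw [← hu2 x]
    calc a x * (θ * c x).re ≤ |a x * (θ * c x).re| := le_abs_self _
      _ = |a x| * |(θ * c x).re| := abs_mul _ _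
      _ ≤ B * |(θ * c x).re| := mul_le_mul_of_nonneg_right (ha x) (abs_nonneg _)
  have h3 : ∑ x, u x * (θ * c x).re = (θ * ∑ x, (u x : ℂ) * c x).re := by
    rw [mul_sum, Complex.re_sum]
    apply sum_congr rfl
    intro x _
    rw [show θ * ((u x : ℂ) * c x) = (u x : ℂ) * (θ * c x) by ring, Complex.re_ofReal_mul]
  have h4 : (θ * ∑ x, (u x : ℂ) * c x).re ≤ T := by
    refine (Complex.re_le_norm _).trans ?_
    rw [norm_mul, hθ, one_mul]
    exact hT u hu1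
  rw [h3] at h2
  exact h2.trans (mul_le_mul_of_nonneg_left h4 hB)

/-- convexity in both variables -/
private theorem mid2_bil {n : ℕ} (M : Matrix (Fin n) (Fin n) ℂ) (a b : Fin n → ℝ) {B T : ℝ}
    (hB : 0 ≤ B) (ha : ∀ x, |a x| ≤ B) (hb : ∀ x, |b x| ≤ B)
    (hT : ∀ u v : Fin n → ℝ, (∀ x, u x = 1 ∨ u x = -1) → (∀ x, v x = 1 ∨ v x = -1) →
      ‖∑ x, ∑ y, ((u x * v y : ℝ) : ℂ) * M x y‖ ≤ T) :
    ‖∑ x, ∑ y, ((a x * b y : ℝ) : ℂ) * M x y‖ ≤ B * (B * T) := by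
  have h1 : ∑ x, ∑ y, ((a x * b y : ℝ) : ℂ) * M x y
      = ∑ x, (a x : ℂ) * ∑ y, (b y : ℂ) * M x y := by
    apply sum_congr rfl
    intro x _
    rw [mul_sum]
    apply sum_congr rfl
    intro y _
    push_cast
    ring
  rw [h1]
  apply mid2_conv _ _ hB ha
  intro u hu
  have h2 : ∑ x, (u x : ℂ) * ∑ y, (b y : ℂ) * M x y
      = ∑ y, (b y : ℂ) * ∑ x, (u x : ℂ) * M x y := by
    simp_rw [mul_sum]
    rw [sum_comm]
    apply sum_congr rfl
    intro y _
    apply sum_congr rfl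
    intro x _
    ring
  rw [h2]
  apply mid2_conv _ _ hB hb
  intro v hv
  have h3 : ∑ y, (v y : ℂ) * ∑ x, (u x : ℂ) * M x y
      = ∑ x, ∑ y, ((u x * v y : ℝ) : ℂ) * M x y := by
    simp_rw [mul_sum]
    rw [sum_comm]
    apply sum_congr rfl
    intro y _
    apply sum_congr rfl
    intro x _
    push_cast
    ring
  rw [h3]
  exact hT u v hu hv

private theorem mid2_quad {n : ℕ} (M : Matrix (Fin n) (Fin n) ℂ) (v : Fin n → ℂ) {B T : ℝ}
    (hB : 0 ≤ B) (hv : ∀ x, ‖v x‖ ≤ B)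
    (hT : ∀ u v : Fin n → ℝ, (∀ x, u x = 1 ∨ u x = -1) → (∀ x, v x = 1 ∨ v x = -1) →
      ‖∑ x, ∑ y, ((u x * v y : ℝ) : ℂ) * M x y‖ ≤ T) :
    ‖∑ x, ∑ y, (starRingEnd ℂ) (v x) * M x y * v y‖ ≤ 4 * (B * (B * T)) := by
  have hre : ∀ x, |(v x).re| ≤ B := fun x => (Complex.abs_re_le_norm _).trans (hv x)
  have him : ∀ x, |(v x).im| ≤ B := fun x => (Complex.abs_im_le_norm _).trans (hv x)
  have h1 := mid2_bil M (fun x => (v x).re) (fun x => (v x).re) hB hre hre hT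
  have h2 := mid2_bil M (fun x => (v x).im) (fun x => (v x).im) hB him him hT
  have h3 := mid2_bil M (fun x => (v x).re) (fun x => (v x).im) hB hre him hT
  have h4 := mid2_bil M (fun x => (v x).im) (fun x => (v x).re) hB him hre hT
  have h5 : ∑ x, ∑ y, (starRingEnd ℂ) (v x) * M x y * v y
      = (∑ x, ∑ y, (((v x).re * (v y).re : ℝ) : ℂ) * M x y)
        + (∑ x, ∑ y, (((v x).im * (v y).im : ℝ) : ℂ) * M x y)
        + Complex.I * (∑ x, ∑ y, (((v x).re * (v y).im : ℝ) : ℂ) * M x y)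
        - Complex.I * (∑ x, ∑ y, (((v x).im * (v y).re : ℝ) : ℂ) * M x y) := by
    simp_rw [mul_sum]
    rw [← sum_add_distrib, ← sum_add_distrib, ← sum_sub_distrib]
    apply sum_congr rfl
    intro x _
    rw [← sum_add_distrib, ← sum_add_distrib, ← sum_sub_distrib]
    apply sum_congr rfl
    intro y _
    have e1 : (starRingEnd ℂ) (v x) = ((v x).re : ℂ) - Complex.I * ((v x).im : ℂ) := by
      apply Complex.ext <;> simp
    have e2 : v y = ((v y).re : ℂ) + Complex.I * ((v y).im : ℂ) := by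
      apply Complex.ext <;> simp
    rw [e1]
    conv_lhs => rw [e2]
    push_cast
    have hI : Complex.I * Complex.I = -1 := Complex.I_mul_I
    linear_combination (-((v x).im : ℂ) * M x y * ((v y).im : ℂ)) * hI
  rw [h5]
  have h6 : ∀ p q r s : ℂ, ‖p + q + Complex.I * r - Complex.I * s‖ ≤ ‖p‖ + ‖q‖ + ‖r‖ + ‖s‖ := by
    intro p q r s
    calc ‖p + q + Complex.I * r - Complex.I * s‖
        ≤ ‖p + q + Complex.I * r‖ + ‖Complex.I * s‖ := norm_sub_le _ _
      _ ≤ (‖p + q‖ + ‖Complex.I * r‖) + ‖Complex.I * s‖ := by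
          gcongr
          exact norm_add_le _ _
      _ ≤ ((‖p‖ + ‖q‖) + ‖Complex.I * r‖) + ‖Complex.I * s‖ := by
          gcongr
          exact norm_add_le _ _
      _ = ‖p‖ + ‖q‖ + ‖r‖ + ‖s‖ := by
          rw [norm_mul, norm_mul, Complex.norm_I, one_mul, one_mul]
  refine (h6 _ _ _ _).trans ?_
  linarith

private theorem mid2_frob {n : ℕ} (N : Matrix (Fin n) (Fin n) ℂ) (v : Fin n → ℂ)
    (hv : ∑ x, ‖v x‖ ^ 2 = 1) {c : ℝ} (hc : 0 ≤ c) (hN : ∑ x, ∑ y, ‖N x y‖ ^ 2 ≤ c ^ 2) :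
    ‖∑ x, ∑ y, (starRingEnd ℂ) (v x) * N x y * v y‖ ≤ c := by
  have h1 : ‖∑ x, ∑ y, (starRingEnd ℂ) (v x) * N x y * v y‖
      ≤ ∑ p : Fin n × Fin n, ‖N p.1 p.2‖ * (‖v p.1‖ * ‖v p.2‖) := by
    rw [Fintype.sum_prod_type]
    refine (norm_sum_le _ _).trans (sum_le_sum fun x _ => ?_)
    refine (norm_sum_le _ _).trans (sum_le_sum fun y _ => le_of_eq ?_)
    rw [norm_mul, norm_mul, RCLike.norm_conj]
    ring
  have h2 := sum_mul_sq_le_sq_mul_sq (univ : Finset (Fin n × Fin n)) (fun p => ‖N p.1 p.2‖)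
    (fun p => ‖v p.1‖ * ‖v p.2‖)
  have h3 : ∑ p : Fin n × Fin n, (‖v p.1‖ * ‖v p.2‖) ^ 2 = 1 := by
    rw [Fintype.sum_prod_type]
    simp_rw [mul_pow]
    simp_rw [← mul_sum]
    rw [← sum_mul, hv, one_mul]
  have h4 : ∑ p : Fin n × Fin n, ‖N p.1 p.2‖ ^ 2 ≤ c ^ 2 := by
    rw [Fintype.sum_prod_type]
    exact hN
  rw [h3, mul_one] at h2
  have h5 := h2.trans h4
  have h6 : ∑ p : Fin n × Fin n, ‖N p.1 p.2‖ * (‖v p.1‖ * ‖v p.2‖) ≤ c :=
    le_of_sq_le_sq h5 hc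
  exact h1.trans h6

/-- one eigenvalue -/
private theorem mid2_eig {n : ℕ} (hn : 1 ≤ n) (A P : Matrix (Fin n) (Fin n) ℂ)
    (hA1 : ∀ x y, ‖A x y‖ = 1 / n) {κ : ℝ} (hκ : 0 < κ)
    (hP : ∑ x, ∑ y, ‖(A * A - P) x y‖ ^ 2 ≤ (κ ^ 2) ^ 2)
    (hs : ∀ u v : Fin n → ℝ, (∀ x, u x = 1 ∨ u x = -1) → (∀ x, v x = 1 ∨ v x = -1) →
      ‖∑ x, ∑ y, ((u x * v y : ℝ) : ℂ) * (A - P) x y‖ ≤ 2 * n * κ ^ 4)
    (l : ℝ) (v : Fin n → ℂ) (hv : ∑ x, ‖v x‖ ^ 2 = 1) (hev : ∀ x, ∑ y, A x y * v y = l * v x)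
    (hl : κ ≤ |l|) : |1 - l| ≤ 9 * κ := by
  have hnpos : (0 : ℝ) < n := by exact_mod_cast (by omega : 0 < n)
  have hvv : ∑ x, (starRingEnd ℂ) (v x) * v x = 1 := by
    have : ∀ x, (starRingEnd ℂ) (v x) * v x = ((‖v x‖ ^ 2 : ℝ) : ℂ) := by
      intro x
      rw [mul_comm, Complex.mul_conj, Complex.normSq_eq_norm_sq]
    rw [sum_congr rfl (fun x _ => this x), ← Complex.ofReal_sum, hv, Complex.ofReal_one]
  -- entries are small
  have hsum : ∑ y, ‖v y‖ ≤ Real.sqrt n := by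
    have h2 := sum_mul_sq_le_sq_mul_sq (univ : Finset (Fin n)) (fun _ => (1 : ℝ)) (fun y => ‖v y‖)
    simp only [one_mul, one_pow, sum_const, card_univ, Fintype.card_fin, nsmul_eq_mul, mul_one,
      hv] at h2
    exact Real.le_sqrt_of_sq_le h2
  have hent : ∀ x, ‖v x‖ ≤ 1 / (κ * Real.sqrt n) := by
    intro x
    have h1 : |l| * ‖v x‖ ≤ (1 / n) * Real.sqrt n := by
      have h2 : ‖(l : ℂ) * v x‖ = |l| * ‖v x‖ := by
        rw [norm_mul, Complex.norm_real, Real.norm_eq_abs]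
      rw [← h2, ← hev x]
      refine (norm_sum_le _ _).trans ?_
      have h3 : ∑ y, ‖A x y * v y‖ = (1 / n) * ∑ y, ‖v y‖ := by
        rw [mul_sum]
        apply sum_congr rfl
        intro y _
        rw [norm_mul, hA1]
      rw [h3]
      exact mul_le_mul_of_nonneg_left hsum (by positivity)
    have h4 : κ * ‖v x‖ ≤ |l| * ‖v x‖ := mul_le_mul_of_nonneg_right hl (norm_nonneg _)
    have h5 : (1 / (n : ℝ)) * Real.sqrt n = 1 / Real.sqrt n := by
      have : (n : ℝ) = Real.sqrt n * Real.sqrt n := (Real.mul_self_sqrt hnpos.le).symm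
      have hsq : 0 < Real.sqrt n := Real.sqrt_pos.mpr hnpos
      field_simp
      rw [sq, ← this]
    rw [h5] at h1
    have h6 : κ * ‖v x‖ ≤ 1 / Real.sqrt n := h4.trans h1
    have hsq : 0 < Real.sqrt n := Real.sqrt_pos.mpr hnpos
    rw [le_div_iff₀ (by positivity)] at h6 ⊢
    linarith
  have hsq : 0 < Real.sqrt n := Real.sqrt_pos.mpr hnpos
  have h1 := mid2_quad (A - P) v (by positivity) hent hs
  have h2 : 4 * (1 / (κ * Real.sqrt n) * (1 / (κ * Real.sqrt n) * (2 * n * κ ^ 4)))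
      = 8 * κ ^ 2 := by
    have hns : (n : ℝ) = Real.sqrt n ^ 2 := (Real.sq_sqrt hnpos.le).symm
    rw [hns, Real.sqrt_sq hsq.le]
    field_simp
    ring
  rw [h2] at h1
  have h3 := mid2_frob (A * A - P) v hv (by positivity) hP
  -- quadratic forms of `A` and `A²`
  have hq1 : ∑ x, ∑ y, (starRingEnd ℂ) (v x) * A x y * v y = l := by
    have : ∀ x, ∑ y, (starRingEnd ℂ) (v x) * A x y * v y
        = l * ((starRingEnd ℂ) (v x) * v x) := by
      intro x
      have e : ∑ y, (starRingEnd ℂ) (v x) * A x y * v y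
          = (starRingEnd ℂ) (v x) * ∑ y, A x y * v y := by
        rw [mul_sum]
        exact sum_congr rfl (fun y _ => by ring)
      rw [e, hev x]
      ring
    rw [sum_congr rfl (fun x _ => this x), ← mul_sum, hvv, mul_one]
  have hev2 : ∀ x, ∑ y, (A * A) x y * v y = (l : ℂ) ^ 2 * v x := by
    intro x
    have e : ∑ y, (A * A) x y * v y = ∑ z, A x z * ∑ y, A z y * v y := by
      simp_rw [Matrix.mul_apply, sum_mul, mul_sum]
      rw [sum_comm]
      exact sum_congr rfl (fun y _ => sum_congr rfl (fun z _ => by ring))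
    rw [e]
    simp_rw [hev]
    have e2 : ∑ z, A x z * ((l : ℂ) * v z) = l * ∑ z, A x z * v z := by
      rw [mul_sum]
      exact sum_congr rfl (fun y _ => by ring)
    rw [e2, hev x]
    ring
  have hq2 : ∑ x, ∑ y, (starRingEnd ℂ) (v x) * (A * A) x y * v y = (l : ℂ) ^ 2 := by
    have : ∀ x, ∑ y, (starRingEnd ℂ) (v x) * (A * A) x y * v y
        = (l : ℂ) ^ 2 * ((starRingEnd ℂ) (v x) * v x) := by
      intro x
      have e : ∑ y, (starRingEnd ℂ) (v x) * (A * A) x y * v y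
          = (starRingEnd ℂ) (v x) * ∑ y, (A * A) x y * v y := by
        rw [mul_sum]
        exact sum_congr rfl (fun y _ => by ring)
      rw [e, hev2 x]
      ring
    rw [sum_congr rfl (fun x _ => this x), ← mul_sum, hvv, mul_one]
  have hd : ((l - l ^ 2 : ℝ) : ℂ) = (∑ x, ∑ y, (starRingEnd ℂ) (v x) * (A - P) x y * v y)
      - ∑ x, ∑ y, (starRingEnd ℂ) (v x) * (A * A - P) x y * v y := by
    push_cast
    rw [← hq2]
    nth_rewrite 1 [← hq1]
    rw [← sum_sub_distrib, ← sum_sub_distrib]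
    apply sum_congr rfl
    intro x _
    rw [← sum_sub_distrib, ← sum_sub_distrib]
    apply sum_congr rfl
    intro y _
    rw [Matrix.sub_apply, Matrix.sub_apply]
    ring
  have h4 : |l - l ^ 2| ≤ 9 * κ ^ 2 := by
    have e : ‖((l - l ^ 2 : ℝ) : ℂ)‖ = |l - l ^ 2| := by
      rw [Complex.norm_real, Real.norm_eq_abs]
    rw [← e, hd]
    refine (norm_sub_le _ _).trans ?_
    linarith
  have h5 : |l - l ^ 2| = |l| * |1 - l| := by
    rw [← abs_mul]
    congr 1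
    ring
  rw [h5] at h4
  have h6 : κ * |1 - l| ≤ κ * (9 * κ) := by
    calc κ * |1 - l| ≤ |l| * |1 - l| := mul_le_mul_of_nonneg_right hl (abs_nonneg _)
      _ ≤ 9 * κ ^ 2 := h4
      _ = κ * (9 * κ) := by ring
  exact le_of_mul_le_mul_left h6 hκ

theorem trichotomy {n : ℕ} (hn : 1 ≤ n) (A P : Matrix (Fin n) (Fin n) ℂ) (hA : A.IsHermitian)
    (hA1 : ∀ x y, ‖A x y‖ = 1 / n) {κ : ℝ} (hκ : 0 < κ) (hκ1 : κ ≤ 1 / 100)
    (hP : ∑ x, ∑ y, ‖(A * A - P) x y‖ ^ 2 ≤ (κ ^ 2) ^ 2)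
    (hs : ∀ u v : Fin n → ℝ, (∀ x, u x = 1 ∨ u x = -1) → (∀ x, v x = 1 ∨ v x = -1) →
      ‖∑ x, ∑ y, ((u x * v y : ℝ) : ℂ) * (A - P) x y‖ ≤ 2 * n * κ ^ 4) :
    |(A * A * A).trace.re| ≤ κ ∨ 1 - 64 * κ ≤ (A * A * A).trace.re := by
  have hnpos : (0 : ℝ) < n := by exact_mod_cast (by omega : 0 < n)
  obtain ⟨U, hU⟩ : ∃ U : Matrix (Fin n) (Fin n) ℂ, U = hA.eigenvectorUnitary := ⟨_, rfl⟩
  obtain ⟨l, hl⟩ : ∃ l : Fin n → ℝ, l = hA.eigenvalues := ⟨_, rfl⟩
  obtain ⟨D, hD⟩ : ∃ D : Matrix (Fin n) (Fin n) ℂ, D = Matrix.diagonal (fun i => (l i : ℂ)) :=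
    ⟨_, rfl⟩
  have hUU : star U * U = 1 := by
    rw [hU]
    exact Unitary.coe_star_mul_self _
  have hspec : A = U * D * star U := by
    have h := hA.spectral_theorem
    rw [Unitary.conjStarAlgAut_apply] at h
    rw [hU, hD, hl]
    exact h
  have hAU : A * U = U * D := by
    nth_rewrite 1 [hspec]
    rw [Matrix.mul_assoc, hUU, Matrix.mul_one]
  have hev : ∀ i x, ∑ y, A x y * U y i = (l i : ℂ) * U x i := by
    intro i x
    have h1 := congrFun (congrFun hAU x) i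
    rw [Matrix.mul_apply, hD, Matrix.mul_diagonal] at h1
    rw [h1, mul_comm]
  have hnorm : ∀ i, ∑ x, ‖U x i‖ ^ 2 = 1 := by
    intro i
    have h1 := congrFun (congrFun hUU i) i
    rw [Matrix.mul_apply, Matrix.one_apply_eq] at h1
    have h2 : ∀ x, star U i x * U x i = ((‖U x i‖ ^ 2 : ℝ) : ℂ) := by
      intro x
      rw [Matrix.star_apply, mul_comm]
      have := Complex.mul_conj (U x i)
      rw [Complex.normSq_eq_norm_sq] at this
      exact this
    rw [sum_congr rfl (fun x _ => h2 x), ← Complex.ofReal_sum] at h1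
    exact_mod_cast h1
  have heig : ∀ i, κ ≤ |l i| → |1 - l i| ≤ 9 * κ := fun i hi =>
    mid2_eig hn A P hA1 hκ hP hs (l i) (fun x => U x i) (hnorm i) (hev i) hi
  have htr2 : (A * A).trace = ∑ i, ((l i : ℂ)) ^ 2 := by
    have h1 : A * A = U * (D * D) * star U := by
      nth_rewrite 1 [hspec]
      nth_rewrite 1 [hspec]
      have : U * D * star U * (U * D * star U) = U * D * (star U * U) * (D * star U) := by
        simp only [Matrix.mul_assoc]
      rw [this, hUU, Matrix.mul_one]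
      simp only [Matrix.mul_assoc]
    rw [h1, Matrix.trace_mul_comm, ← Matrix.mul_assoc, hUU, Matrix.one_mul, hD,
      Matrix.diagonal_mul_diagonal, Matrix.trace_diagonal]
    exact sum_congr rfl (fun i _ => by ring)
  have htr3 : (A * A * A).trace = ∑ i, ((l i : ℂ)) ^ 3 := by
    have h1 : A * A * A = U * (D * D * D) * star U := by
      have h0 : A * A * A = (U * D * star U) * (U * D * star U) * (U * D * star U) := by
        rw [← hspec]
      have : (U * D * star U) * (U * D * star U) * (U * D * star U)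
          = U * D * (star U * U) * D * (star U * U) * (D * star U) := by
        simp only [Matrix.mul_assoc]
      rw [h0, this, hUU, Matrix.mul_one, Matrix.mul_one]
      simp only [Matrix.mul_assoc]
    rw [h1, Matrix.trace_mul_comm, ← Matrix.mul_assoc, hUU, Matrix.one_mul, hD,
      Matrix.diagonal_mul_diagonal, Matrix.diagonal_mul_diagonal, Matrix.trace_diagonal]
    exact sum_congr rfl (fun i _ => by ring)
  have hre3 : (A * A * A).trace.re = ∑ i, l i ^ 3 := by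
    rw [htr3, Complex.re_sum]
    apply sum_congr rfl
    intro i _
    rw [← Complex.ofReal_pow, Complex.ofReal_re]
  have hsum2 : ∑ i, l i ^ 2 = 1 := by
    have h1 : (A * A).trace = ((1 : ℝ) : ℂ) := by
      have h2 : ∀ x y, A x y * A y x = (((1 / n) ^ 2 : ℝ) : ℂ) := by
        intro x y
        have h3 : A y x = (starRingEnd ℂ) (A x y) := (hA.apply y x).symm
        rw [h3, Complex.mul_conj, Complex.normSq_eq_norm_sq, hA1]
      have h4 : (A * A).trace = ∑ x, ∑ y, A x y * A y x := rfl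
      rw [h4, sum_congr rfl (fun x _ => sum_congr rfl (fun y _ => h2 x y))]
      simp only [sum_const, card_univ, Fintype.card_fin, nsmul_eq_mul]
      have h5 : (n : ℂ) ≠ 0 := by
        exact_mod_cast (by omega : n ≠ 0)
      push_cast
      field_simp
    rw [htr2] at h1
    have h6 : ((∑ i, l i ^ 2 : ℝ) : ℂ) = ((1 : ℝ) : ℂ) := by
      rw [← h1]
      push_cast
      rfl
    exact_mod_cast h6
  rw [hre3]
  by_cases hbig : ∃ i, κ ≤ |l i|
  · right
    obtain ⟨j, hj⟩ := hbig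
    have h1 := heig j hj
    have h2 : 1 - 9 * κ ≤ l j := by
      have := (abs_le.mp h1).2
      linarith
    have h3 : l j ^ 2 + ∑ i ∈ univ.erase j, l i ^ 2 = 1 := by
      rw [← hsum2]
      exact add_sum_erase univ (fun i => l i ^ 2) (mem_univ j)
    have h4 : ∀ i, |l i| ≤ 1 := by
      intro i
      have h5 : l i ^ 2 ≤ 1 := by
        rw [← hsum2]
        exact single_le_sum (f := fun i => l i ^ 2) (fun i _ => sq_nonneg _) (mem_univ i)
      exact (sq_le_one_iff_abs_le_one _).mp h5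
    have h6 : ∑ i, l i ^ 3 = l j ^ 3 + ∑ i ∈ univ.erase j, l i ^ 3 :=
      (add_sum_erase univ (fun i => l i ^ 3) (mem_univ j)).symm
    have h7 : -∑ i ∈ univ.erase j, l i ^ 2 ≤ ∑ i ∈ univ.erase j, l i ^ 3 := by
      rw [← sum_neg_distrib]
      apply sum_le_sum
      intro i _
      have h8 := (abs_le.mp (h4 i)).1
      nlinarith [sq_nonneg (l i)]
    have h9 : (1 - 9 * κ) ^ 2 ≤ l j ^ 2 := by
      apply pow_le_pow_left₀ (by linarith) h2
    have h10 : (1 - 9 * κ) ^ 3 ≤ l j ^ 3 := by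
      apply pow_le_pow_left₀ (by linarith) h2
    rw [h6]
    nlinarith [sq_nonneg κ, mul_pos hκ hκ, pow_pos hκ 3]
  · left
    push Not at hbig
    have h1 : |∑ i, l i ^ 3| ≤ ∑ i, κ * l i ^ 2 := by
      refine (abs_sum_le_sum_abs _ _).trans (sum_le_sum fun i _ => ?_)
      have h2 : |l i ^ 3| = |l i| * l i ^ 2 := by
        rw [abs_pow, ← sq_abs (l i)]
        ring
      rw [h2]
      exact mul_le_mul_of_nonneg_right (hbig i).le (sq_nonneg _)
    rw [← mul_sum, hsum2, mul_one] at h1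
    exact h1

end

end Pool.Agent.DH10
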