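import Mathlib

/-!
# DH10.Chern : exponential inequalities for finite product weights (pure, finite sums only)

All statements are about finite sums `∑_{f : ι → α} ∏_i π_i(f_i) ...` with `π_i ≥ 0`, `∑_a π_i a = 1`.
* key identity `∑_f ∏_i π_i(f_i) F_i(f_i) = ∏_i ∑_a π_i a F_i a` (`Finset.prod_univ_sum`, `Fintype.piFinset_univ`).
* `hoeff`: exponential Markov inequality with parameter `lam = s / V`, `V = ∑ c_i²`; for centred `g` with `|g| ≤ c`:
  `∑_a π a exp (lam g a) ≤ cosh (lam c) ≤ exp (lam² c²/2)` (convexity: `exp(lam x) ≤ cosh(lam c) + (x/c) sinh(lam c)` for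
  `|x| ≤ c`; `Real.cosh_le_exp_half_sq`).  If `V = 0` all `g = 0` and there is no `f` with `∑ g ≥ s > 0`.
* `chern_lower`: `∑_a π_i a exp(-lam 1_{A_i}(a)) = 1 - p_i (1 - e^{-lam}) ≤ exp(-p_i (1-e^{-lam}))`; take `e^{-lam} = s/μ`.
* `sample_hoeff`, `sample_chern`: number of samples `z : Fin w → V` for which the empirical frequency of `A` is off.
  `sample_hoeff` from `hoeff` with `g = 1_A - r`, `|g| ≤ 1`.  `sample_chern`: with `m = max r ρ`,
  `E e^{lam X} ≤ exp (w r (e^lam - 1))`, `e^lam - 1 - lam ≤ lam²` for `0 ≤ lam ≤ 1`, `lam = η/2` gives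
  `P(X ≥ w r + η w m) ≤ exp(-w m η²/4)`; lower tail with `e^{-lam} - 1 + lam ≤ lam²/2`, `lam = η`:
  `exp(-w m η²/2)`.
-/

set_option autoImplicit false

open Finset

namespace Pool.Agent.DH10

noncomputable section

variable {ι α : Type*} [Fintype ι] [DecidableEq ι] [Fintype α] [DecidableEq α]

/-- the exponential Markov inequality for finite product weights -/
private theorem exp_markov (π : ι → α → ℝ) (hπ : ∀ i a, 0 ≤ π i a)
    (F : ι → α → ℝ) {lam s : ℝ} (hlam : 0 ≤ lam) (S : Finset (ι → α))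
    (hS : ∀ f ∈ S, s ≤ ∑ i, F i (f i)) :
    ∑ f ∈ S, ∏ i, π i (f i)
      ≤ Real.exp (-(lam * s)) * ∏ i, ∑ a, π i a * Real.exp (lam * F i a) := by
  have hprod : ∀ f : ι → α, 0 ≤ ∏ i, π i (f i) := fun f => prod_nonneg fun i _ => hπ i _
  have h1 : ∑ f ∈ S, ∏ i, π i (f i)
      ≤ ∑ f ∈ S, Real.exp (-(lam * s)) * ∏ i, (π i (f i) * Real.exp (lam * F i (f i))) := by
    refine sum_le_sum fun f hf => ?_
    have e1 : ∏ i, (π i (f i) * Real.exp (lam * F i (f i)))
        = (∏ i, π i (f i)) * Real.exp (lam * ∑ i, F i (f i)) := by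
      rw [prod_mul_distrib, ← Real.exp_sum, mul_sum]
    rw [e1]
    have e2 : Real.exp (-(lam * s)) * ((∏ i, π i (f i)) * Real.exp (lam * ∑ i, F i (f i)))
        = (∏ i, π i (f i)) * Real.exp (lam * (∑ i, F i (f i) - s)) := by
      have : lam * (∑ i, F i (f i) - s) = -(lam * s) + lam * ∑ i, F i (f i) := by ring
      rw [this, Real.exp_add]; ring
    rw [e2]
    have e3 : 1 ≤ Real.exp (lam * (∑ i, F i (f i) - s)) :=
      Real.one_le_exp (mul_nonneg hlam (by linarith [hS f hf]))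
    calc ∏ i, π i (f i) = (∏ i, π i (f i)) * 1 := by ring
      _ ≤ _ := mul_le_mul_of_nonneg_left e3 (hprod f)
  have h2 : ∑ f ∈ S, Real.exp (-(lam * s)) * ∏ i, (π i (f i) * Real.exp (lam * F i (f i)))
      ≤ ∑ f : ι → α, Real.exp (-(lam * s)) * ∏ i, (π i (f i) * Real.exp (lam * F i (f i))) := by
    refine sum_le_sum_of_subset_of_nonneg (subset_univ _) fun f _ _ => ?_
    exact mul_nonneg (Real.exp_pos _).le
      (prod_nonneg fun i _ => mul_nonneg (hπ i _) (Real.exp_pos _).le)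
  have h3 : ∑ f : ι → α, Real.exp (-(lam * s)) * ∏ i, (π i (f i) * Real.exp (lam * F i (f i)))
      = Real.exp (-(lam * s)) * ∏ i, ∑ a, π i a * Real.exp (lam * F i a) := by
    rw [← mul_sum, prod_univ_sum, Fintype.piFinset_univ]
  linarith

/-- the convexity bound `exp (lam x) ≤ cosh (lam c) + (x / c) sinh (lam c)` for `|x| ≤ c` -/
private theorem exp_le_chord {lam x c : ℝ} (hc : 0 < c) (hx : |x| ≤ c) :
    Real.exp (lam * x) ≤ Real.cosh (lam * c) + x / c * Real.sinh (lam * c) := by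
  obtain ⟨h1, h2⟩ := abs_le.1 hx
  have ha : 0 ≤ (c + x) / (2 * c) := div_nonneg (by linarith) (by linarith)
  have hb : 0 ≤ (c - x) / (2 * c) := div_nonneg (by linarith) (by linarith)
  have hab : (c + x) / (2 * c) + (c - x) / (2 * c) = 1 := by field_simp; ring
  have hconv := convexOn_exp.2 (Set.mem_univ (lam * c)) (Set.mem_univ (-(lam * c))) ha hb hab
  simp only [smul_eq_mul] at hconv
  have e1 : (c + x) / (2 * c) * (lam * c) + (c - x) / (2 * c) * (-(lam * c)) = lam * x := by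
    field_simp; ring
  rw [e1] at hconv
  refine hconv.trans (le_of_eq ?_)
  rw [Real.cosh_eq, Real.sinh_eq]
  field_simp
  ring

/-- Hoeffding's lemma for one factor -/
private theorem hoeff_one (π g : α → ℝ) (hπ : ∀ a, 0 ≤ π a) (hπ1 : ∑ a, π a = 1)
    {c : ℝ} (hg : ∀ a, |g a| ≤ c) (hg0 : ∑ a, π a * g a = 0) (lam : ℝ) :
    ∑ a, π a * Real.exp (lam * g a) ≤ Real.exp (lam ^ 2 * c ^ 2 / 2) := by
  rcases isEmpty_or_nonempty α with hα | ⟨⟨a0⟩⟩
  · simp at hπ1
  have hc0 : 0 ≤ c := (abs_nonneg _).trans (hg a0)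
  rcases hc0.eq_or_lt with hc | hc
  · have hg' : ∀ a, g a = 0 := fun a => abs_eq_zero.1 (le_antisymm (hc ▸ hg a) (abs_nonneg _))
    simp [hg', hπ1, ← hc]
  · calc ∑ a, π a * Real.exp (lam * g a)
        ≤ ∑ a, π a * (Real.cosh (lam * c) + g a / c * Real.sinh (lam * c)) :=
          sum_le_sum fun a _ => mul_le_mul_of_nonneg_left (exp_le_chord hc (hg a)) (hπ a)
      _ = (∑ a, π a) * Real.cosh (lam * c)
            + (∑ a, π a * g a) * (Real.sinh (lam * c) / c) := by
          rw [sum_mul, sum_mul, ← sum_add_distrib]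
          refine sum_congr rfl fun a _ => ?_
          ring
      _ = Real.cosh (lam * c) := by rw [hπ1, hg0]; ring
      _ ≤ Real.exp ((lam * c) ^ 2 / 2) := Real.cosh_le_exp_half_sq _
      _ = Real.exp (lam ^ 2 * c ^ 2 / 2) := by congr 1; ring

/-- one factor of an indicator: `E exp (x 1_A) ≤ exp (p (e^x - 1))` -/
private theorem ind_one (π : α → ℝ) (hπ1 : ∑ a, π a = 1) (A : Finset α) (x : ℝ) :
    ∑ a, π a * Real.exp (x * (if a ∈ A then 1 else 0))
      ≤ Real.exp ((∑ a ∈ A, π a) * (Real.exp x - 1)) := by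
  have h1 : ∑ a, π a * Real.exp (x * (if a ∈ A then 1 else 0))
      = 1 + (∑ a ∈ A, π a) * (Real.exp x - 1) := by
    have : ∀ a, π a * Real.exp (x * (if a ∈ A then 1 else 0))
        = π a + (if a ∈ A then π a * (Real.exp x - 1) else 0) := by
      intro a
      by_cases ha : a ∈ A
      · simp [ha]; ring
      · simp [ha]
    rw [sum_congr rfl fun a _ => this a, sum_add_distrib, hπ1, sum_ite_mem, univ_inter, sum_mul]
  rw [h1]
  linarith [Real.add_one_le_exp ((∑ a ∈ A, π a) * (Real.exp x - 1))]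

private theorem card_eq_sum_ind (A : ι → Finset α) (f : ι → α) :
    ((univ.filter fun i => f i ∈ A i).card : ℝ) = ∑ i, (if f i ∈ A i then (1 : ℝ) else 0) := by
  simp

open Classical in
theorem hoeff (π : ι → α → ℝ) (hπ : ∀ i a, 0 ≤ π i a) (hπ1 : ∀ i, ∑ a, π i a = 1)
    (g : ι → α → ℝ) (c : ι → ℝ) (hg : ∀ i a, |g i a| ≤ c i) (hg0 : ∀ i, ∑ a, π i a * g i a = 0)
    {s V : ℝ} (hs : 0 < s) (hV : 0 < V) (hcV : ∑ i, c i ^ 2 ≤ V) :
    ∑ f ∈ univ.filter (fun f : ι → α => s ≤ ∑ i, g i (f i)), ∏ i, π i (f i)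
      ≤ Real.exp (-(s ^ 2) / (2 * V)) := by
  have hlam : 0 ≤ s / V := (div_pos hs hV).le
  refine (exp_markov π hπ g hlam _ (s := s) fun f hf => (mem_filter.1 hf).2).trans ?_
  have h1 : ∏ i, ∑ a, π i a * Real.exp (s / V * g i a)
      ≤ ∏ i, Real.exp ((s / V) ^ 2 * c i ^ 2 / 2) := by
    refine prod_le_prod (fun i _ => sum_nonneg fun a _ => mul_nonneg (hπ i a) (Real.exp_pos _).le)
      fun i _ => ?_
    exact hoeff_one (π i) (g i) (hπ i) (hπ1 i) (hg i) (hg0 i) _
  have h2 : ∏ i, Real.exp ((s / V) ^ 2 * c i ^ 2 / 2)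
      = Real.exp ((s / V) ^ 2 / 2 * ∑ i, c i ^ 2) := by
    rw [← Real.exp_sum, mul_sum]
    congr 1
    refine sum_congr rfl fun i _ => ?_
    ring
  rw [h2] at h1
  refine (mul_le_mul_of_nonneg_left h1 (Real.exp_pos _).le).trans ?_
  rw [← Real.exp_add]
  refine Real.exp_le_exp.2 ?_
  have h3 : (s / V) ^ 2 / 2 * ∑ i, c i ^ 2 ≤ (s / V) ^ 2 / 2 * V :=
    mul_le_mul_of_nonneg_left hcV (by positivity)
  have h4 : -(s / V * s) + (s / V) ^ 2 / 2 * V = -(s ^ 2) / (2 * V) := by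
    field_simp; ring
  linarith

open Classical in
theorem chern_lower (π : ι → α → ℝ) (hπ : ∀ i a, 0 ≤ π i a) (hπ1 : ∀ i, ∑ a, π i a = 1)
    (A : ι → Finset α) {s μ : ℝ} (hs : 0 < s) (hμ : μ = ∑ i, ∑ a ∈ A i, π i a) (hsμ : s ≤ μ) :
    ∑ f ∈ univ.filter (fun f : ι → α => ((univ.filter fun i => f i ∈ A i).card : ℝ) ≤ s), ∏ i, π i (f i)
      ≤ Real.exp (-μ + s + s * Real.log (μ / s)) := by
  have hμ0 : 0 < μ := hs.trans_le hsμ
  have hlam : 0 ≤ Real.log (μ / s) := Real.log_nonneg ((one_le_div hs).2 hsμ)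
  have hexp : Real.exp (-Real.log (μ / s)) = s / μ := by
    rw [Real.exp_neg, Real.exp_log (div_pos hμ0 hs), inv_div]
  refine (exp_markov π hπ (fun i a => -(if a ∈ A i then (1 : ℝ) else 0)) hlam _ (s := -s)
    fun f hf => ?_).trans ?_
  · have h := (mem_filter.1 hf).2
    have e : ∑ i, -(if f i ∈ A i then (1 : ℝ) else 0) = -∑ i, (if f i ∈ A i then (1 : ℝ) else 0) :=
      sum_neg_distrib _
    have e' := card_eq_sum_ind A f
    rw [e, ← e']
    linarith
  · have h1 : ∏ i, ∑ a, π i a * Real.exp (Real.log (μ / s) * -(if a ∈ A i then (1 : ℝ) else 0))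
        ≤ ∏ i, Real.exp ((∑ a ∈ A i, π i a) * (Real.exp (-Real.log (μ / s)) - 1)) := by
      refine prod_le_prod
        (fun i _ => sum_nonneg fun a _ => mul_nonneg (hπ i a) (Real.exp_pos _).le) fun i _ => ?_
      have := ind_one (π i) (hπ1 i) (A i) (-Real.log (μ / s))
      refine le_trans (le_of_eq (sum_congr rfl fun a _ => ?_)) this
      congr 2
      ring
    have h2 : ∏ i, Real.exp ((∑ a ∈ A i, π i a) * (Real.exp (-Real.log (μ / s)) - 1))
        = Real.exp (μ * (s / μ - 1)) := by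
      rw [← Real.exp_sum, ← sum_mul, ← hμ, hexp]
    rw [h2] at h1
    refine (mul_le_mul_of_nonneg_left h1 (Real.exp_pos _).le).trans ?_
    rw [← Real.exp_add]
    refine Real.exp_le_exp.2 (le_of_eq ?_)
    field_simp
    ring

/-- counting with uniform weights -/
private theorem card_eq_weight {V : Type*} [Fintype V] [DecidableEq V] (k : ℕ)
    (hV : 0 < Fintype.card V) (S : Finset (Fin k → V)) :
    (S.card : ℝ) = (∑ _f ∈ S, ∏ _i : Fin k, (Fintype.card V : ℝ)⁻¹) * (Fintype.card V : ℝ) ^ k := by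
  have h : (Fintype.card V : ℝ) ≠ 0 := by exact_mod_cast hV.ne'
  simp only [prod_const, card_univ, Fintype.card_fin, sum_const, nsmul_eq_mul]
  rw [mul_assoc, ← mul_pow, inv_mul_cancel₀ h, one_pow, mul_one]

private theorem sum_unif {V : Type*} [Fintype V] [DecidableEq V] (hV : 0 < Fintype.card V) :
    ∑ _a : V, (Fintype.card V : ℝ)⁻¹ = 1 := by
  have h : (Fintype.card V : ℝ) ≠ 0 := by exact_mod_cast hV.ne'
  simp [h]

private theorem sum_unif_mem {V : Type*} [Fintype V] [DecidableEq V] (A : Finset V) :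
    ∑ _a ∈ A, (Fintype.card V : ℝ)⁻¹ = (A.card : ℝ) / Fintype.card V := by
  simp [div_eq_mul_inv]

open Classical in
/-- a two sided tail is at most the sum of the one sided ones -/
private theorem two_sided {V : Type*} [Fintype V] [DecidableEq V] (A : Finset V) (k : ℕ)
    {u r B : ℝ} (hk : 1 ≤ k) (hV : 0 < Fintype.card V)
    (hB : ∀ σ : ℝ, σ = 1 ∨ σ = -1 → ∀ S : Finset (Fin k → V),
      (∀ f ∈ S, k * u ≤ ∑ i, σ * ((if f i ∈ A then (1 : ℝ) else 0) - r)) →
      ∑ _f ∈ S, ∏ _i : Fin k, (Fintype.card V : ℝ)⁻¹ ≤ B) :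
    ((univ.filter fun z : Fin k → V =>
        u < |((univ.filter fun i => z i ∈ A).card : ℝ) / k - r|).card : ℝ)
      ≤ 2 * B * (Fintype.card V : ℝ) ^ k := by
  have hk0 : (0 : ℝ) < k := by exact_mod_cast hk
  have hsum : ∀ z : Fin k → V, ∀ σ : ℝ, ∑ i, σ * ((if z i ∈ A then (1 : ℝ) else 0) - r)
      = k * (σ * (((univ.filter fun i => z i ∈ A).card : ℝ) / k - r)) := by
    intro z σ
    rw [← mul_sum, sum_sub_distrib, ← card_eq_sum_ind (fun _ => A) z]
    simp only [sum_const, card_univ, Fintype.card_fin, nsmul_eq_mul]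
    field_simp
  set S : ℝ → Finset (Fin k → V) := fun σ => univ.filter fun z : Fin k → V =>
    u < σ * (((univ.filter fun i => z i ∈ A).card : ℝ) / k - r) with hSdef
  have hS : ∀ σ : ℝ, σ = 1 ∨ σ = -1 → ((S σ).card : ℝ) ≤ B * (Fintype.card V : ℝ) ^ k := by
    intro σ hσ
    rw [card_eq_weight k hV]
    refine mul_le_mul_of_nonneg_right (hB σ hσ _ fun f hf => ?_) (by positivity)
    rw [hsum]
    exact mul_le_mul_of_nonneg_left (mem_filter.1 hf).2.le hk0.le
  have hsub : (univ.filter fun z : Fin k → V =>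
        u < |((univ.filter fun i => z i ∈ A).card : ℝ) / k - r|) ⊆ S 1 ∪ S (-1) := by
    intro z hz
    have hz' := (mem_filter.1 hz).2
    rcases lt_abs.1 hz' with h | h
    · exact mem_union_left _ (mem_filter.2 ⟨mem_univ _, by rw [one_mul]; exact h⟩)
    · exact mem_union_right _ (mem_filter.2 ⟨mem_univ _, by rw [neg_one_mul]; exact h⟩)
  have hc : ((univ.filter fun z : Fin k → V =>
        u < |((univ.filter fun i => z i ∈ A).card : ℝ) / k - r|).card : ℝ)
      ≤ (S 1).card + (S (-1)).card := by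
    exact_mod_cast (card_le_card hsub).trans (card_union_le _ _)
  have h1 := hS 1 (Or.inl rfl)
  have h2 := hS (-1) (Or.inr rfl)
  linarith

open Classical in
theorem sample_hoeff {V : Type*} [Fintype V] [DecidableEq V] (A : Finset V) (k : ℕ) {u : ℝ} (hu : 0 < u)
    (hk : 1 ≤ k) (hV : 0 < Fintype.card V) :
    ((univ.filter fun z : Fin k → V =>
        u < |((univ.filter fun i => z i ∈ A).card : ℝ) / k - (A.card : ℝ) / Fintype.card V|).card : ℝ)
      ≤ 2 * Real.exp (-(k * u ^ 2 / 2)) * (Fintype.card V : ℝ) ^ k := by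
  have hk0 : (0 : ℝ) < k := by exact_mod_cast hk
  have hV0 : (0 : ℝ) < Fintype.card V := by exact_mod_cast hV
  have hr0 : 0 ≤ (A.card : ℝ) / Fintype.card V := by positivity
  have hr1 : (A.card : ℝ) / Fintype.card V ≤ 1 := by
    rw [div_le_one hV0]
    exact_mod_cast card_le_univ A
  refine two_sided A k hk hV fun σ hσ S hS => ?_
  have hσ1 : |σ| = 1 := by rcases hσ with h | h <;> simp [h]
  have h := hoeff (ι := Fin k) (α := V) (fun _ _ => (Fintype.card V : ℝ)⁻¹)
    (fun _ _ => by positivity) (fun _ => sum_unif hV)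
    (fun _ a => σ * ((if a ∈ A then (1 : ℝ) else 0) - (A.card : ℝ) / Fintype.card V))
    (fun _ => 1) (fun _ a => ?_) (fun _ => ?_) (s := k * u) (V := k) (by positivity) hk0
    (by simp)
  · refine (sum_le_sum_of_subset_of_nonneg (fun f hf => mem_filter.2 ⟨mem_univ _, hS f hf⟩)
      fun f _ _ => by positivity).trans (h.trans (le_of_eq ?_))
    congr 1
    field_simp
  · rw [abs_mul, hσ1, one_mul, abs_le]
    split_ifs <;> constructor <;> linarith
  · have e : ∀ a : V, (Fintype.card V : ℝ)⁻¹ *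
        (σ * ((if a ∈ A then (1 : ℝ) else 0) - (A.card : ℝ) / Fintype.card V))
        = (Fintype.card V : ℝ)⁻¹ * σ * (if a ∈ A then (1 : ℝ) else 0)
          - σ * ((A.card : ℝ) / Fintype.card V) * (Fintype.card V : ℝ)⁻¹ := fun a => by ring
    rw [sum_congr rfl fun a _ => e a, sum_sub_distrib, ← mul_sum, ← mul_sum, sum_unif hV]
    simp only [sum_ite_mem, univ_inter, sum_const, nsmul_eq_mul, mul_one]
    ring

open Classical in
theorem sample_chern {V : Type*} [Fintype V] [DecidableEq V] (A : Finset V) (k : ℕ) {η ρ : ℝ}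
    (hη : 0 < η) (hη1 : η ≤ 1) (hρ : 0 < ρ) (hk : 1 ≤ k) (hV : 0 < Fintype.card V) :
    ((univ.filter fun z : Fin k → V =>
        η * max ((A.card : ℝ) / Fintype.card V) ρ <
          |((univ.filter fun i => z i ∈ A).card : ℝ) / k - (A.card : ℝ) / Fintype.card V|).card : ℝ)
      ≤ 2 * Real.exp (-(η ^ 2 * k * ρ / 4)) * (Fintype.card V : ℝ) ^ k := by
  have hk0 : (0 : ℝ) < k := by exact_mod_cast hk
  have hV0 : (0 : ℝ) < Fintype.card V := by exact_mod_cast hV
  set r : ℝ := (A.card : ℝ) / Fintype.card V with hr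
  have hr0 : 0 ≤ r := by positivity
  have hmr : r ≤ max r ρ := le_max_left _ _
  have hmρ : ρ ≤ max r ρ := le_max_right _ _
  refine two_sided A k hk hV fun σ hσ S hS => ?_
  have hσ1 : |σ| = 1 := by rcases hσ with h | h <;> simp [h]
  have hσ2 : σ ^ 2 = 1 := by rcases hσ with h | h <;> simp [h]
  have hM := exp_markov (ι := Fin k) (α := V) (fun _ _ => (Fintype.card V : ℝ)⁻¹)
    (fun _ _ => by positivity)
    (fun _ a => σ * ((if a ∈ A then (1 : ℝ) else 0) - r)) (lam := η / 2) (by positivity) S hS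
  have h1 : ∑ a : V, (Fintype.card V : ℝ)⁻¹ *
      Real.exp (η / 2 * (σ * ((if a ∈ A then (1 : ℝ) else 0) - r)))
      ≤ Real.exp (r * (η / 2) ^ 2) := by
    have e : ∀ a : V, (Fintype.card V : ℝ)⁻¹ *
        Real.exp (η / 2 * (σ * ((if a ∈ A then (1 : ℝ) else 0) - r)))
        = ((Fintype.card V : ℝ)⁻¹ * Real.exp (η / 2 * σ * (if a ∈ A then (1 : ℝ) else 0)))
          * Real.exp (-(η / 2 * σ * r)) := by
      intro a
      rw [mul_assoc, ← Real.exp_add]
      congr 2
      ring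
    rw [sum_congr rfl fun a _ => e a, ← sum_mul]
    have h2 := ind_one (fun _ : V => (Fintype.card V : ℝ)⁻¹) (sum_unif hV) A (η / 2 * σ)
    rw [sum_unif_mem, ← hr] at h2
    refine (mul_le_mul_of_nonneg_right h2 (Real.exp_pos _).le).trans ?_
    rw [← Real.exp_add]
    refine Real.exp_le_exp.2 ?_
    have h3 : |η / 2 * σ| ≤ 1 := by
      rw [abs_mul, hσ1, mul_one, abs_of_pos (by positivity)]
      linarith
    have h4 := (abs_le.1 (Real.abs_exp_sub_one_sub_id_le h3)).2
    have h5 : (η / 2 * σ) ^ 2 = (η / 2) ^ 2 := by rw [mul_pow, hσ2, mul_one]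
    rw [h5] at h4
    have h6 := mul_le_mul_of_nonneg_left h4 hr0
    linarith
  have h2 : ∏ _i : Fin k, ∑ a : V, (Fintype.card V : ℝ)⁻¹ *
      Real.exp (η / 2 * (σ * ((if a ∈ A then (1 : ℝ) else 0) - r)))
      ≤ Real.exp (k * (r * (η / 2) ^ 2)) := by
    rw [prod_const, card_univ, Fintype.card_fin, Real.exp_nat_mul]
    refine pow_le_pow_left₀ (sum_nonneg fun a _ => by positivity) h1 k
  refine hM.trans ((mul_le_mul_of_nonneg_left h2 (Real.exp_pos _).le).trans ?_)
  rw [← Real.exp_add]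
  refine Real.exp_le_exp.2 ?_
  have h7 : k * (r * (η / 2) ^ 2) ≤ k * (max r ρ * (η / 2) ^ 2) := by gcongr
  have h8 : η ^ 2 * k * ρ / 4 ≤ η ^ 2 * k * max r ρ / 4 := by gcongr
  nlinarith [h7, h8]

end

end Pool.Agent.DH10
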