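import Pool.Agent.DH10.MidDefs
import Pool.Agent.DH10.Chern

/-!
# DH10.Mid3 : concentration of the bilinear forms (Part 3 (4))

Product weight `∏_e π_e(f e)` on cochains, `π x y` probabilities on `G` with `π y x a = π x y (-a)`.  Probability of
`∃ signs u v, |∑_{x,y} u_x v_y (AM χ f - PM χ π)_xy| > 2 ε n` is `≤ 4^{n+1} exp(-ε² n²/16)`.
Proof.  For fixed `u,v` the diagonal terms vanish and
`∑_{x≠y} = ∑_{x<y} [u_x v_y a_xy + u_y v_x conj a_xy]`, `a_xy = (χ(f(x,y)) - E χ)/n`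
(`PM y x = conj (PM x y)` by the symmetry of `π`; `χ(-a) = conj χ(a)`).  Real part `∑_{x<y} (u_x v_y + u_y v_x) Re a_xy`,
imaginary part `∑_{x<y} (u_x v_y - u_y v_x) Im a_xy`: sums of independent centred functions of `f e`, bounded by `4/n`, so
`V = 16/n² · n²/2 = 8` in `hoeff`: each of the four one-sided events `> ε n` has probability `≤ exp(-ε²n²/16)`.  Union over the
`4^n` pairs of sign vectors.
-/

set_option autoImplicit false

open Finset

namespace Pool.Agent.DH10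

noncomputable section

/-- sign of a Boolean -/
private def cc_sg (b : Bool) : ℝ := if b then 1 else -1

private theorem cc_sg_abs (b : Bool) : |cc_sg b| = 1 := by
  cases b <;> simp [cc_sg]

private theorem cc_sg_surj {r : ℝ} (h : r = 1 ∨ r = -1) : ∃ b, cc_sg b = r := by
  rcases h with h | h
  · exact ⟨true, by simp [cc_sg, h]⟩
  · exact ⟨false, by simp [cc_sg, h]⟩

private theorem cc_sum_Edg {n : ℕ} (F : Fin n → Fin n → ℂ) (h0 : ∀ x, F x x = 0) :
    ∑ x, ∑ y, F x y = ∑ e : Edg n, (F e.1.1 e.1.2 + F e.1.2 e.1.1) := by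
  have key : ∀ H : Fin n → Fin n → ℂ,
      ∑ e : Edg n, H e.1.1 e.1.2 = ∑ x, ∑ y, if x < y then H x y else 0 := by
    intro H
    rw [← Finset.sum_subtype (univ.filter fun t : Fin n × Fin n => t.1 < t.2)
      (by simp) (fun t => H t.1 t.2), Finset.sum_filter, Fintype.sum_prod_type]
  rw [Finset.sum_add_distrib, key F, key (fun x y => F y x)]
  have hs : ∑ x, ∑ y, (if x < y then F y x else 0) = ∑ x, ∑ y, (if y < x then F x y else 0) :=
    Finset.sum_comm
  rw [hs, ← Finset.sum_add_distrib]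
  refine Finset.sum_congr rfl fun x _ => ?_
  rw [← Finset.sum_add_distrib]
  refine Finset.sum_congr rfl fun y _ => ?_
  rcases lt_trichotomy x y with h | h | h
  · simp [h, not_lt.mpr h.le]
  · simp [h, h0]
  · simp [h, not_lt.mpr h.le]

section mat

variable {n : ℕ} {G : Type} [AddCommGroup G] [Fintype G]

/-- the mean of `χ` -/
private def cc_E (χ : AddChar G ℂ) (π : Fin n → Fin n → G → ℝ) (x y : Fin n) : ℂ :=
  ∑ a, (π x y a : ℂ) * χ a

private theorem cc_diag (χ : AddChar G ℂ) (f : Coch n G) (π : Fin n → Fin n → G → ℝ) (x : Fin n) :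
    (AM χ f - PM χ π) x x = 0 := by
  simp [AM, PM, val]

private theorem cc_lt (χ : AddChar G ℂ) (f : Coch n G) (π : Fin n → Fin n → G → ℝ) (e : Edg n) :
    (AM χ f - PM χ π) e.1.1 e.1.2 = (χ (f e) - cc_E χ π e.1.1 e.1.2) / n := by
  have h : e.1.1 < e.1.2 := e.2
  have h2 : val f e.1.1 e.1.2 = f e := by
    unfold val
    rw [dif_pos h]
  rw [Matrix.sub_apply]
  simp only [AM, PM, Matrix.of_apply, if_neg h.ne, h2, cc_E]
  ring

private theorem cc_gt (χ : AddChar G ℂ) (f : Coch n G) (π : Fin n → Fin n → G → ℝ)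
    (hsym : ∀ x y a, π y x a = π x y (-a)) (e : Edg n) :
    (AM χ f - PM χ π) e.1.2 e.1.1
      = (starRingEnd ℂ) ((χ (f e) - cc_E χ π e.1.1 e.1.2) / n) := by
  have h : e.1.1 < e.1.2 := e.2
  have h2 : val f e.1.2 e.1.1 = -f e := by
    unfold val
    rw [dif_neg (not_lt.mpr h.le), dif_pos h]
  have h3 : ∑ a, (π e.1.2 e.1.1 a : ℂ) * χ a = (starRingEnd ℂ) (cc_E χ π e.1.1 e.1.2) := by
    unfold cc_E
    rw [map_sum, ← Equiv.sum_comp (Equiv.neg G)]
    refine Finset.sum_congr rfl fun a _ => ?_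
    rw [Equiv.neg_apply, hsym e.1.1 e.1.2, neg_neg, map_mul, Complex.conj_ofReal,
      AddChar.map_neg_eq_conj]
  rw [Matrix.sub_apply]
  simp only [AM, PM, Matrix.of_apply, if_neg h.ne', h2, h3]
  rw [AddChar.map_neg_eq_conj, map_div₀, map_sub, Complex.conj_natCast]
  ring

/-- the function of the colour of an edge -/
private def cc_g (χ : AddChar G ℂ) (π : Fin n → Fin n → G → ℝ) (s t : Fin n → Bool)
    (k : Bool × Bool) (e : Edg n) (a : G) : ℝ :=
  cc_sg k.2 * (if k.1 then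
    (cc_sg (s e.1.1) * cc_sg (t e.1.2) + cc_sg (s e.1.2) * cc_sg (t e.1.1))
      * ((χ a - cc_E χ π e.1.1 e.1.2) / n).re
  else (cc_sg (s e.1.1) * cc_sg (t e.1.2) - cc_sg (s e.1.2) * cc_sg (t e.1.1))
      * ((χ a - cc_E χ π e.1.1 e.1.2) / n).im)

private theorem cc_E_norm (χ : AddChar G ℂ) (π : Fin n → Fin n → G → ℝ)
    (hπ : ∀ x y a, 0 ≤ π x y a) (hπ1 : ∀ x y, ∑ a, π x y a = 1) (x y : Fin n) :
    ‖cc_E χ π x y‖ ≤ 1 := by
  unfold cc_E
  refine (norm_sum_le _ _).trans ?_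
  rw [← hπ1 x y]
  refine Finset.sum_le_sum fun a _ => ?_
  rw [norm_mul, AddChar.norm_apply, mul_one, Complex.norm_real, Real.norm_eq_abs,
    abs_of_nonneg (hπ x y a)]

private theorem cc_g_bound (hn : 1 ≤ n) (χ : AddChar G ℂ) (π : Fin n → Fin n → G → ℝ)
    (hπ : ∀ x y a, 0 ≤ π x y a) (hπ1 : ∀ x y, ∑ a, π x y a = 1) (s t : Fin n → Bool)
    (k : Bool × Bool) (e : Edg n) (a : G) : |cc_g χ π s t k e a| ≤ 4 / n := by
  have hn0 : (0 : ℝ) < n := by exact_mod_cast hn
  have h1 : ‖(χ a - cc_E χ π e.1.1 e.1.2) / n‖ ≤ 2 / n := by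
    rw [norm_div, Complex.norm_natCast]
    refine div_le_div_of_nonneg_right ?_ hn0.le
    refine (norm_sub_le _ _).trans ?_
    rw [AddChar.norm_apply]
    linarith [cc_E_norm χ π hπ hπ1 e.1.1 e.1.2]
  have hre := (Complex.abs_re_le_norm ((χ a - cc_E χ π e.1.1 e.1.2) / n)).trans h1
  have him := (Complex.abs_im_le_norm ((χ a - cc_E χ π e.1.1 e.1.2) / n)).trans h1
  have hp1 : |cc_sg (s e.1.1) * cc_sg (t e.1.2)| = 1 := by
    rw [abs_mul, cc_sg_abs, cc_sg_abs, mul_one]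
  have hp2 : |cc_sg (s e.1.2) * cc_sg (t e.1.1)| = 1 := by
    rw [abs_mul, cc_sg_abs, cc_sg_abs, mul_one]
  have hadd : |cc_sg (s e.1.1) * cc_sg (t e.1.2) + cc_sg (s e.1.2) * cc_sg (t e.1.1)| ≤ 2 := by
    refine (abs_add_le _ _).trans ?_
    rw [hp1, hp2]
    norm_num
  have hsub : |cc_sg (s e.1.1) * cc_sg (t e.1.2) - cc_sg (s e.1.2) * cc_sg (t e.1.1)| ≤ 2 := by
    refine (abs_sub _ _).trans ?_
    rw [hp1, hp2]
    norm_num
  have h4 : (4 : ℝ) / n = 2 * (2 / n) := by ring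
  unfold cc_g
  rw [abs_mul, cc_sg_abs, one_mul, h4]
  split_ifs
  · rw [abs_mul]
    exact mul_le_mul hadd hre (abs_nonneg _) (by norm_num)
  · rw [abs_mul]
    exact mul_le_mul hsub him (abs_nonneg _) (by norm_num)

private theorem cc_g_mean (χ : AddChar G ℂ) (π : Fin n → Fin n → G → ℝ)
    (hπ1 : ∀ x y, ∑ a, π x y a = 1) (s t : Fin n → Bool)
    (k : Bool × Bool) (e : Edg n) : ∑ a, π e.1.1 e.1.2 a * cc_g χ π s t k e a = 0 := by
  have h0 : ∑ a, (π e.1.1 e.1.2 a : ℂ) * ((χ a - cc_E χ π e.1.1 e.1.2) / n) = 0 := by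
    have h1 : ∑ a, (π e.1.1 e.1.2 a : ℂ) * ((χ a - cc_E χ π e.1.1 e.1.2) / n)
        = ((∑ a, (π e.1.1 e.1.2 a : ℂ) * χ a)
          - (∑ a, (π e.1.1 e.1.2 a : ℂ)) * cc_E χ π e.1.1 e.1.2) / n := by
      rw [Finset.sum_mul, ← Finset.sum_sub_distrib, Finset.sum_div]
      refine Finset.sum_congr rfl fun a _ => ?_
      ring
    rw [h1, ← Complex.ofReal_sum, hπ1]
    simp [cc_E]
  have hre : ∑ a, π e.1.1 e.1.2 a * ((χ a - cc_E χ π e.1.1 e.1.2) / n).re = 0 := by
    have := congrArg Complex.re h0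
    rw [Complex.re_sum] at this
    simpa only [Complex.re_ofReal_mul, Complex.zero_re] using this
  have him : ∑ a, π e.1.1 e.1.2 a * ((χ a - cc_E χ π e.1.1 e.1.2) / n).im = 0 := by
    have := congrArg Complex.im h0
    rw [Complex.im_sum] at this
    simpa only [Complex.im_ofReal_mul, Complex.zero_im] using this
  unfold cc_g
  by_cases hk : k.1 = true
  · simp only [hk, if_true]
    have h2 : ∀ a, π e.1.1 e.1.2 a * (cc_sg k.2 * ((cc_sg (s e.1.1) * cc_sg (t e.1.2)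
        + cc_sg (s e.1.2) * cc_sg (t e.1.1)) * ((χ a - cc_E χ π e.1.1 e.1.2) / n).re))
        = (cc_sg k.2 * (cc_sg (s e.1.1) * cc_sg (t e.1.2)
        + cc_sg (s e.1.2) * cc_sg (t e.1.1)))
          * (π e.1.1 e.1.2 a * ((χ a - cc_E χ π e.1.1 e.1.2) / n).re) := fun a => by ring
    simp only [h2]
    rw [← Finset.mul_sum, hre, mul_zero]
  · simp only [hk, if_false]
    have h2 : ∀ a, π e.1.1 e.1.2 a * (cc_sg k.2 * ((cc_sg (s e.1.1) * cc_sg (t e.1.2)
        - cc_sg (s e.1.2) * cc_sg (t e.1.1)) * ((χ a - cc_E χ π e.1.1 e.1.2) / n).im))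
        = (cc_sg k.2 * (cc_sg (s e.1.1) * cc_sg (t e.1.2)
        - cc_sg (s e.1.2) * cc_sg (t e.1.1)))
          * (π e.1.1 e.1.2 a * ((χ a - cc_E χ π e.1.1 e.1.2) / n).im) := fun a => by ring
    simp only [h2, Bool.false_eq_true, if_false]
    rw [← Finset.mul_sum, him, mul_zero]

/-- the bilinear form in terms of the edges -/
private theorem cc_form (χ : AddChar G ℂ) (f : Coch n G) (π : Fin n → Fin n → G → ℝ)
    (hsym : ∀ x y a, π y x a = π x y (-a)) (s t : Fin n → Bool) :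
    (∑ x, ∑ y, ((cc_sg (s x) * cc_sg (t y) : ℝ) : ℂ) * (AM χ f - PM χ π) x y).re
      = ∑ e : Edg n, cc_g χ π s t (true, true) e (f e) ∧
    (∑ x, ∑ y, ((cc_sg (s x) * cc_sg (t y) : ℝ) : ℂ) * (AM χ f - PM χ π) x y).im
      = ∑ e : Edg n, cc_g χ π s t (false, true) e (f e) := by
  rw [cc_sum_Edg _ (fun x => by rw [cc_diag, mul_zero])]
  constructor
  · rw [Complex.re_sum]
    refine Finset.sum_congr rfl fun e _ => ?_
    rw [cc_lt, cc_gt χ f π hsym, Complex.add_re, Complex.re_ofReal_mul, Complex.re_ofReal_mul,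
      Complex.conj_re]
    simp only [cc_g, cc_sg, if_true]
    ring
  · rw [Complex.im_sum]
    refine Finset.sum_congr rfl fun e _ => ?_
    rw [cc_lt, cc_gt χ f π hsym, Complex.add_im, Complex.im_ofReal_mul, Complex.im_ofReal_mul,
      Complex.conj_im]
    simp only [cc_g, cc_sg, if_true, Bool.false_eq_true, if_false]
    ring

private theorem cc_g_neg (χ : AddChar G ℂ) (π : Fin n → Fin n → G → ℝ) (s t : Fin n → Bool)
    (k : Bool) (e : Edg n) (a : G) :
    cc_g χ π s t (k, false) e a = -cc_g χ π s t (k, true) e a := by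
  simp only [cc_g, cc_sg, if_true, Bool.false_eq_true, if_false]
  ring

private theorem cc_event (χ : AddChar G ℂ) (f : Coch n G) (π : Fin n → Fin n → G → ℝ)
    (hsym : ∀ x y a, π y x a = π x y (-a)) {r : ℝ}
    (h : ∃ u v : Fin n → ℝ, (∀ x, u x = 1 ∨ u x = -1) ∧
        (∀ x, v x = 1 ∨ v x = -1) ∧
        2 * r < ‖∑ x, ∑ y, ((u x * v y : ℝ) : ℂ) * (AM χ f - PM χ π) x y‖) :
    ∃ (s t : Fin n → Bool) (k : Bool × Bool), r ≤ ∑ e : Edg n, cc_g χ π s t k e (f e) := by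
  obtain ⟨u, v, hu, hv, huv⟩ := h
  choose s hs using fun x => cc_sg_surj (hu x)
  choose t ht using fun x => cc_sg_surj (hv x)
  obtain ⟨h1, h2⟩ := cc_form χ f π hsym s t
  have hu' : u = fun x => cc_sg (s x) := funext fun x => (hs x).symm
  have hv' : v = fun x => cc_sg (t x) := funext fun x => (ht x).symm
  rw [hu', hv'] at huv
  have h3 := huv.trans_le (Complex.norm_le_abs_re_add_abs_im _)
  rw [h1, h2] at h3
  have h4 : r < |∑ e : Edg n, cc_g χ π s t (true, true) e (f e)| ∨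
      r < |∑ e : Edg n, cc_g χ π s t (false, true) e (f e)| := by
    by_contra hcon
    push Not at hcon
    linarith [hcon.1, hcon.2]
  have h5 : ∀ k : Bool, r < |∑ e : Edg n, cc_g χ π s t (k, true) e (f e)| →
      ∃ k' : Bool × Bool, r ≤ ∑ e : Edg n, cc_g χ π s t k' e (f e) := by
    intro k hk
    rcases le_or_gt 0 (∑ e : Edg n, cc_g χ π s t (k, true) e (f e)) with hpos | hneg
    · exact ⟨(k, true), by rw [abs_of_nonneg hpos] at hk; exact hk.le⟩
    · refine ⟨(k, false), ?_⟩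
      simp only [cc_g_neg]
      rw [Finset.sum_neg_distrib]
      rw [abs_of_neg hneg] at hk
      exact hk.le
  rcases h4 with h4 | h4
  · obtain ⟨k, hk⟩ := h5 _ h4
    exact ⟨s, t, k, hk⟩
  · obtain ⟨k, hk⟩ := h5 _ h4
    exact ⟨s, t, k, hk⟩

private theorem cc_card_Edg (n : ℕ) : 2 * (Fintype.card (Edg n) : ℝ) ≤ (n : ℝ) ^ 2 := by
  have h1 : (Fintype.card (Edg n) : ℝ) = ∑ x : Fin n, ∑ y : Fin n, if x < y then (1 : ℝ) else 0 := by
    have h2 : (∑ e : Edg n, (1 : ℝ)) = ∑ x : Fin n, ∑ y : Fin n, if x < y then (1 : ℝ) else 0 := by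
      rw [← Finset.sum_subtype (univ.filter fun t : Fin n × Fin n => t.1 < t.2)
        (by simp) (fun _ => (1 : ℝ)), Finset.sum_filter, Fintype.sum_prod_type]
    rw [← h2]
    simp
  have h3 : ∑ x : Fin n, ∑ y : Fin n, (if x < y then (1 : ℝ) else 0)
      = ∑ x : Fin n, ∑ y : Fin n, if y < x then (1 : ℝ) else 0 := Finset.sum_comm
  have h4 : 2 * (Fintype.card (Edg n) : ℝ)
      = ∑ x : Fin n, ∑ y : Fin n, ((if x < y then (1 : ℝ) else 0) + if y < x then (1 : ℝ) else 0) := by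
    simp only [Finset.sum_add_distrib]
    rw [← h3, ← h1]
    ring
  rw [h4]
  calc ∑ x : Fin n, ∑ y : Fin n, ((if x < y then (1 : ℝ) else 0) + if y < x then (1 : ℝ) else 0)
      ≤ ∑ x : Fin n, ∑ y : Fin n, (1 : ℝ) := by
        refine Finset.sum_le_sum fun x _ => Finset.sum_le_sum fun y _ => ?_
        rcases lt_trichotomy x y with h | h | h
        · simp [h, not_lt.mpr h.le]
        · simp [h]
        · simp [h, not_lt.mpr h.le]
    _ = (n : ℝ) ^ 2 := by
        simp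
        ring

end mat

open Classical in
theorem conc {n : ℕ} (hn : 1 ≤ n) {G : Type} [AddCommGroup G] [Fintype G] [DecidableEq G]
    (χ : AddChar G ℂ) (π : Fin n → Fin n → G → ℝ) (hπ : ∀ x y a, 0 ≤ π x y a)
    (hπ1 : ∀ x y, ∑ a, π x y a = 1) (hsym : ∀ x y a, π y x a = π x y (-a)) {ε : ℝ} (hε : 0 < ε) :
    ∑ f ∈ univ.filter (fun f : Coch n G => ∃ u v : Fin n → ℝ, (∀ x, u x = 1 ∨ u x = -1) ∧
        (∀ x, v x = 1 ∨ v x = -1) ∧
        2 * ε * n < ‖∑ x, ∑ y, ((u x * v y : ℝ) : ℂ) * (AM χ f - PM χ π) x y‖),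
      ∏ e : Edg n, π e.1.1 e.1.2 (f e) ≤ 4 ^ (n + 1) * Real.exp (-(ε ^ 2 * n ^ 2) / 16) := by
  have hn0 : (0 : ℝ) < n := by exact_mod_cast hn
  have hone : ∀ i : (Fin n → Bool) × (Fin n → Bool) × (Bool × Bool),
      ∑ f ∈ univ.filter (fun f : Coch n G => ε * n ≤ ∑ e : Edg n, cc_g χ π i.1 i.2.1 i.2.2 e (f e)),
        ∏ e : Edg n, π e.1.1 e.1.2 (f e) ≤ Real.exp (-(ε ^ 2 * n ^ 2) / 16) := by
    intro i
    have h := hoeff (ι := Edg n) (α := G) (fun e a => π e.1.1 e.1.2 a) (fun e a => hπ _ _ _)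
      (fun e => hπ1 _ _) (fun e a => cc_g χ π i.1 i.2.1 i.2.2 e a) (fun _ => 4 / n)
      (fun e a => cc_g_bound hn χ π hπ hπ1 _ _ _ e a) (fun e => cc_g_mean χ π hπ1 _ _ _ e)
      (s := ε * n) (V := 8) (by positivity) (by norm_num) (by
        rw [Finset.sum_const, Finset.card_univ, nsmul_eq_mul]
        have := cc_card_Edg n
        rw [div_pow, mul_div_assoc', div_le_iff₀ (by positivity)]
        nlinarith)
    have h2 : -(ε * (n : ℝ)) ^ 2 / (2 * 8) = -(ε ^ 2 * n ^ 2) / 16 := by ring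
    rw [h2] at h
    exact h
  have hw : ∀ f : Coch n G, 0 ≤ ∏ e : Edg n, π e.1.1 e.1.2 (f e) :=
    fun f => Finset.prod_nonneg fun e _ => hπ _ _ _
  calc ∑ f ∈ univ.filter (fun f : Coch n G => ∃ u v : Fin n → ℝ, (∀ x, u x = 1 ∨ u x = -1) ∧
        (∀ x, v x = 1 ∨ v x = -1) ∧
        2 * ε * n < ‖∑ x, ∑ y, ((u x * v y : ℝ) : ℂ) * (AM χ f - PM χ π) x y‖),
      ∏ e : Edg n, π e.1.1 e.1.2 (f e)
      ≤ ∑ f : Coch n G, ∑ i : (Fin n → Bool) × (Fin n → Bool) × (Bool × Bool),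
          (if ε * n ≤ ∑ e : Edg n, cc_g χ π i.1 i.2.1 i.2.2 e (f e) then
            ∏ e : Edg n, π e.1.1 e.1.2 (f e) else 0) := by
        rw [Finset.sum_filter]
        refine Finset.sum_le_sum fun f _ => ?_
        split_ifs with hf
        · have hf' := cc_event χ f π hsym (r := ε * n) (by
            obtain ⟨u, v, hu, hv, h⟩ := hf
            exact ⟨u, v, hu, hv, by rw [← mul_assoc]; exact h⟩)
          obtain ⟨s, t, k, hk⟩ := hf'
          have h1 : (if ε * n ≤ ∑ e : Edg n, cc_g χ π s t k e (f e) then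
            ∏ e : Edg n, π e.1.1 e.1.2 (f e) else 0) = ∏ e : Edg n, π e.1.1 e.1.2 (f e) :=
              if_pos hk
          refine (le_of_eq h1.symm).trans ?_
          exact Finset.single_le_sum
            (f := fun i : (Fin n → Bool) × (Fin n → Bool) × (Bool × Bool) =>
              (if ε * n ≤ ∑ e : Edg n, cc_g χ π i.1 i.2.1 i.2.2 e (f e) then
              ∏ e : Edg n, π e.1.1 e.1.2 (f e) else 0))
            (fun i _ => by
              split_ifs
              · exact hw f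
              · exact le_rfl) (Finset.mem_univ (s, t, k))
        · refine Finset.sum_nonneg fun i _ => ?_
          split_ifs
          · exact hw f
          · exact le_rfl
    _ = ∑ i : (Fin n → Bool) × (Fin n → Bool) × (Bool × Bool),
          ∑ f ∈ univ.filter (fun f : Coch n G => ε * n ≤
            ∑ e : Edg n, cc_g χ π i.1 i.2.1 i.2.2 e (f e)),
          ∏ e : Edg n, π e.1.1 e.1.2 (f e) := by
        rw [Finset.sum_comm]
        refine Finset.sum_congr rfl fun i _ => ?_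
        rw [Finset.sum_filter]
    _ ≤ ∑ _i : (Fin n → Bool) × (Fin n → Bool) × (Bool × Bool),
          Real.exp (-(ε ^ 2 * n ^ 2) / 16) := Finset.sum_le_sum fun i _ => hone i
    _ = 4 ^ (n + 1) * Real.exp (-(ε ^ 2 * n ^ 2) / 16) := by
        rw [Finset.sum_const, Finset.card_univ, nsmul_eq_mul]
        congr 1
        simp only [Fintype.card_prod, Fintype.card_fun, Fintype.card_bool, Fintype.card_fin]
        push_cast
        have : (4 : ℝ) = 2 * 2 := by norm_num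
        rw [pow_succ, this, mul_pow]
        ring

end

end Pool.Agent.DH10
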