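import Pool.Agent.DH10.Mid1
import Pool.Agent.DH10.Mid2
import Pool.Agent.DH10.Mid3

/-!
# DH10.Mid4 : mid classes are negligible (Prop 3.1)

Proof.  `u0 = n^{-0.24}`.  For each sample `φ : Fin (ww n) → Fin n → G` let `F_φ` be the set of `f` with some `χ` mid and
`|qq φ - rr f| ≤ u0`; by `exists_sample` the `F_φ` cover, and there are `q^{n ww n} ≤ exp(C n^{1.5})` samples.
Put `π x y a = (qq φ x y a + u0)/(1 + q u0)` (a probability on `G`, `π y x a = π x y (-a)`).  For `f ∈ F_φ`,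
`Phi f = ∏_e rr f e.1.1 e.1.2 (f e) ≤ (1+q u0)^{|E|} ∏_e π_e(f e) ≤ exp(q n^{1.76}) ∏_e π_e(f e)`
(`Dg f x y / n = rr f x y (val f x y)`).
Entrywise, for `x ≠ y`: `(AM χ f ^ 2)_xy = (1/n) ∑_a rr f x y a χ(a)`, and `|rr - π| ≤ (q+2) u0`, so
`‖AM² - PM‖_F ≤ q (q+2) u0 ≤ κ²` for large `n` (`κ = kap n = n^{-0.02}`); the diagonal entries of both are `1/n`.
If moreover all sign forms are `≤ 2 n κ⁴` then `trichotomy` (with `tr AM³ = tau`) says no `χ` is mid.  So
`∑_{F_φ} ∏ π ≤ ∑_χ 4^{n+1} exp(-κ⁸ n²/16) ≤ exp(-n^{1.83})` by `conc` with `ε = κ⁴`, `κ⁸ n² = n^{1.84}`.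
Total `≤ exp(C n^{1.5} + q n^{1.76} - n^{1.83}) ≤ exp(-n^{1.8})`.
-/

set_option autoImplicit false

open Finset Filter

namespace Pool.Agent.DH10

noncomputable section

theorem tau_eq_trace {n : ℕ} {G : Type} [AddCommGroup G] (χ : AddChar G ℂ) (f : Coch n G) :
    tau χ f = (AM χ f * AM χ f * AM χ f).trace.re := by
  rw [tau]
  congr 1
  rw [Matrix.trace, Finset.sum_div]
  refine Finset.sum_congr rfl fun x _ => ?_
  rw [Matrix.diag_apply, Matrix.mul_apply]
  simp only [Matrix.mul_apply, AM, Matrix.of_apply, Finset.sum_mul]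
  rw [Finset.sum_comm, Finset.sum_div]
  refine Finset.sum_congr rfl fun y _ => ?_
  rw [Finset.sum_div]
  refine Finset.sum_congr rfl fun z _ => ?_
  rw [cur, AddChar.map_add_eq_mul, AddChar.map_add_eq_mul]
  ring

private theorem ev_rpow {a b : ℝ} (hab : a < b) (C : ℝ) {c : ℝ} (hc : 0 < c) :
    ∀ᶠ n : ℕ in atTop, C * (n : ℝ) ^ a ≤ c * (n : ℝ) ^ b := by
  have h1 : Tendsto (fun n : ℕ => (n : ℝ) ^ (b - a)) atTop atTop :=
    (tendsto_rpow_atTop (by linarith)).comp tendsto_natCast_atTop_atTop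
  filter_upwards [h1.eventually_ge_atTop (C / c), eventually_ge_atTop 1] with n hn hn1
  have hn0 : (0 : ℝ) < n := by exact_mod_cast hn1
  have h2 : (n : ℝ) ^ b = (n : ℝ) ^ (b - a) * (n : ℝ) ^ a := by
    rw [← Real.rpow_add hn0]; congr 1; ring
  rw [h2, ← mul_assoc]
  refine mul_le_mul_of_nonneg_right ?_ (Real.rpow_nonneg hn0.le _)
  rw [div_le_iff₀ hc] at hn
  linarith

private theorem sum_biUnion_le' {ι α : Type*} [DecidableEq α] (s : Finset ι) (t : ι → Finset α)
    (g : α → ℝ) (hg : ∀ a, 0 ≤ g a) : ∑ a ∈ s.biUnion t, g a ≤ ∑ i ∈ s, ∑ a ∈ t i, g a := by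
  classical
  induction s using Finset.induction_on with
  | empty => simp
  | insert i s hi ih =>
    rw [Finset.biUnion_insert, Finset.sum_insert hi]
    have h1 := Finset.sum_union_inter (s₁ := t i) (s₂ := s.biUnion t) (f := g)
    have h2 : 0 ≤ ∑ a ∈ t i ∩ s.biUnion t, g a := Finset.sum_nonneg fun a _ => hg a
    linarith

section

variable {n : ℕ} {G : Type} [AddCommGroup G] [Fintype G] [DecidableEq G]

/-- the smoothed sample law -/
private def pis {k : ℕ} (φ : Fin k → Fin n → G) (u : ℝ) (x y : Fin n) (a : G) : ℝ :=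
  (qq φ x y a + u) / (1 + Fintype.card G * u)

private theorem qq_nonneg {k : ℕ} (φ : Fin k → Fin n → G) (x y : Fin n) (a : G) :
    0 ≤ qq φ x y a := by unfold qq; positivity

private theorem qq_sum {k : ℕ} (hk : 0 < k) (φ : Fin k → Fin n → G) (x y : Fin n) :
    ∑ a, qq φ x y a = 1 := by
  have hk' : (k : ℝ) ≠ 0 := by exact_mod_cast hk.ne'
  simp only [qq]
  rw [← Finset.sum_div, div_eq_one_iff_eq hk', ← Nat.cast_sum]
  have h := Finset.card_eq_sum_card_fiberwise (s := (univ : Finset (Fin k)))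
    (t := (univ : Finset G)) (f := fun i => φ i y - φ i x) (fun _ _ => mem_coe.2 (mem_univ _))
  rw [Finset.card_univ, Fintype.card_fin] at h
  exact_mod_cast h.symm

private theorem qq_le_one {k : ℕ} (hk : 0 < k) (φ : Fin k → Fin n → G) (x y : Fin n) (a : G) :
    qq φ x y a ≤ 1 := by
  rw [← qq_sum hk φ x y]
  exact Finset.single_le_sum (f := fun a => qq φ x y a) (fun a _ => qq_nonneg φ x y a) (mem_univ a)

private theorem qq_symm {k : ℕ} (φ : Fin k → Fin n → G) (x y : Fin n) (a : G) :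
    qq φ y x a = qq φ x y (-a) := by
  unfold qq
  congr 3
  ext i
  simp only [mem_filter, mem_univ, true_and]
  rw [← neg_inj, neg_sub]

private theorem pis_nonneg {k : ℕ} (φ : Fin k → Fin n → G) {u : ℝ} (hu : 0 ≤ u) (x y : Fin n)
    (a : G) : 0 ≤ pis φ u x y a := by
  have := qq_nonneg φ x y a
  unfold pis; positivity

private theorem pis_sum {k : ℕ} (hk : 0 < k) (φ : Fin k → Fin n → G) {u : ℝ} (hu : 0 ≤ u)
    (x y : Fin n) : ∑ a, pis φ u x y a = 1 := by
  have h1 : (0 : ℝ) < 1 + Fintype.card G * u := by positivity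
  simp only [pis]
  rw [← Finset.sum_div, Finset.sum_add_distrib, qq_sum hk, Finset.sum_const, card_univ,
    nsmul_eq_mul, div_self h1.ne']

private theorem pis_symm {k : ℕ} (φ : Fin k → Fin n → G) (u : ℝ) (x y : Fin n) (a : G) :
    pis φ u y x a = pis φ u x y (-a) := by
  unfold pis; rw [qq_symm]

private theorem pis_close {k : ℕ} (hk : 0 < k) (φ : Fin k → Fin n → G) {u : ℝ} (hu : 0 ≤ u)
    (x y : Fin n) (a : G) : |qq φ x y a - pis φ u x y a| ≤ (Fintype.card G + 1) * u := by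
  have h1 : (0 : ℝ) < 1 + Fintype.card G * u := by positivity
  have h2 := qq_nonneg φ x y a
  have h3 := qq_le_one hk φ x y a
  have hq : (0 : ℝ) ≤ Fintype.card G := by positivity
  have h4 : qq φ x y a - pis φ u x y a =
      (qq φ x y a * Fintype.card G * u - u) / (1 + Fintype.card G * u) := by
    unfold pis; field_simp; ring
  rw [h4, abs_div, abs_of_pos h1, div_le_iff₀ h1]
  have h5 : |qq φ x y a * Fintype.card G * u - u| ≤ (Fintype.card G + 1) * u := by
    rw [abs_le]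
    constructor
    · nlinarith [mul_nonneg (mul_nonneg h2 hq) hu, mul_nonneg hq hu]
    · nlinarith [mul_nonneg (mul_nonneg (sub_nonneg.2 h3) hq) hu]
  refine h5.trans ?_
  have : 0 ≤ (Fintype.card G + 1) * u := by positivity
  nlinarith [mul_nonneg this (mul_nonneg hq hu)]

omit [Fintype G] in
private theorem Dg_div (f : Coch n G) (x y : Fin n) :
    (Dg f x y : ℝ) / n = rr f x y (val f x y) := rfl

private theorem val_edge (f : Coch n G) (e : Edg n) : val f e.1.1 e.1.2 = f e := by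
  rw [val, dif_pos e.2]

/-- pointwise bound of the Hadamard product -/
private theorem Phi_le {k : ℕ} (φ : Fin k → Fin n → G) {u : ℝ} (hu : 0 ≤ u) (f : Coch n G)
    (hf : ∀ x y a, |qq φ x y a - rr f x y a| ≤ u) :
    Phi f ≤ Real.exp (Fintype.card G * u * n ^ 2) * ∏ e : Edg n, pis φ u e.1.1 e.1.2 (f e) := by
  have h1 : (0 : ℝ) < 1 + Fintype.card G * u := by positivity
  have hE : (Fintype.card (Edg n) : ℝ) ≤ (n : ℝ) ^ 2 := by
    have : Fintype.card (Edg n) ≤ n ^ 2 := by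
      refine (Fintype.card_subtype_le _).trans ?_
      simp [sq]
    exact_mod_cast this
  calc Phi f = ∏ e : Edg n, rr f e.1.1 e.1.2 (f e) := by
        unfold Phi
        refine Finset.prod_congr rfl fun e _ => ?_
        rw [Dg_div, val_edge]
    _ ≤ ∏ e : Edg n, ((1 + Fintype.card G * u) * pis φ u e.1.1 e.1.2 (f e)) := by
        refine Finset.prod_le_prod (fun e _ => ?_) fun e _ => ?_
        · unfold rr; positivity
        · have h2 := (abs_le.1 (hf e.1.1 e.1.2 (f e))).1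
          unfold pis
          rw [mul_div_cancel₀ _ h1.ne']
          linarith
    _ = (1 + Fintype.card G * u) ^ Fintype.card (Edg n) *
          ∏ e : Edg n, pis φ u e.1.1 e.1.2 (f e) := by
        rw [Finset.prod_mul_distrib, Finset.prod_const, card_univ]
    _ ≤ _ := by
        refine mul_le_mul_of_nonneg_right ?_
          (Finset.prod_nonneg fun e _ => pis_nonneg φ hu _ _ _)
        calc (1 + Fintype.card G * u) ^ Fintype.card (Edg n)
            ≤ (Real.exp (Fintype.card G * u)) ^ Fintype.card (Edg n) := by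
              refine pow_le_pow_left₀ h1.le ?_ _
              have := Real.add_one_le_exp (Fintype.card G * u)
              linarith
          _ = Real.exp (Fintype.card (Edg n) * (Fintype.card G * u)) := by
              rw [← Real.exp_nat_mul]
          _ ≤ _ := by
              refine Real.exp_le_exp.2 ?_
              have h3 : (0 : ℝ) ≤ Fintype.card G * u := by positivity
              nlinarith [mul_le_mul_of_nonneg_right hE h3]

private theorem chi_norm (χ : AddChar G ℂ) (a : G) : ‖χ a‖ = 1 := AddChar.norm_apply χ a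

private theorem AM_herm (χ : AddChar G ℂ) (f : Coch n G) : (AM χ f).IsHermitian := by
  ext x y
  rw [Matrix.conjTranspose_apply, AM, Matrix.of_apply, Matrix.of_apply, val_neg f x y,
    AddChar.map_neg_eq_conj]
  simp

private theorem AM_norm (χ : AddChar G ℂ) (f : Coch n G) (x y : Fin n) :
    ‖AM χ f x y‖ = 1 / n := by
  rw [AM, Matrix.of_apply, norm_div, chi_norm]
  simp

/-- `A²` in terms of `rr` -/
private theorem AM_sq (χ : AddChar G ℂ) (f : Coch n G) (x y : Fin n) :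
    (AM χ f * AM χ f) x y = (∑ a, (rr f x y a : ℂ) * χ a) / n := by
  rw [Matrix.mul_apply]
  simp only [AM, Matrix.of_apply]
  have h1 : ∀ z, χ (val f x z) / (n : ℂ) * (χ (val f z y) / n) =
      χ (val f x z + val f z y) / n / n := by
    intro z
    rw [AddChar.map_add_eq_mul]; ring
  simp only [h1]
  rw [← Finset.sum_div, ← Finset.sum_div]
  congr 1
  have h2 : ∑ z, χ (val f x z + val f z y) =
      ∑ a, ∑ z ∈ univ.filter (fun z => val f x z + val f z y = a), χ a := by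
    rw [← Finset.sum_fiberwise_of_maps_to (s := (univ : Finset (Fin n))) (t := (univ : Finset G))
      (g := fun z => val f x z + val f z y) (fun _ _ => mem_univ _)]
    refine Finset.sum_congr rfl fun a _ => Finset.sum_congr rfl fun z hz => ?_
    rw [(mem_filter.1 hz).2]
  rw [h2, Finset.sum_div]
  refine Finset.sum_congr rfl fun a _ => ?_
  rw [Finset.sum_const, nsmul_eq_mul, rr]
  push_cast
  ring

/-- the Frobenius distance -/
private theorem frob (hn : 1 ≤ n) {k : ℕ} (hk : 0 < k) (χ : AddChar G ℂ) (φ : Fin k → Fin n → G)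
    {u : ℝ} (hu : 0 ≤ u) (f : Coch n G) (hf : ∀ x y a, |qq φ x y a - rr f x y a| ≤ u) :
    ∑ x, ∑ y, ‖(AM χ f * AM χ f - PM χ (pis φ u)) x y‖ ^ 2 ≤
      (Fintype.card G * ((Fintype.card G + 2) * u)) ^ 2 := by
  have hn0 : (0 : ℝ) < n := by exact_mod_cast hn
  set M : ℝ := Fintype.card G * ((Fintype.card G + 2) * u) with hM
  have hM0 : 0 ≤ M := by positivity
  have h1 : ∀ x y, ‖(AM χ f * AM χ f - PM χ (pis φ u)) x y‖ ≤ M / n := by
    intro x y
    rw [Matrix.sub_apply, PM, Matrix.of_apply]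
    split_ifs with hxy
    · subst hxy
      have h2 : (AM χ f * AM χ f) x x = 1 / (n : ℂ) := by
        rw [Matrix.mul_apply]
        have h3 : ∀ z, AM χ f x z * AM χ f z x = 1 / ((n : ℂ) * n) := by
          intro z
          simp only [AM, Matrix.of_apply]
          have h4 : χ (val f x z) * χ (val f z x) = 1 := by
            rw [val_neg f x z, ← AddChar.map_add_eq_mul, add_neg_cancel, AddChar.map_zero_eq_one]
          rw [div_mul_div_comm, h4]
        simp only [h3]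
        rw [Finset.sum_const, card_univ, Fintype.card_fin, nsmul_eq_mul]
        have : (n : ℂ) ≠ 0 := by exact_mod_cast hn0.ne'
        field_simp
      rw [h2, sub_self, norm_zero]
      positivity
    · rw [AM_sq, ← sub_div, ← Finset.sum_sub_distrib, norm_div, Complex.norm_natCast]
      refine div_le_div_of_nonneg_right ?_ hn0.le
      calc ‖∑ a, ((rr f x y a : ℂ) * χ a - (pis φ u x y a : ℂ) * χ a)‖
          ≤ ∑ a, ‖(rr f x y a : ℂ) * χ a - (pis φ u x y a : ℂ) * χ a‖ := norm_sum_le _ _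
        _ ≤ ∑ _a : G, (Fintype.card G + 2) * u := by
            refine Finset.sum_le_sum fun a _ => ?_
            rw [← sub_mul, norm_mul, chi_norm, mul_one, ← Complex.ofReal_sub, Complex.norm_real,
              Real.norm_eq_abs]
            have h5 := pis_close hk φ hu x y a
            have h6 := hf x y a
            have h7 : rr f x y a - pis φ u x y a =
                -(qq φ x y a - rr f x y a) + (qq φ x y a - pis φ u x y a) := by ring
            rw [h7]
            refine (abs_add_le _ _).trans ?_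
            rw [abs_neg]
            linarith
        _ = M := by rw [Finset.sum_const, card_univ, nsmul_eq_mul]
  calc ∑ x, ∑ y, ‖(AM χ f * AM χ f - PM χ (pis φ u)) x y‖ ^ 2
      ≤ ∑ _x : Fin n, ∑ _y : Fin n, (M / n) ^ 2 :=
        Finset.sum_le_sum fun x _ => Finset.sum_le_sum fun y _ =>
          pow_le_pow_left₀ (norm_nonneg _) (h1 x y) 2
    _ = M ^ 2 := by
        simp only [Finset.sum_const, card_univ, Fintype.card_fin, nsmul_eq_mul]
        field_simp

open Classical in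
/-- the cochains with a large sign form -/
private def Bad (n : ℕ) {G : Type} [AddCommGroup G] [Fintype G] [DecidableEq G]
    (χ : AddChar G ℂ) (π : Fin n → Fin n → G → ℝ) (ε : ℝ) : Finset (Coch n G) :=
  univ.filter (fun f : Coch n G => ∃ u v : Fin n → ℝ, (∀ x, u x = 1 ∨ u x = -1) ∧
        (∀ x, v x = 1 ∨ v x = -1) ∧
        2 * ε * n < ‖∑ x, ∑ y, ((u x * v y : ℝ) : ℂ) * (AM χ f - PM χ π) x y‖)

open Classical in
/-- a mid character gives a large sign form -/
private theorem mem_Bad (hn : 1 ≤ n) {k : ℕ} (hk : 0 < k) (φ : Fin k → Fin n → G) {u : ℝ}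
    (hu : 0 ≤ u) (hκ : kap n ≤ 1 / 100)
    (hbig : Fintype.card G * ((Fintype.card G + 2) * u) ≤ kap n ^ 2) (χ : AddChar G ℂ)
    (f : Coch n G) (hf : ∀ x y a, |qq φ x y a - rr f x y a| ≤ u) (hm : Mid χ f) :
    f ∈ Bad n χ (pis φ u) (kap n ^ 4) := by
  have hn0 : (0 : ℝ) < n := by exact_mod_cast hn
  have hκ0 : 0 < kap n := by unfold kap; positivity
  by_contra hcon
  have hs : ∀ s t : Fin n → ℝ, (∀ x, s x = 1 ∨ s x = -1) → (∀ x, t x = 1 ∨ t x = -1) →
      ‖∑ x, ∑ y, ((s x * t y : ℝ) : ℂ) * (AM χ f - PM χ (pis φ u)) x y‖ ≤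
        2 * n * kap n ^ 4 := by
    intro s t h1 h2
    by_contra h3
    apply hcon
    rw [Bad, mem_filter]
    refine ⟨mem_univ _, s, t, h1, h2, ?_⟩
    push Not at h3
    calc 2 * kap n ^ 4 * n = 2 * n * kap n ^ 4 := by ring
      _ < _ := h3
  have hP : ∑ x, ∑ y, ‖(AM χ f * AM χ f - PM χ (pis φ u)) x y‖ ^ 2 ≤ (kap n ^ 2) ^ 2 :=
    (frob hn hk χ φ hu f hf).trans (pow_le_pow_left₀ (by positivity) hbig 2)
  have h := trichotomy hn (AM χ f) (PM χ (pis φ u)) (AM_herm χ f) (AM_norm χ f) hκ0 hκ hP hs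
  rw [← tau_eq_trace] at h
  rcases h with h | h
  · exact hm.1 h
  · exact hm.2 h

open Classical in
/-- the sum over the cochains close to a sample -/
private theorem sample_sum (hn : 1 ≤ n) {k : ℕ} (hk : 0 < k) (φ : Fin k → Fin n → G) {u : ℝ}
    (hu : 0 ≤ u) (hκ : kap n ≤ 1 / 100)
    (hbig : Fintype.card G * ((Fintype.card G + 2) * u) ≤ kap n ^ 2) :
    ∑ f ∈ univ.filter (fun f : Coch n G => (∃ χ : AddChar G ℂ, Mid χ f) ∧
        ∀ x y a, |qq φ x y a - rr f x y a| ≤ u), Phi f ≤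
      Real.exp (Fintype.card G * u * n ^ 2) * (Fintype.card G *
        (4 ^ (n + 1) * Real.exp (-((kap n ^ 4) ^ 2 * n ^ 2) / 16))) := by
  have hn0 : (0 : ℝ) < n := by exact_mod_cast hn
  have hκ0 : 0 < kap n := by unfold kap; positivity
  set F := univ.filter (fun f : Coch n G => (∃ χ : AddChar G ℂ, Mid χ f) ∧
        ∀ x y a, |qq φ x y a - rr f x y a| ≤ u) with hF
  have h0 : ∀ f : Coch n G, 0 ≤ ∏ e : Edg n, pis φ u e.1.1 e.1.2 (f e) := fun f =>
    Finset.prod_nonneg fun e _ => pis_nonneg φ hu _ _ _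
  have h1 : ∑ f ∈ F, Phi f ≤ Real.exp (Fintype.card G * u * n ^ 2) *
      ∑ f ∈ F, ∏ e : Edg n, pis φ u e.1.1 e.1.2 (f e) := by
    rw [Finset.mul_sum]
    refine Finset.sum_le_sum fun f hf => ?_
    exact Phi_le φ hu f (mem_filter.1 hf).2.2
  refine h1.trans (mul_le_mul_of_nonneg_left ?_ (Real.exp_pos _).le)
  have hsub : F ⊆ univ.biUnion fun χ : AddChar G ℂ => Bad n χ (pis φ u) (kap n ^ 4) := by
    intro f hf
    obtain ⟨_, ⟨χ, hχ⟩, hf'⟩ := mem_filter.1 hf
    exact mem_biUnion.2 ⟨χ, mem_univ _, mem_Bad hn hk φ hu hκ hbig χ f hf' hχ⟩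
  calc ∑ f ∈ F, ∏ e : Edg n, pis φ u e.1.1 e.1.2 (f e)
      ≤ ∑ f ∈ univ.biUnion fun χ : AddChar G ℂ => Bad n χ (pis φ u) (kap n ^ 4),
          ∏ e : Edg n, pis φ u e.1.1 e.1.2 (f e) :=
        Finset.sum_le_sum_of_subset_of_nonneg hsub fun f _ _ => h0 f
    _ ≤ ∑ χ : AddChar G ℂ, ∑ f ∈ Bad n χ (pis φ u) (kap n ^ 4),
          ∏ e : Edg n, pis φ u e.1.1 e.1.2 (f e) := by
        exact sum_biUnion_le' _ _ _ h0
    _ ≤ ∑ _χ : AddChar G ℂ, (4 ^ (n + 1) * Real.exp (-((kap n ^ 4) ^ 2 * n ^ 2) / 16)) := by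
        refine Finset.sum_le_sum fun χ _ => ?_
        exact conc hn χ (pis φ u) (pis_nonneg φ hu) (pis_sum hk φ hu)
          (fun x y a => pis_symm φ u x y a) (by positivity)
    _ = _ := by
        rw [Finset.sum_const, card_univ, AddChar.card_eq, nsmul_eq_mul]

end

private theorem kap_pow (n : ℕ) (hn : 1 ≤ n) : (kap n ^ 4) ^ 2 * (n : ℝ) ^ 2 =
    (n : ℝ) ^ (184 / 100 : ℝ) := by
  have hn0 : (0 : ℝ) < n := by exact_mod_cast hn
  rw [kap, ← pow_mul, ← Real.rpow_natCast, ← Real.rpow_mul hn0.le, ← Real.rpow_natCast (n : ℝ) 2,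
    ← Real.rpow_add hn0]
  norm_num

private theorem kap_sq (n : ℕ) (hn : 1 ≤ n) : kap n ^ 2 = (n : ℝ) ^ (-(4 / 100) : ℝ) := by
  have hn0 : (0 : ℝ) < n := by exact_mod_cast hn
  rw [kap, ← Real.rpow_natCast, ← Real.rpow_mul hn0.le]
  norm_num

open Classical in
theorem mid_sum (G : Type) [AddCommGroup G] [Fintype G] [DecidableEq G] :
    ∀ᶠ n : ℕ in atTop,
      ∑ f ∈ univ.filter (fun f : Coch n G => ∃ χ : AddChar G ℂ, Mid χ f), Phi f
        ≤ Real.exp (-(n : ℝ) ^ (18 / 10 : ℝ)) := by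
  set q : ℝ := (Fintype.card G : ℝ) with hq
  have hq1 : 1 ≤ q := by
    rw [hq]; exact_mod_cast Fintype.card_pos
  have hlq : 0 ≤ Real.log q := Real.log_nonneg hq1
  have e1 : ∀ᶠ n : ℕ in atTop, 100 * (n : ℝ) ^ (-(1 / 50) : ℝ) ≤ 1 * (n : ℝ) ^ (0 : ℝ) :=
    ev_rpow (by norm_num) _ one_pos
  have e2 : ∀ᶠ n : ℕ in atTop, (q * (q + 2)) * (n : ℝ) ^ (-(24 / 100) : ℝ) ≤
      1 * (n : ℝ) ^ (-(4 / 100) : ℝ) := ev_rpow (by norm_num) _ one_pos
  -- exponents
  have e3 : ∀ᶠ n : ℕ in atTop, (2 * Real.log q) * (n : ℝ) ^ (3 / 2 : ℝ) ≤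
      (1 / 96) * (n : ℝ) ^ (184 / 100 : ℝ) := ev_rpow (by norm_num) _ (by norm_num)
  have e4 : ∀ᶠ n : ℕ in atTop, q * (n : ℝ) ^ (176 / 100 : ℝ) ≤
      (1 / 96) * (n : ℝ) ^ (184 / 100 : ℝ) := ev_rpow (by norm_num) _ (by norm_num)
  have e5 : ∀ᶠ n : ℕ in atTop, (Real.log q) * (n : ℝ) ^ (0 : ℝ) ≤
      (1 / 96) * (n : ℝ) ^ (184 / 100 : ℝ) := ev_rpow (by norm_num) _ (by norm_num)
  have e6 : ∀ᶠ n : ℕ in atTop, (2 * Real.log 4) * (n : ℝ) ^ (1 : ℝ) ≤
      (1 / 96) * (n : ℝ) ^ (184 / 100 : ℝ) := ev_rpow (by norm_num) _ (by norm_num)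
  have e7 : ∀ᶠ n : ℕ in atTop, 1 * (n : ℝ) ^ (18 / 10 : ℝ) ≤
      (1 / 96) * (n : ℝ) ^ (184 / 100 : ℝ) := ev_rpow (by norm_num) _ (by norm_num)
  filter_upwards [exists_sample G, e1, e2, e3, e4, e5, e6, e7, eventually_ge_atTop 1] with
    n hsamp h1 h2 h3 h4 h5 h6 h7 hn
  have hn0 : (0 : ℝ) < n := by exact_mod_cast hn
  have hn1 : (1 : ℝ) ≤ n := by exact_mod_cast hn
  set u : ℝ := (n : ℝ) ^ (-(24 / 100) : ℝ) with hu
  have hu0 : 0 ≤ u := by positivity
  have hk : 0 < ww n := by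
    unfold ww
    exact Nat.ceil_pos.2 (Real.sqrt_pos.2 hn0)
  have hκ : kap n ≤ 1 / 100 := by
    rw [Real.rpow_zero] at h1
    unfold kap
    linarith
  have hbig : (Fintype.card G : ℝ) * ((Fintype.card G + 2) * u) ≤ kap n ^ 2 := by
    rw [kap_sq n hn, ← hq]
    linarith
  set B : ℝ := Real.exp (Fintype.card G * u * n ^ 2) * (Fintype.card G *
        (4 ^ (n + 1) * Real.exp (-((kap n ^ 4) ^ 2 * n ^ 2) / 16))) with hB
  have hPhi : ∀ f : Coch n G, 0 ≤ Phi f := fun f => by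
    unfold Phi
    exact Finset.prod_nonneg fun e _ => by positivity
  have hsub : (univ.filter fun f : Coch n G => ∃ χ : AddChar G ℂ, Mid χ f) ⊆
      (univ : Finset (Fin (ww n) → Fin n → G)).biUnion fun φ =>
        univ.filter (fun f : Coch n G => (∃ χ : AddChar G ℂ, Mid χ f) ∧
        ∀ x y a, |qq φ x y a - rr f x y a| ≤ u) := by
    intro f hf
    obtain ⟨φ, hφ⟩ := hsamp f
    exact mem_biUnion.2 ⟨φ, mem_univ _, mem_filter.2 ⟨mem_univ _, (mem_filter.1 hf).2, hφ⟩⟩
  have hcard : ((Fintype.card (Fin (ww n) → Fin n → G) : ℕ) : ℝ) =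
      Real.exp (ww n * (n * Real.log q)) := by
    rw [Fintype.card_fun, Fintype.card_fun, Fintype.card_fin, Fintype.card_fin]
    push_cast
    rw [Real.exp_nat_mul, Real.exp_nat_mul, Real.exp_log (by linarith)]
  have hww : (ww n : ℝ) ≤ 2 * (n : ℝ) ^ (1 / 2 : ℝ) := by
    have h8 := Nat.ceil_lt_add_one (Real.sqrt_nonneg (n : ℝ))
    have h9 : 1 ≤ Real.sqrt n := by
      rw [Real.one_le_sqrt]; exact hn1
    rw [← Real.sqrt_eq_rpow]
    unfold ww
    linarith
  calc ∑ f ∈ univ.filter (fun f : Coch n G => ∃ χ : AddChar G ℂ, Mid χ f), Phi f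
      ≤ ∑ f ∈ (univ : Finset (Fin (ww n) → Fin n → G)).biUnion fun φ =>
        univ.filter (fun f : Coch n G => (∃ χ : AddChar G ℂ, Mid χ f) ∧
        ∀ x y a, |qq φ x y a - rr f x y a| ≤ u), Phi f :=
        Finset.sum_le_sum_of_subset_of_nonneg hsub fun f _ _ => hPhi f
    _ ≤ ∑ φ : Fin (ww n) → Fin n → G, ∑ f ∈ univ.filter (fun f : Coch n G =>
        (∃ χ : AddChar G ℂ, Mid χ f) ∧ ∀ x y a, |qq φ x y a - rr f x y a| ≤ u), Phi f :=
        sum_biUnion_le' _ _ _ hPhi
    _ ≤ ∑ _φ : Fin (ww n) → Fin n → G, B :=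
        Finset.sum_le_sum fun φ _ => sample_sum hn hk φ hu0 hκ hbig
    _ = Real.exp (ww n * (n * Real.log q)) * B := by
        rw [Finset.sum_const, card_univ, nsmul_eq_mul, hcard]
    _ = Real.exp (ww n * (n * Real.log q) + (q * u * n ^ 2 + (Real.log q +
          ((n + 1 : ℕ) * Real.log 4 + -((kap n ^ 4) ^ 2 * n ^ 2) / 16)))) := by
        rw [hB, ← hq, Real.exp_add, Real.exp_add, Real.exp_add, Real.exp_add,
          Real.exp_log (by linarith), Real.exp_nat_mul _ (n + 1), Real.exp_log (by norm_num)]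
    _ ≤ Real.exp (-(n : ℝ) ^ (18 / 10 : ℝ)) := by
        refine Real.exp_le_exp.2 ?_
        rw [kap_pow n hn]
        have a1 : (ww n : ℝ) * (n * Real.log q) ≤ (2 * Real.log q) * (n : ℝ) ^ (3 / 2 : ℝ) := by
          have h8 : (n : ℝ) ^ (3 / 2 : ℝ) = (n : ℝ) ^ (1 / 2 : ℝ) * n := by
            rw [← Real.rpow_add_one hn0.ne']; norm_num
          rw [h8]
          have := mul_le_mul_of_nonneg_right hww (mul_nonneg hn0.le hlq)
          nlinarith
        have a2 : q * u * n ^ 2 = q * (n : ℝ) ^ (176 / 100 : ℝ) := by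
          rw [mul_assoc, hu, ← Real.rpow_natCast (n : ℝ) 2, ← Real.rpow_add hn0]
          norm_num
        have a3 : ((n + 1 : ℕ) : ℝ) * Real.log 4 ≤ (2 * Real.log 4) * (n : ℝ) ^ (1 : ℝ) := by
          rw [Real.rpow_one]
          push_cast
          have : 0 ≤ Real.log 4 := Real.log_nonneg (by norm_num)
          nlinarith
        rw [Real.rpow_zero] at h5
        rw [a2]
        linarith

end

end Pool.Agent.DH10
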