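import Pool.Agent.DH10.Push
import Pool.Agent.DH10.PsiEx
import Pool.Agent.DH10.Mid4

/-!
# DH10.NearPush : a near trivial character gives a small class with values in `F_p` (5.1)

`G` a finite abelian `p`-group.  Let `χ ≠ 1` be near trivial for `f`.  Put
`c_G = min {1 - Re χ(a) : χ(a) ≠ 1} > 0` (finitely many `χ, a`; values of `χ` are roots of unity, `|χ a| = 1`, so
`Re χ(a) = 1` implies `χ(a) = 1`).  `n³ (1 - τ) = ∑_{x,y,z} (1 - Re χ(cur f x y z))`, so
`#{(x,y,z) : χ(cur f x y z) ≠ 1} ≤ (64/c_G) κ n³`.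
`H = {a : χ a = 1}` is a proper subgroup; take `ψ : G → ZMod p` onto with `H ≤ ker ψ` (`exists_psi`).
`cur (push ψ f) x y z = ψ(cur f x y z) ≠ 0` implies `χ(cur f x y z) ≠ 1`.  So `ncd (push ψ f) ≤ (64/c_G) κ n³`; use
`sm_of_ncd`.
-/

set_option autoImplicit false

open Finset

namespace Pool.Agent.DH10

noncomputable section

private theorem np_re_le (z : ℂ) (hz : ‖z‖ = 1) : z.re ≤ 1 := by
  have := Complex.re_le_norm z
  rw [hz] at this
  exact this

private theorem np_re_lt (z : ℂ) (hz : ‖z‖ = 1) (h1 : z ≠ 1) : z.re < 1 := by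
  refine lt_of_le_of_ne (np_re_le z hz) ?_
  intro h
  apply h1
  have h2 : z.re * z.re + z.im * z.im = 1 := by
    have := Complex.normSq_eq_norm_sq z
    rw [hz, Complex.normSq_apply] at this
    rw [this]; norm_num
  have h3 : z.im = 0 := by
    rw [h] at h2
    have : z.im * z.im = 0 := by linarith
    exact mul_self_eq_zero.1 this
  apply Complex.ext
  · rw [h, Complex.one_re]
  · rw [h3, Complex.one_im]

theorem near_push (p : ℕ) [Fact p.Prime] (G : Type) [AddCommGroup G] [Finite G] (hG : IsP p G) :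
    ∃ C : ℝ, ∀ (n : ℕ), 1 ≤ n → ∀ (f : Coch n G) (χ : AddChar G ℂ), χ ≠ 1 → Near χ f →
      ∃ ψ : G →+ ZMod p, Function.Surjective ψ ∧ Sm C (push ψ f) := by
  classical
  have hnorm : ∀ (χ : AddChar G ℂ) (a : G), ‖χ a‖ = 1 := fun χ a => AddChar.norm_apply χ a
  obtain ⟨x0, hx0⟩ := Finite.exists_min
    (fun q : AddChar G ℂ × G => if q.1 q.2 = 1 then (1 : ℝ) else 1 - (q.1 q.2).re)
  set c : ℝ := if x0.1 x0.2 = 1 then (1 : ℝ) else 1 - (x0.1 x0.2).re with hc
  have hc0 : 0 < c := by
    rw [hc]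
    split_ifs with h
    · exact one_pos
    · have := np_re_lt _ (hnorm x0.1 x0.2) h
      linarith
  have hcle : ∀ (χ : AddChar G ℂ) (a : G), χ a ≠ 1 → c ≤ 1 - (χ a).re := by
    intro χ a ha
    have := hx0 (χ, a)
    simp only at this
    rwa [if_neg ha] at this
  refine ⟨64 / c, ?_⟩
  intro n hn f χ hχ hnear
  have hn0 : (0 : ℝ) < n := by exact_mod_cast hn
  let H : AddSubgroup G :=
    { carrier := {a | χ a = 1}
      add_mem' := by
        intro a b ha hb
        simp only [Set.mem_ofPred_eq] at ha hb ⊢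
        rw [AddChar.map_add_eq_mul, ha, hb, one_mul]
      zero_mem' := by
        simp only [Set.mem_ofPred_eq]
        exact AddChar.map_zero_eq_one χ
      neg_mem' := by
        intro a ha
        simp only [Set.mem_ofPred_eq] at ha ⊢
        rw [AddChar.map_neg_eq_inv, ha, inv_one] }
  have hH : H ≠ ⊤ := by
    intro h
    apply hχ
    ext a
    have : a ∈ H := by rw [h]; trivial
    exact this
  obtain ⟨ψ, hψ, hker⟩ := exists_psi p G hG H hH
  refine ⟨ψ, hψ, ?_⟩
  apply sm_of_ncd hn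
  -- the sum of `1 - Re χ(cur)`
  have hsum : ∑ q : Fin n × Fin n × Fin n, (1 - (χ (cur f q.1 q.2.1 q.2.2)).re)
      ≤ 64 * kap n * (n : ℝ) ^ 3 := by
    have h1 : tau χ f * (n : ℝ) ^ 3 =
        ∑ q : Fin n × Fin n × Fin n, (χ (cur f q.1 q.2.1 q.2.2)).re := by
      unfold tau
      have e1 : ((n : ℂ)) ^ 3 = (((n : ℝ) ^ 3 : ℝ) : ℂ) := by push_cast; rfl
      rw [e1, Complex.div_ofReal_re, div_mul_cancel₀ _ (by positivity), Complex.re_sum]
      rw [Fintype.sum_prod_type]
      apply sum_congr rfl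
      intro x _
      rw [Complex.re_sum, Fintype.sum_prod_type]
      apply sum_congr rfl
      intro y _
      rw [Complex.re_sum]
    have h2 : ∑ _q : Fin n × Fin n × Fin n, (1 : ℝ) = (n : ℝ) ^ 3 := by
      rw [sum_const, card_univ, Fintype.card_prod, Fintype.card_prod, Fintype.card_fin, nsmul_eq_mul]
      push_cast
      ring
    rw [sum_sub_distrib, h2, ← h1]
    have h3 : 1 - 64 * kap n ≤ tau χ f := hnear
    have h4 : 0 < (n : ℝ) ^ 3 := by positivity
    nlinarith
  have hlow : c * (ncd (push ψ f) : ℝ) ≤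
      ∑ q : Fin n × Fin n × Fin n, (1 - (χ (cur f q.1 q.2.1 q.2.2)).re) := by
    unfold ncd
    rw [mul_comm, ← nsmul_eq_mul, ← sum_const]
    calc ∑ _q ∈ univ.filter fun q : Fin n × Fin n × Fin n =>
          cur (push ψ f) q.1 q.2.1 q.2.2 ≠ 0, c
        ≤ ∑ q ∈ univ.filter fun q : Fin n × Fin n × Fin n =>
          cur (push ψ f) q.1 q.2.1 q.2.2 ≠ 0, (1 - (χ (cur f q.1 q.2.1 q.2.2)).re) := by
          apply sum_le_sum
          intro q hq
          rw [mem_filter, cur_push] at hq
          apply hcle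
          intro h
          apply hq.2
          have : cur f q.1 q.2.1 q.2.2 ∈ H := h
          exact hker this
      _ ≤ _ := by
          apply sum_le_univ_sum_of_nonneg
          intro q
          have := np_re_le _ (hnorm χ (cur f q.1 q.2.1 q.2.2))
          linarith
  have hfin := hlow.trans hsum
  rw [div_mul_eq_mul_div, div_mul_eq_mul_div, le_div_iff₀ hc0]
  linarith

end

end Pool.Agent.DH10
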