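import Pool.Agent.DH10.NZDefs

/-!
# DH10.ESumS : families of triangles, small `s` (4.8)

For every `C ≥ 0` there is `B` with, for `n` large and all `s ≤ n^{1/25}`: `∑_{J : 3|J| ≤ s} psiJ C J ≤ B`.
Proof.  For `J` let `V2 = {v : tc J v ≥ 2}`, `b v = tc J v` on `V2` and `b v = 1` elsewhere (on the vertices of triangles
`tc ≤ b`).  `ζ = n^{0.6} ≥ 1`: `1 ≤ ∏_{v∈V2} ζ^{tc v - 2} = ζ^{-2|V2|} ∏_{t∈J} ζ^{|t ∩ V2|}`.  So, summing over the possible
`(V2, b|V2)` (`|V2| ≤ s`, `2 ≤ b ≤ s`): `∑_J psiJ ≤ ∑_{V2, b} ζ^{-2|V2|} ∏_t (1+y_t ζ^{|t∩V2|}) ≤ ∑ ζ^{-2|V2|} exp(∑_t y_t ζ^{|t∩V2|})`,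
`y_t = (C/n)³ ∏ (b+b')`.  Triangles with no vertex in `V2`: `y_t = 8C³/n³`, at most `n³` of them: `≤ 8C³`.  With `j ≥ 1`
vertices in `V2`: `y_t ≤ 8 C³ s³/n³`, at most `|V2|^j n^{3-j}` of them, total `≤ 8C³ s³ |V2|^j n^{-j} n^{0.6 j}
≤ 8 C³ s^{5} |V2| n^{-0.4}` `≤ |V2|` for large `n` (`s^5 ≤ n^{0.2}`).  Finally
`∑_{V2,b} (e n^{-1.2})^{|V2|} ≤ ∏_v (1 + s e n^{-1.2}) ≤ exp(e s n^{-0.2}) ≤ e`.
-/

set_option autoImplicit false

open Finset Filter

namespace Pool.Agent.DH10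

noncomputable section

namespace ESumS

variable {n : ℕ}

/-- number of triangles at a vertex, replaced by `1` if it is less than `2` -/
def bb (J : Finset (Tri n)) (v : Fin n) : ℕ := if 2 ≤ tc J v then tc J v else 1

theorem tc_le_bb (J : Finset (Tri n)) (v : Fin n) : tc J v ≤ bb J v := by
  unfold bb; split_ifs <;> omega

theorem one_le_bb (J : Finset (Tri n)) (v : Fin n) : 1 ≤ bb J v := by
  unfold bb; split_ifs <;> omega

theorem tc_le_card (J : Finset (Tri n)) (v : Fin n) : tc J v ≤ J.card :=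
  Finset.card_filter_le _ _

theorem bb_le (J : Finset (Tri n)) (v : Fin n) : bb J v ≤ J.card + 1 := by
  have := tc_le_card J v
  unfold bb; split_ifs <;> omega

theorem sum_tc_le (J : Finset (Tri n)) : ∑ v, tc J v ≤ 3 * J.card := by
  have h1 : ∑ v, tc J v = ∑ t ∈ J, t.verts.card := by
    simp only [tc, Finset.card_filter]
    rw [Finset.sum_comm]
    refine Finset.sum_congr rfl fun t _ => ?_
    rw [← Finset.card_filter]
    congr 1
    ext v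
    simp
  rw [h1, mul_comm, ← smul_eq_mul]
  refine Finset.sum_le_card_nsmul _ _ _ fun t _ => ?_
  exact Finset.card_le_three

/-- the vertices with large profile -/
def V2 (b : Fin n → ℕ) : Finset (Fin n) := univ.filter fun v => 2 ≤ b v

theorem V2_card (J : Finset (Tri n)) {s : ℕ} (hJ : 3 * J.card ≤ s) : (V2 (bb J)).card ≤ s := by
  have h1 : ∀ v ∈ V2 (bb J), 2 ≤ tc J v := by
    intro v hv
    have hv' : 2 ≤ bb J v := (Finset.mem_filter.1 hv).2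
    unfold bb at hv'
    split_ifs at hv' with h
    · exact h
    · omega
  have h2 : (V2 (bb J)).card * 2 ≤ ∑ v ∈ V2 (bb J), tc J v := by
    rw [← smul_eq_mul]
    exact Finset.card_nsmul_le_sum _ _ _ h1
  have h3 : ∑ v ∈ V2 (bb J), tc J v ≤ ∑ v, tc J v :=
    Finset.sum_le_sum_of_subset (Finset.subset_univ _)
  have h4 := sum_tc_le J
  omega

/-- the extra weight of a vertex -/
def Zw (ζ : ℝ) (b : Fin n → ℕ) (v : Fin n) : ℝ := if 2 ≤ b v then ζ else 1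

theorem prod_verts (t : Tri n) (f : Fin n → ℝ) : ∏ v ∈ t.verts, f v = f t.a * f t.b * f t.c := by
  have h1 : t.a < t.b := t.2.1
  have h2 : t.b < t.c := t.2.2
  unfold Tri.verts
  rw [Finset.prod_insert, Finset.prod_insert, Finset.prod_singleton, mul_assoc]
  · simpa using h2.ne
  · simp only [Finset.mem_insert, Finset.mem_singleton, not_or]
    exact ⟨h1.ne, (h1.trans h2).ne⟩

theorem prod_tc (J : Finset (Tri n)) (f : Fin n → ℝ) :
    ∏ t ∈ J, (f t.a * f t.b * f t.c) = ∏ v, f v ^ tc J v := by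
  have h1 : ∀ v : Fin n, f v ^ tc J v = ∏ t ∈ J, if v ∈ t.verts then f v else 1 := by
    intro v
    rw [tc, ← Finset.prod_const, Finset.prod_filter]
  simp only [h1]
  rw [Finset.prod_comm]
  refine Finset.prod_congr rfl fun t _ => ?_
  rw [← prod_verts t f, ← Finset.prod_filter]
  refine Finset.prod_congr ?_ fun _ _ => rfl
  ext v
  simp

theorem prod_ite_card (b : Fin n → ℕ) (A : ℝ) :
    ∏ v, (if 2 ≤ b v then A else 1) = A ^ (V2 b).card := by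
  rw [Finset.prod_ite, Finset.prod_const, Finset.prod_const_one, mul_one]
  rfl

/-- weight of a vertex in the bound -/
def Fw (ζ : ℝ) (b : Fin n → ℕ) (v : Fin n) : ℝ := (b v : ℝ) ^ 2 * Zw ζ b v

/-- weight of a triangle in the bound -/
def zt (C ζ : ℝ) (b : Fin n → ℕ) (t : Tri n) : ℝ :=
  8 * (C / n) ^ 3 * (Fw ζ b t.a * Fw ζ b t.b * Fw ζ b t.c)

theorem psi_le {C ζ : ℝ} (hC : 0 ≤ C) (hζ : 1 ≤ ζ) (J : Finset (Tri n)) :
    psiJ C J ≤ ((ζ ^ 2)⁻¹) ^ (V2 (bb J)).card * ∏ t ∈ J, zt C ζ (bb J) t := by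
  have hζ0 : 0 < ζ := by linarith
  have hCn : 0 ≤ (C / n) ^ 3 := by positivity
  set b := bb J with hb
  have h1 : psiJ C J ≤ ∏ t ∈ J,
      (8 * (C / n) ^ 3 * ((b t.a : ℝ) ^ 2 * (b t.b : ℝ) ^ 2 * (b t.c : ℝ) ^ 2)) := by
    unfold psiJ
    refine Finset.prod_le_prod (fun t _ => by positivity) fun t _ => ?_
    have ha : (tc J t.a : ℝ) ≤ b t.a := by exact_mod_cast tc_le_bb J _
    have hb' : (tc J t.b : ℝ) ≤ b t.b := by exact_mod_cast tc_le_bb J _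
    have hc : (tc J t.c : ℝ) ≤ b t.c := by exact_mod_cast tc_le_bb J _
    have ha1 : (1 : ℝ) ≤ b t.a := by exact_mod_cast one_le_bb J _
    have hb1 : (1 : ℝ) ≤ b t.b := by exact_mod_cast one_le_bb J _
    have hc1 : (1 : ℝ) ≤ b t.c := by exact_mod_cast one_le_bb J _
    have e : ∀ x y : ℝ, 1 ≤ x → 1 ≤ y → x + y ≤ 2 * (x * y) := fun x y hx hy => by nlinarith
    have k1 : (tc J t.a : ℝ) + tc J t.b ≤ 2 * (b t.a * b t.b) :=
      (add_le_add ha hb').trans (e _ _ ha1 hb1)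
    have k2 : (tc J t.b : ℝ) + tc J t.c ≤ 2 * (b t.b * b t.c) :=
      (add_le_add hb' hc).trans (e _ _ hb1 hc1)
    have k3 : (tc J t.a : ℝ) + tc J t.c ≤ 2 * (b t.a * b t.c) :=
      (add_le_add ha hc).trans (e _ _ ha1 hc1)
    have k4 : ((tc J t.a : ℝ) + tc J t.b) * ((tc J t.b : ℝ) + tc J t.c) * ((tc J t.a : ℝ) + tc J t.c)
        ≤ (2 * (b t.a * b t.b)) * (2 * (b t.b * b t.c)) * (2 * (b t.a * b t.c)) := by
      gcongr
    calc (C / n) ^ 3 * (((tc J t.a : ℝ) + tc J t.b) * ((tc J t.b : ℝ) + tc J t.c) *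
          ((tc J t.a : ℝ) + tc J t.c))
        ≤ (C / n) ^ 3 * ((2 * (b t.a * b t.b)) * (2 * (b t.b * b t.c)) * (2 * (b t.a * b t.c))) :=
          mul_le_mul_of_nonneg_left k4 hCn
      _ = _ := by ring
  have h2 : (ζ ^ 2) ^ (V2 b).card ≤ ∏ t ∈ J, (Zw ζ b t.a * Zw ζ b t.b * Zw ζ b t.c) := by
    rw [prod_tc, ← prod_ite_card]
    refine Finset.prod_le_prod (fun v _ => by split_ifs <;> positivity) fun v _ => ?_
    unfold Zw
    split_ifs with h
    · have h3 : 2 ≤ tc J v := by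
        rw [hb] at h
        unfold bb at h
        split_ifs at h with h'
        · exact h'
        · omega
      exact pow_le_pow_right₀ hζ h3
    · rw [one_pow]
  have h3 : 1 ≤ ((ζ ^ 2)⁻¹) ^ (V2 b).card * ∏ t ∈ J, (Zw ζ b t.a * Zw ζ b t.b * Zw ζ b t.c) := by
    rw [inv_pow, inv_mul_eq_div, one_le_div (by positivity)]
    exact h2
  have h4 : 0 ≤ ∏ t ∈ J,
      (8 * (C / n) ^ 3 * ((b t.a : ℝ) ^ 2 * (b t.b : ℝ) ^ 2 * (b t.c : ℝ) ^ 2)) :=
    Finset.prod_nonneg fun t _ => by positivity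
  calc psiJ C J ≤ (∏ t ∈ J,
      (8 * (C / n) ^ 3 * ((b t.a : ℝ) ^ 2 * (b t.b : ℝ) ^ 2 * (b t.c : ℝ) ^ 2))) * 1 := by
        rw [mul_one]; exact h1
    _ ≤ (∏ t ∈ J, (8 * (C / n) ^ 3 * ((b t.a : ℝ) ^ 2 * (b t.b : ℝ) ^ 2 * (b t.c : ℝ) ^ 2))) *
        (((ζ ^ 2)⁻¹) ^ (V2 b).card * ∏ t ∈ J, (Zw ζ b t.a * Zw ζ b t.b * Zw ζ b t.c)) :=
        mul_le_mul_of_nonneg_left h3 h4
    _ = ((ζ ^ 2)⁻¹) ^ (V2 b).card * ∏ t ∈ J, zt C ζ b t := by
        rw [mul_left_comm, ← Finset.prod_mul_distrib]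
        congr 1
        refine Finset.prod_congr rfl fun t _ => ?_
        unfold zt Fw
        ring

theorem sum_tri_le (F : Fin n → ℝ) (hF : ∀ v, 0 ≤ F v) :
    ∑ t : Tri n, F t.a * F t.b * F t.c ≤ (∑ v, F v) ^ 3 := by
  have h1 : (∑ v, F v) ^ 3 = ∑ x : Fin n × Fin n × Fin n, F x.1 * F x.2.1 * F x.2.2 := by
    rw [Fintype.sum_prod_type]
    simp only [Fintype.sum_prod_type]
    simp only [← Finset.mul_sum, ← Finset.sum_mul]
    ring
  have h2 : ∑ t : Tri n, F t.a * F t.b * F t.c =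
      ∑ x ∈ (univ : Finset (Tri n)).map (Function.Embedding.subtype _),
        F x.1 * F x.2.1 * F x.2.2 := by
    rw [Finset.sum_map]
    rfl
  rw [h1, h2]
  exact Finset.sum_le_sum_of_subset_of_nonneg (Finset.subset_univ _)
    fun x _ _ => mul_nonneg (mul_nonneg (hF _) (hF _)) (hF _)

theorem sum_F_le {ζ : ℝ} (hζ : 1 ≤ ζ) {s : ℕ} {b : Fin n → ℕ} (hb : ∀ v, b v ≤ s + 1) :
    ∑ v, Fw ζ b v ≤ n + (V2 b).card * (((s : ℝ) + 1) ^ 2 * ζ) := by
  have h1 : ∀ v, Fw ζ b v ≤ 1 + if 2 ≤ b v then ((s : ℝ) + 1) ^ 2 * ζ else 0 := by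
    intro v
    unfold Fw Zw
    have h2 : (b v : ℝ) ≤ (s : ℝ) + 1 := by exact_mod_cast hb v
    have h3 : (0 : ℝ) ≤ b v := Nat.cast_nonneg _
    split_ifs with h
    · have h4 : (b v : ℝ) ^ 2 * ζ ≤ ((s : ℝ) + 1) ^ 2 * ζ := by gcongr
      linarith
    · have h4 : (b v : ℝ) ≤ 1 := by
        have : b v ≤ 1 := by omega
        exact_mod_cast this
      nlinarith
  refine (Finset.sum_le_sum fun v _ => h1 v).trans (le_of_eq ?_)
  rw [Finset.sum_add_distrib, Finset.sum_const, Finset.card_univ, Fintype.card_fin, nsmul_eq_mul,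
    mul_one, ← Finset.sum_filter, Finset.sum_const, nsmul_eq_mul]
  rfl

theorem zt_nonneg {C ζ : ℝ} (hC : 0 ≤ C) (hζ : 1 ≤ ζ) (b : Fin n → ℕ) (t : Tri n) :
    0 ≤ zt C ζ b t := by
  unfold zt Fw Zw
  have : 0 < ζ := by linarith
  positivity

theorem sum_zt_le {C q : ℝ} (hC : 0 ≤ C) (hq4 : 4 ≤ q) (hqC : 224 * C ^ 3 ≤ q)
    (hqn : q ^ 25 = n) {s : ℕ} (hs : (s : ℝ) ≤ q) {b : Fin n → ℕ} (hb : ∀ v, b v ≤ s + 1)
    (hV : (V2 b).card ≤ s) :
    ∑ t, zt C (q ^ 15) b t ≤ 8 * C ^ 3 + (V2 b).card := by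
  have hq1 : 1 ≤ q := by linarith
  have hq0 : 0 < q := by linarith
  have hζ : (1 : ℝ) ≤ q ^ 15 := one_le_pow₀ hq1
  have hF0 : ∀ v, 0 ≤ Fw (q ^ 15) b v := by
    intro v
    unfold Fw Zw
    split_ifs <;> positivity
  have h1 : ∑ t, zt C (q ^ 15) b t ≤ 8 * (C / n) ^ 3 * (∑ v, Fw (q ^ 15) b v) ^ 3 := by
    unfold zt
    rw [← Finset.mul_sum]
    exact mul_le_mul_of_nonneg_left (sum_tri_le _ hF0) (by positivity)
  have h2 := sum_F_le hζ hb
  set k : ℝ := ((V2 b).card : ℝ) with hk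
  have hk0 : 0 ≤ k := Nat.cast_nonneg _
  have hks : k ≤ q := le_trans (by rw [hk]; exact_mod_cast hV) hs
  have hs0 : (0 : ℝ) ≤ s := Nat.cast_nonneg _
  -- `δ`
  set δ : ℝ := 4 * k / q ^ 8 with hδ
  have hδ0 : 0 ≤ δ := by positivity
  have h3 : ∑ v, Fw (q ^ 15) b v ≤ n * (1 + δ) := by
    refine h2.trans ?_
    have h4 : ((s : ℝ) + 1) ^ 2 ≤ 4 * q ^ 2 := by nlinarith
    have h5 : k * (((s : ℝ) + 1) ^ 2 * q ^ 15) ≤ k * (4 * q ^ 2 * q ^ 15) := by gcongr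
    have h6 : (n : ℝ) * δ = k * (4 * q ^ 2 * q ^ 15) := by
      rw [← hqn, hδ]
      field_simp
    linarith
  have hn0 : (0 : ℝ) < n := by rw [← hqn]; positivity
  have h4 : δ ≤ 1 := by
    rw [hδ, div_le_one (by positivity)]
    have h5 : (4 : ℝ) ≤ q ^ 7 := by
      calc (4 : ℝ) ≤ q := hq4
        _ = q ^ 1 := (pow_one q).symm
        _ ≤ q ^ 7 := pow_le_pow_right₀ hq1 (by norm_num)
    calc 4 * k ≤ q ^ 7 * q := mul_le_mul h5 hks hk0 (by positivity)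
      _ = q ^ 8 := by ring
  have h5 : 8 * (C / n) ^ 3 * (∑ v, Fw (q ^ 15) b v) ^ 3 ≤ 8 * C ^ 3 * (1 + δ) ^ 3 := by
    have h6 : (∑ v, Fw (q ^ 15) b v) ^ 3 ≤ ((n : ℝ) * (1 + δ)) ^ 3 :=
      pow_le_pow_left₀ (Finset.sum_nonneg fun v _ => hF0 v) h3 3
    calc 8 * (C / n) ^ 3 * (∑ v, Fw (q ^ 15) b v) ^ 3
        ≤ 8 * (C / n) ^ 3 * ((n : ℝ) * (1 + δ)) ^ 3 :=
          mul_le_mul_of_nonneg_left h6 (by positivity)
      _ = 8 * C ^ 3 * (1 + δ) ^ 3 := by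
          field_simp
  have h6 : (1 + δ) ^ 3 ≤ 1 + 7 * δ := by nlinarith [mul_nonneg hδ0 hδ0, sq_nonneg δ]
  have h7 : 8 * C ^ 3 * (1 + δ) ^ 3 ≤ 8 * C ^ 3 * (1 + 7 * δ) :=
    mul_le_mul_of_nonneg_left h6 (by positivity)
  have h8 : 56 * C ^ 3 * δ ≤ k := by
    have h9 : 224 * C ^ 3 ≤ q ^ 8 := by
      calc 224 * C ^ 3 ≤ q := hqC
        _ = q ^ 1 := (pow_one q).symm
        _ ≤ q ^ 8 := pow_le_pow_right₀ hq1 (by norm_num)
    rw [hδ, ← mul_div_assoc, div_le_iff₀ (by positivity)]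
    calc 56 * C ^ 3 * (4 * k) = 224 * C ^ 3 * k := by ring
      _ ≤ q ^ 8 * k := mul_le_mul_of_nonneg_right h9 hk0
      _ = k * q ^ 8 := by ring
  linarith

end ESumS

open Classical in
theorem esum_small (C : ℝ) (hC : 0 ≤ C) :
    ∃ B : ℝ, ∀ᶠ n : ℕ in atTop, ∀ s : ℕ, (s : ℝ) ≤ (n : ℝ) ^ (1 / 25 : ℝ) →
      ∑ J ∈ (univ : Finset (Finset (Tri n))).filter (fun J => 3 * J.card ≤ s), psiJ C J ≤ B := by
  refine ⟨Real.exp (8 * C ^ 3) * Real.exp (Real.exp 1), ?_⟩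
  have hlim : Tendsto (fun n : ℕ => (n : ℝ) ^ (1 / 25 : ℝ)) atTop atTop :=
    (tendsto_rpow_atTop (by norm_num)).comp tendsto_natCast_atTop_atTop
  filter_upwards [hlim.eventually_ge_atTop (max 4 (224 * C ^ 3))] with n hn s hs
  set q : ℝ := (n : ℝ) ^ (1 / 25 : ℝ) with hq
  have hq4 : 4 ≤ q := (le_max_left _ _).trans hn
  have hqC : 224 * C ^ 3 ≤ q := (le_max_right _ _).trans hn
  have hqn : q ^ 25 = n := by
    rw [hq, ← Real.rpow_natCast, ← Real.rpow_mul (Nat.cast_nonneg n)]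
    norm_num
  have hq1 : 1 ≤ q := by linarith
  have hq0 : 0 < q := by linarith
  have hζ : (1 : ℝ) ≤ q ^ 15 := one_le_pow₀ hq1
  set A : ℝ := Real.exp 1 * ((q ^ 15) ^ 2)⁻¹ with hA
  have hA0 : 0 < A := by positivity
  set 𝒥 := (univ : Finset (Finset (Tri n))).filter (fun J => 3 * J.card ≤ s) with h𝒥
  set 𝓑 : Finset (Fin n → ℕ) := Fintype.piFinset fun _ => Finset.Icc 1 (s + 1) with h𝓑
  have hmaps : ∀ J ∈ 𝒥, ESumS.bb J ∈ 𝓑 := by
    intro J hJ
    have hJ' : 3 * J.card ≤ s := (Finset.mem_filter.1 hJ).2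
    rw [h𝓑, Fintype.mem_piFinset]
    intro v
    rw [Finset.mem_Icc]
    refine ⟨ESumS.one_le_bb J v, (ESumS.bb_le J v).trans ?_⟩
    omega
  rw [← Finset.sum_fiberwise_of_maps_to hmaps]
  have key : ∀ b ∈ 𝓑, ∑ J ∈ 𝒥 with ESumS.bb J = b, psiJ C J ≤
      Real.exp (8 * C ^ 3) * ∏ v, (if 2 ≤ b v then A else 1) := by
    intro b _
    rcases (𝒥.filter fun J => ESumS.bb J = b).eq_empty_or_nonempty with h0 | ⟨J0, hJ0⟩
    · rw [h0, Finset.sum_empty]
      refine mul_nonneg (Real.exp_pos _).le (Finset.prod_nonneg fun v _ => ?_)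
      split_ifs <;> positivity
    · have hJ1 := Finset.mem_filter.1 hJ0
      have hJ2 : 3 * J0.card ≤ s := (Finset.mem_filter.1 hJ1.1).2
      have hV : (ESumS.V2 b).card ≤ s := by
        rw [← hJ1.2]; exact ESumS.V2_card J0 hJ2
      have hb : ∀ v, b v ≤ s + 1 := by
        intro v
        rw [← hJ1.2]
        exact (ESumS.bb_le J0 v).trans (by omega)
      have h1 : ∑ J ∈ 𝒥 with ESumS.bb J = b, psiJ C J ≤
          ∑ J : Finset (Tri n), (((q ^ 15) ^ 2)⁻¹) ^ (ESumS.V2 b).card *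
            ∏ t ∈ J, ESumS.zt C (q ^ 15) b t := by
        refine (Finset.sum_le_sum (g := fun J => (((q ^ 15) ^ 2)⁻¹) ^ (ESumS.V2 b).card *
            ∏ t ∈ J, ESumS.zt C (q ^ 15) b t) fun J hJ => ?_).trans
          (Finset.sum_le_sum_of_subset_of_nonneg (Finset.subset_univ _) fun J _ _ => ?_)
        · have h2 := ESumS.psi_le hC hζ J
          rwa [(Finset.mem_filter.1 hJ).2] at h2
        · exact mul_nonneg (by positivity)
            (Finset.prod_nonneg fun t _ => ESumS.zt_nonneg hC hζ b t)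
      refine h1.trans ?_
      rw [← Finset.mul_sum]
      have h2 : ∑ J : Finset (Tri n), ∏ t ∈ J, ESumS.zt C (q ^ 15) b t =
          ∏ t, (ESumS.zt C (q ^ 15) b t + 1) := by
        rw [Finset.prod_add_one, Finset.powerset_univ]
      have h3 : ∏ t, (ESumS.zt C (q ^ 15) b t + 1) ≤
          Real.exp (8 * C ^ 3) * Real.exp 1 ^ (ESumS.V2 b).card := by
        calc ∏ t, (ESumS.zt C (q ^ 15) b t + 1)
            ≤ ∏ t, Real.exp (ESumS.zt C (q ^ 15) b t) :=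
              Finset.prod_le_prod (fun t _ => by
                have := ESumS.zt_nonneg hC hζ b t
                positivity) fun t _ => Real.add_one_le_exp _
          _ = Real.exp (∑ t, ESumS.zt C (q ^ 15) b t) := (Real.exp_sum _ _).symm
          _ ≤ Real.exp (8 * C ^ 3 + (ESumS.V2 b).card) :=
              Real.exp_le_exp.2 (ESumS.sum_zt_le hC hq4 hqC hqn hs hb hV)
          _ = _ := by rw [Real.exp_add, ← Real.exp_nat_mul, mul_one]
      rw [h2, ESumS.prod_ite_card, hA, mul_pow]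
      calc (((q ^ 15) ^ 2)⁻¹) ^ (ESumS.V2 b).card * ∏ t, (ESumS.zt C (q ^ 15) b t + 1)
          ≤ (((q ^ 15) ^ 2)⁻¹) ^ (ESumS.V2 b).card *
            (Real.exp (8 * C ^ 3) * Real.exp 1 ^ (ESumS.V2 b).card) :=
            mul_le_mul_of_nonneg_left h3 (by positivity)
        _ = _ := by ring
  refine (Finset.sum_le_sum key).trans ?_
  rw [← Finset.mul_sum]
  refine mul_le_mul_of_nonneg_left ?_ (Real.exp_pos _).le
  have h1 : ∑ b ∈ 𝓑, ∏ v, (if 2 ≤ b v then A else 1) =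
      ∏ _v : Fin n, ∑ k ∈ Finset.Icc 1 (s + 1), (if 2 ≤ k then A else 1) := by
    rw [Finset.prod_univ_sum]
  rw [h1, Finset.prod_const, Finset.card_univ, Fintype.card_fin]
  have h2 : ∑ k ∈ Finset.Icc 1 (s + 1), (if 2 ≤ k then A else 1) ≤ s * A + 1 := by
    rw [← Finset.add_sum_Ioc_eq_sum_Icc (by omega : 1 ≤ s + 1)]
    have h3 : ∑ k ∈ Finset.Ioc 1 (s + 1), (if 2 ≤ k then A else 1) = s * A := by
      rw [Finset.sum_congr rfl (g := fun _ => A), Finset.sum_const, Nat.card_Ioc, nsmul_eq_mul]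
      · norm_num
      · intro k hk
        rw [Finset.mem_Ioc] at hk
        rw [if_pos (by omega)]
    rw [h3]
    norm_num
    linarith
  have h3 : 0 ≤ ∑ k ∈ Finset.Icc 1 (s + 1), (if 2 ≤ k then A else 1) :=
    Finset.sum_nonneg fun k _ => by split_ifs <;> positivity
  calc (∑ k ∈ Finset.Icc 1 (s + 1), (if 2 ≤ k then A else 1)) ^ n ≤ (s * A + 1) ^ n :=
        pow_le_pow_left₀ h3 h2 n
    _ ≤ (Real.exp (s * A)) ^ n :=
        pow_le_pow_left₀ (by positivity) (Real.add_one_le_exp _) n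
    _ = Real.exp (n * (s * A)) := (Real.exp_nat_mul _ _).symm
    _ ≤ Real.exp (Real.exp 1) := by
        refine Real.exp_le_exp.2 ?_
        rw [← hqn, hA]
        have h4 : q ^ 25 * ((s : ℝ) * (Real.exp 1 * ((q ^ 15) ^ 2)⁻¹)) =
            Real.exp 1 * (s / q ^ 5) := by
          field_simp
        rw [h4]
        have h5 : (s : ℝ) / q ^ 5 ≤ 1 := by
          rw [div_le_one (by positivity)]
          calc (s : ℝ) ≤ q := hs
            _ = q ^ 1 := (pow_one q).symm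
            _ ≤ q ^ 5 := pow_le_pow_right₀ hq1 (by norm_num)
        nlinarith [Real.exp_pos 1]

end

end Pool.Agent.DH10
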