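import Pool.Agent.DH10.NZDefs

/-!
# DH10.NZTrick : the product over the triangle edges (4.3, last part)

`∏_{e=uv ∈ EE J} (d_u + d_v) ≤ exp(η(2|S''| + |S_H|)) ∏ (d¹_u + d¹_v)/η`, `d = dgr f`, `d¹ = degE J`, `0 < η ≤ 1`.
Proof.  `b = d¹_u + d¹_v ≥ 2`, `m = (d_u - d¹_u) + (d_v - d¹_v) ≥ 0`: `b + m ≤ (b/η)(1 + η m/b) ≤ (b/η) exp(η m/b)`.
`∑_{uv ∈ EE J} m_uv/b_uv ≤ ∑_{uv} ((d_u-d¹_u)/d¹_u + (d_v-d¹_v)/d¹_v) = ∑_{u ∈ V(EE J)} (d_u - d¹_u)`
(each `u` is in `d¹_u` edges of `EE J`).  For `u ∉ H`: `d_u - d¹_u` = number of support edges at `u` not in `EE J`, so the sum is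
`≤ 2|S''| + |S_H|` (an edge of `S''` has two endpoints; an edge touching `H` has at most one endpoint outside `H`).
-/

set_option autoImplicit false

open Finset

namespace Pool.Agent.DH10

noncomputable section

variable {n : ℕ} {K : Type} [AddCommGroup K] [DecidableEq K]

/-- the edge contains the vertex -/
private def nzt_inc (u : Fin n) (e : Edg n) : Prop := e.1.1 = u ∨ e.1.2 = u

private instance nzt_dec (u : Fin n) : DecidablePred (nzt_inc u) := fun e =>
  inferInstanceAs (Decidable (e.1.1 = u ∨ e.1.2 = u))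

private theorem nzt_sum_inc (e : Edg n) (g : Fin n → ℝ) :
    ∑ u : Fin n, (if nzt_inc u e then g u else 0) = g e.1.1 + g e.1.2 := by
  have hne : e.1.1 ≠ e.1.2 := e.2.ne
  have h : ∀ u : Fin n, (if nzt_inc u e then g u else 0)
      = (if e.1.1 = u then g u else 0) + (if e.1.2 = u then g u else 0) := by
    intro u
    by_cases h1 : e.1.1 = u
    · have h2 : e.1.2 ≠ u := fun h => hne (h1.trans h.symm)
      have h3 : nzt_inc u e := Or.inl h1
      rw [if_pos h3, if_pos h1, if_neg h2, add_zero]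
    · by_cases h2 : e.1.2 = u
      · have h3 : nzt_inc u e := Or.inr h2
        rw [if_pos h3, if_neg h1, if_pos h2, zero_add]
      · have h3 : ¬ nzt_inc u e := fun h => h.elim h1 h2
        rw [if_neg h3, if_neg h1, if_neg h2, add_zero]
  rw [sum_congr rfl (fun u _ => h u), sum_add_distrib, sum_ite_eq, sum_ite_eq]
  simp

private theorem nzt_dgr (f : Coch n K) (u : Fin n) :
    dgr f u = ((suppE f).filter fun e => nzt_inc u e).card := by
  unfold dgr
  symm
  apply card_bij (fun e _ => if e.1.1 = u then e.1.2 else e.1.1)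
  · intro e he
    obtain ⟨he1, he2⟩ := mem_filter.mp he
    have he3 : f e ≠ 0 := (mem_filter.mp he1).2
    rw [mem_filter]
    refine ⟨mem_univ _, ?_⟩
    by_cases h : e.1.1 = u
    · rw [if_pos h, ← h]
      unfold val
      rw [dif_pos e.2]
      exact he3
    · rw [if_neg h]
      have h2 : e.1.2 = u := he2.resolve_left h
      rw [← h2]
      unfold val
      rw [dif_neg (not_lt.mpr e.2.le), dif_pos e.2]
      exact neg_ne_zero.mpr he3
  · intro e he e' he' hee
    obtain ⟨_, he2⟩ := mem_filter.mp he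
    obtain ⟨_, he2'⟩ := mem_filter.mp he'
    have hlt := e.2
    have hlt' := e'.2
    unfold nzt_inc at he2 he2'
    by_cases h : e.1.1 = u
    · rw [if_pos h] at hee
      by_cases h' : e'.1.1 = u
      · rw [if_pos h'] at hee
        exact Subtype.ext (Prod.ext (h.trans h'.symm) hee)
      · rw [if_neg h'] at hee
        have h2' := he2'.resolve_left h'
        exfalso
        rw [h, hee] at hlt
        rw [h2'] at hlt'
        exact lt_asymm hlt hlt'
    · rw [if_neg h] at hee
      have h2 := he2.resolve_left h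
      by_cases h' : e'.1.1 = u
      · rw [if_pos h'] at hee
        exfalso
        rw [h2, hee] at hlt
        rw [h'] at hlt'
        exact lt_asymm hlt hlt'
      · rw [if_neg h'] at hee
        have h2' := he2'.resolve_left h'
        exact Subtype.ext (Prod.ext hee (h2.trans h2'.symm))
  · intro y hy
    have hy' : val f u y ≠ 0 := (mem_filter.mp hy).2
    unfold val at hy'
    by_cases h : u < y
    · rw [dif_pos h] at hy'
      refine ⟨⟨(u, y), h⟩, ?_, ?_⟩
      · rw [mem_filter]
        exact ⟨mem_filter.mpr ⟨mem_univ _, hy'⟩, Or.inl rfl⟩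
      · exact if_pos rfl
    · rw [dif_neg h] at hy'
      by_cases h' : y < u
      · rw [dif_pos h'] at hy'
        refine ⟨⟨(y, u), h'⟩, ?_, ?_⟩
        · rw [mem_filter]
          exact ⟨mem_filter.mpr ⟨mem_univ _, fun h0 => hy' (by rw [h0, neg_zero])⟩, Or.inr rfl⟩
        · exact if_neg h'.ne
      · rw [dif_neg h'] at hy'
        exact absurd rfl hy'

private theorem nzt_degE (J : Finset (Tri n)) (u : Fin n) :
    degE J u = ((EE J).filter fun e => nzt_inc u e).card := rfl

theorem trick (H : Finset (Fin n)) (f : Coch n K) {J : Finset (Tri n)} (hJ : MaxFam H f J) {η : ℝ}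
    (hη : 0 < η) (hη1 : η ≤ 1) :
    ∏ e ∈ EE J, ((dgr f e.1.1 : ℝ) + dgr f e.1.2)
      ≤ Real.exp (η * (2 * (S2 H f J).card + (SH H f).card)) *
        ∏ e ∈ EE J, (((degE J e.1.1 : ℝ) + degE J e.1.2) / η) := by
  obtain ⟨_, hfull, _⟩ := hJ
  have hsub : EE J ⊆ suppE f := by
    intro e he
    obtain ⟨t, ht, het⟩ := mem_biUnion.mp he
    exact (hfull t ht).2.1 het
  have hlow : EE J ⊆ low H := by
    intro e he
    obtain ⟨t, ht, het⟩ := mem_biUnion.mp he
    exact (hfull t ht).2.2 het
  -- the excess at a vertex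
  obtain ⟨m, hm⟩ : ∃ m : Fin n → ℝ, m = fun u =>
      (((suppE f \ EE J).filter fun e => nzt_inc u e).card : ℝ) := ⟨_, rfl⟩
  have hm0 : ∀ u, 0 ≤ m u := by
    intro u
    rw [hm]
    exact Nat.cast_nonneg _
  have hd : ∀ u, (dgr f u : ℝ) = degE J u + m u := by
    intro u
    rw [nzt_dgr, nzt_degE, hm, ← Nat.cast_add]
    congr 1
    rw [← card_union_of_disjoint, ← filter_union, union_sdiff_of_subset hsub]
    exact disjoint_filter_filter disjoint_sdiff
  -- bound for the total excess
  have htot : ∑ u ∈ univ.filter (fun u => u ∉ H), m u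
      ≤ 2 * (S2 H f J).card + (SH H f).card := by
    have h1 : ∀ u, m u = ∑ e ∈ suppE f \ EE J, (if nzt_inc u e then (1 : ℝ) else 0) := by
      intro u
      rw [hm, sum_boole]
    rw [sum_congr rfl (fun u _ => h1 u), sum_comm]
    have h2 : suppE f \ EE J ⊆ S2 H f J ∪ SH H f := by
      intro e he
      obtain ⟨he1, he2⟩ := mem_sdiff.mp he
      rw [mem_union]
      by_cases hl : e ∈ low H
      · left
        exact mem_sdiff.mpr ⟨mem_inter.mpr ⟨he1, hl⟩, he2⟩
      · right
        exact mem_sdiff.mpr ⟨he1, hl⟩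
    refine (sum_le_sum_of_subset_of_nonneg h2 (fun e _ _ => sum_nonneg (fun u _ => by
      split_ifs <;> norm_num))).trans ?_
    have hdisj : Disjoint (S2 H f J) (SH H f) := by
      rw [disjoint_left]
      intro e he he'
      have a1 := (mem_inter.mp (mem_sdiff.mp he).1).2
      exact (mem_sdiff.mp he').2 a1
    rw [sum_union hdisj]
    apply add_le_add
    · have h3 : ∀ e ∈ S2 H f J, ∑ u ∈ univ.filter (fun u => u ∉ H),
          (if nzt_inc u e then (1 : ℝ) else 0) ≤ 2 := by
        intro e _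
        refine (sum_le_sum_of_subset_of_nonneg (subset_univ _) (fun u _ _ => by
          split_ifs <;> norm_num)).trans ?_
        rw [nzt_sum_inc e (fun _ => (1 : ℝ))]
        norm_num
      refine (sum_le_sum h3).trans ?_
      rw [sum_const, nsmul_eq_mul, mul_comm]
    · have h3 : ∀ e ∈ SH H f, ∑ u ∈ univ.filter (fun u => u ∉ H),
          (if nzt_inc u e then (1 : ℝ) else 0) ≤ 1 := by
        intro e he
        have h4 := (mem_sdiff.mp he).2
        have h5 : ∑ u ∈ univ.filter (fun u => u ∉ H), (if nzt_inc u e then (1 : ℝ) else 0)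
            = ∑ u : Fin n, (if nzt_inc u e then (if u ∉ H then (1 : ℝ) else 0) else 0) := by
          rw [sum_filter]
          apply sum_congr rfl
          intro u _
          split_ifs <;> rfl
        rw [h5, nzt_sum_inc e (fun u => if u ∉ H then (1 : ℝ) else 0)]
        have h6 : e.1.1 ∈ H ∨ e.1.2 ∈ H := by
          by_contra hcon
          push Not at hcon
          exact h4 (mem_filter.mpr ⟨mem_univ _, hcon⟩)
        rcases h6 with h6 | h6
        · rw [if_neg (not_not.mpr h6)]
          split_ifs <;> norm_num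
        · have h7 : (if e.1.2 ∉ H then (1 : ℝ) else 0) = 0 := if_neg (not_not.mpr h6)
          rw [h7]
          split_ifs <;> norm_num
      refine (sum_le_sum h3).trans ?_
      rw [sum_const, nsmul_eq_mul, mul_one]
  -- degrees at the ends of the edges are positive
  have hpos : ∀ e ∈ EE J, (1 : ℝ) ≤ degE J e.1.1 ∧ (1 : ℝ) ≤ degE J e.1.2 := by
    intro e he
    constructor
    · have : 0 < degE J e.1.1 := card_pos.mpr ⟨e, mem_filter.mpr ⟨he, Or.inl rfl⟩⟩
      exact_mod_cast this
    · have : 0 < degE J e.1.2 := card_pos.mpr ⟨e, mem_filter.mpr ⟨he, Or.inr rfl⟩⟩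
      exact_mod_cast this
  -- sum of the relative excesses
  have hrel : ∑ e ∈ EE J, (m e.1.1 + m e.1.2) / ((degE J e.1.1 : ℝ) + degE J e.1.2)
      ≤ 2 * (S2 H f J).card + (SH H f).card := by
    have h1 : ∀ e ∈ EE J, (m e.1.1 + m e.1.2) / ((degE J e.1.1 : ℝ) + degE J e.1.2)
        ≤ m e.1.1 / degE J e.1.1 + m e.1.2 / degE J e.1.2 := by
      intro e he
      obtain ⟨p1, p2⟩ := hpos e he
      rw [add_div]
      apply add_le_add
      · exact div_le_div_of_nonneg_left (hm0 _) (by linarith) (by linarith)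
      · exact div_le_div_of_nonneg_left (hm0 _) (by linarith) (by linarith)
    refine (sum_le_sum h1).trans ?_
    have h2 : ∑ e ∈ EE J, (m e.1.1 / degE J e.1.1 + m e.1.2 / degE J e.1.2)
        = ∑ u : Fin n, ∑ e ∈ EE J, (if nzt_inc u e then m u / degE J u else 0) := by
      rw [sum_comm]
      apply sum_congr rfl
      intro e _
      rw [nzt_sum_inc e (fun u => m u / degE J u)]
    rw [h2]
    refine le_trans ?_ htot
    rw [sum_filter]
    apply sum_le_sum
    intro u _
    rw [← sum_filter, sum_const, nsmul_eq_mul, ← nzt_degE]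
    by_cases hz : degE J u = 0
    · rw [hz]
      simp only [Nat.cast_zero, zero_mul]
      by_cases hu : u ∉ H
      · rw [if_pos hu]
        exact hm0 u
      · rw [if_neg hu]
    · have hu : u ∉ H := by
        obtain ⟨e, he⟩ := card_pos.mp (Nat.pos_of_ne_zero hz)
        obtain ⟨he1, he2⟩ := mem_filter.mp he
        have := (mem_filter.mp (hlow he1)).2
        rcases he2 with he2 | he2
        · rw [← he2]
          exact this.1
        · rw [← he2]
          exact this.2
      rw [if_pos hu]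
      apply le_of_eq
      have : (degE J u : ℝ) ≠ 0 := by exact_mod_cast hz
      field_simp
  -- conclusion
  have hstep : ∀ e ∈ EE J, ((dgr f e.1.1 : ℝ) + dgr f e.1.2)
      ≤ Real.exp (η * ((m e.1.1 + m e.1.2) / ((degE J e.1.1 : ℝ) + degE J e.1.2)))
        * (((degE J e.1.1 : ℝ) + degE J e.1.2) / η) := by
    intro e he
    obtain ⟨p1, p2⟩ := hpos e he
    rw [hd, hd]
    have hb : 0 < (degE J e.1.1 : ℝ) + degE J e.1.2 := by linarith
    have hm1 : 0 ≤ m e.1.1 + m e.1.2 := add_nonneg (hm0 _) (hm0 _)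
    have h1 := Real.add_one_le_exp
      (η * ((m e.1.1 + m e.1.2) / ((degE J e.1.1 : ℝ) + degE J e.1.2)))
    have h2 : (η * ((m e.1.1 + m e.1.2) / ((degE J e.1.1 : ℝ) + degE J e.1.2)) + 1)
        * (((degE J e.1.1 : ℝ) + degE J e.1.2) / η)
        = (m e.1.1 + m e.1.2) + ((degE J e.1.1 : ℝ) + degE J e.1.2) / η := by
      field_simp
    have h3 : (degE J e.1.1 : ℝ) + degE J e.1.2 ≤ ((degE J e.1.1 : ℝ) + degE J e.1.2) / η := by
      rw [le_div_iff₀ hη]
      nlinarith
    calc (degE J e.1.1 : ℝ) + m e.1.1 + (degE J e.1.2 + m e.1.2)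
        ≤ (m e.1.1 + m e.1.2) + ((degE J e.1.1 : ℝ) + degE J e.1.2) / η := by linarith
      _ = (η * ((m e.1.1 + m e.1.2) / ((degE J e.1.1 : ℝ) + degE J e.1.2)) + 1)
        * (((degE J e.1.1 : ℝ) + degE J e.1.2) / η) := h2.symm
      _ ≤ _ := mul_le_mul_of_nonneg_right h1 (by positivity)
  refine (prod_le_prod (fun e _ => by positivity) hstep).trans ?_
  rw [prod_mul_distrib]
  apply mul_le_mul_of_nonneg_right _ (prod_nonneg (fun e _ => by positivity))
  rw [← Real.exp_sum, ← mul_sum]
  exact Real.exp_le_exp.mpr (mul_le_mul_of_nonneg_left hrel hη.le)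

private theorem nzt_ne (t : Tri n) : t.ab ≠ t.bc ∧ t.ab ≠ t.ac ∧ t.bc ≠ t.ac := by
  refine ⟨?_, ?_, ?_⟩
  · intro h
    have := congrArg (fun q : Edg n => q.1.1) h
    exact t.2.1.ne this
  · intro h
    have := congrArg (fun q : Edg n => q.1.2) h
    exact t.2.2.ne this
  · intro h
    have := congrArg (fun q : Edg n => q.1.1) h
    exact t.2.1.ne this.symm

private theorem nzt_sum_edges (t : Tri n) (F : Edg n → ℕ) :
    ∑ e ∈ t.edges, F e = F t.ab + F t.bc + F t.ac := by
  obtain ⟨h1, h2, h3⟩ := nzt_ne t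
  unfold Tri.edges
  rw [sum_insert (by simp [h1, h2]), sum_insert (by simp [h3]), sum_singleton, add_assoc]

private theorem nzt_prod_edges (t : Tri n) (F : Edg n → ℝ) :
    ∏ e ∈ t.edges, F e = F t.ab * F t.bc * F t.ac := by
  obtain ⟨h1, h2, h3⟩ := nzt_ne t
  unfold Tri.edges
  rw [prod_insert (by simp [h1, h2]), prod_insert (by simp [h3]), prod_singleton, mul_assoc]

private theorem nzt_pd {J : Finset (Tri n)} (hJ : EDisj J) :
    (J : Set (Tri n)).PairwiseDisjoint Tri.edges := fun t ht t' ht' h => hJ t ht t' ht' h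

/-- for edge-disjoint families -/
theorem degE_eq_tc {J : Finset (Tri n)} (hJ : EDisj J) (v : Fin n) : degE J v = 2 * tc J v := by
  have h1 : degE J v = ∑ e ∈ EE J, (if nzt_inc v e then 1 else 0) := by
    rw [nzt_degE, card_filter]
  have h2 : tc J v = ∑ t ∈ J, (if v ∈ t.verts then 1 else 0) := by
    unfold tc
    rw [card_filter]
  rw [h1, h2, mul_sum]
  unfold EE
  rw [sum_biUnion (nzt_pd hJ)]
  apply sum_congr rfl
  intro t _
  rw [nzt_sum_edges]
  have hab : t.a < t.b := t.2.1
  have hbc : t.b < t.c := t.2.2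
  have e1 : nzt_inc v t.ab ↔ t.a = v ∨ t.b = v := Iff.rfl
  have e2 : nzt_inc v t.bc ↔ t.b = v ∨ t.c = v := Iff.rfl
  have e3 : nzt_inc v t.ac ↔ t.a = v ∨ t.c = v := Iff.rfl
  have e4 : v ∈ t.verts ↔ v = t.a ∨ v = t.b ∨ v = t.c := by
    unfold Tri.verts
    simp
  rw [if_congr e1 rfl rfl, if_congr e2 rfl rfl, if_congr e3 rfl rfl, if_congr e4 rfl rfl]
  by_cases a1 : v = t.a
  · have n2 : ¬ t.b = v := fun h => hab.ne (a1.symm.trans h.symm)
    have n3 : ¬ t.c = v := fun h => (hab.trans hbc).ne (a1.symm.trans h.symm)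
    simp [a1.symm, n2, n3]
  · by_cases a2 : v = t.b
    · have n1 : ¬ t.a = v := fun h => a1 h.symm
      have n3 : ¬ t.c = v := fun h => hbc.ne (a2.symm.trans h.symm)
      simp [a2.symm, n1, n3]
    · by_cases a3 : v = t.c
      · have n1 : ¬ t.a = v := fun h => a1 h.symm
        have n2 : ¬ t.b = v := fun h => a2 h.symm
        simp [a3.symm, n1, n2]
      · have n1 : ¬ t.a = v := fun h => a1 h.symm
        have n2 : ¬ t.b = v := fun h => a2 h.symm
        have n3 : ¬ t.c = v := fun h => a3 h.symm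
        simp [a1, a2, a3, n1, n2, n3]

theorem EE_card {J : Finset (Tri n)} (hJ : EDisj J) : (EE J).card = 3 * J.card := by
  rw [card_eq_sum_ones]
  unfold EE
  rw [sum_biUnion (nzt_pd hJ), sum_congr rfl (fun t _ => nzt_sum_edges t (fun _ => 1)), sum_const,
    smul_eq_mul, mul_comm]

theorem prod_eq_psiJ {J : Finset (Tri n)} (hJ : EDisj J) {η : ℝ} (hη : 0 < η) :
    ∏ e ∈ EE J, (((degE J e.1.1 : ℝ) + degE J e.1.2) / (η * n)) = psiJ (2 / η) J := by
  unfold EE psiJ
  rw [prod_biUnion (nzt_pd hJ)]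
  apply prod_congr rfl
  intro t _
  rw [nzt_prod_edges]
  have h : ∀ v, (degE J v : ℝ) = 2 * tc J v := by
    intro v
    rw [degE_eq_tc hJ]
    push_cast
    ring
  have e1 : t.ab.1.1 = t.a := rfl
  have e2 : t.ab.1.2 = t.b := rfl
  have e3 : t.bc.1.1 = t.b := rfl
  have e4 : t.bc.1.2 = t.c := rfl
  have e5 : t.ac.1.1 = t.a := rfl
  have e6 : t.ac.1.2 = t.c := rfl
  rw [e1, e2, e3, e4, e5, e6, h, h, h]
  rcases eq_or_ne (n : ℝ) 0 with h0 | h0
  · rw [h0]
    simp
  · field_simp

end

end Pool.Agent.DH10
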