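import Pool.Agent.DH10.NZItem
import Pool.Agent.DH10.NZTrick

/-!
# DH10.NZSum : summation with the forest lemma (4.10)/(4.11)

`H`, a hub part `φ` (only its values on edges touching `H` matter), a finite set `Fm` of cochains which agree with `φ` on the
edges touching `H` and have `sl` support edges in `low H`, a choice `Jf f` of maximal families lying in a set `Js`.
Claim: `∑_{f∈Fm} n^{-|S''|} det(lapMu ...) ∏_{EE J} (d¹+d¹)/(ηn)
   ≤ ξ^{-sl} exp(T/(2n) ∑_{x∈H} XX H φ x) ∑_{J∈Js} psiJ (2 k exp(4 T k)/η) J`,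
where `0 < ξ ≤ 1`, `0 ≤ T`, `2 ξ ≤ T e^{-T}`, `k = |K|`.
Proof.  `|S''| = sl - 3|J|` (`EE_card`, `EE J ⊆ suppE f ∩ low H`), so `n^{-|S''|} = ξ^{-|S''|} (ξ/n)^{|S''|} ≤ ξ^{-sl} (ξ/n)^{|S''|}`.
`f ↦ (Jf f, f restricted to EE (Jf f), I = (S2 H f J).image (arcOf P f))` is injective on `Fm` (on `S2` the value is read off from
the arcs, on `EE J` given, on the edges touching `H` equal to `φ`, `0` elsewhere), and `|I| = |S2|`.  `muF P H f J` depends
only on `φ, H, J` (`val f x y = val φ x y` for `x ∈ H`): call it `μ_J`.  So the sum is at most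
`ξ^{-sl} ∑_J ∑_{v : EE J → K} psiJ (2/η) J ∑_{I ⊆ Arc} (ξ/n)^{|I|} det (lapMu (arcG n K) μ_J I)`
(`prod_eq_psiJ`; `det_lapMu_nonneg`), and `forest_lemma` with `Δ = 2n`, `x = ξ/n`, `g = T/(2n)`
(`x(1+g)^{2n} ≤ (ξ/n) e^T ≤ T/(2n)`; the degree in `arcG` is `≤ 2(n-1)`) bounds the last sum by
`∏ (1+gμ) ≤ exp(g ∑ μ_J)`.  `∑_ω h_ω = ∑_{x∈H} XX H φ x` (for `x ∈ H` and a low edge `{u,v}` with `b = f(x,v)-f(x,u) ≠ 0` exactly
one of the arcs `(u,v,b)`, `(v,u,-b)` has its value in `P`), and `∑_ω 2(d¹_x+d¹_y) = 4 k n ∑_x d¹_x = 8 k n |EE J| = 24 k n |J|`.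
So the `J`-factor is `k^{3|J|} exp(12 T k |J|) psiJ (2/η) J = psiJ (2 k e^{4Tk}/η) J`.
-/

set_option autoImplicit false

open Finset

namespace Pool.Agent.DH10

noncomputable section

private theorem nzs_psi_nonneg {n : ℕ} {C : ℝ} (hC : 0 ≤ C) (J : Finset (Tri n)) :
    0 ≤ psiJ C J := by
  unfold psiJ
  exact Finset.prod_nonneg fun t _ => by positivity

private theorem nzs_psi_mul {n : ℕ} (C D : ℝ) (J : Finset (Tri n)) :
    psiJ (C * D) J = D ^ (3 * J.card) * psiJ C J := by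
  unfold psiJ
  rw [pow_mul, ← Finset.prod_const, ← Finset.prod_mul_distrib]
  refine Finset.prod_congr rfl fun t _ => ?_
  ring

section
variable {n : ℕ} {K : Type} [AddCommGroup K] [DecidableEq K]

omit [DecidableEq K] in
private theorem nzs_val {f φ : Coch n K} {H : Finset (Fin n)} (h1 : ∀ e, e ∉ low H → f e = φ e)
    {x : Fin n} (hx : x ∈ H) (y : Fin n) : val f x y = val φ x y := by
  unfold val
  split_ifs with h h'
  · exact h1 _ (by simp [low, hx])
  · rw [h1 _ (by simp [low, hx])]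
  · rfl

private theorem nzs_mu {f φ : Coch n K} {H : Finset (Fin n)} (h1 : ∀ e, e ∉ low H → f e = φ e)
    (P : Finset K) (J : Finset (Tri n)) : muF P H f J = muF P H φ J := by
  funext ω
  unfold muF
  have h2 : (H.filter fun h => val f h ω.2.1 - val f h ω.1 = ω.2.2) =
      H.filter fun h => val φ h ω.2.1 - val φ h ω.1 = ω.2.2 :=
    Finset.filter_congr fun h hh => by rw [nzs_val h1 hh, nzs_val h1 hh]
  rw [h2]

private theorem nzs_mu_nonneg (P : Finset K) (H : Finset (Fin n)) (φ : Coch n K)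
    (J : Finset (Tri n)) (ω : Arc n K) : 0 ≤ muF P H φ J ω := by
  unfold muF
  split_ifs <;> positivity

omit [AddCommGroup K] in
private theorem nzs_deg [Fintype K] (ω : Arc n K) :
    (univ.filter fun k => (arcG n K).Adj ω k).card ≤ 2 * n := by
  have hsub : (univ.filter fun k => (arcG n K).Adj ω k) ⊆
      (univ.image fun y : Fin n => ((ω.1, y, ω.2.2) : Arc n K)) ∪
        (univ.image fun x : Fin n => ((x, ω.2.1, ω.2.2) : Arc n K)) := by
    intro k hk
    rw [mem_filter] at hk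
    obtain ⟨_, h1, h2⟩ := hk
    rw [mem_union, mem_image, mem_image]
    rcases h2 with ⟨h3, _⟩ | ⟨_, h3⟩
    · left
      exact ⟨k.2.1, mem_univ _, by rw [h3, h1]⟩
    · right
      exact ⟨k.1, mem_univ _, by rw [h3, h1]⟩
  calc (univ.filter fun k => (arcG n K).Adj ω k).card ≤ _ := card_le_card hsub
    _ ≤ _ := card_union_le _ _
    _ ≤ n + n := Nat.add_le_add (card_image_le.trans (by simp)) (card_image_le.trans (by simp))
    _ = 2 * n := by ring

private theorem nzs_degsum (J : Finset (Tri n)) : ∑ x : Fin n, degE J x = 2 * (EE J).card := by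
  unfold degE
  simp only [Finset.card_filter]
  rw [Finset.sum_comm, mul_comm, ← smul_eq_mul, ← Finset.sum_const]
  refine Finset.sum_congr rfl fun e _ => ?_
  rw [← Finset.card_filter]
  have h : (univ.filter fun x => e.1.1 = x ∨ e.1.2 = x) = {e.1.1, e.1.2} := by
    ext x
    simp only [mem_filter, mem_univ, true_and, mem_insert, mem_singleton]
    tauto
  rw [h, card_pair e.2.ne]

/-- the arcs with a given label at `h` -/
private theorem nzs_arcs [Fintype K] {P : Finset K} (hP : IsHalf P) (H : Finset (Fin n))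
    (φ : Coch n K) (h : Fin n) :
    (univ.filter fun ω : Arc n K => (ω.1 ≠ ω.2.1 ∧ ω.1 ∉ H ∧ ω.2.1 ∉ H ∧ ω.2.2 ∈ P) ∧
      val φ h ω.2.1 - val φ h ω.1 = ω.2.2).card ≤ XX H φ h := by
  let G : Edg n → Arc n K := fun e =>
    if val φ h e.1.2 - val φ h e.1.1 ∈ P then (e.1.1, e.1.2, val φ h e.1.2 - val φ h e.1.1)
    else (e.1.2, e.1.1, -(val φ h e.1.2 - val φ h e.1.1))
  have hsub : (univ.filter fun ω : Arc n K => (ω.1 ≠ ω.2.1 ∧ ω.1 ∉ H ∧ ω.2.1 ∉ H ∧ ω.2.2 ∈ P) ∧
      val φ h ω.2.1 - val φ h ω.1 = ω.2.2) ⊆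
      ((low H).filter fun e => val φ h e.1.1 ≠ val φ h e.1.2).image G := by
    rintro ⟨u, v, a⟩ hω
    simp only [mem_filter, mem_univ, true_and] at hω
    obtain ⟨⟨h1, h2, h3, h4⟩, h5⟩ := hω
    have ha : a ≠ 0 := fun e => hP.1 (e ▸ h4)
    have hna : -a ∉ P := (hP.2 a ha).1 h4
    rw [mem_image]
    rcases lt_or_gt_of_ne h1 with h6 | h6
    · refine ⟨⟨(u, v), h6⟩, ?_, ?_⟩
      · simp only [mem_filter, low, mem_univ, true_and]
        refine ⟨⟨h2, h3⟩, fun e => ha ?_⟩
        rw [← h5, e, sub_self]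
      · simp only [G, h5, h4, if_true]
    · refine ⟨⟨(v, u), h6⟩, ?_, ?_⟩
      · simp only [mem_filter, low, mem_univ, true_and]
        refine ⟨⟨h3, h2⟩, fun e => ha ?_⟩
        rw [← h5, e, sub_self]
      · have h7 : val φ h u - val φ h v = -a := by rw [← h5, neg_sub]
        simp only [G, h7, hna, if_false, neg_neg]
  exact (card_le_card hsub).trans card_image_le

private theorem nzs_hsum [Fintype K] {P : Finset K} (hP : IsHalf P) (H : Finset (Fin n))
    (φ : Coch n K) :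
    ∑ ω : Arc n K, (if ω.1 ≠ ω.2.1 ∧ ω.1 ∉ H ∧ ω.2.1 ∉ H ∧ ω.2.2 ∈ P then
      (H.filter fun h => val φ h ω.2.1 - val φ h ω.1 = ω.2.2).card else 0) ≤
      ∑ x ∈ H, XX H φ x := by
  have h1 : ∀ ω : Arc n K, (if ω.1 ≠ ω.2.1 ∧ ω.1 ∉ H ∧ ω.2.1 ∉ H ∧ ω.2.2 ∈ P then
      (H.filter fun h => val φ h ω.2.1 - val φ h ω.1 = ω.2.2).card else 0) =
      ∑ h ∈ H, if ((ω.1 ≠ ω.2.1 ∧ ω.1 ∉ H ∧ ω.2.1 ∉ H ∧ ω.2.2 ∈ P) ∧
        val φ h ω.2.1 - val φ h ω.1 = ω.2.2) then 1 else 0 := by
    intro ω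
    by_cases hc : ω.1 ≠ ω.2.1 ∧ ω.1 ∉ H ∧ ω.2.1 ∉ H ∧ ω.2.2 ∈ P
    · rw [if_pos hc, Finset.card_filter]
      refine Finset.sum_congr rfl fun h _ => ?_
      by_cases h2 : val φ h ω.2.1 - val φ h ω.1 = ω.2.2
      · rw [if_pos h2, if_pos ⟨hc, h2⟩]
      · rw [if_neg h2, if_neg (fun h3 => h2 h3.2)]
    · rw [if_neg hc]
      symm
      exact Finset.sum_eq_zero fun h _ => if_neg fun h3 => hc h3.1
  rw [Finset.sum_congr rfl fun ω _ => h1 ω, Finset.sum_comm]
  refine Finset.sum_le_sum fun h _ => ?_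
  rw [← Finset.card_filter]
  exact nzs_arcs hP H φ h

private theorem nzs_musum [Fintype K] {P : Finset K} (hP : IsHalf P) (H : Finset (Fin n))
    (φ : Coch n K) {J : Finset (Tri n)} (hJ : EDisj J) :
    ∑ ω : Arc n K, muF P H φ J ω ≤
      (∑ x ∈ H, (XX H φ x : ℝ)) + 24 * Fintype.card K * n * J.card := by
  have e1 : ∑ ω : Arc n K, muF P H φ J ω =
      ((∑ ω : Arc n K, (if ω.1 ≠ ω.2.1 ∧ ω.1 ∉ H ∧ ω.2.1 ∉ H ∧ ω.2.2 ∈ P then
        (H.filter fun h => val φ h ω.2.1 - val φ h ω.1 = ω.2.2).card else 0 : ℕ) : ℕ) : ℝ) +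
      ∑ ω : Arc n K, 2 * ((degE J ω.1 : ℝ) + degE J ω.2.1) := by
    unfold muF
    rw [Finset.sum_add_distrib]
    congr 1
    push_cast
    rfl
  have hd : ∑ x : Fin n, (degE J x : ℝ) = 6 * J.card := by
    have h := nzs_degsum J
    rw [EE_card hJ] at h
    have h2 : ((∑ x : Fin n, degE J x : ℕ) : ℝ) = ((2 * (3 * J.card) : ℕ) : ℝ) := by rw [h]
    push_cast at h2
    rw [h2]
    ring
  have e2 : ∑ ω : Arc n K, 2 * ((degE J ω.1 : ℝ) + degE J ω.2.1) =
      24 * Fintype.card K * n * J.card := by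
    rw [Fintype.sum_prod_type]
    simp only [Fintype.sum_prod_type, Finset.sum_const, Finset.card_univ, nsmul_eq_mul]
    have e3 : ∀ x : Fin n, ∑ y : Fin n, (Fintype.card K : ℝ) * (2 * ((degE J x : ℝ) + degE J y)) =
        2 * Fintype.card K * (n * degE J x) + 2 * Fintype.card K * (6 * J.card) := by
      intro x
      rw [← hd, ← Finset.mul_sum, ← Finset.mul_sum, Finset.sum_add_distrib, Finset.sum_const,
        Finset.card_univ, Fintype.card_fin, nsmul_eq_mul]
      ring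
    rw [Finset.sum_congr rfl fun x _ => e3 x, Finset.sum_add_distrib, ← Finset.mul_sum,
      ← Finset.mul_sum, hd, Finset.sum_const, Finset.card_univ, Fintype.card_fin, nsmul_eq_mul]
    ring
  rw [e1, e2]
  have h1 : ((∑ ω : Arc n K, (if ω.1 ≠ ω.2.1 ∧ ω.1 ∉ H ∧ ω.2.1 ∉ H ∧ ω.2.2 ∈ P then
        (H.filter fun h => val φ h ω.2.1 - val φ h ω.1 = ω.2.2).card else 0 : ℕ) : ℕ) : ℝ) ≤
      ∑ x ∈ H, (XX H φ x : ℝ) := by
    have h := nzs_hsum hP H φ
    exact_mod_cast h
  linarith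

/-- recovery of the cochain from its arcs -/
private theorem nzs_inj {P : Finset K} {H : Finset (Fin n)} {φ f f' : Coch n K}
    {J : Finset (Tri n)} (h1 : ∀ e, e ∉ low H → f e = φ e) (h1' : ∀ e, e ∉ low H → f' e = φ e)
    (h2 : ∀ e ∈ EE J, f e = f' e)
    (h3 : (S2 H f J).image (arcOf P f) = (S2 H f' J).image (arcOf P f')) : f = f' := by
  have key : ∀ (f f' : Coch n K), (S2 H f J).image (arcOf P f) ⊆ (S2 H f' J).image (arcOf P f') →
      ∀ e ∈ S2 H f J, f e = f' e := by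
    intro f f' hs e he
    have h4 := hs (mem_image_of_mem _ he)
    rw [mem_image] at h4
    obtain ⟨e', he', h5⟩ := h4
    have hlt := e.2
    have hlt' := e'.2
    unfold arcOf at h5
    split_ifs at h5 with ha hb hb
    · rw [Prod.mk.injEq, Prod.mk.injEq] at h5
      obtain ⟨h6, h7, h8⟩ := h5
      have h9 : e' = e := Subtype.ext (Prod.ext h6 h7)
      rw [← h8, h9]
    · rw [Prod.mk.injEq, Prod.mk.injEq] at h5
      obtain ⟨h6, h7, -⟩ := h5
      rw [h6, h7] at hlt'
      exact absurd hlt' (not_lt.2 hlt.le)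
    · rw [Prod.mk.injEq, Prod.mk.injEq] at h5
      obtain ⟨h6, h7, -⟩ := h5
      rw [← h6, ← h7] at hlt
      exact absurd hlt (not_lt.2 hlt'.le)
    · rw [Prod.mk.injEq, Prod.mk.injEq] at h5
      obtain ⟨h6, h7, h8⟩ := h5
      have h9 : e' = e := Subtype.ext (Prod.ext h7 h6)
      rw [neg_inj, h9] at h8
      exact h8.symm
  funext e
  by_cases hl : e ∈ low H
  · by_cases hE : e ∈ EE J
    · exact h2 e hE
    · by_cases hs : e ∈ S2 H f J
      · exact key f f' h3.le e hs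
      · by_cases hs' : e ∈ S2 H f' J
        · exact (key f' f h3.ge e hs').symm
        · have a1 : f e = 0 := by
            by_contra hne
            exact hs (by simp [S2, suppE, hne, hl, hE])
          have a2 : f' e = 0 := by
            by_contra hne
            exact hs' (by simp [S2, suppE, hne, hl, hE])
          rw [a1, a2]
  · rw [h1 e hl, h1' e hl]

private theorem nzs_inner [Fintype K] {P : Finset K} (H : Finset (Fin n))
    (φ : Coch n K) (J : Finset (Tri n)) (F : Finset (Coch n K))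
    (hF : ∀ f ∈ F, ∀ e, e ∉ low H → f e = φ e) {x g : ℝ} (hx : 0 ≤ x) (hg : 0 ≤ g)
    (hxg : x * (1 + g) ^ (2 * n) ≤ g) :
    ∑ f ∈ F, x ^ ((S2 H f J).image (arcOf P f)).card *
      (lapMu (arcG n K) (muF P H φ J) ((S2 H f J).image (arcOf P f))).det ≤
      (Fintype.card K : ℝ) ^ (EE J).card * Real.exp (g * ∑ ω, muF P H φ J ω) := by
  let V : Finset (Edg n → K) := Fintype.piFinset fun e => if e ∈ EE J then univ else {0}
  let Φ : Coch n K → (Edg n → K) × Finset (Arc n K) := fun f =>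
    (fun e => if e ∈ EE J then f e else 0, (S2 H f J).image (arcOf P f))
  let W : (Edg n → K) × Finset (Arc n K) → ℝ := fun p =>
    x ^ p.2.card * (lapMu (arcG n K) (muF P H φ J) p.2).det
  have hW : ∀ p, 0 ≤ W p := fun p =>
    mul_nonneg (pow_nonneg hx _) (det_lapMu_nonneg _ (nzs_mu_nonneg P H φ J) _)
  have hinj : Set.InjOn Φ (F : Set (Coch n K)) := by
    intro f hf f' hf' h
    have ha : (fun e => if e ∈ EE J then f e else 0) = fun e => if e ∈ EE J then f' e else 0 :=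
      congrArg Prod.fst h
    have hb : (S2 H f J).image (arcOf P f) = (S2 H f' J).image (arcOf P f') :=
      congrArg Prod.snd h
    refine nzs_inj (hF f hf) (hF f' hf') (fun e he => ?_) hb
    have h2 := congrFun ha e
    simpa [he] using h2
  have hsub : F.image Φ ⊆ V ×ˢ (univ : Finset (Finset (Arc n K))) := by
    intro p hp
    rw [mem_image] at hp
    obtain ⟨f, -, rfl⟩ := hp
    rw [mem_product]
    refine ⟨?_, mem_univ _⟩
    rw [Fintype.mem_piFinset]
    intro e
    simp only [Φ]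
    split_ifs with he
    · exact mem_univ _
    · exact mem_singleton_self _
  have hV : (V.card : ℝ) = (Fintype.card K : ℝ) ^ (EE J).card := by
    have h1 : V.card = Fintype.card K ^ (EE J).card := by
      simp only [V, Fintype.card_piFinset]
      have h2 : ∀ e : Edg n, (if e ∈ EE J then (univ : Finset K) else {0}).card =
          if e ∈ EE J then Fintype.card K else 1 := by
        intro e
        split_ifs
        · exact Finset.card_univ
        · exact Finset.card_singleton _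
      rw [Finset.prod_congr rfl fun e _ => h2 e, Finset.prod_ite_mem, Finset.univ_inter,
        Finset.prod_const]
    rw [h1]
    push_cast
    rfl
  calc ∑ f ∈ F, x ^ ((S2 H f J).image (arcOf P f)).card *
      (lapMu (arcG n K) (muF P H φ J) ((S2 H f J).image (arcOf P f))).det
      = ∑ f ∈ F, W (Φ f) := rfl
    _ = ∑ p ∈ F.image Φ, W p := (Finset.sum_image hinj).symm
    _ ≤ ∑ p ∈ V ×ˢ (univ : Finset (Finset (Arc n K))), W p :=
        Finset.sum_le_sum_of_subset_of_nonneg hsub fun p _ _ => hW p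
    _ = (V.card : ℝ) * ∑ I : Finset (Arc n K),
          x ^ I.card * (lapMu (arcG n K) (muF P H φ J) I).det := by
        have e0 : ∀ v ∈ V, ∑ I : Finset (Arc n K), W (v, I) = ∑ I : Finset (Arc n K),
          x ^ I.card * (lapMu (arcG n K) (muF P H φ J) I).det := fun _ _ => rfl
        rw [Finset.sum_product, Finset.sum_congr rfl e0, Finset.sum_const, nsmul_eq_mul]
    _ ≤ (V.card : ℝ) * ∏ ω, (1 + g * muF P H φ J ω) :=
        mul_le_mul_of_nonneg_left (forest_lemma (arcG n K) (nzs_mu_nonneg P H φ J) nzs_deg hx hg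
          hxg) (by positivity)
    _ ≤ (V.card : ℝ) * Real.exp (g * ∑ ω, muF P H φ J ω) := by
        refine mul_le_mul_of_nonneg_left ?_ (by positivity)
        rw [Finset.mul_sum, Real.exp_sum]
        refine Finset.prod_le_prod (fun ω _ => ?_) fun ω _ => ?_
        · have := mul_nonneg hg (nzs_mu_nonneg P H φ J ω)
          linarith
        · rw [add_comm]
          exact Real.add_one_le_exp _
    _ = (Fintype.card K : ℝ) ^ (EE J).card * Real.exp (g * ∑ ω, muF P H φ J ω) := by rw [hV]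

end

theorem nz_sum_forest {n : ℕ} (hn : 3 ≤ n) {K : Type} [AddCommGroup K] [Fintype K] [DecidableEq K]
    {P : Finset K} (hP : IsHalf P) (H : Finset (Fin n)) (φ : Coch n K) (sl : ℕ)
    (Fm : Finset (Coch n K)) (Jf : Coch n K → Finset (Tri n)) (Js : Finset (Finset (Tri n)))
    (h1 : ∀ f ∈ Fm, ∀ e, e ∉ low H → f e = φ e)
    (h2 : ∀ f ∈ Fm, (suppE f ∩ low H).card = sl)
    (h3 : ∀ f ∈ Fm, MaxFam H f (Jf f) ∧ Jf f ∈ Js)
    {ξ T η : ℝ} (hξ : 0 < ξ) (hξ1 : ξ ≤ 1) (hT : 0 ≤ T) (hξT : 2 * ξ ≤ T * Real.exp (-T))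
    (hη : 0 < η) :
    ∑ f ∈ Fm, ((1 / (n : ℝ)) ^ (S2 H f (Jf f)).card *
        (lapMu (arcG n K) (muF P H f (Jf f)) ((S2 H f (Jf f)).image (arcOf P f))).det) *
        ∏ e ∈ EE (Jf f), (((degE (Jf f) e.1.1 : ℝ) + degE (Jf f) e.1.2) / (η * n))
      ≤ (1 / ξ) ^ sl * Real.exp (T / (2 * n) * ∑ x ∈ H, (XX H φ x : ℝ)) *
        ∑ J ∈ Js, psiJ (2 * (Fintype.card K : ℝ) * Real.exp (4 * T * (Fintype.card K : ℝ)) / η) J := by
  have hn0 : (0 : ℝ) < n := by
    have : 0 < n := by omega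
    exact_mod_cast this
  have hk0 : (0 : ℝ) ≤ Fintype.card K := by positivity
  have hx : (0 : ℝ) ≤ ξ / n := by positivity
  have hg : (0 : ℝ) ≤ T / (2 * n) := by positivity
  have hxg : ξ / n * (1 + T / (2 * n)) ^ (2 * n) ≤ T / (2 * n) := by
    have e1 : (1 + T / (2 * n)) ^ (2 * n) ≤ Real.exp T := by
      calc (1 + T / (2 * n)) ^ (2 * n) ≤ (Real.exp (T / (2 * n))) ^ (2 * n) := by
            refine pow_le_pow_left₀ (by positivity) ?_ _
            rw [add_comm]
            exact Real.add_one_le_exp _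
        _ = Real.exp T := by
            rw [← Real.exp_nat_mul]
            congr 1
            push_cast
            field_simp
    have e2 : 2 * ξ * Real.exp T ≤ T := by
      have := mul_le_mul_of_nonneg_right hξT (Real.exp_pos T).le
      rwa [mul_assoc T, ← Real.exp_add, neg_add_cancel, Real.exp_zero, mul_one] at this
    calc ξ / n * (1 + T / (2 * n)) ^ (2 * n) ≤ ξ / n * Real.exp T :=
          mul_le_mul_of_nonneg_left e1 hx
      _ = (2 * ξ * Real.exp T) / (2 * n) := by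
          field_simp
      _ ≤ T / (2 * n) := div_le_div_of_nonneg_right e2 (by positivity)
  have hψ : ∀ J : Finset (Tri n), 0 ≤ psiJ (2 / η) J := fun J => nzs_psi_nonneg (by positivity) J
  -- the individual terms
  have step1 : ∀ f ∈ Fm, ((1 / (n : ℝ)) ^ (S2 H f (Jf f)).card *
        (lapMu (arcG n K) (muF P H f (Jf f)) ((S2 H f (Jf f)).image (arcOf P f))).det) *
        ∏ e ∈ EE (Jf f), (((degE (Jf f) e.1.1 : ℝ) + degE (Jf f) e.1.2) / (η * n)) ≤
      (1 / ξ) ^ sl * (((ξ / n) ^ ((S2 H f (Jf f)).image (arcOf P f)).card *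
        (lapMu (arcG n K) (muF P H φ (Jf f)) ((S2 H f (Jf f)).image (arcOf P f))).det) *
        psiJ (2 / η) (Jf f)) := by
    intro f hf
    rw [prod_eq_psiJ (h3 f hf).1.1 hη, nzs_mu (h1 f hf),
      card_image_of_injective _ (fun e e' h => arcOf_inj P f h)]
    have hd := det_lapMu_nonneg (arcG n K) (nzs_mu_nonneg P H φ (Jf f))
      ((S2 H f (Jf f)).image (arcOf P f))
    have hc : (S2 H f (Jf f)).card ≤ sl := by
      rw [← h2 f hf]
      exact card_le_card sdiff_subset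
    have e1 : (1 / (n : ℝ)) ^ (S2 H f (Jf f)).card ≤
        (1 / ξ) ^ sl * (ξ / n) ^ (S2 H f (Jf f)).card := by
      have e2 : (1 : ℝ) / n = (1 / ξ) * (ξ / n) := by
        field_simp
      rw [e2, mul_pow]
      refine mul_le_mul_of_nonneg_right ?_ (pow_nonneg hx _)
      exact pow_le_pow_right₀ ((one_le_div hξ).2 hξ1) hc
    calc _ ≤ ((1 / ξ) ^ sl * (ξ / n) ^ (S2 H f (Jf f)).card *
          (lapMu (arcG n K) (muF P H φ (Jf f)) ((S2 H f (Jf f)).image (arcOf P f))).det) *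
          psiJ (2 / η) (Jf f) :=
          mul_le_mul_of_nonneg_right (mul_le_mul_of_nonneg_right e1 hd) (hψ _)
      _ = _ := by ring
  refine (Finset.sum_le_sum step1).trans ?_
  rw [← Finset.mul_sum, mul_assoc]
  refine mul_le_mul_of_nonneg_left ?_ (by positivity)
  rw [← Finset.sum_fiberwise_of_maps_to (g := Jf) (fun f hf => (h3 f hf).2), Finset.mul_sum]
  refine Finset.sum_le_sum fun J _ => ?_
  have hR : 0 ≤ psiJ (2 * (Fintype.card K : ℝ) *
      Real.exp (4 * T * (Fintype.card K : ℝ)) / η) J := nzs_psi_nonneg (by positivity) J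
  rcases (Fm.filter fun f => Jf f = J).eq_empty_or_nonempty with he | ⟨f₀, hf₀⟩
  · rw [he, Finset.sum_empty]
    exact mul_nonneg (Real.exp_pos _).le hR
  have hJ : EDisj J := by
    rw [mem_filter] at hf₀
    rw [← hf₀.2]
    exact (h3 f₀ hf₀.1).1.1
  have e3 : ∑ f ∈ Fm.filter (fun f => Jf f = J),
      (((ξ / n) ^ ((S2 H f (Jf f)).image (arcOf P f)).card *
        (lapMu (arcG n K) (muF P H φ (Jf f)) ((S2 H f (Jf f)).image (arcOf P f))).det) *
        psiJ (2 / η) (Jf f)) =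
      (∑ f ∈ Fm.filter (fun f => Jf f = J), (ξ / n) ^ ((S2 H f J).image (arcOf P f)).card *
        (lapMu (arcG n K) (muF P H φ J) ((S2 H f J).image (arcOf P f))).det) *
        psiJ (2 / η) J := by
    rw [Finset.sum_mul]
    refine Finset.sum_congr rfl fun f hf => ?_
    rw [(mem_filter.1 hf).2]
  rw [e3]
  have e4 := nzs_inner (P := P) H φ J (Fm.filter fun f => Jf f = J)
    (fun f hf => h1 f (mem_filter.1 hf).1) hx hg hxg
  rw [EE_card hJ] at e4
  have e5 : Real.exp (T / (2 * n) * ∑ ω, muF P H φ J ω) ≤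
      Real.exp (T / (2 * n) * ∑ x ∈ H, (XX H φ x : ℝ)) *
        Real.exp (4 * T * (Fintype.card K : ℝ)) ^ (3 * J.card) := by
    rw [← Real.exp_nat_mul, ← Real.exp_add]
    refine Real.exp_le_exp.2 ?_
    refine (mul_le_mul_of_nonneg_left (nzs_musum hP H φ hJ) hg).trans (le_of_eq ?_)
    push_cast
    field_simp
    ring
  have e6 : psiJ (2 * (Fintype.card K : ℝ) * Real.exp (4 * T * (Fintype.card K : ℝ)) / η) J =
      ((Fintype.card K : ℝ) * Real.exp (4 * T * (Fintype.card K : ℝ))) ^ (3 * J.card) *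
        psiJ (2 / η) J := by
    rw [← nzs_psi_mul]
    congr 1
    ring
  rw [e6, ← mul_assoc]
  refine mul_le_mul_of_nonneg_right ?_ (hψ J)
  refine e4.trans ?_
  calc (Fintype.card K : ℝ) ^ (3 * J.card) * Real.exp (T / (2 * n) * ∑ ω, muF P H φ J ω)
      ≤ (Fintype.card K : ℝ) ^ (3 * J.card) *
        (Real.exp (T / (2 * n) * ∑ x ∈ H, (XX H φ x : ℝ)) *
        Real.exp (4 * T * (Fintype.card K : ℝ)) ^ (3 * J.card)) :=
        mul_le_mul_of_nonneg_left e5 (by positivity)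
    _ = _ := by
        rw [mul_pow]
        ring

end

end Pool.Agent.DH10
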