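import Pool.Agent.DH10.NZDefs

/-!
# DH10.SpecHub : the spectral hypothesis of `w_le_R` (4.2)

`spec_small`: `(g_x-g_y)² ≤ 2 g_x² + 2 g_y²`, so the sum is `≤ 2 ∑_x dgr f x · g_x² ≤ (n/2) ∑ g²`.
`spec_hub`: `k = |K|`, `H = hub f`, `h = |H|`; `h n^{0.98} ≤ ∑ deg = 2s` gives `h ≤ 2 n^{0.03}`.  Vertex-minimality:
`dgr f x ≤ (n-1)(1-1/k)` (the `k` values have total `n-1`, `0` is the most frequent).  For an edge `{x,y}` touching `H`
choose an endpoint `x ∈ H`: `(g_x-g_y)² ≤ (1+1/(2k)) g_x² + (1+2k) g_y²`; the sum over these edges is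
`≤ (1+1/(2k))(1-1/k) n ∑_{x∈H} g_x² + (1+2k) h ∑_y g_y²` (each `y` has at most `h` neighbours in `H`).  Low edges:
`≤ 2 n^{0.98} ∑ g²`.  `(1+1/(2k))(1-1/k) ≤ 1-1/(2k)` and `(1+2k) 2 n^{0.03} + 2 n^{0.98} ≤ n/(4k)` for large `n`.
-/

set_option autoImplicit false

open Finset Filter

namespace Pool.Agent.DH10

noncomputable section

namespace SpecHubAux

variable {n : ℕ} {K : Type} [AddCommGroup K] [DecidableEq K]

omit [DecidableEq K] in
theorem val_lt (f : Coch n K) {x y : Fin n} (h : x < y) : val f x y = f ⟨(x, y), h⟩ := by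
  unfold val; rw [dif_pos h]

omit [DecidableEq K] in
theorem val_gt (f : Coch n K) {x y : Fin n} (h : y < x) : val f x y = - f ⟨(y, x), h⟩ := by
  unfold val; rw [dif_neg (not_lt.2 h.le), dif_pos h]

omit [DecidableEq K] in
theorem val_self (f : Coch n K) (x : Fin n) : val f x x = 0 := by
  unfold val; rw [dif_neg (lt_irrefl x), dif_neg (lt_irrefl x)]

theorem val_symm_ne (f : Coch n K) (x y : Fin n) : val f x y ≠ 0 ↔ val f y x ≠ 0 := by
  rcases lt_trichotomy x y with h | h | h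
  · rw [val_lt f h, val_gt f h, neg_ne_zero]
  · rw [h]
  · rw [val_lt f h, val_gt f h, neg_ne_zero]

theorem sum_edges (f : Coch n K) (φ : Fin n → Fin n → ℝ) :
    ∑ e ∈ suppE f, (φ e.1.1 e.1.2 + φ e.1.2 e.1.1) =
      ∑ x, ∑ y, if val f x y ≠ 0 then φ x y else 0 := by
  set ψ : Fin n × Fin n → ℝ := fun p => if val f p.1 p.2 ≠ 0 then φ p.1 p.2 else 0 with hψ
  have h1 : ∑ x, ∑ y, (if val f x y ≠ 0 then φ x y else 0) = ∑ p : Fin n × Fin n, ψ p := by
    rw [Fintype.sum_prod_type]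
  have h2 : ∑ p : Fin n × Fin n, ψ p =
      ∑ p ∈ univ.filter (fun p : Fin n × Fin n => p.1 < p.2), (ψ p + ψ p.swap) := by
    rw [sum_add_distrib]
    have e1 : ∑ p ∈ univ.filter (fun p : Fin n × Fin n => p.1 < p.2), ψ p.swap =
        ∑ p ∈ univ.filter (fun p : Fin n × Fin n => p.2 < p.1), ψ p := by
      refine sum_nbij' Prod.swap Prod.swap ?_ ?_ ?_ ?_ ?_
      · intro p hp; simpa using hp
      · intro p hp; simpa using hp
      · intro p _; simp
      · intro p _; simp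
      · intro p _; rfl
    rw [e1, ← sum_filter_add_sum_filter_not univ (fun p : Fin n × Fin n => p.1 < p.2) ψ]
    congr 1
    symm
    apply sum_subset
    · intro p hp
      simp only [mem_filter, mem_univ, true_and, not_lt] at hp ⊢
      exact hp.le
    · intro p hp hp2
      simp only [mem_filter, mem_univ, true_and, not_lt] at hp hp2
      have : p.1 = p.2 := le_antisymm hp2 hp
      simp only [hψ]
      rw [if_neg]
      rw [this, val_self]
      simp
  rw [h1, h2, sum_subtype (p := fun p : Fin n × Fin n => p.1 < p.2)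
    (univ.filter (fun p : Fin n × Fin n => p.1 < p.2)) (by intro p; simp) (fun p => ψ p + ψ p.swap)]
  unfold suppE
  rw [sum_filter]
  apply sum_congr rfl
  rintro ⟨⟨x, y⟩, h⟩ _
  simp only [hψ, Prod.swap]
  by_cases hf : f ⟨(x, y), h⟩ = 0
  · have a1 : ¬ (val f x y ≠ 0) := by rw [val_lt f h]; simpa using hf
    have a2 : ¬ (val f y x ≠ 0) := by rw [val_gt f h]; simpa using hf
    rw [if_neg (by simpa using hf), if_neg a1, if_neg a2, add_zero]
  · have a1 : (val f x y ≠ 0) := by rw [val_lt f h]; exact hf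
    have a2 : (val f y x ≠ 0) := by rw [val_gt f h]; simpa using hf
    rw [if_pos hf, if_pos a1, if_pos a2]

theorem inner_const (f : Coch n K) (x : Fin n) (a : ℝ) :
    ∑ y, (if val f x y ≠ 0 then a else 0) = (dgr f x : ℝ) * a := by
  rw [← sum_filter, sum_const, nsmul_eq_mul]
  rfl

end SpecHubAux

open SpecHubAux in
theorem spec_small {n : ℕ} {K : Type} [AddCommGroup K] [DecidableEq K] (f : Coch n K)
    (h : ∀ x, 4 * dgr f x ≤ n) (g : Fin n → ℝ) :
    ∑ e ∈ suppE f, (g e.1.2 - g e.1.1) ^ 2 ≤ (1 - 1 / 2) * n * ∑ x, g x ^ 2 := by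
  have h1 : ∑ e ∈ suppE f, (g e.1.2 - g e.1.1) ^ 2 ≤
      ∑ e ∈ suppE f, ((fun x _ => 2 * g x ^ 2) e.1.1 e.1.2 + (fun x _ => 2 * g x ^ 2) e.1.2 e.1.1) := by
    apply sum_le_sum
    intro e _
    nlinarith [sq_nonneg (g e.1.2 + g e.1.1)]
  refine h1.trans ?_
  rw [sum_edges f (fun x _ => 2 * g x ^ 2), mul_sum]
  apply sum_le_sum
  intro x _
  rw [inner_const]
  have h2 : (4 : ℝ) * dgr f x ≤ n := by exact_mod_cast h x
  nlinarith [sq_nonneg (g x)]

open SpecHubAux in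
/-- sum of the degrees -/
theorem sum_dgr {n : ℕ} {K : Type} [AddCommGroup K] [DecidableEq K] (f : Coch n K) :
    ∑ x, dgr f x = 2 * (suppE f).card := by
  have h := sum_edges f (fun _ _ => (1 : ℝ))
  have h2 : ∀ x : Fin n, ∑ y, (if val f x y ≠ 0 then (1 : ℝ) else 0) = (dgr f x : ℝ) := by
    intro x
    rw [inner_const, mul_one]
  rw [sum_congr rfl (fun x _ => h2 x), sum_const, nsmul_eq_mul] at h
  have h3 : ((∑ x, dgr f x : ℕ) : ℝ) = ((2 * (suppE f).card : ℕ) : ℝ) := by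
    push_cast
    rw [← h]
    ring
  exact_mod_cast h3

/-- number of hubs -/
theorem hub_card {n : ℕ} {K : Type} [AddCommGroup K] [DecidableEq K] (f : Coch n K) :
    ((hub f).card : ℝ) * (n : ℝ) ^ (1 - 1 / 50 : ℝ) ≤ 2 * (suppE f).card := by
  have h1 : ((hub f).card : ℝ) * (n : ℝ) ^ (1 - 1 / 50 : ℝ) ≤ ∑ x ∈ hub f, (dgr f x : ℝ) := by
    rw [← nsmul_eq_mul]
    apply card_nsmul_le_sum
    intro x hx
    exact (mem_filter.1 hx).2
  have h2 : ∑ x ∈ hub f, (dgr f x : ℝ) ≤ ∑ x, (dgr f x : ℝ) :=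
    sum_le_univ_sum_of_nonneg (fun x => Nat.cast_nonneg _)
  have h3 : (∑ x, (dgr f x : ℝ)) = 2 * (suppE f).card := by
    exact_mod_cast sum_dgr f
  linarith

namespace SpecHubAux

variable {n : ℕ} {K : Type} [AddCommGroup K] [DecidableEq K]

theorem dgr_le [Fintype K] (f : Coch n K) (hf : VMin f) (x : Fin n) :
    (dgr f x : ℝ) ≤ (1 - 1 / (Fintype.card K : ℝ)) * n := by
  have hk : (0 : ℝ) < Fintype.card K := by
    exact_mod_cast Fintype.card_pos_iff.2 ⟨0⟩
  set z := (univ.filter fun y => y ≠ x ∧ val f x y = 0).card with hz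
  have hn1 : (univ.filter fun y : Fin n => y ≠ x).card = n - 1 := by
    rw [filter_ne' univ x, card_erase_of_mem (mem_univ x), card_univ, Fintype.card_fin]
  have hnpos : 1 ≤ n := by
    have := x.2
    omega
  have h1 : n - 1 ≤ Fintype.card K * z := by
    rw [← hn1, card_eq_sum_card_fiberwise (f := fun y => val f x y) (t := univ)
      (fun y _ => mem_coe.2 (mem_univ _))]
    calc ∑ c : K, ((univ.filter fun y : Fin n => y ≠ x).filter fun y => val f x y = c).card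
        ≤ ∑ _c : K, z := by
          apply sum_le_sum
          intro c _
          rw [filter_filter]
          exact hf x c
      _ = Fintype.card K * z := by rw [sum_const, card_univ, smul_eq_mul]
  have h2 : dgr f x + z = n - 1 := by
    rw [← hn1, hz]
    unfold dgr
    rw [← card_filter_add_card_filter_not (s := univ.filter fun y : Fin n => y ≠ x)
      (fun y => val f x y = 0), filter_filter, filter_filter, add_comm]
    congr 2
    ext y
    simp only [mem_filter, mem_univ, true_and]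
    constructor
    · intro h
      refine ⟨?_, h⟩
      intro hxy
      apply h
      rw [hxy, val_self]
    · intro h
      exact h.2
  have h1' : (n : ℝ) - 1 ≤ Fintype.card K * z := by
    have : ((n - 1 : ℕ) : ℝ) ≤ ((Fintype.card K * z : ℕ) : ℝ) := by exact_mod_cast h1
    rw [Nat.cast_sub hnpos] at this
    push_cast at this
    exact this
  have h2' : (dgr f x : ℝ) + z = n - 1 := by
    have : ((dgr f x + z : ℕ) : ℝ) = ((n - 1 : ℕ) : ℝ) := by exact_mod_cast h2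
    rw [Nat.cast_sub hnpos] at this
    push_cast at this
    exact this
  have h3 : ((n : ℝ) - 1) / Fintype.card K ≤ z := by
    rw [div_le_iff₀ hk]
    linarith
  have hk1 : (1 : ℝ) / Fintype.card K ≤ 1 := by
    rw [div_le_one hk]
    exact_mod_cast Fintype.card_pos_iff.2 ⟨(0 : K)⟩
  have h4 : (dgr f x : ℝ) ≤ ((n : ℝ) - 1) - ((n : ℝ) - 1) / Fintype.card K := by linarith
  have h5 : ((n : ℝ) - 1) - ((n : ℝ) - 1) / Fintype.card K =
      (1 - 1 / (Fintype.card K : ℝ)) * n - (1 - 1 / (Fintype.card K : ℝ)) := by ring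
  rw [h5] at h4
  linarith

theorem main_bound (f : Coch n K) (k : ℝ) (hk : 1 ≤ k) (D T : ℝ) (H : Finset (Fin n))
    (hT : 0 ≤ T)
    (hD : ∀ x, (dgr f x : ℝ) ≤ D) (hlow : ∀ x, x ∉ H → (dgr f x : ℝ) ≤ T) (g : Fin n → ℝ) :
    ∑ e ∈ suppE f, (g e.1.2 - g e.1.1) ^ 2 ≤
      ((1 + 1 / (2 * k)) * D + (1 + 2 * k) * H.card + 2 * T) * ∑ x, g x ^ 2 := by
  have hk0 : 0 < k := by linarith
  set α : ℝ := 1 + 1 / (2 * k) with hα
  set β : ℝ := 1 + 2 * k with hβ
  have hα0 : 0 ≤ α := by positivity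
  have hβ0 : 0 ≤ β := by positivity
  have hkey : ∀ a b : ℝ, (a - b) ^ 2 ≤ α * a ^ 2 + β * b ^ 2 := by
    intro a b
    have : α * a ^ 2 + β * b ^ 2 - (a - b) ^ 2 = (1 / (2 * k)) * (a + 2 * k * b) ^ 2 := by
      rw [hα, hβ]
      field_simp
      ring
    have h2 : 0 ≤ (1 / (2 * k)) * (a + 2 * k * b) ^ 2 := by positivity
    linarith
  set φ : Fin n → Fin n → ℝ := fun x y =>
    if x ∈ H then α * g x ^ 2 + β * g y ^ 2 else 2 * g x ^ 2 with hφ
  have hφ0 : ∀ x y, 0 ≤ φ x y := by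
    intro x y
    simp only [hφ]
    split_ifs <;> positivity
  have h1 : ∑ e ∈ suppE f, (g e.1.2 - g e.1.1) ^ 2 ≤
      ∑ e ∈ suppE f, (φ e.1.1 e.1.2 + φ e.1.2 e.1.1) := by
    apply sum_le_sum
    intro e _
    by_cases h1 : e.1.1 ∈ H
    · have h2 : φ e.1.1 e.1.2 = α * g e.1.1 ^ 2 + β * g e.1.2 ^ 2 := by
        simp only [hφ]; rw [if_pos h1]
      have h3 := hφ0 e.1.2 e.1.1
      have h4 := hkey (g e.1.1) (g e.1.2)
      rw [h2]
      nlinarith
    · by_cases h2 : e.1.2 ∈ H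
      · have h2 : φ e.1.2 e.1.1 = α * g e.1.2 ^ 2 + β * g e.1.1 ^ 2 := by
          simp only [hφ]; rw [if_pos h2]
        have h3 := hφ0 e.1.1 e.1.2
        have h4 := hkey (g e.1.2) (g e.1.1)
        rw [h2]
        nlinarith
      · simp only [hφ]
        rw [if_neg h1, if_neg h2]
        nlinarith [sq_nonneg (g e.1.2 + g e.1.1)]
  refine h1.trans ?_
  rw [sum_edges f φ]
  have h2 : ∀ x, (∑ y, if val f x y ≠ 0 then φ x y else 0) ≤
      (α * D + 2 * T) * g x ^ 2 + (if x ∈ H then β * ∑ y, g y ^ 2 else 0) := by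
    intro x
    have hD0 : (0 : ℝ) ≤ D := le_trans (Nat.cast_nonneg _) (hD x)
    by_cases hx : x ∈ H
    · rw [if_pos hx]
      have e1 : ∀ y, (if val f x y ≠ 0 then φ x y else 0) ≤
          (if val f x y ≠ 0 then α * g x ^ 2 else 0) + β * g y ^ 2 := by
        intro y
        simp only [hφ]
        rw [if_pos hx]
        split_ifs
        · exact le_rfl
        · have : 0 ≤ β * g y ^ 2 := by positivity
          linarith
      refine (sum_le_sum fun y _ => e1 y).trans ?_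
      rw [sum_add_distrib, inner_const, ← mul_sum]
      have e2 : (dgr f x : ℝ) * (α * g x ^ 2) ≤ D * (α * g x ^ 2) :=
        mul_le_mul_of_nonneg_right (hD x) (by positivity)
      have e3 : 0 ≤ 2 * T * g x ^ 2 := by positivity
      nlinarith
    · rw [if_neg hx, add_zero]
      have e1 : ∀ y, (if val f x y ≠ 0 then φ x y else 0) =
          (if val f x y ≠ 0 then 2 * g x ^ 2 else 0) := by
        intro y
        simp only [hφ]
        rw [if_neg hx]
      rw [sum_congr rfl (fun y _ => e1 y), inner_const]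
      have e2 : (dgr f x : ℝ) * (2 * g x ^ 2) ≤ T * (2 * g x ^ 2) :=
        mul_le_mul_of_nonneg_right (hlow x hx) (by positivity)
      have e3 : 0 ≤ α * D * g x ^ 2 := by positivity
      nlinarith
  refine (sum_le_sum fun x _ => h2 x).trans ?_
  rw [sum_add_distrib, ← mul_sum, ← sum_filter, sum_const, nsmul_eq_mul]
  have e4 : (univ.filter fun x => x ∈ H) = H := by ext x; simp
  rw [e4]
  apply le_of_eq
  ring

end SpecHubAux

open SpecHubAux in
theorem spec_hub (K : Type) [AddCommGroup K] [Fintype K] [DecidableEq K] :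
    ∀ᶠ n : ℕ in atTop, ∀ f : Coch n K, VMin f → ((suppE f).card : ℝ) ≤ (n : ℝ) ^ (101 / 100 : ℝ) →
      ∀ g : Fin n → ℝ, ∑ e ∈ suppE f, (g e.1.2 - g e.1.1) ^ 2
        ≤ (1 - 1 / (4 * (Fintype.card K : ℝ))) * n * ∑ x, g x ^ 2 := by
  have hk1 : (1 : ℝ) ≤ Fintype.card K := by
    exact_mod_cast Fintype.card_pos_iff.2 ⟨(0 : K)⟩
  set k : ℝ := (Fintype.card K : ℝ) with hk
  have hlim : ∀ᶠ n : ℕ in atTop, 4 * k * (4 + 4 * k) ≤ (n : ℝ) ^ (1 / 50 : ℝ) :=
    ((tendsto_rpow_atTop (by norm_num : (0 : ℝ) < 1 / 50)).comp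
      tendsto_natCast_atTop_atTop).eventually_ge_atTop _
  filter_upwards [hlim, eventually_ge_atTop 1] with n hn hn1 f hf hs g
  have hn0 : (1 : ℝ) ≤ n := by exact_mod_cast hn1
  have hnp : (0 : ℝ) < n := by linarith
  have hT0 : (0 : ℝ) < (n : ℝ) ^ (1 - 1 / 50 : ℝ) := Real.rpow_pos_of_pos hnp _
  have h1 := main_bound f k hk1 ((1 - 1 / k) * n) ((n : ℝ) ^ (1 - 1 / 50 : ℝ)) (hub f) hT0.le
    (fun x => dgr_le f hf x) (by
      intro x hx
      have : ¬ ((n : ℝ) ^ (1 - 1 / 50 : ℝ) ≤ (dgr f x : ℝ)) := by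
        intro h
        exact hx (mem_filter.2 ⟨mem_univ _, h⟩)
      exact (not_le.1 this).le) g
  refine h1.trans ?_
  apply mul_le_mul_of_nonneg_right _ (sum_nonneg fun x _ => sq_nonneg _)
  have hk0 : 0 < k := by linarith
  -- number of hubs
  have h2 : ((hub f).card : ℝ) ≤ 2 * (n : ℝ) ^ (3 / 100 : ℝ) := by
    have e1 := (hub_card f).trans (mul_le_mul_of_nonneg_left hs (by norm_num : (0 : ℝ) ≤ 2))
    have e2 : (n : ℝ) ^ (101 / 100 : ℝ) = (n : ℝ) ^ (3 / 100 : ℝ) * (n : ℝ) ^ (1 - 1 / 50 : ℝ) := by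
      rw [← Real.rpow_add hnp]
      norm_num
    rw [e2, ← mul_assoc] at e1
    exact le_of_mul_le_mul_right e1 hT0
  have h3 : (n : ℝ) ^ (3 / 100 : ℝ) ≤ (n : ℝ) ^ (1 - 1 / 50 : ℝ) :=
    Real.rpow_le_rpow_of_exponent_le hn0 (by norm_num)
  have h4 : (n : ℝ) = (n : ℝ) ^ (1 / 50 : ℝ) * (n : ℝ) ^ (1 - 1 / 50 : ℝ) := by
    rw [← Real.rpow_add hnp]
    norm_num
  have h5 : 4 * k * (4 + 4 * k) * (n : ℝ) ^ (1 - 1 / 50 : ℝ) ≤ n := by
    calc 4 * k * (4 + 4 * k) * (n : ℝ) ^ (1 - 1 / 50 : ℝ)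
        ≤ (n : ℝ) ^ (1 / 50 : ℝ) * (n : ℝ) ^ (1 - 1 / 50 : ℝ) :=
          mul_le_mul_of_nonneg_right hn hT0.le
      _ = n := h4.symm
  set X : ℝ := (n : ℝ) ^ (1 - 1 / 50 : ℝ) with hX
  have h6 : (1 + 2 * k) * ((hub f).card : ℝ) ≤ (1 + 2 * k) * (2 * X) :=
    mul_le_mul_of_nonneg_left (h2.trans (mul_le_mul_of_nonneg_left h3 (by norm_num))) (by positivity)
  have h7 : (4 + 4 * k) * X ≤ n / (4 * k) := by
    rw [le_div_iff₀ (by positivity)]
    linarith
  have h8 : (1 + 1 / (2 * k)) * ((1 - 1 / k) * n) ≤ (1 - 1 / (2 * k)) * n := by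
    have e1 : (1 - 1 / (2 * k)) * n - (1 + 1 / (2 * k)) * ((1 - 1 / k) * n) = n / (2 * k ^ 2) := by
      field_simp
      ring
    have e2 : 0 ≤ (n : ℝ) / (2 * k ^ 2) := by positivity
    linarith
  have h9 : (1 - 1 / (4 * k)) * (n : ℝ) = (1 - 1 / (2 * k)) * n + n / (4 * k) := by
    field_simp
    ring
  rw [h9]
  linarith

end

end Pool.Agent.DH10
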