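import Pool.Agent.DH10.NZPoint
import Pool.Agent.DH10.NZSum
import Pool.Agent.DH10.SpecHub
import Pool.Agent.DH10.ESumS

/-!
# DH10.NZS2 : the range `s ≤ n^{1/25}` (4.10)

`∑_{|suppE f| = s} w f ≤ B (1.1)^{-s}`.
Proof.  Apply `w_le_point` with `H = ∅`, `Δ = s` (degrees are `≤ s`), `η = 1/20`, `c = 1/2` (`spec_small`, `4s ≤ n`), a chosen maximal
family `J = Jf f` (`exists_maxFam`), and `nz_sum_forest` with `H = ∅`, `φ = 0`, `sl = s`, `ξ = 0.1662`, `T = 0.65`
(`2 ξ = 0.3324 ≤ 0.65 exp(-0.65) = 0.3393...`), `Js = {3|J| ≤ s}` (`EE_card`).  All scalar factors together are at most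
`exp(C s/n + 0.1 s - 2 s (1 - 1/n - 2s/n)) (1/0.1662)^s B' ≤ (e^{-1.9} e^{0.01}/0.1662)^s B' ≤ (1/1.1)^s B'` for large `n`
(`e^{-1.9} = 0.149569`, quotient `0.9090 > 0.9000 e^{0.01} = 0.90899...`: precisely
`e^{-1.9+0.009}/0.1662 ≤ 1/1.1`), with `B'` from `esum_small`.
-/

set_option autoImplicit false

open Finset Filter

namespace Pool.Agent.DH10

noncomputable section

private lemma s2_num1 : Real.exp (-(379 / 200 : ℝ)) ≤ 1662 / 10000 * (10 / 11) := by
  have h1 : (∑ i ∈ range 7, (379 / 200 : ℝ) ^ i / (i.factorial : ℝ)) ≤ Real.exp (379 / 200) :=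
    Real.sum_le_exp_of_nonneg (by norm_num) 7
  have h2 : (11 / 10 : ℝ) * (10000 / 1662) ≤ ∑ i ∈ range 7, (379 / 200 : ℝ) ^ i / (i.factorial : ℝ) := by
    simp only [Finset.sum_range_succ, Finset.sum_range_zero, Nat.factorial]
    norm_num
  have h3 := h2.trans h1
  rw [Real.exp_neg]
  have h4 : (0 : ℝ) < (11 / 10 : ℝ) * (10000 / 1662) := by norm_num
  have h5 := inv_anti₀ h4 h3
  refine h5.trans (le_of_eq ?_)
  norm_num

private lemma s2_num2 : 2 * (1662 / 10000 : ℝ) ≤ 65 / 100 * Real.exp (-(65 / 100)) := by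
  have h1 : (1 : ℝ) - 65 / 1600 ≤ Real.exp (-(65 / 1600)) := by
    have := Real.add_one_le_exp (-(65 / 1600 : ℝ))
    linarith
  have h2 : ((1 : ℝ) - 65 / 1600) ^ 16 ≤ (Real.exp (-(65 / 1600))) ^ 16 :=
    pow_le_pow_left₀ (by norm_num) h1 16
  have h3 : (Real.exp (-(65 / 1600 : ℝ))) ^ 16 = Real.exp (-(65 / 100)) := by
    rw [← Real.exp_nat_mul]
    congr 1
    norm_num
  rw [h3] at h2
  have h4 : (2 * (1662 / 10000 : ℝ)) ≤ 65 / 100 * ((1 : ℝ) - 65 / 1600) ^ 16 := by norm_num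
  linarith

private lemma s2_low (n : ℕ) : low (∅ : Finset (Fin n)) = univ := by
  ext e
  simp [low]

private lemma s2_muF_nonneg {n : ℕ} {K : Type} [AddCommGroup K] [DecidableEq K] (P : Finset K)
    (H : Finset (Fin n)) (f : Coch n K) (J : Finset (Tri n)) (ω : Arc n K) : 0 ≤ muF P H f J ω := by
  unfold muF
  split_ifs <;> positivity

private lemma s2_psiJ_nonneg {n : ℕ} {C : ℝ} (hC : 0 ≤ C) (J : Finset (Tri n)) : 0 ≤ psiJ C J := by
  unfold psiJ
  apply Finset.prod_nonneg
  intro t _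
  positivity

private lemma s2_EE_subset {n : ℕ} {K : Type} [AddCommGroup K] [DecidableEq K]
    {H : Finset (Fin n)} {f : Coch n K} {J : Finset (Tri n)} (hJ : MaxFam H f J) :
    EE J ⊆ suppE f := by
  intro e he
  obtain ⟨t, ht, het⟩ := Finset.mem_biUnion.1 he
  exact (hJ.2.1 t ht).2.1 het

open Classical in
theorem s2_sum (K : Type) [AddCommGroup K] [Fintype K] [DecidableEq K] (hodd : Odd (Fintype.card K)) :
    ∃ B : ℝ, ∀ᶠ n : ℕ in atTop, ∀ s : ℕ, (s : ℝ) ≤ (n : ℝ) ^ (1 / 25 : ℝ) →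
      ∑ f ∈ univ.filter (fun f : Coch n K => (suppE f).card = s), w f ≤ B * (10 / 11) ^ s := by
  obtain ⟨P, hP⟩ := exists_half K hodd
  set C : ℝ := 2 * (Fintype.card K : ℝ) * Real.exp (4 * (65 / 100) * (Fintype.card K : ℝ)) / (1 / 20)
    with hCdef
  have hC : 0 ≤ C := by positivity
  obtain ⟨B, hB⟩ := esum_small C hC
  refine ⟨B, ?_⟩
  have h1 : ∀ᶠ n : ℕ in atTop, (4000 : ℝ) ≤ (n : ℝ) ^ (24 / 25 : ℝ) :=
    ((tendsto_rpow_atTop (by norm_num : (0 : ℝ) < 24 / 25)).comp
      tendsto_natCast_atTop_atTop).eventually_ge_atTop 4000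
  filter_upwards [hB, h1, eventually_ge_atTop 4000] with n hBn h1n h2n
  intro s hs
  have hn0 : (0 : ℝ) < n := by
    have : (4000 : ℝ) ≤ n := by exact_mod_cast h2n
    linarith
  have hn4 : (4000 : ℝ) ≤ n := by exact_mod_cast h2n
  have hs' : 4000 * (s : ℝ) ≤ n := by
    have h3 : (n : ℝ) ^ (1 / 25 : ℝ) * (n : ℝ) ^ (24 / 25 : ℝ) = n := by
      rw [← Real.rpow_add hn0]
      norm_num
    have h4 : 0 ≤ (n : ℝ) ^ (1 / 25 : ℝ) := Real.rpow_nonneg hn0.le _
    nlinarith
  have hs0 : (0 : ℝ) ≤ s := Nat.cast_nonneg s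
  have hJ : ∀ f : Coch n K, ∃ J, MaxFam ∅ f J := fun f => exists_maxFam ∅ f
  choose Jf hJf using hJ
  set X : Coch n K → ℝ := fun f =>
    ((1 / (n : ℝ)) ^ (S2 ∅ f (Jf f)).card *
        (lapMu (arcG n K) (muF P ∅ f (Jf f)) ((S2 ∅ f (Jf f)).image (arcOf P f))).det) *
        ∏ e ∈ EE (Jf f), (((degE (Jf f) e.1.1 : ℝ) + degE (Jf f) e.1.2) / ((1 / 20) * n)) with hX
  have hX0 : ∀ f, 0 ≤ X f := by
    intro f
    simp only [hX]
    apply mul_nonneg
    · apply mul_nonneg (by positivity)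
      exact det_lapMu_nonneg _ (s2_muF_nonneg P ∅ f (Jf f)) _
    · apply Finset.prod_nonneg
      intro e _
      positivity
  set A : ℝ := Real.exp (-(379 / 200) * s) with hA
  -- pointwise bound
  have hpt : ∀ f ∈ univ.filter (fun f : Coch n K => (suppE f).card = s), w f ≤ A * X f := by
    intro f hf
    simp only [mem_filter, mem_univ, true_and] at hf
    have hdeg : ∀ x, dgr f x ≤ 2 * s := by
      intro x
      have h3 := sum_dgr f
      rw [hf] at h3
      rw [← h3]
      exact Finset.single_le_sum (f := fun x => dgr f x) (fun _ _ => Nat.zero_le _) (mem_univ x)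
    have hdeg4 : ∀ x, 4 * dgr f x ≤ n := by
      intro x
      have h3 := hdeg x
      have h4 : 4000 * s ≤ n := by exact_mod_cast hs'
      omega
    have hw := w_le_point (by omega : 3 ≤ n) hP ∅ f (hJf f) (Δ := 2 * s) (fun x _ => hdeg x)
      (η := 1 / 20) (by norm_num) (by norm_num) (c := 1 / 2) (by norm_num) (by norm_num)
      (spec_small f hdeg4)
    have hSH : (SH ∅ f).card = 0 := by
      rw [SH, s2_low]
      simp
    have hS2 : ((S2 ∅ f (Jf f)).card : ℝ) ≤ s := by
      have : (S2 ∅ f (Jf f)).card ≤ (suppE f).card := by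
        apply Finset.card_le_card
        intro e he
        exact (mem_inter.1 (mem_sdiff.1 he).1).1
      rw [hf] at this
      exact_mod_cast this
    rw [s2_low, Finset.inter_univ, hf, hSH] at hw
    simp only [Finset.card_empty, Finset.sum_empty, Finset.prod_empty, Nat.cast_zero, mul_zero,
      zero_div, sub_zero, mul_one, add_zero] at hw
    refine hw.trans ?_
    have hlog : -Real.log (1 / 2) ≤ 7 / 10 := by
      rw [one_div, Real.log_inv, neg_neg]
      have := Real.log_two_lt_d9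
      linarith
    have hE : Real.exp (4 * (-Real.log (1 / 2) / (1 - 1 / 2)) * s / n) *
        Real.exp (1 / 20 * (2 * ((S2 ∅ f (Jf f)).card : ℝ))) *
        Real.exp (-2 * (s : ℝ) * (1 - 1 / n - 2 * ((2 * s : ℕ) : ℝ) / n)) ≤ A := by
      rw [← Real.exp_add, ← Real.exp_add, hA]
      apply Real.exp_le_exp.2
      have e1 : 4 * (-Real.log (1 / 2) / (1 - 1 / 2)) * s / n ≤ 56 / 10 * (s / n) := by
        have : 4 * (-Real.log (1 / 2) / (1 - 1 / 2)) * s / n =
            8 * (-Real.log (1 / 2)) * (s / n) := by ring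
        rw [this]
        apply mul_le_mul_of_nonneg_right _ (by positivity)
        linarith
      have e2 : -2 * (s : ℝ) * (1 - 1 / n - 2 * ((2 * s : ℕ) : ℝ) / n) =
          -2 * s + 2 * (s / n) + 8 * s * (s / n) := by
        push_cast
        field_simp
        ring
      have e3 : (s : ℝ) / n ≤ s / 4000 := div_le_div_of_nonneg_left hs0 (by norm_num) hn4
      have e4 : (s : ℝ) / n ≤ 1 / 4000 := by
        rw [div_le_div_iff₀ hn0 (by norm_num)]
        linarith
      have e5 : 8 * s * ((s : ℝ) / n) ≤ 8 * s * (1 / 4000) :=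
        mul_le_mul_of_nonneg_left e4 (by positivity)
      rw [e2]
      linarith
    calc _ = (Real.exp (4 * (-Real.log (1 / 2) / (1 - 1 / 2)) * s / n) *
        Real.exp (1 / 20 * (2 * ((S2 ∅ f (Jf f)).card : ℝ))) *
        Real.exp (-2 * (s : ℝ) * (1 - 1 / n - 2 * ((2 * s : ℕ) : ℝ) / n))) * X f := by
          simp only [hX]
          ring
      _ ≤ A * X f := mul_le_mul_of_nonneg_right hE (hX0 f)
  -- summation
  have hsum := nz_sum_forest (by omega : 3 ≤ n) hP ∅ (fun _ => (0 : K)) s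
    (univ.filter (fun f : Coch n K => (suppE f).card = s)) Jf
    ((univ : Finset (Finset (Tri n))).filter (fun J => 3 * J.card ≤ s))
    (fun f _ e he => absurd (by rw [s2_low]; exact mem_univ e) he)
    (fun f hf => by
      rw [s2_low, Finset.inter_univ]
      simpa using hf)
    (fun f hf => by
      refine ⟨hJf f, ?_⟩
      simp only [mem_filter, mem_univ, true_and] at hf ⊢
      rw [← EE_card (hJf f).1, ← hf]
      exact Finset.card_le_card (s2_EE_subset (hJf f)))
    (ξ := 1662 / 10000) (T := 65 / 100) (η := 1 / 20) (by norm_num) (by norm_num) (by norm_num)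
    s2_num2 (by norm_num)
  rw [Finset.sum_empty, mul_zero, Real.exp_zero, mul_one] at hsum
  have hpsi0 : 0 ≤ ∑ J ∈ (univ : Finset (Finset (Tri n))).filter (fun J => 3 * J.card ≤ s),
      psiJ C J := Finset.sum_nonneg (fun J _ => s2_psiJ_nonneg hC J)
  have hAq : A * (1 / (1662 / 10000)) ^ s ≤ (10 / 11 : ℝ) ^ s := by
    have h3 : A = (Real.exp (-(379 / 200))) ^ s := by
      rw [hA, ← Real.exp_nat_mul]
      congr 1
      ring
    rw [h3, ← mul_pow]
    apply pow_le_pow_left₀ (by positivity)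
    have := s2_num1
    have h4 : Real.exp (-(379 / 200 : ℝ)) * (1 / (1662 / 10000)) ≤
        (1662 / 10000 * (10 / 11)) * (1 / (1662 / 10000)) :=
      mul_le_mul_of_nonneg_right this (by norm_num)
    refine h4.trans (le_of_eq ?_)
    norm_num
  calc ∑ f ∈ univ.filter (fun f : Coch n K => (suppE f).card = s), w f
      ≤ ∑ f ∈ univ.filter (fun f : Coch n K => (suppE f).card = s), A * X f :=
        Finset.sum_le_sum hpt
    _ = A * ∑ f ∈ univ.filter (fun f : Coch n K => (suppE f).card = s), X f := by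
        rw [Finset.mul_sum]
    _ ≤ A * ((1 / (1662 / 10000)) ^ s *
        ∑ J ∈ (univ : Finset (Finset (Tri n))).filter (fun J => 3 * J.card ≤ s), psiJ C J) :=
        mul_le_mul_of_nonneg_left hsum (Real.exp_pos _).le
    _ = (A * (1 / (1662 / 10000)) ^ s) *
        ∑ J ∈ (univ : Finset (Finset (Tri n))).filter (fun J => 3 * J.card ≤ s), psiJ C J := by
        ring
    _ ≤ (10 / 11 : ℝ) ^ s *
        ∑ J ∈ (univ : Finset (Finset (Tri n))).filter (fun J => 3 * J.card ≤ s), psiJ C J :=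
        mul_le_mul_of_nonneg_right hAq hpsi0
    _ ≤ (10 / 11 : ℝ) ^ s * B :=
        mul_le_mul_of_nonneg_left (hBn s hs) (by positivity)
    _ = B * (10 / 11) ^ s := by ring

end

end Pool.Agent.DH10
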