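import Pool.Agent.DH10.NZS3a

/-!
# DH10.NZS3b : the range `n^{1/25} ≤ s ≤ n^{1.01}`, total (4.11)

Proof.  Group the `f` by `H = hub f` and by the hub part `φ` (`φ e = f e` for `e ∉ low H`, `φ e = 0` for `e ∈ low H`).  By `s3_fixed`
the sum is `≤ e^{-cs} ∑_H ∑_φ ∏_{x∈H} ∏_{y∉H} rx φ x (φ(x,y))/n`.  A hub part is a pair (values on the edges inside `H`,
functions `g_x : {y ∉ H} → K` for `x ∈ H`), `rx φ x c ≤ #{z ∉ H : g_x z = c} + |H|`, `n = |{y ∉ H}| + |H|`: by `star_sum` the sum over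
`φ` is `≤ k^{h²} ((n+1)^k e^{kh})^h`, `h = |H|`.  `h n^{0.98} ≤ 2s` (`hub_card`), `h ≤ 2 n^{0.03}`; number of `H` of size `h`: `≤ n^h`.
For `h = 0` the sum is `1`; for `h ≥ 1` everything is `≤ exp(h n^{0.1}) ≤ exp(2 s n^{-0.88})` for large `n`.  So the total is
`≤ (n+1) exp(-cs + 2s n^{-0.88}) ≤ exp(-(c/2) s)` (`log(n+1) = o(n^{1/25})`).
-/

set_option autoImplicit false

open Finset Filter

namespace Pool.Agent.DH10

noncomputable section

section
variable {n : ℕ} {K : Type} [AddCommGroup K]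

private theorem s3b_val_lt (f : Coch n K) (e : Edg n) : val f e.1.1 e.1.2 = f e := by
  unfold val
  rw [dif_pos e.2]

private theorem s3b_val_gt (f : Coch n K) (e : Edg n) : val f e.1.2 e.1.1 = - f e := by
  unfold val
  rw [dif_neg (not_lt.mpr e.2.le), dif_pos e.2]

/-- `rx` counts at most the outside vertices of the class, plus `|H|` -/
private theorem s3b_rx_le [DecidableEq K] (φ : Coch n K) (H : Finset (Fin n)) (x : Fin n) (c : K) :
    rx φ x c ≤ (univ.filter fun z : {y : Fin n // y ∉ H} => val φ x z.1 = c).card + H.card := by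
  classical
  unfold rx
  have h1 : (univ.filter fun z : Fin n => val φ x z = c)
      ⊆ ((univ.filter fun z : {y : Fin n // y ∉ H} => val φ x z.1 = c).map
          (Function.Embedding.subtype _)) ∪ H := by
    intro z hz
    rw [mem_filter] at hz
    rw [mem_union]
    by_cases hzH : z ∈ H
    · exact Or.inr hzH
    · left
      rw [Finset.mem_map]
      exact ⟨⟨z, hzH⟩, by rw [mem_filter]; exact ⟨mem_univ _, hz.2⟩, rfl⟩
  refine (card_le_card h1).trans ((card_union_le _ _).trans ?_)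
  rw [card_map]

/-- the hub part as a pair of functions -/
private def s3bT (H : Finset (Fin n)) (φ : Coch n K) :
    (({y : Fin n // y ∈ H} × {y : Fin n // y ∈ H}) → K) ×
      ({y : Fin n // y ∈ H} → {y : Fin n // y ∉ H} → K) :=
  (fun p => val φ p.1.1 p.2.1, fun x y => val φ x.1 y.1)

private theorem s3bT_inj (H : Finset (Fin n)) (φ φ' : Coch n K) (h : ∀ e ∈ low H, φ e = 0)
    (h' : ∀ e ∈ low H, φ' e = 0) (hT : s3bT H φ = s3bT H φ') : φ = φ' := by
  classical
  rw [s3bT, s3bT, Prod.mk.injEq] at hT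
  obtain ⟨h1, h2⟩ := hT
  funext e
  by_cases he : e ∈ low H
  · rw [h e he, h' e he]
  · rw [low, mem_filter] at he
    by_cases ha : e.1.1 ∈ H
    · by_cases hb : e.1.2 ∈ H
      · have := congrFun h1 (⟨e.1.1, ha⟩, ⟨e.1.2, hb⟩)
        simp only [s3b_val_lt] at this
        exact this
      · have := congrFun (congrFun h2 ⟨e.1.1, ha⟩) ⟨e.1.2, hb⟩
        simp only [s3b_val_lt] at this
        exact this
    · by_cases hb : e.1.2 ∈ H
      · have := congrFun (congrFun h2 ⟨e.1.2, hb⟩) ⟨e.1.1, ha⟩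
        simp only [s3b_val_gt] at this
        exact neg_inj.mp this
      · exact absurd ⟨mem_univ _, ha, hb⟩ he

end

/-- sum over all hub parts -/
private theorem s3b_hubpart {n : ℕ} (K : Type) [AddCommGroup K] [Fintype K] [DecidableEq K]
    (hn : 0 < n) (H : Finset (Fin n)) :
    ∑ φ ∈ univ.filter (fun φ : Coch n K => ∀ e ∈ low H, φ e = 0),
        ∏ x ∈ H, ∏ y ∈ univ.filter (fun y => y ∉ H), ((rx φ x (val φ x y) : ℝ) / n)
      ≤ (Fintype.card K : ℝ) ^ (H.card * H.card) *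
        (((n : ℝ) + 1) ^ (Fintype.card K) * Real.exp (Fintype.card K * H.card)) ^ H.card := by
  classical
  have hnR : (0 : ℝ) < n := by exact_mod_cast hn
  have hU : Fintype.card {y : Fin n // y ∉ H} + H.card = n := by
    rw [Fintype.card_subtype_compl, Fintype.card_fin, Fintype.card_coe]
    have := card_le_univ H
    rw [Fintype.card_fin] at this
    omega
  set G : ({y : Fin n // y ∉ H} → K) → ℝ := fun g => ∏ y : {y : Fin n // y ∉ H},
    ((((univ.filter fun z => g z = g y).card + H.card : ℕ) : ℝ) /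
        ((Fintype.card {y : Fin n // y ∉ H} + H.card : ℕ) : ℝ)) with hG
  have hG0 : ∀ g, 0 ≤ G g := fun g => prod_nonneg fun y _ => by positivity
  -- bound of the summand
  have h1 : ∀ φ : Coch n K, ∏ x ∈ H, ∏ y ∈ univ.filter (fun y => y ∉ H),
      ((rx φ x (val φ x y) : ℝ) / n) ≤ ∏ x : {y : Fin n // y ∈ H}, G ((s3bT H φ).2 x) := by
    intro φ
    rw [← prod_coe_sort H (fun x => ∏ y ∈ univ.filter (fun y => y ∉ H),
      ((rx φ x (val φ x y) : ℝ) / n))]
    refine prod_le_prod (fun x _ => prod_nonneg fun y _ => by positivity) fun x _ => ?_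
    rw [prod_subtype (univ.filter (fun y => y ∉ H)) (p := fun y => y ∉ H)
      (fun y => by simp) (fun y => ((rx φ x (val φ x y) : ℝ) / n)), hG]
    refine prod_le_prod (fun y _ => by positivity) fun y _ => ?_
    rw [hU]
    refine div_le_div_of_nonneg_right ?_ hnR.le
    exact_mod_cast s3b_rx_le φ H x.1 (val φ x.1 y.1)
  refine (sum_le_sum fun φ _ => h1 φ).trans ?_
  -- sum over the image
  have h2 : ∑ φ ∈ univ.filter (fun φ : Coch n K => ∀ e ∈ low H, φ e = 0),
      ∏ x : {y : Fin n // y ∈ H}, G ((s3bT H φ).2 x)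
      ≤ ∑ q : (({y : Fin n // y ∈ H} × {y : Fin n // y ∈ H}) → K) ×
        ({y : Fin n // y ∈ H} → {y : Fin n // y ∉ H} → K),
        ∏ x : {y : Fin n // y ∈ H}, G (q.2 x) := by
    rw [← sum_image (s := univ.filter (fun φ : Coch n K => ∀ e ∈ low H, φ e = 0)) (g := s3bT H)
      (f := fun q => ∏ x : {y : Fin n // y ∈ H}, G (q.2 x))]
    · exact sum_le_sum_of_subset_of_nonneg (subset_univ _)
        (fun q _ _ => prod_nonneg fun x _ => hG0 _)
    · intro φ hφ φ' hφ' hT
      rw [mem_coe, mem_filter] at hφ hφ'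
      exact s3bT_inj H φ φ' hφ.2 hφ'.2 hT
  refine h2.trans ?_
  rw [Fintype.sum_prod_type]
  simp only [sum_const, card_univ, nsmul_eq_mul]
  have h3 : ∑ g : {y : Fin n // y ∈ H} → {y : Fin n // y ∉ H} → K,
      ∏ x : {y : Fin n // y ∈ H}, G (g x) = (∑ g, G g) ^ H.card := by
    have h4 := Finset.prod_univ_sum (fun _ : {y : Fin n // y ∈ H} =>
      (univ : Finset ({y : Fin n // y ∉ H} → K))) (fun _ g => G g)
    rw [Fintype.piFinset_univ] at h4
    rw [← h4, prod_const, card_univ, Fintype.card_coe]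
  rw [h3, Fintype.card_fun, Fintype.card_prod, Fintype.card_coe]
  push_cast
  refine mul_le_mul_of_nonneg_left ?_ (by positivity)
  refine pow_le_pow_left₀ (sum_nonneg fun g _ => hG0 g) ?_ _
  refine (star_sum H.card).trans ?_
  refine mul_le_mul_of_nonneg_right ?_ (Real.exp_pos _).le
  refine pow_le_pow_left₀ (by positivity) ?_ _
  have : (Fintype.card {y : Fin n // y ∉ H} : ℝ) ≤ n := by
    exact_mod_cast (by omega : Fintype.card {y : Fin n // y ∉ H} ≤ n)
  linarith

/-- number of small sets -/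
private theorem s3b_count {n : ℕ} (hn : 0 < n) (m : ℕ) :
    ((univ.filter fun H : Finset (Fin n) => H.card ≤ m).card : ℝ) ≤ Real.exp 1 * (n : ℝ) ^ m := by
  have hnR : (1 : ℝ) ≤ n := by exact_mod_cast hn
  have hn0 : (0 : ℝ) < n := by linarith
  have h1 := Finset.sum_pow_mul_eq_add_pow (1 / (n : ℝ)) 1 (univ : Finset (Fin n))
  rw [powerset_univ, card_univ, Fintype.card_fin] at h1
  have h2 : ((univ.filter fun H : Finset (Fin n) => H.card ≤ m).card : ℝ)
      ≤ ∑ H : Finset (Fin n), (n : ℝ) ^ m * ((1 / (n : ℝ)) ^ H.card * 1 ^ (n - H.card)) := by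
    rw [card_eq_sum_ones]
    push_cast
    rw [← sum_filter_add_sum_filter_not (univ : Finset (Finset (Fin n))) (fun H => H.card ≤ m)
      (fun H => (n : ℝ) ^ m * ((1 / (n : ℝ)) ^ H.card * 1 ^ (n - H.card)))]
    refine le_add_of_le_of_nonneg (sum_le_sum fun H hH => ?_) (sum_nonneg fun H _ => by positivity)
    rw [mem_filter] at hH
    rw [one_pow, mul_one, one_div, inv_pow, ← div_eq_mul_inv, le_div_iff₀ (by positivity), one_mul]
    exact pow_le_pow_right₀ hnR hH.2
  rw [← mul_sum, h1] at h2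
  refine h2.trans ?_
  rw [mul_comm]
  refine mul_le_mul_of_nonneg_right ?_ (by positivity)
  have h3 : 1 / (n : ℝ) + 1 ≤ Real.exp (1 / n) := Real.add_one_le_exp _
  calc (1 / (n : ℝ) + 1) ^ n ≤ (Real.exp (1 / n)) ^ n := pow_le_pow_left₀ (by positivity) h3 _
    _ = Real.exp 1 := by
        rw [← Real.exp_nat_mul]
        congr 1
        field_simp

/-- analytic estimate -/
private theorem s3b_analytic (k : ℕ) (hk : 1 ≤ k) (c : ℝ) (hc : 0 < c) :
    ∀ᶠ n : ℕ in atTop, 1 ≤ n ∧ ∀ s : ℕ, (n : ℝ) ^ (1 / 25 : ℝ) ≤ s →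
      (s : ℝ) ≤ (n : ℝ) ^ (101 / 100 : ℝ) →
      ∀ m : ℕ, (m : ℝ) * (n : ℝ) ^ (1 - 1 / 50 : ℝ) ≤ 2 * s →
      1 + m * Real.log n + (m * (m * (Real.log k + k) + k * Real.log (n + 1))) ≤ c * s := by
  have hkR : (1 : ℝ) ≤ k := by exact_mod_cast hk
  have hlogk : 0 ≤ Real.log k := Real.log_nonneg hkR
  have hpw : ∀ r : ℝ, 0 < r → Tendsto (fun n : ℕ => (n : ℝ) ^ r) atTop atTop := fun r hr =>
    (tendsto_rpow_atTop hr).comp tendsto_natCast_atTop_atTop
  filter_upwards [eventually_ge_atTop 1,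
    (hpw (95 / 100) (by norm_num)).eventually_ge_atTop (16 * (Real.log k + k) / c),
    (hpw (48 / 100) (by norm_num)).eventually_ge_atTop (32 * (k + 1) / c),
    (hpw (1 / 25) (by norm_num)).eventually_ge_atTop (4 / c)] with n hn1 h1 h2 h3
  refine ⟨hn1, fun s hs1 hs2 m hm => ?_⟩
  have hnR : (1 : ℝ) ≤ n := by exact_mod_cast hn1
  have hn0 : (0 : ℝ) < n := by linarith
  rw [div_le_iff₀ hc] at h1 h2 h3
  have hm0 : (0 : ℝ) ≤ m := by positivity
  have hs0 : (0 : ℝ) ≤ s := by positivity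
  have hP : (0 : ℝ) < (n : ℝ) ^ (1 - 1 / 50 : ℝ) := Real.rpow_pos_of_pos hn0 _
  -- powers
  have e1 : (n : ℝ) ^ (101 / 100 : ℝ) = (n : ℝ) ^ (3 / 100 : ℝ) * (n : ℝ) ^ (1 - 1 / 50 : ℝ) := by
    rw [← Real.rpow_add hn0]
    norm_num
  have e2 : (n : ℝ) ^ (1 - 1 / 50 : ℝ) = (n : ℝ) ^ (95 / 100 : ℝ) * (n : ℝ) ^ (3 / 100 : ℝ) := by
    rw [← Real.rpow_add hn0]
    norm_num
  have e3 : (n : ℝ) ^ (1 - 1 / 50 : ℝ) = (n : ℝ) ^ (48 / 100 : ℝ) * (n : ℝ) ^ (1 / 2 : ℝ) := by
    rw [← Real.rpow_add hn0]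
    norm_num
  -- bound of m
  have hm2 : (m : ℝ) ≤ 2 * (n : ℝ) ^ (3 / 100 : ℝ) := by
    have : (m : ℝ) * (n : ℝ) ^ (1 - 1 / 50 : ℝ)
        ≤ 2 * (n : ℝ) ^ (3 / 100 : ℝ) * (n : ℝ) ^ (1 - 1 / 50 : ℝ) := by
      rw [mul_assoc, ← e1]
      linarith
    exact le_of_mul_le_mul_right this hP
  have hA : 0 ≤ Real.log k + k := by linarith
  -- first term
  have t1 : (m : ℝ) * (m * (Real.log k + k)) ≤ c / 4 * s := by
    have : (m : ℝ) * (m * (Real.log k + k)) * (n : ℝ) ^ (1 - 1 / 50 : ℝ)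
        ≤ c / 4 * s * (n : ℝ) ^ (1 - 1 / 50 : ℝ) := by
      calc (m : ℝ) * (m * (Real.log k + k)) * (n : ℝ) ^ (1 - 1 / 50 : ℝ)
          = (m * (n : ℝ) ^ (1 - 1 / 50 : ℝ)) * (m * (Real.log k + k)) := by ring
        _ ≤ (2 * s) * (2 * (n : ℝ) ^ (3 / 100 : ℝ) * (Real.log k + k)) :=
            mul_le_mul hm (mul_le_mul_of_nonneg_right hm2 hA) (by positivity) (by positivity)
        _ = (1 / 4 * s) * ((16 * (Real.log k + k)) * (n : ℝ) ^ (3 / 100 : ℝ)) := by ring
        _ ≤ (1 / 4 * s) * (((n : ℝ) ^ (95 / 100 : ℝ) * c) * (n : ℝ) ^ (3 / 100 : ℝ)) :=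
            mul_le_mul_of_nonneg_left (mul_le_mul_of_nonneg_right h1 (by positivity))
              (by positivity)
        _ = c / 4 * s * (n : ℝ) ^ (1 - 1 / 50 : ℝ) := by rw [e2]; ring
    exact le_of_mul_le_mul_right this hP
  -- logarithm
  have hlog : Real.log (n + 1) ≤ 4 * (n : ℝ) ^ (1 / 2 : ℝ) := by
    have l1 := Real.log_le_rpow_div (x := (n : ℝ) + 1) (by linarith) (ε := 1 / 2) (by norm_num)
    have l2 : ((n : ℝ) + 1) ^ (1 / 2 : ℝ) ≤ (4 * (n : ℝ)) ^ (1 / 2 : ℝ) :=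
      Real.rpow_le_rpow (by linarith) (by linarith) (by norm_num)
    have l3 : (4 * (n : ℝ)) ^ (1 / 2 : ℝ) = 2 * (n : ℝ) ^ (1 / 2 : ℝ) := by
      rw [Real.mul_rpow (by norm_num) hn0.le]
      congr 1
      rw [show (4 : ℝ) = 2 ^ (2 : ℝ) by norm_num, ← Real.rpow_mul (by norm_num)]
      norm_num
    linarith
  have hlog0 : Real.log n ≤ Real.log (n + 1) := Real.log_le_log hn0 (by linarith)
  have hlogn : 0 ≤ Real.log (n + 1) := Real.log_nonneg (by linarith)
  have t2 : (m : ℝ) * ((k + 1) * Real.log (n + 1)) ≤ c / 4 * s := by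
    have : (m : ℝ) * ((k + 1) * Real.log (n + 1)) * (n : ℝ) ^ (1 - 1 / 50 : ℝ)
        ≤ c / 4 * s * (n : ℝ) ^ (1 - 1 / 50 : ℝ) := by
      calc (m : ℝ) * ((k + 1) * Real.log (n + 1)) * (n : ℝ) ^ (1 - 1 / 50 : ℝ)
          = (m * (n : ℝ) ^ (1 - 1 / 50 : ℝ)) * ((k + 1) * Real.log (n + 1)) := by ring
        _ ≤ (2 * s) * ((k + 1) * (4 * (n : ℝ) ^ (1 / 2 : ℝ))) :=
            mul_le_mul hm (mul_le_mul_of_nonneg_left hlog (by positivity)) (by positivity)
              (by positivity)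
        _ = (1 / 4 * s) * ((32 * (k + 1)) * (n : ℝ) ^ (1 / 2 : ℝ)) := by ring
        _ ≤ (1 / 4 * s) * (((n : ℝ) ^ (48 / 100 : ℝ) * c) * (n : ℝ) ^ (1 / 2 : ℝ)) :=
            mul_le_mul_of_nonneg_left (mul_le_mul_of_nonneg_right h2 (by positivity))
              (by positivity)
        _ = c / 4 * s * (n : ℝ) ^ (1 - 1 / 50 : ℝ) := by rw [e3]; ring
    exact le_of_mul_le_mul_right this hP
  have t3 : (m : ℝ) * Real.log n ≤ m * Real.log (n + 1) := mul_le_mul_of_nonneg_left hlog0 hm0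
  have t4 : 1 ≤ c / 4 * s := by
    have : (n : ℝ) ^ (1 / 25 : ℝ) * c ≤ s * c := mul_le_mul_of_nonneg_right hs1 hc.le
    linarith
  have t5 : 0 ≤ c / 4 * s := by positivity
  nlinarith [t1, t2, t3, t4, t5]

open Classical in
theorem s3_sum (K : Type) [AddCommGroup K] [Fintype K] [DecidableEq K] (hodd : Odd (Fintype.card K)) :
    ∃ c : ℝ, 0 < c ∧ ∀ᶠ n : ℕ in atTop, ∀ s : ℕ, (n : ℝ) ^ (1 / 25 : ℝ) ≤ s →
      (s : ℝ) ≤ (n : ℝ) ^ (101 / 100 : ℝ) →
      ∑ f ∈ univ.filter (fun f : Coch n K => VMin f ∧ (suppE f).card = s), w f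
        ≤ Real.exp (-c * s) := by
  obtain ⟨c, hc, h3⟩ := s3_fixed K hodd
  have hk : 1 ≤ Fintype.card K := Fintype.card_pos
  refine ⟨c / 2, by linarith, ?_⟩
  filter_upwards [h3, s3b_analytic (Fintype.card K) hk (c / 2) (by linarith)] with n hn3 hna s hs1 hs2
  obtain ⟨hn1, hna⟩ := hna
  have hnR : (0 : ℝ) < n := by exact_mod_cast hn1
  set m : ℕ := ⌊2 * (s : ℝ) / (n : ℝ) ^ (1 - 1 / 50 : ℝ)⌋₊ with hm
  have hpow : (0 : ℝ) < (n : ℝ) ^ (1 - 1 / 50 : ℝ) := Real.rpow_pos_of_pos hnR _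
  have hm1 : (m : ℝ) * (n : ℝ) ^ (1 - 1 / 50 : ℝ) ≤ 2 * s := by
    have := Nat.floor_le (a := 2 * (s : ℝ) / (n : ℝ) ^ (1 - 1 / 50 : ℝ)) (by positivity)
    rw [← hm, le_div_iff₀ hpow] at this
    exact this
  have hmain := hna s hs1 hs2 m hm1
  -- grouping
  set k : ℕ := Fintype.card K with hkdef
  set HP : Coch n K → (Finset (Fin n) × Coch n K) := fun f =>
    (hub f, fun e => if e ∈ low (hub f) then 0 else f e) with hHP
  set T : Finset (Finset (Fin n) × Coch n K) := univ.filter (fun q => q.1.card ≤ m ∧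
    ∀ e ∈ low q.1, q.2 e = 0) with hT
  have hmaps : ∀ f ∈ univ.filter (fun f : Coch n K => VMin f ∧ (suppE f).card = s), HP f ∈ T := by
    intro f hf
    rw [mem_filter] at hf
    rw [hT, mem_filter]
    refine ⟨mem_univ _, ?_, ?_⟩
    · rw [hm, Nat.le_floor_iff (by positivity), le_div_iff₀ hpow]
      have := hub_card f
      rw [hf.2.2] at this
      exact this
    · intro e he
      rw [hHP]
      simp only
      rw [if_pos he]
  rw [← sum_fiberwise_of_maps_to hmaps]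
  -- every fibre
  have hfib : ∀ q ∈ T, ∑ f ∈ (univ.filter (fun f : Coch n K => VMin f ∧ (suppE f).card = s)).filter
      (fun f => HP f = q), w f ≤ Real.exp (-c * s) *
        ∏ x ∈ q.1, ∏ y ∈ univ.filter (fun y => y ∉ q.1), ((rx q.2 x (val q.2 x y) : ℝ) / n) := by
    intro q _
    refine le_trans ?_ (hn3 s hs1 hs2 q.1 q.2)
    apply sum_le_sum_of_subset_of_nonneg
    · intro f hf
      rw [mem_filter, mem_filter] at hf
      obtain ⟨⟨-, hf1, hf2⟩, hf3⟩ := hf
      rw [mem_filter]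
      have e1 : hub f = q.1 := congrArg Prod.fst hf3
      refine ⟨mem_univ _, hf1, e1, hf2, ?_⟩
      intro e he
      have e2 : (fun e => if e ∈ low (hub f) then 0 else f e) = q.2 := congrArg Prod.snd hf3
      rw [← e2]
      simp only
      rw [e1, if_neg he]
    · intro f _ _
      exact w_nonneg f
  refine (sum_le_sum hfib).trans ?_
  rw [← mul_sum]
  -- sum over the sets
  have hTs : ∑ q ∈ T, ∏ x ∈ q.1, ∏ y ∈ univ.filter (fun y => y ∉ q.1),
      ((rx q.2 x (val q.2 x y) : ℝ) / n)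
      = ∑ H ∈ univ.filter (fun H : Finset (Fin n) => H.card ≤ m),
        ∑ φ ∈ univ.filter (fun φ : Coch n K => ∀ e ∈ low H, φ e = 0),
          ∏ x ∈ H, ∏ y ∈ univ.filter (fun y => y ∉ H), ((rx φ x (val φ x y) : ℝ) / n) := by
    rw [hT, sum_filter, Fintype.sum_prod_type, sum_filter]
    refine sum_congr rfl fun H _ => ?_
    by_cases hHm : H.card ≤ m
    · rw [if_pos hHm, sum_filter]
      refine sum_congr rfl fun φ _ => ?_
      by_cases hφ : ∀ e ∈ low H, φ e = 0
      · rw [if_pos hφ, if_pos ⟨hHm, hφ⟩]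
      · rw [if_neg hφ, if_neg (fun h => hφ h.2)]
    · rw [if_neg hHm]
      refine sum_eq_zero fun φ _ => ?_
      rw [if_neg (fun h => hHm h.1)]
  rw [hTs]
  have hkR : (1 : ℝ) ≤ k := by exact_mod_cast hk
  have hlogk : 0 ≤ Real.log k := Real.log_nonneg hkR
  have hH : ∀ H ∈ univ.filter (fun H : Finset (Fin n) => H.card ≤ m),
      ∑ φ ∈ univ.filter (fun φ : Coch n K => ∀ e ∈ low H, φ e = 0),
          ∏ x ∈ H, ∏ y ∈ univ.filter (fun y => y ∉ H), ((rx φ x (val φ x y) : ℝ) / n)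
        ≤ Real.exp (m * (m * (Real.log k + k) + k * Real.log (n + 1))) := by
    intro H hH
    rw [mem_filter] at hH
    refine (s3b_hubpart K hn1 H).trans ?_
    have hh : (H.card : ℝ) ≤ m := by exact_mod_cast hH.2
    have e1 : (k : ℝ) ^ (H.card * H.card) = Real.exp (H.card * H.card * Real.log k) := by
      rw [← Real.rpow_natCast, Real.rpow_def_of_pos (by linarith)]
      push_cast
      congr 1
      ring
    have e2 : (((n : ℝ) + 1) ^ k * Real.exp (k * H.card)) ^ H.card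
        = Real.exp (H.card * (k * Real.log (n + 1) + k * H.card)) := by
      have : ((n : ℝ) + 1) ^ k = Real.exp (k * Real.log (n + 1)) := by
        rw [← Real.rpow_natCast, Real.rpow_def_of_pos (by linarith)]
        congr 1
        ring
      rw [this, ← Real.exp_add, ← Real.exp_nat_mul]
    rw [e1, e2, ← Real.exp_add, Real.exp_le_exp]
    have hlogn : 0 ≤ Real.log (n + 1) := Real.log_nonneg (by linarith)
    have hH0 : (0 : ℝ) ≤ H.card := by positivity
    have hA : 0 ≤ Real.log k + k := by linarith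
    have hB : 0 ≤ k * Real.log (n + 1) := by positivity
    calc (H.card : ℝ) * H.card * Real.log k + H.card * (k * Real.log (n + 1) + k * H.card)
        = H.card * (H.card * (Real.log k + k) + k * Real.log (n + 1)) := by ring
      _ ≤ m * (m * (Real.log k + k) + k * Real.log (n + 1)) := by
          apply mul_le_mul hh _ (by positivity) (by positivity)
          have := mul_le_mul_of_nonneg_right hh hA
          linarith
  have hsumH : ∑ H ∈ univ.filter (fun H : Finset (Fin n) => H.card ≤ m),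
        ∑ φ ∈ univ.filter (fun φ : Coch n K => ∀ e ∈ low H, φ e = 0),
          ∏ x ∈ H, ∏ y ∈ univ.filter (fun y => y ∉ H), ((rx φ x (val φ x y) : ℝ) / n)
      ≤ Real.exp (1 + m * Real.log n) *
        Real.exp (m * (m * (Real.log k + k) + k * Real.log (n + 1))) := by
    refine (sum_le_sum hH).trans ?_
    rw [sum_const, nsmul_eq_mul]
    refine mul_le_mul_of_nonneg_right ((s3b_count hn1 m).trans (le_of_eq ?_)) (Real.exp_pos _).le
    rw [Real.exp_add, ← Real.rpow_natCast, Real.rpow_def_of_pos hnR]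
    congr 2
    ring
  calc Real.exp (-c * s) * _ ≤ Real.exp (-c * s) * (Real.exp (1 + m * Real.log n) *
        Real.exp (m * (m * (Real.log k + k) + k * Real.log (n + 1)))) :=
        mul_le_mul_of_nonneg_left hsumH (Real.exp_pos _).le
    _ = Real.exp (-c * s + (1 + m * Real.log n +
        (m * (m * (Real.log k + k) + k * Real.log (n + 1))))) := by
        rw [← Real.exp_add, ← Real.exp_add]
    _ ≤ Real.exp (-(c / 2) * s) := by
        rw [Real.exp_le_exp]
        linarith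

end

end Pool.Agent.DH10
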