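import Pool.Agent.DH10.NZS4

/-!
# DH10.NZS4b : the range `n^{1.01} ≤ s ≤ n^{1.99}` (4.12)

`∑_{f VMin, |suppE f| = s} Phi f ≤ exp(-0.05 s)`.
Proof.  `k = |K|`, `η` small depending on `k` (e.g. `η = 1/(10^4 k)`), `ρ = s/n²`, `w = w4 n`.  For each `φ : Fin w → Fin n → K` with
`∑_i |supp φ_i| ≤ 4ws/n` (there are at most `∑_{j≤4ws/n} C(wn,j) k^j ≤ exp(n^{-1/400} s)` of them: `4ws/n ≤ 8 s n^{-0.005}`) let `F_φ` be the
`f` (VMin, `|suppE f| = s`) with (a) of `s4_sample`; the `F_φ` cover.  Put, for `x ≠ y`, `q0 = qq φ x y 0`, (`∑_a qq = 1`)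
  `q'_xy(a) = (1+2η) qq φ x y a + 2ηρ` (`a ≠ 0`), `q'_xy(0) = 1 - (1-2η)(1-q0) + 2kηρ`,
so `rr f x y a ≤ q'_xy(a)` for all `a` (from `|q - r| ≤ η max(r,ρ)`: `r ≤ (q+ηρ)/(1-η)`; `1-r_0 = ∑_{a≠0} r_a ≥ ((1-q0) - kηρ)/(1+η)`), mass
`m_xy = ∑ q' ≤ 1 + 4η(1-q0) + 4kηρ`.  `∏_{x<y} m_xy ≤ exp(4η ∑(1-q0) + 2kηs)`, and
`∑_{x<y}(1-q0) = (1/w) ∑_i #{x<y : φ_i x ≠ φ_i y} ≤ (1/w) n ∑_i |supp φ_i| ≤ 4s`.  `Phi f = ∏_e rr f e (f e) ≤ ∏ m_e · ∏_e (q'_e(f e)/m_e)`.
Under the product of the probabilities `q'/m`, the expected support size is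
`μ = ∑_e (1 - q'_e(0)/m_e) ≥ (1-10η) ∑_e (1-rr f e 0) - 10kηs ≥ 1.45 s` by `s4_mean` if `F_φ ≠ ∅`.  `chern_lower` (`A_e = {a ≠ 0}`):
probability of `|suppE f| ≤ s` is `≤ exp(-μ+s+s log(μ/s)) ≤ exp(-0.078 s)` (decreasing in `μ ≥ s`).  Total
`≤ exp(n^{-1/400}s + 16ηs + 2kηs - 0.078 s) ≤ exp(-0.05 s)`.
-/

set_option autoImplicit false

open Finset Filter

namespace Pool.Agent.DH10

noncomputable section

/-! ### numerics -/

private theorem log_aux {u : ℝ} (hu : 148 / 100 ≤ u) : -u + 1 + Real.log u ≤ -(8 / 100) := by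
  have h1 : (148 / 100 : ℝ) ≤ Real.exp (4 / 10) := by
    have := Real.quadratic_le_exp_of_nonneg (show (0 : ℝ) ≤ 4 / 10 by norm_num)
    norm_num at this ⊢
    linarith
  have h0 : (0 : ℝ) < 148 / 100 := by norm_num
  have hu0 : 0 < u := by linarith
  have h2 : Real.log (148 / 100) ≤ 4 / 10 := by
    rw [Real.log_le_iff_le_exp h0]
    exact h1
  have h3 : Real.log u = Real.log (148 / 100) + Real.log (u / (148 / 100)) := by
    rw [← Real.log_mul h0.ne' (div_pos hu0 h0).ne', mul_div_cancel₀ _ h0.ne']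
  have h4 : Real.log (u / (148 / 100)) ≤ u / (148 / 100) - 1 :=
    Real.log_le_sub_one_of_pos (div_pos hu0 h0)
  have h5 : u / (148 / 100) = u * (100 / 148) := by ring
  rw [h5] at h4
  rw [h3, h5]
  linarith

private theorem w4_small {k : ℝ} (hk : 1 ≤ k) : ∀ᶠ n : ℕ in atTop,
    4 * (w4 n : ℝ) / n * Real.log (k * n * w4 n) ≤ 1 / 100 ∧ 1 ≤ w4 n := by
  have h1 : Tendsto (fun n : ℕ => 8 * ((n : ℝ) ^ (-(5 / 1000) : ℝ) * (Real.log (2 * k) + 2 * Real.log n)))
      atTop (nhds 0) := by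
    have h2 : Tendsto (fun x : ℝ => x ^ (-(5 / 1000) : ℝ)) atTop (nhds 0) :=
      tendsto_rpow_neg_atTop (by norm_num)
    have h3 : Tendsto (fun x : ℝ => Real.log x * x ^ (-(5 / 1000) : ℝ)) atTop (nhds 0) := by
      have := (isLittleO_log_rpow_atTop (show (0 : ℝ) < 5 / 1000 by norm_num)).tendsto_div_nhds_zero
      refine this.congr' ?_
      filter_upwards [eventually_gt_atTop 0] with x hx
      rw [Real.rpow_neg hx.le, div_eq_mul_inv]
    have h4 : Tendsto (fun x : ℝ => 8 * (x ^ (-(5 / 1000) : ℝ) * (Real.log (2 * k) + 2 * Real.log x)))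
        atTop (nhds 0) := by
      have h5 := ((h2.const_mul (Real.log (2 * k))).add (h3.const_mul 2)).const_mul 8
      simp only [mul_zero, add_zero] at h5
      refine h5.congr fun x => ?_
      ring
    exact h4.comp tendsto_natCast_atTop_atTop
  filter_upwards [h1.eventually_le_const (u := 1 / 100) (by norm_num), eventually_ge_atTop 1]
    with n hn hn1
  have hn0 : (0 : ℝ) < n := by exact_mod_cast hn1
  have hn1' : (1 : ℝ) ≤ n := by exact_mod_cast hn1
  have hp1 : 1 ≤ (n : ℝ) ^ (995 / 1000 : ℝ) := Real.one_le_rpow hn1' (by norm_num)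
  have hw1 : 1 ≤ w4 n := by
    unfold w4
    rw [Nat.one_le_ceil_iff]
    linarith
  have hw1' : (1 : ℝ) ≤ w4 n := by exact_mod_cast hw1
  have hw2 : (w4 n : ℝ) ≤ 2 * (n : ℝ) ^ (995 / 1000 : ℝ) := by
    have := (Nat.ceil_lt_add_one (show 0 ≤ (n : ℝ) ^ (995 / 1000 : ℝ) by positivity)).le
    unfold w4
    linarith
  have hp2 : (n : ℝ) ^ (995 / 1000 : ℝ) ≤ n := by
    conv_rhs => rw [← Real.rpow_one (n : ℝ)]
    exact Real.rpow_le_rpow_of_exponent_le hn1' (by norm_num)
  have e1 : (n : ℝ) ^ (995 / 1000 : ℝ) / n = (n : ℝ) ^ (-(5 / 1000) : ℝ) := by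
    conv_lhs => rw [← Real.rpow_one (n : ℝ), ← Real.rpow_mul hn0.le, one_mul, ← Real.rpow_sub hn0]
    norm_num
  refine ⟨?_, hw1⟩
  have h2 : Real.log (k * n * w4 n) ≤ Real.log (2 * k) + 2 * Real.log n := by
    have h3 : k * n * w4 n ≤ (2 * k) * ((n : ℝ) ^ 2) := by
      have : (w4 n : ℝ) ≤ 2 * n := by linarith
      calc k * n * w4 n ≤ k * n * (2 * n) := by gcongr
        _ = (2 * k) * ((n : ℝ) ^ 2) := by ring
    refine (Real.log_le_log (by positivity) h3).trans (le_of_eq ?_)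
    rw [Real.log_mul (by positivity) (by positivity), Real.log_pow]
    norm_num
  have h3 : 0 ≤ Real.log (k * n * w4 n) := by
    apply Real.log_nonneg
    have : 1 * 1 * 1 ≤ k * n * (w4 n : ℝ) := by gcongr
    linarith
  have h4 : 4 * (w4 n : ℝ) / n ≤ 8 * (n : ℝ) ^ (-(5 / 1000) : ℝ) := by
    rw [← e1, ← mul_div_assoc]
    exact div_le_div_of_nonneg_right (by linarith) hn0.le
  calc 4 * (w4 n : ℝ) / n * Real.log (k * n * w4 n)
      ≤ 8 * (n : ℝ) ^ (-(5 / 1000) : ℝ) * (Real.log (2 * k) + 2 * Real.log n) :=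
        mul_le_mul h4 h2 h3 (by positivity)
    _ = 8 * ((n : ℝ) ^ (-(5 / 1000) : ℝ) * (Real.log (2 * k) + 2 * Real.log n)) := by ring
    _ ≤ 1 / 100 := hn

/-! ### counting samples -/

private theorem count_small {K : Type} [AddCommGroup K] [Fintype K] [DecidableEq K] (w n : ℕ) {M J : ℝ}
    (hM : 1 ≤ M) (hMk : (Fintype.card K : ℝ) * n * w ≤ M) :
    ((((univ : Finset (Fin w → Fin n → K)).filter fun φ =>
      (∑ i, ((univ.filter fun y => φ i y ≠ 0).card : ℝ)) ≤ J).card : ℕ) : ℝ) ≤ Real.exp 1 * M ^ J := by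
  have hM0 : 0 < M := by linarith
  set g : K → ℝ := fun a => if a ≠ 0 then M⁻¹ else 1 with hg
  have hg0 : ∀ a, 0 ≤ g a := by
    intro a
    simp only [hg]
    split_ifs <;> positivity
  have h1 : ∀ φ : Fin w → Fin n → K, ∏ i, ∏ y, g (φ i y) =
      M ^ (-(∑ i, ((univ.filter fun y => φ i y ≠ 0).card : ℝ))) := by
    intro φ
    have h2 : ∀ i, ∏ y, g (φ i y) = (M⁻¹) ^ (univ.filter fun y => φ i y ≠ 0).card := by
      intro i
      simp only [hg]
      rw [Finset.prod_ite, Finset.prod_const, Finset.prod_const_one, mul_one]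
    rw [Finset.prod_congr rfl fun i _ => h2 i, Finset.prod_pow_eq_pow_sum, Real.rpow_neg hM0.le,
      inv_pow, ← Nat.cast_sum, Real.rpow_natCast]
  have h3 : ∑ φ : Fin w → Fin n → K, ∏ i, ∏ y, g (φ i y) = ((∑ a, g a) ^ n) ^ w := by
    have h4 : ∏ i : Fin w, ∑ ψ : Fin n → K, ∏ y, g (ψ y) =
        ∑ φ : Fin w → Fin n → K, ∏ i, ∏ y, g (φ i y) := by
      rw [Finset.prod_univ_sum, Fintype.piFinset_univ]
    have h5 : ∏ y : Fin n, ∑ a, g a = ∑ ψ : Fin n → K, ∏ y, g (ψ y) := by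
      rw [Finset.prod_univ_sum, Fintype.piFinset_univ]
    rw [← h4, ← h5]
    simp
  have h6 : ∑ a, g a ≤ Real.exp ((Fintype.card K : ℝ) * M⁻¹) := by
    have h7 : ∀ a, g a ≤ (if a = 0 then (1 : ℝ) else 0) + M⁻¹ := by
      intro a
      simp only [hg]
      by_cases ha : a = 0
      · simp [ha, hM0.le]
      · simp [ha]
    refine (Finset.sum_le_sum fun a _ => h7 a).trans ?_
    rw [Finset.sum_add_distrib, Finset.sum_ite_eq', if_pos (mem_univ _), Finset.sum_const, card_univ,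
      nsmul_eq_mul]
    linarith [Real.add_one_le_exp ((Fintype.card K : ℝ) * M⁻¹)]
  have h8 : ((∑ a, g a) ^ n) ^ w ≤ Real.exp 1 := by
    have h9 : ((∑ a, g a) ^ n) ^ w ≤ ((Real.exp ((Fintype.card K : ℝ) * M⁻¹)) ^ n) ^ w := by
      have : 0 ≤ ∑ a, g a := Finset.sum_nonneg fun a _ => hg0 a
      gcongr
    refine h9.trans ?_
    rw [← Real.exp_nat_mul, ← Real.exp_nat_mul]
    refine Real.exp_le_exp.2 ?_
    have h10 : (w : ℝ) * (n * ((Fintype.card K : ℝ) * M⁻¹)) = ((Fintype.card K : ℝ) * n * w) * M⁻¹ := by ring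
    rw [h10, ← div_eq_mul_inv, div_le_one hM0]
    exact hMk
  rw [h3.symm] at h8
  calc ((((univ : Finset (Fin w → Fin n → K)).filter fun φ =>
        (∑ i, ((univ.filter fun y => φ i y ≠ 0).card : ℝ)) ≤ J).card : ℕ) : ℝ)
      = ∑ φ ∈ (univ : Finset (Fin w → Fin n → K)).filter (fun φ =>
        (∑ i, ((univ.filter fun y => φ i y ≠ 0).card : ℝ)) ≤ J), (1 : ℝ) := by simp
    _ ≤ ∑ φ ∈ (univ : Finset (Fin w → Fin n → K)).filter (fun φ =>
        (∑ i, ((univ.filter fun y => φ i y ≠ 0).card : ℝ)) ≤ J), M ^ J * ∏ i, ∏ y, g (φ i y) := by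
        refine Finset.sum_le_sum fun φ hφ => ?_
        rw [h1, ← Real.rpow_add hM0]
        have := (mem_filter.1 hφ).2
        exact Real.one_le_rpow hM (by linarith)
    _ ≤ ∑ φ : Fin w → Fin n → K, M ^ J * ∏ i, ∏ y, g (φ i y) := by
        refine Finset.sum_le_sum_of_subset_of_nonneg (subset_univ _) fun φ _ _ => ?_
        exact mul_nonneg (Real.rpow_nonneg hM0.le _)
          (Finset.prod_nonneg fun i _ => Finset.prod_nonneg fun y _ => hg0 _)
    _ = M ^ J * ∑ φ : Fin w → Fin n → K, ∏ i, ∏ y, g (φ i y) := by rw [Finset.mul_sum]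
    _ ≤ M ^ J * Real.exp 1 := mul_le_mul_of_nonneg_left h8 (Real.rpow_nonneg hM0.le _)
    _ = Real.exp 1 * M ^ J := mul_comm _ _

section

variable {n : ℕ} {K : Type} [AddCommGroup K] [Fintype K] [DecidableEq K]

omit [Fintype K] in
private theorem qq_nonneg' {k : ℕ} (φ : Fin k → Fin n → K) (x y : Fin n) (a : K) :
    0 ≤ qq φ x y a := by unfold qq; positivity

private theorem qq_sum' {k : ℕ} (hk : 0 < k) (φ : Fin k → Fin n → K) (x y : Fin n) :
    ∑ a, qq φ x y a = 1 := by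
  have hk' : (k : ℝ) ≠ 0 := by exact_mod_cast hk.ne'
  simp only [qq]
  rw [← Finset.sum_div, div_eq_one_iff_eq hk', ← Nat.cast_sum]
  have h := Finset.card_eq_sum_card_fiberwise (s := (univ : Finset (Fin k)))
    (t := (univ : Finset K)) (f := fun i => φ i y - φ i x) (fun _ _ => mem_coe.2 (mem_univ _))
  rw [Finset.card_univ, Fintype.card_fin] at h
  exact_mod_cast h.symm

omit [Fintype K] in
private theorem rr_nonneg' (f : Coch n K) (x y : Fin n) (a : K) :
    0 ≤ rr f x y a := by unfold rr; positivity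

private theorem rr_sum' (hn : 0 < n) (f : Coch n K) (x y : Fin n) :
    ∑ a, rr f x y a = 1 := by
  have hk' : (n : ℝ) ≠ 0 := by exact_mod_cast hn.ne'
  simp only [rr]
  rw [← Finset.sum_div, div_eq_one_iff_eq hk', ← Nat.cast_sum]
  have h := Finset.card_eq_sum_card_fiberwise (s := (univ : Finset (Fin n)))
    (t := (univ : Finset K)) (f := fun z => val f x z + val f z y) (fun _ _ => mem_coe.2 (mem_univ _))
  rw [Finset.card_univ, Fintype.card_fin] at h
  exact_mod_cast h.symm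

private theorem sum_ne_zero (q : K → ℝ) : ∑ a ∈ univ.filter (fun a : K => a ≠ 0), q a = ∑ a, q a - q 0 := by
  have h := Finset.sum_filter_add_sum_filter_not (univ : Finset K) (fun a => a = 0) q
  rw [Finset.filter_eq', if_pos (mem_univ _), Finset.sum_singleton] at h
  linarith

omit [Fintype K] in
private theorem Phi_eq (f : Coch n K) : Phi f = ∏ e : Edg n, rr f e.1.1 e.1.2 (f e) := by
  unfold Phi
  refine Finset.prod_congr rfl fun e _ => ?_
  have h1 : val f e.1.1 e.1.2 = f e := by rw [val, dif_pos e.2]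
  unfold Dg rr
  rw [h1]

private theorem two_card_Edg (n : ℕ) : 2 * (Fintype.card (Edg n) : ℝ) ≤ (n : ℝ) ^ 2 := by
  have h1 : 2 * Fintype.card (Edg n) ≤ n ^ 2 := by
    rw [Gen.card_Edg, Nat.choose_two_right]
    have h2 := Nat.div_mul_le_self (n * (n - 1)) 2
    have h3 : n * (n - 1) ≤ n ^ 2 := by
      rw [pow_two]
      exact Nat.mul_le_mul_left _ (Nat.sub_le _ _)
    omega
  exact_mod_cast h1

omit [Fintype K] in
/-- edges along which a function with small support is not constant -/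
private theorem bad_edges (ψ : Fin n → K) :
    (univ.filter fun e : Edg n => ψ e.1.2 - ψ e.1.1 ≠ 0).card ≤
      (univ.filter fun y => ψ y ≠ 0).card * n := by
  classical
  have h1 : (univ.filter fun e : Edg n => ψ e.1.2 - ψ e.1.1 ≠ 0).card ≤
      ((univ.filter fun y => ψ y ≠ 0) ×ˢ (univ : Finset (Fin n))).card := by
    refine Finset.card_le_card_of_injOn
      (fun e => if ψ e.1.1 ≠ 0 then (e.1.1, e.1.2) else (e.1.2, e.1.1)) ?_ ?_
    · intro e he
      have he' : ψ e.1.2 - ψ e.1.1 ≠ 0 := by simpa using he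
      simp only [coe_product, Set.mem_prod, mem_coe, mem_filter, mem_univ, true_and, and_true]
      by_cases h : ψ e.1.1 ≠ 0
      · rw [if_pos h]; exact h
      · rw [if_neg h]
        push Not at h
        rw [h, sub_zero] at he'
        exact he'
    · intro e _ e' _ h
      have h1 := e.2
      have h2 := e'.2
      simp only at h
      by_cases ha : ψ e.1.1 ≠ 0
      · by_cases hb : ψ e'.1.1 ≠ 0
        · rw [if_pos ha, if_pos hb] at h
          exact Subtype.ext h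
        · rw [if_pos ha, if_neg hb] at h
          obtain ⟨h3, h4⟩ := Prod.ext_iff.1 h
          simp only at h3 h4
          rw [h3, h4] at h1
          exact absurd h1 (not_lt.2 h2.le)
      · by_cases hb : ψ e'.1.1 ≠ 0
        · rw [if_neg ha, if_pos hb] at h
          obtain ⟨h3, h4⟩ := Prod.ext_iff.1 h
          simp only at h3 h4
          rw [h3, h4] at h1
          exact absurd h1 (not_lt.2 h2.le)
        · rw [if_neg ha, if_neg hb] at h
          obtain ⟨h3, h4⟩ := Prod.ext_iff.1 h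
          exact Subtype.ext (Prod.ext h4 h3)
  rw [card_product, card_univ, Fintype.card_fin] at h1
  exact h1

omit [Fintype K] in
/-- the total deviation of the samples -/
private theorem dev_sum {w : ℕ} (hw : 0 < w) (φ : Fin w → Fin n → K) :
    (w : ℝ) * ∑ e : Edg n, (1 - qq φ e.1.1 e.1.2 0) ≤
      n * ∑ i, ((univ.filter fun y => φ i y ≠ 0).card : ℝ) := by
  have hw' : (w : ℝ) ≠ 0 := by exact_mod_cast hw.ne'
  have h1 : ∀ e : Edg n, (w : ℝ) * (1 - qq φ e.1.1 e.1.2 0) =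
      ∑ i : Fin w, if φ i e.1.2 - φ i e.1.1 ≠ 0 then (1 : ℝ) else 0 := by
    intro e
    have h2 : (w : ℝ) * qq φ e.1.1 e.1.2 0 = ∑ i : Fin w, if φ i e.1.2 - φ i e.1.1 = 0 then (1 : ℝ) else 0 := by
      unfold qq
      rw [mul_div_cancel₀ _ hw']
      simp
    have h3 : (w : ℝ) = ∑ i : Fin w, (1 : ℝ) := by simp
    rw [mul_sub, mul_one, h2]
    conv_lhs => rw [h3]
    rw [← Finset.sum_sub_distrib]
    refine Finset.sum_congr rfl fun i _ => ?_
    by_cases h : φ i e.1.2 - φ i e.1.1 = 0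
    · simp [h]
    · simp [h]
  rw [Finset.mul_sum, Finset.sum_congr rfl fun e _ => h1 e, Finset.sum_comm, Finset.mul_sum]
  refine Finset.sum_le_sum fun i _ => ?_
  have h2 := bad_edges (φ i)
  have h3 : (∑ e : Edg n, if φ i e.1.2 - φ i e.1.1 ≠ 0 then (1 : ℝ) else 0) =
      ((univ.filter fun e : Edg n => φ i e.1.2 - φ i e.1.1 ≠ 0).card : ℝ) := by
    rw [Finset.sum_ite, Finset.sum_const_zero, add_zero, Finset.sum_const, nsmul_eq_mul, mul_one]
  rw [h3, mul_comm (n : ℝ)]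
  exact_mod_cast h2

open Classical in
/-- the sum over the cochains with a given sample -/
private theorem fixed_sum {w s : ℕ} (hn : 0 < n) (hw : 0 < w) (hs : 0 < s) (φ : Fin w → Fin n → K)
    {η : ℝ} (hη : 0 < η) (hηk : 10 ^ 4 * (Fintype.card K : ℝ) * η ≤ 1)
    (hφ : (∑ i, ((univ.filter fun y => φ i y ≠ 0).card : ℝ)) ≤ 4 * w * s / n)
    (F : Finset (Coch n K)) (hF1 : ∀ f ∈ F, (suppE f).card = s)
    (hF2 : ∀ f ∈ F, ∀ x y a, a ≠ 0 → |qq φ x y a - rr f x y a| ≤ η * max (rr f x y a) (s / (n : ℝ) ^ 2))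
    (hF3 : ∀ f ∈ F, 1.49 * (s : ℝ) ≤ ∑ e : Edg n, (1 - rr f e.1.1 e.1.2 0)) :
    ∑ f ∈ F, Phi f ≤ Real.exp (-(78 / 1000) * s) := by
  rcases F.eq_empty_or_nonempty with hFe | ⟨f0, hf0⟩
  · rw [hFe, Finset.sum_empty]
    exact (Real.exp_pos _).le
  have hn0 : (0 : ℝ) < n := by exact_mod_cast hn
  have hw0 : (0 : ℝ) < w := by exact_mod_cast hw
  have hs0 : (0 : ℝ) < s := by exact_mod_cast hs
  have hk1 : (1 : ℝ) ≤ Fintype.card K := by
    exact_mod_cast Fintype.card_pos_iff.2 ⟨(0 : K)⟩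
  set k : ℝ := (Fintype.card K : ℝ) with hk
  have hkη : k * η ≤ 1 / 10 ^ 4 := by
    rw [le_div_iff₀ (by norm_num)]
    linarith
  have hη1 : η ≤ 1 / 10 ^ 4 := by
    have : 1 * η ≤ k * η := mul_le_mul_of_nonneg_right hk1 hη.le
    linarith
  have hkη0 : 0 < k * η := by positivity
  set ρ : ℝ := s / (n : ℝ) ^ 2 with hρ
  have hρ0 : 0 < ρ := by positivity
  have hE := two_card_Edg n
  have hEρ : (Fintype.card (Edg n) : ℝ) * ρ ≤ s / 2 := by
    rw [hρ, ← mul_div_assoc, div_le_iff₀ (by positivity)]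
    have := mul_le_mul_of_nonneg_right hE hs0.le
    linarith
  have hρ1 : ρ ≤ 1 := by
    rw [hρ, div_le_one (by positivity)]
    have h1 : s ≤ Fintype.card (Edg n) := by
      rw [← hF1 f0 hf0]
      exact card_le_univ _
    have h2 : (s : ℝ) ≤ Fintype.card (Edg n) := by exact_mod_cast h1
    have h3 : (0 : ℝ) ≤ Fintype.card (Edg n) := Nat.cast_nonneg _
    linarith
  -- the sample law
  set q : Edg n → K → ℝ := fun e a => qq φ e.1.1 e.1.2 a with hq
  have hq0 : ∀ e a, 0 ≤ q e a := fun e a => qq_nonneg' φ _ _ _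
  have hqs : ∀ e, ∑ a, q e a = 1 := fun e => qq_sum' hw φ _ _
  have hq1 : ∀ e, q e 0 ≤ 1 := by
    intro e
    rw [← hqs e]
    exact Finset.single_le_sum (f := fun a => q e a) (fun a _ => hq0 e a) (mem_univ _)
  set D : ℝ := ∑ e : Edg n, (1 - q e 0) with hD
  have hD4 : D ≤ 4 * s := by
    have h1 := dev_sum hw φ
    have h2 := mul_le_mul_of_nonneg_left hφ hn0.le
    have h3 : (n : ℝ) * (4 * w * s / n) = w * (4 * s) := by field_simp
    rw [h3] at h2
    exact le_of_mul_le_mul_left (h1.trans h2) hw0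
  -- the dominating weights
  set C : Edg n → ℝ := fun e => (1 - (1 - 2 * η) * (1 - q e 0) + 2 * (k * η) * ρ)
    - ((1 + 2 * η) * q e 0 + 2 * η * ρ) with hC
  set p : Edg n → K → ℝ := fun e a => ((1 + 2 * η) * q e a + 2 * η * ρ) + (if a = 0 then C e else 0) with hp
  have hp0 : ∀ e, p e 0 = 1 - (1 - 2 * η) * (1 - q e 0) + 2 * (k * η) * ρ := by
    intro e
    simp only [hp, hC, if_true]
    ring
  have hpa : ∀ e a, a ≠ 0 → p e a = (1 + 2 * η) * q e a + 2 * η * ρ := by
    intro e a ha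
    simp only [hp, if_neg ha, add_zero]
  have hpnn : ∀ e a, 0 ≤ p e a := by
    intro e a
    by_cases ha : a = 0
    · rw [ha, hp0]
      have h1 := hq0 e 0
      have h2 := hq1 e
      have h3 : (1 - 2 * η) * (1 - q e 0) ≤ 1 * 1 :=
        mul_le_mul (by linarith) (by linarith) (by linarith) (by norm_num)
      have h4 : 0 ≤ 2 * (k * η) * ρ := by positivity
      linarith
    · rw [hpa e a ha]
      have h1 := hq0 e a
      positivity
  set m : Edg n → ℝ := fun e => ∑ a, p e a with hm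
  have hme : ∀ e, m e = 1 + 4 * η * (1 - q e 0) + 4 * (k * η) * ρ - 2 * η * ρ := by
    intro e
    simp only [hm, hp]
    rw [Finset.sum_add_distrib, Finset.sum_add_distrib, ← Finset.mul_sum, hqs, Finset.sum_const, card_univ,
      nsmul_eq_mul, Finset.sum_ite_eq', if_pos (mem_univ _), ← hk]
    simp only [hC]
    ring
  have hηρ : 0 < η * ρ := by positivity
  have hkηρ : η * ρ ≤ k * η * ρ := by
    have : 1 * (η * ρ) ≤ k * (η * ρ) := mul_le_mul_of_nonneg_right hk1 hηρ.le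
    linarith
  have hm1 : ∀ e, 1 ≤ m e := by
    intro e
    rw [hme]
    have h1 : 0 ≤ η * (1 - q e 0) := mul_nonneg hη.le (by linarith [hq1 e])
    linarith
  have hmexp : ∀ e, m e ≤ Real.exp (4 * η * (1 - q e 0) + 4 * (k * η) * ρ) := by
    intro e
    have h1 := Real.add_one_le_exp (4 * η * (1 - q e 0) + 4 * (k * η) * ρ)
    rw [hme]
    linarith
  have hmle : ∀ e, m e ≤ 1 + 8 * (k * η) := by
    intro e
    rw [hme]
    have h1 : η * (1 - q e 0) ≤ η * 1 := mul_le_mul_of_nonneg_left (by linarith [hq0 e 0]) hη.le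
    have h2 : k * η * ρ ≤ k * η * 1 := mul_le_mul_of_nonneg_left hρ1 hkη0.le
    have h3 : 1 * η ≤ k * η := mul_le_mul_of_nonneg_right hk1 hη.le
    linarith
  have hprod : ∏ e, m e ≤ Real.exp (18 / 10 ^ 4 * s) := by
    have h1 : ∏ e, m e ≤ ∏ e : Edg n, Real.exp (4 * η * (1 - q e 0) + 4 * (k * η) * ρ) :=
      Finset.prod_le_prod (fun e _ => by linarith [hm1 e]) fun e _ => hmexp e
    refine h1.trans ?_
    rw [← Real.exp_sum]
    refine Real.exp_le_exp.2 ?_
    rw [Finset.sum_add_distrib, ← Finset.mul_sum, Finset.sum_const, card_univ, nsmul_eq_mul]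
    have h2 : 4 * η * D ≤ 4 * η * (4 * s) := mul_le_mul_of_nonneg_left hD4 (by positivity)
    have h3 : (Fintype.card (Edg n) : ℝ) * (4 * (k * η) * ρ) = 4 * (k * η) * (Fintype.card (Edg n) * ρ) := by
      ring
    have h4 : 4 * (k * η) * (Fintype.card (Edg n) * ρ) ≤ 4 * (k * η) * (s / 2) :=
      mul_le_mul_of_nonneg_left hEρ (by positivity)
    rw [h3]
    have h5 : η * s ≤ 1 / 10 ^ 4 * s := mul_le_mul_of_nonneg_right hη1 hs0.le
    have h6 : k * η * s ≤ 1 / 10 ^ 4 * s := mul_le_mul_of_nonneg_right hkη hs0.le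
    linarith
  -- comparison with the true frequencies
  have hcomp : ∀ f ∈ F, ∀ (e : Edg n) (a : K), rr f e.1.1 e.1.2 a ≤ p e a := by
    intro f hf e a
    have hr0 : ∀ a, 0 ≤ rr f e.1.1 e.1.2 a := fun a => rr_nonneg' f _ _ a
    have hrs : ∑ a, rr f e.1.1 e.1.2 a = 1 := rr_sum' hn f _ _
    have hab : ∀ a, a ≠ 0 → |q e a - rr f e.1.1 e.1.2 a| ≤ η * (rr f e.1.1 e.1.2 a + ρ) := by
      intro a ha
      refine (hF2 f hf e.1.1 e.1.2 a ha).trans (mul_le_mul_of_nonneg_left ?_ hη.le)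
      exact max_le (by linarith) (by linarith [hr0 a])
    by_cases ha : a = 0
    · subst ha
      rw [hp0]
      have h1 : ∑ a ∈ univ.filter (fun a : K => a ≠ 0), q e a ≤
          ∑ a ∈ univ.filter (fun a : K => a ≠ 0), ((1 + η) * rr f e.1.1 e.1.2 a + η * ρ) := by
        refine Finset.sum_le_sum fun a ha => ?_
        have := (abs_le.1 (hab a (mem_filter.1 ha).2)).2
        linarith
      have hA1 : ∑ a ∈ univ.filter (fun a : K => a ≠ 0), rr f e.1.1 e.1.2 a = 1 - rr f e.1.1 e.1.2 0 := by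
        rw [sum_ne_zero, hrs]
      have hA2 : ∑ a ∈ univ.filter (fun a : K => a ≠ 0), q e a = 1 - q e 0 := by
        rw [sum_ne_zero, hqs]
      have hA3 : ∑ a ∈ univ.filter (fun a : K => a ≠ 0), η * ρ = k * (η * ρ) - η * ρ := by
        rw [sum_ne_zero, Finset.sum_const, card_univ, nsmul_eq_mul, ← hk]
      rw [Finset.sum_add_distrib, ← Finset.mul_sum, hA1, hA2, hA3] at h1
      set r0 := rr f e.1.1 e.1.2 0 with hr00
      have hr1 : r0 ≤ 1 := by
        rw [← hrs]
        exact Finset.single_le_sum (f := fun a => rr f e.1.1 e.1.2 a) (fun a _ => hr0 a) (mem_univ _)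
      have h2 := hq0 e 0
      have h3 := hq1 e
      have h4 : η * (1 - q e 0) ≤ η * 1 := mul_le_mul_of_nonneg_left (by linarith) hη.le
      have h5 : 0 ≤ η * (1 - q e 0) := mul_nonneg hη.le (by linarith)
      -- `(1 - 2η)(1 - q0) ≤ (1 - η)(1+η)(1-r0) + kηρ`
      have h6 : (1 - η) * (1 - q e 0) ≤ (1 - η) * ((1 + η) * (1 - r0) + k * (η * ρ)) :=
        mul_le_mul_of_nonneg_left (by linarith) (by linarith)
      have h7 : 0 ≤ η * η * (1 - r0) := mul_nonneg (by positivity) (by linarith)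
      have h8 : 0 ≤ η * (k * (η * ρ)) := by positivity
      have h9 : 0 ≤ k * (η * ρ) := by positivity
      nlinarith
    · rw [hpa e a ha]
      have h1 := (abs_le.1 (hab a ha)).1
      have h2 := hr0 a
      have h3 := hq0 e a
      set r := rr f e.1.1 e.1.2 a with hr
      -- `(1-η) r ≤ q + ηρ`
      have h4 : (1 - η) * r ≤ q e a + η * ρ := by linarith
      have h5 : (1 + 2 * η) * ((1 - η) * r) ≤ (1 + 2 * η) * (q e a + η * ρ) :=
        mul_le_mul_of_nonneg_left h4 (by linarith)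
      have h6 : 0 ≤ η * (1 - 2 * η) * r := mul_nonneg (mul_nonneg hη.le (by linarith)) h2
      have h7 : (1 + 2 * η) * (η * ρ) ≤ 2 * (η * ρ) := mul_le_mul_of_nonneg_right (by linarith) hηρ.le
      nlinarith
  -- lower bound of the mean
  have hDlow : 149 / 100 * s - 2 * (k * η) * s ≤ D := by
    have h1 : ∀ e : Edg n, (1 - η) * (1 - rr f0 e.1.1 e.1.2 0) - k * η * ρ ≤ 1 - q e 0 := by
      intro e
      have hr0 : ∀ a, 0 ≤ rr f0 e.1.1 e.1.2 a := fun a => rr_nonneg' f0 _ _ a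
      have hrs : ∑ a, rr f0 e.1.1 e.1.2 a = 1 := rr_sum' hn f0 _ _
      have hab : ∀ a, a ≠ 0 → |q e a - rr f0 e.1.1 e.1.2 a| ≤ η * (rr f0 e.1.1 e.1.2 a + ρ) := by
        intro a ha
        refine (hF2 f0 hf0 e.1.1 e.1.2 a ha).trans (mul_le_mul_of_nonneg_left ?_ hη.le)
        exact max_le (by linarith) (by linarith [hr0 a])
      have h1 : ∑ a ∈ univ.filter (fun a : K => a ≠ 0), ((1 - η) * rr f0 e.1.1 e.1.2 a - η * ρ) ≤
          ∑ a ∈ univ.filter (fun a : K => a ≠ 0), q e a := by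
        refine Finset.sum_le_sum fun a ha => ?_
        have := (abs_le.1 (hab a (mem_filter.1 ha).2)).1
        linarith
      have hA1 : ∑ a ∈ univ.filter (fun a : K => a ≠ 0), rr f0 e.1.1 e.1.2 a = 1 - rr f0 e.1.1 e.1.2 0 := by
        rw [sum_ne_zero, hrs]
      have hA2 : ∑ a ∈ univ.filter (fun a : K => a ≠ 0), q e a = 1 - q e 0 := by
        rw [sum_ne_zero, hqs]
      have hA3 : ∑ a ∈ univ.filter (fun a : K => a ≠ 0), η * ρ = k * (η * ρ) - η * ρ := by
        rw [sum_ne_zero, Finset.sum_const, card_univ, nsmul_eq_mul, ← hk]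
      rw [Finset.sum_sub_distrib, ← Finset.mul_sum, hA1, hA2, hA3] at h1
      linarith
    have h2 := Finset.sum_le_sum fun (e : Edg n) (_ : e ∈ univ) => h1 e
    rw [Finset.sum_sub_distrib, ← Finset.mul_sum, Finset.sum_const, card_univ, nsmul_eq_mul] at h2
    have h3 := hF3 f0 hf0
    have h4 : (1 - η) * (1.49 * (s : ℝ)) ≤ (1 - η) * ∑ e : Edg n, (1 - rr f0 e.1.1 e.1.2 0) :=
      mul_le_mul_of_nonneg_left h3 (by linarith)
    have h5 : k * η * (Fintype.card (Edg n) * ρ) ≤ k * η * (s / 2) :=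
      mul_le_mul_of_nonneg_left hEρ hkη0.le
    have h6 : 1 * η * s ≤ k * η * s := by
      have : 1 * η ≤ k * η := mul_le_mul_of_nonneg_right hk1 hη.le
      exact mul_le_mul_of_nonneg_right this hs0.le
    have h7 : (Fintype.card (Edg n) : ℝ) * (k * η * ρ) = k * η * (Fintype.card (Edg n) * ρ) := by ring
    rw [h7] at h2
    have h8 : (1 - η) * (1.49 * (s : ℝ)) = 149 / 100 * s - 149 / 100 * (η * s) := by ring
    rw [h8] at h4
    have h9 : 0 ≤ k * η * s := by positivity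
    linarith
  -- the probability measure
  have hm0 : ∀ e, 0 < m e := fun e => by linarith [hm1 e]
  set A : Edg n → Finset K := fun _ => univ.filter fun a => a ≠ 0 with hA
  set μ : ℝ := ∑ e : Edg n, ∑ a ∈ A e, p e a / m e with hμ
  have hμlow : 148 / 100 * s ≤ μ := by
    have h1 : ∀ e : Edg n, (1 - q e 0) - 8 * (k * η) * (1 - q e 0) ≤ ∑ a ∈ A e, p e a / m e := by
      intro e
      rw [← Finset.sum_div, le_div_iff₀ (hm0 e)]
      have h2 : 1 - q e 0 ≤ ∑ a ∈ A e, p e a := by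
        have h3 : ∑ a ∈ A e, q e a ≤ ∑ a ∈ A e, p e a := by
          refine Finset.sum_le_sum fun a ha => ?_
          rw [hpa e a (mem_filter.1 ha).2]
          have := mul_nonneg hη.le (hq0 e a)
          linarith
        have h4 : ∑ a ∈ A e, q e a = 1 - q e 0 := by
          simp only [hA]
          rw [sum_ne_zero, hqs]
        linarith
      have h5 : 0 ≤ 1 - q e 0 := by linarith [hq1 e]
      have h6 : (1 - 8 * (k * η)) * m e ≤ 1 := by
        have h7 : (1 - 8 * (k * η)) * m e ≤ (1 - 8 * (k * η)) * (1 + 8 * (k * η)) :=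
          mul_le_mul_of_nonneg_left (hmle e) (by linarith)
        nlinarith
      have h8 := mul_le_mul_of_nonneg_left h6 h5
      nlinarith
    have h2 := Finset.sum_le_sum fun (e : Edg n) (_ : e ∈ univ) => h1 e
    rw [Finset.sum_sub_distrib, ← Finset.mul_sum] at h2
    have h3 : 8 * (k * η) * D ≤ 8 * (k * η) * (4 * s) := mul_le_mul_of_nonneg_left hD4 (by positivity)
    have h4 : k * η * s ≤ 1 / 10 ^ 4 * s := mul_le_mul_of_nonneg_right hkη hs0.le
    have h5 : D - 8 * (k * η) * D ≤ μ := h2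
    linarith
  have hch := chern_lower (fun (e : Edg n) a => p e a / m e) (fun e a => div_nonneg (hpnn e a) (hm0 e).le)
    (fun e => by rw [← Finset.sum_div]; exact div_self (hm0 e).ne') A hs0 hμ (by linarith)
  have hF : ∑ f ∈ F, ∏ e, p e (f e) / m e ≤ Real.exp (-μ + s + s * Real.log (μ / s)) := by
    refine le_trans (Finset.sum_le_sum_of_subset_of_nonneg ?_ ?_) hch
    · intro f hf
      rw [mem_filter]
      refine ⟨mem_univ _, ?_⟩
      have h1 : (univ.filter fun e => f e ∈ A e) = suppE f := by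
        ext e
        simp [hA, suppE]
      rw [h1, hF1 f hf]
    · intro f _ _
      exact Finset.prod_nonneg fun e _ => div_nonneg (hpnn e _) (hm0 e).le
  have hexp : Real.exp (-μ + s + s * Real.log (μ / s)) ≤ Real.exp (-(8 / 100) * s) := by
    refine Real.exp_le_exp.2 ?_
    have h1 : 148 / 100 ≤ μ / s := by rw [le_div_iff₀ hs0]; exact hμlow
    have h2 := mul_le_mul_of_nonneg_left (log_aux h1) hs0.le
    have h3 : (s : ℝ) * (-(μ / s) + 1 + Real.log (μ / s)) = -μ + s + s * Real.log (μ / s) := by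
      field_simp
    rw [h3] at h2
    linarith
  calc ∑ f ∈ F, Phi f ≤ ∑ f ∈ F, (∏ e, m e) * ∏ e, p e (f e) / m e := by
        refine Finset.sum_le_sum fun f hf => ?_
        rw [Phi_eq, ← Finset.prod_mul_distrib]
        refine Finset.prod_le_prod (fun e _ => rr_nonneg' f _ _ _) fun e _ => ?_
        rw [mul_div_cancel₀ _ (hm0 e).ne']
        exact hcomp f hf e (f e)
    _ = (∏ e, m e) * ∑ f ∈ F, ∏ e, p e (f e) / m e := by rw [Finset.mul_sum]
    _ ≤ Real.exp (18 / 10 ^ 4 * s) * Real.exp (-(8 / 100) * s) := by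
        refine mul_le_mul hprod (hF.trans hexp) ?_ (Real.exp_pos _).le
        exact Finset.sum_nonneg fun f _ => Finset.prod_nonneg fun e _ => div_nonneg (hpnn e _) (hm0 e).le
    _ ≤ Real.exp (-(78 / 1000) * s) := by
        rw [← Real.exp_add]
        refine Real.exp_le_exp.2 ?_
        linarith

end

private theorem sum_biUnion_le4 {ι α : Type*} [DecidableEq α] (s : Finset ι) (t : ι → Finset α)
    (g : α → ℝ) (hg : ∀ a, 0 ≤ g a) : ∑ a ∈ s.biUnion t, g a ≤ ∑ i ∈ s, ∑ a ∈ t i, g a := by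
  classical
  induction s using Finset.induction_on with
  | empty => simp
  | insert i s hi ih =>
    rw [Finset.biUnion_insert, Finset.sum_insert hi]
    have h1 := Finset.sum_union_inter (s₁ := t i) (s₂ := s.biUnion t) (f := g)
    have h2 : 0 ≤ ∑ a ∈ t i ∩ s.biUnion t, g a := Finset.sum_nonneg fun a _ => hg a
    linarith

open Classical in
theorem s4_sum (K : Type) [AddCommGroup K] [Fintype K] [DecidableEq K] :
    ∀ᶠ n : ℕ in atTop, ∀ s : ℕ, (n : ℝ) ^ (101 / 100 : ℝ) ≤ s → (s : ℝ) ≤ (n : ℝ) ^ (199 / 100 : ℝ) →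
      ∑ f ∈ univ.filter (fun f : Coch n K => VMin f ∧ (suppE f).card = s), Phi f
        ≤ Real.exp (-(5 / 100) * s) := by
  have hk1 : (1 : ℝ) ≤ Fintype.card K := by
    exact_mod_cast Fintype.card_pos_iff.2 ⟨(0 : K)⟩
  set k : ℝ := (Fintype.card K : ℝ) with hk
  set η : ℝ := 1 / (10 ^ 4 * k) with hη
  have hη0 : 0 < η := by positivity
  have hηk : 10 ^ 4 * k * η ≤ 1 := by
    rw [hη]
    exact le_of_eq (by field_simp)
  have hη1 : η ≤ 1 := by
    rw [hη, div_le_one (by positivity)]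
    linarith
  filter_upwards [s4_sample K hη0 hη1, s4_mean K, w4_small hk1, eventually_ge_atTop 100]
    with n hsam hmean hw4 hn s hs1 hs2
  obtain ⟨hw4a, hw4b⟩ := hw4
  have hn0 : (0 : ℝ) < n := by
    have : 0 < n := by omega
    exact_mod_cast this
  have hn1 : (100 : ℝ) ≤ n := by exact_mod_cast hn
  have hns : (n : ℝ) ≤ s := by
    refine le_trans ?_ hs1
    conv_lhs => rw [← Real.rpow_one (n : ℝ)]
    exact Real.rpow_le_rpow_of_exponent_le (by linarith) (by norm_num)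
  have hs0 : (0 : ℝ) < s := by linarith
  have hw0 : (1 : ℝ) ≤ w4 n := by exact_mod_cast hw4b
  set M : ℝ := k * n * w4 n with hM
  have hM1 : 1 ≤ M := by
    have : 1 * 1 * 1 ≤ k * n * (w4 n : ℝ) := by
      gcongr
      linarith
    linarith
  set J : ℝ := 4 * (w4 n) * s / n with hJ
  set Φ : Finset (Fin (w4 n) → Fin n → K) := univ.filter fun φ =>
      (∑ i, ((univ.filter fun y => φ i y ≠ 0).card : ℝ)) ≤ J with hΦ
  set FF : (Fin (w4 n) → Fin n → K) → Finset (Coch n K) := fun φ => univ.filter fun f : Coch n K =>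
    VMin f ∧ (suppE f).card = s ∧ ∀ x y a, a ≠ 0 → |qq φ x y a - rr f x y a|
          ≤ η * max (rr f x y a) (s / (n : ℝ) ^ 2) with hFF
  have hcov : univ.filter (fun f : Coch n K => VMin f ∧ (suppE f).card = s) ⊆ Φ.biUnion FF := by
    intro f hf
    obtain ⟨hf1, hf2⟩ := (mem_filter.1 hf).2
    obtain ⟨φ, h1, h2⟩ := hsam f (by rw [hf2]; exact hs1)
    rw [hf2] at h1 h2
    rw [mem_biUnion]
    refine ⟨φ, mem_filter.2 ⟨mem_univ _, h2⟩, mem_filter.2 ⟨mem_univ _, hf1, hf2, h1⟩⟩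
  have hPhi : ∀ f : Coch n K, 0 ≤ Phi f := by
    intro f
    unfold Phi
    exact Finset.prod_nonneg fun e _ => by positivity
  have hcount : (Φ.card : ℝ) ≤ Real.exp 1 * M ^ J := count_small (w4 n) n hM1 le_rfl
  have hMJ : Real.exp 1 * M ^ J ≤ Real.exp (2 / 100 * s) := by
    rw [Real.rpow_def_of_pos (by linarith), ← Real.exp_add]
    refine Real.exp_le_exp.2 ?_
    have h1 : Real.log M * J = (4 * (w4 n : ℝ) / n * Real.log M) * s := by
      rw [hJ]
      ring
    have h2 : (4 * (w4 n : ℝ) / n * Real.log M) * s ≤ 1 / 100 * s :=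
      mul_le_mul_of_nonneg_right hw4a hs0.le
    rw [h1]
    linarith
  calc ∑ f ∈ univ.filter (fun f : Coch n K => VMin f ∧ (suppE f).card = s), Phi f
      ≤ ∑ f ∈ Φ.biUnion FF, Phi f :=
        Finset.sum_le_sum_of_subset_of_nonneg hcov fun f _ _ => hPhi f
    _ ≤ ∑ φ ∈ Φ, ∑ f ∈ FF φ, Phi f := sum_biUnion_le4 Φ FF Phi hPhi
    _ ≤ ∑ φ ∈ Φ, Real.exp (-(78 / 1000) * s) := by
        refine Finset.sum_le_sum fun φ hφ => ?_
        refine fixed_sum (by omega) (by omega) (by exact_mod_cast hs0) φ hη0 hηk (mem_filter.1 hφ).2 (FF φ) ?_ ?_ ?_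
        · intro f hf
          exact (mem_filter.1 hf).2.2.1
        · intro f hf
          exact (mem_filter.1 hf).2.2.2
        · intro f hf
          have h1 := (mem_filter.1 hf).2.1
          have h2 := (mem_filter.1 hf).2.2.1
          have h3 := hmean f h1 (by rw [h2]; exact hs2)
          rw [h2] at h3
          exact h3
    _ = Φ.card * Real.exp (-(78 / 1000) * s) := by rw [Finset.sum_const, nsmul_eq_mul]
    _ ≤ Real.exp (2 / 100 * s) * Real.exp (-(78 / 1000) * s) :=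
        mul_le_mul_of_nonneg_right (hcount.trans hMJ) (Real.exp_pos _).le
    _ ≤ Real.exp (-(5 / 100) * s) := by
        rw [← Real.exp_add]
        refine Real.exp_le_exp.2 ?_
        linarith

end

end Pool.Agent.DH10
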