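import Pool.Agent.DH10.NZS1
import Pool.Agent.DH10.NZS2
import Pool.Agent.DH10.NZS3b
import Pool.Agent.DH10.NZS4b

/-!
# DH10.NZFinal : near-zero classes are negligible (Prop 4.0)

Proof.  `Minl f → VMin f` (use `c` = a single vertex value; `Minl` for `c = a 1_{x}` changes only the edges at `x`:
`val (f + cob c) x y = val f x y - a`).  For every fixed `s2`: for `n` large
`∑ ≤ ∑_{1≤s<s2} C_s/n + ∑_{s2≤s≤n^{1/25}} B (10/11)^s + ∑_{n^{1/25}<s≤n^{1.01}} e^{-cs} + ∑_{n^{1.01}<s≤C1 n^{1.98}} e^{-0.05 s}`
(`w ≤ Phi`, `C1 n^{1.98} ≤ n^{1.99}`).  Let `n → ∞`, then `s2 → ∞`.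
-/

set_option autoImplicit false

open Finset Filter Topology

namespace Pool.Agent.DH10

noncomputable section

private theorem nzf_val_left {n : ℕ} {K : Type} [AddCommGroup K] (f : Coch n K) {x : Fin n}
    {e : Edg n} (h : e.1.1 = x) : val f x e.1.2 = f e := by
  subst h
  unfold val
  rw [dif_pos e.2]

private theorem nzf_val_right {n : ℕ} {K : Type} [AddCommGroup K] (f : Coch n K) {x : Fin n}
    {e : Edg n} (h : e.1.2 = x) : val f x e.1.1 = - f e := by
  subst h
  unfold val
  rw [dif_neg (not_lt.mpr e.2.le), dif_pos e.2]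

/-- the support splits into the part away from `x` and the neighbours of `x` -/
private theorem nzf_split {n : ℕ} {K : Type} [AddCommGroup K] [DecidableEq K] (f : Coch n K)
    (x : Fin n) : (suppE f).card
      = ((suppE f).filter fun e => ¬ (e.1.1 = x ∨ e.1.2 = x)).card
        + (univ.filter fun y => y ≠ x ∧ val f x y ≠ 0).card := by
  rw [← Finset.card_filter_add_card_filter_not (s := suppE f) (fun e => e.1.1 = x ∨ e.1.2 = x),
    add_comm]
  congr 1
  refine Finset.card_bij (fun e _ => if e.1.1 = x then e.1.2 else e.1.1) ?_ ?_ ?_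
  · intro e he
    rw [mem_filter] at he
    obtain ⟨he1, he2⟩ := he
    rw [suppE, mem_filter] at he1
    rw [mem_filter]
    refine ⟨mem_univ _, ?_⟩
    by_cases h : e.1.1 = x
    · rw [if_pos h, nzf_val_left f h]
      refine ⟨fun h' => ?_, he1.2⟩
      have := e.2
      rw [h, h'] at this
      exact lt_irrefl _ this
    · rw [if_neg h, nzf_val_right f (he2.resolve_left h)]
      exact ⟨h, neg_ne_zero.mpr he1.2⟩
  · intro e he e' he' h
    rw [mem_filter] at he he'
    have h1 := he.2
    have h2 := he'.2
    have l1 := e.2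
    have l2 := e'.2
    apply Subtype.ext
    by_cases c1 : e.1.1 = x <;> by_cases c2 : e'.1.1 = x
    · rw [if_pos c1, if_pos c2] at h
      exact Prod.ext (c1.trans c2.symm) h
    · rw [if_pos c1, if_neg c2] at h
      have c3 := h2.resolve_left c2
      exfalso
      rw [c1, h] at l1
      rw [c3] at l2
      exact lt_asymm l1 l2
    · rw [if_neg c1, if_pos c2] at h
      have c3 := h1.resolve_left c1
      exfalso
      rw [c2, ← h] at l2
      rw [c3] at l1
      exact lt_asymm l1 l2
    · rw [if_neg c1, if_neg c2] at h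
      exact Prod.ext h ((h1.resolve_left c1).trans (h2.resolve_left c2).symm)
  · intro y hy
    rw [mem_filter] at hy
    obtain ⟨-, hyx, hy0⟩ := hy
    rcases lt_or_gt_of_ne hyx with h | h
    · refine ⟨⟨(y, x), h⟩, ?_, ?_⟩
      · rw [mem_filter, suppE, mem_filter]
        refine ⟨⟨mem_univ _, fun h0 => hy0 ?_⟩, Or.inr rfl⟩
        have := nzf_val_right f (x := x) (e := ⟨(y, x), h⟩) rfl
        simp only at this
        rw [this, h0, neg_zero]
      · simp only
        rw [if_neg hyx]
    · refine ⟨⟨(x, y), h⟩, ?_, ?_⟩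
      · rw [mem_filter, suppE, mem_filter]
        refine ⟨⟨mem_univ _, fun h0 => hy0 ?_⟩, Or.inl rfl⟩
        have := nzf_val_left f (x := x) (e := ⟨(x, y), h⟩) rfl
        simp only at this
        rw [this, h0]
      · simp only [if_true]

theorem Minl.vmin {n : ℕ} {K : Type} [AddCommGroup K] [DecidableEq K] {f : Coch n K} (h : Minl f) :
    VMin f := by
  intro x c
  set c' : Fin n → K := fun v => if v = x then c else 0 with hc'
  have h1 := h c'
  rw [nzf_split f x, nzf_split (f + cob c') x] at h1
  have h2 : ((suppE (f + cob c')).filter fun e => ¬ (e.1.1 = x ∨ e.1.2 = x))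
      = ((suppE f).filter fun e => ¬ (e.1.1 = x ∨ e.1.2 = x)) := by
    ext e
    rw [mem_filter, mem_filter, suppE, suppE, mem_filter, mem_filter]
    refine and_congr_left fun he => ?_
    push Not at he
    have : (f + cob c') e = f e := by
      show f e + (c' e.1.2 - c' e.1.1) = f e
      rw [hc']
      simp only
      rw [if_neg he.1, if_neg he.2, sub_zero, add_zero]
    rw [this]
  rw [h2, add_le_add_iff_left] at h1
  have h3 : ∀ y, y ≠ x → val (f + cob c') x y = val f x y - c := by
    intro y hy
    rcases lt_or_gt_of_ne hy with hlt | hlt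
    · have e1 := nzf_val_right (f + cob c') (x := x) (e := ⟨(y, x), hlt⟩) rfl
      have e2 := nzf_val_right f (x := x) (e := ⟨(y, x), hlt⟩) rfl
      simp only at e1 e2
      rw [e1, e2]
      show -(f _ + (c' x - c' y)) = _
      rw [hc']
      simp only
      rw [if_pos trivial, if_neg hy, sub_zero]
      abel
    · have e1 := nzf_val_left (f + cob c') (x := x) (e := ⟨(x, y), hlt⟩) rfl
      have e2 := nzf_val_left f (x := x) (e := ⟨(x, y), hlt⟩) rfl
      simp only at e1 e2
      rw [e1, e2]
      show f _ + (c' y - c' x) = _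
      rw [hc']
      simp only
      rw [if_pos trivial, if_neg hy, zero_sub]
      abel
  have h4 : (univ.filter fun y => y ≠ x ∧ val (f + cob c') x y ≠ 0)
      = univ.filter fun y => y ≠ x ∧ val f x y ≠ c := by
    ext y
    rw [mem_filter, mem_filter]
    refine and_congr_right fun _ => and_congr_right fun hy => ?_
    rw [h3 y hy, Ne, sub_eq_zero]
  rw [h4] at h1
  have h5 : ∀ a : K, (univ.filter fun y => y ≠ x ∧ val f x y = a).card
      + (univ.filter fun y => y ≠ x ∧ val f x y ≠ a).card = (univ.filter fun y => y ≠ x).card := by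
    intro a
    rw [← Finset.card_filter_add_card_filter_not (s := univ.filter fun y => y ≠ x)
      (fun y => val f x y = a), Finset.filter_filter, Finset.filter_filter]
  have a1 := h5 c
  have a2 := h5 0
  omega

open Classical in
theorem nz_sum (K : Type) [AddCommGroup K] [Fintype K] [DecidableEq K] (hodd : Odd (Fintype.card K))
    (C1 : ℝ) :
    Tendsto (fun n : ℕ => ∑ f ∈ univ.filter (fun f : Coch n K => f ≠ 0 ∧ Minl f ∧
        ((suppE f).card : ℝ) ≤ C1 * (n : ℝ) ^ (2 - 1 / 50 : ℝ)), w f) atTop (𝓝 0) := by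
  obtain ⟨B, hB⟩ := s2_sum K hodd
  obtain ⟨c, hc0, hc⟩ := s3_sum K hodd
  have h4 := s4_sum K
  set a : ℕ → ℕ → ℝ := fun n s => ∑ f ∈ univ.filter (fun f : Coch n K => (f ≠ 0 ∧ Minl f ∧
        ((suppE f).card : ℝ) ≤ C1 * (n : ℝ) ^ (2 - 1 / 50 : ℝ)) ∧ (suppE f).card = s), w f with ha
  have hnn : ∀ n s, 0 ≤ a n s := fun n s => sum_nonneg fun f _ => w_nonneg f
  have hle : ∀ n s, a n s ≤ ∑ f ∈ univ.filter (fun f : Coch n K => (suppE f).card = s), w f := by
    intro n s
    apply sum_le_sum_of_subset_of_nonneg
    · intro f hf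
      rw [mem_filter] at hf ⊢
      exact ⟨mem_univ _, hf.2.2⟩
    · intro f _ _
      exact w_nonneg f
  have hle2 : ∀ n s, a n s
      ≤ ∑ f ∈ univ.filter (fun f : Coch n K => VMin f ∧ (suppE f).card = s), w f := by
    intro n s
    apply sum_le_sum_of_subset_of_nonneg
    · intro f hf
      rw [mem_filter] at hf ⊢
      exact ⟨mem_univ _, hf.2.1.2.1.vmin, hf.2.2⟩
    · intro f _ _
      exact w_nonneg f
  have hsum : ∀ n, ∑ f ∈ univ.filter (fun f : Coch n K => f ≠ 0 ∧ Minl f ∧
        ((suppE f).card : ℝ) ≤ C1 * (n : ℝ) ^ (2 - 1 / 50 : ℝ)), w f = ∑' s, a n s := by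
    intro n
    rw [tsum_eq_sum (s := range (Fintype.card (Edg n) + 1))]
    · rw [← Finset.sum_fiberwise_of_maps_to (t := range (Fintype.card (Edg n) + 1))
        (g := fun f : Coch n K => (suppE f).card)]
      · apply Finset.sum_congr rfl
        intro s _
        rw [ha, Finset.filter_filter]
      · intro f _
        rw [mem_range, Nat.lt_succ_iff]
        exact card_le_univ _
    · intro s hs
      apply Finset.sum_eq_zero
      intro f hf
      exfalso
      apply hs
      rw [mem_filter] at hf
      rw [mem_range, Nat.lt_succ_iff, ← hf.2.2]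
      exact card_le_univ _
  simp only [hsum]
  have hlim0 : (∑' _ : ℕ, (0 : ℝ)) = 0 := tsum_zero
  rw [← hlim0]
  refine tendsto_tsum_of_dominated_convergence
    (bound := fun s => |B| * (10 / 11) ^ s + (Real.exp (-c)) ^ s + (Real.exp (-(5 / 100))) ^ s)
    ?_ ?_ ?_
  · refine (Summable.add (Summable.mul_left _ (summable_geometric_of_lt_one (by norm_num)
      (by norm_num))) (summable_geometric_of_lt_one (Real.exp_pos _).le ?_)).add
      (summable_geometric_of_lt_one (Real.exp_pos _).le ?_)
    · rw [Real.exp_lt_one_iff]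
      linarith
    · rw [Real.exp_lt_one_iff]
      norm_num
  · intro s
    rcases Nat.eq_zero_or_pos s with rfl | hs
    · have h0 : ∀ n, a n 0 = 0 := by
        intro n
        apply Finset.sum_eq_zero
        intro f hf
        exfalso
        rw [mem_filter, card_eq_zero] at hf
        apply hf.2.1.1
        funext e
        by_contra he
        have : e ∈ suppE f := by
          rw [suppE, mem_filter]
          exact ⟨mem_univ _, he⟩
        rw [hf.2.2] at this
        exact absurd this (notMem_empty _)
      simp only [h0]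
      exact tendsto_const_nhds
    · obtain ⟨C, hC⟩ := s1_sum K hodd s hs
      refine squeeze_zero' (Eventually.of_forall fun n => hnn n s)
        (hC.mono fun n hn => (hle n s).trans hn) ?_
      exact tendsto_const_div_atTop_nhds_zero_nat C
  · have hpow : ∀ᶠ n : ℕ in atTop, C1 * (n : ℝ) ^ (2 - 1 / 50 : ℝ) ≤ (n : ℝ) ^ (199 / 100 : ℝ) := by
      have h1 : Tendsto (fun n : ℕ => (n : ℝ) ^ (1 / 100 : ℝ)) atTop atTop :=
        (tendsto_rpow_atTop (by norm_num)).comp tendsto_natCast_atTop_atTop
      filter_upwards [h1.eventually_ge_atTop C1, eventually_ge_atTop 1] with n hn hn1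
      have hn0 : (0 : ℝ) < n := by exact_mod_cast hn1
      calc C1 * (n : ℝ) ^ (2 - 1 / 50 : ℝ)
          ≤ (n : ℝ) ^ (1 / 100 : ℝ) * (n : ℝ) ^ (2 - 1 / 50 : ℝ) :=
            mul_le_mul_of_nonneg_right hn (by positivity)
        _ = (n : ℝ) ^ (199 / 100 : ℝ) := by
            rw [← Real.rpow_add hn0]
            norm_num
    filter_upwards [hB, hc, h4, hpow, eventually_ge_atTop 3] with n hBn hcn h4n hpn hn3 s
    rw [Real.norm_of_nonneg (hnn n s)]
    have p1 : 0 ≤ |B| * (10 / 11 : ℝ) ^ s := by positivity
    have p2 : 0 ≤ Real.exp (-c) ^ s := by positivity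
    have p3 : 0 ≤ Real.exp (-(5 / 100)) ^ s := by positivity
    rcases le_or_gt (s : ℝ) ((n : ℝ) ^ (1 / 25 : ℝ)) with hs1 | hs1
    · have q1 := (hle n s).trans (hBn s hs1)
      have q2 : B * (10 / 11 : ℝ) ^ s ≤ |B| * (10 / 11 : ℝ) ^ s :=
        mul_le_mul_of_nonneg_right (le_abs_self B) (by positivity)
      linarith
    · rcases le_or_gt (s : ℝ) ((n : ℝ) ^ (101 / 100 : ℝ)) with hs2 | hs2
      · have q1 := (hle2 n s).trans (hcn s hs1.le hs2)
        have q2 : Real.exp (-c * s) = Real.exp (-c) ^ s := by
          rw [← Real.exp_nat_mul]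
          congr 1
          ring
        linarith
      · rcases le_or_gt (s : ℝ) (C1 * (n : ℝ) ^ (2 - 1 / 50 : ℝ)) with hs3 | hs3
        · have q0 : ∑ f ∈ univ.filter (fun f : Coch n K => VMin f ∧ (suppE f).card = s), w f
              ≤ ∑ f ∈ univ.filter (fun f : Coch n K => VMin f ∧ (suppE f).card = s), Phi f :=
            sum_le_sum fun f _ => w_le_Phi hn3 f
          have q1 := (hle2 n s).trans (q0.trans (h4n s hs2.le (hs3.trans hpn)))
          have q2 : Real.exp (-(5 / 100) * s) = Real.exp (-(5 / 100)) ^ s := by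
            rw [← Real.exp_nat_mul]
            congr 1
            ring
          linarith
        · have q1 : a n s = 0 := by
            apply Finset.sum_eq_zero
            intro f hf
            exfalso
            rw [mem_filter] at hf
            have := hf.2.1.2.2
            rw [hf.2.2] at this
            exact absurd this (not_le.mpr hs3)
          linarith

end

end Pool.Agent.DH10
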