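import Pool.Agent.DH10.Push
import Pool.Agent.DH10.NZFinal

/-!
# DH10.SmallSum : small classes are negligible (5.1)

For each `f ∈ C¹(K)` choose `c` minimising `|suppE (f + cob c)|` and put `m f = f + cob c`: `Minl (m f)`
(`(f + cob c) + cob c' = f + cob (c + c')`), `w (m f) = w f`, `m f ≠ 0` if `f` is not a coboundary, and
`|suppE (m f)| ≤ C n^{2-1/50}` if `Sm C f`.  Each `g` has at most `#coboundaries ≤ |K|^{n-1}` preimages (`f = g + cob(-c)`).
Hence `∑_{f small, not a coboundary} w f ≤ |K|^{n-1} ∑_{g ≠ 0, Minl g, small} w g`, and `nz_sum`.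
`small_prob`: union bound over the same `g` (`S ⊆ Z f = Z (m f)`; `w g = ∑_{S ⊆ Z g} W S`).
-/

set_option autoImplicit false

open Finset Filter Topology

namespace Pool.Agent.DH10

noncomputable section

/-! ### minimal representatives -/

private theorem ss_exists {n : ℕ} {K : Type} [AddCommGroup K] [Fintype K] [DecidableEq K]
    (f : Coch n K) : ∃ c : Fin n → K, ∀ c' : Fin n → K,
      (suppE (f + cob c)).card ≤ (suppE (f + cob c')).card := by
  obtain ⟨c, -, hc⟩ := exists_min_image (univ : Finset (Fin n → K))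
    (fun c => (suppE (f + cob c)).card) ⟨0, mem_univ _⟩
  exact ⟨c, fun c' => hc c' (mem_univ _)⟩

/-- a minimising potential -/
private def ssc {n : ℕ} {K : Type} [AddCommGroup K] [Fintype K] [DecidableEq K]
    (f : Coch n K) : Fin n → K := (ss_exists f).choose

/-- a minimal representative -/
private def ssm {n : ℕ} {K : Type} [AddCommGroup K] [Fintype K] [DecidableEq K]
    (f : Coch n K) : Coch n K := f + cob (ssc f)

private theorem ss_cob_add {n : ℕ} {K : Type} [AddCommGroup K] (c c' : Fin n → K) :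
    cob (c + c') = cob c + cob c' := by
  funext e
  simp only [cob, Pi.add_apply]
  abel

private theorem ss_cob_neg {n : ℕ} {K : Type} [AddCommGroup K] (c : Fin n → K) :
    cob (-c) = - cob c := by
  funext e
  simp only [cob, Pi.neg_apply]
  abel

section
variable {n : ℕ} {K : Type} [AddCommGroup K] [Fintype K] [DecidableEq K]

private theorem ss_min (f : Coch n K) (c' : Fin n → K) :
    (suppE (ssm f)).card ≤ (suppE (f + cob c')).card := (ss_exists f).choose_spec c'

private theorem ss_minl (f : Coch n K) : Minl (ssm f) := by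
  intro c
  have h := ss_min f (ssc f + c)
  rw [ss_cob_add, ← add_assoc] at h
  exact h

private theorem ss_w (f : Coch n K) : w (ssm f) = w f := w_add_cob f _

private theorem ss_Z (f : Coch n K) : Z (ssm f) = Z f := Z_add_cob f _

private theorem ss_ne (f : Coch n K) (h : ¬ IsCob f) : ssm f ≠ 0 := by
  intro h0
  refine h ⟨-(ssc f), ?_⟩
  rw [ss_cob_neg]
  exact eq_neg_of_add_eq_zero_left h0

private theorem ss_small {C : ℝ} {f : Coch n K} (h : Sm C f) :
    ((suppE (ssm f)).card : ℝ) ≤ C * (n : ℝ) ^ (2 - 1 / 50 : ℝ) := by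
  obtain ⟨c, hc⟩ := h
  refine le_trans ?_ hc
  exact_mod_cast ss_min f c

open Classical in
/-- the small minimal nonzero cochains -/
private def ssG (n : ℕ) (K : Type) [AddCommGroup K] [Fintype K] [DecidableEq K] (C : ℝ) :
    Finset (Coch n K) :=
  univ.filter (fun f : Coch n K => f ≠ 0 ∧ Minl f ∧
        ((suppE f).card : ℝ) ≤ C * (n : ℝ) ^ (2 - 1 / 50 : ℝ))

open Classical in
private theorem ss_mem {C : ℝ} {f : Coch n K} (h : Sm C f) (h' : ¬ IsCob f) :
    ssm f ∈ ssG n K C := by
  unfold ssG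
  rw [mem_filter]
  exact ⟨mem_univ _, ss_ne f h', ss_minl f, ss_small h⟩

open Classical in
private theorem ss_sum_le (hn : 1 ≤ n) (C : ℝ) :
    ∑ f ∈ univ.filter (fun f : Coch n K => Sm C f ∧ ¬ IsCob f), w f
      ≤ (Fintype.card K : ℝ) ^ (n - 1) * ∑ g ∈ ssG n K C, w g := by
  have hmaps : ∀ f ∈ univ.filter (fun f : Coch n K => Sm C f ∧ ¬ IsCob f), ssm f ∈ ssG n K C := by
    intro f hf
    rw [mem_filter] at hf
    exact ss_mem hf.2.1 hf.2.2
  rw [← sum_fiberwise_of_maps_to hmaps, mul_sum]
  refine sum_le_sum fun g _ => ?_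
  have h1 : ∀ f ∈ (univ.filter (fun f : Coch n K => Sm C f ∧ ¬ IsCob f)).filter
      (fun f => ssm f = g), w f = w g := by
    intro f hf
    rw [mem_filter] at hf
    rw [← hf.2, ss_w]
  rw [sum_congr rfl h1, sum_const, nsmul_eq_mul]
  refine mul_le_mul_of_nonneg_right ?_ (w_nonneg g)
  have h2 : ((univ.filter (fun f : Coch n K => Sm C f ∧ ¬ IsCob f)).filter
      (fun f => ssm f = g)).card ≤ (univ.filter fun f : Coch n K => IsCob f).card := by
    refine card_le_card_of_injOn (fun f => g - f) ?_ ?_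
    · intro f hf
      rw [mem_coe, mem_filter] at hf
      rw [mem_coe, mem_filter]
      refine ⟨mem_univ _, ssc f, ?_⟩
      rw [← hf.2]
      exact add_sub_cancel_left f _
    · intro f _ f' _ h
      exact sub_right_injective h
  have h3 := h2.trans (card_cob (G := K) hn)
  exact_mod_cast h3

open Classical in
private theorem ss_prob_le (C : ℝ) :
    ∑ S ∈ (cand n).filter (fun S => ∃ g : Coch n K, S ⊆ Z g ∧ Sm C g ∧ ¬ IsCob g), W S
      ≤ ∑ g ∈ ssG n K C, w g := by
  have h1 : ∑ g ∈ ssG n K C, w g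
      = ∑ S ∈ cand n, ∑ g ∈ ssG n K C, if S ⊆ Z g then W S else 0 := by
    rw [sum_comm]
    refine sum_congr rfl fun g _ => ?_
    rw [← sum_filter]
    rfl
  rw [h1, sum_filter]
  refine sum_le_sum fun S _ => ?_
  have hnn : ∀ g ∈ ssG n K C, (0 : ℝ) ≤ if S ⊆ Z g then W S else 0 := by
    intro g _
    split_ifs
    · exact W_nonneg S
    · exact le_rfl
  split_ifs with h
  · obtain ⟨g, hS, hs, hc⟩ := h
    have h2 := single_le_sum hnn (ss_mem hs hc)
    rw [ss_Z, if_pos hS] at h2
    exact h2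
  · exact sum_nonneg hnn

end

open Classical in
theorem small_sum (K : Type) [AddCommGroup K] [Fintype K] [DecidableEq K] (hodd : Odd (Fintype.card K))
    (C : ℝ) :
    Tendsto (fun n : ℕ => (∑ f ∈ univ.filter (fun f : Coch n K => Sm C f ∧ ¬ IsCob f), w f) /
      (Fintype.card K : ℝ) ^ (n - 1)) atTop (𝓝 0) := by
  have hK : (0 : ℝ) < (Fintype.card K : ℝ) := by
    exact_mod_cast Fintype.card_pos
  refine squeeze_zero' (Eventually.of_forall fun n => ?_) ?_ (nz_sum K hodd C)
  · exact div_nonneg (sum_nonneg fun f _ => w_nonneg f) (by positivity)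
  · filter_upwards [eventually_ge_atTop 1] with n hn
    rw [div_le_iff₀ (by positivity), mul_comm]
    exact ss_sum_le hn C

open Classical in
theorem small_prob (K : Type) [AddCommGroup K] [Fintype K] [DecidableEq K] (hodd : Odd (Fintype.card K))
    (C : ℝ) :
    Tendsto (fun n : ℕ => ∑ S ∈ (cand n).filter
      (fun S => ∃ g : Coch n K, S ⊆ Z g ∧ Sm C g ∧ ¬ IsCob g), W S) atTop (𝓝 0) :=
  squeeze_zero (fun _ => sum_nonneg fun S _ => W_nonneg S) (fun _ => ss_prob_le C)
    (nz_sum K hodd C)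

open Classical in
theorem cob_sum {n : ℕ} (hn : 3 ≤ n) (K : Type) [AddCommGroup K] [Fintype K] [DecidableEq K] :
    ∑ f ∈ univ.filter (fun f : Coch n K => IsCob f), w f ≤ (Fintype.card K : ℝ) ^ (n - 1) := by
  have h1 : ∑ f ∈ univ.filter (fun f : Coch n K => IsCob f), w f
      ≤ ∑ f ∈ univ.filter (fun f : Coch n K => IsCob f), (1 : ℝ) :=
    sum_le_sum fun f _ => w_le_one hn f
  refine h1.trans ?_
  rw [sum_const, nsmul_eq_mul, mul_one]
  have h2 := card_cob (G := K) (n := n) (by omega)
  exact_mod_cast h2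

end

end Pool.Agent.DH10
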