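import Pool.Agent.DH10.Smooth

/-!
# DH10.Cyc : the cycle side (1.7), (1.8)

Characters `G^ = AddChar G ℂ` (`|G^| = |G| = q`).  `z : Tri n → G^` is a cycle if `∏_t z_t(curT f t) = 1` for all
`f ∈ C^1(G)`.  Cycles form a group (pointwise product).
* `sum_wth`: for `S` with `|S| = N`, `∏_{t∈S} (θ 1[a_t=0] + (1-θ)/q) = ∏_{t ∈ S} (1/q) ∑_{χ} θ^{[χ≠1]} χ(a_t)`
  (orthogonality, `AddChar.sum_apply_eq_ite`), expand the product as a sum over `z` supported on `S`
  (`Finset.prod_univ_sum` / `Finset.prod_sum`), and `∑_f ∏_t z_t(curT f t) = q^{|E|} 1[z cycle]`, since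
  `f ↦ ∏_t z_t(curT f t)` is a character of the finite group `C^1(G) = Edg n → G`.  `|E| - N = n-1`.
* `fourier_cocycles` (1.8): same computation with `θ = 1` on `R` and an extra factor.
* `cyc_edge`: test `f = a e`: if exactly one triangle `t` of the support contains `e`, then `z_t(±a) = 1` for all `a`.
-/

set_option autoImplicit false

open Finset

namespace Pool.Agent.DH10

noncomputable section

variable {n : ℕ} {G : Type} [AddCommGroup G] [Fintype G] [DecidableEq G]

/-- cycles with values in the dual group -/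
def IsCyc (z : Tri n → AddChar G ℂ) : Prop := ∀ f : Coch n G, ∏ t, z t (curT f t) = 1

/-- support -/
def supp (z : Tri n → AddChar G ℂ) : Finset (Tri n) := univ.filter fun t => z t ≠ 1

open Classical in
/-- cycles supported in `S` -/
def cycIn (G : Type) [AddCommGroup G] [Fintype G] (S : Finset (Tri n)) : Finset (Tri n → AddChar G ℂ) :=
  univ.filter fun z => IsCyc z ∧ supp z ⊆ S


/-! ### auxiliary lemmas -/

private theorem curT_eq {G : Type} [AddCommGroup G] (f : Coch n G) (t : Tri n) :
    curT f t = f t.ab + f t.bc - f t.ac := by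
  obtain ⟨⟨x, y, z⟩, hxy, hyz⟩ := t
  have hxy' : x < y := hxy
  have hyz' : y < z := hyz
  have hxz : x < z := hxy'.trans hyz'
  have h1 : ¬ z < x := not_lt.mpr hxz.le
  simp only [curT, cur, val, Tri.a, Tri.b, Tri.c, Tri.ab, Tri.bc, Tri.ac, dif_pos hxy', dif_pos hyz',
    dif_neg h1, dif_pos hxz]
  abel

private theorem curT_zero {G : Type} [AddCommGroup G] (t : Tri n) : curT (0 : Coch n G) t = 0 := by
  simp [curT_eq]

private theorem curT_add {G : Type} [AddCommGroup G] (f g : Coch n G) (t : Tri n) :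
    curT (f + g) t = curT f t + curT g t := by
  simp only [curT_eq, Pi.add_apply]
  abel

/-- the character `f ↦ ∏_t z_t(curT f t)` of the group of cochains -/
private def cycChar {G : Type} [AddCommGroup G] (z : Tri n → AddChar G ℂ) : AddChar (Coch n G) ℂ where
  toFun f := ∏ t, z t (curT f t)
  map_zero_eq_one' := by
    simp [curT_zero]
  map_add_eq_mul' f g := by
    simp only [curT_add, AddChar.map_add_eq_mul, Finset.prod_mul_distrib]

private theorem cycChar_apply {G : Type} [AddCommGroup G] (z : Tri n → AddChar G ℂ) (f : Coch n G) :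
    cycChar z f = ∏ t, z t (curT f t) := rfl

private theorem cycChar_eq_zero_iff {G : Type} [AddCommGroup G] (z : Tri n → AddChar G ℂ) :
    cycChar z = 0 ↔ IsCyc z := by
  constructor
  · intro h f
    rw [← cycChar_apply, h, AddChar.zero_apply]
  · intro h
    apply DFunLike.ext
    intro f
    rw [cycChar_apply, AddChar.zero_apply]
    exact h f

open Classical in
private theorem sum_cycChar (z : Tri n → AddChar G ℂ) :
    ∑ f : Coch n G, ∏ t, z t (curT f t) =
      if IsCyc z then (Fintype.card G : ℂ) ^ (Fintype.card (Edg n)) else 0 := by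
  have h := AddChar.sum_eq_ite (cycChar z)
  simp only [cycChar_apply, cycChar_eq_zero_iff] at h
  rw [h]
  simp [Coch, Fintype.card_pi]

private theorem mem_Z_iff {G : Type} [AddCommGroup G] [DecidableEq G] (f : Coch n G) (t : Tri n) :
    t ∈ Z f ↔ curT f t = 0 := by
  simp [Z]

open Classical in
/-- expansion of a product over `S` -/
private theorem prod_expand (S : Finset (Tri n)) (θ : ℂ) (f : Coch n G) :
    ∏ t ∈ S, (∑ χ : AddChar G ℂ, (if χ = 1 then (1 : ℂ) else θ) * χ (curT f t)) =
      ∑ z ∈ univ.filter (fun z : Tri n → AddChar G ℂ => supp z ⊆ S),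
        θ ^ (supp z).card * ∏ t, z t (curT f t) := by
  have h1 : ∏ t ∈ S, (∑ χ : AddChar G ℂ, (if χ = 1 then (1 : ℂ) else θ) * χ (curT f t)) =
      ∏ t : Tri n, ∑ χ ∈ (if t ∈ S then (univ : Finset (AddChar G ℂ)) else {1}),
        (if χ = 1 then (1 : ℂ) else θ) * χ (curT f t) := by
    rw [← Finset.prod_subset (Finset.subset_univ S)]
    · apply Finset.prod_congr rfl
      intro t ht
      simp [ht]
    · intro t _ ht
      simp [ht]
  rw [h1, Finset.prod_univ_sum]
  have h2 : Fintype.piFinset (fun t : Tri n => if t ∈ S then (univ : Finset (AddChar G ℂ)) else {1})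
      = univ.filter (fun z : Tri n → AddChar G ℂ => supp z ⊆ S) := by
    ext z
    simp only [Fintype.mem_piFinset, Finset.mem_filter, Finset.mem_univ, true_and]
    constructor
    · intro h t ht
      by_contra hS
      have := h t
      rw [if_neg hS, Finset.mem_singleton] at this
      simp [supp, this] at ht
    · intro h t
      by_cases hS : t ∈ S
      · rw [if_pos hS]
        exact Finset.mem_univ _
      · rw [if_neg hS, Finset.mem_singleton]
        by_contra hz
        exact hS (h (by simp [supp, hz]))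
  rw [h2]
  apply Finset.sum_congr rfl
  intro z _
  rw [Finset.prod_mul_distrib]
  congr 1
  rw [Finset.prod_ite]
  simp [supp]

open Classical in
private theorem char_sum (θ : ℂ) (a : G) :
    ∑ χ : AddChar G ℂ, (if χ = 1 then (1 : ℂ) else θ) * χ a =
      θ * (if a = 0 then (Fintype.card G : ℂ) else 0) + (1 - θ) := by
  rw [← AddChar.sum_apply_eq_ite a, Finset.mul_sum]
  have : ∀ χ : AddChar G ℂ, (if χ = 1 then (1 : ℂ) else θ) * χ a =
      θ * χ a + (if χ = 1 then (1 - θ) else 0) := by
    intro χ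
    by_cases h : χ = 1
    · simp [h]
    · simp [h]
  rw [Finset.sum_congr rfl (fun χ _ => this χ), Finset.sum_add_distrib]
  simp

theorem cyc_edge {z : Tri n → AddChar G ℂ} (hz : IsCyc z) {t : Tri n} (ht : t ∈ supp z) {e : Edg n}
    (he : e ∈ t.edges) : ∃ t' ∈ supp z, t' ≠ t ∧ e ∈ t'.edges := by
  classical
  by_contra hcon
  push Not at hcon
  have hzt : z t ≠ 1 := by
    simpa [supp] using ht
  apply hzt
  apply DFunLike.ext
  intro a
  rw [AddChar.one_apply]
  -- the test function
  have key : ∀ b : G, z t (curT (Pi.single e b : Coch n G) t) = 1 := by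
    intro b
    have h := hz (Pi.single e b)
    rw [← Finset.mul_prod_erase univ _ (Finset.mem_univ t)] at h
    rw [Finset.prod_eq_one, mul_one] at h
    · exact h
    · intro t' ht'
      have hne : t' ≠ t := (Finset.mem_erase.mp ht').1
      by_cases hs : t' ∈ supp z
      · have he' := hcon t' hs hne
        simp only [Tri.edges, Finset.mem_insert, Finset.mem_singleton, not_or] at he'
        have : curT (Pi.single e b : Coch n G) t' = 0 := by
          rw [curT_eq, Pi.single_eq_of_ne (Ne.symm he'.1), Pi.single_eq_of_ne (Ne.symm he'.2.1),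
            Pi.single_eq_of_ne (Ne.symm he'.2.2)]
          simp
        rw [this, AddChar.map_zero_eq_one]
      · have : z t' = 1 := by
          simpa [supp] using hs
        rw [this, AddChar.one_apply]
  have hab_bc : t.ab ≠ t.bc := by
    intro h
    have h1 : t.1.1 = t.1.2.1 := congrArg (fun e : Edg n => e.1.1) h
    exact absurd t.2.1 (by rw [h1]; exact lt_irrefl _)
  have hab_ac : t.ab ≠ t.ac := by
    intro h
    have h1 : t.1.2.1 = t.1.2.2 := congrArg (fun e : Edg n => e.1.2) h
    exact absurd t.2.2 (by rw [h1]; exact lt_irrefl _)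
  have hbc_ac : t.bc ≠ t.ac := by
    intro h
    have h1 : t.1.2.1 = t.1.1 := congrArg (fun e : Edg n => e.1.1) h
    exact absurd t.2.1 (by rw [h1]; exact lt_irrefl _)
  simp only [Tri.edges, Finset.mem_insert, Finset.mem_singleton] at he
  rcases he with rfl | rfl | rfl
  · have := key a
    rwa [curT_eq, Pi.single_eq_same, Pi.single_eq_of_ne hab_bc.symm, Pi.single_eq_of_ne hab_ac.symm,
      add_zero, sub_zero] at this
  · have := key a
    rwa [curT_eq, Pi.single_eq_same, Pi.single_eq_of_ne hab_bc, Pi.single_eq_of_ne hbc_ac.symm,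
      zero_add, sub_zero] at this
  · have := key (-a)
    rwa [curT_eq, Pi.single_eq_same, Pi.single_eq_of_ne hab_ac, Pi.single_eq_of_ne hbc_ac,
      add_zero, zero_sub, neg_neg] at this

/-- the smoothed moment `M_θ` -/
def Mth (n : ℕ) (G : Type) [AddCommGroup G] [Fintype G] (θ : ℝ) : ℝ :=
  Ex n fun S => ∑ z ∈ cycIn G S, θ ^ (supp z).card

theorem card_Edg (hn : 1 ≤ n) : Fintype.card (Edg n) = NN n + (n - 1) := by
  have h1 : Fintype.card (Edg n) = ∑ j : Fin n, (j : ℕ) := by
    rw [Fintype.card_subtype]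
    have : (univ.filter fun p : Fin n × Fin n => p.1 < p.2).card
        = ∑ j : Fin n, (univ.filter fun i : Fin n => i < j).card := by
      rw [Finset.card_filter, Fintype.sum_prod_type_right]
      apply Finset.sum_congr rfl
      intro j _
      rw [Finset.card_filter]
    rw [this]
    apply Finset.sum_congr rfl
    intro j _
    have : (univ.filter fun i : Fin n => i < j) = Finset.Iio j := by
      ext i
      simp
    rw [this, Fin.card_Iio]
  rw [h1, Fin.sum_univ_eq_sum_range (fun i => i) n, Finset.sum_range_id, ← Nat.choose_two_right]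
  unfold NN
  obtain ⟨m, rfl⟩ : ∃ m, n = m + 1 := ⟨n - 1, by omega⟩
  rw [Nat.choose_succ_succ' m 1, Nat.choose_one_right, Nat.add_sub_cancel, Nat.add_comm]

private theorem mem_cycIn (S : Finset (Tri n)) (z : Tri n → AddChar G ℂ) :
    z ∈ cycIn G S ↔ IsCyc z ∧ supp z ⊆ S := by
  simp [cycIn]

open Classical in
/-- the number of `f` weighted with the product, for a set `S` -/
private theorem sum_prod_S (S : Finset (Tri n)) (θ : ℂ) :
    ∑ f : Coch n G, ∏ t ∈ S, (θ * (if t ∈ Z f then (Fintype.card G : ℂ) else 0) + (1 - θ)) =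
      (Fintype.card G : ℂ) ^ (Fintype.card (Edg n)) * ∑ z ∈ cycIn G S, θ ^ (supp z).card := by
  have h1 : ∀ f : Coch n G, ∏ t ∈ S, (θ * (if t ∈ Z f then (Fintype.card G : ℂ) else 0) + (1 - θ)) =
      ∑ z ∈ univ.filter (fun z : Tri n → AddChar G ℂ => supp z ⊆ S),
        θ ^ (supp z).card * ∏ t, z t (curT f t) := by
    intro f
    rw [← prod_expand]
    apply Finset.prod_congr rfl
    intro t _
    rw [char_sum]
    simp only [mem_Z_iff]
  rw [Finset.sum_congr rfl (fun f _ => h1 f), Finset.sum_comm, Finset.mul_sum]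
  have h2 : ∀ z : Tri n → AddChar G ℂ, ∑ f : Coch n G, θ ^ (supp z).card * ∏ t, z t (curT f t) =
      if IsCyc z then (Fintype.card G : ℂ) ^ (Fintype.card (Edg n)) * θ ^ (supp z).card else 0 := by
    intro z
    rw [← Finset.mul_sum, sum_cycChar]
    split_ifs <;> ring
  rw [Finset.sum_congr rfl (fun z _ => h2 z), ← Finset.sum_filter, Finset.filter_filter]
  apply Finset.sum_congr _ (fun _ _ => rfl)
  ext z
  simp [mem_cycIn, and_comm]

/-- (1.7) -/
theorem sum_wth (hn : 3 ≤ n) {θ : ℝ} (h0 : 0 ≤ θ) (h1 : θ ≤ 1) :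
    ∑ f : Coch n G, wth θ f = (Fintype.card G : ℝ) ^ (n - 1) * Mth n G θ := by
  classical
  have hq : (Fintype.card G : ℝ) ≠ 0 := by
    exact_mod_cast Fintype.card_ne_zero
  have hS : ∀ S ∈ cand n, ∑ f : Coch n G, ∏ t ∈ S,
      (θ * (if t ∈ Z f then (1 : ℝ) else 0) + (1 - θ) / (Fintype.card G : ℝ)) =
      (Fintype.card G : ℝ) ^ (n - 1) * ∑ z ∈ cycIn G S, θ ^ (supp z).card := by
    intro S hS
    have hcard : S.card = NN n := (Finset.mem_powersetCard.mp hS).2
    have h1 := sum_prod_S (G := G) S (θ : ℂ)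
    have h2 : ∑ f : Coch n G, ∏ t ∈ S,
        (θ * (if t ∈ Z f then (Fintype.card G : ℝ) else 0) + (1 - θ)) =
      (Fintype.card G : ℝ) ^ (Fintype.card (Edg n)) * ∑ z ∈ cycIn G S, θ ^ (supp z).card := by
      have h3 : ((∑ f : Coch n G, ∏ t ∈ S,
        (θ * (if t ∈ Z f then (Fintype.card G : ℝ) else 0) + (1 - θ)) : ℝ) : ℂ) =
        (((Fintype.card G : ℝ) ^ (Fintype.card (Edg n)) * ∑ z ∈ cycIn G S, θ ^ (supp z).card : ℝ) : ℂ) := by
        push_cast
        rw [← h1]
        apply Finset.sum_congr rfl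
        intro f _
        apply Finset.prod_congr rfl
        intro t _
        split_ifs <;> simp
      exact_mod_cast h3
    have h4 : ∀ f : Coch n G, ∏ t ∈ S,
        (θ * (if t ∈ Z f then (Fintype.card G : ℝ) else 0) + (1 - θ)) =
        (Fintype.card G : ℝ) ^ (NN n) * ∏ t ∈ S,
          (θ * (if t ∈ Z f then (1 : ℝ) else 0) + (1 - θ) / (Fintype.card G : ℝ)) := by
      intro f
      rw [← hcard, ← Finset.prod_const, ← Finset.prod_mul_distrib]
      apply Finset.prod_congr rfl
      intro t _
      split_ifs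
      · field_simp
      · rw [mul_zero, zero_add, zero_add, mul_div_cancel₀ _ hq]
    rw [Finset.sum_congr rfl (fun f _ => h4 f), ← Finset.mul_sum, card_Edg (by omega), pow_add,
      mul_assoc] at h2
    exact mul_left_cancel₀ (pow_ne_zero _ hq) h2
  have hw : ∀ f : Coch n G, wth θ f = ∑ S ∈ cand n, W S * ∏ t ∈ S,
      (θ * (if t ∈ Z f then (1 : ℝ) else 0) + (1 - θ) / (Fintype.card G : ℝ)) := by
    intro f
    rw [master hn]
    rfl
  rw [Finset.sum_congr rfl (fun f _ => hw f), Finset.sum_comm]
  unfold Mth Ex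
  rw [Finset.mul_sum]
  apply Finset.sum_congr rfl
  intro S hSm
  rw [← Finset.mul_sum, hS S hSm]
  ring

/-- `M_1 = E #Hom(H_1(T), G)` -/
theorem homMom_eq_Mth (hn : 3 ≤ n) :
    (∑ f : Coch n G, w f) = (Fintype.card G : ℝ) ^ (n - 1) * Mth n G 1 := by
  rw [← sum_wth hn (by norm_num) le_rfl]
  apply Finset.sum_congr rfl
  intro f _
  rw [w_eq_det hn]
  unfold wth
  congr 2
  funext t
  simp

open Classical in
/-- (1.8) -/
theorem fourier_cocycles (R : Finset (Tri n)) (κ : Tri n → AddChar G ℂ) :
    (Fintype.card G : ℂ) ^ R.card * ∑ f ∈ univ.filter (fun f : Coch n G => R ⊆ Z f), ∏ t, κ t (curT f t)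
      = (Fintype.card G : ℂ) ^ (Fintype.card (Edg n)) *
        ((univ.filter fun c : Tri n → AddChar G ℂ => supp c ⊆ R ∧ IsCyc (c * κ)).card : ℂ) := by
  have h1 : ∀ f : Coch n G, (if R ⊆ Z f then (Fintype.card G : ℂ) ^ R.card else 0) =
      ∑ z ∈ univ.filter (fun z : Tri n → AddChar G ℂ => supp z ⊆ R), ∏ t, z t (curT f t) := by
    intro f
    have h := prod_expand (G := G) R 1 f
    simp only [one_pow, one_mul] at h
    rw [← h]
    have h2 : ∀ t, ∑ χ : AddChar G ℂ, (if χ = 1 then (1 : ℂ) else 1) * χ (curT f t) =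
        if t ∈ Z f then (Fintype.card G : ℂ) else 0 := by
      intro t
      rw [char_sum]
      simp only [mem_Z_iff]
      simp
    rw [Finset.prod_congr rfl (fun t _ => h2 t)]
    by_cases hR : R ⊆ Z f
    · rw [if_pos hR, ← Finset.prod_const]
      apply Finset.prod_congr rfl
      intro t ht
      rw [if_pos (hR ht)]
    · rw [if_neg hR]
      obtain ⟨t, htR, htZ⟩ := Finset.not_subset.mp hR
      rw [Finset.prod_eq_zero htR (if_neg htZ)]
  have h3 : (Fintype.card G : ℂ) ^ R.card *
      ∑ f ∈ univ.filter (fun f : Coch n G => R ⊆ Z f), ∏ t, κ t (curT f t) =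
      ∑ f : Coch n G, ∑ z ∈ univ.filter (fun z : Tri n → AddChar G ℂ => supp z ⊆ R),
        ∏ t, (z * κ) t (curT f t) := by
    rw [Finset.mul_sum, Finset.sum_filter]
    apply Finset.sum_congr rfl
    intro f _
    have h4 : ∀ z : Tri n → AddChar G ℂ, ∏ t, (z * κ) t (curT f t) =
        (∏ t, z t (curT f t)) * ∏ t, κ t (curT f t) := by
      intro z
      rw [← Finset.prod_mul_distrib]
      apply Finset.prod_congr rfl
      intro t _
      rw [Pi.mul_apply, AddChar.mul_apply]
    rw [Finset.sum_congr rfl (fun z _ => h4 z), ← Finset.sum_mul, ← h1 f]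
    split_ifs <;> simp
  rw [h3, Finset.sum_comm, Finset.sum_congr rfl (fun z _ => sum_cycChar (z * κ)), ← Finset.sum_filter,
    Finset.sum_const, Finset.filter_filter, nsmul_eq_mul, mul_comm]

/-- number of cocycles -/
theorem card_cocycles_fourier (R : Finset (Tri n)) :
    Fintype.card G ^ R.card * (univ.filter (fun f : Coch n G => R ⊆ Z f)).card
      = Fintype.card G ^ (Fintype.card (Edg n)) * (cycIn G R).card := by
  classical
  have h := fourier_cocycles (G := G) R (fun _ => (1 : AddChar G ℂ))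
  have h1 : (univ.filter fun c : Tri n → AddChar G ℂ => supp c ⊆ R ∧
      IsCyc (c * fun _ => (1 : AddChar G ℂ))) = cycIn G R := by
    ext z
    have : (z * fun _ => (1 : AddChar G ℂ)) = z := by
      funext t
      simp
    rw [Finset.mem_filter, mem_cycIn, this]
    simp [and_comm]
  rw [h1] at h
  simp only [AddChar.one_apply, Finset.prod_const_one, Finset.sum_const, nsmul_eq_mul, mul_one] at h
  have h2 : ((Fintype.card G ^ R.card * (univ.filter (fun f : Coch n G => R ⊆ Z f)).card : ℕ) : ℂ)
      = ((Fintype.card G ^ (Fintype.card (Edg n)) * (cycIn G R).card : ℕ) : ℂ) := by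
    push_cast
    rw [← h]
  exact_mod_cast h2


end

end Pool.Agent.DH10
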