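import Pool.Agent.DH10.CoreDefs

/-!
# DH10.ExploreCount : the exploration of an edge-connected core (Part 2 (ii), structural half)

For an edge-connected core `A ∋ t0` and any `H`: (1) everything is revealed, `fin = A`; (2) `N + S + 1 = |A|`;
(3) `steps ≤ |EE A|`; (4) `N ≤ 6 S + 7`.
Proof.  Invariants of the exploration along the steps (state `(rev, proc)`): `t0 ∈ rev ⊆ A`, `proc ⊆ EE rev`, every triangle
of `A` containing an edge of `proc` is in `rev`; each step processes a new edge of `EE A`, so there are at most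
`|EE A| ≤ |Edg n|` steps and the fuel suffices; at the end `pick = none`, so `proc ⊇ EE rev`, hence no triangle of
`A \ rev` shares an edge with a triangle of `rev`, and `A = rev` by edge-connectedness.
(4) Call vertices of `H` heavy, the others light.  `a_i` = number of triangles of `A` with `i` light vertices
(`i = 0..3`), `N_i`, `S_i` = numbers of non-saving and saving revealed triangles with `i` light vertices.
A non-saving triangle `{x,y,z}` revealed at `e = xy` (third vertex `z`) has `z` light, and: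
 * `x,y` light (`N_3`): `xz, yz` are not in `EE rev` (else saving): two new light-light edges;
 * `x` light, `y` heavy (`N_2`): `xz ∉ EE rev`: a new light-light edge;
 * `x,y` heavy (`N_1`): then `pick` returned an edge inside `H`, so all revealed edges not inside `H` are processed; if
   `xz` were revealed, it would be processed and the triangle would be in `rev`.  So `xz, yz` are two new light-heavy edges.
The new edges of different triangles revealed in the same step are different (different third vertices), and new edges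
become revealed after the step; so (induction over the steps, comparing with the number of light-light resp. light-heavy
edges of `EE rev`)
   `#LL edges of A ≥ 2 N_3 + N_2`,   `#LH edges of A ≥ 2 N_1`.
Double counting (each edge of a core is in at least two triangles): `2 #LL ≤ 3 a_3 + a_2`, `2 #LH ≤ 2 a_2 + 2 a_1`.  And
`a_i ≤ N_i + S_i + 1` (`t0`).  Therefore `4 N_3 + 2 N_2 ≤ 3 N_3 + 3 S_3 + 3 + N_2 + S_2 + ...`; precisely
`t0` contributes at most `3` to `3 a_3 + a_2` and at most `2` to `2a_2+2a_1`: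
`N_3 + N_2 ≤ 3 S_3 + S_2 + 3`, `N_1 ≤ N_2 + S_2 + S_1 + 1`, so `N ≤ 6 S_3 + 3 S_2 + S_1 + 7 ≤ 6 S + 7`.
(`N_0 = 0`: a non-saving triangle has a light third vertex.)
-/

set_option autoImplicit false

open Finset

namespace Pool.Agent.DH10

noncomputable section

variable {n : ℕ}


/-! ### auxiliary: the recursion of `explore` -/

private theorem ec_pick_some {H : Finset (Fin n)} {rev : Finset (Tri n)} {proc : Finset (Edg n)} {e : Edg n}
    (h : pick H rev proc = some e) :
    e ∈ EE rev ∧ e ∉ proc ∧ (InH H e → ∀ f ∈ EE rev, ¬ InH H f → f ∈ proc) := by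
  classical
  unfold pick at h
  split_ifs at h with h1 h2
  · have h3 := h1.choose_spec
    rw [Option.some.injEq] at h
    rw [h, Finset.mem_filter, Finset.mem_sdiff] at h3
    exact ⟨h3.1.1, h3.1.2, fun hi => absurd hi h3.2⟩
  · have h3 := h2.choose_spec
    rw [Option.some.injEq] at h
    rw [h, Finset.mem_sdiff] at h3
    refine ⟨h3.1, h3.2, fun _ f hf hfH => ?_⟩
    by_contra hfp
    exact h1 ⟨f, Finset.mem_filter.mpr ⟨Finset.mem_sdiff.mpr ⟨hf, hfp⟩, hfH⟩⟩

private theorem ec_pick_none {H : Finset (Fin n)} {rev : Finset (Tri n)} {proc : Finset (Edg n)}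
    (h : pick H rev proc = none) : EE rev ⊆ proc := by
  classical
  unfold pick at h
  split_ifs at h with h1 h2
  intro f hf
  by_contra hfp
  exact h2 ⟨f, Finset.mem_sdiff.mpr ⟨hf, hfp⟩⟩

private theorem ec_EE_mono {A B : Finset (Tri n)} (h : A ⊆ B) : EE A ⊆ EE B :=
  Finset.biUnion_subset_biUnion_of_subset_left _ h

open Classical in
/-- newly revealed triangles -/
private def ecnew (A rev : Finset (Tri n)) (e : Edg n) : Finset (Tri n) :=
  (A \ rev).filter fun t => e ∈ t.edges

private theorem ec_mem_new {A rev : Finset (Tri n)} {e : Edg n} {t : Tri n} :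
    t ∈ ecnew A rev e ↔ (t ∈ A ∧ t ∉ rev) ∧ e ∈ t.edges := by
  classical
  unfold ecnew
  rw [Finset.mem_filter, Finset.mem_sdiff]

private theorem ec_zero (H : Finset (Fin n)) (A rev : Finset (Tri n)) (proc : Finset (Edg n)) :
    explore H A 0 rev proc = ⟨0, 0, 0, rev⟩ := rfl

private theorem ec_none {H : Finset (Fin n)} {A rev : Finset (Tri n)} {proc : Finset (Edg n)} (k : ℕ)
    (h : pick H rev proc = none) : explore H A (k + 1) rev proc = ⟨0, 0, 0, rev⟩ := by
  classical
  rw [explore, h]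

open Classical in
private theorem ec_some {H : Finset (Fin n)} {A rev : Finset (Tri n)} {proc : Finset (Edg n)} {e : Edg n}
    (k : ℕ) (h : pick H rev proc = some e) :
    explore H A (k + 1) rev proc =
      ⟨(explore H A k (rev ∪ ecnew A rev e) (insert e proc)).N +
          ((ecnew A rev e).filter fun t => ¬ Saving H rev e t).card,
        (explore H A k (rev ∪ ecnew A rev e) (insert e proc)).S +
          ((ecnew A rev e).filter fun t => Saving H rev e t).card,
        (explore H A k (rev ∪ ecnew A rev e) (insert e proc)).steps + 1,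
        (explore H A k (rev ∪ ecnew A rev e) (insert e proc)).fin⟩ := by
  rw [explore, h]
  unfold ecnew
  congr!

private theorem ec_sub {A rev : Finset (Tri n)} {e : Edg n} (h : rev ⊆ A) : rev ∪ ecnew A rev e ⊆ A := by
  intro t ht
  rcases Finset.mem_union.mp ht with h1 | h1
  · exact h h1
  · exact (ec_mem_new.mp h1).1.1

private theorem ec_closed_step {A rev : Finset (Tri n)} {proc : Finset (Edg n)} {e : Edg n}
    (h : ∀ t ∈ A, ∀ f ∈ proc, f ∈ t.edges → t ∈ rev) :
    ∀ t ∈ A, ∀ f ∈ insert e proc, f ∈ t.edges → t ∈ rev ∪ ecnew A rev e := by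
  intro t ht f hf hft
  by_cases htr : t ∈ rev
  · exact Finset.mem_union_left _ htr
  · rcases Finset.mem_insert.mp hf with rfl | hf
    · exact Finset.mem_union_right _ (ec_mem_new.mpr ⟨⟨ht, htr⟩, hft⟩)
    · exact absurd (h t ht f hf hft) htr

private theorem ec_decr {A rev : Finset (Tri n)} {proc : Finset (Edg n)} {e : Edg n}
    (hA : rev ⊆ A) (he : e ∈ EE rev) (hp : e ∉ proc) :
    (EE A \ insert e proc).card + 1 ≤ (EE A \ proc).card := by
  classical
  have h1 : EE A \ insert e proc ⊆ (EE A \ proc).erase e := by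
    intro f hf
    rw [Finset.mem_sdiff, Finset.mem_insert, not_or] at hf
    exact Finset.mem_erase.mpr ⟨hf.2.1, Finset.mem_sdiff.mpr ⟨hf.1, hf.2.2⟩⟩
  have h2 : e ∈ EE A \ proc := Finset.mem_sdiff.mpr ⟨ec_EE_mono hA he, hp⟩
  have h3 := Finset.card_le_card h1
  have h4 := Finset.card_erase_add_one h2
  omega

private theorem ec_fin_aux (H : Finset (Fin n)) (A : Finset (Tri n)) (k : ℕ) :
    ∀ (rev : Finset (Tri n)) (proc : Finset (Edg n)), rev ⊆ A →
      (∀ t ∈ A, ∀ f ∈ proc, f ∈ t.edges → t ∈ rev) → (EE A \ proc).card ≤ k →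
      rev ⊆ (explore H A k rev proc).fin ∧ (explore H A k rev proc).fin ⊆ A ∧
        ∀ t ∈ A, ∀ f ∈ EE (explore H A k rev proc).fin, f ∈ t.edges → t ∈ (explore H A k rev proc).fin := by
  classical
  induction k with
  | zero =>
    intro rev proc hrev hcl hk
    rw [ec_zero]
    refine ⟨subset_rfl, hrev, fun t ht f hf hft => ?_⟩
    have h0 : EE A \ proc = ∅ := Finset.card_eq_zero.mp (Nat.le_zero.mp hk)
    have : f ∈ proc := by
      by_contra hfp
      have : f ∈ EE A \ proc := Finset.mem_sdiff.mpr ⟨ec_EE_mono hrev hf, hfp⟩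
      rw [h0] at this
      exact absurd this (Finset.notMem_empty _)
    exact hcl t ht f this hft
  | succ k ih =>
    intro rev proc hrev hcl hk
    rcases hp : pick H rev proc with _ | e
    · rw [ec_none k hp]
      refine ⟨subset_rfl, hrev, fun t ht f hf hft => ?_⟩
      exact hcl t ht f (ec_pick_none hp hf) hft
    · rw [ec_some k hp]
      obtain ⟨h1, h2, h3⟩ := ec_pick_some hp
      have h4 := ec_decr hrev h1 h2
      obtain ⟨i1, i2, i3⟩ := ih (rev ∪ ecnew A rev e) (insert e proc) (ec_sub hrev) (ec_closed_step hcl) (by omega)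
      exact ⟨Finset.subset_union_left.trans i1, i2, i3⟩

private theorem ec_card_aux (H : Finset (Fin n)) (A : Finset (Tri n)) (k : ℕ) :
    ∀ (rev : Finset (Tri n)) (proc : Finset (Edg n)),
      (explore H A k rev proc).N + (explore H A k rev proc).S + rev.card = (explore H A k rev proc).fin.card := by
  classical
  induction k with
  | zero =>
    intro rev proc
    rw [ec_zero]
    simp
  | succ k ih =>
    intro rev proc
    rcases hp : pick H rev proc with _ | e
    · rw [ec_none k hp]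
      simp
    · rw [ec_some k hp]
      have h1 := ih (rev ∪ ecnew A rev e) (insert e proc)
      have hd : Disjoint rev (ecnew A rev e) := by
        rw [Finset.disjoint_left]
        intro t ht ht2
        exact (ec_mem_new.mp ht2).1.2 ht
      rw [Finset.card_union_of_disjoint hd] at h1
      have h2 := Finset.card_filter_add_card_filter_not (s := ecnew A rev e) (fun t => Saving H rev e t)
      simp only
      omega

private theorem ec_steps_aux (H : Finset (Fin n)) (A : Finset (Tri n)) (k : ℕ) :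
    ∀ (rev : Finset (Tri n)) (proc : Finset (Edg n)), rev ⊆ A →
      (explore H A k rev proc).steps ≤ (EE A \ proc).card := by
  classical
  induction k with
  | zero =>
    intro rev proc _
    rw [ec_zero]
    simp
  | succ k ih =>
    intro rev proc hrev
    rcases hp : pick H rev proc with _ | e
    · rw [ec_none k hp]
      simp
    · rw [ec_some k hp]
      have h1 := ih (rev ∪ ecnew A rev e) (insert e proc) (ec_sub hrev)
      obtain ⟨h2, h3, _⟩ := ec_pick_some hp
      have h4 := ec_decr hrev h2 h3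
      simp only
      omega

private theorem ec_init {A : Finset (Tri n)} :
    ∀ t ∈ A, ∀ f ∈ (∅ : Finset (Edg n)), f ∈ t.edges → t ∈ ({t} : Finset (Tri n)) := by
  intro t _ f hf
  exact absurd hf (Finset.notMem_empty _)

/-! ### auxiliary: triangles -/

private theorem ec_third (t : Tri n) {e : Edg n} (he : e ∈ t.edges) :
    ∃ z ∈ t.verts, z ≠ e.1.1 ∧ z ≠ e.1.2 ∧ ∃ f1 f2 : Edg n, f1 ≠ e ∧ f2 ≠ e ∧ f1 ≠ f2 ∧ t.edges = {e, f1, f2} ∧
      ((f1.1.1 = e.1.1 ∧ f1.1.2 = z) ∨ (f1.1.1 = z ∧ f1.1.2 = e.1.1)) ∧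
      ((f2.1.1 = e.1.2 ∧ f2.1.2 = z) ∨ (f2.1.1 = z ∧ f2.1.2 = e.1.2)) := by
  classical
  obtain ⟨⟨a, b, c⟩, h1, h2⟩ := t
  simp only at h1 h2
  have h3 := h1.trans h2
  have hab : (⟨(a, b), h1⟩ : Edg n) ≠ ⟨(b, c), h2⟩ := by
    intro h
    rw [Subtype.mk.injEq, Prod.mk.injEq] at h
    exact absurd h.1 h1.ne
  have hac : (⟨(a, b), h1⟩ : Edg n) ≠ ⟨(a, c), h3⟩ := by
    intro h
    rw [Subtype.mk.injEq, Prod.mk.injEq] at h
    exact absurd h.2 h2.ne
  have hbc : (⟨(b, c), h2⟩ : Edg n) ≠ ⟨(a, c), h3⟩ := by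
    intro h
    rw [Subtype.mk.injEq, Prod.mk.injEq] at h
    exact absurd h.1.symm h1.ne
  simp only [Tri.edges, Tri.ab, Tri.bc, Tri.ac, Finset.mem_insert, Finset.mem_singleton] at he
  simp only [Tri.edges, Tri.ab, Tri.bc, Tri.ac, Tri.verts, Tri.a, Tri.b, Tri.c]
  rcases he with rfl | rfl | rfl
  · refine ⟨c, by simp, ?_, ?_, ⟨(a, c), h3⟩, ⟨(b, c), h2⟩, hac.symm, hab.symm, hbc.symm, ?_, Or.inl ⟨rfl, rfl⟩,
      Or.inl ⟨rfl, rfl⟩⟩
    · exact h3.ne'
    · exact h2.ne'
    · ext f; simp only [Finset.mem_insert, Finset.mem_singleton]; tauto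
  · refine ⟨a, by simp, ?_, ?_, ⟨(a, b), h1⟩, ⟨(a, c), h3⟩, hab, hbc.symm, hac, ?_, Or.inr ⟨rfl, rfl⟩,
      Or.inr ⟨rfl, rfl⟩⟩
    · exact h1.ne
    · exact h3.ne
    · ext f; simp only [Finset.mem_insert, Finset.mem_singleton]; tauto
  · refine ⟨b, by simp, ?_, ?_, ⟨(a, b), h1⟩, ⟨(b, c), h2⟩, hac, hbc, hab, ?_, Or.inl ⟨rfl, rfl⟩,
      Or.inr ⟨rfl, rfl⟩⟩
    · exact h1.ne'
    · exact h2.ne
    · ext f; simp only [Finset.mem_insert, Finset.mem_singleton]; tauto

private theorem ec_two_edges {t t' : Tri n} {e f : Edg n} (hne : e ≠ f) (h1 : e ∈ t.edges) (h2 : f ∈ t.edges)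
    (h3 : e ∈ t'.edges) (h4 : f ∈ t'.edges) : t = t' := by
  classical
  obtain ⟨⟨a, b, c⟩, ht1, ht2⟩ := t
  obtain ⟨⟨a', b', c'⟩, hs1, hs2⟩ := t'
  simp only at ht1 ht2 hs1 hs2
  obtain ⟨⟨x, y⟩, hxy⟩ := e
  obtain ⟨⟨u, v⟩, huv⟩ := f
  simp only at hxy huv
  simp only [Tri.edges, Tri.ab, Tri.bc, Tri.ac, Finset.mem_insert, Finset.mem_singleton, Subtype.mk.injEq,
    Prod.mk.injEq] at h1 h2 h3 h4
  simp only [ne_eq, Subtype.mk.injEq, Prod.mk.injEq] at hne
  simp only [Subtype.mk.injEq, Prod.mk.injEq]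
  simp only [Fin.ext_iff] at h1 h2 h3 h4 hne ⊢
  rw [Fin.lt_def] at ht1 ht2 hs1 hs2 hxy huv
  omega

/-- edge weight: `4` light-light, `1` light-heavy, `0` heavy-heavy -/
private def ecw (H : Finset (Fin n)) (e : Edg n) : ℕ :=
  if e.1.1 ∈ H then (if e.1.2 ∈ H then 0 else 1) else (if e.1.2 ∈ H then 1 else 4)

private theorem ecw_le (H : Finset (Fin n)) (e : Edg n) : ecw H e ≤ 4 := by
  unfold ecw
  split_ifs <;> omega

private theorem ec_sum_le (H : Finset (Fin n)) (t : Tri n) : ∑ f ∈ t.edges, ecw H f ≤ 12 := by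
  classical
  calc ∑ f ∈ t.edges, ecw H f ≤ ∑ _f ∈ t.edges, 4 := Finset.sum_le_sum fun f _ => ecw_le H f
    _ = t.edges.card * 4 := by rw [Finset.sum_const, smul_eq_mul]
    _ ≤ 3 * 4 := Nat.mul_le_mul_right _ (by unfold Tri.edges; exact Finset.card_le_three)
    _ = 12 := rfl

private theorem ecw_join (H : Finset (Fin n)) (f : Edg n) (x z : Fin n)
    (h : (f.1.1 = x ∧ f.1.2 = z) ∨ (f.1.1 = z ∧ f.1.2 = x)) (hz : z ∉ H) :
    ecw H f = if x ∈ H then 1 else 4 := by
  unfold ecw
  rcases h with ⟨h1, h2⟩ | ⟨h1, h2⟩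
  · rw [h1, h2]
    simp [hz]
  · rw [h1, h2]
    simp [hz]

open Classical in
private theorem ec_nonsaving {H : Finset (Fin n)} {A rev : Finset (Tri n)} {proc : Finset (Edg n)} {e : Edg n}
    (hcl : ∀ t ∈ A, ∀ f ∈ proc, f ∈ t.edges → t ∈ rev) (hp : pick H rev proc = some e) {t : Tri n}
    (ht : t ∈ ecnew A rev e) (hs : ¬ Saving H rev e t) :
    2 + ∑ f ∈ t.edges, ecw H f ≤ 2 * ∑ f ∈ t.edges \ EE rev, ecw H f := by
  obtain ⟨⟨htA, htr⟩, het⟩ := ec_mem_new.mp ht
  obtain ⟨z, hz, hz1, hz2, f1, f2, hf1, hf2, hf12, hE, hj1, hj2⟩ := ec_third t het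
  obtain ⟨p1, p2, p3⟩ := ec_pick_some hp
  have hns : ∀ q : (z ∈ H ∨ (e.1.1 ∉ H ∧ Joined rev e.1.1 z) ∨ (e.1.2 ∉ H ∧ Joined rev e.1.2 z)), False :=
    fun q => hs ⟨z, hz, hz1, hz2, q⟩
  have hzH : z ∉ H := fun h => hns (Or.inl h)
  have w1 := ecw_join H f1 _ z hj1 hzH
  have w2 := ecw_join H f2 _ z hj2 hzH
  have g1 : f1 ∈ t.edges := by rw [hE]; simp
  have g2 : f2 ∈ t.edges := by rw [hE]; simp
  have j1 : f1 ∈ EE rev → Joined rev e.1.1 z := fun h => ⟨f1, h, hj1⟩
  have j2 : f2 ∈ EE rev → Joined rev e.1.2 z := fun h => ⟨f2, h, hj2⟩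
  have hsum : ∑ f ∈ t.edges, ecw H f = ecw H e + (ecw H f1 + ecw H f2) := by
    rw [hE, Finset.sum_insert, Finset.sum_insert, Finset.sum_singleton]
    · simpa using hf12
    · simp only [Finset.mem_insert, Finset.mem_singleton, not_or]
      exact ⟨hf1.symm, hf2.symm⟩
  have hone : ∀ f : Edg n, f ∈ t.edges → f ∉ EE rev → ecw H f ≤ ∑ f ∈ t.edges \ EE rev, ecw H f := by
    intro f hf hfr
    exact Finset.single_le_sum (f := fun f => ecw H f) (fun _ _ => Nat.zero_le _) (Finset.mem_sdiff.mpr ⟨hf, hfr⟩)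
  have htwo : f1 ∉ EE rev → f2 ∉ EE rev → ecw H f1 + ecw H f2 ≤ ∑ f ∈ t.edges \ EE rev, ecw H f := by
    intro h1 h2
    have : ({f1, f2} : Finset (Edg n)) ⊆ t.edges \ EE rev := by
      intro f hf
      rcases Finset.mem_insert.mp hf with rfl | hf
      · exact Finset.mem_sdiff.mpr ⟨g1, h1⟩
      · rw [Finset.mem_singleton] at hf
        subst hf
        exact Finset.mem_sdiff.mpr ⟨g2, h2⟩
    calc ecw H f1 + ecw H f2 = ∑ f ∈ ({f1, f2} : Finset (Edg n)), ecw H f := by
          rw [Finset.sum_pair hf12]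
      _ ≤ _ := Finset.sum_le_sum_of_subset this
  have we : ecw H e = if e.1.1 ∈ H then (if e.1.2 ∈ H then 0 else 1) else (if e.1.2 ∈ H then 1 else 4) := rfl
  by_cases hx : e.1.1 ∈ H
  · by_cases hy : e.1.2 ∈ H
    · -- heavy-heavy
      have hin : InH H e := ⟨hx, hy⟩
      have k1 : f1 ∉ EE rev := by
        intro h
        have hnot : ¬ InH H f1 := by
          rintro ⟨q1, q2⟩
          rcases hj1 with ⟨r1, r2⟩ | ⟨r1, r2⟩
          · exact hzH (r2 ▸ q2)
          · exact hzH (r1 ▸ q1)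
        exact htr (hcl t htA f1 (p3 hin f1 h hnot) g1)
      have k2 : f2 ∉ EE rev := by
        intro h
        have hnot : ¬ InH H f2 := by
          rintro ⟨q1, q2⟩
          rcases hj2 with ⟨r1, r2⟩ | ⟨r1, r2⟩
          · exact hzH (r2 ▸ q2)
          · exact hzH (r1 ▸ q1)
        exact htr (hcl t htA f2 (p3 hin f2 h hnot) g2)
      have := htwo k1 k2
      rw [if_pos hx] at w1
      rw [if_pos hy] at w2
      rw [if_pos hx, if_pos hy] at we
      omega
    · have k2 : f2 ∉ EE rev := fun h => hns (Or.inr (Or.inr ⟨hy, j2 h⟩))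
      have := hone f2 g2 k2
      rw [if_pos hx] at w1
      rw [if_neg hy] at w2
      rw [if_pos hx, if_neg hy] at we
      omega
  · have k1 : f1 ∉ EE rev := fun h => hns (Or.inr (Or.inl ⟨hx, j1 h⟩))
    by_cases hy : e.1.2 ∈ H
    · have := hone f1 g1 k1
      rw [if_neg hx] at w1
      rw [if_pos hy] at w2
      rw [if_neg hx, if_pos hy] at we
      omega
    · have k2 : f2 ∉ EE rev := fun h => hns (Or.inr (Or.inr ⟨hy, j2 h⟩))
      have := htwo k1 k2
      rw [if_neg hx] at w1
      rw [if_neg hy] at w2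
      rw [if_neg hx, if_neg hy] at we
      omega

open Classical in
private theorem ec_new_edges {H : Finset (Fin n)} {A rev : Finset (Tri n)} {e : Edg n} (he : e ∈ EE rev) :
    ∑ f ∈ EE rev, ecw H f + ∑ t ∈ ecnew A rev e, ∑ f ∈ t.edges \ EE rev, ecw H f
      ≤ ∑ f ∈ EE (rev ∪ ecnew A rev e), ecw H f := by
  have hdis : ((ecnew A rev e : Finset (Tri n)) : Set (Tri n)).PairwiseDisjoint
      (fun t => t.edges \ EE rev) := by
    intro t ht t' ht' hne
    rw [Function.onFun, Finset.disjoint_left]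
    intro f hf hf'
    rw [Finset.mem_sdiff] at hf hf'
    have hef : e ≠ f := by
      rintro rfl
      exact hf.2 he
    exact hne (ec_two_edges hef (ec_mem_new.mp ht).2 hf.1 (ec_mem_new.mp ht').2 hf'.1)
  rw [← Finset.sum_biUnion hdis]
  have hd2 : Disjoint (EE rev) ((ecnew A rev e).biUnion fun t => t.edges \ EE rev) := by
    rw [Finset.disjoint_left]
    intro f hf hf2
    rw [Finset.mem_biUnion] at hf2
    obtain ⟨t, _, ht⟩ := hf2
    exact (Finset.mem_sdiff.mp ht).2 hf
  rw [← Finset.sum_union hd2]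
  apply Finset.sum_le_sum_of_subset
  intro f hf
  rcases Finset.mem_union.mp hf with hf | hf
  · exact ec_EE_mono Finset.subset_union_left hf
  · rw [Finset.mem_biUnion] at hf
    obtain ⟨t, ht, hft⟩ := hf
    unfold EE
    rw [Finset.mem_biUnion]
    exact ⟨t, Finset.mem_union_right _ ht, (Finset.mem_sdiff.mp hft).1⟩

private theorem ec_pot_aux (H : Finset (Fin n)) (A : Finset (Tri n)) (k : ℕ) :
    ∀ (rev : Finset (Tri n)) (proc : Finset (Edg n)),
      (∀ t ∈ A, ∀ f ∈ proc, f ∈ t.edges → t ∈ rev) →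
      2 * (explore H A k rev proc).N + 2 * ∑ f ∈ EE rev, ecw H f +
          ∑ t ∈ (explore H A k rev proc).fin, ∑ f ∈ t.edges, ecw H f ≤
        12 * (explore H A k rev proc).S + 2 * ∑ f ∈ EE (explore H A k rev proc).fin, ecw H f +
          ∑ t ∈ rev, ∑ f ∈ t.edges, ecw H f := by
  classical
  induction k with
  | zero =>
    intro rev proc _
    rw [ec_zero]
    simp
  | succ k ih =>
    intro rev proc hcl
    rcases hp : pick H rev proc with _ | e
    · rw [ec_none k hp]
      simp
    · rw [ec_some k hp]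
      have h1 := ih (rev ∪ ecnew A rev e) (insert e proc) (ec_closed_step hcl)
      have hd : Disjoint rev (ecnew A rev e) := by
        rw [Finset.disjoint_left]
        intro t ht ht2
        exact (ec_mem_new.mp ht2).1.2 ht
      rw [Finset.sum_union hd] at h1
      obtain ⟨h2, h3, _⟩ := ec_pick_some hp
      have h4 := ec_new_edges (H := H) (A := A) h2
      have hN : ∑ t ∈ (ecnew A rev e).filter (fun t => ¬ Saving H rev e t), (2 + ∑ f ∈ t.edges, ecw H f) ≤
          ∑ t ∈ (ecnew A rev e).filter (fun t => ¬ Saving H rev e t), 2 * ∑ f ∈ t.edges \ EE rev, ecw H f := by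
        apply Finset.sum_le_sum
        intro t ht
        rw [Finset.mem_filter] at ht
        exact ec_nonsaving hcl hp ht.1 ht.2
      have hS : ∑ t ∈ (ecnew A rev e).filter (fun t => Saving H rev e t), ∑ f ∈ t.edges, ecw H f ≤
          ∑ _t ∈ (ecnew A rev e).filter (fun t => Saving H rev e t), 12 := by
        apply Finset.sum_le_sum
        intro t _
        exact ec_sum_le H t
      have s1 := Finset.sum_filter_add_sum_filter_not (ecnew A rev e) (fun t => Saving H rev e t)
        (fun t => ∑ f ∈ t.edges, ecw H f)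
      have s2 := Finset.sum_filter_add_sum_filter_not (ecnew A rev e) (fun t => Saving H rev e t)
        (fun t => ∑ f ∈ t.edges \ EE rev, ecw H f)
      rw [Finset.sum_add_distrib, Finset.sum_const, smul_eq_mul, ← Finset.mul_sum] at hN
      rw [Finset.sum_const, smul_eq_mul] at hS
      simp only
      omega

open Classical in
private theorem ec_core {A : Finset (Tri n)} (hA : IsCore A) (g : Edg n → ℕ) :
    2 * ∑ f ∈ EE A, g f ≤ ∑ t ∈ A, ∑ f ∈ t.edges, g f := by
  have h1 : ∀ t ∈ A, ∑ f ∈ t.edges, g f = ∑ f ∈ EE A, if f ∈ t.edges then g f else 0 := by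
    intro t ht
    rw [← Finset.sum_filter]
    apply Finset.sum_congr _ (fun _ _ => rfl)
    ext f
    rw [Finset.mem_filter]
    constructor
    · intro hf
      exact ⟨Finset.mem_biUnion.mpr ⟨t, ht, hf⟩, hf⟩
    · exact fun hf => hf.2
  rw [Finset.sum_congr rfl h1, Finset.sum_comm, Finset.mul_sum]
  apply Finset.sum_le_sum
  intro f hf
  obtain ⟨t, ht, hft⟩ := Finset.mem_biUnion.mp hf
  obtain ⟨t', ht', hne, hft'⟩ := hA.2 t ht f hft
  have h2 : ({t, t'} : Finset (Tri n)) ⊆ A := by
    intro s hs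
    rcases Finset.mem_insert.mp hs with rfl | hs
    · exact ht
    · rw [Finset.mem_singleton] at hs
      rw [hs]
      exact ht'
  calc 2 * g f = ∑ t ∈ ({t, t'} : Finset (Tri n)), (if f ∈ t.edges then g f else 0) := by
        rw [Finset.sum_pair hne.symm, if_pos hft, if_pos hft']
        ring
    _ ≤ _ := Finset.sum_le_sum_of_subset h2

theorem xpl_fin (H : Finset (Fin n)) {A : Finset (Tri n)} (hc : EConn A) {t0 : Tri n} (h0 : t0 ∈ A) :
    (xpl H A t0).fin = A := by
  classical
  have h1 : ({t0} : Finset (Tri n)) ⊆ A := Finset.singleton_subset_iff.mpr h0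
  obtain ⟨i1, i2, i3⟩ := ec_fin_aux H A (Fintype.card (Edg n)) {t0} ∅ h1
    (fun t _ f hf => absurd hf (Finset.notMem_empty _)) (Finset.card_le_univ _)
  change {t0} ⊆ (xpl H A t0).fin at i1
  change (xpl H A t0).fin ⊆ A at i2
  change ∀ t ∈ A, ∀ f ∈ EE (xpl H A t0).fin, f ∈ t.edges → t ∈ (xpl H A t0).fin at i3
  apply Finset.Subset.antisymm i2
  intro t ht
  have hr := hc t0 h0 t ht
  clear ht
  induction hr with
  | refl => exact Finset.singleton_subset_iff.mp i1
  | tail _ hbc ih =>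
    obtain ⟨q1, q2, f, hf⟩ := hbc
    rw [Finset.mem_inter] at hf
    exact i3 _ q2 f (Finset.mem_biUnion.mpr ⟨_, ih, hf.1⟩) hf.2

theorem xpl_card (H : Finset (Fin n)) {A : Finset (Tri n)} (hc : EConn A) {t0 : Tri n} (h0 : t0 ∈ A) :
    (xpl H A t0).N + (xpl H A t0).S + 1 = A.card := by
  have h1 := ec_card_aux H A (Fintype.card (Edg n)) {t0} ∅
  rw [Finset.card_singleton] at h1
  change (xpl H A t0).N + (xpl H A t0).S + 1 = (xpl H A t0).fin.card at h1
  rw [xpl_fin H hc h0] at h1
  exact h1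

theorem xpl_steps (H : Finset (Fin n)) {A : Finset (Tri n)} {t0 : Tri n} (h0 : t0 ∈ A) :
    (xpl H A t0).steps ≤ (EE A).card := by
  have h1 := ec_steps_aux H A (Fintype.card (Edg n)) {t0} ∅ (Finset.singleton_subset_iff.mpr h0)
  rw [Finset.sdiff_empty] at h1
  exact h1

theorem xpl_N_le (H : Finset (Fin n)) {A : Finset (Tri n)} (hA : IsCore A) (hc : EConn A) {t0 : Tri n}
    (h0 : t0 ∈ A) : (xpl H A t0).N ≤ 6 * (xpl H A t0).S + 7 := by
  classical
  have h1 := ec_pot_aux H A (Fintype.card (Edg n)) {t0} ∅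
    (fun t _ f hf => absurd hf (Finset.notMem_empty _))
  change 2 * (xpl H A t0).N + 2 * ∑ f ∈ EE {t0}, ecw H f + ∑ t ∈ (xpl H A t0).fin, ∑ f ∈ t.edges, ecw H f ≤
    12 * (xpl H A t0).S + 2 * ∑ f ∈ EE (xpl H A t0).fin, ecw H f + ∑ t ∈ {t0}, ∑ f ∈ t.edges, ecw H f at h1
  rw [xpl_fin H hc h0, Finset.sum_singleton] at h1
  have h2 : EE ({t0} : Finset (Tri n)) = t0.edges := by
    unfold EE
    rw [Finset.singleton_biUnion]
  rw [h2] at h1
  have h3 := ec_core hA (ecw H)
  omega

end

end Pool.Agent.DH10
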