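import Pool.Agent.DH10.CoreDefs

/-!
# DH10.SmallCore : small edge-connected cores (Part 2 (i))

(a) `core_card_edges`: `2 |EE A| ≤ 3 |A|` for a core (double counting: each triangle has 3 edges, each edge of `A` is in at
    least two triangles of `A`).
(b) `core_card_ge`: a core has at least 4 triangles (a triangle `t` and for each of its three edges another triangle;
    these three are distinct since two different triangles share at most one edge).
(c) `core_verts`: for an edge-connected core, `2 |VV A| ≤ |A| + 2 + 2 j` if `|A| ≤ rk A + j`.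
    The boundary vectors of `t ∈ A` lie in the space of functions on `EE A` killed by `dᵀ` (`dᵀ D(t) = 0`).  The graph
    `(VV A, EE A)` is connected (`EConn`), so the restriction of `dᵀ` to `ℝ^{EE A}` has rank `|VV A| - 1` and the kernel
    has dimension `|EE A| - |VV A| + 1`.  So `|A| - j ≤ |EE A| - |VV A| + 1 ≤ 3|A|/2 - |VV A| + 1`.
(d) `small_core_sum`: the number of `A` with `|VV A| = v` is at most `C(n,v) 2^{v^3} ≤ n^v 2^{v^3}`, `v ≤ 3|A| ≤ 3 m1`.
    For `j = 0`: `v ≤ |A|/2 + 1 ≤ |A| - 1` (as `|A| ≥ 4`), so each term is `≤ C^{m} n^{v-m} ≤ C^m/n`.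
    For `j = 1`: `v ≤ |A|/2 + 2 ≤ |A|`.
-/

set_option autoImplicit false

open Finset

namespace Pool.Agent.DH10

noncomputable section

variable {n : ℕ}

private theorem edges_card (t : Tri n) : t.edges.card = 3 := by
  obtain ⟨⟨a, b, c⟩, hab, hbc⟩ := t
  simp only at hab hbc
  rw [Tri.edges, Finset.card_eq_three]
  refine ⟨_, _, _, ?_, ?_, ?_, rfl⟩
  · intro h
    simp only [Tri.ab, Tri.bc, Subtype.mk.injEq, Prod.mk.injEq] at h
    exact absurd h.1 (ne_of_lt hab)
  · intro h
    simp only [Tri.ab, Tri.ac, Subtype.mk.injEq, Prod.mk.injEq] at h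
    exact absurd h.2 (ne_of_lt hbc)
  · intro h
    simp only [Tri.bc, Tri.ac, Subtype.mk.injEq, Prod.mk.injEq] at h
    exact absurd h.1 (ne_of_gt hab)

private theorem tri_unique {t t' : Tri n} {e e' : Edg n} (hne : e ≠ e') (h1 : e ∈ t.edges)
    (h2 : e' ∈ t.edges) (h3 : e ∈ t'.edges) (h4 : e' ∈ t'.edges) : t = t' := by
  obtain ⟨⟨a, b, c⟩, hab, hbc⟩ := t
  obtain ⟨⟨a', b', c'⟩, hab', hbc'⟩ := t'
  obtain ⟨⟨x, y⟩, hxy⟩ := e
  obtain ⟨⟨x', y'⟩, hxy'⟩ := e'
  simp only [Tri.edges, Finset.mem_insert, Finset.mem_singleton, Tri.ab, Tri.bc, Tri.ac,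
    Subtype.mk.injEq, Prod.mk.injEq] at h1 h2 h3 h4
  simp only at hab hbc hab' hbc' hxy hxy'
  simp only [ne_eq, Subtype.mk.injEq, Prod.mk.injEq] at hne ⊢
  simp only [Fin.ext_iff, Fin.lt_def] at *
  omega

theorem core_card_edges {A : Finset (Tri n)} (hA : IsCore A) : 2 * (EE A).card ≤ 3 * A.card := by
  classical
  have h1 : ∑ t ∈ A, (t.edges).card = 3 * A.card := by
    rw [Finset.sum_congr rfl (fun t _ => edges_card t)]
    simp [mul_comm]
  have h2 : ∑ t ∈ A, (t.edges).card = ∑ e ∈ EE A, (A.filter fun t => e ∈ t.edges).card := by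
    have := Finset.sum_card_bipartiteAbove_eq_sum_card_bipartiteBelow (s := A) (t := EE A)
      (fun (t : Tri n) (e : Edg n) => e ∈ t.edges)
    simp only [Finset.bipartiteAbove, Finset.bipartiteBelow] at this
    rw [← this]
    refine Finset.sum_congr rfl fun t ht => ?_
    congr 1
    ext e
    simp only [Finset.mem_filter, EE, Finset.mem_biUnion]
    exact ⟨fun h => ⟨⟨t, ht, h⟩, h⟩, fun h => h.2⟩
  have h3 : ∀ e ∈ EE A, 2 ≤ (A.filter fun t => e ∈ t.edges).card := by
    intro e he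
    simp only [EE, Finset.mem_biUnion] at he
    obtain ⟨t, ht, hte⟩ := he
    obtain ⟨t', ht', hne, hte'⟩ := hA.2 t ht e hte
    refine Finset.one_lt_card.mpr ⟨t, ?_, t', ?_, hne.symm⟩
    · simp [ht, hte]
    · simp [ht', hte']
  have h4 : ∑ _e ∈ EE A, 2 ≤ ∑ e ∈ EE A, (A.filter fun t => e ∈ t.edges).card :=
    Finset.sum_le_sum h3
  rw [Finset.sum_const, smul_eq_mul] at h4
  omega

theorem core_card_ge {A : Finset (Tri n)} (hA : IsCore A) : 4 ≤ A.card := by
  classical
  obtain ⟨t, ht⟩ := hA.1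
  have hm1 : t.ab ∈ t.edges := by simp [Tri.edges]
  have hm2 : t.bc ∈ t.edges := by simp [Tri.edges]
  have hm3 : t.ac ∈ t.edges := by simp [Tri.edges]
  have hc := edges_card t
  have hd12 : t.ab ≠ t.bc := by
    intro h
    rw [Tri.edges, h, Finset.insert_eq_of_mem (by simp)] at hc
    exact absurd hc (by have := Finset.card_le_two (a := t.bc) (b := t.ac); omega)
  have hd13 : t.ab ≠ t.ac := by
    intro h
    rw [Tri.edges, h, Finset.insert_eq_of_mem (by simp)] at hc
    exact absurd hc (by have := Finset.card_le_two (a := t.bc) (b := t.ac); omega)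
  have hd23 : t.bc ≠ t.ac := by
    intro h
    rw [Tri.edges, h, Finset.insert_eq_of_mem (by simp : t.ac ∈ ({t.ac} : Finset (Edg n)))] at hc
    exact absurd hc (by have := Finset.card_le_two (a := t.ab) (b := t.ac); omega)
  obtain ⟨t1, h1, hn1, he1⟩ := hA.2 t ht _ hm1
  obtain ⟨t2, h2, hn2, he2⟩ := hA.2 t ht _ hm2
  obtain ⟨t3, h3, hn3, he3⟩ := hA.2 t ht _ hm3
  have h12 : t1 ≠ t2 := fun h => hn1 (tri_unique hd12 hm1 hm2 he1 (h ▸ he2)).symm
  have h13 : t1 ≠ t3 := fun h => hn1 (tri_unique hd13 hm1 hm3 he1 (h ▸ he3)).symm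
  have h23 : t2 ≠ t3 := fun h => hn2 (tri_unique hd23 hm2 hm3 he2 (h ▸ he3)).symm
  have hsub : ({t, t1, t2, t3} : Finset (Tri n)) ⊆ A := by
    intro x hx
    simp only [Finset.mem_insert, Finset.mem_singleton] at hx
    rcases hx with rfl | rfl | rfl | rfl <;> assumption
  have := Finset.card_le_card hsub
  rw [Finset.card_insert_of_notMem (by simp [hn1.symm, hn2.symm, hn3.symm]),
    Finset.card_insert_of_notMem (by simp [h12, h13]), Finset.card_insert_of_notMem (by simp [h23]),
    Finset.card_singleton] at this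
  exact this

/-- boundary vector of an edge -/
private def bv (e : Edg n) : Fin n → ℝ := fun v => (D1 v e : ℝ)

private def bspan (A : Finset (Tri n)) : Submodule ℝ (Fin n → ℝ) :=
  Submodule.span ℝ (bv '' (EE A : Set (Edg n)))

private theorem bv_eq (e : Edg n) : (bv e : Fin n → ℝ) = Pi.single e.1.2 1 - Pi.single e.1.1 1 := by
  funext v
  simp only [bv, D1, Pi.sub_apply, Pi.single_apply]
  push_cast
  rfl

private theorem mem_bspan_edge {A : Finset (Tri n)} {e : Edg n} (he : e ∈ EE A) :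
    (Pi.single e.1.2 1 - Pi.single e.1.1 1 : Fin n → ℝ) ∈ bspan A := by
  rw [← bv_eq]
  exact Submodule.subset_span ⟨e, he, rfl⟩

private def Rl (A : Finset (Tri n)) (x y : Fin n) : Prop :=
  (Pi.single x 1 - Pi.single y 1 : Fin n → ℝ) ∈ bspan A

private theorem Rl.symm {A : Finset (Tri n)} {x y : Fin n} (h : Rl A x y) : Rl A y x := by
  unfold Rl at *
  rw [← neg_sub]
  exact Submodule.neg_mem _ h

private theorem Rl.trans {A : Finset (Tri n)} {x y z : Fin n} (h : Rl A x y) (h' : Rl A y z) :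
    Rl A x z := by
  unfold Rl at *
  have := Submodule.add_mem _ h h'
  simpa using this

private theorem Rl.refl {A : Finset (Tri n)} (x : Fin n) : Rl A x x := by
  unfold Rl
  simp

private theorem Rl_tri {A : Finset (Tri n)} {t : Tri n} (ht : t ∈ A) {x y : Fin n}
    (hx : x ∈ t.verts) (hy : y ∈ t.verts) : Rl A x y := by
  have hab : t.ab ∈ EE A := by
    simp only [EE, Finset.mem_biUnion]; exact ⟨t, ht, by simp [Tri.edges]⟩
  have hbc : t.bc ∈ EE A := by
    simp only [EE, Finset.mem_biUnion]; exact ⟨t, ht, by simp [Tri.edges]⟩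
  have h1 : Rl A t.b t.a := mem_bspan_edge hab
  have h2 : Rl A t.c t.b := mem_bspan_edge hbc
  have h3 : Rl A t.c t.a := h2.trans h1
  simp only [Tri.verts, Finset.mem_insert, Finset.mem_singleton] at hx hy
  rcases hx with rfl | rfl | rfl <;> rcases hy with rfl | rfl | rfl <;>
    first | exact Rl.refl _ | assumption | exact h1.symm | exact h2.symm | exact h3.symm

private theorem edge_verts {t : Tri n} {e : Edg n} (he : e ∈ t.edges) : e.1.1 ∈ t.verts := by
  simp only [Tri.edges, Finset.mem_insert, Finset.mem_singleton] at he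
  rcases he with rfl | rfl | rfl <;> simp [Tri.verts, Tri.ab, Tri.bc, Tri.ac, Tri.a, Tri.b, Tri.c]

private theorem Rl_conn {A : Finset (Tri n)} {t t' : Tri n} (ht : t ∈ A)
    (h : Relation.ReflTransGen (TAdj A) t t') :
    ∀ x ∈ t.verts, ∀ y ∈ t'.verts, Rl A x y := by
  induction h with
  | refl => exact fun x hx y hy => Rl_tri ht hx hy
  | tail _ hbc ih =>
    intro x hx y hy
    obtain ⟨hb, hc, e, he⟩ := hbc
    rw [Finset.mem_inter] at he
    exact (ih x hx _ (edge_verts he.1)).trans (Rl_tri hc (edge_verts he.2) hy)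

private theorem Rl_all {A : Finset (Tri n)} (hc : EConn A) {x y : Fin n} (hx : x ∈ VV A)
    (hy : y ∈ VV A) : Rl A x y := by
  simp only [VV, Finset.mem_biUnion] at hx hy
  obtain ⟨t, ht, hx⟩ := hx
  obtain ⟨t', ht', hy⟩ := hy
  exact Rl_conn ht (hc t ht t' ht') x hx y hy

private theorem finrank_bspan {A : Finset (Tri n)} (hc : EConn A) :
    (VV A).card ≤ Module.finrank ℝ (bspan A) + 1 := by
  classical
  rcases (VV A).eq_empty_or_nonempty with h0 | ⟨v0, hv0⟩
  · simp [h0]
  have h1 : Submodule.span ℝ (Set.range fun v : VV A => (Pi.single v.1 1 : Fin n → ℝ)) ≤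
      bspan A ⊔ Submodule.span ℝ {(Pi.single v0 1 : Fin n → ℝ)} := by
    rw [Submodule.span_le]
    rintro _ ⟨v, rfl⟩
    have := Submodule.add_mem_sup (Rl_all hc v.2 hv0)
      (Submodule.mem_span_singleton_self (R := ℝ) (Pi.single v0 1 : Fin n → ℝ))
    simpa using this
  have h2 : Module.finrank ℝ (Submodule.span ℝ (Set.range fun v : VV A =>
      (Pi.single v.1 1 : Fin n → ℝ))) = (VV A).card := by
    have hli : LinearIndependent ℝ (fun v : VV A => (Pi.single v.1 1 : Fin n → ℝ)) := by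
      have := (Pi.basisFun ℝ (Fin n)).linearIndependent
      have h' := this.comp (fun v : VV A => v.1) Subtype.val_injective
      convert h' using 2
      simp
    rw [finrank_span_eq_card hli]
    simp
  have h3 := Submodule.finrank_mono h1
  have h4 := Submodule.finrank_add_le_finrank_add_finrank (bspan A)
    (Submodule.span ℝ {(Pi.single v0 1 : Fin n → ℝ)})
  have h5 : Module.finrank ℝ (Submodule.span ℝ {(Pi.single v0 1 : Fin n → ℝ)}) ≤ 1 := by
    have := finrank_span_le_card (R := ℝ) ({(Pi.single v0 1 : Fin n → ℝ)} : Set (Fin n → ℝ))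
    simpa using this
  omega

/-- the boundary map on functions on `EE A` -/
private def phi (A : Finset (Tri n)) : (EE A → ℝ) →ₗ[ℝ] (Fin n → ℝ) :=
  Fintype.linearCombination ℝ (fun e : EE A => bv e.1)

private theorem range_phi (A : Finset (Tri n)) : LinearMap.range (phi A) = bspan A := by
  rw [phi, Fintype.range_linearCombination, bspan]
  congr 1
  ext x
  simp

/-- extension by zero -/
private def psi (A : Finset (Tri n)) : (EE A → ℝ) →ₗ[ℝ] (Edg n → ℝ) where
  toFun g := fun e => if h : e ∈ EE A then g ⟨e, h⟩ else 0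
  map_add' g g' := by
    funext e
    by_cases h : e ∈ EE A <;> simp [h]
  map_smul' c g := by
    funext e
    by_cases h : e ∈ EE A <;> simp [h]

private theorem D2_zero {t : Tri n} {e : Edg n} (he : e ∉ t.edges) : D2 e t = 0 := by
  simp only [Tri.edges, Finset.mem_insert, Finset.mem_singleton, not_or] at he
  simp [D2, he.1, he.2.1, he.2.2]

private theorem sum_D1_D2 (v : Fin n) (t : Tri n) : ∑ e : Edg n, D1 v e * D2 e t = 0 := by
  have : ∀ e : Edg n, D1 v e * D2 e t = (if e = t.ab then D1 v e else 0) +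
      (if e = t.bc then D1 v e else 0) - (if e = t.ac then D1 v e else 0) := by
    intro e
    simp only [D2]
    split_ifs <;> ring
  rw [Finset.sum_congr rfl fun e _ => this e]
  simp only [Finset.sum_sub_distrib, Finset.sum_add_distrib, Finset.sum_ite_eq',
    Finset.mem_univ, if_true]
  obtain ⟨f, hf⟩ : ∃ f : Fin n → ℤ, ∀ e : Edg n, D1 v e = f e.1.2 - f e.1.1 :=
    ⟨fun x => if v = x then 1 else 0, fun e => rfl⟩
  rw [hf, hf, hf]
  simp only [Tri.ab, Tri.bc, Tri.ac]
  ring

private theorem rk_le (A : Finset (Tri n)) : rk A ≤ Module.finrank ℝ (LinearMap.ker (phi A)) := by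
  classical
  have h1 : Submodule.span ℝ ((fun t : Tri n => fun e : Edg n => DM n e t) '' (A : Set (Tri n))) ≤
      (LinearMap.ker (phi A)).map (psi A) := by
    rw [Submodule.span_le]
    rintro _ ⟨t, ht, rfl⟩
    have ht' : t ∈ A := ht
    have hsub : ∀ e ∈ t.edges, e ∈ EE A := fun e he => by
      simp only [EE, Finset.mem_biUnion]; exact ⟨t, ht', he⟩
    refine ⟨fun e => (D2 e.1 t : ℝ), ?_, ?_⟩
    · rw [SetLike.mem_coe, LinearMap.mem_ker]
      funext v
      simp only [phi, Fintype.linearCombination_apply, Finset.sum_apply, Pi.smul_apply, smul_eq_mul,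
        bv, Pi.zero_apply]
      have h2 : ∑ e : EE A, (D2 e.1 t : ℝ) * (D1 v e.1 : ℝ) =
          ∑ e ∈ EE A, (D2 e t : ℝ) * (D1 v e : ℝ) :=
        Finset.sum_coe_sort (EE A) (fun e => (D2 e t : ℝ) * (D1 v e : ℝ))
      rw [h2, Finset.sum_subset (Finset.subset_univ _) (fun e _ he => by
        rw [D2_zero (fun h => he (hsub e h))]; simp)]
      have h3 := sum_D1_D2 v t
      have h4 : ((∑ e : Edg n, D1 v e * D2 e t : ℤ) : ℝ) = 0 := by rw [h3]; simp
      push_cast at h4
      rw [← h4]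
      exact Finset.sum_congr rfl fun e _ => mul_comm _ _
    · funext e
      by_cases h : e ∈ EE A
      · simp [psi, h, DM]
      · have : e ∉ t.edges := fun h' => h (hsub e h')
        simp [psi, h, DM, D2_zero this]
  exact (Submodule.finrank_mono h1).trans (Submodule.finrank_map_le _ _)

theorem core_verts {A : Finset (Tri n)} (hA : IsCore A) (hc : EConn A) {j : ℕ}
    (hj : A.card ≤ rk A + j) : 2 * (VV A).card ≤ A.card + 2 + 2 * j := by
  have h1 := rk_le A
  have h2 := finrank_bspan hc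
  have h3 := LinearMap.finrank_range_add_finrank_ker (phi A)
  rw [range_phi] at h3
  have h4 : Module.finrank ℝ (EE A → ℝ) = (EE A).card := by simp
  have h5 := core_card_edges hA
  omega

private theorem count_VV (U : Finset (Fin n)) (F : Finset (Finset (Tri n))) {M : ℕ}
    (hU : U.card ≤ M) : (F.filter fun A => VV A = U).card ≤ 2 ^ (M ^ 3) := by
  classical
  have h1 : (F.filter fun A => VV A = U) ⊆ (univ.filter fun t : Tri n => t.verts ⊆ U).powerset := by
    intro A hA
    rw [Finset.mem_filter] at hA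
    rw [Finset.mem_powerset]
    intro t ht
    simp only [Finset.mem_filter, Finset.mem_univ, true_and]
    rw [← hA.2]
    exact Finset.subset_biUnion_of_mem Tri.verts ht
  have h2 : (univ.filter fun t : Tri n => t.verts ⊆ U).card ≤ (U ×ˢ U ×ˢ U).card := by
    refine Finset.card_le_card_of_injOn (fun t => t.1) ?_ ?_
    · intro t ht
      simp only [Finset.coe_filter, Finset.mem_univ, true_and, Set.mem_ofPred_eq] at ht
      simp only [Finset.coe_product, Set.mem_prod, Finset.mem_coe]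
      refine ⟨ht ?_, ht ?_, ht ?_⟩ <;> simp [Tri.verts, Tri.a, Tri.b, Tri.c]
    · intro t _ t' _ h
      exact Subtype.ext h
  have h3 : (U ×ˢ U ×ˢ U).card ≤ M ^ 3 := by
    rw [Finset.card_product, Finset.card_product]
    calc U.card * (U.card * U.card) ≤ M * (M * M) :=
          Nat.mul_le_mul hU (Nat.mul_le_mul hU hU)
      _ = M ^ 3 := by ring
  calc (F.filter fun A => VV A = U).card ≤ _ := Finset.card_le_card h1
    _ = 2 ^ (univ.filter fun t : Tri n => t.verts ⊆ U).card := Finset.card_powerset _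
    _ ≤ 2 ^ (M ^ 3) := Nat.pow_le_pow_right (by norm_num) (h2.trans h3)

private theorem sum_VV (hn : 1 ≤ n) (F : Finset (Finset (Tri n))) {M : ℕ}
    (hF : ∀ A ∈ F, (VV A).card ≤ M) :
    ∑ A ∈ F, (1 / (n : ℝ)) ^ (VV A).card ≤ 2 ^ (M ^ 3) * (M + 1) := by
  classical
  have hmap : ∀ A ∈ F, VV A ∈ (univ : Finset (Finset (Fin n))).filter (fun U => U.card ≤ M) := by
    intro A hA
    simp [hF A hA]
  rw [← Finset.sum_fiberwise_of_maps_to hmap]
  have h1 : ∀ U ∈ (univ : Finset (Finset (Fin n))).filter (fun U => U.card ≤ M),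
      ∑ A ∈ F.filter (fun A => VV A = U), (1 / (n : ℝ)) ^ (VV A).card ≤
        2 ^ (M ^ 3) * (1 / (n : ℝ)) ^ U.card := by
    intro U hU
    rw [Finset.mem_filter] at hU
    have h2 : ∑ A ∈ F.filter (fun A => VV A = U), (1 / (n : ℝ)) ^ (VV A).card =
        ∑ A ∈ F.filter (fun A => VV A = U), (1 / (n : ℝ)) ^ U.card := by
      refine Finset.sum_congr rfl fun A hA => ?_
      rw [(Finset.mem_filter.mp hA).2]
    rw [h2, Finset.sum_const, nsmul_eq_mul]
    refine mul_le_mul_of_nonneg_right ?_ (by positivity)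
    have := count_VV U F hU.2
    exact_mod_cast this
  refine (Finset.sum_le_sum h1).trans ?_
  rw [← Finset.mul_sum]
  refine mul_le_mul_of_nonneg_left ?_ (by positivity)
  have hmap2 : ∀ U ∈ (univ : Finset (Finset (Fin n))).filter (fun U => U.card ≤ M),
      U.card ∈ Finset.range (M + 1) := by
    intro U hU
    rw [Finset.mem_filter] at hU
    rw [Finset.mem_range]
    omega
  rw [← Finset.sum_fiberwise_of_maps_to hmap2]
  have h3 : ∀ v ∈ Finset.range (M + 1),
      ∑ U ∈ ((univ : Finset (Finset (Fin n))).filter (fun U => U.card ≤ M)).filter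
        (fun U => U.card = v), (1 / (n : ℝ)) ^ U.card ≤ 1 := by
    intro v _
    have h4 : ∑ U ∈ ((univ : Finset (Finset (Fin n))).filter (fun U => U.card ≤ M)).filter
        (fun U => U.card = v), (1 / (n : ℝ)) ^ U.card =
        ∑ U ∈ ((univ : Finset (Finset (Fin n))).filter (fun U => U.card ≤ M)).filter
        (fun U => U.card = v), (1 / (n : ℝ)) ^ v := by
      refine Finset.sum_congr rfl fun A hA => ?_
      rw [(Finset.mem_filter.mp hA).2]
    rw [h4, Finset.sum_const, nsmul_eq_mul]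
    have h5 : (((univ : Finset (Finset (Fin n))).filter (fun U => U.card ≤ M)).filter
        (fun U => U.card = v)).card ≤ n ^ v := by
      refine (Finset.card_le_card (t := powersetCard v (univ : Finset (Fin n))) ?_).trans ?_
      · intro U hU
        rw [Finset.mem_powersetCard]
        exact ⟨Finset.subset_univ _, (Finset.mem_filter.mp hU).2⟩
      · rw [Finset.card_powersetCard, Finset.card_univ, Fintype.card_fin]
        exact Nat.choose_le_pow n v
    have h6 : ((((univ : Finset (Finset (Fin n))).filter (fun U => U.card ≤ M)).filter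
        (fun U => U.card = v)).card : ℝ) ≤ (n : ℝ) ^ v := by exact_mod_cast h5
    have hn0 : (0 : ℝ) < n := by exact_mod_cast hn
    calc _ ≤ (n : ℝ) ^ v * (1 / (n : ℝ)) ^ v := mul_le_mul_of_nonneg_right h6 (by positivity)
      _ = 1 := by rw [← mul_pow, mul_one_div_cancel hn0.ne', one_pow]
  refine (Finset.sum_le_sum h3).trans ?_
  simp

private theorem pow_bound {C : ℝ} (hC : 0 ≤ C) (hn : 1 ≤ n) {m m1 v : ℕ} (hm : m < m1) (hv : v ≤ m) :
    (C / n) ^ m ≤ (max 1 C) ^ m1 * (1 / (n : ℝ)) ^ v := by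
  have hn0 : (1 : ℝ) ≤ n := by exact_mod_cast hn
  have h1 : (C / n) ^ m = C ^ m * (1 / (n : ℝ)) ^ m := by
    rw [← mul_pow]; congr 1; ring
  rw [h1]
  have h2 : C ^ m ≤ (max 1 C) ^ m1 :=
    (pow_le_pow_left₀ hC (le_max_right _ _) m).trans (pow_le_pow_right₀ (le_max_left _ _) hm.le)
  have h3 : (1 / (n : ℝ)) ^ m ≤ (1 / (n : ℝ)) ^ v :=
    pow_le_pow_of_le_one (by positivity) (by rw [div_le_one (by linarith)]; exact hn0) hv
  exact mul_le_mul h2 h3 (by positivity) (by positivity)

open Classical in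
theorem small_core_sum_zero (m1 : ℕ) (C : ℝ) (hC : 0 ≤ C) :
    ∃ C' : ℝ, ∀ n : ℕ, 1 ≤ n →
      ∑ A ∈ (univ : Finset (Finset (Tri n))).filter
        (fun A => EConn A ∧ IsCore A ∧ A.card ≤ rk A ∧ A.card < m1), (C / n) ^ A.card ≤ C' / n := by
  refine ⟨(max 1 C) ^ m1 * (2 ^ (m1 ^ 3) * (m1 + 1)), fun n hn => ?_⟩
  set F := (univ : Finset (Finset (Tri n))).filter
        (fun A => EConn A ∧ IsCore A ∧ A.card ≤ rk A ∧ A.card < m1) with hFdef
  have hF : ∀ A ∈ F, (VV A).card + 1 ≤ A.card ∧ A.card < m1 := by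
    intro A hA
    simp only [hFdef, Finset.mem_filter, Finset.mem_univ, true_and] at hA
    have h1 := core_verts (j := 0) hA.2.1 hA.1 (by simpa using hA.2.2.1)
    have h2 := core_card_ge hA.2.1
    exact ⟨by omega, hA.2.2.2⟩
  have h1 : ∀ A ∈ F, (C / n) ^ A.card ≤ (max 1 C) ^ m1 / n * (1 / (n : ℝ)) ^ (VV A).card := by
    intro A hA
    have h2 := pow_bound hC hn (hF A hA).2 (hF A hA).1
    rw [pow_succ] at h2
    calc _ ≤ _ := h2
      _ = _ := by ring
  have h3 := sum_VV hn F (M := m1) (fun A hA => by have := hF A hA; omega)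
  calc _ ≤ ∑ A ∈ F, (max 1 C) ^ m1 / n * (1 / (n : ℝ)) ^ (VV A).card := Finset.sum_le_sum h1
    _ = (max 1 C) ^ m1 / n * ∑ A ∈ F, (1 / (n : ℝ)) ^ (VV A).card := by rw [Finset.mul_sum]
    _ ≤ (max 1 C) ^ m1 / n * (2 ^ (m1 ^ 3) * (m1 + 1)) :=
        mul_le_mul_of_nonneg_left h3 (by positivity)
    _ = _ := by ring

open Classical in
theorem small_core_sum_one (m1 : ℕ) (C : ℝ) (hC : 0 ≤ C) :
    ∃ C' : ℝ, ∀ n : ℕ, 1 ≤ n →
      ∑ A ∈ (univ : Finset (Finset (Tri n))).filter
        (fun A => EConn A ∧ IsCore A ∧ A.card ≤ rk A + 1 ∧ A.card < m1), (C / n) ^ A.card ≤ C' := by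
  refine ⟨(max 1 C) ^ m1 * (2 ^ (m1 ^ 3) * (m1 + 1)), fun n hn => ?_⟩
  set F := (univ : Finset (Finset (Tri n))).filter
        (fun A => EConn A ∧ IsCore A ∧ A.card ≤ rk A + 1 ∧ A.card < m1) with hFdef
  have hF : ∀ A ∈ F, (VV A).card ≤ A.card ∧ A.card < m1 := by
    intro A hA
    simp only [hFdef, Finset.mem_filter, Finset.mem_univ, true_and] at hA
    have h1 := core_verts (j := 1) hA.2.1 hA.1 hA.2.2.1
    have h2 := core_card_ge hA.2.1
    exact ⟨by omega, hA.2.2.2⟩
  have h1 : ∀ A ∈ F, (C / n) ^ A.card ≤ (max 1 C) ^ m1 * (1 / (n : ℝ)) ^ (VV A).card := by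
    intro A hA
    exact pow_bound hC hn (hF A hA).2 (hF A hA).1
  have h3 := sum_VV hn F (M := m1) (fun A hA => by have := hF A hA; omega)
  calc _ ≤ ∑ A ∈ F, (max 1 C) ^ m1 * (1 / (n : ℝ)) ^ (VV A).card := Finset.sum_le_sum h1
    _ = (max 1 C) ^ m1 * ∑ A ∈ F, (1 / (n : ℝ)) ^ (VV A).card := by rw [Finset.mul_sum]
    _ ≤ (max 1 C) ^ m1 * (2 ^ (m1 ^ 3) * (m1 + 1)) :=
        mul_le_mul_of_nonneg_left h3 (by positivity)

end

end Pool.Agent.DH10
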