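import Pool.Agent.DH10.Explore
import Pool.Agent.DH10.ExploreCount
import Pool.Agent.DH10.SmallCore

/-!
# DH10.LargeCore : large edge-connected cores (Part 2 (ii), conclusion)

`count_cores`: for `H`, `Dg`, `M = |H| + 2 Dg`, `1 ≤ M ≤ n`: the number of edge-connected cores `A` with `|A| = m` and all
degrees `≤ Dg` outside `H` is at most `n^{m+2} e^{3m} (M/n)^{(m-8)/7}` (natural division).
Proof.  For every `t0` (at most `n^3`; each `A` contains some `t0`) use `explore_sum`: each term is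
`≥ (1/n)^{m-1} (n/M)^{S} e^{-2 steps}` with `S ≥ (m-8)/7` (`N + S = m-1`, `N ≤ 6S+7`) and `steps ≤ |EE A| ≤ 3m/2`.
`large_core_sum`: there are `m1` and `n0`... : with `Dg = ⌈n^{1-1/400}⌉`, `H = {x : degE A x > Dg}`, `|H| ≤ 2 |EE A|/Dg ≤ 3m/Dg`.  For
`m ≤ m0 n + 1`: `3m/Dg ≤ 4 n^{1-1/400}`, `M ≤ 7 n^{1-1/400}`; the number of sets `H` with `|H| ≤ 3m/Dg` is `≤ (n+1)^{3m/Dg}
= exp(o(1) m)`.  So the sum over `A` with `|A| = m` of `(C/n)^m` is at most
`n^2 (C e^4)^m (7 n^{-1/400})^{(m-8)/7} ≤ n^{-1} 2^{-m}` for `m ≥ m1`, `n` large (`(m-8)/7` as natural number is `≥ (m-14)/7`;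
take `m1 = 20000`), and the total over `m ≥ m1` is `≤ 1/n`.
-/

set_option autoImplicit false

open Finset Filter

namespace Pool.Agent.DH10

noncomputable section

namespace LargeCoreAux

theorem card_tri (n : ℕ) : Fintype.card (Tri n) ≤ n ^ 3 := by
  refine (Fintype.card_subtype_le _).trans ?_
  rw [Fintype.card_prod, Fintype.card_prod, Fintype.card_fin]
  exact le_of_eq (by ring)

/-- lower bound for the weight of an exploration -/
theorem weight_ge {n M N S st m : ℕ} (hn : 1 ≤ n) (hM : 1 ≤ M) (hMn : M ≤ n) (h1 : N + S + 1 = m)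
    (h2 : N ≤ 6 * S + 7) (h3 : 2 * st ≤ 3 * m) :
    (1 / (n : ℝ)) ^ (m - 1) * ((n : ℝ) / M) ^ ((m - 8) / 7) * Real.exp (-(3 * m)) ≤
      (1 / (n : ℝ)) ^ N * (1 / (M : ℝ)) ^ S * Real.exp (-2 * st) := by
  have hn' : (0 : ℝ) < n := by exact_mod_cast hn
  have hM' : (0 : ℝ) < M := by exact_mod_cast hM
  have hMn' : (M : ℝ) ≤ n := by exact_mod_cast hMn
  have e1 : m - 1 = N + S := by omega
  have e2 : (m - 8) / 7 ≤ S := by omega
  have e3 : (1 / (n : ℝ)) ^ N * (1 / (M : ℝ)) ^ S = (1 / (n : ℝ)) ^ (m - 1) * ((n : ℝ) / M) ^ S := by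
    rw [e1, pow_add, mul_assoc, ← mul_pow]
    congr 2
    field_simp
  rw [e3]
  have e4 : ((n : ℝ) / M) ^ ((m - 8) / 7) ≤ ((n : ℝ) / M) ^ S :=
    pow_le_pow_right₀ ((one_le_div hM').mpr hMn') e2
  have e5 : Real.exp (-(3 * m)) ≤ Real.exp (-2 * st) := by
    apply Real.exp_le_exp.mpr
    have : (2 : ℝ) * st ≤ 3 * m := by exact_mod_cast h3
    linarith
  gcongr

theorem card_small_sets (n h : ℕ) :
    ((univ : Finset (Finset (Fin n))).filter fun H => H.card ≤ h).card ≤ (n + 1) ^ h := by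
  have h1 : ((univ : Finset (Finset (Fin n))).filter fun H => H.card ≤ h) ⊆
      (range (h + 1)).biUnion fun k => powersetCard k (univ : Finset (Fin n)) := by
    intro H hH
    rw [mem_filter] at hH
    rw [mem_biUnion]
    refine ⟨H.card, ?_, ?_⟩
    · rw [mem_range]
      omega
    · rw [mem_powersetCard]
      exact ⟨subset_univ _, rfl⟩
  refine (card_le_card h1).trans (card_biUnion_le.trans ?_)
  rw [add_pow]
  apply sum_le_sum
  intro k hk
  rw [mem_range] at hk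
  rw [card_powersetCard, card_univ, Fintype.card_fin, one_pow, mul_one]
  have h2 : n.choose k ≤ n ^ k := Nat.choose_le_pow n k
  have h3 : 1 ≤ h.choose k := Nat.choose_pos (by omega)
  calc n.choose k ≤ n ^ k * 1 := by rw [mul_one]; exact h2
    _ ≤ n ^ k * h.choose k := Nat.mul_le_mul_left _ h3

theorem sum_degE {n : ℕ} (A : Finset (Tri n)) (H : Finset (Fin n)) :
    ∑ x ∈ H, degE A x ≤ 2 * (EE A).card := by
  unfold degE
  simp only [card_filter]
  rw [sum_comm]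
  have h1 : ∀ e ∈ EE A, ∑ x ∈ H, (if e.1.1 = x ∨ e.1.2 = x then 1 else 0) ≤ 2 := by
    intro e _
    rw [← card_filter]
    have h2 : (H.filter fun x => e.1.1 = x ∨ e.1.2 = x) ⊆ {e.1.1, e.1.2} := by
      intro x hx
      rw [mem_filter] at hx
      simp only [mem_insert, mem_singleton]
      rcases hx.2 with h | h
      · exact Or.inl h.symm
      · exact Or.inr h.symm
    exact (card_le_card h2).trans card_le_two
  refine (sum_le_sum h1).trans ?_
  rw [sum_const, smul_eq_mul, mul_comm]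

end LargeCoreAux

open LargeCoreAux

open Classical in
theorem count_cores {n : ℕ} (hn : 1 ≤ n) (m : ℕ) (H : Finset (Fin n)) (Dg : ℕ) (hM : 1 ≤ H.card + 2 * Dg)
    (hMn : H.card + 2 * Dg ≤ n) :
    (((univ : Finset (Finset (Tri n))).filter
        (fun A => EConn A ∧ IsCore A ∧ A.card = m ∧ ∀ x, x ∉ H → degE A x ≤ Dg)).card : ℝ)
      ≤ (n : ℝ) ^ (m + 2) * Real.exp (3 * m) * (((H.card + 2 * Dg : ℕ) : ℝ) / n) ^ ((m - 8) / 7) := by
  have hn' : (0 : ℝ) < n := by exact_mod_cast hn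
  set M : ℕ := H.card + 2 * Dg with hMdef
  have hM' : (0 : ℝ) < M := by exact_mod_cast hM
  set 𝒞 := (univ : Finset (Finset (Tri n))).filter
        (fun A => EConn A ∧ IsCore A ∧ A.card = m ∧ ∀ x, x ∉ H → degE A x ≤ Dg) with h𝒞
  rcases Nat.eq_zero_or_pos m with hm | hm
  · have : 𝒞 = ∅ := by
      rw [h𝒞, filter_eq_empty_iff]
      rintro A _ ⟨_, h2, h3, _⟩
      rw [hm, card_eq_zero] at h3
      exact h2.1.ne_empty h3
    rw [this, card_empty, Nat.cast_zero]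
    positivity
  have hcover : 𝒞 ⊆ (univ : Finset (Tri n)).biUnion fun t0 => 𝒞.filter fun A => t0 ∈ A := by
    intro A hA
    have h1 : IsCore A := (mem_filter.mp hA).2.2.1
    obtain ⟨t0, ht0⟩ := h1.1
    rw [mem_biUnion]
    exact ⟨t0, mem_univ _, mem_filter.mpr ⟨hA, ht0⟩⟩
  set c : ℝ := (1 / (n : ℝ)) ^ (m - 1) * ((n : ℝ) / M) ^ ((m - 8) / 7) * Real.exp (-(3 * m)) with hc
  have hcpos : 0 < c := by rw [hc]; positivity
  have hone : ∀ t0 : Tri n, ((𝒞.filter fun A => t0 ∈ A).card : ℝ) ≤ c⁻¹ := by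
    intro t0
    have h1 := explore_sum H Dg hM t0
    have h2 : ((𝒞.filter fun A => t0 ∈ A).card : ℝ) * c ≤ 1 := by
      refine le_trans ?_ h1
      rw [← nsmul_eq_mul, ← sum_const]
      have hsub : (𝒞.filter fun A => t0 ∈ A) ⊆ (univ : Finset (Finset (Tri n))).filter
        (fun A => t0 ∈ A ∧ (∀ x, x ∉ H → degE A x ≤ Dg) ∧ (xpl H A t0).fin = A) := by
        intro A hA
        rw [mem_filter, h𝒞, mem_filter] at hA
        obtain ⟨⟨_, a1, a2, a3, a4⟩, a5⟩ := hA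
        rw [mem_filter]
        exact ⟨mem_univ _, a5, a4, xpl_fin H a1 a5⟩
      refine le_trans ?_ (sum_le_sum_of_subset_of_nonneg hsub (fun _ _ _ => by positivity))
      apply sum_le_sum
      intro A hA
      rw [mem_filter, h𝒞, mem_filter] at hA
      obtain ⟨⟨_, a1, a2, a3, a4⟩, a5⟩ := hA
      apply weight_ge hn hM hMn
      · rw [xpl_card H a1 a5, a3]
      · exact xpl_N_le H a2 a1 a5
      · have b1 := xpl_steps H a5
        have b2 := core_card_edges a2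
        rw [a3] at b2
        omega
    rw [← one_div, le_div_iff₀ hcpos]
    exact h2
  have h3 : (𝒞.card : ℝ) ≤ ∑ t0 : Tri n, ((𝒞.filter fun A => t0 ∈ A).card : ℝ) := by
    have := (card_le_card hcover).trans card_biUnion_le
    exact_mod_cast this
  have h4 : (𝒞.card : ℝ) ≤ (n : ℝ) ^ 3 * c⁻¹ := by
    refine h3.trans ((sum_le_sum (fun t0 _ => hone t0)).trans ?_)
    rw [sum_const, nsmul_eq_mul, card_univ]
    have h5 : (Fintype.card (Tri n) : ℝ) ≤ (n : ℝ) ^ 3 := by exact_mod_cast card_tri n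
    exact mul_le_mul_of_nonneg_right h5 (inv_nonneg.mpr hcpos.le)
  refine h4.trans (le_of_eq ?_)
  rw [hc, mul_inv, mul_inv, ← Real.exp_neg, neg_neg, ← inv_pow, ← inv_pow, one_div, inv_inv, inv_div]
  have h6 : m + 2 = 3 + (m - 1) := by omega
  rw [h6, pow_add]
  ring

namespace LargeCoreAux

open Classical in
/-- the number of edge-connected cores with `m` triangles -/
theorem count_all {n : ℕ} (hn : 1 ≤ n) (m Dg : ℕ) (hD : 1 ≤ Dg) (x : ℝ) (hx : 0 ≤ x)
    (hh : ∀ H : Finset (Fin n), H.card ≤ 3 * m / Dg → ((H.card + 2 * Dg : ℕ) : ℝ) ≤ x * n) (hx1 : x ≤ 1) :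
    (((univ : Finset (Finset (Tri n))).filter (fun A => EConn A ∧ IsCore A ∧ A.card = m)).card : ℝ)
      ≤ ((n : ℝ) + 1) ^ (3 * m / Dg) * ((n : ℝ) ^ (m + 2) * Real.exp (3 * m) * x ^ ((m - 8) / 7)) := by
  have hn' : (0 : ℝ) < n := by exact_mod_cast hn
  have hcover : ((univ : Finset (Finset (Tri n))).filter (fun A => EConn A ∧ IsCore A ∧ A.card = m)) ⊆
      ((univ : Finset (Finset (Fin n))).filter fun H => H.card ≤ 3 * m / Dg).biUnion fun H =>
        (univ : Finset (Finset (Tri n))).filter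
        (fun A => EConn A ∧ IsCore A ∧ A.card = m ∧ ∀ x, x ∉ H → degE A x ≤ Dg) := by
    intro A hA
    rw [mem_filter] at hA
    obtain ⟨_, a1, a2, a3⟩ := hA
    rw [mem_biUnion]
    refine ⟨(univ : Finset (Fin n)).filter fun x => Dg < degE A x, ?_, ?_⟩
    · rw [mem_filter]
      refine ⟨mem_univ _, ?_⟩
      rw [Nat.le_div_iff_mul_le hD]
      have b1 := sum_degE A ((univ : Finset (Fin n)).filter fun x => Dg < degE A x)
      have b2 : ∑ x ∈ (univ : Finset (Fin n)).filter (fun x => Dg < degE A x), Dg ≤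
          ∑ x ∈ (univ : Finset (Fin n)).filter (fun x => Dg < degE A x), degE A x := by
        apply sum_le_sum
        intro x hx
        rw [mem_filter] at hx
        exact hx.2.le
      rw [sum_const, smul_eq_mul] at b2
      have b3 := core_card_edges a2
      rw [a3] at b3
      omega
    · rw [mem_filter]
      refine ⟨mem_univ _, a1, a2, a3, ?_⟩
      intro x hx
      rw [mem_filter] at hx
      push Not at hx
      exact hx (mem_univ _)
  have h1 : (((univ : Finset (Finset (Tri n))).filter (fun A => EConn A ∧ IsCore A ∧ A.card = m)).card : ℝ) ≤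
      ∑ H ∈ (univ : Finset (Finset (Fin n))).filter (fun H => H.card ≤ 3 * m / Dg),
        (((univ : Finset (Finset (Tri n))).filter
        (fun A => EConn A ∧ IsCore A ∧ A.card = m ∧ ∀ x, x ∉ H → degE A x ≤ Dg)).card : ℝ) := by
    have := (card_le_card hcover).trans card_biUnion_le
    exact_mod_cast this
  refine h1.trans ?_
  have h2 : ∀ H ∈ (univ : Finset (Finset (Fin n))).filter (fun H => H.card ≤ 3 * m / Dg),
      (((univ : Finset (Finset (Tri n))).filter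
        (fun A => EConn A ∧ IsCore A ∧ A.card = m ∧ ∀ x, x ∉ H → degE A x ≤ Dg)).card : ℝ) ≤
      (n : ℝ) ^ (m + 2) * Real.exp (3 * m) * x ^ ((m - 8) / 7) := by
    intro H hH
    rw [mem_filter] at hH
    have b1 := hh H hH.2
    have b2 : H.card + 2 * Dg ≤ n := by
      have : ((H.card + 2 * Dg : ℕ) : ℝ) ≤ 1 * n := b1.trans (mul_le_mul_of_nonneg_right hx1 hn'.le)
      rw [one_mul] at this
      exact_mod_cast this
    refine (count_cores hn m H Dg (by omega) b2).trans ?_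
    apply mul_le_mul_of_nonneg_left _ (by positivity)
    apply pow_le_pow_left₀ (by positivity)
    rw [div_le_iff₀ hn']
    exact b1
  refine (sum_le_sum h2).trans ?_
  rw [sum_const, nsmul_eq_mul]
  apply mul_le_mul_of_nonneg_right _ (by positivity)
  have := card_small_sets n (3 * m / Dg)
  exact_mod_cast this

/-- final estimate for one `m` -/
theorem one_m {n m : ℕ} {C : ℝ} (hC : 0 ≤ C) (hn : 1 ≤ n) (hm : 40000 ≤ m) {P : ℝ} {h : ℕ}
    (hP : P ≤ ((n : ℝ) + 1) ^ h * ((n : ℝ) ^ (m + 2) * Real.exp (3 * m) *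
      ((n : ℝ) ^ (-(1 / 800 : ℝ))) ^ ((m - 8) / 7)))
    (hh : ((n : ℝ) + 1) ^ h ≤ Real.exp m)
    (hbig : 2 * C * Real.exp 4 ≤ (n : ℝ) ^ (1 / 11200 : ℝ)) :
    (C / n) ^ m * P ≤ 1 / n * (1 / 2) ^ m := by
  have hn' : (0 : ℝ) < n := by exact_mod_cast hn
  have hn1 : (1 : ℝ) ≤ n := by exact_mod_cast hn
  have h0 : P ≤ Real.exp m * ((n : ℝ) ^ (m + 2) * Real.exp (3 * m) *
      ((n : ℝ) ^ (-(1 / 800 : ℝ))) ^ ((m - 8) / 7)) :=
    hP.trans (mul_le_mul_of_nonneg_right hh (by positivity))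
  have h1 : (C / n) ^ m * P ≤ (C / n) ^ m * (Real.exp m * ((n : ℝ) ^ (m + 2) * Real.exp (3 * m) *
      ((n : ℝ) ^ (-(1 / 800 : ℝ))) ^ ((m - 8) / 7))) :=
    mul_le_mul_of_nonneg_left h0 (by positivity)
  refine h1.trans ?_
  have h2 : (C / n) ^ m * (Real.exp m * ((n : ℝ) ^ (m + 2) * Real.exp (3 * m) *
      ((n : ℝ) ^ (-(1 / 800 : ℝ))) ^ ((m - 8) / 7))) =
      (C * Real.exp 4) ^ m * ((n : ℝ) ^ 2 * ((n : ℝ) ^ (-(1 / 800 : ℝ))) ^ ((m - 8) / 7)) := by
    have e1 : Real.exp m * Real.exp (3 * m) = Real.exp 4 ^ m := by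
      rw [← Real.exp_add, ← Real.exp_nat_mul]
      congr 1
      ring
    have e2 : (C / n) ^ m * (n : ℝ) ^ (m + 2) = C ^ m * (n : ℝ) ^ 2 := by
      rw [div_pow, pow_add]
      field_simp
    calc _ = ((C / n) ^ m * (n : ℝ) ^ (m + 2)) * (Real.exp m * Real.exp (3 * m)) *
        ((n : ℝ) ^ (-(1 / 800 : ℝ))) ^ ((m - 8) / 7) := by ring
      _ = _ := by rw [e1, e2, mul_pow]; ring
  rw [h2]
  have h3 : (n : ℝ) ^ 2 * ((n : ℝ) ^ (-(1 / 800 : ℝ))) ^ ((m - 8) / 7) ≤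
      1 / n * ((n : ℝ) ^ (-(1 / 11200 : ℝ))) ^ m := by
    have q1 : ((n : ℝ) ^ (-(1 / 800 : ℝ))) ^ ((m - 8) / 7) = (n : ℝ) ^ (-(1 / 800 : ℝ) * (((m - 8) / 7 : ℕ) : ℝ)) := by
      rw [← Real.rpow_natCast, ← Real.rpow_mul hn'.le]
    have q2 : ((n : ℝ) ^ (-(1 / 11200 : ℝ))) ^ m = (n : ℝ) ^ (-(1 / 11200 : ℝ) * (m : ℝ)) := by
      rw [← Real.rpow_natCast, ← Real.rpow_mul hn'.le]
    have q3 : (n : ℝ) ^ 2 = (n : ℝ) ^ (2 : ℝ) := by
      rw [← Real.rpow_natCast]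
      norm_num
    have q4 : 1 / (n : ℝ) = (n : ℝ) ^ (-1 : ℝ) := by
      rw [Real.rpow_neg_one, one_div]
    rw [q1, q2, q3, q4, ← Real.rpow_add hn', ← Real.rpow_add hn']
    apply Real.rpow_le_rpow_of_exponent_le hn1
    have e1 : (((m - 8) / 7 : ℕ) : ℝ) ≥ ((m : ℝ) - 14) / 7 := by
      have e2 : m - 14 ≤ 7 * ((m - 8) / 7) := by omega
      have e3 : ((m - 14 : ℕ) : ℝ) ≤ 7 * (((m - 8) / 7 : ℕ) : ℝ) := by exact_mod_cast e2
      rw [Nat.cast_sub (by omega)] at e3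
      push_cast at e3 ⊢
      linarith
    have e4 : (40000 : ℝ) ≤ m := by exact_mod_cast hm
    linarith
  have h4 : (C * Real.exp 4) ^ m * ((n : ℝ) ^ 2 * ((n : ℝ) ^ (-(1 / 800 : ℝ))) ^ ((m - 8) / 7)) ≤
      (C * Real.exp 4) ^ m * (1 / n * ((n : ℝ) ^ (-(1 / 11200 : ℝ))) ^ m) :=
    mul_le_mul_of_nonneg_left h3 (by positivity)
  refine h4.trans ?_
  have h5 : (C * Real.exp 4) * (n : ℝ) ^ (-(1 / 11200 : ℝ)) ≤ 1 / 2 := by
    rw [Real.rpow_neg hn'.le, ← div_eq_mul_inv, div_le_iff₀ (Real.rpow_pos_of_pos hn' _)]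
    linarith
  have h6 : ((C * Real.exp 4) * (n : ℝ) ^ (-(1 / 11200 : ℝ))) ^ m ≤ (1 / 2) ^ m :=
    pow_le_pow_left₀ (by positivity) h5 m
  calc _ = 1 / n * ((C * Real.exp 4) * (n : ℝ) ^ (-(1 / 11200 : ℝ))) ^ m := by rw [mul_pow]; ring
    _ ≤ _ := mul_le_mul_of_nonneg_left h6 (by positivity)

theorem rpow_ev (a b : ℝ) (hb : 0 < b) : ∀ᶠ n : ℕ in atTop, a ≤ (n : ℝ) ^ b := by
  have h1 : Tendsto (fun n : ℕ => (n : ℝ) ^ b) atTop atTop :=
    (tendsto_rpow_atTop hb).comp tendsto_natCast_atTop_atTop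
  exact h1.eventually_ge_atTop a

theorem log_ev : ∀ᶠ n : ℕ in atTop, 3 * Real.log ((n : ℝ) + 1) ≤ (n : ℝ) ^ (399 / 400 : ℝ) := by
  filter_upwards [rpow_ev 12 (199 / 400) (by norm_num), eventually_ge_atTop 1] with n hn1 hn2
  have hn' : (1 : ℝ) ≤ n := by exact_mod_cast hn2
  have h1 : Real.log ((n : ℝ) + 1) ≤ ((n : ℝ) + 1) ^ (1 / 2 : ℝ) / (1 / 2) :=
    Real.log_le_rpow_div (by linarith) (by norm_num)
  have h2 : ((n : ℝ) + 1) ^ (1 / 2 : ℝ) ≤ (4 * (n : ℝ)) ^ (1 / 2 : ℝ) :=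
    Real.rpow_le_rpow (by linarith) (by linarith) (by norm_num)
  have h3 : (4 * (n : ℝ)) ^ (1 / 2 : ℝ) = 2 * (n : ℝ) ^ (1 / 2 : ℝ) := by
    rw [Real.mul_rpow (by norm_num) (by linarith)]
    congr 1
    rw [show (4 : ℝ) = 2 ^ (2 : ℝ) by norm_num, ← Real.rpow_mul (by norm_num)]
    norm_num
  have h4 : (n : ℝ) ^ (399 / 400 : ℝ) = (n : ℝ) ^ (199 / 400 : ℝ) * (n : ℝ) ^ (1 / 2 : ℝ) := by
    rw [← Real.rpow_add (by linarith)]
    norm_num
  rw [h4]
  have h5 : 0 ≤ (n : ℝ) ^ (1 / 2 : ℝ) := by positivity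
  nlinarith

end LargeCoreAux

open Classical in
theorem large_core_sum (C : ℝ) (hC : 0 ≤ C) :
    ∃ m1 : ℕ, ∀ᶠ n : ℕ in atTop,
      ∑ A ∈ (univ : Finset (Finset (Tri n))).filter
        (fun A => EConn A ∧ IsCore A ∧ m1 ≤ A.card ∧ A.card ≤ m0 n + 1), (C / n) ^ A.card ≤ 1 / n := by
  refine ⟨40000, ?_⟩
  filter_upwards [eventually_ge_atTop 1, rpow_ev 7 (1 / 800) (by norm_num), rpow_ev 3 (399 / 400) (by norm_num),
    log_ev, rpow_ev (2 * C * Real.exp 4) (1 / 11200) (by norm_num)] with n hn hseven hthree hlog hbig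
  have hn1 : (1 : ℝ) ≤ n := by exact_mod_cast hn
  have hn' : (0 : ℝ) < n := by linarith
  set x : ℝ := (n : ℝ) ^ (399 / 400 : ℝ) with hx
  set Dg : ℕ := ⌈x⌉₊ with hDg
  have hx3 : 3 ≤ x := hthree
  have hDgx : x ≤ Dg := Nat.le_ceil x
  have hDgx' : (Dg : ℝ) < x + 1 := Nat.ceil_lt_add_one (by linarith)
  have hDg1 : 1 ≤ Dg := by
    have : (1 : ℝ) ≤ Dg := by linarith
    exact_mod_cast this
  set u : ℝ := (n : ℝ) ^ (-(1 / 800 : ℝ)) with hu
  have hu0 : 0 ≤ u := by rw [hu]; positivity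
  have hu1 : u ≤ 1 := Real.rpow_le_one_of_one_le_of_nonpos hn1 (by norm_num)
  have hxu : 7 * x ≤ u * n := by
    have e1 : u * n = (n : ℝ) ^ (1 / 800 : ℝ) * x := by
      rw [hu, hx, ← Real.rpow_add hn']
      nth_rewrite 2 [← Real.rpow_one (n : ℝ)]
      rw [← Real.rpow_add hn']
      norm_num
    rw [e1]
    exact mul_le_mul_of_nonneg_right hseven (by linarith)
  -- regroup by the number of triangles
  set 𝒜 := (univ : Finset (Finset (Tri n))).filter
        (fun A => EConn A ∧ IsCore A ∧ 40000 ≤ A.card ∧ A.card ≤ m0 n + 1) with h𝒜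
  have hmaps : ∀ A ∈ 𝒜, A.card ∈ Finset.Icc 40000 (m0 n + 1) := by
    intro A hA
    rw [h𝒜, mem_filter] at hA
    rw [Finset.mem_Icc]
    exact hA.2.2.2
  rw [← sum_fiberwise_of_maps_to hmaps]
  have hfib : ∀ m ∈ Finset.Icc 40000 (m0 n + 1), ∑ A ∈ 𝒜.filter (fun A => A.card = m), (C / n) ^ A.card ≤
      1 / n * (1 / 2) ^ m := by
    intro m hm
    rw [Finset.mem_Icc] at hm
    have e1 : ∑ A ∈ 𝒜.filter (fun A => A.card = m), (C / n) ^ A.card =
        ((𝒜.filter (fun A => A.card = m)).card : ℝ) * (C / n) ^ m := by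
      rw [← nsmul_eq_mul, ← sum_const]
      apply sum_congr rfl
      intro A hA
      rw [mem_filter] at hA
      rw [hA.2]
    rw [e1]
    have e2 : ((𝒜.filter (fun A => A.card = m)).card : ℝ) ≤
        (((univ : Finset (Finset (Tri n))).filter (fun A => EConn A ∧ IsCore A ∧ A.card = m)).card : ℝ) := by
      have : 𝒜.filter (fun A => A.card = m) ⊆
          (univ : Finset (Finset (Tri n))).filter (fun A => EConn A ∧ IsCore A ∧ A.card = m) := by
        intro A hA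
        rw [mem_filter, h𝒜, mem_filter] at hA
        rw [mem_filter]
        exact ⟨mem_univ _, hA.1.2.1, hA.1.2.2.1, hA.2⟩
      exact_mod_cast card_le_card this
    have e3 : ((𝒜.filter (fun A => A.card = m)).card : ℝ) * (C / n) ^ m ≤
        (C / n) ^ m * (((univ : Finset (Finset (Tri n))).filter
          (fun A => EConn A ∧ IsCore A ∧ A.card = m)).card : ℝ) := by
      rw [mul_comm]
      exact mul_le_mul_of_nonneg_left e2 (by positivity)
    refine e3.trans ?_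
    -- bounds for `m`
    have hmx : (m : ℝ) ≤ x ^ 2 + 1 := by
      have f1 : (m : ℝ) ≤ (m0 n : ℝ) + 1 := by exact_mod_cast hm.2
      have f2 : (m0 n : ℝ) ≤ (n : ℝ) ^ (2 - 1 / 200 : ℝ) := Nat.floor_le (by positivity)
      have f3 : (n : ℝ) ^ (2 - 1 / 200 : ℝ) = x ^ 2 := by
        rw [hx, ← Real.rpow_natCast, ← Real.rpow_mul hn'.le]
        norm_num
      linarith
    have hdiv : ((3 * m / Dg : ℕ) : ℝ) * x ≤ 3 * m := by
      have f1 : 3 * m / Dg * Dg ≤ 3 * m := Nat.div_mul_le_self _ _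
      have f2 : ((3 * m / Dg : ℕ) : ℝ) * Dg ≤ 3 * m := by exact_mod_cast f1
      have f3 : ((3 * m / Dg : ℕ) : ℝ) * x ≤ ((3 * m / Dg : ℕ) : ℝ) * Dg :=
        mul_le_mul_of_nonneg_left hDgx (Nat.cast_nonneg _)
      linarith
    have hcnt := count_all hn m Dg hDg1 u hu0 ?_ hu1
    · apply one_m hC hn hm.1 hcnt ?_ hbig
      have f1 : (n : ℝ) + 1 = Real.exp (Real.log ((n : ℝ) + 1)) := (Real.exp_log (by linarith)).symm
      rw [f1, ← Real.exp_nat_mul]
      apply Real.exp_le_exp.mpr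
      have f2 : 0 ≤ ((3 * m / Dg : ℕ) : ℝ) := Nat.cast_nonneg _
      have f3 : ((3 * m / Dg : ℕ) : ℝ) * (3 * Real.log ((n : ℝ) + 1)) ≤ ((3 * m / Dg : ℕ) : ℝ) * x :=
        mul_le_mul_of_nonneg_left hlog f2
      linarith
    · intro H hH
      have f1 : (H.card : ℝ) ≤ ((3 * m / Dg : ℕ) : ℝ) := by exact_mod_cast hH
      have f2 : (H.card : ℝ) * x ≤ 3 * m := (mul_le_mul_of_nonneg_right f1 (by linarith)).trans hdiv
      have f3 : (H.card : ℝ) * x ≤ (4 * x) * x := by nlinarith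
      have f4 : (H.card : ℝ) ≤ 4 * x := le_of_mul_le_mul_right f3 (by linarith)
      push_cast
      linarith
  refine (sum_le_sum hfib).trans ?_
  rw [← mul_sum]
  have hgeo : ∑ m ∈ Finset.Icc 40000 (m0 n + 1), ((1 : ℝ) / 2) ^ m ≤ 1 := by
    have g1 : ∑ m ∈ Finset.Icc 40000 (m0 n + 1), ((1 : ℝ) / 2) ^ m ≤
        ∑ m ∈ Finset.range (m0 n + 1), ((1 : ℝ) / 2) ^ (m + 1) := by
      rw [← sum_image (s := Finset.range (m0 n + 1)) (g := fun m => m + 1) (f := fun m => ((1 : ℝ) / 2) ^ m)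
        (by intro a _ b _ h; simpa using h)]
      apply sum_le_sum_of_subset_of_nonneg
      · intro m hm
        rw [Finset.mem_Icc] at hm
        rw [mem_image]
        exact ⟨m - 1, by rw [mem_range]; omega, by omega⟩
      · intro _ _ _
        positivity
    refine g1.trans ?_
    have g2 : ∀ K : ℕ, ∑ m ∈ Finset.range K, ((1 : ℝ) / 2) ^ (m + 1) = 1 - (1 / 2) ^ K := by
      intro K
      induction K with
      | zero => simp
      | succ K ih => rw [sum_range_succ, ih, pow_succ]; ring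
    rw [g2]
    have : (0 : ℝ) ≤ (1 / 2) ^ (m0 n + 1) := by positivity
    linarith
  calc 1 / (n : ℝ) * ∑ m ∈ Finset.Icc 40000 (m0 n + 1), ((1 : ℝ) / 2) ^ m ≤ 1 / n * 1 :=
        mul_le_mul_of_nonneg_left hgeo (by positivity)
    _ = 1 / n := mul_one _

end

end Pool.Agent.DH10
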