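import Pool.Agent.DH10.Conn
import Pool.Agent.DH10.LargeCore
import Pool.Agent.DH10.Cyc

/-!
# DH10.CoreSum : small cycles do not exist (2.1), (2.2), (2.3)

* `core_sum_zero`, `core_sum_one`: combine `core_sum_le_exp`, `small_core_sum_zero/one`, `large_core_sum`.
* `cyc_sum_small`: `∑_{z cycle, z ≠ 1, |supp z| ≤ m0} P(supp z ⊆ T) → 0`: by `cyc_edge` the support `A` of `z` is a core, the
  number of `z` with given support is `≤ q^{|A|}`, `P(A ⊆ T) ≤ (3/n)^{|A|}` and `= 0` unless the boundary vectors are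
  independent, i.e. `|A| = rk A` (`prob_superset_le`, `prob_superset_dep`).  Use `core_sum_zero` with `C = 3q`.
* `cyc_sum_null`: `∑_{z cycle, z ≠ 1, |supp z| ≤ m0, |supp z| ≤ rk + 1} |supp z|² (3/n)^{|supp z|} ≤ B`: same with
  `k² ≤ 4^k`, `core_sum_one` with `C = 12 q`.
* `Mth_le`: `θ = 1 - t/N`, `t = n^{1/100}`: `M_θ = ∑_z θ^{|z|} P(supp z ⊆ T)`; `z = 1` gives `1`, `0 < |z| ≤ m0` gives at most the
  previous sum, and the others at most `θ^{m0} M_1`, `θ^{m0} ≤ exp (-t m0/N) ≤ exp (-n^{1/200})` for large `n`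
  (`N = C(n-1,2) ≤ n²/2`, `m0 ≥ n^{2-1/200} - 1`).
-/

set_option autoImplicit false

open Finset Filter Topology

namespace Pool.Agent.DH10

noncomputable section

open Classical in
private lemma cs_split (n j m m1 : ℕ) (hm : m ≤ m0 n + 1) {x : ℝ} (hx : 0 ≤ x) :
    ∑ A ∈ (univ : Finset (Finset (Tri n))).filter
        (fun A => EConn A ∧ IsCore A ∧ A.card ≤ rk A + j ∧ A.card ≤ m), x ^ A.card ≤
    ∑ A ∈ (univ : Finset (Finset (Tri n))).filter
        (fun A => EConn A ∧ IsCore A ∧ A.card ≤ rk A + j ∧ A.card < m1), x ^ A.card +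
    ∑ A ∈ (univ : Finset (Finset (Tri n))).filter
        (fun A => EConn A ∧ IsCore A ∧ m1 ≤ A.card ∧ A.card ≤ m0 n + 1), x ^ A.card := by
  rw [← Finset.sum_filter_add_sum_filter_not ((univ : Finset (Finset (Tri n))).filter
        (fun A => EConn A ∧ IsCore A ∧ A.card ≤ rk A + j ∧ A.card ≤ m)) (fun A => A.card < m1)]
  apply add_le_add
  · apply Finset.sum_le_sum_of_subset_of_nonneg
    · intro A hA
      simp only [Finset.mem_filter, Finset.mem_univ, true_and] at hA ⊢
      exact ⟨hA.1.1, hA.1.2.1, hA.1.2.2.1, hA.2⟩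
    · intro A _ _
      positivity
  · apply Finset.sum_le_sum_of_subset_of_nonneg
    · intro A hA
      simp only [Finset.mem_filter, Finset.mem_univ, true_and, not_lt] at hA ⊢
      exact ⟨hA.1.1, hA.1.2.1, hA.2, hA.1.2.2.2.trans hm⟩
    · intro A _ _
      positivity

open Classical in
theorem core_sum_zero (C : ℝ) (hC : 0 ≤ C) :
    Tendsto (fun n : ℕ => ∑ A ∈ (univ : Finset (Finset (Tri n))).filter
        (fun A => IsCore A ∧ A.card ≤ rk A ∧ A.card ≤ m0 n), (C / n) ^ A.card) atTop (𝓝 0) := by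
  obtain ⟨m1, hm1⟩ := large_core_sum C hC
  obtain ⟨C', hC'⟩ := small_core_sum_zero m1 C hC
  have hlim : Tendsto (fun n : ℕ => Real.exp (C' / n + 1 / n) - 1) atTop (𝓝 0) := by
    have h1 : Tendsto (fun n : ℕ => C' / (n : ℝ) + 1 / n) atTop (𝓝 (0 + 0)) :=
      (tendsto_const_div_atTop_nhds_zero_nat C').add (tendsto_const_div_atTop_nhds_zero_nat 1)
    have h2 := ((Real.continuous_exp.tendsto _).comp h1).sub_const 1
    simpa using h2
  refine tendsto_of_tendsto_of_tendsto_of_le_of_le' tendsto_const_nhds hlim ?_ ?_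
  · exact Eventually.of_forall fun n => Finset.sum_nonneg fun A _ => by positivity
  · filter_upwards [hm1, eventually_ge_atTop 1] with n hn hn1
    have hx : (0 : ℝ) ≤ C / n := by positivity
    have h1 := core_sum_le_exp n 0 (m0 n) hx
    simp only [add_zero] at h1
    refine h1.trans ?_
    apply sub_le_sub_right
    apply Real.exp_le_exp.2
    have h2 := cs_split n 0 (m0 n) m1 (Nat.le_succ _) hx
    simp only [add_zero] at h2
    exact h2.trans (add_le_add (hC' n hn1) hn)

open Classical in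
theorem core_sum_one (C : ℝ) (hC : 0 ≤ C) :
    ∃ B : ℝ, ∀ᶠ n : ℕ in atTop, ∑ A ∈ (univ : Finset (Finset (Tri n))).filter
        (fun A => IsCore A ∧ A.card ≤ rk A + 1 ∧ A.card ≤ m0 n + 1), (C / n) ^ A.card ≤ B := by
  obtain ⟨m1, hm1⟩ := large_core_sum C hC
  obtain ⟨C', hC'⟩ := small_core_sum_one m1 C hC
  refine ⟨Real.exp (C' + 1) - 1, ?_⟩
  filter_upwards [hm1, eventually_ge_atTop 1] with n hn hn1
  have hx : (0 : ℝ) ≤ C / n := by positivity
  have h1 := core_sum_le_exp n 1 (m0 n + 1) hx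
  refine h1.trans ?_
  apply sub_le_sub_right
  apply Real.exp_le_exp.2
  have h2 := cs_split n 1 (m0 n + 1) m1 le_rfl hx
  refine h2.trans (add_le_add (hC' n hn1) (hn.trans ?_))
  rw [div_le_one (by positivity)]
  exact_mod_cast hn1

variable (G : Type) [AddCommGroup G] [Fintype G] [DecidableEq G]

variable {G}

omit [DecidableEq G] in
private lemma cs_supp_nonempty {n : ℕ} {z : Tri n → AddChar G ℂ} (hz : z ≠ 1) : (supp z).Nonempty := by
  by_contra h
  rw [Finset.not_nonempty_iff_eq_empty] at h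
  apply hz
  funext t
  by_contra h1
  have : t ∈ supp z := by
    rw [supp, Finset.mem_filter]
    exact ⟨Finset.mem_univ _, h1⟩
  rw [h] at this
  simp at this

private lemma cs_core {n : ℕ} {z : Tri n → AddChar G ℂ} (hc : IsCyc z) (hz : z ≠ 1) : IsCore (supp z) :=
  ⟨cs_supp_nonempty hz, fun _ ht _ he => cyc_edge hc ht he⟩

open Classical in
private lemma cs_card_fiber {n : ℕ} (A : Finset (Tri n)) :
    ((univ : Finset (Tri n → AddChar G ℂ)).filter (fun z => supp z = A)).card ≤
      Fintype.card G ^ A.card := by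
  have h1 : ((univ : Finset (Tri n → AddChar G ℂ)).filter (fun z => supp z = A)).card ≤
      (univ : Finset (A → AddChar G ℂ)).card := by
    apply Finset.card_le_card_of_injOn (fun z => fun t : A => z t.1)
    · intro z _
      simp
    · intro z hz z' hz' h
      simp only [Finset.coe_filter, Finset.mem_univ, true_and, Set.mem_setOf_eq] at hz hz'
      funext t
      by_cases ht : t ∈ A
      · exact congrFun h ⟨t, ht⟩
      · have e1 : z t = 1 := by
          by_contra h1
          exact ht (hz ▸ (by rw [supp, Finset.mem_filter]; exact ⟨Finset.mem_univ _, h1⟩))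
        have e2 : z' t = 1 := by
          by_contra h1
          exact ht (hz' ▸ (by rw [supp, Finset.mem_filter]; exact ⟨Finset.mem_univ _, h1⟩))
        rw [e1, e2]
  refine h1.trans (le_of_eq ?_)
  rw [Finset.card_univ, Fintype.card_fun, Fintype.card_coe]
  congr 1
  exact AddChar.card_eq

open Classical in
/-- sum over cycles with values depending on the support only -/
private lemma cs_sum_le {n : ℕ} (P : Finset (Tri n) → Prop) (F : Finset (Tri n) → ℝ) (hF : ∀ A, 0 ≤ F A) :
    ∑ z ∈ (univ : Finset (Tri n → AddChar G ℂ)).filter (fun z => IsCyc z ∧ z ≠ 1 ∧ P (supp z)),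
      F (supp z) ≤ ∑ A ∈ (univ : Finset (Finset (Tri n))).filter (fun A => IsCore A ∧ P A),
      (Fintype.card G : ℝ) ^ A.card * F A := by
  have h1 : ∀ z ∈ (univ : Finset (Tri n → AddChar G ℂ)).filter (fun z => IsCyc z ∧ z ≠ 1 ∧ P (supp z)),
      supp z ∈ (univ : Finset (Finset (Tri n))).filter (fun A => IsCore A ∧ P A) := by
    intro z hz
    simp only [Finset.mem_filter, Finset.mem_univ, true_and] at hz ⊢
    exact ⟨cs_core hz.1 hz.2.1, hz.2.2⟩
  rw [← Finset.sum_fiberwise_of_maps_to h1]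
  apply Finset.sum_le_sum
  intro A _
  have h2 : ∀ z ∈ Finset.filter (fun z => supp z = A) ((univ : Finset (Tri n → AddChar G ℂ)).filter
      (fun z => IsCyc z ∧ z ≠ 1 ∧ P (supp z))), F (supp z) = F A := by
    intro z hz
    rw [(Finset.mem_filter.1 hz).2]
  rw [Finset.sum_congr rfl h2, Finset.sum_const, nsmul_eq_mul]
  apply mul_le_mul_of_nonneg_right _ (hF A)
  have h3 := cs_card_fiber (G := G) A
  have h4 : (Finset.filter (fun z => supp z = A) ((univ : Finset (Tri n → AddChar G ℂ)).filter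
      (fun z => IsCyc z ∧ z ≠ 1 ∧ P (supp z)))).card ≤ Fintype.card G ^ A.card := by
    refine le_trans (Finset.card_le_card ?_) h3
    intro z hz
    simp only [Finset.mem_filter, Finset.mem_univ, true_and] at hz ⊢
    exact hz.2
  exact_mod_cast h4

/-- independence and rank -/
private lemma cs_indep_rk {n : ℕ} {A : Finset (Tri n)}
    (h : LinearIndependent ℝ (fun t : A => fun e : Edg n => DM n e t.1)) : A.card ≤ rk A := by
  have h1 := finrank_span_eq_card h
  rw [Fintype.card_coe] at h1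
  rw [rk, ← h1]
  apply le_of_eq
  have h2 : Set.range (fun t : A => fun e : Edg n => DM n e t.1) =
      (fun t : Tri n => fun e : Edg n => DM n e t) '' (A : Set (Tri n)) := by
    ext v
    simp only [Set.mem_range, Set.mem_image, Finset.mem_coe, Subtype.exists, exists_prop]
  rw [h2]

private lemma cs_prob_le {n : ℕ} (hn : 3 ≤ n) (A : Finset (Tri n)) :
    ∑ S ∈ (cand n).filter (fun S => A ⊆ S), W S ≤ if A.card ≤ rk A then (3 / (n : ℝ)) ^ A.card else 0 := by
  split_ifs with h
  · exact prob_superset_le hn A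
  · exact (prob_superset_dep hn A (fun h1 => h (cs_indep_rk h1))).le

private lemma cs_prob_nonneg {n : ℕ} (A : Finset (Tri n)) :
    0 ≤ ∑ S ∈ (cand n).filter (fun S => A ⊆ S), W S :=
  Finset.sum_nonneg fun S _ => W_nonneg S

variable (G)

open Classical in
theorem cyc_sum_small :
    Tendsto (fun n : ℕ => ∑ z ∈ (univ : Finset (Tri n → AddChar G ℂ)).filter
        (fun z => IsCyc z ∧ z ≠ 1 ∧ (supp z).card ≤ m0 n),
        ∑ S ∈ (cand n).filter (fun S => supp z ⊆ S), W S) atTop (𝓝 0) := by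
  have hq : (0 : ℝ) ≤ 3 * Fintype.card G := by positivity
  refine tendsto_of_tendsto_of_tendsto_of_le_of_le' tendsto_const_nhds
    (core_sum_zero (3 * Fintype.card G) hq) ?_ ?_
  · exact Eventually.of_forall fun n => Finset.sum_nonneg fun z _ => cs_prob_nonneg _
  · filter_upwards [eventually_ge_atTop 3] with n hn
    have h1 := cs_sum_le (G := G) (fun A : Finset (Tri n) => A.card ≤ m0 n)
      (fun A => ∑ S ∈ (cand n).filter (fun S => A ⊆ S), W S) (fun A => cs_prob_nonneg A)
    refine (le_trans (le_of_eq ?_) h1).trans ?_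
    · apply Finset.sum_congr _ (fun _ _ => rfl)
      ext z
      simp only [Finset.mem_filter]
    · have h2 : ∀ A ∈ (univ : Finset (Finset (Tri n))).filter (fun A => IsCore A ∧ A.card ≤ m0 n),
          (Fintype.card G : ℝ) ^ A.card * ∑ S ∈ (cand n).filter (fun S => A ⊆ S), W S ≤
          if A.card ≤ rk A then (3 * (Fintype.card G : ℝ) / n) ^ A.card else 0 := by
        intro A _
        have h3 := cs_prob_le hn A
        have h4 : (0 : ℝ) ≤ (Fintype.card G : ℝ) ^ A.card := by positivity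
        have h5 := mul_le_mul_of_nonneg_left h3 h4
        refine h5.trans (le_of_eq ?_)
        split_ifs with h
        · rw [← mul_pow]
          congr 1
          ring
        · rw [mul_zero]
      refine le_trans (le_of_eq ?_) ((Finset.sum_le_sum h2).trans (le_of_eq ?_))
      · apply Finset.sum_congr _ (fun _ _ => rfl)
        ext A
        simp only [Finset.mem_filter]
      rw [← Finset.sum_filter, Finset.filter_filter]
      apply Finset.sum_congr _ (fun _ _ => rfl)
      ext A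
      simp only [Finset.mem_filter, Finset.mem_univ, true_and]
      tauto

open Classical in
theorem cyc_sum_null :
    ∃ B : ℝ, ∀ᶠ n : ℕ in atTop, ∑ z ∈ (univ : Finset (Tri n → AddChar G ℂ)).filter
        (fun z => IsCyc z ∧ z ≠ 1 ∧ (supp z).card ≤ m0 n ∧ (supp z).card ≤ rk (supp z) + 1),
        ((supp z).card : ℝ) ^ 2 * (3 / (n : ℝ)) ^ (supp z).card ≤ B := by
  have hq : (0 : ℝ) ≤ 12 * Fintype.card G := by positivity
  obtain ⟨B, hB⟩ := core_sum_one (12 * Fintype.card G) hq
  refine ⟨B, ?_⟩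
  filter_upwards [hB, eventually_ge_atTop 3] with n hn hn3
  have h1 := cs_sum_le (G := G) (fun A : Finset (Tri n) => A.card ≤ m0 n ∧ A.card ≤ rk A + 1)
      (fun A => (A.card : ℝ) ^ 2 * (3 / (n : ℝ)) ^ A.card) (fun A => by positivity)
  refine (le_trans (le_of_eq ?_) h1).trans (le_trans ?_ hn)
  · apply Finset.sum_congr _ (fun _ _ => rfl)
    ext z
    simp only [Finset.mem_filter]
  · refine (Finset.sum_le_sum (g := fun A : Finset (Tri n) => (12 * (Fintype.card G : ℝ) / n) ^ A.card) ?_).trans ?_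
    · intro A _
      have h2 : ((A.card : ℝ)) ^ 2 ≤ 4 ^ A.card := by
        have h3 : (A.card : ℝ) ≤ 2 ^ A.card := by
          exact_mod_cast Nat.lt_two_pow_self.le
        calc ((A.card : ℝ)) ^ 2 ≤ (2 ^ A.card) ^ 2 := by gcongr
          _ = 4 ^ A.card := by rw [← pow_mul, mul_comm, pow_mul]; norm_num
      calc (Fintype.card G : ℝ) ^ A.card * ((A.card : ℝ) ^ 2 * (3 / (n : ℝ)) ^ A.card)
          ≤ (Fintype.card G : ℝ) ^ A.card * (4 ^ A.card * (3 / (n : ℝ)) ^ A.card) := by gcongr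
        _ = (12 * (Fintype.card G : ℝ) / n) ^ A.card := by
          rw [← mul_pow, ← mul_pow]
          congr 1
          ring
    · apply Finset.sum_le_sum_of_subset_of_nonneg
      · intro A hA
        simp only [Finset.mem_filter, Finset.mem_univ, true_and] at hA ⊢
        exact ⟨hA.1, hA.2.2, hA.2.1.trans (Nat.le_succ _)⟩
      · intro A _ _
        positivity

/-- `t = n^{1/100}` -/
def tt (n : ℕ) : ℝ := (n : ℝ) ^ (1 / 100 : ℝ)

/-- `θ = 1 - t/N` -/
def th (n : ℕ) : ℝ := 1 - tt n / NN n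

variable {G}

open Classical in
omit [DecidableEq G] in
private lemma cs_Mth_eq {n : ℕ} (θ : ℝ) : Mth n G θ =
    ∑ z ∈ (univ : Finset (Tri n → AddChar G ℂ)).filter (fun z => IsCyc z),
      θ ^ (supp z).card * ∑ S ∈ (cand n).filter (fun S => supp z ⊆ S), W S := by
  rw [Mth, Ex]
  have h1 : ∀ S ∈ cand n, W S * ∑ z ∈ cycIn G S, θ ^ (supp z).card =
      ∑ z ∈ (univ : Finset (Tri n → AddChar G ℂ)).filter (fun z => IsCyc z),
        if supp z ⊆ S then θ ^ (supp z).card * W S else 0 := by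
    intro S _
    rw [← Finset.sum_filter, Finset.filter_filter, Finset.mul_sum]
    apply Finset.sum_congr
    · ext z
      simp only [cycIn, Finset.mem_filter, Finset.mem_univ, true_and]
    · intro z _
      ring
  rw [Finset.sum_congr rfl h1, Finset.sum_comm]
  apply Finset.sum_congr rfl
  intro z _
  rw [Finset.mul_sum, Finset.sum_filter]

omit [DecidableEq G] in
private lemma cs_supp_one {n : ℕ} : supp (1 : Tri n → AddChar G ℂ) = ∅ := by
  ext t
  simp [supp]

omit [DecidableEq G] in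
private lemma cs_cyc_one {n : ℕ} : IsCyc (1 : Tri n → AddChar G ℂ) := by
  intro f
  simp

private lemma cs_prob_empty {n : ℕ} (hn : 3 ≤ n) :
    ∑ S ∈ (cand n).filter (fun S => (∅ : Finset (Tri n)) ⊆ S), W S = 1 := by
  rw [← sum_W hn]
  apply Finset.sum_congr _ (fun _ _ => rfl)
  simp

private lemma cs_NN_le (n : ℕ) : (NN n : ℝ) ≤ (n : ℝ) ^ 2 / 2 := by
  have h1 : 2 * NN n ≤ n ^ 2 := by
    rw [NN, Nat.choose_two_right]
    have h2 : 2 * ((n - 1) * (n - 1 - 1) / 2) ≤ (n - 1) * (n - 1 - 1) := Nat.mul_div_le _ _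
    have h3 : (n - 1) * (n - 1 - 1) ≤ n * n := Nat.mul_le_mul (Nat.sub_le _ _) ((Nat.sub_le _ _).trans (Nat.sub_le _ _))
    nlinarith
  have h2 : (2 : ℝ) * NN n ≤ (n : ℝ) ^ 2 := by exact_mod_cast h1
  linarith

private lemma cs_le_NN {n : ℕ} (hn : 5 ≤ n) : (n : ℝ) ≤ (NN n : ℝ) + 1 := by
  have h1 : n ≤ NN n + 1 := by
    rw [NN]
    have h2 : n - 1 ≤ (n - 1).choose 2 := by
      rw [Nat.choose_two_right, Nat.le_div_iff_mul_le (by norm_num)]
      exact Nat.mul_le_mul_left _ (by omega)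
    omega
  exact_mod_cast h1

private lemma cs_th_bounds {n : ℕ} (hn : 5 ≤ n) : 0 ≤ th n ∧ th n ≤ 1 ∧ (0 : ℝ) < NN n := by
  have h1 := cs_le_NN hn
  have hn' : (5 : ℝ) ≤ n := by exact_mod_cast hn
  have hN : (0 : ℝ) < NN n := by linarith
  have ht : 0 ≤ tt n := Real.rpow_nonneg (Nat.cast_nonneg _) _
  refine ⟨?_, ?_, hN⟩
  · rw [th, sub_nonneg, div_le_one hN]
    -- tt n = n^(1/100) ≤ n^(1/2) ≤ n - 1
    have h2 : tt n ≤ (n : ℝ) ^ (1 / 2 : ℝ) := by
      rw [tt]
      apply Real.rpow_le_rpow_of_exponent_le (by linarith)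
      norm_num
    have h3 : (n : ℝ) ^ (1 / 2 : ℝ) ≤ n - 1 := by
      rw [← Real.sqrt_eq_rpow]
      apply Real.sqrt_le_iff.2
      constructor
      · linarith
      · nlinarith
    linarith
  · rw [th]
    have : 0 ≤ tt n / NN n := div_nonneg ht hN.le
    linarith

private lemma cs_th_pow {n : ℕ} (hn : 5 ≤ n) {k : ℕ} (hk : m0 n < k) :
    th n ^ k ≤ Real.exp (-(n : ℝ) ^ (1 / 200 : ℝ)) := by
  obtain ⟨h0, h1, hN⟩ := cs_th_bounds hn
  have hn0 : (0 : ℝ) < n := by
    have : (5 : ℝ) ≤ n := by exact_mod_cast hn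
    linarith
  have h2 : th n ≤ Real.exp (-(tt n / NN n)) := by
    rw [th]
    have := Real.add_one_le_exp (-(tt n / NN n))
    linarith
  have h3 : (n : ℝ) ^ (2 - 1 / 200 : ℝ) ≤ k := by
    have h4 := Nat.lt_floor_add_one ((n : ℝ) ^ (2 - 1 / 200 : ℝ))
    have h5 : ((m0 n + 1 : ℕ) : ℝ) ≤ k := by exact_mod_cast hk
    rw [m0] at h5
    push_cast at h5
    linarith
  have htt : 0 ≤ tt n := Real.rpow_nonneg (Nat.cast_nonneg _) _
  calc th n ^ k ≤ (Real.exp (-(tt n / NN n))) ^ k := pow_le_pow_left₀ h0 h2 k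
    _ = Real.exp (-(k * (tt n / NN n))) := by
      rw [← Real.exp_nat_mul]
      congr 1
      ring
    _ ≤ Real.exp (-(n : ℝ) ^ (1 / 200 : ℝ)) := by
      apply Real.exp_le_exp.2
      apply neg_le_neg
      have h6 : (n : ℝ) ^ (1 / 200 : ℝ) * n ^ (2 : ℝ) = (n : ℝ) ^ (2 - 1 / 200 : ℝ) * tt n := by
        rw [tt, ← Real.rpow_add hn0, ← Real.rpow_add hn0]
        norm_num
      have h7 : (n : ℝ) ^ (1 / 200 : ℝ) * NN n ≤ k * tt n := by
        calc (n : ℝ) ^ (1 / 200 : ℝ) * NN n ≤ (n : ℝ) ^ (1 / 200 : ℝ) * n ^ (2 : ℝ) := by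
              apply mul_le_mul_of_nonneg_left _ (Real.rpow_nonneg hn0.le _)
              have := cs_NN_le n
              rw [Real.rpow_two]
              have h8 : (0 : ℝ) ≤ (n : ℝ) ^ 2 := by positivity
              linarith
          _ = (n : ℝ) ^ (2 - 1 / 200 : ℝ) * tt n := h6
          _ ≤ k * tt n := mul_le_mul_of_nonneg_right h3 htt
      rw [← mul_div_assoc, le_div_iff₀ hN]
      exact h7

variable (G)

theorem Mth_one_le : ∀ ε : ℝ, 0 < ε → ∀ᶠ n : ℕ in atTop,
    Mth n G (th n) ≤ 1 + ε + Real.exp (-(n : ℝ) ^ (1 / 200 : ℝ)) * Mth n G 1 := by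
  classical
  intro ε hε
  have h1 := (cyc_sum_small G).eventually (gt_mem_nhds hε)
  filter_upwards [h1, eventually_ge_atTop 5] with n hn hn5
  obtain ⟨h0, hle, hN⟩ := cs_th_bounds hn5
  set P : (Tri n → AddChar G ℂ) → ℝ := fun z => ∑ S ∈ (cand n).filter (fun S => supp z ⊆ S), W S with hP
  have hPn : ∀ z, 0 ≤ P z := fun z => cs_prob_nonneg _
  have hterm : ∀ z ∈ (univ : Finset (Tri n → AddChar G ℂ)).filter (fun z => IsCyc z),
      th n ^ (supp z).card * P z ≤ (if z = 1 then 1 else 0) +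
        (if z ≠ 1 ∧ (supp z).card ≤ m0 n then P z else 0) +
        Real.exp (-(n : ℝ) ^ (1 / 200 : ℝ)) * P z := by
    intro z _
    have he : 0 ≤ Real.exp (-(n : ℝ) ^ (1 / 200 : ℝ)) * P z := mul_nonneg (Real.exp_pos _).le (hPn z)
    by_cases hz : z = 1
    · subst hz
      have e1 : P (1 : Tri n → AddChar G ℂ) = 1 := by
        rw [hP]
        simp only
        rw [cs_supp_one]
        exact cs_prob_empty (by omega)
      rw [if_pos rfl, if_neg (by simp), cs_supp_one, Finset.card_empty, pow_zero, e1]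
      rw [e1] at he
      linarith
    · rw [if_neg hz]
      by_cases hc : (supp z).card ≤ m0 n
      · rw [if_pos ⟨hz, hc⟩]
        have : th n ^ (supp z).card * P z ≤ 1 * P z :=
          mul_le_mul_of_nonneg_right (pow_le_one₀ h0 hle) (hPn z)
        linarith
      · rw [if_neg (fun h => hc h.2)]
        have : th n ^ (supp z).card * P z ≤ Real.exp (-(n : ℝ) ^ (1 / 200 : ℝ)) * P z :=
          mul_le_mul_of_nonneg_right (cs_th_pow hn5 (not_le.1 hc)) (hPn z)
        linarith
  rw [cs_Mth_eq, cs_Mth_eq]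
  refine (Finset.sum_le_sum hterm).trans ?_
  rw [Finset.sum_add_distrib, Finset.sum_add_distrib, ← Finset.mul_sum]
  apply add_le_add
  · apply add_le_add
    · rw [Finset.sum_ite_eq']
      split_ifs <;> norm_num
    · rw [← Finset.sum_filter, Finset.filter_filter]
      exact hn.le
  · apply mul_le_mul_of_nonneg_left _ (Real.exp_pos _).le
    apply le_of_eq
    apply Finset.sum_congr rfl
    intro z _
    rw [one_pow, one_mul]

theorem one_le_Mth {n : ℕ} (hn : 3 ≤ n) {θ : ℝ} (h0 : 0 ≤ θ) : 1 ≤ Mth n G θ := by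
  classical
  rw [cs_Mth_eq]
  have h1 : (1 : Tri n → AddChar G ℂ) ∈ (univ : Finset (Tri n → AddChar G ℂ)).filter (fun z => IsCyc z) := by
    rw [Finset.mem_filter]
    exact ⟨Finset.mem_univ _, cs_cyc_one⟩
  have h2 := Finset.single_le_sum (f := fun z : Tri n → AddChar G ℂ =>
    θ ^ (supp z).card * ∑ S ∈ (cand n).filter (fun S => supp z ⊆ S), W S)
    (fun z _ => mul_nonneg (pow_nonneg h0 _) (cs_prob_nonneg _)) h1
  refine le_trans (le_of_eq ?_) h2
  rw [cs_supp_one, Finset.card_empty, pow_zero, one_mul, cs_prob_empty hn]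

end

end Pool.Agent.DH10
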