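import Pool.Agent.DH10.MidDefs
import Pool.Agent.DH10.Chern

/-!
# DH10.Mid1 : sampling (Part 3 (1))

For `n` large every cochain `f` has a sample `φ : Fin ⌈√n⌉ → (Fin n → G)` with `|qq φ x y a - rr f x y a| ≤ n^{-0.24}` for all
`x y a`.  Proof: `φ_i = val f z_i ·` for `z : Fin w → Fin n`; `φ_i y - φ_i x = val f x z_i + val f z_i y` (antisymmetry), so
`qq` is the empirical frequency of the set `{z : val f x z + val f z y = a}`, `rr` its true frequency.  `sample_hoeff`
and a union bound over `n² q` triples: the fraction of bad samples is `≤ n² q 2 exp(-w n^{-0.48}/2) < 1`,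
as `w n^{-0.48}/2 ≥ n^{0.02}/2`.
-/

set_option autoImplicit false

open Finset Filter

namespace Pool.Agent.DH10

noncomputable section

/-- sample size `⌈√n⌉` -/
def ww (n : ℕ) : ℕ := ⌈Real.sqrt n⌉₊

/-- basic facts on `val` -/
theorem val_neg {n : ℕ} {G : Type} [AddCommGroup G] (f : Coch n G) (x y : Fin n) :
    val f y x = - val f x y := by
  unfold val
  rcases lt_trichotomy x y with h | h | h
  · rw [dif_neg (not_lt.2 h.le), dif_pos h, dif_pos h]
  · subst h
    simp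
  · rw [dif_pos h, dif_neg (not_lt.2 h.le), dif_pos h, neg_neg]

/-- the union bound is less than one -/
private theorem mid1_small {q : ℝ} (hq : 0 ≤ q) : ∀ᶠ n : ℕ in atTop,
    (n : ℝ) ^ 2 * q * (2 * Real.exp (-((ww n : ℝ) * ((n : ℝ) ^ (-(24 / 100) : ℝ)) ^ 2 / 2))) < 1 := by
  have h1 : Tendsto (fun n : ℕ => (n : ℝ) ^ (2 / 100 : ℝ) / 2) atTop atTop :=
    ((tendsto_rpow_atTop (by norm_num)).comp tendsto_natCast_atTop_atTop).atTop_div_const
      (by norm_num)
  have h2 := ((Real.tendsto_pow_mul_exp_neg_atTop_nhds_zero 100).comp h1).const_mul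
    (2 * q * 2 ^ 100)
  rw [mul_zero] at h2
  filter_upwards [h2.eventually_lt_const (u := 1) (by norm_num), eventually_ge_atTop 1]
    with n hn hn1
  have hn0 : (0 : ℝ) < n := by exact_mod_cast hn1
  refine lt_of_le_of_lt ?_ hn
  have e1 : (n : ℝ) ^ 2 = 2 ^ 100 * ((n : ℝ) ^ (2 / 100 : ℝ) / 2) ^ 100 := by
    rw [div_pow, mul_div_cancel₀ _ (by positivity : (2 : ℝ) ^ 100 ≠ 0), ← Real.rpow_natCast
      ((n : ℝ) ^ (2 / 100 : ℝ)) 100, ← Real.rpow_mul hn0.le, ← Real.rpow_natCast]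
    congr 1
    norm_num
  have e2 : (n : ℝ) ^ (2 / 100 : ℝ) / 2 ≤
      (ww n : ℝ) * ((n : ℝ) ^ (-(24 / 100) : ℝ)) ^ 2 / 2 := by
    have e3 : (n : ℝ) ^ (1 / 2 : ℝ) ≤ ww n := by
      rw [← Real.sqrt_eq_rpow]
      exact Nat.le_ceil _
    have e4 : ((n : ℝ) ^ (-(24 / 100) : ℝ)) ^ 2 = (n : ℝ) ^ (-(48 / 100) : ℝ) := by
      rw [← Real.rpow_natCast, ← Real.rpow_mul hn0.le]
      congr 1
      norm_num
    have e5 : (n : ℝ) ^ (2 / 100 : ℝ) = (n : ℝ) ^ (1 / 2 : ℝ) * (n : ℝ) ^ (-(48 / 100) : ℝ) := by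
      rw [← Real.rpow_add hn0]
      congr 1
      norm_num
    rw [e4, e5]
    gcongr
  have e6 : Real.exp (-((ww n : ℝ) * ((n : ℝ) ^ (-(24 / 100) : ℝ)) ^ 2 / 2)) ≤
      Real.exp (-((n : ℝ) ^ (2 / 100 : ℝ) / 2)) := Real.exp_le_exp.2 (by linarith)
  calc (n : ℝ) ^ 2 * q * (2 * Real.exp (-((ww n : ℝ) * ((n : ℝ) ^ (-(24 / 100) : ℝ)) ^ 2 / 2)))
      ≤ (n : ℝ) ^ 2 * q * (2 * Real.exp (-((n : ℝ) ^ (2 / 100 : ℝ) / 2))) := by gcongr
    _ = 2 * q * 2 ^ 100 * (((n : ℝ) ^ (2 / 100 : ℝ) / 2) ^ 100 *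
          Real.exp (-((n : ℝ) ^ (2 / 100 : ℝ) / 2))) := by
        rw [e1]
        ring

theorem exists_sample (G : Type) [AddCommGroup G] [Fintype G] [DecidableEq G] :
    ∀ᶠ n : ℕ in atTop, ∀ f : Coch n G, ∃ φ : Fin (ww n) → Fin n → G,
      ∀ x y a, |qq φ x y a - rr f x y a| ≤ (n : ℝ) ^ (-(24 / 100) : ℝ) := by
  classical
  filter_upwards [mid1_small (q := Fintype.card G) (by positivity), eventually_ge_atTop 1]
    with n hn hn1 f
  have hn0 : (0 : ℝ) < n := by exact_mod_cast hn1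
  set u : ℝ := (n : ℝ) ^ (-(24 / 100) : ℝ) with hu
  have hu0 : 0 < u := Real.rpow_pos_of_pos hn0 _
  have hk : 1 ≤ ww n := by
    unfold ww
    rw [Nat.one_le_ceil_iff]
    exact Real.sqrt_pos.2 hn0
  let A : Fin n → Fin n → G → Finset (Fin n) := fun x y a =>
    univ.filter fun z => val f x z + val f z y = a
  let bad : Fin n × Fin n × G → Finset (Fin (ww n) → Fin n) := fun p =>
    univ.filter fun z : Fin (ww n) → Fin n =>
      u < |((univ.filter fun i => z i ∈ A p.1 p.2.1 p.2.2).card : ℝ) / (ww n : ℕ) -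
        ((A p.1 p.2.1 p.2.2).card : ℝ) / Fintype.card (Fin n)|
  have hbad : ∀ p, ((bad p).card : ℝ) ≤ 2 * Real.exp (-((ww n : ℝ) * u ^ 2 / 2)) *
      (n : ℝ) ^ (ww n) := by
    intro p
    have h := sample_hoeff (A p.1 p.2.1 p.2.2) (ww n) hu0 hk
      (by rw [Fintype.card_fin]; omega)
    rw [Fintype.card_fin] at h
    convert h using 3
    simp only [bad, Fintype.card_fin]
  have hlt : (univ.biUnion bad).card < Fintype.card (Fin (ww n) → Fin n) := by
    have h1 : (((univ.biUnion bad).card : ℕ) : ℝ) < (n : ℝ) ^ (ww n) := by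
      calc (((univ.biUnion bad).card : ℕ) : ℝ) ≤ ((∑ p, (bad p).card : ℕ) : ℝ) := by
            exact_mod_cast Finset.card_biUnion_le
        _ = ∑ p, ((bad p).card : ℝ) := by push_cast; rfl
        _ ≤ ∑ _p : Fin n × Fin n × G, 2 * Real.exp (-((ww n : ℝ) * u ^ 2 / 2)) *
              (n : ℝ) ^ (ww n) := Finset.sum_le_sum fun p _ => hbad p
        _ = ((n : ℝ) ^ 2 * Fintype.card G * (2 * Real.exp (-((ww n : ℝ) * u ^ 2 / 2)))) *
              (n : ℝ) ^ (ww n) := by
            rw [Finset.sum_const, Finset.card_univ, Fintype.card_prod, Fintype.card_prod,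
              Fintype.card_fin, nsmul_eq_mul]
            push_cast
            ring
        _ < 1 * (n : ℝ) ^ (ww n) := mul_lt_mul_of_pos_right hn (by positivity)
        _ = (n : ℝ) ^ (ww n) := one_mul _
    rw [Fintype.card_fun, Fintype.card_fin, Fintype.card_fin]
    exact_mod_cast h1
  obtain ⟨z, hz⟩ : ∃ z, z ∉ univ.biUnion bad := by
    by_contra hcon
    push Not at hcon
    have : univ.biUnion bad = univ := Finset.eq_univ_of_forall hcon
    rw [this, Finset.card_univ] at hlt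
    exact lt_irrefl _ hlt
  refine ⟨fun i y => val f (z i) y, fun x y a => ?_⟩
  rw [Finset.mem_biUnion] at hz
  push Not at hz
  have h1 := hz (x, y, a) (mem_univ _)
  simp only [bad, mem_filter, mem_univ, true_and, not_lt, Fintype.card_fin] at h1
  have h2 : (univ.filter fun i => val f (z i) y - val f (z i) x = a) =
      univ.filter fun i => z i ∈ A x y a := by
    ext i
    simp only [A, mem_filter, mem_univ, true_and]
    rw [val_neg f x (z i), sub_neg_eq_add, add_comm]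
  unfold qq rr
  rw [h2]
  exact h1

end

end Pool.Agent.DH10
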