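import Pool.Agent.DH10.Push
import Pool.Agent.DH10.CoreSum
import Pool.Agent.DH10.Mid1

/-!
# DH10.UnifSum : cochains all of whose nontrivial characters are uniform (5.3)

`dens_le`: `q |Z f| = ∑_{t} ∑_χ χ(curT f t)` (orthogonality) `= C(n,3) + ∑_{χ≠1} ∑_t Re χ(curT f t)`.  `Re χ(cur f x y z)` is
invariant under permutations of `x,y,z` (`cur` changes sign or not), and `cur f x y z = 0` if two of `x,y,z` are equal
(`3n²-2n` triples), so `6 ∑_t Re χ(curT f t) = n³ τ_χ(f) - (3n² - 2n) ≤ n³ κ`.  So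
`dens f ≤ 1 + q n³ κ/(n(n-1)(n-2)) ≤ 1 + 5 q κ` for `n ≥ 3` (`n³/(n(n-1)(n-2)) ≤ 9/2`).
`unif_sum`: `w f ≤ wth θ f (dens f)^{N(1-θ)}`, `N(1-θ) = tt n = n^{1/100}` for `θ = th n`,
`(1 + 5qκ)^{tt} ≤ exp(5 q n^{-1/50+1/100}) → 1`, and `∑_f wth θ f = q^{n-1} Mth n G θ` (`sum_wth`; `wth ≥ 0`, `Mth ≥ 0`).
(`dens f ≥ 0`; monotonicity of `rpow` in the base.)
-/

set_option autoImplicit false

open Finset Filter Topology

namespace Pool.Agent.DH10

noncomputable section

/-! ### auxiliary lemmas -/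

private theorem us_val_self {n : ℕ} {G : Type} [AddCommGroup G] (f : Coch n G) (x : Fin n) :
    val f x x = 0 := by
  unfold val
  simp

private theorem us_cur_swap {n : ℕ} {G : Type} [AddCommGroup G] (f : Coch n G) (x y z : Fin n) :
    cur f y x z = - cur f x y z := by
  unfold cur
  rw [val_neg f x y, val_neg f z x, val_neg f y z]
  abel

private theorem us_cur_rot {n : ℕ} {G : Type} [AddCommGroup G] (f : Coch n G) (x y z : Fin n) :
    cur f y z x = cur f x y z := by
  unfold cur
  abel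

private theorem us_cur_self {n : ℕ} {G : Type} [AddCommGroup G] (f : Coch n G) (x z : Fin n) :
    cur f x x z = 0 := by
  unfold cur
  rw [us_val_self, val_neg f x z]
  abel

/-- real part of a character at the negative -/
private theorem us_re_neg {G : Type} [AddCommGroup G] [Finite G] (χ : AddChar G ℂ) (a : G) :
    (χ (-a)).re = (χ a).re := by
  rw [AddChar.map_neg_eq_conj, Complex.conj_re]

/-- sum over triangles as a sum over triples -/
private theorem us_sum_tri {n : ℕ} (g : Fin n → Fin n → Fin n → ℝ) :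
    ∑ t : Tri n, g t.a t.b t.c = ∑ x, ∑ y, ∑ z, if x < y ∧ y < z then g x y z else 0 := by
  have h1 : ∑ x, ∑ y, ∑ z, (if x < y ∧ y < z then g x y z else 0) =
      ∑ p : Fin n × Fin n × Fin n,
        (if p.1 < p.2.1 ∧ p.2.1 < p.2.2 then g p.1 p.2.1 p.2.2 else 0) := by
    rw [Fintype.sum_prod_type]
    refine Finset.sum_congr rfl fun x _ => ?_
    rw [Fintype.sum_prod_type]
  rw [h1, ← Finset.sum_filter]
  symm
  exact Finset.sum_subtype (univ.filter fun p : Fin n × Fin n × Fin n =>
    p.1 < p.2.1 ∧ p.2.1 < p.2.2) (by simp) (fun p => g p.1 p.2.1 p.2.2)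

private theorem us_six {n : ℕ} (g : Fin n → Fin n → Fin n → ℝ)
    (hs : ∀ x y z, g y x z = g x y z) (hr : ∀ x y z, g y z x = g x y z)
    (h0 : ∀ x z, 0 ≤ g x x z) :
    6 * ∑ t : Tri n, g t.a t.b t.c ≤ ∑ x, ∑ y, ∑ z, g x y z := by
  have hxzy : ∀ x y z, g x z y = g x y z := fun x y z => (hr y x z).trans (hs x y z)
  have hzyx : ∀ x y z, g z y x = g x y z := fun x y z => (hr x z y).trans (hxzy x y z)
  have hzxy : ∀ x y z, g z x y = g x y z := fun x y z => (hr z x y).symm
  set S := ∑ t : Tri n, g t.a t.b t.c with hS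
  have e1 : ∑ x, ∑ y, ∑ z, (if x < y ∧ y < z then g x y z else 0) = S := (us_sum_tri g).symm
  have e2 : ∑ x, ∑ y, ∑ z, (if x < z ∧ z < y then g x y z else 0) = S := by
    rw [← e1]
    refine Finset.sum_congr rfl fun x _ => ?_
    rw [Finset.sum_comm]
    refine Finset.sum_congr rfl fun y _ => Finset.sum_congr rfl fun z _ => ?_
    rw [hxzy]
  have e3 : ∑ x, ∑ y, ∑ z, (if y < x ∧ x < z then g x y z else 0) = S := by
    rw [← e1, Finset.sum_comm]
    refine Finset.sum_congr rfl fun x _ => Finset.sum_congr rfl fun y _ =>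
      Finset.sum_congr rfl fun z _ => ?_
    rw [hs]
  have e4 : ∑ x, ∑ y, ∑ z, (if y < z ∧ z < x then g x y z else 0) = S := by
    rw [← e1, Finset.sum_comm]
    refine Finset.sum_congr rfl fun x _ => ?_
    rw [Finset.sum_comm]
    refine Finset.sum_congr rfl fun y _ => Finset.sum_congr rfl fun z _ => ?_
    rw [hzxy]
  have e5 : ∑ x, ∑ y, ∑ z, (if z < x ∧ x < y then g x y z else 0) = S := by
    have h : ∑ x, ∑ y, ∑ z, (if z < x ∧ x < y then g x y z else 0) =
        ∑ x, ∑ z, ∑ y, (if z < x ∧ x < y then g x y z else 0) :=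
      Finset.sum_congr rfl fun x _ => Finset.sum_comm
    rw [h, Finset.sum_comm, ← e1]
    refine Finset.sum_congr rfl fun x _ => Finset.sum_congr rfl fun y _ =>
      Finset.sum_congr rfl fun z _ => ?_
    rw [hr]
  have e6 : ∑ x, ∑ y, ∑ z, (if z < y ∧ y < x then g x y z else 0) = S := by
    have h : ∑ x, ∑ y, ∑ z, (if z < y ∧ y < x then g x y z else 0) =
        ∑ x, ∑ z, ∑ y, (if z < y ∧ y < x then g x y z else 0) :=
      Finset.sum_congr rfl fun x _ => Finset.sum_comm
    rw [h, Finset.sum_comm, ← e1]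
    refine Finset.sum_congr rfl fun x _ => ?_
    rw [Finset.sum_comm]
    refine Finset.sum_congr rfl fun y _ => Finset.sum_congr rfl fun z _ => ?_
    rw [hzyx]
  have hpt : ∀ x y z, (if x < y ∧ y < z then g x y z else 0) + (if x < z ∧ z < y then g x y z else 0)
      + (if y < x ∧ x < z then g x y z else 0) + (if y < z ∧ z < x then g x y z else 0)
      + (if z < x ∧ x < y then g x y z else 0) + (if z < y ∧ y < x then g x y z else 0)
      ≤ g x y z := by
    intro x y z
    rcases lt_trichotomy x y with h1 | h1 | h1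
    · rcases lt_trichotomy y z with h2 | h2 | h2
      · have h3 := h1.trans h2
        simp [h1, h2, h3, h1.not_gt, h2.not_gt, h3.not_gt]
      · subst h2
        simp [h1, h1.not_gt]
        rw [hzxy]
        exact h0 _ _
      · rcases lt_trichotomy x z with h3 | h3 | h3
        · simp [h1, h2, h3, h1.not_gt, h2.not_gt, h3.not_gt]
        · subst h3
          simp [h1, h1.not_gt]
          rw [hxzy]
          exact h0 _ _
        · simp [h1, h2, h3, h1.not_gt, h2.not_gt, h3.not_gt]
    · subst h1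
      have := h0 x z
      by_cases h2 : x < z
      · simp [h2, h2.not_gt, this]
      · simp [h2, this]
    · rcases lt_trichotomy x z with h2 | h2 | h2
      · have h3 := h1.trans h2
        simp [h1, h2, h3, h1.not_gt, h2.not_gt, h3.not_gt]
      · subst h2
        simp [h1, h1.not_gt]
        rw [hxzy]
        exact h0 _ _
      · rcases lt_trichotomy y z with h3 | h3 | h3
        · simp [h1, h2, h3, h1.not_gt, h2.not_gt, h3.not_gt]
        · subst h3
          simp [h1, h1.not_gt]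
          rw [hzxy]
          exact h0 _ _
        · simp [h1, h2, h3, h1.not_gt, h2.not_gt, h3.not_gt]
  have hsum : ∑ x, ∑ y, ∑ z, ((if x < y ∧ y < z then g x y z else 0) + (if x < z ∧ z < y then g x y z else 0)
      + (if y < x ∧ x < z then g x y z else 0) + (if y < z ∧ z < x then g x y z else 0)
      + (if z < x ∧ x < y then g x y z else 0) + (if z < y ∧ y < x then g x y z else 0)) = 6 * S := by
    simp only [Finset.sum_add_distrib]
    rw [e1, e2, e3, e4, e5, e6]
    ring
  rw [← hsum]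
  exact Finset.sum_le_sum fun x _ => Finset.sum_le_sum fun y _ => Finset.sum_le_sum fun z _ =>
    hpt x y z

/-- number of triangles -/
private theorem us_card_tri (n : ℕ) (hn : 3 ≤ n) :
    6 * (Fintype.card (Tri n) : ℝ) ≤ (n : ℝ) * (n - 1) * (n - 2) := by
  have h := us_six (n := n) (fun x y z => if x ≠ y ∧ y ≠ z ∧ x ≠ z then 1 else 0)
    (fun x y z => by
      refine if_congr ?_ rfl rfl
      constructor <;> · rintro ⟨h1, h2, h3⟩; exact ⟨h1.symm, h3, h2⟩)
    (fun x y z => by
      refine if_congr ?_ rfl rfl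
      constructor
      · rintro ⟨h1, h2, h3⟩; exact ⟨h3.symm, h1, h2.symm⟩
      · rintro ⟨h1, h2, h3⟩; exact ⟨h2, h3.symm, h1.symm⟩)
    (fun x z => by simp)
  have h1 : ∑ t : Tri n, (if t.a ≠ t.b ∧ t.b ≠ t.c ∧ t.a ≠ t.c then (1 : ℝ) else 0) =
      Fintype.card (Tri n) := by
    rw [Finset.sum_congr rfl (g := fun _ => (1 : ℝ)), Finset.sum_const, Finset.card_univ,
      nsmul_eq_mul, mul_one]
    intro t _
    exact if_pos ⟨t.2.1.ne, t.2.2.ne, (t.2.1.trans t.2.2).ne⟩
  have h2 : ∑ x : Fin n, ∑ y : Fin n, ∑ z : Fin n,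
      (if x ≠ y ∧ y ≠ z ∧ x ≠ z then (1 : ℝ) else 0) = (n : ℝ) * (n - 1) * (n - 2) := by
    have h3 : ∀ x y z : Fin n, (if x ≠ y ∧ y ≠ z ∧ x ≠ z then (1 : ℝ) else 0) =
        (1 - if y = x then 1 else 0) * (1 - (if z = x then 1 else 0) - (if z = y then 1 else 0)) := by
      intro x y z
      by_cases hxy : y = x
      · subst hxy
        simp
      · by_cases hzx : z = x
        · subst hzx
          simp [Ne.symm hxy]
        · by_cases hzy : z = y
          · subst hzy
            simp [hxy]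
          · simp [hxy, hzx, hzy, Ne.symm hxy, Ne.symm hzx, Ne.symm hzy]
    simp only [h3, ← Finset.mul_sum, Finset.sum_sub_distrib, Finset.sum_const, Finset.card_univ,
      Fintype.card_fin, nsmul_eq_mul, mul_one, Finset.sum_ite_eq', Finset.mem_univ, if_true,
      ← Finset.sum_mul]
    ring
  rw [h1, h2] at h
  exact h

theorem dens_le {n : ℕ} (hn : 3 ≤ n) (G : Type) [AddCommGroup G] [Fintype G] [DecidableEq G]
    (f : Coch n G) (hf : AllUnif f) : dens f ≤ 1 + 5 * Fintype.card G * kap n := by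
  classical
  have hn3 : (3 : ℝ) ≤ n := by exact_mod_cast hn
  have hn0 : (0 : ℝ) < n := by linarith
  have hκ : 0 ≤ kap n := Real.rpow_nonneg hn0.le _
  have hq : (0 : ℝ) ≤ Fintype.card G := by positivity
  -- orthogonality
  have horth : ∀ a : G, ∑ χ : AddChar G ℂ, (χ a).re =
      if a = 0 then (Fintype.card G : ℝ) else 0 := by
    intro a
    have h := congrArg Complex.re (AddChar.sum_apply_eq_ite a)
    rw [Complex.re_sum] at h
    rw [h]
    split_ifs <;> simp
  have hZ : (Fintype.card G : ℝ) * (Z f).card =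
      ∑ χ : AddChar G ℂ, ∑ t : Tri n, (χ (curT f t)).re := by
    rw [Finset.sum_comm, Finset.sum_congr rfl fun t _ => horth (curT f t), ← Finset.sum_filter,
      Finset.sum_const, nsmul_eq_mul, mul_comm]
    rfl
  -- bound for the nontrivial characters
  have hχ : ∀ χ : AddChar G ℂ, χ ≠ 1 →
      ∑ t : Tri n, (χ (curT f t)).re ≤ (n : ℝ) ^ 3 * kap n / 6 := by
    intro χ hχ
    have h6 := us_six (fun x y z => (χ (cur f x y z)).re)
      (fun x y z => by rw [us_cur_swap, us_re_neg]) (fun x y z => by rw [us_cur_rot])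
      (fun x z => by rw [us_cur_self]; simp)
    have hτ : ∑ x, ∑ y, ∑ z, (χ (cur f x y z)).re = (n : ℝ) ^ 3 * tau χ f := by
      unfold tau
      have h3 : ((n : ℂ) ^ 3) = (((n : ℝ) ^ 3 : ℝ) : ℂ) := by push_cast; rfl
      rw [h3, Complex.div_ofReal_re]
      simp only [Complex.re_sum]
      rw [mul_div_cancel₀ _ (by positivity)]
    have hle : tau χ f ≤ kap n := (le_abs_self _).trans (hf χ hχ)
    rw [hτ] at h6
    have h7 : (n : ℝ) ^ 3 * tau χ f ≤ (n : ℝ) ^ 3 * kap n :=
      mul_le_mul_of_nonneg_left hle (by positivity)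
    have h8 : ∑ t : Tri n, (χ (curT f t)).re = ∑ t : Tri n, (χ (cur f t.a t.b t.c)).re := rfl
    rw [h8]
    linarith
  have h1 : ∑ t : Tri n, ((1 : AddChar G ℂ) (curT f t)).re = Fintype.card (Tri n) := by
    simp
  have hsum : (Fintype.card G : ℝ) * (Z f).card ≤
      Fintype.card (Tri n) + Fintype.card G * ((n : ℝ) ^ 3 * kap n / 6) := by
    rw [hZ, ← Finset.add_sum_erase _ _ (Finset.mem_univ (1 : AddChar G ℂ)), h1]
    refine add_le_add le_rfl ?_
    calc ∑ χ ∈ (univ : Finset (AddChar G ℂ)).erase 1, ∑ t : Tri n, (χ (curT f t)).re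
        ≤ ∑ χ ∈ (univ : Finset (AddChar G ℂ)).erase 1, (n : ℝ) ^ 3 * kap n / 6 :=
          Finset.sum_le_sum fun χ h => hχ χ (Finset.ne_of_mem_erase h)
      _ = ((univ : Finset (AddChar G ℂ)).erase 1).card * ((n : ℝ) ^ 3 * kap n / 6) := by
          rw [Finset.sum_const, nsmul_eq_mul]
      _ ≤ Fintype.card G * ((n : ℝ) ^ 3 * kap n / 6) := by
          refine mul_le_mul_of_nonneg_right ?_ (by positivity)
          have h2 : ((univ : Finset (AddChar G ℂ)).erase 1).card ≤ Fintype.card G := by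
            refine (Finset.card_le_card (Finset.erase_subset _ _)).trans ?_
            rw [Finset.card_univ, AddChar.card_eq]
          exact_mod_cast h2
  have hC : 6 * (n.choose 3 : ℝ) = (n : ℝ) * (n - 1) * (n - 2) := by
    have h2 : n.descFactorial 3 = 6 * n.choose 3 := Nat.descFactorial_eq_factorial_mul_choose n 3
    have h3 : n.descFactorial 3 = (n - 2) * ((n - 1) * n) := by
      simp [Nat.descFactorial]
    have h4 : (6 * n.choose 3 : ℕ) = (n - 2) * ((n - 1) * n) := h2.symm.trans h3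
    have h5 : ((6 * n.choose 3 : ℕ) : ℝ) = (((n - 2) * ((n - 1) * n) : ℕ) : ℝ) := by rw [h4]
    push_cast [Nat.cast_sub (show 2 ≤ n by omega), Nat.cast_sub (show 1 ≤ n by omega)] at h5
    linarith
  have hcpos : (0 : ℝ) < (n.choose 3 : ℝ) := by exact_mod_cast Nat.choose_pos hn
  have htri := us_card_tri n hn
  unfold dens
  rw [div_le_iff₀ hcpos]
  have hpoly : (n : ℝ) ^ 3 ≤ 5 * (6 * (n.choose 3 : ℝ)) := by
    rw [hC]
    nlinarith [mul_nonneg hn0.le (by nlinarith : (0 : ℝ) ≤ 4 * (n : ℝ) ^ 2 - 15 * n + 10)]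
  have hfin : (Fintype.card G : ℝ) * ((n : ℝ) ^ 3 * kap n / 6) ≤
      5 * Fintype.card G * kap n * (n.choose 3 : ℝ) := by
    have := mul_le_mul_of_nonneg_left hpoly (mul_nonneg hq hκ)
    nlinarith
  have htri' : (Fintype.card (Tri n) : ℝ) ≤ (n.choose 3 : ℝ) := by linarith
  linarith

/-- `0 ≤ θ ≤ 1` -/
private lemma us_th_bounds {n : ℕ} (hn : 5 ≤ n) : 0 ≤ th n ∧ th n ≤ 1 ∧ (0 : ℝ) < NN n := by
  have h1 : (n : ℝ) ≤ (NN n : ℝ) + 1 := by
    have h1 : n ≤ NN n + 1 := by
      rw [NN]
      have h2 : n - 1 ≤ (n - 1).choose 2 := by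
        rw [Nat.choose_two_right, Nat.le_div_iff_mul_le (by norm_num)]
        exact Nat.mul_le_mul_left _ (by omega)
      omega
    exact_mod_cast h1
  have hn' : (5 : ℝ) ≤ n := by exact_mod_cast hn
  have hN : (0 : ℝ) < NN n := by linarith
  have ht : 0 ≤ tt n := Real.rpow_nonneg (Nat.cast_nonneg _) _
  refine ⟨?_, ?_, hN⟩
  · rw [th, sub_nonneg, div_le_one hN]
    have h2 : tt n ≤ (n : ℝ) ^ (1 / 2 : ℝ) := by
      rw [tt]
      apply Real.rpow_le_rpow_of_exponent_le (by linarith)
      norm_num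
    have h3 : (n : ℝ) ^ (1 / 2 : ℝ) ≤ n - 1 := by
      rw [← Real.sqrt_eq_rpow]
      apply Real.sqrt_le_iff.2
      constructor
      · linarith
      · nlinarith
    linarith
  · rw [th]
    have : 0 ≤ tt n / NN n := div_nonneg ht hN.le
    linarith

open Classical in
theorem unif_sum (G : Type) [AddCommGroup G] [Fintype G] [DecidableEq G] :
    ∀ ε : ℝ, 0 < ε → ∀ᶠ n : ℕ in atTop,
      (∑ f ∈ univ.filter (fun f : Coch n G => AllUnif f), w f) / (Fintype.card G : ℝ) ^ (n - 1)
        ≤ (1 + ε) * Mth n G (th n) := by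
  intro ε hε
  set q : ℝ := (Fintype.card G : ℝ) with hq
  have hq0 : 0 < q := by
    rw [hq]
    exact_mod_cast Fintype.card_pos
  -- `exp (5 q n^{-1/100}) → 1`
  have hlim : Tendsto (fun n : ℕ => Real.exp (5 * q * (n : ℝ) ^ (-(1 / 100) : ℝ))) atTop (𝓝 1) := by
    have h1 : Tendsto (fun n : ℕ => (n : ℝ) ^ (-(1 / 100) : ℝ)) atTop (𝓝 0) :=
      (tendsto_rpow_neg_atTop (by norm_num)).comp tendsto_natCast_atTop_atTop
    have h2 := h1.const_mul (5 * q)
    rw [mul_zero] at h2
    have h3 := (Real.continuous_exp.tendsto _).comp h2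
    rw [Real.exp_zero] at h3
    exact h3
  filter_upwards [hlim.eventually_lt_const (u := 1 + ε) (by linarith), eventually_ge_atTop 5]
    with n hn hn5
  obtain ⟨h0, h1, hN⟩ := us_th_bounds hn5
  have hn0 : (0 : ℝ) < n := by exact_mod_cast (by omega : 0 < n)
  have hn3 : 3 ≤ n := by omega
  have hκ : 0 ≤ kap n := Real.rpow_nonneg hn0.le _
  have htt : 0 ≤ tt n := Real.rpow_nonneg hn0.le _
  have hexp : (NN n : ℝ) * (1 - th n) = tt n := by
    rw [th, sub_sub_cancel, mul_div_cancel₀ _ hN.ne']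
  have hpt : ∀ f : Coch n G, AllUnif f → w f ≤ (1 + ε) * wth (th n) f := by
    intro f hf
    have h2 := w_le_smooth hn3 f h0 h1
    rw [hexp] at h2
    have hd0 : 0 ≤ dens f := by unfold dens; positivity
    have hd1 := dens_le hn3 G f hf
    have h3 : dens f ^ tt n ≤ 1 + ε := by
      calc dens f ^ tt n ≤ (1 + 5 * Fintype.card G * kap n) ^ tt n :=
            Real.rpow_le_rpow hd0 hd1 htt
        _ ≤ (Real.exp (5 * Fintype.card G * kap n)) ^ tt n := by
            refine Real.rpow_le_rpow (by positivity) ?_ htt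
            have := Real.add_one_le_exp (5 * Fintype.card G * kap n : ℝ)
            linarith
        _ = Real.exp (5 * q * (n : ℝ) ^ (-(1 / 100) : ℝ)) := by
            have h4 : kap n * tt n = (n : ℝ) ^ (-(1 / 100) : ℝ) := by
              rw [kap, tt, ← Real.rpow_add hn0]
              norm_num
            rw [← Real.exp_mul, mul_assoc, h4]
        _ ≤ 1 + ε := hn.le
    have hw0 := wth_nonneg f h0 h1
    calc w f ≤ wth (th n) f * dens f ^ tt n := h2
      _ ≤ wth (th n) f * (1 + ε) := mul_le_mul_of_nonneg_left h3 hw0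
      _ = (1 + ε) * wth (th n) f := mul_comm _ _
  rw [div_le_iff₀ (by positivity)]
  calc ∑ f ∈ univ.filter (fun f : Coch n G => AllUnif f), w f
      ≤ ∑ f ∈ univ.filter (fun f : Coch n G => AllUnif f), (1 + ε) * wth (th n) f :=
        Finset.sum_le_sum fun f hf => hpt f (Finset.mem_filter.1 hf).2
    _ ≤ ∑ f : Coch n G, (1 + ε) * wth (th n) f :=
        Finset.sum_le_sum_of_subset_of_nonneg (Finset.filter_subset _ _)
          fun f _ _ => mul_nonneg (by linarith) (wth_nonneg f h0 h1)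
    _ = (1 + ε) * (q ^ (n - 1) * Mth n G (th n)) := by
        rw [← Finset.mul_sum, sum_wth hn3 h0 h1]
    _ = (1 + ε) * Mth n G (th n) * q ^ (n - 1) := by ring

end

end Pool.Agent.DH10
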