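import Pool.Agent.DH10.CountIneq
import Pool.Agent.DH10.UnifSum
import Pool.Agent.DH10.SmallSum
import Pool.Agent.DH10.NearPush
import Pool.Agent.DH10.HomCount
import Pool.Agent.DH10.Mid4

/-!
# DH10.Boot : bounded moments for `F_p^l` (5.3)

`K = F_p^l = Fin l → ZMod p`, `q = p^l` (odd).  `C` from `near_push` for `K`.  For `S ∈ cand n` put
`A(S) = {g ∈ C¹(F_p) : S ⊆ Z g, Sm C g}`, `U(S) = {F ∈ C¹(K) : S ⊆ Z F, AllUnif F or some χ is Mid}`.  If `S ⊆ Z F` and
`F ∉ U(S)`, some `χ ≠ 1` is not uniform and not mid, so it is near and `near_push` gives `ψ` with `push ψ F ∈ A(S)`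
(`Z_push`).  `count_ineq`:  `#{F : S ⊆ Z F} ≤ 2 |U(S)| + (2p^l)^l |A(S)|^l`, and
`|A(S)|^l ≤ #{F ∈ C¹(K) : S ⊆ Z F, Sm (l C) F}` (`sm_pi`; the tuple of `l` elements of `A(S)` is a cochain `F` with values in
`K`).  Multiply by `W S`, sum over `S` (`w F = ∑_{S ⊆ Z F} W S`), divide by `q^{n-1}`:
`Mth n K 1 ≤ 2 (∑_{AllUnif} w)/q^{n-1} + 2 (∑_{∃ mid} w)/q^{n-1} + (2p^l)^l (∑_{Sm} w)/q^{n-1}`
 (`homMom_eq_Mth`).  The first sum is `≤ (1+ε) Mth n K (th n) ≤ (1+ε)(1 + ε + e^{-n^{1/200}} Mth n K 1)` (`unif_sum`,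
`Mth_one_le`), the second tends to `0` (`mid_sum`, `w_le_Phi`), the third is at most `1 + o(1)`
(`cob_sum`, `small_sum`).  So for large `n`: `M ≤ 6 + M/2 + 2 (2p^l)^l`, say.
-/

set_option autoImplicit false

open Finset Filter Topology

namespace Pool.Agent.DH10

noncomputable section

private theorem boot_swap {n : ℕ} {G : Type} [AddCommGroup G] [DecidableEq G]
    (P : Finset (Coch n G)) :
    ∑ f ∈ P, w f = ∑ S ∈ cand n, W S * ((P.filter fun f => S ⊆ Z f).card : ℝ) := by
  have h1 : ∀ f : Coch n G, w f = ∑ S ∈ cand n, (if S ⊆ Z f then W S else 0) := by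
    intro f
    unfold w
    rw [sum_filter]
  rw [sum_congr rfl (fun f _ => h1 f), sum_comm]
  apply sum_congr rfl
  intro S _
  rw [← sum_filter, sum_const, nsmul_eq_mul, mul_comm]

private theorem boot_isP (p : ℕ) [Fact p.Prime] (l : ℕ) : IsP p (Fin l → ZMod p) := by
  intro a
  refine ⟨1, ?_⟩
  funext i
  rw [pow_one, Pi.smul_apply, nsmul_eq_mul, ZMod.natCast_self, zero_mul]
  rfl

/-- tuples of small cochains are small -/
private theorem boot_tuple {n : ℕ} (p : ℕ) [Fact p.Prime] (l : ℕ) (C : ℝ) (S : Finset (Tri n))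
    (A : Finset (Coch n (ZMod p))) (hA : ∀ g ∈ A, S ⊆ Z g ∧ Sm C g)
    (B : Finset (Coch n (Fin l → ZMod p)))
    (hB : ∀ F : Coch n (Fin l → ZMod p), S ⊆ Z F → Sm (l * C) F → F ∈ B) :
    A.card ^ l ≤ B.card := by
  have h1 : (Fintype.piFinset (fun _ : Fin l => A)).card = A.card ^ l := by
    rw [Fintype.card_piFinset_const]
  rw [← h1]
  apply card_le_card_of_injOn (fun g => fun e i => g i e)
  · intro g hg
    have hg' : ∀ i, g i ∈ A := fun i => (Fintype.mem_piFinset.mp hg) i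
    have hpush : ∀ i, push (Pi.evalAddMonoidHom (fun _ : Fin l => ZMod p) i)
        (fun e i => g i e) = g i := by
      intro i
      funext e
      rfl
    apply hB
    · intro t ht
      unfold Z
      rw [mem_filter]
      refine ⟨mem_univ _, ?_⟩
      funext i
      have h2 := cur_push (Pi.evalAddMonoidHom (fun _ : Fin l => ZMod p) i)
        (fun e i => g i e : Coch n (Fin l → ZMod p)) t.a t.b t.c
      rw [hpush i] at h2
      have h3 : t ∈ Z (g i) := (hA _ (hg' i)).1 ht
      unfold Z at h3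
      have h4 := (mem_filter.mp h3).2
      unfold curT at h4 ⊢
      rw [h4] at h2
      exact h2.symm
    · apply sm_pi
      intro i
      rw [hpush i]
      exact (hA _ (hg' i)).2
  · intro g _ g' _ h
    funext i
    funext e
    exact congrFun (congrFun h e) i

open Classical in
/-- the main inequality -/
private theorem boot_main {n : ℕ} (p : ℕ) [Fact p.Prime] (l : ℕ) (C : ℝ)
    (hC : ∀ (f : Coch n (Fin l → ZMod p)) (χ : AddChar (Fin l → ZMod p) ℂ), χ ≠ 1 → Near χ f →
      ∃ ψ : (Fin l → ZMod p) →+ ZMod p, Function.Surjective ψ ∧ Sm C (push ψ f)) :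
    (∑ f : Coch n (Fin l → ZMod p), w f)
      ≤ 2 * ((∑ f ∈ univ.filter (fun f : Coch n (Fin l → ZMod p) => AllUnif f), w f)
          + ∑ f ∈ univ.filter (fun f : Coch n (Fin l → ZMod p) =>
            ∃ χ : AddChar (Fin l → ZMod p) ℂ, Mid χ f), w f)
        + (2 * (p : ℝ) ^ l) ^ l *
          ((∑ f ∈ univ.filter (fun f : Coch n (Fin l → ZMod p) => IsCob f), w f)
          + ∑ f ∈ univ.filter (fun f : Coch n (Fin l → ZMod p) => Sm (l * C) f ∧ ¬ IsCob f), w f) := by
  have hstep : ∀ S ∈ cand n, W S * (((univ : Finset (Coch n (Fin l → ZMod p))).filter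
      fun f => S ⊆ Z f).card : ℝ)
      ≤ 2 * (W S * (((univ.filter (fun f : Coch n (Fin l → ZMod p) => AllUnif f)).filter
          fun f => S ⊆ Z f).card : ℝ)
        + W S * (((univ.filter (fun f : Coch n (Fin l → ZMod p) =>
            ∃ χ : AddChar (Fin l → ZMod p) ℂ, Mid χ f)).filter fun f => S ⊆ Z f).card : ℝ))
        + (2 * (p : ℝ) ^ l) ^ l *
          (W S * (((univ.filter (fun f : Coch n (Fin l → ZMod p) => IsCob f)).filter
            fun f => S ⊆ Z f).card : ℝ)
          + W S * (((univ.filter (fun f : Coch n (Fin l → ZMod p) =>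
            Sm (l * C) f ∧ ¬ IsCob f)).filter fun f => S ⊆ Z f).card : ℝ)) := by
    intro S _
    set U : Finset (Coch n (Fin l → ZMod p)) :=
      ((univ.filter (fun f : Coch n (Fin l → ZMod p) => AllUnif f)).filter fun f => S ⊆ Z f)
      ∪ ((univ.filter (fun f : Coch n (Fin l → ZMod p) =>
            ∃ χ : AddChar (Fin l → ZMod p) ℂ, Mid χ f)).filter fun f => S ⊆ Z f) with hUdef
    set A : Finset (Coch n (ZMod p)) :=
      univ.filter (fun g : Coch n (ZMod p) => S ⊆ Z g ∧ Sm C g) with hAdef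
    set B : Finset (Coch n (Fin l → ZMod p)) :=
      ((univ.filter (fun f : Coch n (Fin l → ZMod p) => IsCob f)).filter fun f => S ⊆ Z f)
      ∪ ((univ.filter (fun f : Coch n (Fin l → ZMod p) =>
            Sm (l * C) f ∧ ¬ IsCob f)).filter fun f => S ⊆ Z f) with hBdef
    have h1 : (univ.filter fun F : Coch n (Fin l → ZMod p) => S ⊆ Z F).card
        ≤ 2 * U.card + (2 * p ^ l) ^ l * A.card ^ l := by
      apply count_ineq p l S A U
      intro F hF hFU
      have hnU : ¬ AllUnif F := by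
        intro h
        apply hFU
        rw [hUdef, mem_union]
        left
        rw [mem_filter, mem_filter]
        exact ⟨⟨mem_univ _, h⟩, hF⟩
      have hnM : ¬ ∃ χ : AddChar (Fin l → ZMod p) ℂ, Mid χ F := by
        intro h
        apply hFU
        rw [hUdef, mem_union]
        right
        rw [mem_filter, mem_filter]
        exact ⟨⟨mem_univ _, h⟩, hF⟩
      unfold AllUnif at hnU
      push Not at hnU
      obtain ⟨χ, hχ, hχU⟩ := hnU
      have hnear : Near χ F := by
        by_contra hcon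
        exact hnM ⟨χ, hχU, hcon⟩
      obtain ⟨ψ, hψ, hsm⟩ := hC F χ hχ hnear
      refine ⟨ψ, hψ, ?_⟩
      rw [hAdef, mem_filter]
      exact ⟨mem_univ _, hF.trans (Z_push ψ F), hsm⟩
    have h2 : A.card ^ l ≤ B.card := by
      apply boot_tuple p l C S A
      · intro g hg
        exact (mem_filter.mp hg).2
      · intro F hF hsm
        rw [hBdef, mem_union, mem_filter, mem_filter, mem_filter, mem_filter]
        by_cases hcob : IsCob F
        · left
          exact ⟨⟨mem_univ _, hcob⟩, hF⟩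
        · right
          exact ⟨⟨mem_univ _, hsm, hcob⟩, hF⟩
    have h3 : U.card ≤ ((univ.filter (fun f : Coch n (Fin l → ZMod p) => AllUnif f)).filter
        fun f => S ⊆ Z f).card
        + ((univ.filter (fun f : Coch n (Fin l → ZMod p) =>
            ∃ χ : AddChar (Fin l → ZMod p) ℂ, Mid χ f)).filter fun f => S ⊆ Z f).card :=
      card_union_le _ _
    have h4 : B.card ≤ ((univ.filter (fun f : Coch n (Fin l → ZMod p) => IsCob f)).filter
        fun f => S ⊆ Z f).card
        + ((univ.filter (fun f : Coch n (Fin l → ZMod p) =>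
            Sm (l * C) f ∧ ¬ IsCob f)).filter fun f => S ⊆ Z f).card :=
      card_union_le _ _
    have h1' : (((univ.filter fun F : Coch n (Fin l → ZMod p) => S ⊆ Z F).card : ℕ) : ℝ)
        ≤ 2 * U.card + (2 * (p : ℝ) ^ l) ^ l * (A.card : ℝ) ^ l := by
      exact_mod_cast h1
    have h2' : (A.card : ℝ) ^ l ≤ B.card := by exact_mod_cast h2
    have h3' : (U.card : ℝ) ≤ (((univ.filter (fun f : Coch n (Fin l → ZMod p) =>
        AllUnif f)).filter fun f => S ⊆ Z f).card : ℝ)
        + (((univ.filter (fun f : Coch n (Fin l → ZMod p) =>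
            ∃ χ : AddChar (Fin l → ZMod p) ℂ, Mid χ f)).filter fun f => S ⊆ Z f).card : ℝ) := by
      exact_mod_cast h3
    have h4' : (B.card : ℝ) ≤ (((univ.filter (fun f : Coch n (Fin l → ZMod p) =>
        IsCob f)).filter fun f => S ⊆ Z f).card : ℝ)
        + (((univ.filter (fun f : Coch n (Fin l → ZMod p) =>
            Sm (l * C) f ∧ ¬ IsCob f)).filter fun f => S ⊆ Z f).card : ℝ) := by
      exact_mod_cast h4
    have hW := W_nonneg S
    have hc : (0 : ℝ) ≤ (2 * (p : ℝ) ^ l) ^ l := by positivity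
    have h5 := mul_le_mul_of_nonneg_left h1' hW
    have h6 : W S * (2 * U.card + (2 * (p : ℝ) ^ l) ^ l * (A.card : ℝ) ^ l)
        ≤ W S * (2 * ((((univ.filter (fun f : Coch n (Fin l → ZMod p) =>
        AllUnif f)).filter fun f => S ⊆ Z f).card : ℝ)
        + (((univ.filter (fun f : Coch n (Fin l → ZMod p) =>
            ∃ χ : AddChar (Fin l → ZMod p) ℂ, Mid χ f)).filter fun f => S ⊆ Z f).card : ℝ))
          + (2 * (p : ℝ) ^ l) ^ l * ((((univ.filter (fun f : Coch n (Fin l → ZMod p) =>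
        IsCob f)).filter fun f => S ⊆ Z f).card : ℝ)
        + (((univ.filter (fun f : Coch n (Fin l → ZMod p) =>
            Sm (l * C) f ∧ ¬ IsCob f)).filter fun f => S ⊆ Z f).card : ℝ))) := by
      apply mul_le_mul_of_nonneg_left _ hW
      apply add_le_add
      · exact mul_le_mul_of_nonneg_left h3' (by norm_num)
      · exact mul_le_mul_of_nonneg_left (h2'.trans h4') hc
    refine (h5.trans h6).trans (le_of_eq ?_)
    ring
  rw [boot_swap, boot_swap, boot_swap, boot_swap, boot_swap]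
  refine (sum_le_sum hstep).trans (le_of_eq ?_)
  rw [sum_add_distrib, ← mul_sum, ← mul_sum, sum_add_distrib, sum_add_distrib]

theorem mom_fp_bdd (p : ℕ) [Fact p.Prime] (hp : p ≠ 2) (l : ℕ) :
    ∃ B : ℝ, ∀ᶠ n : ℕ in atTop, Mth n (Fin l → ZMod p) 1 ≤ B := by
  classical
  obtain ⟨C, hC⟩ := near_push p (Fin l → ZMod p) (boot_isP p l)
  have hodd : Odd (Fintype.card (Fin l → ZMod p)) := by
    rw [Fintype.card_fun, ZMod.card, Fintype.card_fin]
    exact ((Fact.out : p.Prime).odd_of_ne_two hp).pow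
  refine ⟨20 + 4 * (2 * (p : ℝ) ^ l) ^ l, ?_⟩
  have e1 := unif_sum (Fin l → ZMod p) 1 one_pos
  have e2 := Mth_one_le (Fin l → ZMod p) 1 one_pos
  have e3 := mid_sum (Fin l → ZMod p)
  have e4 := (small_sum (Fin l → ZMod p) hodd (l * C)).eventually (gt_mem_nhds one_pos)
  have e5 : ∀ᶠ n : ℕ in atTop, Real.exp (-(n : ℝ) ^ (1 / 200 : ℝ)) ≤ 1 / 8 := by
    have h1 : Tendsto (fun n : ℕ => Real.exp (-(n : ℝ) ^ (1 / 200 : ℝ))) atTop (𝓝 0) := by
      apply Real.tendsto_exp_atBot.comp
      apply tendsto_neg_atTop_atBot.comp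
      exact (tendsto_rpow_atTop (by norm_num)).comp tendsto_natCast_atTop_atTop
    filter_upwards [h1.eventually (gt_mem_nhds (show (0 : ℝ) < 1 / 8 by norm_num))] with n hn
    exact hn.le
  filter_upwards [e1, e2, e3, e4, e5, eventually_ge_atTop 3] with n h1 h2 h3 h4 h5 hn
  have hq : (0 : ℝ) < (Fintype.card (Fin l → ZMod p) : ℝ) ^ (n - 1) := by
    have : (0 : ℝ) < (Fintype.card (Fin l → ZMod p) : ℝ) := by
      exact_mod_cast Fintype.card_pos
    positivity
  have hq1 : (1 : ℝ) ≤ (Fintype.card (Fin l → ZMod p) : ℝ) ^ (n - 1) := by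
    apply one_le_pow₀
    exact_mod_cast Fintype.card_pos
  have hmain := boot_main p l C (fun f χ hχ hnear => hC n (by omega) f χ hχ hnear)
  rw [homMom_eq_Mth hn] at hmain
  have hM0 : 0 ≤ Mth n (Fin l → ZMod p) 1 := by
    have h6 : 0 ≤ (Fintype.card (Fin l → ZMod p) : ℝ) ^ (n - 1) * Mth n (Fin l → ZMod p) 1 := by
      rw [← homMom_eq_Mth hn]
      exact sum_nonneg (fun f _ => w_nonneg f)
    exact nonneg_of_mul_nonneg_right h6 hq
  rw [div_le_iff₀ hq] at h1
  rw [div_lt_iff₀ hq] at h4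
  have hcob := cob_sum hn (Fin l → ZMod p)
  have hmid : ∑ f ∈ univ.filter (fun f : Coch n (Fin l → ZMod p) =>
      ∃ χ : AddChar (Fin l → ZMod p) ℂ, Mid χ f), w f ≤ 1 := by
    refine (sum_le_sum (fun f _ => w_le_Phi hn f)).trans (h3.trans ?_)
    rw [Real.exp_le_one_iff]
    have : (0 : ℝ) ≤ (n : ℝ) ^ (18 / 10 : ℝ) := by positivity
    linarith
  set Q : ℝ := (Fintype.card (Fin l → ZMod p) : ℝ) ^ (n - 1) with hQ
  set M : ℝ := Mth n (Fin l → ZMod p) 1 with hM
  set Mt : ℝ := Mth n (Fin l → ZMod p) (th n) with hMt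
  set E : ℝ := Real.exp (-(n : ℝ) ^ (1 / 200 : ℝ)) with hE
  set c : ℝ := (2 * (p : ℝ) ^ l) ^ l with hc
  have hc0 : 0 ≤ c := by
    rw [hc]
    positivity
  have hEM : E * M ≤ 1 / 8 * M := mul_le_mul_of_nonneg_right h5 hM0
  have k1 : Q * M ≤ 2 * ((1 + 1) * Mt * Q + 1) + c * (Q + 1 * Q) := by
    refine hmain.trans ?_
    apply add_le_add
    · apply mul_le_mul_of_nonneg_left _ (by norm_num)
      exact add_le_add h1 hmid
    · apply mul_le_mul_of_nonneg_left _ hc0
      exact add_le_add hcob h4.le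
  have k2 : Q * M ≤ Q * (2 * ((1 + 1) * Mt + 1) + c * 2) := by
    refine k1.trans ?_
    nlinarith
  have k3 : M ≤ 2 * ((1 + 1) * Mt + 1) + c * 2 := le_of_mul_le_mul_left k2 hq
  linarith

end

end Pool.Agent.DH10
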