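import Pool.Agent.DH10.Defs

/-!
# DH10.CardH1 : `|H_1(S)|² = det (B_S B_Sᵀ)` (1.2)(a)

`B_S` = boundary matrix with rows the edges not containing the last vertex `n-1`, columns the triangles in `S`,
`|S| = C(n-1,2)` = number of such edges.
Proof.  Let `r` be the last vertex.  Restriction to the non-star edges is an isomorphism
`ρ : ker bd1 → (NSE n → ℤ)` (given values on the non-star edges the value on the star edge `{v,r}` is forced by the
vertex condition at `v`, and then the condition at `r` holds since the sum over all vertices of `bd1 c` is `0`).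
It maps `range (bd2 S)` onto the range of `B_S : (S → ℤ) → (NSE n → ℤ)`.  So `H1 S ≃ (NSE n → ℤ) / B_S(ℤ^S)`,
a quotient of `ℤ^N` by the column span of a square integer matrix: its cardinality is `|det|` if `det ≠ 0`, and it is
infinite (`Nat.card = 0`) if `det = 0` (Mathlib: `Submodule.natAbs_det_equiv`, `Int.natAbs_det_equiv`,
or Smith normal form `Submodule.quotientEquivDirectSum`...; for `det = 0` the span has smaller rank and the quotient has
an element of infinite order / positive rank).  With a bijection `S ≃ NSE n`, `det (B Bᵀ) = det(B)²`.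
-/

set_option autoImplicit false

open Finset

namespace Pool.Agent.DH10

noncomputable section

variable {n : ℕ}

/-- edges not containing the last vertex -/
abbrev NSE (n : ℕ) := {e : Edg n // (e.1.2 : ℕ) ≠ n - 1}

/-- boundary matrix restricted to the edges not containing the last vertex -/
def Bm (S : Finset (Tri n)) : Matrix (NSE n) S ℤ := Matrix.of fun e t => D2 e.1 t.1

private def chEquiv (n : ℕ) : NSE n ≃ Σ b : Fin (n - 1), Fin b where
  toFun e := ⟨⟨e.1.1.2, by have h1 := e.1.1.2.2; have h2 := e.2; omega⟩, ⟨e.1.1.1, e.1.2⟩⟩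
  invFun x := ⟨⟨(⟨x.2, by have h1 := x.2.2; have h2 := x.1.2; omega⟩,
    ⟨x.1, by have h1 := x.1.2; omega⟩), x.2.2⟩, by have h1 := x.1.2; exact h1.ne⟩
  left_inv e := rfl
  right_inv x := rfl

/-- number of these edges -/
theorem card_NSE (n : ℕ) : Fintype.card (NSE n) = NN n := by
  rw [Fintype.card_congr (chEquiv n), Fintype.card_sigma]
  simp only [Fintype.card_fin]
  rw [Fin.sum_univ_eq_sum_range (fun i => i) (n - 1), Finset.sum_range_id, NN, Nat.choose_two_right]

private lemma ch_sum_D1 (e : Edg n) : ∑ v, D1 v e = 0 := by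
  simp [D1, Finset.sum_sub_distrib]

private lemma ch_bd1_apply (f : Edg n → ℤ) (v : Fin n) : bd1 n f v = ∑ e, D1 v e * f e := by
  simp [bd1, Matrix.mulVec, dotProduct]

private lemma ch_sum_bd1 (f : Edg n → ℤ) : ∑ v, bd1 n f v = 0 := by
  simp only [ch_bd1_apply]
  rw [Finset.sum_comm]
  apply Finset.sum_eq_zero
  intro e _
  rw [← Finset.sum_mul, ch_sum_D1, zero_mul]

private lemma ch_bd1_bd2 (S : Finset (Tri n)) (c : S → ℤ) : bd1 n (bd2 S c) = 0 := by
  funext v
  rw [ch_bd1_apply]
  have e1 : ∀ e, bd2 S c e = ∑ t, D2 e t.1 * c t := by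
    intro e
    simp [bd2, Matrix.mulVec, dotProduct]
  simp only [e1, Finset.mul_sum]
  rw [Finset.sum_comm]
  apply Finset.sum_eq_zero
  intro t _
  have e2 : ∑ e, D1 v e * (D2 e t.1 * c t) = (∑ e, D1 v e * D2 e t.1) * c t := by
    rw [Finset.sum_mul]
    apply Finset.sum_congr rfl
    intro e _
    ring
  rw [e2]
  have e3 : ∑ e, D1 v e * D2 e t.1 = 0 := by
    simp only [D2, mul_sub, mul_add, mul_ite, mul_one, mul_zero, Finset.sum_sub_distrib,
      Finset.sum_add_distrib, Finset.sum_ite_eq', Finset.mem_univ, if_true, Finset.sum_ite_eq]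
    simp only [D1, Tri.ab, Tri.bc, Tri.ac]
    ring
  rw [e3, zero_mul]

/-- restriction to the edges not containing the last vertex -/
private def chRes (n : ℕ) : ↥(LinearMap.ker (bd1 n)) →ₗ[ℤ] (NSE n → ℤ) :=
  (LinearMap.funLeft ℤ ℤ (Subtype.val : NSE n → Edg n)) ∘ₗ (LinearMap.ker (bd1 n)).subtype

private lemma chRes_apply (f : ↥(LinearMap.ker (bd1 n))) (e : NSE n) : chRes n f e = f.1 e.1 := rfl

private lemma ch_star (e e' : Edg n) (he : ¬ ((e.1.2 : ℕ) ≠ n - 1)) (he' : ¬ ((e'.1.2 : ℕ) ≠ n - 1)) :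
    D1 e.1.1 e' = if e' = e then -1 else 0 := by
  have h1 : (e.1.1 : ℕ) < e.1.2 := e.2
  have h2 : (e'.1.1 : ℕ) < e'.1.2 := e'.2
  have h3 : e'.1.2 = e.1.2 := Fin.ext (by omega)
  have h4 : e.1.1 ≠ e'.1.2 := by
    intro h
    have := congrArg Fin.val h
    omega
  rw [D1, if_neg h4]
  by_cases h5 : e' = e
  · rw [if_pos (by rw [h5]), if_pos h5]
    ring
  · rw [if_neg h5, if_neg]
    · ring
    · intro h6
      apply h5
      apply Subtype.ext
      exact Prod.ext h6.symm h3

private lemma chRes_inj : Function.Injective (chRes n) := by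
  rw [← LinearMap.ker_eq_bot, LinearMap.ker_eq_bot']
  intro f hf
  apply Subtype.ext
  funext e
  have hz : ∀ e' : NSE n, f.1 e'.1 = 0 := fun e' => by
    rw [← chRes_apply, hf]
    rfl
  by_cases he : (e.1.2 : ℕ) ≠ n - 1
  · exact hz ⟨e, he⟩
  · have h1 : bd1 n f.1 e.1.1 = 0 := by
      have := f.2
      rw [LinearMap.mem_ker] at this
      rw [this]
      rfl
    rw [ch_bd1_apply, Finset.sum_eq_single e] at h1
    · rw [ch_star e e he he, if_pos rfl] at h1
      show f.1 e = 0
      linarith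
    · intro e' _ hne
      by_cases he' : (e'.1.2 : ℕ) ≠ n - 1
      · rw [hz ⟨e', he'⟩, mul_zero]
      · rw [ch_star e e' he he', if_neg hne, zero_mul]
    · intro h
      exact absurd (Finset.mem_univ _) h

private def chExt (g : NSE n → ℤ) : Edg n → ℤ := fun e =>
  if h : (e.1.2 : ℕ) ≠ n - 1 then g ⟨e, h⟩ else ∑ e' : NSE n, D1 e.1.1 e'.1 * g e'

private lemma chExt_nse (g : NSE n → ℤ) (e : NSE n) : chExt g e.1 = g e := by
  rw [chExt, dif_pos e.2]

private lemma chExt_ker (hn : 1 ≤ n) (g : NSE n → ℤ) : bd1 n (chExt g) = 0 := by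
  have hmain : ∀ v : Fin n, (v : ℕ) ≠ n - 1 → bd1 n (chExt g) v = 0 := by
    intro v hv
    have hlt : v < (⟨n - 1, by omega⟩ : Fin n) := by
      show (v : ℕ) < n - 1
      have := v.2
      omega
    set e₀ : Edg n := ⟨(v, ⟨n - 1, by omega⟩), hlt⟩ with he₀
    have hs₀ : ¬ ((e₀.1.2 : ℕ) ≠ n - 1) := by simp [he₀]
    rw [ch_bd1_apply, ← Fintype.sum_subtype_add_sum_subtype (fun e : Edg n => (e.1.2 : ℕ) ≠ n - 1)]
    have h1 : ∑ e : NSE n, D1 v e.1 * chExt g e.1 = ∑ e : NSE n, D1 v e.1 * g e := by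
      apply Finset.sum_congr rfl
      intro e _
      rw [chExt_nse]
    have h2 : ∑ e : {e : Edg n // ¬ ((e.1.2 : ℕ) ≠ n - 1)}, D1 v e.1 * chExt g e.1 =
        - ∑ e : NSE n, D1 v e.1 * g e := by
      rw [Finset.sum_eq_single ⟨e₀, hs₀⟩]
      · have h3 : D1 v e₀ = -1 := by
          have := ch_star e₀ e₀ hs₀ hs₀
          rwa [if_pos rfl] at this
        have h4 : chExt g e₀ = ∑ e' : NSE n, D1 v e'.1 * g e' := by
          rw [chExt, dif_neg hs₀]
        simp only
        rw [h3, h4]
        ring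
      · intro e _ hne
        have h3 : D1 v e.1 = 0 := by
          have := ch_star e₀ e.1 hs₀ e.2
          rwa [if_neg (fun h => hne (Subtype.ext h))] at this
        rw [h3, zero_mul]
      · intro h
        exact absurd (Finset.mem_univ _) h
    rw [h1, h2]
    ring
  funext v
  by_cases hv : (v : ℕ) ≠ n - 1
  · exact hmain v hv
  · have h1 := ch_sum_bd1 (chExt g)
    rw [Finset.sum_eq_single v] at h1
    · exact h1
    · intro w _ hw
      apply hmain
      intro h
      apply hw
      apply Fin.ext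
      omega
    · intro h
      exact absurd (Finset.mem_univ _) h

private lemma chRes_bij (hn : 1 ≤ n) : Function.Bijective (chRes n) :=
  ⟨chRes_inj, fun g => ⟨⟨chExt g, LinearMap.mem_ker.2 (chExt_ker hn g)⟩, by
    funext e
    rw [chRes_apply]
    exact chExt_nse g e⟩⟩

private lemma ch_card_quot (hn : 1 ≤ n) (S : Finset (Tri n)) :
    Nat.card (H1 S) = Nat.card ((NSE n → ℤ) ⧸ LinearMap.range (Matrix.mulVecLin (Bm S))) := by
  let f : ↥(LinearMap.ker (bd1 n)) ≃ₗ[ℤ] (NSE n → ℤ) := LinearEquiv.ofBijective (chRes n) (chRes_bij hn)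
  have hres : ∀ c : S → ℤ, chRes n ⟨bd2 S c, LinearMap.mem_ker.2 (ch_bd1_bd2 S c)⟩ =
      Matrix.mulVecLin (Bm S) c := by
    intro c
    funext e
    rw [chRes_apply]
    rfl
  apply Nat.card_congr
  refine (Submodule.Quotient.equiv _ _ f ?_).toEquiv
  ext g
  constructor
  · rintro ⟨x, hx, rfl⟩
    have hx' : x.1 ∈ LinearMap.range (bd2 S) := hx
    obtain ⟨c, hc⟩ := hx'
    refine ⟨c, ?_⟩
    rw [← hres]
    show chRes n _ = chRes n x
    congr 1
    exact Subtype.ext hc
  · rintro ⟨c, rfl⟩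
    refine ⟨⟨bd2 S c, LinearMap.mem_ker.2 (ch_bd1_bd2 S c)⟩, ⟨c, rfl⟩, ?_⟩
    rw [← hres]
    rfl

private lemma ch_det {κ : Type} [Fintype κ] [DecidableEq κ] (B : Matrix κ κ ℤ) :
    Nat.card ((κ → ℤ) ⧸ LinearMap.range (Matrix.mulVecLin B)) = B.det.natAbs := by
  by_cases hB : B.det = 0
  · rw [hB, Int.natAbs_zero]
    by_contra hne
    set c := Nat.card ((κ → ℤ) ⧸ LinearMap.range (Matrix.mulVecLin B)) with hc
    have h1 : ∀ x : κ → ℤ, ∃ y : κ → ℤ, Matrix.mulVecLin B y = (c : ℤ) • x := by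
      intro x
      have h2 : c • (Submodule.Quotient.mk x : (κ → ℤ) ⧸ LinearMap.range (Matrix.mulVecLin B)) = 0 :=
        card_nsmul_eq_zero'
      rw [← Submodule.Quotient.mk_smul, Submodule.Quotient.mk_eq_zero] at h2
      obtain ⟨y, hy⟩ := h2
      exact ⟨y, by rw [hy, natCast_zsmul]⟩
    choose Y hY using fun i : κ => h1 (Pi.single i 1)
    have h3 : B * (Matrix.of fun i j => Y j i) = (c : ℤ) • (1 : Matrix κ κ ℤ) := by
      ext i j
      have h4 := congrFun (hY j) i
      rw [Matrix.mul_apply, Matrix.smul_apply, Matrix.one_apply]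
      simp only [Matrix.mulVecLin_apply, Matrix.mulVec, dotProduct, Pi.smul_apply, Pi.single_apply,
        smul_eq_mul] at h4
      simp only [Matrix.of_apply, smul_eq_mul]
      exact h4
    have h5 := congrArg Matrix.det h3
    rw [Matrix.det_mul, hB, zero_mul, Matrix.det_smul, Matrix.det_one, mul_one] at h5
    have h6 : (c : ℤ) ^ Fintype.card κ ≠ 0 := pow_ne_zero _ (by exact_mod_cast hne)
    exact h6 h5.symm
  · have hinj : Function.Injective (Matrix.mulVecLin B) := by
      rw [← LinearMap.ker_eq_bot, LinearMap.ker_eq_bot']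
      intro x hx
      exact Matrix.eq_zero_of_mulVec_eq_zero hB hx
    let e : (κ → ℤ) ≃ₗ[ℤ] LinearMap.range (Matrix.mulVecLin B) :=
      LinearEquiv.ofInjective (Matrix.mulVecLin B) hinj
    have h1 := Submodule.natAbs_det_equiv (LinearMap.range (Matrix.mulVecLin B)) e
    rw [← h1]
    congr 1
    have h2 : ((LinearMap.range (Matrix.mulVecLin B)).subtype ∘ₗ
        AddMonoidHom.toIntLinearMap (e : (κ → ℤ) →+ LinearMap.range (Matrix.mulVecLin B))) =
        Matrix.toLin' B := by
      ext x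
      rfl
    rw [h2, LinearMap.det_toLin']

theorem card_H1_sq (S : Finset (Tri n)) (hn : 1 ≤ n) (hS : S.card = NN n) :
    ((Nat.card (H1 S) : ℤ)) ^ 2 = (Bm S * (Bm S).transpose).det := by
  have hcard : Fintype.card S = Fintype.card (NSE n) := by
    rw [card_NSE, Fintype.card_coe, hS]
  let σ : S ≃ NSE n := Fintype.equivOfCardEq hcard
  let B' : Matrix (NSE n) (NSE n) ℤ := (Bm S).submatrix id σ.symm
  have hB : Bm S * (Bm S).transpose = B' * B'.transpose := by
    show _ = (Bm S).submatrix id σ.symm * ((Bm S).submatrix id σ.symm).transpose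
    rw [Matrix.transpose_submatrix, Matrix.submatrix_mul_equiv]
    rfl
  have hr : LinearMap.range (Matrix.mulVecLin (Bm S)) = LinearMap.range (Matrix.mulVecLin B') := by
    ext g
    constructor
    · rintro ⟨c, rfl⟩
      refine ⟨fun i => c (σ.symm i), ?_⟩
      funext e
      simp only [Matrix.mulVecLin_apply, Matrix.mulVec, dotProduct, B', Matrix.submatrix_apply, id]
      exact Equiv.sum_comp σ.symm (fun t => Bm S e t * c t)
    · rintro ⟨c, rfl⟩
      refine ⟨fun i => c (σ i), ?_⟩
      funext e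
      simp only [Matrix.mulVecLin_apply, Matrix.mulVec, dotProduct, B', Matrix.submatrix_apply, id]
      rw [← Equiv.sum_comp σ.symm (fun t => Bm S e t * c (σ t))]
      simp
  rw [hB, Matrix.det_mul, Matrix.det_transpose, ch_card_quot hn, hr, ch_det, Int.natCast_natAbs, sq_abs,
    sq]

end

end Pool.Agent.DH10
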