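import Mathlib

/-!
# DH10.SpecIneq : three determinant inequalities proved through eigenvalues (pure linear algebra)

All three follow from `Matrix.IsHermitian.det_eq_prod_eigenvalues`, `Matrix.IsHermitian.trace_eq_sum_eigenvalues`
and scalar inequalities for the (real) eigenvalues `x_i`.  Note that `X`, `θ X + (1-θ) 1`, `1 + X`, `1 - X` are
simultaneously diagonalised by the eigenvector unitary of `X` (spectral theorem), so
`det (θ X + (1-θ) 1) = ∏ (θ x_i + 1 - θ)` etc.; alternatively evaluate the characteristic polynomial of `X`.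

* `det_smooth`: `θ x + (1-θ) ≥ x^θ` (weighted AM-GM, `x ≥ 0`), so `∏ (θ x_i + 1-θ) ≥ (∏ x_i)^θ`; and
  `∏ x_i = (∏ x_i)^θ (∏ x_i)^(1-θ)`, `∏ x_i ≤ ((∑ x_i)/N)^N` (AM-GM).
* `det_one_add_lower`: `∑_{ij} Y_ij² = ∑ y_i²  ≤ 1/4` so `|y_i| ≤ 1/2` and `log (1+y) ≥ y - y²` for `y ≥ -1/2`.
* `det_one_sub_lower`: eigenvalues in `[0, 1-c]`; by convexity of `-log(1-x)` (or monotonicity of `-log(1-x)/x`)
  `-log(1-x) ≤ x * (-log c)/(1-c)` on `[0,1-c]`.
-/

set_option autoImplicit false

open Finset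

namespace Pool.Agent.DH10

variable {ι : Type*} [Fintype ι] [DecidableEq ι]

/-! ### spectral lemmas -/

theorem spi_spec {X : Matrix ι ι ℝ} (hX : X.IsHermitian) :
    X = (hX.eigenvectorUnitary : Matrix ι ι ℝ) * Matrix.diagonal hX.eigenvalues *
      star (hX.eigenvectorUnitary : Matrix ι ι ℝ) := by
  have h := hX.spectral_theorem
  rw [Unitary.conjStarAlgAut_apply] at h
  exact h

theorem spi_uu {X : Matrix ι ι ℝ} (hX : X.IsHermitian) :
    (hX.eigenvectorUnitary : Matrix ι ι ℝ) * star (hX.eigenvectorUnitary : Matrix ι ι ℝ) = 1 :=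
  Unitary.coe_mul_star_self _

theorem spi_uu' {X : Matrix ι ι ℝ} (hX : X.IsHermitian) :
    star (hX.eigenvectorUnitary : Matrix ι ι ℝ) * (hX.eigenvectorUnitary : Matrix ι ι ℝ) = 1 :=
  Unitary.coe_star_mul_self _

theorem spi_det {X : Matrix ι ι ℝ} (hX : X.IsHermitian) (a b : ℝ) :
    (a • X + b • (1 : Matrix ι ι ℝ)).det = ∏ i, (a * hX.eigenvalues i + b) := by
  set U : Matrix ι ι ℝ := (hX.eigenvectorUnitary : Matrix ι ι ℝ) with hU
  have h1 : a • X + b • (1 : Matrix ι ι ℝ) =
      U * Matrix.diagonal (fun i => a * hX.eigenvalues i + b) * star U := by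
    have h2 : Matrix.diagonal (fun i => a * hX.eigenvalues i + b) =
        a • Matrix.diagonal hX.eigenvalues + b • (1 : Matrix ι ι ℝ) := by
      ext i j
      by_cases h : i = j
      · subst h
        simp
      · simp [h]
    rw [h2, Matrix.mul_add, Matrix.add_mul, Matrix.mul_smul, Matrix.smul_mul, Matrix.mul_smul,
      Matrix.smul_mul, Matrix.mul_one, spi_uu hX, ← spi_spec hX]
  have h3 : U.det * (star U).det = 1 := by
    rw [← Matrix.det_mul, spi_uu hX, Matrix.det_one]
  rw [h1, Matrix.det_mul, Matrix.det_mul, Matrix.det_diagonal]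
  linear_combination (∏ i, (a * hX.eigenvalues i + b)) * h3

theorem spi_trace {X : Matrix ι ι ℝ} (hX : X.IsHermitian) : X.trace = ∑ i, hX.eigenvalues i := by
  have h := hX.trace_eq_sum_eigenvalues
  simpa using h

theorem spi_sq {X : Matrix ι ι ℝ} (hX : X.IsHermitian) :
    ∑ i, ∑ j, X i j ^ 2 = ∑ i, hX.eigenvalues i ^ 2 := by
  set U : Matrix ι ι ℝ := (hX.eigenvectorUnitary : Matrix ι ι ℝ) with hU
  have h1 : ∑ i, ∑ j, X i j ^ 2 = (X * X).trace := by
    rw [Matrix.trace]
    refine Finset.sum_congr rfl fun i _ => ?_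
    rw [Matrix.diag_apply, Matrix.mul_apply]
    refine Finset.sum_congr rfl fun j _ => ?_
    have h2 : X j i = X i j := by
      have := hX.apply i j
      simpa using this
    rw [h2, sq]
  have h3 : X * X = U * Matrix.diagonal (fun i => hX.eigenvalues i ^ 2) * star U := by
    have h4 : X * X = (U * Matrix.diagonal hX.eigenvalues * star U) *
        (U * Matrix.diagonal hX.eigenvalues * star U) := by
      conv_lhs => rw [spi_spec hX]
    rw [h4]
    have h5 : (U * Matrix.diagonal hX.eigenvalues * star U) *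
        (U * Matrix.diagonal hX.eigenvalues * star U) =
        U * (Matrix.diagonal hX.eigenvalues * (star U * U) * Matrix.diagonal hX.eigenvalues) *
          star U := by
      simp only [Matrix.mul_assoc]
    rw [h5, spi_uu' hX, Matrix.mul_one, Matrix.diagonal_mul_diagonal]
    congr 2
    ext i j
    by_cases h : i = j
    · subst h
      simp [sq]
    · simp [h]
  rw [h1, h3, Matrix.trace_mul_comm, ← Matrix.mul_assoc, spi_uu' hX, Matrix.one_mul,
    Matrix.trace_diagonal]

/-! ### scalar inequalities -/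

theorem spi_log_lower {y : ℝ} (hy : -(1 / 2) ≤ y) : Real.exp (y - y ^ 2) ≤ 1 + y := by
  have h1 : 0 < 1 + y := by linarith
  rw [← Real.le_log_iff_exp_le h1]
  rcases le_total 0 y with h | h
  · have h2 := Real.one_sub_inv_le_log_of_pos h1
    refine le_trans ?_ h2
    rw [← sub_nonneg]
    have h3 : 1 - (1 + y)⁻¹ - (y - y ^ 2) = y ^ 3 / (1 + y) := by
      field_simp
      ring
    rw [h3]
    positivity
  · have hD : ∀ x ∈ Set.Icc (-(1 / 2) : ℝ) 0,
        HasDerivAt (fun x : ℝ => Real.log (1 + x) - x + x ^ 2) ((1 + x)⁻¹ - 1 + 2 * x) x := by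
      intro x hx
      have hx1 : (1 + x) ≠ 0 := by linarith [hx.1]
      have d1 : HasDerivAt (fun x : ℝ => Real.log (1 + x)) ((1 + x)⁻¹) x := by
        have := ((hasDerivAt_id x).const_add 1).log hx1
        simpa using this
      have d2 : HasDerivAt (fun x : ℝ => x ^ 2) (2 * x) x := by
        simpa using hasDerivAt_pow 2 x
      exact (d1.sub (hasDerivAt_id x)).add d2
    have hanti : AntitoneOn (fun x : ℝ => Real.log (1 + x) - x + x ^ 2)
        (Set.Icc (-(1 / 2) : ℝ) 0) := by
      refine antitoneOn_of_deriv_nonpos (convex_Icc _ _)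
        (fun x hx => (hD x hx).continuousAt.continuousWithinAt)
        (fun x hx => (hD x (interior_subset hx)).differentiableAt.differentiableWithinAt)
        (fun x hx => ?_)
      have hx' := interior_subset hx
      rw [(hD x hx').deriv]
      have hx1 : 0 < 1 + x := by linarith [hx'.1]
      have he : (1 + x)⁻¹ - 1 + 2 * x = x * (1 + 2 * x) / (1 + x) := by
        field_simp
        ring
      rw [he]
      refine div_nonpos_of_nonpos_of_nonneg ?_ hx1.le
      exact mul_nonpos_of_nonpos_of_nonneg hx'.2 (by linarith [hx'.1])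
    have h2 := hanti (show y ∈ Set.Icc (-(1 / 2) : ℝ) 0 from ⟨hy, h⟩)
      (show (0 : ℝ) ∈ Set.Icc (-(1 / 2) : ℝ) 0 from ⟨by norm_num, le_rfl⟩) h
    simp at h2
    linarith

theorem spi_neg_log {c x : ℝ} (hc : 0 < c) (hc1 : c < 1) (h0 : 0 ≤ x) (h1 : x ≤ 1 - c) :
    Real.exp (-((-Real.log c) / (1 - c)) * x) ≤ 1 - x := by
  have h2 : 0 < 1 - x := by linarith
  have h3 : 0 < 1 - c := by linarith
  rw [← Real.le_log_iff_exp_le h2]
  have hcc := strictConcaveOn_log_Ioi.concaveOn
  have ha : 0 ≤ x / (1 - c) := by positivity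
  have hb : 0 ≤ 1 - x / (1 - c) := by rw [sub_nonneg, div_le_one h3]; exact h1
  have hcv := hcc.2 (show c ∈ Set.Ioi (0 : ℝ) from hc) (show (1 : ℝ) ∈ Set.Ioi (0 : ℝ) from Set.mem_Ioi.2 one_pos)
    ha hb (by ring)
  have he : (x / (1 - c)) • c + (1 - x / (1 - c)) • (1 : ℝ) = 1 - x := by
    simp only [smul_eq_mul]
    field_simp
    ring
  rw [he] at hcv
  simp only [smul_eq_mul, Real.log_one, mul_zero, add_zero] at hcv
  refine le_trans (le_of_eq ?_) hcv
  field_simp

/-! ### the statements -/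

/-- smoothing inequality (1.6) -/
theorem det_smooth {X : Matrix ι ι ℝ} (hX : X.PosSemidef) {θ : ℝ} (h0 : 0 ≤ θ) (h1 : θ ≤ 1) :
    X.det ≤ (θ • X + (1 - θ) • (1 : Matrix ι ι ℝ)).det *
      (X.trace / Fintype.card ι) ^ ((Fintype.card ι : ℝ) * (1 - θ)) := by
  set x := hX.1.eigenvalues with hx
  have hx0 : ∀ i, 0 ≤ x i := fun i => hX.eigenvalues_nonneg i
  have hdet : X.det = ∏ i, x i := by
    have := hX.1.det_eq_prod_eigenvalues
    simpa using this
  rw [spi_det hX.1, spi_trace hX.1, hdet]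
  have hP0 : 0 ≤ ∏ i, x i := Finset.prod_nonneg fun i _ => hx0 i
  have hA : (∏ i, x i) ^ θ ≤ ∏ i, (θ * x i + (1 - θ)) := by
    rw [← Real.finsetProd_rpow _ _ fun i _ => hx0 i]
    refine Finset.prod_le_prod (fun i _ => Real.rpow_nonneg (hx0 i) _) fun i _ => ?_
    have := Real.geom_mean_le_arith_mean2_weighted h0 (by linarith : 0 ≤ 1 - θ) (hx0 i)
      (zero_le_one' ℝ) (by ring)
    simpa using this
  have hB : ∏ i, x i ≤ ((∑ i, x i) / Fintype.card ι) ^ ((Fintype.card ι : ℝ)) := by
    rcases isEmpty_or_nonempty ι with hE | hE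
    · simp
    · have hN : (0 : ℝ) < Fintype.card ι := by exact_mod_cast Fintype.card_pos
      have h3 := Real.geom_mean_le_arith_mean_weighted Finset.univ
        (fun _ : ι => 1 / (Fintype.card ι : ℝ)) x (fun i _ => by positivity)
        (by simp) (fun i _ => hx0 i)
      have h4 : ∏ i, x i ^ (1 / (Fintype.card ι : ℝ)) = (∏ i, x i) ^ (1 / (Fintype.card ι : ℝ)) :=
        Real.finsetProd_rpow _ _ (fun i _ => hx0 i) _
      rw [h4, ← Finset.mul_sum] at h3
      have h5 := Real.rpow_le_rpow (Real.rpow_nonneg hP0 _) h3 hN.le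
      rw [← Real.rpow_mul hP0, one_div_mul_cancel hN.ne', Real.rpow_one] at h5
      refine h5.trans (le_of_eq ?_)
      congr 1
      ring
  rcases eq_or_lt_of_le h0 with h | hθ
  · subst h
    simpa using hB
  rcases eq_or_lt_of_le h1 with h | hθ1
  · subst h
    simp [hx]
  have hsplit : ∏ i, x i = (∏ i, x i) ^ θ * (∏ i, x i) ^ (1 - θ) := by
    rcases hP0.eq_or_lt with h | h
    · rw [← h, Real.zero_rpow hθ.ne', zero_mul]
    · rw [← Real.rpow_add h]
      simp
  rw [hsplit]
  have hS0 : 0 ≤ (∑ i, x i) / (Fintype.card ι : ℝ) :=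
    div_nonneg (Finset.sum_nonneg fun i _ => hx0 i) (Nat.cast_nonneg _)
  refine mul_le_mul hA ?_ (Real.rpow_nonneg hP0 _) ((Real.rpow_nonneg hP0 _).trans hA)
  rw [Real.rpow_mul hS0]
  exact Real.rpow_le_rpow hP0 hB (by linarith)

/-- lower bound for `det (1 + Y)` for small symmetric `Y` (6.5) -/
theorem det_one_add_lower {Y : Matrix ι ι ℝ} (hY : Y.transpose = Y)
    (hF : ∑ i, ∑ j, Y i j ^ 2 ≤ 1 / 4) :
    Real.exp (Y.trace - ∑ i, ∑ j, Y i j ^ 2) ≤ ((1 : Matrix ι ι ℝ) + Y).det := by
  have hH : Y.IsHermitian := by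
    rw [Matrix.IsHermitian, Matrix.conjTranspose_eq_transpose_of_trivial, hY]
  have hd := spi_det hH 1 1
  rw [one_smul, one_smul, add_comm] at hd
  rw [hd, spi_trace hH, spi_sq hH, ← Finset.sum_sub_distrib, Real.exp_sum]
  rw [spi_sq hH] at hF
  refine Finset.prod_le_prod (fun i _ => (Real.exp_pos _).le) fun i _ => ?_
  have h1 : hH.eigenvalues i ^ 2 ≤ 1 / 4 :=
    (Finset.single_le_sum (f := fun i => hH.eigenvalues i ^ 2) (fun i _ => sq_nonneg _)
      (Finset.mem_univ i)).trans hF
  have h2 : -(1 / 2) ≤ hH.eigenvalues i := by nlinarith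
  refine (spi_log_lower h2).trans (le_of_eq ?_)
  ring

/-- lower bound for `det (1 - X)`, `0 ≤ X ≤ 1 - c` (4.1) -/
theorem det_one_sub_lower {X : Matrix ι ι ℝ} (hX : X.PosSemidef) {c : ℝ} (hc : 0 < c) (hc1 : c < 1)
    (h : ((1 - c) • (1 : Matrix ι ι ℝ) - X).PosSemidef) :
    Real.exp (-((-Real.log c) / (1 - c)) * X.trace) ≤ ((1 : Matrix ι ι ℝ) - X).det := by
  have hd := spi_det hX.1 (-1) 1
  have he : (-1 : ℝ) • X + (1 : ℝ) • (1 : Matrix ι ι ℝ) = 1 - X := by
    rw [one_smul, neg_smul, one_smul]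
    abel
  rw [he] at hd
  rw [hd, spi_trace hX.1, Finset.mul_sum, Real.exp_sum]
  refine Finset.prod_le_prod (fun i _ => (Real.exp_pos _).le) fun i _ => ?_
  have h0 := hX.eigenvalues_nonneg i
  have h1 : hX.1.eigenvalues i ≤ 1 - c := by
    set U : Matrix ι ι ℝ := (hX.1.eigenvectorUnitary : Matrix ι ι ℝ) with hU
    have hv := h.conjTranspose_mul_mul_same U
    have hstar : U.conjTranspose = star U := rfl
    have hm : U.conjTranspose * ((1 - c) • (1 : Matrix ι ι ℝ) - X) * U =
        Matrix.diagonal (fun i => (1 - c) - hX.1.eigenvalues i) := by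
      rw [hstar, Matrix.mul_sub, Matrix.sub_mul, Matrix.mul_smul, Matrix.smul_mul, Matrix.mul_one,
        spi_uu' hX.1]
      have h5 : star U * X * U = Matrix.diagonal hX.1.eigenvalues := by
        conv_lhs => rw [spi_spec hX.1]
        have h6 : star U * (U * Matrix.diagonal hX.1.eigenvalues * star U) * U =
            (star U * U) * Matrix.diagonal hX.1.eigenvalues * (star U * U) := by
          simp only [Matrix.mul_assoc]
        rw [h6, spi_uu' hX.1, Matrix.one_mul, Matrix.mul_one]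
      rw [h5]
      ext a b
      by_cases hab : a = b
      · subst hab
        simp
      · simp [hab]
    rw [hm, Matrix.posSemidef_diagonal_iff] at hv
    have := hv i
    linarith
  refine (spi_neg_log hc hc1 h0 h1).trans (le_of_eq ?_)
  ring

end Pool.Agent.DH10
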