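import Pool.Agent.DH10.Basic1
import Pool.Agent.DH10.SpecIneq

/-!
# DH10.Smooth : the smoothing inequality (1.6)

`wth θ f = det Mx(x)`, `x_t = θ 1[t ∈ Z f] + (1-θ)/q`, and `w f ≤ wth θ f (1+eta f)^{N(1-θ)}`, `1 + eta f = q |Z f| / C(n,3)`.
Proof.  Let `O` be an `N × E` real matrix with orthonormal rows spanning the orthogonal complement of the range of `d`
(`rank d = n-1`, `|E| - (n-1) = N = C(n-1,2)`; e.g. from an orthonormal basis, or the spectral theorem for
`d dᵀ`, whose eigenvalues are `n` (n-1 times) and `0` since `(d dᵀ)² = n d dᵀ`).  For every `x`: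
`det Mx(x) = det (O (1/n) D diag(x) Dᵀ Oᵀ)`, because `Mx(x) d = d` (`d dᵀ d = n d`, `Dᵀ d = 0`) and `Mx(x)` maps the complement
to itself: in an orthonormal basis adapted to `range d ⊕ complement` it is block diagonal `1 ⊕ O(..)Oᵀ`.
Put `X = (q/n) O D diag(1_Z) Dᵀ Oᵀ` (PSD, size `N`).  `O D Dᵀ Oᵀ = n` (1.1), so `w f = q^{-N} det X`,
`wth θ f = q^{-N} det (θ X + (1-θ) 1)`, `tr X = (q/n) ∑_{t ∈ Z} |D t|² = 3 q |Z|/n` (`D t` is orthogonal to the range of
`d`) and `N n = 3 C(n,3)`, so `tr X / N = 1 + eta f`.  Apply `det_smooth`.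
-/

set_option autoImplicit false

open Finset

namespace Pool.Agent.DH10

noncomputable section

variable {n : ℕ} {G : Type} [AddCommGroup G] [Fintype G] [DecidableEq G]

/-- smoothed weight -/
def wth (θ : ℝ) (f : Coch n G) : ℝ :=
  (Mx (fun t => θ * (if t ∈ Z f then (1 : ℝ) else 0) + (1 - θ) / (Fintype.card G : ℝ))).det

/-- `q |Z f| / C(n,3)` -/
def dens (f : Coch n G) : ℝ := (Fintype.card G : ℝ) * (Z f).card / (n.choose 3 : ℝ)

/-- factorisation of an orthogonal projection of rank `N` -/
theorem proj_factor {ι : Type*} [Fintype ι] [DecidableEq ι] {P : Matrix ι ι ℝ}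
    (hP : P.transpose = P) (hPP : P * P = P) {N : ℕ} (hN : P.trace = N) :
    ∃ O : Matrix (Fin N) ι ℝ, O * O.transpose = 1 ∧ O.transpose * O = P := by
  have hH : P.IsHermitian := by
    rw [Matrix.IsHermitian, Matrix.conjTranspose_eq_transpose_of_trivial, hP]
  set U : Matrix ι ι ℝ := (hH.eigenvectorUnitary : Matrix ι ι ℝ) with hU
  set l : ι → ℝ := hH.eigenvalues with hl
  have hspec : P = U * Matrix.diagonal l * star U := spi_spec hH
  have hUU' : star U * U = 1 := spi_uu' hH
  have hstar : star U = U.transpose := by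
    rw [Matrix.star_eq_conjTranspose, Matrix.conjTranspose_eq_transpose_of_trivial]
  have hdiag : star U * P * U = Matrix.diagonal l := by
    rw [hspec]
    have : star U * (U * Matrix.diagonal l * star U) * U
        = (star U * U) * Matrix.diagonal l * (star U * U) := by
      simp only [Matrix.mul_assoc]
    rw [this, hUU', Matrix.one_mul, Matrix.mul_one]
  have hUU : U * star U = 1 := spi_uu hH
  have hsq : Matrix.diagonal l * Matrix.diagonal l = Matrix.diagonal l := by
    have h1 : Matrix.diagonal l * Matrix.diagonal l = star U * (P * P) * U := by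
      rw [← hdiag]
      have : star U * P * U * (star U * P * U) = star U * P * (U * star U) * P * U := by
        simp only [Matrix.mul_assoc]
      rw [this, hUU, Matrix.mul_one]
      simp only [Matrix.mul_assoc]
    rw [h1, hPP, hdiag]
  have hl01 : ∀ i, l i = 0 ∨ l i = 1 := by
    intro i
    have h1 := congrFun (congrFun hsq i) i
    rw [Matrix.diagonal_mul_diagonal, Matrix.diagonal_apply_eq, Matrix.diagonal_apply_eq] at h1
    have h2 : l i * (l i - 1) = 0 := by linarith
    rcases mul_eq_zero.1 h2 with h | h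
    · exact Or.inl h
    · exact Or.inr (by linarith)
  have hcard : Fintype.card {i // l i = 1} = N := by
    have h1 : P.trace = ∑ i, l i := spi_trace hH
    have h2 : ∑ i, l i = (Finset.univ.filter fun i => l i = 1).card := by
      rw [Finset.card_filter, Nat.cast_sum]
      refine Finset.sum_congr rfl fun i _ => ?_
      rcases hl01 i with h | h
      · rw [h]; simp
      · rw [h]; simp
    rw [Fintype.card_subtype]
    rw [h1, h2] at hN
    exact_mod_cast hN
  obtain ⟨e⟩ : Nonempty (Fin N ≃ {i // l i = 1}) :=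
    ⟨(Fintype.equivFinOfCardEq hcard).symm⟩
  refine ⟨Matrix.of fun k j => U j (e k).1, ?_, ?_⟩
  · ext a b
    rw [Matrix.mul_apply]
    have h1 := congrFun (congrFun hUU' (e a).1) (e b).1
    rw [Matrix.mul_apply, hstar] at h1
    simp only [Matrix.transpose_apply] at h1
    simp only [Matrix.of_apply, Matrix.transpose_apply]
    rw [h1]
    by_cases hab : a = b
    · subst hab; simp
    · have : (e a).1 ≠ (e b).1 := fun h => hab (e.injective (Subtype.ext h))
      rw [Matrix.one_apply_ne this, Matrix.one_apply_ne hab]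
  · ext a b
    rw [Matrix.mul_apply]
    simp only [Matrix.of_apply, Matrix.transpose_apply]
    have h1 : P a b = ∑ m, U a m * l m * U b m := by
      conv_lhs => rw [hspec, hstar]
      rw [Matrix.mul_apply]
      refine Finset.sum_congr rfl fun m _ => ?_
      rw [Matrix.mul_diagonal, Matrix.transpose_apply]
    rw [h1]
    rw [Equiv.sum_comp e (fun m : {i // l i = 1} => U a m.1 * U b m.1)]
    rw [← Finset.sum_filter_add_sum_filter_not Finset.univ (fun m => l m = 1)
      (fun m => U a m * l m * U b m)]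
    have h2 : ∑ m ∈ Finset.univ.filter (fun m => ¬ l m = 1), U a m * l m * U b m = 0 := by
      refine Finset.sum_eq_zero fun m hm => ?_
      have h3 := (Finset.mem_filter.1 hm).2
      rw [(hl01 m).resolve_right h3]
      ring
    rw [h2, add_zero]
    rw [← Finset.sum_subtype (Finset.univ.filter fun m => l m = 1) (p := fun m => l m = 1)
      (by simp) (fun m => U a m * U b m)]
    refine Finset.sum_congr rfl fun m hm => ?_
    rw [(Finset.mem_filter.1 hm).2, mul_one]

private lemma dM_one (n : ℕ) : dM n * (Matrix.of fun (_ : Fin n) (_ : Fin n) => (1 : ℝ)) = 0 := by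
  ext e v
  rw [Matrix.mul_apply]
  simp only [Matrix.of_apply, mul_one, Matrix.zero_apply]
  simp only [dM, D1, Matrix.of_apply, Int.cast_sub, Int.cast_ite, Int.cast_one, Int.cast_zero]
  rw [Finset.sum_sub_distrib]
  simp

private lemma DM_transpose_mul_dM (n : ℕ) : (DM n).transpose * dM n = 0 := by
  have h := congrArg Matrix.transpose (dM_transpose_mul_DM n)
  simpa [Matrix.transpose_mul] using h

private lemma card_Edg_two (n : ℕ) : Fintype.card (Edg n) = n.choose 2 := by
  rw [Fintype.card_subtype, Finset.card_filter, Fintype.sum_prod_type_right]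
  have h1 : ∀ b : Fin n, ∑ a : Fin n, (if a < b then 1 else 0) = (b : ℕ) := by
    intro b
    rw [← Finset.card_filter]
    have : (Finset.univ.filter fun a : Fin n => a < b) = Finset.Iio b := by
      ext a; simp
    rw [this, Fin.card_Iio]
  rw [Finset.sum_congr rfl fun b _ => h1 b, Fin.sum_univ_eq_sum_range (fun i => i) n,
    Finset.sum_range_id, Nat.choose_two_right]

/-- stronger form of `exists_orth` -/
theorem exists_orth' (hn : 3 ≤ n) :
    ∃ O : Matrix (Fin (NN n)) (Edg n) ℝ, O * O.transpose = 1 ∧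
      O.transpose * O = 1 - (1 / (n : ℝ)) • (dM n * (dM n).transpose) ∧ O * dM n = 0 := by
  have hn0 : (n : ℝ) ≠ 0 := by positivity
  set A : Matrix (Edg n) (Edg n) ℝ := (1 / (n : ℝ)) • (dM n * (dM n).transpose) with hA
  have hAd : A * dM n = dM n := by
    rw [hA, Matrix.smul_mul, Matrix.mul_assoc, dM_transpose_mul, Matrix.mul_sub, dM_one, sub_zero,
      Matrix.mul_smul, Matrix.mul_one, smul_smul, one_div_mul_cancel hn0, one_smul]
  have hAA : A * A = A := by
    conv_lhs => rw [hA, Matrix.mul_smul, ← Matrix.mul_assoc, ← hA, hAd]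
  have hAt : A.transpose = A := by
    rw [hA, Matrix.transpose_smul, Matrix.transpose_mul, Matrix.transpose_transpose]
  have htr : A.trace = (n : ℝ) - 1 := by
    rw [hA, Matrix.trace_smul, Matrix.trace_mul_comm, dM_transpose_mul, Matrix.trace_sub,
      Matrix.trace_smul, Matrix.trace_one, Fintype.card_fin]
    have : (Matrix.of fun (_ : Fin n) (_ : Fin n) => (1 : ℝ)).trace = n := by
      simp [Matrix.trace]
    rw [this]
    simp only [smul_eq_mul]
    field_simp
  obtain ⟨O, h1, h2⟩ := proj_factor (P := 1 - A) (N := NN n)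
    (by rw [Matrix.transpose_sub, Matrix.transpose_one, hAt])
    (by rw [Matrix.mul_sub, Matrix.mul_one, Matrix.sub_mul, Matrix.one_mul, hAA, sub_self, sub_zero])
    (by
      rw [Matrix.trace_sub, Matrix.trace_one, htr, card_Edg_two, NN]
      obtain ⟨m, rfl⟩ : ∃ m, n = m + 3 := ⟨n - 3, by omega⟩
      have : (m + 3).choose 2 = (m + 2) + (m + 2).choose 2 := by
        rw [Nat.choose_succ_succ' (m + 2) 1, Nat.choose_one_right]
      rw [this]
      simp only [show m + 3 - 1 = m + 2 by omega]
      push_cast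
      ring)
  refine ⟨O, h1, h2, ?_⟩
  calc O * dM n = (O * O.transpose) * (O * dM n) := by rw [h1, Matrix.one_mul]
    _ = O * (O.transpose * O) * dM n := by simp only [Matrix.mul_assoc]
    _ = O * ((1 - A) * dM n) := by rw [h2, Matrix.mul_assoc]
    _ = 0 := by rw [Matrix.sub_mul, Matrix.one_mul, hAd, sub_self, Matrix.mul_zero]

theorem det_via_O (hn : 3 ≤ n) {O : Matrix (Fin (NN n)) (Edg n) ℝ} (h1 : O * O.transpose = 1)
    (h2 : O.transpose * O = 1 - (1 / (n : ℝ)) • (dM n * (dM n).transpose)) (x : Tri n → ℝ) :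
    (Mx x).det =
        (O * ((1 / (n : ℝ)) • (DM n * Matrix.diagonal x * (DM n).transpose)) * O.transpose).det := by
  set A : Matrix (Edg n) (Edg n) ℝ := (1 / (n : ℝ)) • (dM n * (dM n).transpose) with hA
  set Y : Matrix (Edg n) (Edg n) ℝ := (1 / (n : ℝ)) • (DM n * Matrix.diagonal x * (DM n).transpose)
    with hY
  have hM : Mx x = A + Y := by rw [Mx, smul_add]
  have hAY : A * Y = 0 := by
    rw [hA, hY, Matrix.smul_mul, Matrix.mul_smul]
    have : dM n * (dM n).transpose * (DM n * Matrix.diagonal x * (DM n).transpose)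
        = dM n * ((dM n).transpose * DM n) * Matrix.diagonal x * (DM n).transpose := by
      simp only [Matrix.mul_assoc]
    rw [this, dM_transpose_mul_DM]
    simp
  have hYA : Y * A = 0 := by
    rw [hA, hY, Matrix.smul_mul, Matrix.mul_smul]
    have : DM n * Matrix.diagonal x * (DM n).transpose * (dM n * (dM n).transpose)
        = DM n * Matrix.diagonal x * ((DM n).transpose * dM n) * (dM n).transpose := by
      simp only [Matrix.mul_assoc]
    rw [this, DM_transpose_mul_dM]
    simp
  have hPY : O.transpose * O * Y * (O.transpose * O) = Y := by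
    rw [h2, Matrix.sub_mul, Matrix.one_mul, hAY, sub_zero, Matrix.mul_sub, Matrix.mul_one, hYA,
      sub_zero]
  have h3 : A + Y = 1 + O.transpose * ((O * Y * O.transpose - 1) * O) := by
    have : O.transpose * ((O * Y * O.transpose - 1) * O)
        = O.transpose * O * Y * (O.transpose * O) - O.transpose * O := by
      rw [Matrix.sub_mul, Matrix.one_mul, Matrix.mul_sub]
      simp only [Matrix.mul_assoc]
    rw [this, hPY, h2]
    abel
  rw [hM, h3, Matrix.det_one_add_mul_comm, Matrix.mul_assoc, h1, Matrix.mul_one]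
  congr 1
  abel

/-- orthonormal rows spanning the complement of the range of `d` -/
theorem exists_orth (hn : 3 ≤ n) :
    ∃ O : Matrix (Fin (NN n)) (Edg n) ℝ, O * O.transpose = 1 ∧ O * dM n = 0 ∧
      ∀ x : Tri n → ℝ, (Mx x).det =
        (O * ((1 / (n : ℝ)) • (DM n * Matrix.diagonal x * (DM n).transpose)) * O.transpose).det := by
  obtain ⟨O, h1, h2, h3⟩ := exists_orth' hn
  exact ⟨O, h1, h3, det_via_O hn h1 h2⟩

private lemma trace_DDt (x : Tri n → ℝ) :
    (DM n * Matrix.diagonal x * (DM n).transpose).trace = 3 * ∑ t, x t := by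
  rw [Matrix.trace_mul_comm, Matrix.trace]
  simp only [Matrix.diag_apply]
  rw [Finset.mul_sum]
  refine Finset.sum_congr rfl fun t _ => ?_
  rw [Matrix.mul_apply]
  simp only [Matrix.transpose_apply, Matrix.mul_diagonal]
  have h1 : ∀ e, DM n e t * (DM n e t * x t) = (DM n e t) ^ 2 * x t := fun e => by ring
  rw [Finset.sum_congr rfl fun e _ => h1 e, ← Finset.sum_mul]
  congr 1
  have hab : t.ab ≠ t.bc := by
    intro h
    have h2 := congrArg (fun e : Edg n => e.1.1) h
    simp only [Tri.ab, Tri.bc] at h2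
    exact absurd h2 t.2.1.ne
  have hac : t.ab ≠ t.ac := by
    intro h
    have h2 := congrArg (fun e : Edg n => e.1.2) h
    simp only [Tri.ab, Tri.ac] at h2
    exact absurd h2 t.2.2.ne
  have hbc : t.bc ≠ t.ac := by
    intro h
    have h2 := congrArg (fun e : Edg n => e.1.1) h
    simp only [Tri.bc, Tri.ac] at h2
    exact absurd h2.symm t.2.1.ne
  have h3 : ∀ e, (DM n e t) ^ 2 = (if e = t.ab then (1 : ℝ) else 0) + (if e = t.bc then (1 : ℝ) else 0)
      + (if e = t.ac then (1 : ℝ) else 0) := by
    intro e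
    simp only [DM, D2, Matrix.of_apply]
    by_cases e1 : e = t.ab
    · have e2 : e ≠ t.bc := by rw [e1]; exact hab
      have e3 : e ≠ t.ac := by rw [e1]; exact hac
      rw [if_pos e1, if_neg e2, if_neg e3, if_pos e1, if_neg e2, if_neg e3]
      norm_num
    · by_cases e2 : e = t.bc
      · have e3 : e ≠ t.ac := by rw [e2]; exact hbc
        rw [if_neg e1, if_pos e2, if_neg e3, if_neg e1, if_pos e2, if_neg e3]
        norm_num
      · by_cases e3 : e = t.ac
        · rw [if_neg e1, if_neg e2, if_pos e3, if_neg e1, if_neg e2, if_pos e3]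
          norm_num
        · rw [if_neg e1, if_neg e2, if_neg e3, if_neg e1, if_neg e2, if_neg e3]
          norm_num
  rw [Finset.sum_congr rfl fun e _ => h3 e, Finset.sum_add_distrib, Finset.sum_add_distrib]
  simp only [Finset.sum_ite_eq', Finset.mem_univ, if_true]
  norm_num

theorem w_le_smooth (hn : 3 ≤ n) (f : Coch n G) {θ : ℝ} (h0 : 0 ≤ θ) (h1 : θ ≤ 1) :
    w f ≤ wth θ f * (dens f) ^ ((NN n : ℝ) * (1 - θ)) := by
  obtain ⟨O, hO1, hO2, hO3⟩ := exists_orth' hn
  have hn0 : (n : ℝ) ≠ 0 := by positivity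
  set q : ℝ := (Fintype.card G : ℝ) with hq
  have hq0 : 0 < q := by
    rw [hq]
    exact_mod_cast Fintype.card_pos
  set ind : Tri n → ℝ := fun t => if t ∈ Z f then (1 : ℝ) else 0 with hind
  set Y : Matrix (Fin (NN n)) (Fin (NN n)) ℝ :=
    O * ((1 / (n : ℝ)) • (DM n * Matrix.diagonal ind * (DM n).transpose)) * O.transpose with hY
  have hw : w f = Y.det := by
    rw [w_eq_det hn f, det_via_O hn hO1 hO2]
  have hdiagone : O * ((1 / (n : ℝ)) • (DM n * (DM n).transpose)) * O.transpose = 1 := by
    have h1 : DM n * (DM n).transpose = (n : ℝ) • (1 : Matrix (Edg n) (Edg n) ℝ)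
        - dM n * (dM n).transpose := by
      rw [← dM_mul_add n]; abel
    rw [h1, smul_sub, smul_smul, one_div_mul_cancel hn0, one_smul, Matrix.mul_sub, Matrix.mul_one,
      Matrix.mul_smul, ← Matrix.mul_assoc, hO3, Matrix.zero_mul, smul_zero, sub_zero, hO1]
  have hwth : wth θ f = (θ • Y + ((1 - θ) / q) • (1 : Matrix (Fin (NN n)) (Fin (NN n)) ℝ)).det := by
    unfold wth
    rw [det_via_O hn hO1 hO2]
    refine congrArg Matrix.det ?_
    rw [← hdiagone, hY]
    have h1 : Matrix.diagonal (fun t => θ * (if t ∈ Z f then (1 : ℝ) else 0) + (1 - θ) / q)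
        = θ • Matrix.diagonal ind + ((1 - θ) / q) • (1 : Matrix (Tri n) (Tri n) ℝ) := by
      ext a b
      by_cases hab : a = b
      · subst hab; simp [hind]
      · simp [hab]
    rw [h1, Matrix.mul_add, Matrix.add_mul, smul_add, Matrix.mul_add, Matrix.add_mul]
    simp only [Matrix.mul_smul, Matrix.smul_mul, Matrix.mul_one]
    rw [smul_comm (1 / (n : ℝ)) θ, smul_comm (1 / (n : ℝ)) ((1 - θ) / q)]
  have hYpsd : Y.PosSemidef := by
    have h0 : (Matrix.diagonal ind).PosSemidef := by
      rw [Matrix.posSemidef_diagonal_iff]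
      intro t
      simp only [hind]
      split_ifs <;> norm_num
    have h1 : (DM n * Matrix.diagonal ind * (DM n).transpose).PosSemidef := by
      have := h0.mul_mul_conjTranspose_same (DM n)
      rwa [Matrix.conjTranspose_eq_transpose_of_trivial] at this
    have h2 : ((1 / (n : ℝ)) • (DM n * Matrix.diagonal ind * (DM n).transpose)).PosSemidef :=
      h1.smul (by positivity)
    have := h2.mul_mul_conjTranspose_same O
    rwa [Matrix.conjTranspose_eq_transpose_of_trivial] at this
  have hXpsd : (q • Y).PosSemidef := hYpsd.smul hq0.le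
  have hsm := det_smooth hXpsd h0 h1
  rw [Fintype.card_fin] at hsm
  have htr : (q • Y).trace / (NN n : ℝ) = dens f := by
    have h3 : Y.trace = 3 / (n : ℝ) * (Z f).card := by
      rw [hY, Matrix.mul_assoc, Matrix.trace_mul_comm, Matrix.mul_assoc, hO2, Matrix.mul_sub,
        Matrix.mul_one, Matrix.trace_sub]
      have h4 : (1 / (n : ℝ)) • (DM n * Matrix.diagonal ind * (DM n).transpose) *
          ((1 / (n : ℝ)) • (dM n * (dM n).transpose)) = 0 := by
        rw [Matrix.smul_mul, Matrix.mul_smul]
        have : DM n * Matrix.diagonal ind * (DM n).transpose * (dM n * (dM n).transpose)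
            = DM n * Matrix.diagonal ind * ((DM n).transpose * dM n) * (dM n).transpose := by
          simp only [Matrix.mul_assoc]
        rw [this, DM_transpose_mul_dM]
        simp
      rw [h4, Matrix.trace_zero, sub_zero, Matrix.trace_smul, trace_DDt, hind]
      rw [Finset.sum_ite_mem, Finset.univ_inter, Finset.sum_const, nsmul_eq_mul, mul_one, smul_eq_mul]
      ring
    rw [Matrix.trace_smul, h3, smul_eq_mul, dens, ← hq]
    have hN : (n : ℝ) * (NN n : ℝ) = 3 * (n.choose 3 : ℝ) := by
      obtain ⟨m, rfl⟩ : ∃ m, n = m + 1 := ⟨n - 1, by omega⟩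
      have h5 := Nat.add_one_mul_choose_eq m 2
      unfold NN
      simp only [show m + 1 - 1 = m by omega]
      have h6 : (((m + 1) * m.choose 2 : ℕ) : ℝ) = (((m + 1).choose 3 * 3 : ℕ) : ℝ) := by
        exact_mod_cast h5
      push_cast at h6 ⊢
      linarith
    have hNpos : (0 : ℝ) < (NN n : ℝ) := by
      unfold NN
      exact_mod_cast Nat.choose_pos (by omega)
    have hcpos : (0 : ℝ) < (n.choose 3 : ℝ) := by exact_mod_cast Nat.choose_pos hn
    rw [div_eq_div_iff hNpos.ne' hcpos.ne']
    have : q * (3 / (n : ℝ) * ((Z f).card : ℝ)) * (n.choose 3 : ℝ)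
        = q * ((Z f).card : ℝ) * ((3 * (n.choose 3 : ℝ)) / n) := by ring
    rw [this, ← hN, mul_div_cancel_left₀ _ hn0]
  rw [htr] at hsm
  have hdet1 : (q • Y).det = q ^ (NN n) * w f := by
    rw [Matrix.det_smul, Fintype.card_fin, hw]
  have hdet2 : (θ • q • Y + (1 - θ) • (1 : Matrix (Fin (NN n)) (Fin (NN n)) ℝ)).det
      = q ^ (NN n) * wth θ f := by
    have h3 : θ • q • Y + (1 - θ) • (1 : Matrix (Fin (NN n)) (Fin (NN n)) ℝ)
        = q • (θ • Y + ((1 - θ) / q) • (1 : Matrix (Fin (NN n)) (Fin (NN n)) ℝ)) := by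
      rw [smul_add, smul_smul, smul_smul, smul_smul, mul_comm θ q, mul_div_cancel₀ _ hq0.ne']
    rw [h3, Matrix.det_smul, Fintype.card_fin, hwth]
  rw [hdet1, hdet2, mul_assoc] at hsm
  exact le_of_mul_le_mul_left hsm (by positivity)

theorem wth_nonneg (f : Coch n G) {θ : ℝ} (h0 : 0 ≤ θ) (h1 : θ ≤ 1) : 0 ≤ wth θ f := by
  unfold wth
  refine (Mx_psd fun t => ?_).det_nonneg
  have h2 : 0 ≤ (1 - θ) / (Fintype.card G : ℝ) := div_nonneg (by linarith) (by positivity)
  split_ifs
  · linarith
  · linarith

end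

end Pool.Agent.DH10
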