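import Pool.Agent.DH10.Basic1
import Pool.Agent.DH10.Smooth

/-!
# DH10.CondKer : conditional law given `R ⊆ T` (6.1)

Proof of `cond_kernel`, by induction on `R` (variant of the original plan without limits).
Let `O` be as in `exists_orth'`, `u_t = O D(t)/√n ∈ ℝ^N`; `∑_t u_t u_tᵀ = 1` (`D Dᵀ = n - d dᵀ`),
`∑_T W(T) ∏_{t∈T} x_t = det(∑_t x_t u_t u_tᵀ)` (`master`, `det_via_O`), `|u_t|² ≤ |D t|²/n = 3/n`: this is `R = ∅`.
Step from `R` (matrix `B` with `k+1` rows) to `R ∪ t`: with `x_t := 0` and `x_t := 1` the identity for `R` gives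
`∑_{T ⊇ R ∪ t} = PS R (det (M + b bᵀ) - det M)`, `b = B_t`, `M = ∑_{s ≠ t} x_s B_s B_sᵀ`, and
`det (M + b bᵀ) - det M = |b|² det (Q M Qᵀ)` for a `k × (k+1)` matrix `Q` with orthonormal rows orthogonal to `b`.
The new matrix is `Q B`.
-/

set_option autoImplicit false

open Finset

namespace Pool.Agent.DH10

noncomputable section

variable {n : ℕ}

/-- `P(R ⊆ T)` -/
def PS (R : Finset (Tri n)) : ℝ := ∑ S ∈ (cand n).filter (fun S => R ⊆ S), W S

theorem PS_nonneg (R : Finset (Tri n)) : 0 ≤ PS R :=
  sum_nonneg fun S _ => W_nonneg S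

/-- orthonormal rows spanning the complement of a vector -/
private theorem ck_compl {k : ℕ} (b : Fin (k + 1) → ℝ) (hb : 0 < ∑ i, b i ^ 2) :
    ∃ Q : Matrix (Fin k) (Fin (k + 1)) ℝ, Q * Q.transpose = 1 ∧ Q.mulVec b = 0 ∧
      (∀ v : Fin (k + 1) → ℝ, ∑ i, (Q.mulVec v i) ^ 2 ≤ ∑ i, v i ^ 2) := by
  set c : ℝ := ∑ i, b i ^ 2 with hc
  have hcn : c ≠ 0 := hb.ne'
  set P : Matrix (Fin (k + 1)) (Fin (k + 1)) ℝ := 1 - (1 / c) • Matrix.vecMulVec b b with hP
  have hbb : Matrix.vecMulVec b b * Matrix.vecMulVec b b = c • Matrix.vecMulVec b b := by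
    ext i j
    rw [Matrix.mul_apply]
    simp only [Matrix.vecMulVec_apply, Matrix.smul_apply, smul_eq_mul]
    rw [hc, sum_mul]
    refine sum_congr rfl fun l _ => ?_
    ring
  have hPt : P.transpose = P := by
    rw [hP, Matrix.transpose_sub, Matrix.transpose_one, Matrix.transpose_smul]
    congr 2
    ext i j
    simp only [Matrix.transpose_apply, Matrix.vecMulVec_apply]
    ring
  have hPP : P * P = P := by
    rw [hP, Matrix.mul_sub, Matrix.mul_one, Matrix.sub_mul, Matrix.one_mul, Matrix.smul_mul,
      Matrix.mul_smul, hbb, smul_smul, smul_smul]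
    rw [show 1 / c * (1 / c) * c = 1 / c by field_simp]
    abel
  have htr : P.trace = k := by
    rw [hP, Matrix.trace_sub, Matrix.trace_one, Matrix.trace_smul, Fintype.card_fin]
    have : (Matrix.vecMulVec b b).trace = c := by
      rw [Matrix.trace, hc]
      refine sum_congr rfl fun i _ => ?_
      simp [Matrix.vecMulVec_apply, sq]
    rw [this, smul_eq_mul, one_div_mul_cancel hcn]
    push_cast
    ring
  obtain ⟨Q, h1, h2⟩ := proj_factor hPt hPP htr
  have hPb : P.mulVec b = 0 := by
    rw [hP, Matrix.sub_mulVec, Matrix.one_mulVec, Matrix.smul_mulVec]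
    funext i
    simp only [Pi.sub_apply, Pi.smul_apply, smul_eq_mul, Pi.zero_apply, Matrix.mulVec, dotProduct,
      Matrix.vecMulVec_apply]
    have : ∑ j, b i * b j * b j = b i * c := by
      rw [hc, mul_sum]
      exact sum_congr rfl fun j _ => by ring
    rw [this]
    field_simp
    ring
  have hquad : ∀ v : Fin (k + 1) → ℝ, ∑ i, (Q.mulVec v i) ^ 2 = v ⬝ᵥ (P.mulVec v) := by
    intro v
    rw [← h2, ← Matrix.mulVec_mulVec, Matrix.dotProduct_mulVec, Matrix.vecMul_transpose, dotProduct]
    exact sum_congr rfl fun i _ => by ring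
  refine ⟨Q, h1, ?_, ?_⟩
  · have h3 := hquad b
    rw [hPb, dotProduct_zero] at h3
    funext i
    have h4 := (sum_eq_zero_iff_of_nonneg (fun i _ => sq_nonneg (Q.mulVec b i))).1 h3 i (mem_univ i)
    simpa using h4
  · intro v
    rw [hquad, hP, Matrix.sub_mulVec, Matrix.one_mulVec, Matrix.smul_mulVec, dotProduct_sub,
      dotProduct_smul]
    have h3 : v ⬝ᵥ v = ∑ i, v i ^ 2 := by
      rw [dotProduct]
      exact sum_congr rfl fun i _ => by ring
    have h4 : v ⬝ᵥ (Matrix.vecMulVec b b).mulVec v = (∑ i, b i * v i) ^ 2 := by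
      rw [sq, sum_mul_sum, dotProduct]
      refine sum_congr rfl fun i _ => ?_
      simp only [Matrix.mulVec, dotProduct, Matrix.vecMulVec_apply]
      rw [mul_sum]
      exact sum_congr rfl fun j _ => by ring
    rw [h3, h4, smul_eq_mul]
    have : 0 ≤ 1 / c * (∑ i, b i * v i) ^ 2 := by positivity
    linarith

/-- rank one perturbation of a determinant -/
private theorem ck_det {k : ℕ} (b : Fin (k + 1) → ℝ) (hb : 0 < ∑ i, b i ^ 2)
    {Q : Matrix (Fin k) (Fin (k + 1)) ℝ} (hQ : Q * Q.transpose = 1) (hQb : Q.mulVec b = 0)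
    (M : Matrix (Fin (k + 1)) (Fin (k + 1)) ℝ) :
    (M + Matrix.vecMulVec b b).det - M.det = (∑ i, b i ^ 2) * (Q * M * Q.transpose).det := by
  set c : ℝ := ∑ i, b i ^ 2 with hc
  have hcn : √c ≠ 0 := (Real.sqrt_pos.2 hb).ne'
  have hcc : √c * √c = c := Real.mul_self_sqrt hb.le
  set V : Matrix (Fin (k + 1)) (Fin (k + 1)) ℝ :=
    Matrix.of (Fin.cons (fun j => b j / √c) fun i => Q i) with hV
  have hV0 : ∀ j, V 0 j = b j / √c := fun j => rfl
  have hVs : ∀ i j, V (Fin.succ i) j = Q i j := fun i j => rfl
  have hQb' : ∀ i, ∑ j, Q i j * b j = 0 := fun i => congrFun hQb i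
  have hVV : V * V.transpose = 1 := by
    ext i j
    rw [Matrix.mul_apply]
    simp only [Matrix.transpose_apply]
    refine Fin.cases ?_ (fun i => ?_) i
    · refine Fin.cases ?_ (fun j => ?_) j
      · rw [Matrix.one_apply_eq]
        have : ∀ l, V 0 l * V 0 l = b l ^ 2 / c := by
          intro l
          rw [hV0, div_mul_div_comm, hcc, sq]
        rw [sum_congr rfl fun l _ => this l, ← sum_div, ← hc, div_self hb.ne']
      · rw [Matrix.one_apply_ne (Fin.succ_ne_zero j).symm]
        have : ∀ l, V 0 l * V (Fin.succ j) l = Q j l * b l / √c := by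
          intro l
          rw [hV0, hVs]
          ring
        rw [sum_congr rfl fun l _ => this l, ← sum_div, hQb' j, zero_div]
    · refine Fin.cases ?_ (fun j => ?_) j
      · rw [Matrix.one_apply_ne (Fin.succ_ne_zero i)]
        have : ∀ l, V (Fin.succ i) l * V 0 l = Q i l * b l / √c := by
          intro l
          rw [hV0, hVs]
          ring
        rw [sum_congr rfl fun l _ => this l, ← sum_div, hQb' i, zero_div]
      · have h1 := congrFun (congrFun hQ i) j
        rw [Matrix.mul_apply] at h1
        simp only [Matrix.transpose_apply] at h1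
        simp only [hVs]
        rw [h1]
        by_cases hij : i = j
        · subst hij
          simp
        · rw [Matrix.one_apply_ne hij, Matrix.one_apply_ne (fun h => hij (Fin.succ_injective _ h))]
  have hdetV : V.det * V.det = 1 := by
    have := congrArg Matrix.det hVV
    rwa [Matrix.det_mul, Matrix.det_transpose, Matrix.det_one] at this
  have hconj : ∀ X : Matrix (Fin (k + 1)) (Fin (k + 1)) ℝ, X.det = (V * X * V.transpose).det := by
    intro X
    rw [Matrix.det_mul, Matrix.det_mul, Matrix.det_transpose]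
    linear_combination (-X.det) * hdetV
  set M' := V * M * V.transpose with hM'
  have hVb : ∀ i, V.mulVec b i = if i = 0 then √c else 0 := by
    intro i
    refine Fin.cases ?_ (fun i => ?_) i
    · rw [if_pos rfl, Matrix.mulVec, dotProduct]
      have : ∀ l, V 0 l * b l = b l ^ 2 / √c := by
        intro l
        rw [hV0]
        ring
      rw [sum_congr rfl fun l _ => this l, ← sum_div, ← hc, div_eq_iff hcn, hcc]
    · rw [if_neg (Fin.succ_ne_zero i)]
      exact hQb' i
  have hadd : V * (M + Matrix.vecMulVec b b) * V.transpose =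
      M'.updateRow 0 (M' 0 + c • Pi.single 0 1) := by
    rw [Matrix.mul_add, Matrix.add_mul, ← hM', Matrix.mul_vecMulVec, Matrix.vecMulVec_mul,
      Matrix.vecMul_transpose]
    ext i j
    rw [Matrix.add_apply, Matrix.vecMulVec_apply, hVb, hVb]
    by_cases hi : i = 0
    · subst hi
      rw [Matrix.updateRow_self, if_pos rfl, Pi.add_apply, Pi.smul_apply, smul_eq_mul]
      by_cases hj : j = 0
      · subst hj
        rw [if_pos rfl, Pi.single_eq_same, hcc, mul_one]
      · rw [if_neg hj, Pi.single_eq_of_ne hj, mul_zero, mul_zero]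
    · rw [Matrix.updateRow_ne hi, if_neg hi, zero_mul, add_zero]
  have hminor : (M'.updateRow 0 (Pi.single 0 1)).det = (Q * M * Q.transpose).det := by
    rw [← Matrix.adjugate_apply, Matrix.adjugate_fin_succ_eq_det_submatrix]
    simp only [Fin.val_zero, add_zero, pow_zero, one_mul]
    congr 1
  rw [hconj (M + _), hconj M, ← hM', hadd, Matrix.det_updateRow_add, Matrix.det_updateRow_smul,
    Matrix.updateRow_eq_self, hminor]
  ring

private theorem ck_diag {k : ℕ} (B : Matrix (Fin k) (Tri n) ℝ) (x : Tri n → ℝ) :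
    B * Matrix.diagonal x * B.transpose =
      ∑ t, x t • Matrix.vecMulVec (fun i => B i t) (fun i => B i t) := by
  ext i j
  rw [Matrix.mul_apply, Matrix.sum_apply]
  refine sum_congr rfl fun t _ => ?_
  rw [Matrix.mul_diagonal, Matrix.transpose_apply, Matrix.smul_apply, Matrix.vecMulVec_apply,
    smul_eq_mul]
  ring

private theorem ck_update {k : ℕ} (B : Matrix (Fin k) (Tri n) ℝ) (x : Tri n → ℝ) (t : Tri n)
    (s : ℝ) :
    B * Matrix.diagonal (Function.update x t (x t + s)) * B.transpose =
      B * Matrix.diagonal x * B.transpose +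
        s • Matrix.vecMulVec (fun i => B i t) (fun i => B i t) := by
  rw [ck_diag, ck_diag, ← add_sum_erase univ _ (mem_univ t), ← add_sum_erase univ _ (mem_univ t),
    Function.update_self, add_smul]
  have : ∀ a ∈ univ.erase t, Function.update x t (x t + s) a •
      Matrix.vecMulVec (fun i => B i a) (fun i => B i a) =
      x a • Matrix.vecMulVec (fun i => B i a) (fun i => B i a) := by
    intro a ha
    rw [Function.update_of_ne (ne_of_mem_erase ha)]
  rw [sum_congr rfl this]
  abel

private theorem ck_last {k : ℕ} (R : Finset (Tri n)) {B : Matrix (Fin k) (Tri n) ℝ}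
    (hB : B * B.transpose = 1)
    (hx : ∀ x : Tri n → ℝ, ∑ S ∈ (cand n).filter (fun S => R ⊆ S), W S * ∏ t ∈ S \ R, x t =
        PS R * (B * Matrix.diagonal x * B.transpose).det) (t : Tri n) (ht : t ∉ R) :
    PS (insert t R) = PS R * ∑ i, B i t ^ 2 := by
  have h1 := hx (Function.update (fun _ => (1 : ℝ)) t (1 + (-1)))
  rw [ck_update B (fun _ => (1 : ℝ)) t (-1)] at h1
  have h2 : B * Matrix.diagonal (fun _ : Tri n => (1 : ℝ)) * B.transpose = 1 := by
    rw [Matrix.diagonal_one, Matrix.mul_one, hB]
  rw [h2] at h1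
  have h3 : ((1 : Matrix (Fin k) (Fin k) ℝ) +
      (-1 : ℝ) • Matrix.vecMulVec (fun i => B i t) (fun i => B i t)).det = 1 - ∑ i, B i t ^ 2 := by
    have e1 : (-1 : ℝ) • Matrix.vecMulVec (fun i => B i t) (fun i => B i t) =
        Matrix.replicateCol Unit (fun i => B i t) * Matrix.replicateRow Unit (fun i => - B i t) := by
      ext i j
      simp [Matrix.vecMulVec_apply, Matrix.mul_apply]
    rw [e1, Matrix.det_one_add_replicateCol_mul_replicateRow, dotProduct]
    rw [sub_eq_add_neg, ← sum_neg_distrib]
    congr 1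
    exact sum_congr rfl fun i _ => by ring
  rw [h3] at h1
  have h4 : ∑ S ∈ (cand n).filter (fun S => R ⊆ S), W S *
      ∏ s ∈ S \ R, Function.update (fun _ => (1 : ℝ)) t (1 + (-1)) s = PS R - PS (insert t R) := by
    unfold PS
    rw [eq_sub_iff_add_eq]
    have e2 : (cand n).filter (fun S => insert t R ⊆ S) =
        ((cand n).filter (fun S => R ⊆ S)).filter (fun S => t ∈ S) := by
      ext S
      simp only [mem_filter, insert_subset_iff]
      tauto
    rw [e2, sum_filter (fun S => t ∈ S), ← sum_add_distrib]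
    refine sum_congr rfl fun S hS => ?_
    by_cases htS : t ∈ S
    · rw [if_pos htS, prod_eq_zero (mem_sdiff.2 ⟨htS, ht⟩)]
      · ring
      · rw [Function.update_self]
        norm_num
    · rw [if_neg htS, prod_eq_one]
      · ring
      · intro s hs
        rw [Function.update_of_ne]
        rintro rfl
        exact htS (mem_sdiff.1 hs).1
  rw [h4] at h1
  linarith

private theorem ck_norm (t : Tri n) : ∑ e : Edg n, (DM n e t) ^ 2 = 3 := by
  have hab : t.ab ≠ t.bc := fun h => absurd (congrArg (fun q : Edg n => q.1.1) h) t.2.1.ne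
  have hac : t.ab ≠ t.ac := fun h => absurd (congrArg (fun q : Edg n => q.1.2) h) t.2.2.ne
  have hbc : t.bc ≠ t.ac := fun h => absurd (congrArg (fun q : Edg n => q.1.1) h) t.2.1.ne.symm
  have h : ∀ e : Edg n, (DM n e t) ^ 2 = (if e = t.ab then (1 : ℝ) else 0)
      + (if e = t.bc then 1 else 0) + (if e = t.ac then 1 else 0) := by
    intro e
    simp only [DM, D2, Matrix.of_apply]
    by_cases e1 : e = t.ab
    · have e2 : e ≠ t.bc := by rw [e1]; exact hab
      have e3 : e ≠ t.ac := by rw [e1]; exact hac
      rw [if_pos e1, if_neg e2, if_neg e3, if_pos e1, if_neg e2, if_neg e3]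
      norm_num
    · by_cases e2 : e = t.bc
      · have e3 : e ≠ t.ac := by rw [e2]; exact hbc
        rw [if_neg e1, if_pos e2, if_neg e3, if_neg e1, if_pos e2, if_neg e3]
        norm_num
      · by_cases e3 : e = t.ac
        · rw [if_neg e1, if_neg e2, if_pos e3, if_neg e1, if_neg e2, if_pos e3]
          norm_num
        · rw [if_neg e1, if_neg e2, if_neg e3, if_neg e1, if_neg e2, if_neg e3]
          norm_num
  rw [sum_congr rfl fun e _ => h e, sum_add_distrib, sum_add_distrib]
  simp only [sum_ite_eq', mem_univ, if_true]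
  norm_num

private theorem ck_main (hn : 3 ≤ n) (R : Finset (Tri n)) : 0 < PS R → ∀ k : ℕ,
    k + R.card = NN n →
    ∃ B : Matrix (Fin k) (Tri n) ℝ, B * B.transpose = 1 ∧ (∀ t ∈ R, ∀ i, B i t = 0) ∧
      (∀ t, ∑ i, B i t ^ 2 ≤ 3 / n) ∧
      (∀ x : Tri n → ℝ, ∑ S ∈ (cand n).filter (fun S => R ⊆ S), W S * ∏ t ∈ S \ R, x t =
        PS R * (B * Matrix.diagonal x * B.transpose).det) := by
  classical
  induction R using Finset.induction_on with
  | empty =>
    intro _ k hk
    rw [card_empty, add_zero] at hk
    subst hk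
    obtain ⟨O, hO1, hO2, hO3⟩ := exists_orth' hn
    have hnpos : (0 : ℝ) < n := by exact_mod_cast (by omega : 0 < n)
    have hcc : 1 / √(n : ℝ) * (1 / √(n : ℝ)) = 1 / n := by
      rw [div_mul_div_comm, Real.mul_self_sqrt hnpos.le, one_mul]
    have hx : ∀ x : Tri n → ℝ, ((1 / √(n : ℝ)) • (O * DM n)) * Matrix.diagonal x *
        ((1 / √(n : ℝ)) • (O * DM n)).transpose =
        O * ((1 / (n : ℝ)) • (DM n * Matrix.diagonal x * (DM n).transpose)) * O.transpose := by
      intro x
      rw [Matrix.transpose_smul, Matrix.smul_mul, Matrix.smul_mul, Matrix.mul_smul, smul_smul, hcc,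
        Matrix.transpose_mul, Matrix.mul_smul, Matrix.smul_mul]
      simp only [Matrix.mul_assoc]
    have hone : ((1 / √(n : ℝ)) • (O * DM n)) * ((1 / √(n : ℝ)) • (O * DM n)).transpose = 1 := by
      have h1 := hx fun _ => 1
      rw [Matrix.diagonal_one, Matrix.mul_one, Matrix.mul_one] at h1
      rw [h1]
      have h2 : DM n * (DM n).transpose = (n : ℝ) • (1 : Matrix (Edg n) (Edg n) ℝ)
          - dM n * (dM n).transpose := by
        rw [← dM_mul_add n]; abel
      rw [h2, smul_sub, smul_smul, one_div_mul_cancel hnpos.ne', one_smul, Matrix.mul_sub,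
        Matrix.mul_one, Matrix.mul_smul, ← Matrix.mul_assoc, hO3, Matrix.zero_mul, smul_zero,
        sub_zero, hO1]
    refine ⟨(1 / √(n : ℝ)) • (O * DM n), hone, fun t ht => absurd ht (notMem_empty t), ?_, ?_⟩
    · intro t
      have h1 : ∀ v : Edg n → ℝ, ∑ i, (O.mulVec v i) ^ 2 ≤ ∑ e, v e ^ 2 := by
        intro v
        have h2 : ∑ i, (O.mulVec v i) ^ 2 = v ⬝ᵥ ((O.transpose * O).mulVec v) := by
          rw [← Matrix.mulVec_mulVec, Matrix.dotProduct_mulVec, Matrix.vecMul_transpose, dotProduct]
          exact sum_congr rfl fun i _ => by ring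
        have h3 : v ⬝ᵥ ((dM n * (dM n).transpose).mulVec v) =
            ∑ i, ((dM n).transpose.mulVec v i) ^ 2 := by
          rw [← Matrix.mulVec_mulVec, Matrix.dotProduct_mulVec, ← Matrix.mulVec_transpose,
            dotProduct]
          exact sum_congr rfl fun i _ => by ring
        have h4 : v ⬝ᵥ v = ∑ e, v e ^ 2 := by
          rw [dotProduct]
          exact sum_congr rfl fun i _ => by ring
        rw [h2, hO2, Matrix.sub_mulVec, Matrix.one_mulVec, Matrix.smul_mulVec, dotProduct_sub,
          dotProduct_smul, h3, h4, smul_eq_mul]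
        have : 0 ≤ 1 / (n : ℝ) * ∑ i, ((dM n).transpose.mulVec v i) ^ 2 := by positivity
        linarith
      have h2 := h1 fun e => DM n e t
      rw [ck_norm] at h2
      have h3 : ∑ i, ((1 / √(n : ℝ)) • (O * DM n)) i t ^ 2 =
          1 / n * ∑ i, (O.mulVec (fun e => DM n e t) i) ^ 2 := by
        rw [mul_sum]
        refine sum_congr rfl fun i _ => ?_
        rw [Matrix.smul_apply, smul_eq_mul, ← hcc, Matrix.mul_apply]
        simp only [Matrix.mulVec, dotProduct]
        ring
      rw [h3, div_eq_mul_inv 3, mul_comm 3, ← one_div]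
      exact mul_le_mul_of_nonneg_left h2 (by positivity)
    · intro x
      have h1 := master hn x
      have h2 : (cand n).filter (fun S => (∅ : Finset (Tri n)) ⊆ S) = cand n :=
        filter_true_of_mem fun S _ => empty_subset S
      have h3 : PS (∅ : Finset (Tri n)) = 1 := by
        unfold PS
        rw [h2, sum_W hn]
      rw [h2, h3, one_mul, hx, ← det_via_O hn hO1 hO2, ← h1]
      simp only [sdiff_empty]
  | insert t R ht ih =>
    intro hpos k hk
    rw [card_insert_of_notMem ht] at hk
    have hle : PS (insert t R) ≤ PS R := by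
      unfold PS
      refine sum_le_sum_of_subset_of_nonneg ?_ fun S _ _ => W_nonneg S
      intro S hS
      rw [mem_filter] at hS ⊢
      exact ⟨hS.1, (subset_insert t R).trans hS.2⟩
    have hposR : 0 < PS R := hpos.trans_le hle
    obtain ⟨B, h1, h2, h3, h4⟩ := ih hposR (k + 1) (by omega)
    have h5 := ck_last R h1 h4 t ht
    set b : Fin (k + 1) → ℝ := fun i => B i t with hb
    have hbpos : 0 < ∑ i, b i ^ 2 := by
      by_contra hcon
      have : PS R * ∑ i, b i ^ 2 ≤ 0 := mul_nonpos_of_nonneg_of_nonpos hposR.le (not_lt.1 hcon)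
      rw [h5] at hpos
      exact absurd hpos (not_lt.2 this)
    obtain ⟨Q, q1, q2, q3⟩ := ck_compl b hbpos
    refine ⟨Q * B, ?_, ?_, ?_, ?_⟩
    · rw [Matrix.transpose_mul]
      calc Q * B * (B.transpose * Q.transpose) = Q * (B * B.transpose) * Q.transpose := by
            simp only [Matrix.mul_assoc]
        _ = 1 := by rw [h1, Matrix.mul_one, q1]
    · intro s hs i
      rw [mem_insert] at hs
      rcases hs with rfl | hs
      · exact congrFun q2 i
      · rw [Matrix.mul_apply]
        exact sum_eq_zero fun j _ => by rw [h2 s hs j, mul_zero]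
    · intro s
      exact (q3 fun i => B i s).trans (h3 s)
    · intro x
      set x0 : Tri n → ℝ := Function.update x t 0 with hx0
      have hx1 : Function.update x0 t (x0 t + 1) = Function.update x t 1 := by
        rw [hx0, Function.update_self, zero_add, Function.update_idem]
      have e0 := h4 x0
      have e1 := h4 (Function.update x0 t (x0 t + 1))
      rw [ck_update B x0 t 1, one_smul] at e1
      have e2 := ck_det b hbpos q1 q2 (B * Matrix.diagonal x0 * B.transpose)
      have e3 : ∑ S ∈ (cand n).filter (fun S => insert t R ⊆ S), W S *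
          ∏ s ∈ S \ insert t R, x s = PS R * ((∑ i, b i ^ 2) *
            (Q * (B * Matrix.diagonal x0 * B.transpose) * Q.transpose).det) := by
        rw [← e2, mul_sub, ← e1, ← e0, ← sum_sub_distrib]
        have e4 : (cand n).filter (fun S => insert t R ⊆ S) =
            ((cand n).filter (fun S => R ⊆ S)).filter (fun S => t ∈ S) := by
          ext S
          simp only [mem_filter, insert_subset_iff]
          tauto
        rw [e4, sum_filter (fun S => t ∈ S)]
        refine sum_congr rfl fun S hS => ?_
        rw [hx1]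
        by_cases htS : t ∈ S
        · rw [if_pos htS]
          have e5 : S \ R = insert t (S \ insert t R) := by
            ext s
            simp only [mem_sdiff, mem_insert]
            by_cases hst : s = t
            · subst hst
              simp [htS, ht]
            · simp [hst]
          have e6 : t ∉ S \ insert t R := by simp
          rw [e5, prod_insert e6, prod_insert e6, hx0, Function.update_self, Function.update_self,
            zero_mul, mul_zero, sub_zero, one_mul]
          congr 1
          refine prod_congr rfl fun s hs => ?_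
          rw [Function.update_of_ne]
          rintro rfl
          exact e6 hs
        · have e7 : ∀ a : ℝ, ∏ s ∈ S \ R, Function.update x t a s = ∏ s ∈ S \ R, x s := by
            intro a
            refine prod_congr rfl fun s hs => ?_
            rw [Function.update_of_ne]
            rintro rfl
            exact htS (mem_sdiff.1 hs).1
          rw [if_neg htS, hx0, e7, e7, sub_self]
      rw [e3, h5, mul_assoc]
      congr 3
      have e7 : Q * B * Matrix.diagonal x * (Q * B).transpose =
          Q * (B * Matrix.diagonal x * B.transpose) * Q.transpose := by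
        rw [Matrix.transpose_mul]
        simp only [Matrix.mul_assoc]
      rw [e7]
      have e8 : x = Function.update x0 t (x0 t + x t) := by
        rw [hx0, Function.update_self, zero_add, Function.update_idem, Function.update_eq_self]
      conv_rhs => rw [e8, ck_update B x0 t (x t)]
      rw [Matrix.mul_add, Matrix.add_mul, Matrix.mul_smul, Matrix.mul_vecMulVec]
      have e9 : Q.mulVec (fun i => B i t) = 0 := q2
      rw [e9]
      simp

theorem cond_kernel (hn : 3 ≤ n) (R : Finset (Tri n)) (hR : 0 < PS R) :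
    ∃ B : Matrix (Fin (NN n - R.card)) (Tri n) ℝ, B * B.transpose = 1 ∧ (∀ t ∈ R, ∀ i, B i t = 0) ∧
      (∀ t, ∑ i, B i t ^ 2 ≤ 3 / n) ∧
      (∀ x : Tri n → ℝ, ∑ S ∈ (cand n).filter (fun S => R ⊆ S), W S * ∏ t ∈ S \ R, x t =
        PS R * (B * Matrix.diagonal x * B.transpose).det) ∧
      (∀ t ∉ R, PS (insert t R) = PS R * ∑ i, B i t ^ 2) := by
  have hcard : R.card ≤ NN n := by
    obtain ⟨S, hS⟩ : ((cand n).filter (fun S => R ⊆ S)).Nonempty := by
      by_contra hcon
      rw [not_nonempty_iff_eq_empty] at hcon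
      unfold PS at hR
      rw [hcon, sum_empty] at hR
      exact lt_irrefl _ hR
    rw [mem_filter, cand, mem_powersetCard] at hS
    rw [← hS.1.2]
    exact card_le_card hS.2
  obtain ⟨B, h1, h2, h3, h4⟩ := ck_main hn R hR (NN n - R.card) (by omega)
  exact ⟨B, h1, h2, h3, h4, fun t ht => ck_last R h1 h4 t ht⟩

end

end Pool.Agent.DH10
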