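import Pool.Agent.DH10.CoreDefs

/-!
# DH10.Conn : reduction to edge-connected cores (Part 2)

For `x ≥ 0`: `∑_{A core, |A| ≤ rk A + j, |A| ≤ m} x^{|A|} ≤ exp (∑_{A edge-connected such core} x^{|A|}) - 1`.
Proof.  Decompose a core `A` in the classes of the equivalence relation `ReflTransGen (TAdj A)`.  Triangles of different
classes share no edge, so each class `c` is a core, is edge-connected, `|c| ≤ |A| ≤ m`, and the spans of the boundary
vectors of the classes are independent (disjoint supports in `Edg n`), `rk A = ∑_c rk c`; with `rk c ≤ |c|`,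
`|c| - rk c ≤ |A| - rk A ≤ j`.  `A ↦ {classes}` is injective (`A` is the union), the value is a nonempty finite set of
edge-connected cores, and `x^{|A|} = ∏_c x^{|c|}`.  So the left side is
`≤ ∑_{nonempty sets 𝒞 of such cores} ∏_{c ∈ 𝒞} x^{|c|} = ∏ (1 + x^{|c|}) - 1 ≤ exp (∑ x^{|c|}) - 1`.
-/

set_option autoImplicit false

open Finset

namespace Pool.Agent.DH10

noncomputable section

variable {n : ℕ}

open Classical in
/-- the class of `t` in `A` -/
private def cls (A : Finset (Tri n)) (t : Tri n) : Finset (Tri n) :=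
  A.filter fun t' => Relation.ReflTransGen (TAdj A) t t'

open Classical in
private def clss (A : Finset (Tri n)) : Finset (Finset (Tri n)) := A.image (cls A)

private theorem TAdj_symm {A : Finset (Tri n)} {t t' : Tri n} (h : TAdj A t t') : TAdj A t' t := by
  obtain ⟨h1, h2, h3⟩ := h
  refine ⟨h2, h1, ?_⟩
  rwa [Finset.inter_comm]

private theorem RTG_symm {A : Finset (Tri n)} {t t' : Tri n}
    (h : Relation.ReflTransGen (TAdj A) t t') : Relation.ReflTransGen (TAdj A) t' t := by
  induction h with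
  | refl => exact Relation.ReflTransGen.refl
  | tail _ h2 ih => exact Relation.ReflTransGen.head (TAdj_symm h2) ih

private theorem mem_cls {A : Finset (Tri n)} {t t' : Tri n} :
    t' ∈ cls A t ↔ t' ∈ A ∧ Relation.ReflTransGen (TAdj A) t t' := by
  unfold cls
  simp

private theorem cls_eq {A : Finset (Tri n)} {t t' : Tri n} (h : t' ∈ cls A t) :
    cls A t' = cls A t := by
  rw [mem_cls] at h
  ext s
  rw [mem_cls, mem_cls]
  exact ⟨fun hs => ⟨hs.1, h.2.trans hs.2⟩, fun hs => ⟨hs.1, (RTG_symm h.2).trans hs.2⟩⟩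

private theorem self_mem_cls {A : Finset (Tri n)} {t : Tri n} (ht : t ∈ A) : t ∈ cls A t :=
  mem_cls.mpr ⟨ht, Relation.ReflTransGen.refl⟩

private theorem cls_sub (A : Finset (Tri n)) (t : Tri n) : cls A t ⊆ A := fun _ hs =>
  (mem_cls.mp hs).1

private theorem mem_clss {A : Finset (Tri n)} {c : Finset (Tri n)} :
    c ∈ clss A ↔ ∃ t ∈ A, cls A t = c := by
  unfold clss
  simp

private theorem biUnion_clss (A : Finset (Tri n)) : (clss A).biUnion id = A := by
  ext s
  simp only [Finset.mem_biUnion, id]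
  constructor
  · rintro ⟨c, hc, hs⟩
    obtain ⟨t, _, rfl⟩ := mem_clss.mp hc
    exact cls_sub A t hs
  · intro hs
    exact ⟨cls A s, mem_clss.mpr ⟨s, hs, rfl⟩, self_mem_cls hs⟩

private theorem card_clss (A : Finset (Tri n)) : ∑ c ∈ clss A, c.card = A.card := by
  classical
  conv_rhs => rw [← biUnion_clss A]
  rw [Finset.card_biUnion]
  · simp
  · intro c hc c' hc' hne
    obtain ⟨t, _, rfl⟩ := mem_clss.mp hc
    obtain ⟨t', _, rfl⟩ := mem_clss.mp hc'
    change Disjoint (cls A t) (cls A t')
    rw [Finset.disjoint_left]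
    intro s hs hs'
    exact hne ((cls_eq hs).symm.trans (cls_eq hs'))

private theorem core_cls {A : Finset (Tri n)} (hA : IsCore A) {t : Tri n} (ht : t ∈ A) :
    IsCore (cls A t) := by
  refine ⟨⟨t, self_mem_cls ht⟩, fun s hs e he => ?_⟩
  obtain ⟨s', hs', hne, he'⟩ := hA.2 s (cls_sub A t hs) e he
  refine ⟨s', mem_cls.mpr ⟨hs', (mem_cls.mp hs).2.tail ⟨cls_sub A t hs, hs', ?_⟩⟩, hne, he'⟩
  exact ⟨e, Finset.mem_inter.mpr ⟨he, he'⟩⟩

private theorem econn_cls (A : Finset (Tri n)) (t : Tri n) : EConn (cls A t) := by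
  intro s hs s' hs'
  have h1 : Relation.ReflTransGen (TAdj A) s s' :=
    (RTG_symm (mem_cls.mp hs).2).trans (mem_cls.mp hs').2
  clear hs'
  induction h1 with
  | refl => exact Relation.ReflTransGen.refl
  | tail h2 h3 ih =>
    refine ih.tail ⟨?_, ?_, h3.2.2⟩
    · exact mem_cls.mpr ⟨h3.1, (mem_cls.mp hs).2.trans h2⟩
    · exact mem_cls.mpr ⟨h3.2.1, ((mem_cls.mp hs).2.trans h2).tail h3⟩

private theorem rk_le {A c : Finset (Tri n)} (hc : c ⊆ A) :
    rk A + c.card ≤ rk c + A.card := by
  classical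
  have h1 : rk A ≤ rk c + (A \ c).card := by
    unfold rk
    have h2 : (A : Set (Tri n)) = (c : Set (Tri n)) ∪ ((A \ c : Finset (Tri n)) : Set (Tri n)) := by
      rw [← Finset.coe_union, Finset.union_sdiff_of_subset hc]
    rw [h2, Set.image_union, Submodule.span_union]
    refine (Submodule.finrank_add_le_finrank_add_finrank _ _).trans ?_
    refine Nat.add_le_add_left ?_ _
    refine (finrank_span_le_card _).trans ?_
    rw [Set.toFinset_card]
    have h3 : Fintype.card ↑((fun t : Tri n => fun e : Edg n => DM n e t) ''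
        ((A \ c : Finset (Tri n)) : Set (Tri n))) =
        (((A \ c).image (fun t : Tri n => fun e : Edg n => DM n e t))).card := by
      rw [← Fintype.card_coe]
      refine Fintype.card_congr (Equiv.setCongr ?_)
      simp
    rw [h3]
    exact Finset.card_image_le
  have h4 := Finset.card_sdiff_add_card_eq_card hc
  omega

open Classical in
theorem core_sum_le_exp (n j m : ℕ) {x : ℝ} (hx : 0 ≤ x) :
    ∑ A ∈ (univ : Finset (Finset (Tri n))).filter
        (fun A => IsCore A ∧ A.card ≤ rk A + j ∧ A.card ≤ m), x ^ A.card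
      ≤ Real.exp (∑ A ∈ (univ : Finset (Finset (Tri n))).filter
        (fun A => EConn A ∧ IsCore A ∧ A.card ≤ rk A + j ∧ A.card ≤ m), x ^ A.card) - 1 := by
  set P := (univ : Finset (Finset (Tri n))).filter
        (fun A => IsCore A ∧ A.card ≤ rk A + j ∧ A.card ≤ m) with hP
  set Q := (univ : Finset (Finset (Tri n))).filter
        (fun A => EConn A ∧ IsCore A ∧ A.card ≤ rk A + j ∧ A.card ≤ m) with hQ
  have hPm : ∀ A ∈ P, IsCore A ∧ A.card ≤ rk A + j ∧ A.card ≤ m := by
    intro A hA
    simpa [hP] using hA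
  have h1 : ∀ A ∈ P, x ^ A.card = ∏ c ∈ clss A, x ^ c.card := by
    intro A _
    rw [Finset.prod_pow_eq_pow_sum, card_clss]
  have hinj : ∀ A ∈ P, ∀ B ∈ P, clss A = clss B → A = B := by
    intro A _ B _ h
    have hA := biUnion_clss A
    have hB := biUnion_clss B
    rw [← hA, ← hB, h]
  have hmaps : ∀ A ∈ P, clss A ∈ Q.powerset.erase ∅ := by
    intro A hA
    obtain ⟨hc, hr, hm⟩ := hPm A hA
    rw [Finset.mem_erase, Finset.mem_powerset]
    constructor
    · obtain ⟨t, ht⟩ := hc.1
      have : cls A t ∈ clss A := mem_clss.mpr ⟨t, ht, rfl⟩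
      exact Finset.ne_empty_of_mem this
    · intro c hcA
      obtain ⟨t, ht, rfl⟩ := mem_clss.mp hcA
      have h2 := rk_le (cls_sub A t)
      have h3 := Finset.card_le_card (cls_sub A t)
      simp only [hQ, Finset.mem_filter, Finset.mem_univ, true_and]
      exact ⟨econn_cls A t, core_cls hc ht, by omega, by omega⟩
  calc ∑ A ∈ P, x ^ A.card = ∑ A ∈ P, ∏ c ∈ clss A, x ^ c.card := Finset.sum_congr rfl h1
    _ = ∑ T ∈ P.image clss, ∏ c ∈ T, x ^ c.card := by
        rw [Finset.sum_image hinj]
    _ ≤ ∑ T ∈ Q.powerset.erase ∅, ∏ c ∈ T, x ^ c.card := by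
        refine Finset.sum_le_sum_of_subset_of_nonneg ?_ ?_
        · intro T hT
          obtain ⟨A, hA, rfl⟩ := Finset.mem_image.mp hT
          exact hmaps A hA
        · intro T _ _
          exact Finset.prod_nonneg fun c _ => pow_nonneg hx _
    _ = ∏ c ∈ Q, (1 + x ^ c.card) - 1 := by
        rw [Finset.prod_one_add, ← Finset.add_sum_erase _ _ (Finset.empty_mem_powerset Q)]
        simp
    _ ≤ Real.exp (∑ A ∈ Q, x ^ A.card) - 1 := by
        rw [Real.exp_sum]
        refine sub_le_sub_right ?_ 1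
        refine Finset.prod_le_prod (fun c _ => by positivity) fun c _ => ?_
        rw [add_comm]
        exact Real.add_one_le_exp _

end

end Pool.Agent.DH10
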