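import Pool.Agent.DH10.Defs

/-!
# DH10.CoreDefs : cores and their exploration (Part 2), definitions only
-/

set_option autoImplicit false

open Finset

namespace Pool.Agent.DH10

noncomputable section

variable {n : ℕ}

/-- a core: nonempty set of triangles in which every edge is in at least two triangles -/
def IsCore (A : Finset (Tri n)) : Prop :=
  A.Nonempty ∧ ∀ t ∈ A, ∀ e ∈ t.edges, ∃ t' ∈ A, t' ≠ t ∧ e ∈ t'.edges

/-- rank of the boundary vectors of the triangles in `A` -/
def rk (A : Finset (Tri n)) : ℕ :=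
  Module.finrank ℝ (Submodule.span ℝ ((fun t : Tri n => fun e : Edg n => DM n e t) '' (A : Set (Tri n))))

/-- the two triangles belong to `A` and share an edge -/
def TAdj (A : Finset (Tri n)) (t t' : Tri n) : Prop := t ∈ A ∧ t' ∈ A ∧ (t.edges ∩ t'.edges).Nonempty

/-- edge-connected set of triangles -/
def EConn (A : Finset (Tri n)) : Prop := ∀ t ∈ A, ∀ t' ∈ A, Relation.ReflTransGen (TAdj A) t t'

/-- edges of a set of triangles -/
def EE (A : Finset (Tri n)) : Finset (Edg n) := A.biUnion Tri.edges

/-- vertices of a set of triangles -/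
def VV (A : Finset (Tri n)) : Finset (Fin n) := A.biUnion Tri.verts

/-- degree of a vertex in the graph of edges of `A` -/
def degE (A : Finset (Tri n)) (x : Fin n) : ℕ := ((EE A).filter fun e => e.1.1 = x ∨ e.1.2 = x).card

/-- the edge is inside `H` -/
def InH (H : Finset (Fin n)) (e : Edg n) : Prop := e.1.1 ∈ H ∧ e.1.2 ∈ H

open Classical in
/-- next edge to process: an unprocessed revealed edge, not inside `H` if possible -/
def pick (H : Finset (Fin n)) (rev : Finset (Tri n)) (proc : Finset (Edg n)) : Option (Edg n) :=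
  if h : ((EE rev \ proc).filter (fun e => ¬ InH H e)).Nonempty then some h.choose
  else if h : (EE rev \ proc).Nonempty then some h.choose else none

/-- joined by a revealed edge -/
def Joined (rev : Finset (Tri n)) (x y : Fin n) : Prop :=
  ∃ e ∈ EE rev, (e.1.1 = x ∧ e.1.2 = y) ∨ (e.1.1 = y ∧ e.1.2 = x)

/-- a triangle containing `e` whose third vertex `z` is in `H`, or joined to an endpoint of `e` outside `H` -/
def Saving (H : Finset (Fin n)) (rev : Finset (Tri n)) (e : Edg n) (t : Tri n) : Prop :=
  ∃ z ∈ t.verts, z ≠ e.1.1 ∧ z ≠ e.1.2 ∧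
    (z ∈ H ∨ (e.1.1 ∉ H ∧ Joined rev e.1.1 z) ∨ (e.1.2 ∉ H ∧ Joined rev e.1.2 z))

/-- result of an exploration: numbers of non-saving and of saving triangles, number of steps, final set -/
structure XRes (n : ℕ) where
  N : ℕ
  S : ℕ
  steps : ℕ
  fin : Finset (Tri n)

open Classical in
/-- exploration of `A` (fuel = bound for the number of steps) -/
def explore (H : Finset (Fin n)) (A : Finset (Tri n)) :
    ℕ → Finset (Tri n) → Finset (Edg n) → XRes n
  | 0, rev, _ => ⟨0, 0, 0, rev⟩
  | k + 1, rev, proc =>
    match pick H rev proc with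
    | none => ⟨0, 0, 0, rev⟩
    | some e =>
      let new := (A \ rev).filter fun t => e ∈ t.edges
      let r := explore H A k (rev ∪ new) (insert e proc)
      ⟨r.N + (new.filter fun t => ¬ Saving H rev e t).card,
        r.S + (new.filter fun t => Saving H rev e t).card, r.steps + 1, r.fin⟩

/-- exploration from the triangle `t0` with enough fuel -/
def xpl (H : Finset (Fin n)) (A : Finset (Tri n)) (t0 : Tri n) : XRes n :=
  explore H A (Fintype.card (Edg n)) {t0} ∅

/-- `m_0 = ⌊n^{2 - 1/200}⌋` -/
def m0 (n : ℕ) : ℕ := ⌊(n : ℝ) ^ (2 - 1 / 200 : ℝ)⌋₊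

end

end Pool.Agent.DH10
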