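import Pool.Agent.DH10.Push

/-!
# DH10.CountIneq : the counting inequality (5.2)

Let `z = #{g ∈ C¹(F_p) : S ⊆ Z g}`; `#{F ∈ C¹(F_p^l) : S ⊆ Z F} = z^l` (coordinates).  If `F ∉ U` then `push ψ F ∈ A` for some
onto `ψ : F_p^l → F_p` (at most `p^l` homomorphisms `ψ`, determined by the images of the `l` basis vectors); for a fixed `ψ`,
`ψ(e_j) ≠ 0` for some `j`, and `F` is determined by `push ψ F ∈ A` and by its coordinates `F_i`, `i ≠ j`
(`ψ(a) = ∑ a_i ψ(e_i)`), so there are at most `|A| z^{l-1}` such `F`.  Therefore `z^l ≤ |U| + p^l |A| z^{l-1}`.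
If `z ≥ 2 p^l |A|` the last term is `≤ z^l/2` and `z^l ≤ 2 |U|`; otherwise `z^l ≤ (2 p^l |A|)^l`.
-/

set_option autoImplicit false

open Finset

namespace Pool.Agent.DH10

noncomputable section


private def ciComb {n p l : ℕ} (c : Fin l → ZMod p) (F : Coch n (Fin l → ZMod p)) : Coch n (ZMod p) :=
  fun e => ∑ i, F e i * c i

private theorem ci_push {n p l : ℕ} (ψ : (Fin l → ZMod p) →+ ZMod p) (F : Coch n (Fin l → ZMod p)) :
    push ψ F = ciComb (fun i => ψ (Pi.single i 1)) F := by
  funext e
  unfold push ciComb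
  have h1 : F e = ∑ i, F e i • (Pi.single i 1 : Fin l → ZMod p) := by
    funext j
    rw [Finset.sum_apply]
    simp only [Pi.smul_apply, Pi.single_apply, smul_eq_mul, mul_ite, mul_one, mul_zero]
    rw [Finset.sum_ite_eq]
    simp
  rw [h1, map_sum]
  refine Finset.sum_congr rfl fun i _ => ?_
  rw [ZMod.map_smul, smul_eq_mul, ← h1]

private theorem ci_Z {n p l : ℕ} (S : Finset (Tri n)) (F : Coch n (Fin l → ZMod p)) :
    S ⊆ Z F ↔ ∀ i, S ⊆ Z (fun e => F e i) := by
  have h1 : ∀ (i : Fin l) (t : Tri n), curT (fun e => F e i) t = curT F t i := by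
    intro i t
    exact cur_push (Pi.evalAddMonoidHom (fun _ : Fin l => ZMod p) i) F _ _ _
  constructor
  · intro h i t ht
    have h2 := h ht
    unfold Z at h2 ⊢
    rw [Finset.mem_filter] at h2 ⊢
    refine ⟨Finset.mem_univ _, ?_⟩
    rw [h1, h2.2]
    rfl
  · intro h t ht
    unfold Z
    rw [Finset.mem_filter]
    refine ⟨Finset.mem_univ _, ?_⟩
    funext i
    have h2 := h i ht
    unfold Z at h2
    rw [Finset.mem_filter, h1] at h2
    exact h2.2

private theorem ci_card {n p l : ℕ} [Fact p.Prime] (S : Finset (Tri n)) :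
    (univ.filter fun F : Coch n (Fin l → ZMod p) => S ⊆ Z F).card =
      (univ.filter fun g : Coch n (ZMod p) => S ⊆ Z g).card ^ l := by
  classical
  have h1 : (Fintype.piFinset (fun _ : Fin l => univ.filter fun g : Coch n (ZMod p) => S ⊆ Z g)).card =
      (univ.filter fun g : Coch n (ZMod p) => S ⊆ Z g).card ^ l := by
    rw [Fintype.card_piFinset, Finset.prod_const, Finset.card_univ, Fintype.card_fin]
  rw [← h1]
  refine Finset.card_nbij' (fun F i e => F e i) (fun G e i => G i e) ?_ ?_ ?_ ?_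
  · intro F hF
    rw [Finset.mem_coe, Finset.mem_filter] at hF
    rw [Finset.mem_coe, Fintype.mem_piFinset]
    intro i
    rw [Finset.mem_filter]
    exact ⟨Finset.mem_univ _, (ci_Z S F).mp hF.2 i⟩
  · intro G hG
    rw [Finset.mem_coe, Fintype.mem_piFinset] at hG
    rw [Finset.mem_coe, Finset.mem_filter]
    refine ⟨Finset.mem_univ _, (ci_Z S _).mpr fun i => ?_⟩
    exact (Finset.mem_filter.mp (hG i)).2
  · intro F _
    rfl
  · intro G _
    rfl

private theorem ci_fiber {n p l : ℕ} [Fact p.Prime] (S : Finset (Tri n))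
    (A : Finset (Coch n (ZMod p))) (c : Fin l → ZMod p) {j : Fin l} (hj : c j ≠ 0) :
    (univ.filter fun F : Coch n (Fin l → ZMod p) => S ⊆ Z F ∧ ciComb c F ∈ A).card ≤
      A.card * (univ.filter fun g : Coch n (ZMod p) => S ⊆ Z g).card ^ (l - 1) := by
  classical
  set V1 := univ.filter fun g : Coch n (ZMod p) => S ⊆ Z g with hV1
  have h1 : (A ×ˢ Fintype.piFinset (fun _ : {i : Fin l // i ≠ j} => V1)).card = A.card * V1.card ^ (l - 1) := by
    rw [Finset.card_product, Fintype.card_piFinset, Finset.prod_const, Finset.card_univ]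
    congr 2
    rw [Fintype.card_subtype_compl, Fintype.card_fin, Fintype.card_unique]
  rw [← h1]
  refine Finset.card_le_card_of_injOn (fun F => (ciComb c F, fun i e => F e i.1)) ?_ ?_
  · intro F hF
    rw [Finset.mem_coe, Finset.mem_filter] at hF
    rw [Finset.mem_coe, Finset.mem_product, Fintype.mem_piFinset]
    refine ⟨hF.2.2, fun i => ?_⟩
    rw [hV1, Finset.mem_filter]
    exact ⟨Finset.mem_univ _, (ci_Z S F).mp hF.2.1 i.1⟩
  · intro F _ F' _ hFF
    rw [Prod.mk.injEq] at hFF
    obtain ⟨h2, h3⟩ := hFF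
    have h4 : ∀ i, i ≠ j → ∀ e, F e i = F' e i := by
      intro i hi e
      exact congrFun (congrFun h3 ⟨i, hi⟩) e
    funext e i
    by_cases hi : i = j
    · subst hi
      have h5 := congrFun h2 e
      unfold ciComb at h5
      rw [← Finset.add_sum_erase _ _ (Finset.mem_univ i), ← Finset.add_sum_erase _ (fun k => F' e k * c k) (Finset.mem_univ i)] at h5
      have h6 : ∑ k ∈ univ.erase i, F e k * c k = ∑ k ∈ univ.erase i, F' e k * c k :=
        Finset.sum_congr rfl fun k hk => by rw [h4 k (Finset.ne_of_mem_erase hk) e]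
      rw [h6] at h5
      exact mul_right_cancel₀ hj (add_right_cancel h5)
    · exact h4 i hi e

theorem count_ineq {n : ℕ} (p : ℕ) [Fact p.Prime] (l : ℕ) (S : Finset (Tri n))
    (A : Finset (Coch n (ZMod p))) (U : Finset (Coch n (Fin l → ZMod p)))
    (hU : ∀ F : Coch n (Fin l → ZMod p), S ⊆ Z F → F ∉ U →
      ∃ ψ : (Fin l → ZMod p) →+ ZMod p, Function.Surjective ψ ∧ push ψ F ∈ A) :
    (univ.filter fun F : Coch n (Fin l → ZMod p) => S ⊆ Z F).card
      ≤ 2 * U.card + (2 * p ^ l) ^ l * A.card ^ l := by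
  classical
  rcases Nat.eq_zero_or_pos l with hl | hl
  · subst hl
    rw [ci_card, pow_zero, pow_zero, pow_zero]
    omega
  set z := (univ.filter fun g : Coch n (ZMod p) => S ⊆ Z g).card with hz
  set V := univ.filter fun F : Coch n (Fin l → ZMod p) => S ⊆ Z F with hV
  have hVz : V.card = z ^ l := ci_card S
  have hcov : V ⊆ U ∪ (univ : Finset (Fin l → ZMod p)).biUnion (fun c =>
      if ∃ j, c j ≠ 0 then (univ.filter fun F : Coch n (Fin l → ZMod p) => S ⊆ Z F ∧ ciComb c F ∈ A) else ∅) := by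
    intro F hF
    rw [hV, Finset.mem_filter] at hF
    rw [Finset.mem_union]
    by_cases hFU : F ∈ U
    · exact Or.inl hFU
    · right
      obtain ⟨ψ, hψ, hA⟩ := hU F hF.2 hFU
      rw [Finset.mem_biUnion]
      refine ⟨fun i => ψ (Pi.single i 1), Finset.mem_univ _, ?_⟩
      have hne : ∃ j, (fun i => ψ (Pi.single i 1)) j ≠ 0 := by
        by_contra hcon
        push Not at hcon
        obtain ⟨a, ha⟩ := hψ 1
        have h1 := congrFun (ci_push (n := 3) ψ (fun _ => a)) ⟨(0, 1), by decide⟩
        unfold push ciComb at h1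
        rw [ha] at h1
        simp only at hcon h1
        simp only [hcon, mul_zero, Finset.sum_const_zero] at h1
        exact one_ne_zero h1
      rw [if_pos hne, Finset.mem_filter]
      refine ⟨Finset.mem_univ _, hF.2, ?_⟩
      rw [← ci_push]
      exact hA
  have hcard : V.card ≤ U.card + p ^ l * (A.card * z ^ (l - 1)) := by
    refine (Finset.card_le_card hcov).trans ((Finset.card_union_le _ _).trans ?_)
    refine Nat.add_le_add_left ?_ _
    refine Finset.card_biUnion_le.trans ?_
    calc ∑ c : Fin l → ZMod p, (if ∃ j, c j ≠ 0 then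
          (univ.filter fun F : Coch n (Fin l → ZMod p) => S ⊆ Z F ∧ ciComb c F ∈ A) else ∅).card
        ≤ ∑ _c : Fin l → ZMod p, A.card * z ^ (l - 1) := by
          refine Finset.sum_le_sum fun c _ => ?_
          split_ifs with hc
          · obtain ⟨j, hj⟩ := hc
            exact ci_fiber S A c hj
          · simp
      _ = p ^ l * (A.card * z ^ (l - 1)) := by
          rw [Finset.sum_const, Finset.card_univ, Fintype.card_fun, ZMod.card, Fintype.card_fin, smul_eq_mul]
  rcases le_or_gt (2 * p ^ l * A.card) z with hcase | hcase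
  · have h1 : 2 * (p ^ l * (A.card * z ^ (l - 1))) ≤ z ^ l := by
      calc 2 * (p ^ l * (A.card * z ^ (l - 1))) = (2 * p ^ l * A.card) * z ^ (l - 1) := by ring
        _ ≤ z * z ^ (l - 1) := Nat.mul_le_mul_right _ hcase
        _ = z ^ l := by rw [← pow_succ', Nat.sub_add_cancel hl]
    have h2 : V.card ≤ 2 * U.card := by
      rw [hVz] at hcard ⊢
      omega
    exact h2.trans (Nat.le_add_right _ _)
  · have h1 : V.card ≤ (2 * p ^ l) ^ l * A.card ^ l := by
      rw [hVz, ← mul_pow]
      exact Nat.pow_le_pow_left hcase.le l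
    exact h1.trans (Nat.le_add_left _ _)

end

end Pool.Agent.DH10
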