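import Pool.Agent.DH10.Cyc
import Pool.Agent.DH10.PsiEx

/-!
# DH10.CycP : no `F_p`-cycle on `R` implies no `G`-cycle on `R` (6.5)

`one_le_cycIn`: `1 ∈ cycIn G R`.
`cyc_trivial`: let `z ≠ 1` be a cycle with `supp z ⊆ R`.  Every element of `AddChar G ℂ` has order a power of `p`; let `j` be
maximal with `z' = z^(p^j) ≠ 1` (finite group); `z'` is a cycle (`IsCyc` is closed under powers), `supp z' ⊆ supp z`,
`z'^p = 1`.  Choose `t0`, `a` with `z'_{t0}(a) ≠ 1`.  `y_t := AddChar.zmodChar p` with value `z'_t(a)` at `1`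
(`(z'_t(a))^p = 1`): `y_t(j) = z'_t(a)^{j.val}`.  `y` is a cycle: for `f : Coch n (ZMod p)` let
`f~ e = (f e).val • a : Coch n G`; `curT f~ t = m • a` with `m` an integer congruent to `curT f t` mod `p`, so
`z'_t(curT f~ t) = y_t(curT f t)`.  `y_{t0}(1) ≠ 1`, `supp y ⊆ supp z'`: so `y ≠ 1` is in `cycIn (ZMod p) R`.
-/

set_option autoImplicit false

open Finset

namespace Pool.Agent.DH10

noncomputable section

variable {n : ℕ}

private theorem cycP_curT_eq {G : Type} [AddCommGroup G] (f : Coch n G) (t : Tri n) :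
    curT f t = f t.ab + f t.bc - f t.ac := by
  obtain ⟨⟨x, y, z⟩, hxy, hyz⟩ := t
  have hxy' : x < y := hxy
  have hyz' : y < z := hyz
  have hxz : x < z := hxy'.trans hyz'
  have h1 : ¬ z < x := not_lt.mpr hxz.le
  have e1 : val f x y = f ⟨(x, y), hxy'⟩ := by
    unfold val
    rw [dif_pos hxy']
  have e2 : val f y z = f ⟨(y, z), hyz'⟩ := by
    unfold val
    rw [dif_pos hyz']
  have e3 : val f z x = - f ⟨(x, z), hxz⟩ := by
    unfold val
    rw [dif_neg h1, dif_pos hxz]
  change val f x y + val f y z + val f z x = f ⟨(x, y), _⟩ + f ⟨(y, z), _⟩ - f ⟨(x, z), _⟩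
  rw [e1, e2, e3, sub_eq_add_neg]

private theorem cycP_one_mem (G : Type) [AddCommGroup G] [Fintype G] (R : Finset (Tri n)) :
    (1 : Tri n → AddChar G ℂ) ∈ cycIn G R := by
  classical
  simp [cycIn, IsCyc, supp]

theorem one_le_cycIn (G : Type) [AddCommGroup G] [Fintype G] (R : Finset (Tri n)) :
    1 ≤ (cycIn G R).card := Finset.card_pos.mpr ⟨1, cycP_one_mem G R⟩

private theorem cycP_mem (G : Type) [AddCommGroup G] [Fintype G] (S : Finset (Tri n))
    (z : Tri n → AddChar G ℂ) : z ∈ cycIn G S ↔ IsCyc z ∧ supp z ⊆ S := by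
  classical
  simp [cycIn]

theorem cyc_trivial (p : ℕ) [Fact p.Prime] (G : Type) [AddCommGroup G] [Fintype G] (hG : IsP p G)
    (R : Finset (Tri n)) (h : (cycIn (ZMod p) R).card = 1) : (cycIn G R).card = 1 := by
  classical
  have hp : p.Prime := Fact.out
  rw [Finset.card_eq_one] at h
  obtain ⟨y0, hy0⟩ := h
  have hy1 : ∀ y ∈ cycIn (ZMod p) R, y = 1 := by
    intro y hy
    have h1 := cycP_one_mem (ZMod p) R
    rw [hy0, Finset.mem_singleton] at h1 hy
    rw [hy, ← h1]
  rw [Finset.card_eq_one]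
  refine ⟨1, Finset.eq_singleton_iff_unique_mem.mpr ⟨cycP_one_mem G R, ?_⟩⟩
  intro z hz
  rw [cycP_mem] at hz
  obtain ⟨hzc, hzs⟩ := hz
  by_contra hz1
  -- a power of `p` killing `G`
  choose k hk using hG
  set K : ℕ := ∑ a, k a with hK
  have hKk : ∀ a : G, p ^ K • a = 0 := by
    intro a
    have : k a ≤ K := Finset.single_le_sum (f := k) (fun _ _ => Nat.zero_le _) (Finset.mem_univ a)
    obtain ⟨d, hd⟩ := Nat.exists_eq_add_of_le this
    rw [hd, pow_add, mul_comm, mul_smul, hk a, smul_zero]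
  have hzK : z ^ (p ^ K) = 1 := by
    funext t
    apply DFunLike.ext
    intro a
    rw [Pi.pow_apply, Pi.one_apply, AddChar.one_apply, AddChar.pow_apply, ← AddChar.map_nsmul_eq_pow,
      hKk, AddChar.map_zero_eq_one]
  have hex : ∃ m, z ^ (p ^ m) = 1 := ⟨K, hzK⟩
  set m := Nat.find hex with hm
  have hm1 : z ^ (p ^ m) = 1 := Nat.find_spec hex
  have hm0 : m ≠ 0 := by
    intro h0
    rw [h0, pow_zero, pow_one] at hm1
    exact hz1 hm1
  obtain ⟨j, hj⟩ := Nat.exists_eq_succ_of_ne_zero hm0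
  have hjne : z ^ (p ^ j) ≠ 1 := Nat.find_min hex (by omega)
  set z' := z ^ (p ^ j) with hz'
  have hz'p : z' ^ p = 1 := by
    rw [hz', ← pow_mul, ← pow_succ, ← Nat.succ_eq_add_one, ← hj]
    exact hm1
  -- `z'` is a cycle
  have hz'c : IsCyc z' := by
    intro f
    have h1 := hzc f
    have h2 : ∏ t, z' t (curT f t) = (∏ t, z t (curT f t)) ^ (p ^ j) := by
      rw [← Finset.prod_pow]
      apply Finset.prod_congr rfl
      intro t _
      rw [hz', Pi.pow_apply, AddChar.pow_apply]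
    rw [h2, h1, one_pow]
  have hz's : supp z' ⊆ supp z := by
    intro t ht
    simp only [supp, Finset.mem_filter, Finset.mem_univ, true_and] at ht ⊢
    intro h0
    apply ht
    rw [hz', Pi.pow_apply, h0, one_pow]
  -- a nontrivial value
  obtain ⟨t0, ht0⟩ : ∃ t, z' t ≠ 1 := by
    by_contra hcon
    push Not at hcon
    exact hjne (funext hcon)
  obtain ⟨a, ha⟩ : ∃ a, z' t0 a ≠ 1 := by
    by_contra hcon
    push Not at hcon
    exact ht0 (DFunLike.ext _ _ fun a => by rw [hcon a, AddChar.one_apply])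
  have hpow : ∀ t, (z' t a) ^ p = 1 := by
    intro t
    rw [← AddChar.pow_apply, ← Pi.pow_apply, hz'p, Pi.one_apply, AddChar.one_apply]
  set y : Tri n → AddChar (ZMod p) ℂ := fun t => AddChar.zmodChar p (hpow t) with hy
  have hyv : ∀ t (x : ZMod p), y t x = (z' t a) ^ x.val := fun t x =>
    AddChar.zmodChar_apply (hpow t) x
  have hyc : IsCyc y := by
    intro f
    have h1 := hz'c (fun e => (f e).val • a)
    rw [← h1]
    apply Finset.prod_congr rfl
    intro t _
    rw [cycP_curT_eq, cycP_curT_eq]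
    rw [AddChar.map_sub_eq_div, AddChar.map_sub_eq_div, AddChar.map_add_eq_mul,
      AddChar.map_add_eq_mul, AddChar.map_nsmul_eq_pow, AddChar.map_nsmul_eq_pow,
      AddChar.map_nsmul_eq_pow, hyv, hyv, hyv]
  have hys : supp y ⊆ R := by
    intro t ht
    apply hzs
    apply hz's
    simp only [supp, Finset.mem_filter, Finset.mem_univ, true_and] at ht ⊢
    intro h0
    apply ht
    apply DFunLike.ext
    intro x
    rw [hyv, h0, AddChar.one_apply, AddChar.one_apply, one_pow]
  have hy1' := hy1 y ((cycP_mem _ _ _).mpr ⟨hyc, hys⟩)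
  apply ha
  have h2 : y t0 1 = 1 := by
    rw [hy1', Pi.one_apply, AddChar.one_apply]
  rw [hyv, ZMod.val_one_eq_one_mod, Nat.mod_eq_of_lt hp.one_lt, pow_one] at h2
  exact h2

end

end Pool.Agent.DH10
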