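import Mathlib

/-!
# DH10.Defs : determinantal hypertrees (MP_0d4385_pr), basic definitions

Paper proof: team-store `MP_0d4385_proof_helper10.md`.  Numbers like (1.2) refer to it.
-/

set_option autoImplicit false

open Finset

namespace Pool.Agent.DH10

noncomputable section

/-- edges of the complete graph on `Fin n` (increasing pairs) -/
abbrev Edg (n : ℕ) := {p : Fin n × Fin n // p.1 < p.2}

/-- triangles on `Fin n` (increasing triples) -/
abbrev Tri (n : ℕ) := {t : Fin n × Fin n × Fin n // t.1 < t.2.1 ∧ t.2.1 < t.2.2}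

variable {n : ℕ}

/-- first vertex -/
def Tri.a (t : Tri n) : Fin n := t.1.1
/-- second vertex -/
def Tri.b (t : Tri n) : Fin n := t.1.2.1
/-- third vertex -/
def Tri.c (t : Tri n) : Fin n := t.1.2.2
/-- the edge `ab` -/
def Tri.ab (t : Tri n) : Edg n := ⟨(t.1.1, t.1.2.1), t.2.1⟩
/-- the edge `bc` -/
def Tri.bc (t : Tri n) : Edg n := ⟨(t.1.2.1, t.1.2.2), t.2.2⟩
/-- the edge `ac` -/
def Tri.ac (t : Tri n) : Edg n := ⟨(t.1.1, t.1.2.2), t.2.1.trans t.2.2⟩
/-- the three edges of a triangle -/
def Tri.edges (t : Tri n) : Finset (Edg n) := {t.ab, t.bc, t.ac}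
/-- the three vertices of a triangle -/
def Tri.verts (t : Tri n) : Finset (Fin n) := {t.a, t.b, t.c}

/-- boundary of an edge: `b - a` -/
def D1 (v : Fin n) (e : Edg n) : ℤ := (if v = e.1.2 then 1 else 0) - (if v = e.1.1 then 1 else 0)

/-- boundary of a triangle: `ab + bc - ac` -/
def D2 (e : Edg n) (t : Tri n) : ℤ :=
  (if e = t.ab then 1 else 0) + (if e = t.bc then 1 else 0) - (if e = t.ac then 1 else 0)

/-- boundary operator on 1-chains of the complete graph -/
def bd1 (n : ℕ) : (Edg n → ℤ) →ₗ[ℤ] (Fin n → ℤ) := Matrix.mulVecLin (Matrix.of fun v e => D1 v e)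

/-- boundary operator on the 2-chains of the complex with set of triangles `S` -/
def bd2 (S : Finset (Tri n)) : (S → ℤ) →ₗ[ℤ] (Edg n → ℤ) :=
  Matrix.mulVecLin (Matrix.of fun e (t : S) => D2 e t.1)

/-- first integral homology of the complex with complete 1-skeleton and set of triangles `S` -/
abbrev H1 (S : Finset (Tri n)) : Type :=
  ↥(LinearMap.ker (bd1 n)) ⧸ (LinearMap.range (bd2 S)).submoduleOf (LinearMap.ker (bd1 n))

/-- number of triangles of a hypertree -/
def NN (n : ℕ) : ℕ := (n - 1).choose 2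

/-- weight of a set of triangles under the determinantal law (`Nat.card` of an infinite type is `0`) -/
def W (S : Finset (Tri n)) : ℝ := (Nat.card (H1 S) : ℝ) ^ 2 / (n : ℝ) ^ ((n - 2).choose 2)

/-- the candidate sets: `NN n` triangles -/
def cand (n : ℕ) : Finset (Finset (Tri n)) := powersetCard (NN n) univ

/-- expectation with respect to the determinantal law -/
def Ex (n : ℕ) (F : Finset (Tri n) → ℝ) : ℝ := ∑ S ∈ cand n, W S * F S

/-- real version of `D1`, as the matrix of `d : ℝ^V → ℝ^E` -/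
def dM (n : ℕ) : Matrix (Edg n) (Fin n) ℝ := Matrix.of fun e v => (D1 v e : ℝ)

/-- real version of `D2` -/
def DM (n : ℕ) : Matrix (Edg n) (Tri n) ℝ := Matrix.of fun e t => (D2 e t : ℝ)

/-- `(1/n) (d dᵀ + ∑ x_t D(t) D(t)ᵀ)` -/
def Mx (x : Tri n → ℝ) : Matrix (Edg n) (Edg n) ℝ :=
  (1 / (n : ℝ)) • (dM n * (dM n).transpose + DM n * Matrix.diagonal x * (DM n).transpose)

/-! ### cochains -/

/-- 1-cochains with values in `G` (antisymmetric functions, stored on increasing pairs) -/
abbrev Coch (n : ℕ) (G : Type) := Edg n → G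

section
variable {G : Type} [AddCommGroup G]

/-- value of a cochain on an ordered pair: antisymmetric, `0` on the diagonal -/
def val (f : Coch n G) (x y : Fin n) : G :=
  if h : x < y then f ⟨(x, y), h⟩ else if h : y < x then - f ⟨(y, x), h⟩ else 0

/-- curvature `f(x,y) + f(y,z) + f(z,x)` -/
def cur (f : Coch n G) (x y z : Fin n) : G := val f x y + val f y z + val f z x

/-- curvature on a triangle -/
def curT (f : Coch n G) (t : Tri n) : G := cur f t.a t.b t.c

/-- coboundary of a vertex function -/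
def cob (c : Fin n → G) : Coch n G := fun e => c e.1.2 - c e.1.1

/-- closed triangles -/
def Z [DecidableEq G] (f : Coch n G) : Finset (Tri n) := univ.filter fun t => curT f t = 0

/-- `D_xy = #{z : f(x,z)+f(z,y) = f(x,y)}` -/
def Dg [DecidableEq G] (f : Coch n G) (x y : Fin n) : ℕ :=
  (univ.filter fun z => val f x z + val f z y = val f x y).card

/-- the Hadamard bound -/
def Phi [DecidableEq G] (f : Coch n G) : ℝ := ∏ e : Edg n, (Dg f e.1.1 e.1.2 : ℝ) / n

/-- `w(f) = P(T ⊆ Z(f))` -/
def w [DecidableEq G] (f : Coch n G) : ℝ := ∑ S ∈ (cand n).filter (fun S => S ⊆ Z f), W S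

/-- the values of the curvature generate `G` -/
def ST (f : Coch n G) : Prop :=
  AddSubgroup.closure (Set.range fun p : Fin n × Fin n × Fin n => cur f p.1 p.2.1 p.2.2) = ⊤

end

/-- `E #Hom(H_1(T), G)` -/
def HomMom (n : ℕ) (G : Type) [AddCommGroup G] : ℝ := Ex n fun S => (Nat.card (H1 S →+ G) : ℝ)

/-- `E #Sur(H_1(T), G)` -/
def SurMom (n : ℕ) (G : Type) [AddCommGroup G] : ℝ :=
  Ex n fun S => (Nat.card {φ : H1 S →+ G // Function.Surjective φ} : ℝ)

end

end Pool.Agent.DH10
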