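import Mathlib
import Pool.Agent.DH10.GroupPairs

/-!
# DH10.GroupConst : the constants (Part 7)

`coeff_sum`: `∑_j c_j = 1/|GL_i(F_p)|`.
Proof.  Take `Γ = F_M = (ZMod (p^e))^M` with `p^(e-1)` killing `G` and `p^e` killing all `B_j` and let `M → ∞`: for
every onto `φ : F_M → G` the kernel contains `p^(e-1) F_M = F_M[p]`, so `rkKer φ = M` and the identity reads
`#Sur(F_M,G) gb p M i = ∑_j c_j #Sur(F_M,B_j)`.  (The `B_j` with `c_j ≠ 0` have order `|G| p^i`: include this in
`exists_coeff`.)  Divide by `(|G| p^i)^M` and use `#Sur(F_M,B)/|B|^M → 1` (non-generating `M`-tuples lie in one of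
finitely many proper subgroups, each of size `≤ |B|/2`) and `gb_div_tendsto`.
-/

set_option autoImplicit false

open Finset Filter Topology

namespace Pool.Agent.DH10

noncomputable section

/-! ### the test groups -/

private lemma gc_zmod_card (p e : ℕ) (hp : p.Prime) :
    Nat.card {a : ZMod (p ^ (e + 1)) // p • a = 0} = p := by
  have hpos : 0 < p := hp.pos
  have hne : NeZero (p ^ (e + 1)) := ⟨(pow_pos hpos _).ne'⟩
  let f : Fin p → {a : ZMod (p ^ (e + 1)) // p • a = 0} := fun k =>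
    ⟨(((k : ℕ) * p ^ e : ℕ) : ZMod (p ^ (e + 1))), by
      rw [nsmul_eq_mul, ← Nat.cast_mul, ZMod.natCast_eq_zero_iff]
      exact ⟨k, by ring⟩⟩
  have hf : Function.Bijective f := by
    constructor
    · intro k l hkl
      have h1 : (((k : ℕ) * p ^ e : ℕ) : ZMod (p ^ (e + 1))) =
          (((l : ℕ) * p ^ e : ℕ) : ZMod (p ^ (e + 1))) := congrArg Subtype.val hkl
      rw [ZMod.natCast_eq_natCast_iff'] at h1
      have hlt : ∀ m : Fin p, (m : ℕ) * p ^ e < p ^ (e + 1) := by
        intro m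
        rw [pow_succ, mul_comm (p ^ e)]
        exact Nat.mul_lt_mul_of_pos_right m.2 (pow_pos hpos _)
      rw [Nat.mod_eq_of_lt (hlt k), Nat.mod_eq_of_lt (hlt l)] at h1
      exact Fin.ext (Nat.eq_of_mul_eq_mul_right (pow_pos hpos _) h1)
    · rintro ⟨a, ha⟩
      have h1 : ((p * a.val : ℕ) : ZMod (p ^ (e + 1))) = 0 := by
        rw [Nat.cast_mul, ZMod.natCast_zmod_val, ← nsmul_eq_mul]
        exact ha
      rw [ZMod.natCast_eq_zero_iff] at h1
      have h1' : p * p ^ e ∣ p * a.val := (dvd_of_eq (pow_succ' p e).symm).trans h1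
      obtain ⟨k, hk⟩ := Nat.dvd_of_mul_dvd_mul_left hpos h1'
      have hlt : k < p := by
        have h2 := ZMod.val_lt a
        rw [hk, pow_succ] at h2
        exact Nat.lt_of_mul_lt_mul_left h2
      refine ⟨⟨k, hlt⟩, Subtype.ext ?_⟩
      change ((k * p ^ e : ℕ) : ZMod (p ^ (e + 1))) = a
      rw [mul_comm, ← hk, ZMod.natCast_zmod_val]
  rw [← Nat.card_eq_of_bijective f hf, Nat.card_eq_fintype_card, Fintype.card_fin]

private lemma gc_zmod_div (p e : ℕ) (hp : p.Prime) (a : ZMod (p ^ (e + 1))) (ha : p • a = 0) :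
    ∃ b : ZMod (p ^ (e + 1)), a = p ^ e • b := by
  have hpos : 0 < p := hp.pos
  have hne : NeZero (p ^ (e + 1)) := ⟨(pow_pos hpos _).ne'⟩
  have h1 : ((p * a.val : ℕ) : ZMod (p ^ (e + 1))) = 0 := by
    rw [Nat.cast_mul, ZMod.natCast_zmod_val, ← nsmul_eq_mul]
    exact ha
  rw [ZMod.natCast_eq_zero_iff] at h1
  have h1' : p * p ^ e ∣ p * a.val := (dvd_of_eq (pow_succ' p e).symm).trans h1
  obtain ⟨k, hk⟩ := Nat.dvd_of_mul_dvd_mul_left hpos h1'
  refine ⟨(k : ZMod (p ^ (e + 1))), ?_⟩
  rw [nsmul_eq_mul, ← Nat.cast_mul, ← hk, ZMod.natCast_zmod_val]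

private lemma gc_rk (p e M : ℕ) (hp : p.Prime) {A : Type} [AddCommGroup A]
    (hA : ∀ a : A, p ^ e • a = 0) (φ : (Fin M → ZMod (p ^ (e + 1))) →+ A) :
    rkKer p φ = M := by
  unfold rkKer
  have h1 : ∀ x : Fin M → ZMod (p ^ (e + 1)),
      (φ x = 0 ∧ p • x = 0) ↔ ∀ i, p • x i = 0 := by
    intro x
    constructor
    · rintro ⟨-, h⟩ i
      have := congrFun h i
      simpa using this
    · intro h
      choose b hb using fun i => gc_zmod_div p e hp (x i) (h i)
      have hx : x = p ^ e • b := by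
        funext i
        rw [Pi.smul_apply]
        exact hb i
      refine ⟨?_, ?_⟩
      · rw [hx, map_nsmul, hA]
      · funext i
        rw [Pi.smul_apply]
        exact h i
  have h2 : Nat.card {x : Fin M → ZMod (p ^ (e + 1)) // φ x = 0 ∧ p • x = 0} = p ^ M := by
    rw [Nat.card_congr ((Equiv.subtypeEquivRight h1).trans
      (Equiv.subtypePiEquivPi (p := fun (_ : Fin M) (a : ZMod (p ^ (e + 1))) => p • a = 0))),
      Nat.card_pi]
    simp only [gc_zmod_card p e hp, Finset.prod_const, Finset.card_univ, Fintype.card_fin]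
  rw [h2, Nat.log_pow hp.one_lt]

/-! ### counting surjections from the test groups -/

private lemma gc_bij (n M : ℕ) [NeZero n] {A : Type} [AddCommGroup A]
    (hA : ∀ a : A, n • a = 0) :
    Function.Bijective (fun (f : (Fin M → ZMod n) →+ A) (i : Fin M) => f (Pi.single i 1)) := by
  classical
  constructor
  · intro f g hfg
    refine AddMonoidHom.functions_ext _ _ _ fun i a => ?_
    have h1 : Pi.single i a = a.val • (Pi.single i (1 : ZMod n) : Fin M → ZMod n) := by
      rw [← Pi.single_smul, nsmul_eq_mul, mul_one, ZMod.natCast_zmod_val]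
    rw [h1, map_nsmul, map_nsmul]
    exact congrArg (fun z => a.val • z) (congrFun hfg i)
  · intro v
    have hv : ∀ i, (zmultiplesHom A (v i)) (n : ℤ) = 0 := by
      intro i
      rw [zmultiplesHom_apply, natCast_zsmul]
      exact hA _
    refine ⟨∑ i, (ZMod.lift n ⟨zmultiplesHom A (v i), hv i⟩).comp
      (Pi.evalAddMonoidHom (fun _ : Fin M => ZMod n) i), ?_⟩
    funext j
    simp only [AddMonoidHom.finsetSum_apply, AddMonoidHom.comp_apply, Pi.evalAddMonoidHom_apply]
    rw [Finset.sum_eq_single j]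
    · rw [Pi.single_eq_same]
      have h1 : (1 : ZMod n) = ((1 : ℤ) : ZMod n) := by simp
      rw [h1, ZMod.lift_coe]
      simp
    · intro i _ hij
      rw [Pi.single_eq_of_ne hij, map_zero]
    · intro h
      exact absurd (Finset.mem_univ j) h

private lemma gc_range (n M : ℕ) [NeZero n] {A : Type} [AddCommGroup A]
    (f : (Fin M → ZMod n) →+ A) :
    Function.Surjective f ↔
      AddSubgroup.closure (Set.range fun i : Fin M => f (Pi.single i 1)) = ⊤ := by
  classical
  have h1 : f.range = AddSubgroup.closure (Set.range fun i : Fin M => f (Pi.single i 1)) := by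
    apply le_antisymm
    · rintro _ ⟨x, rfl⟩
      have hx : x = ∑ i, (x i).val • (Pi.single i (1 : ZMod n) : Fin M → ZMod n) := by
        conv_lhs => rw [← Finset.univ_sum_single x]
        refine Finset.sum_congr rfl fun i _ => ?_
        rw [← Pi.single_smul, nsmul_eq_mul, mul_one, ZMod.natCast_zmod_val]
      rw [hx, map_sum]
      refine AddSubgroup.sum_mem _ fun i _ => ?_
      rw [map_nsmul]
      exact AddSubgroup.nsmul_mem _ (AddSubgroup.subset_closure (Set.mem_range_self i)) _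
    · rw [AddSubgroup.closure_le]
      rintro _ ⟨i, rfl⟩
      exact ⟨_, rfl⟩
  rw [← h1]
  exact AddMonoidHom.range_eq_top.symm

private lemma gc_card_sur (n M : ℕ) [NeZero n] {A : Type} [AddCommGroup A]
    (hA : ∀ a : A, n • a = 0) :
    Nat.card (Sur (Fin M → ZMod n) A) =
      Nat.card {v : Fin M → A // AddSubgroup.closure (Set.range v) = ⊤} := by
  refine Nat.card_congr ?_
  exact (Equiv.ofBijective _ (gc_bij n M hA)).subtypeEquiv fun f => gc_range n M f

private lemma gc_ratio {A : Type} [AddCommGroup A] [Finite A] :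
    Tendsto (fun M : ℕ =>
      (Nat.card {v : Fin M → A // AddSubgroup.closure (Set.range v) = ⊤} : ℝ) /
        (Nat.card A : ℝ) ^ M) atTop (𝓝 1) := by
  classical
  have : Fintype A := Fintype.ofFinite A
  have : Finite (AddSubgroup A) := inferInstance
  have : Fintype (AddSubgroup A) := Fintype.ofFinite _
  set q : ℕ := Nat.card A with hq
  have hq0 : 0 < q := Nat.card_pos
  set s : ℕ := Fintype.card (AddSubgroup A) with hs
  -- total count
  have htot : ∀ M : ℕ, Nat.card {v : Fin M → A // AddSubgroup.closure (Set.range v) = ⊤} +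
      Nat.card {v : Fin M → A // ¬ AddSubgroup.closure (Set.range v) = ⊤} = q ^ M := by
    intro M
    rw [Nat.card_eq_fintype_card, Nat.card_eq_fintype_card, Fintype.card_subtype_compl,
      Fintype.card_fun, Fintype.card_fin]
    have h1 : Fintype.card {v : Fin M → A // AddSubgroup.closure (Set.range v) = ⊤} ≤
        Fintype.card A ^ M := by
      have := Fintype.card_subtype_le (fun v : Fin M → A => AddSubgroup.closure (Set.range v) = ⊤)
      rwa [Fintype.card_fun, Fintype.card_fin] at this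
    rw [Nat.add_sub_cancel' h1, hq, Nat.card_eq_fintype_card]
  -- bad count
  have hbad : ∀ M : ℕ, (Nat.card {v : Fin M → A // ¬ AddSubgroup.closure (Set.range v) = ⊤} : ℝ) ≤
      s * ((q : ℝ) / 2) ^ M := by
    intro M
    rw [Nat.card_eq_fintype_card, Fintype.card_subtype]
    have hsub : (Finset.univ.filter fun v : Fin M → A =>
        ¬ AddSubgroup.closure (Set.range v) = ⊤) ⊆
        (Finset.univ.filter fun K : AddSubgroup A => K ≠ ⊤).biUnion fun K =>
          Finset.univ.filter fun v : Fin M → A => ∀ i, v i ∈ K := by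
      intro v hv
      rw [Finset.mem_filter] at hv
      rw [Finset.mem_biUnion]
      refine ⟨AddSubgroup.closure (Set.range v), ?_, ?_⟩
      · rw [Finset.mem_filter]
        exact ⟨Finset.mem_univ _, hv.2⟩
      · rw [Finset.mem_filter]
        exact ⟨Finset.mem_univ _, fun i => AddSubgroup.subset_closure ⟨i, rfl⟩⟩
    have h1 : ((Finset.univ.filter fun v : Fin M → A =>
        ¬ AddSubgroup.closure (Set.range v) = ⊤).card : ℝ) ≤
        ∑ K ∈ Finset.univ.filter (fun K : AddSubgroup A => K ≠ ⊤),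
          ((Finset.univ.filter fun v : Fin M → A => ∀ i, v i ∈ K).card : ℝ) := by
      have := (Finset.card_le_card hsub).trans Finset.card_biUnion_le
      exact_mod_cast this
    refine h1.trans ?_
    have h2 : ∀ K ∈ Finset.univ.filter (fun K : AddSubgroup A => K ≠ ⊤),
        ((Finset.univ.filter fun v : Fin M → A => ∀ i, v i ∈ K).card : ℝ) ≤
          ((q : ℝ) / 2) ^ M := by
      intro K hK
      rw [Finset.mem_filter] at hK
      have hcard : (Finset.univ.filter fun v : Fin M → A => ∀ i, v i ∈ K).card =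
          Nat.card K ^ M := by
        rw [← Fintype.card_subtype, ← Nat.card_eq_fintype_card,
          Nat.card_congr (Equiv.subtypePiEquivPi (p := fun (_ : Fin M) (a : A) => a ∈ K)),
          Nat.card_pi]
        simp
      rw [hcard, Nat.cast_pow]
      refine pow_le_pow_left₀ (Nat.cast_nonneg _) ?_ M
      have h3 : Nat.card K * K.index = Nat.card A := K.card_mul_index
      have h4 : 2 ≤ K.index := by
        have h5 : K.index ≠ 0 := AddSubgroup.FiniteIndex.index_ne_zero
        have h6 : K.index ≠ 1 := fun h => hK.2 (AddSubgroup.index_eq_one.1 h)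
        omega
      have h7 : Nat.card K * 2 ≤ q := by
        rw [hq, ← h3]
        exact Nat.mul_le_mul_left _ h4
      have h8 : ((Nat.card K * 2 : ℕ) : ℝ) ≤ (q : ℝ) := by exact_mod_cast h7
      push_cast at h8
      linarith
    refine (Finset.sum_le_sum h2).trans ?_
    rw [Finset.sum_const, nsmul_eq_mul]
    refine mul_le_mul_of_nonneg_right ?_ (by positivity)
    exact_mod_cast (Finset.card_filter_le _ _)
  have hqR : (0 : ℝ) < q := by exact_mod_cast hq0
  have hlow : ∀ M : ℕ, 1 - s * (1 / 2 : ℝ) ^ M ≤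
      (Nat.card {v : Fin M → A // AddSubgroup.closure (Set.range v) = ⊤} : ℝ) / (q : ℝ) ^ M := by
    intro M
    have hqM : (0 : ℝ) < (q : ℝ) ^ M := by positivity
    rw [le_div_iff₀ hqM]
    have h1 : (Nat.card {v : Fin M → A // AddSubgroup.closure (Set.range v) = ⊤} : ℝ) +
      (Nat.card {v : Fin M → A // ¬ AddSubgroup.closure (Set.range v) = ⊤} : ℝ) =
        (q : ℝ) ^ M := by exact_mod_cast htot M
    have h2 := hbad M
    rw [div_pow] at h2
    have h3 : (1 - s * (1 / 2 : ℝ) ^ M) * (q : ℝ) ^ M =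
        (q : ℝ) ^ M - s * ((q : ℝ) ^ M / 2 ^ M) := by
      rw [div_pow, one_pow]
      ring
    rw [h3]
    linarith
  have hup : ∀ M : ℕ,
      (Nat.card {v : Fin M → A // AddSubgroup.closure (Set.range v) = ⊤} : ℝ) / (q : ℝ) ^ M ≤
        1 := by
    intro M
    have hqM : (0 : ℝ) < (q : ℝ) ^ M := by positivity
    rw [div_le_one hqM]
    have h1 : (Nat.card {v : Fin M → A // AddSubgroup.closure (Set.range v) = ⊤} : ℝ) +
      (Nat.card {v : Fin M → A // ¬ AddSubgroup.closure (Set.range v) = ⊤} : ℝ) =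
        (q : ℝ) ^ M := by exact_mod_cast htot M
    have h2 : (0 : ℝ) ≤
      (Nat.card {v : Fin M → A // ¬ AddSubgroup.closure (Set.range v) = ⊤} : ℝ) :=
        Nat.cast_nonneg _
    linarith
  have hlim : Tendsto (fun M : ℕ => 1 - s * (1 / 2 : ℝ) ^ M) atTop (𝓝 1) := by
    have h1 : Tendsto (fun M : ℕ => (1 / 2 : ℝ) ^ M) atTop (𝓝 0) :=
      tendsto_pow_atTop_nhds_zero_of_lt_one (by norm_num) (by norm_num)
    have h2 := (h1.const_mul (s : ℝ)).const_sub 1
    simpa using h2
  exact tendsto_of_tendsto_of_tendsto_of_le_of_le hlim tendsto_const_nhds hlow hup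

private lemma gc_exp (p : ℕ) (A : Type) [AddCommGroup A] [Finite A] (hA : IsP p A) :
    ∃ m : ℕ, ∀ a : A, p ^ m • a = 0 := by
  classical
  have : Fintype A := Fintype.ofFinite A
  choose k hk using hA
  refine ⟨∑ a, k a, fun a => ?_⟩
  have h1 : k a ≤ ∑ b, k b := Finset.single_le_sum (fun _ _ => Nat.zero_le _) (Finset.mem_univ a)
  obtain ⟨c, hc⟩ := Nat.exists_eq_add_of_le h1
  rw [hc, pow_add, mul_comm, mul_smul, hk, smul_zero]

private lemma gc_exp_mono {p : ℕ} {A : Type} [AddCommGroup A] {m n : ℕ} (hmn : m ≤ n)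
    (h : ∀ a : A, p ^ m • a = 0) (a : A) : p ^ n • a = 0 := by
  obtain ⟨c, hc⟩ := Nat.exists_eq_add_of_le hmn
  rw [hc, pow_add, mul_comm, mul_smul, h, smul_zero]

theorem coeff_sum (p : ℕ) (hp : p.Prime) (G : FAb) (hG : IsP p G.carrier) (i : ℕ) (k : ℕ)
    (B : Fin k → FAb) (c : Fin k → ℝ) (hB : ∀ j, IsP p (B j).carrier)
    (hcard : ∀ j, Nat.card (B j).carrier = Nat.card G.carrier * p ^ i)
    (h : ∀ Γ : FAb, IsP p Γ.carrier →
        ∑ᶠ φ : Sur Γ.carrier G.carrier, gb p (rkKer p φ.1) i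
          = ∑ j, c j * (Nat.card (Sur Γ.carrier (B j).carrier) : ℝ)) :
    ∑ j, c j = 1 / glc p i := by
  classical
  have hpos : 0 < p := hp.pos
  obtain ⟨m0, hm0⟩ := gc_exp p G.carrier hG
  choose m hm using fun j => gc_exp p (B j).carrier (hB j)
  set e : ℕ := m0 + ∑ j, m j with he
  have hGe : ∀ a : G.carrier, p ^ e • a = 0 := gc_exp_mono (Nat.le_add_right _ _) hm0
  have hBe : ∀ j, ∀ a : (B j).carrier, p ^ (e + 1) • a = 0 := by
    intro j
    refine gc_exp_mono ?_ (hm j)
    have h1 : m j ≤ ∑ b, m b :=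
      Finset.single_le_sum (fun _ _ => Nat.zero_le _) (Finset.mem_univ j)
    omega
  have hGe' : ∀ a : G.carrier, p ^ (e + 1) • a = 0 := gc_exp_mono (Nat.le_succ _) hGe
  have hne : NeZero (p ^ (e + 1)) := ⟨(pow_pos hpos _).ne'⟩
  -- the identity for the test groups
  have key : ∀ M : ℕ, (Nat.card (Sur (Fin M → ZMod (p ^ (e + 1))) G.carrier) : ℝ) * gb p M i =
      ∑ j, c j * (Nat.card (Sur (Fin M → ZMod (p ^ (e + 1))) (B j).carrier) : ℝ) := by
    intro M
    have hP : IsP p (Fin M → ZMod (p ^ (e + 1))) := by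
      intro x
      refine ⟨e + 1, ?_⟩
      funext l
      rw [Pi.smul_apply, nsmul_eq_mul, ZMod.natCast_self, zero_mul]
      rfl
    have h1 := h (@FAb.mk (Fin M → ZMod (p ^ (e + 1))) _ inferInstance) hP
    have h2 : ∀ φ : Sur (Fin M → ZMod (p ^ (e + 1))) G.carrier,
        gb p (rkKer p φ.1) i = gb p M i := by
      intro φ
      rw [gc_rk p e M hp hGe φ.1]
    have h3 : ∑ᶠ φ : Sur (Fin M → ZMod (p ^ (e + 1))) G.carrier, gb p (rkKer p φ.1) i =
        (Nat.card (Sur (Fin M → ZMod (p ^ (e + 1))) G.carrier) : ℝ) * gb p M i := by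
      have hfin : Finite ((Fin M → ZMod (p ^ (e + 1))) →+ G.carrier) :=
        Finite.of_injective (fun f x => f x) (fun f g hfg => AddMonoidHom.ext (congrFun hfg))
      have : Fintype (Sur (Fin M → ZMod (p ^ (e + 1))) G.carrier) := Fintype.ofFinite _
      rw [finsum_eq_sum_of_fintype]
      simp only [h2, Finset.sum_const, nsmul_eq_mul, Finset.card_univ, Nat.card_eq_fintype_card]
    rw [← h3]
    exact h1
  -- limits
  have hq : (0 : ℝ) < (Nat.card G.carrier : ℝ) := by
    exact_mod_cast Nat.card_pos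
  have hpR : (1 : ℝ) < (p : ℝ) := by exact_mod_cast hp.one_lt
  have hpR0 : (0 : ℝ) < (p : ℝ) := by linarith
  have hG1 : Tendsto (fun M : ℕ =>
      (Nat.card (Sur (Fin M → ZMod (p ^ (e + 1))) G.carrier) : ℝ) /
        (Nat.card G.carrier : ℝ) ^ M) atTop (𝓝 1) := by
    have := gc_ratio (A := G.carrier)
    refine this.congr fun M => ?_
    rw [gc_card_sur (p ^ (e + 1)) M hGe']
  have hB1 : ∀ j, Tendsto (fun M : ℕ =>
      (Nat.card (Sur (Fin M → ZMod (p ^ (e + 1))) (B j).carrier) : ℝ) /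
        (Nat.card (B j).carrier : ℝ) ^ M) atTop (𝓝 1) := by
    intro j
    have := gc_ratio (A := (B j).carrier)
    refine this.congr fun M => ?_
    rw [gc_card_sur (p ^ (e + 1)) M (hBe j)]
  have hL : Tendsto (fun M : ℕ =>
      (Nat.card (Sur (Fin M → ZMod (p ^ (e + 1))) G.carrier) : ℝ) /
        (Nat.card G.carrier : ℝ) ^ M * (gb p M i / (p : ℝ) ^ (i * M))) atTop
        (𝓝 (1 * (1 / glc p i))) := hG1.mul (gb_div_tendsto hpR i)
  have hR : Tendsto (fun M : ℕ => ∑ j, c j *
      ((Nat.card (Sur (Fin M → ZMod (p ^ (e + 1))) (B j).carrier) : ℝ) /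
        (Nat.card (B j).carrier : ℝ) ^ M)) atTop (𝓝 (∑ j, c j * 1)) :=
    tendsto_finsetSum _ fun j _ => (hB1 j).const_mul (c j)
  have heq : ∀ M : ℕ, (Nat.card (Sur (Fin M → ZMod (p ^ (e + 1))) G.carrier) : ℝ) /
        (Nat.card G.carrier : ℝ) ^ M * (gb p M i / (p : ℝ) ^ (i * M)) =
      ∑ j, c j * ((Nat.card (Sur (Fin M → ZMod (p ^ (e + 1))) (B j).carrier) : ℝ) /
        (Nat.card (B j).carrier : ℝ) ^ M) := by
    intro M
    have h1 : ∀ j, ((Nat.card (B j).carrier : ℝ)) ^ M =
        (Nat.card G.carrier : ℝ) ^ M * (p : ℝ) ^ (i * M) := by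
      intro j
      rw [hcard j]
      push_cast
      rw [mul_pow, pow_mul]
    simp only [h1]
    have hne1 : (Nat.card G.carrier : ℝ) ^ M ≠ 0 := by positivity
    have hne2 : (p : ℝ) ^ (i * M) ≠ 0 := by positivity
    have h2 : ∀ j, c j * ((Nat.card (Sur (Fin M → ZMod (p ^ (e + 1))) (B j).carrier) : ℝ) /
        ((Nat.card G.carrier : ℝ) ^ M * (p : ℝ) ^ (i * M))) =
        (c j * (Nat.card (Sur (Fin M → ZMod (p ^ (e + 1))) (B j).carrier) : ℝ)) /
        ((Nat.card G.carrier : ℝ) ^ M * (p : ℝ) ^ (i * M)) := by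
      intro j
      ring
    simp only [h2]
    rw [← Finset.sum_div, ← key M, div_mul_div_comm]
  have hR' : Tendsto (fun M : ℕ =>
      (Nat.card (Sur (Fin M → ZMod (p ^ (e + 1))) G.carrier) : ℝ) /
        (Nat.card G.carrier : ℝ) ^ M * (gb p M i / (p : ℝ) ^ (i * M))) atTop
        (𝓝 (∑ j, c j * 1)) := hR.congr fun M => (heq M).symm
  have := tendsto_nhds_unique hL hR'
  simp only [mul_one, one_mul] at this
  exact this.symm

end

end Pool.Agent.DH10
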