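import Mathlib
import Pool.Agent.DH10.GroupConst

/-!
# DH10.Dist : surjection moments determine the limit distribution (Part 7, assembly)

Proof.  For a finite abelian `p`-group `Γ` and `φ ∈ Sur(Γ,G)` with `r = rkKer φ`: `φ` is injective iff `r = 0`
(a nonzero finite `p`-group has an element of order `p`).  By `gb_partial_sum`, `gb_zero_left`, the partial sums
`S_I(r) = ∑_{i ≤ I} (-1)^i p^{C(i,2)} gb p r i` satisfy `S_I(0) = 1`, and for `r ≥ 1` `S_I(r) ≥ 0` for `I` even, `≤ 0` for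
`I` odd.  So `∑_φ S_{I}(r φ) ≤ #{φ injective} ≤ ∑_φ S_{I'}(r φ)` for `I` odd, `I'` even, and
`#{φ ∈ Sur(Γ,G) injective} = |Aut G|` if `Γ ≅ G`, else `0`.  Multiply by the weights and sum over `ι n`; by `exists_coeff`
and the hypothesis, `∑ weights ∑_φ gb p (r φ) i → ∑_j c_j = 1/glc p i`.  Hence liminf and limsup of
`|Aut G| · P_n` are between the odd and even partial sums of the series in `gb_euler`; let `I → ∞`.
-/

set_option autoImplicit false

open Finset Filter Topology

namespace Pool.Agent.DH10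

noncomputable section

/-- the rank of the kernel is zero iff the homomorphism is injective -/
private theorem rkKer_eq_zero_iff {p : ℕ} (hp : p.Prime) {A B : Type} [AddCommGroup A] [Finite A]
    [AddCommGroup B] (hA : IsP p A) (φ : A →+ B) :
    rkKer p φ = 0 ↔ Function.Injective φ := by
  constructor
  · intro h
    by_contra hinj
    rw [injective_iff_map_eq_zero] at hinj
    push Not at hinj
    obtain ⟨x, hx0, hx⟩ := hinj
    classical
    have hex := hA x
    set k := Nat.find hex with hk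
    have hk1 : p ^ k • x = 0 := Nat.find_spec hex
    have hk0 : k ≠ 0 := by
      intro h0
      rw [h0, pow_zero, one_smul] at hk1
      exact hx hk1
    obtain ⟨m, hm⟩ := Nat.exists_eq_succ_of_ne_zero hk0
    have hy : p ^ m • x ≠ 0 := by
      intro h0
      have := Nat.find_min' hex h0
      omega
    have hpy : p • (p ^ m • x) = 0 := by
      rw [smul_smul, ← pow_succ', ← Nat.succ_eq_add_one, ← hm]
      exact hk1
    have hord : addOrderOf (p ^ m • x) = p := by
      have := Fact.mk hp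
      exact addOrderOf_eq_prime hpy hy
    have hcard : p ≤ Nat.card {x : A // φ x = 0 ∧ p • x = 0} := by
      have h1 : Function.Injective (fun i : Fin p =>
          (⟨(i : ℕ) • (p ^ m • x), by rw [map_nsmul, map_nsmul, hx0, smul_zero, smul_zero],
            by rw [smul_comm, hpy, smul_zero]⟩ : {x : A // φ x = 0 ∧ p • x = 0})) := by
        intro i j hij
        simp only [Subtype.mk.injEq] at hij
        have h2 := nsmul_injOn_Iio_addOrderOf (x := p ^ m • x)
        apply Fin.ext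
        apply h2 _ _ hij
        · rw [hord]; exact i.2
        · rw [hord]; exact j.2
      have h3 := Nat.card_le_card_of_injective _ h1
      rwa [Nat.card_fin] at h3
    have := Nat.log_pos hp.one_lt hcard
    rw [rkKer] at h
    omega
  · intro h
    have hc : Nat.card {x : A // φ x = 0 ∧ p • x = 0} = 1 := by
      rw [Nat.card_eq_one_iff_unique]
      refine ⟨⟨fun a b => ?_⟩, ⟨⟨0, map_zero φ, smul_zero _⟩⟩⟩
      apply Subtype.ext
      apply h
      rw [a.2.1, b.2.1]
    rw [rkKer, hc, Nat.log_one_right]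

/-- the number of injective surjections -/
private theorem card_inj {A B : Type} [AddCommGroup A] [Finite A] [AddCommGroup B] [Finite B] :
    (Nat.card {φ : Sur A B // Function.Injective φ.1} : ℝ)
      = (Nat.card (B ≃+ B) : ℝ) * (@ite ℝ (Nonempty (A ≃+ B)) (Classical.propDecidable _) 1 0) := by
  classical
  by_cases h : Nonempty (A ≃+ B)
  · obtain ⟨e0⟩ := h
    rw [if_pos ⟨e0⟩, mul_one]
    congr 1
    refine Nat.card_congr
      { toFun := fun φ => e0.symm.trans (AddEquiv.ofBijective φ.1.1 ⟨φ.2, φ.1.2⟩)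
        invFun := fun e => ⟨⟨(e0.trans e).toAddMonoidHom, (e0.trans e).surjective⟩,
          (e0.trans e).injective⟩
        left_inv := ?_
        right_inv := ?_ }
    · intro φ
      apply Subtype.ext
      apply Subtype.ext
      ext x
      first
        | (simp; done)
        | (simp; rfl)
    · intro e
      ext x
      simp
  · rw [if_neg h, mul_zero, Nat.cast_eq_zero, Nat.card_eq_zero]
    left
    refine ⟨fun φ => h ⟨AddEquiv.ofBijective φ.1.1 ⟨φ.2, φ.1.2⟩⟩⟩

/-- alternating partial sums -/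
private def pS (p : ℝ) (I r : ℕ) : ℝ := ∑ i ∈ range (I + 1), (-1 : ℝ) ^ i * p ^ (i.choose 2) * gb p r i

private theorem pS_zero {p : ℝ} (hp : 1 < p) (I : ℕ) : pS p I 0 = 1 := by
  rw [pS, Finset.sum_range_succ', Finset.sum_eq_zero]
  · simp [gb_zero_right]
  · intro i _
    rw [gb_zero_left hp (Nat.succ_ne_zero i), mul_zero]

private theorem pS_even {p : ℝ} (hp : 1 < p) (K r : ℕ) :
    (if r = 0 then (1 : ℝ) else 0) ≤ pS p (2 * K) r := by
  rcases Nat.eq_zero_or_pos r with rfl | hr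
  · rw [if_pos rfl, pS_zero hp]
  · rw [if_neg hr.ne']
    obtain ⟨s, rfl⟩ := Nat.exists_eq_succ_of_ne_zero hr.ne'
    rw [pS, Nat.succ_eq_add_one, gb_partial_sum hp, pow_mul, neg_one_sq, one_pow, one_mul]
    exact mul_nonneg (by positivity) (gb_nonneg hp _ _)

private theorem pS_odd {p : ℝ} (hp : 1 < p) (K r : ℕ) :
    pS p (2 * K + 1) r ≤ (if r = 0 then (1 : ℝ) else 0) := by
  rcases Nat.eq_zero_or_pos r with rfl | hr
  · rw [if_pos rfl, pS_zero hp]
  · rw [if_neg hr.ne']
    obtain ⟨s, rfl⟩ := Nat.exists_eq_succ_of_ne_zero hr.ne'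
    rw [pS, Nat.succ_eq_add_one, gb_partial_sum hp, pow_succ, pow_mul, neg_one_sq, one_pow, one_mul,
      neg_one_mul, neg_mul]
    have := mul_nonneg (pow_nonneg (zero_le_one.trans hp.le) ((2 * K + 1 + 1).choose 2))
      (gb_nonneg hp s (2 * K + 1))
    linarith

/-- the weighted alternating moments -/
private def mom (p : ℝ) {κ : Type} [Fintype κ] (Wt : κ → ℝ) (q : ℕ) (Γ : κ → FAb) (G : FAb)
    (I : ℕ) : ℝ :=
  ∑ i, Wt i * ∑ᶠ φ : Sur (Γ i).carrier G.carrier, pS p I (rkKer q φ.1)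

private theorem finite_hom (A B : FAb) : Finite (Sur A.carrier B.carrier) := by
  have : Finite (A.carrier →+ B.carrier) := DFunLike.finite _
  infer_instance

/-- `#{injective}` as a sum of indicators -/
private theorem sum_ind {q : ℕ} (hq : q.Prime) (A B : FAb) (hA : IsP q A.carrier) :
    ∑ᶠ φ : Sur A.carrier B.carrier, (if rkKer q φ.1 = 0 then (1 : ℝ) else 0)
      = (Nat.card (B.carrier ≃+ B.carrier) : ℝ)
        * (@ite ℝ (Nonempty (A.carrier ≃+ B.carrier)) (Classical.propDecidable _) 1 0) := by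
  classical
  have := finite_hom A B
  rw [← card_inj]
  have := Fintype.ofFinite (Sur A.carrier B.carrier)
  rw [finsum_eq_sum_of_fintype, Finset.sum_boole, Nat.card_eq_fintype_card,
    Fintype.card_subtype]
  congr 2
  apply Finset.filter_congr
  intro φ _
  exact rkKer_eq_zero_iff hq hA φ.1

private theorem mom_lower {q : ℕ} (hq : q.Prime) {κ : Type} [Fintype κ] (Wt : κ → ℝ)
    (hW : ∀ i, 0 ≤ Wt i) (Γ : κ → FAb) (hΓ : ∀ i, IsP q (Γ i).carrier) (G : FAb) (K : ℕ) :
    mom q Wt q Γ G (2 * K + 1) ≤ ∑ i, Wt i * ((Nat.card (G.carrier ≃+ G.carrier) : ℝ)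
        * (@ite ℝ (Nonempty ((Γ i).carrier ≃+ G.carrier)) (Classical.propDecidable _) 1 0)) := by
  have hq1 : (1 : ℝ) < q := by exact_mod_cast hq.one_lt
  apply Finset.sum_le_sum
  intro i _
  apply mul_le_mul_of_nonneg_left _ (hW i)
  rw [← sum_ind hq (Γ i) G (hΓ i)]
  have := finite_hom (Γ i) G
  have := Fintype.ofFinite (Sur (Γ i).carrier G.carrier)
  rw [finsum_eq_sum_of_fintype, finsum_eq_sum_of_fintype]
  exact Finset.sum_le_sum fun φ _ => pS_odd hq1 K _

private theorem mom_upper {q : ℕ} (hq : q.Prime) {κ : Type} [Fintype κ] (Wt : κ → ℝ)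
    (hW : ∀ i, 0 ≤ Wt i) (Γ : κ → FAb) (hΓ : ∀ i, IsP q (Γ i).carrier) (G : FAb) (K : ℕ) :
    ∑ i, Wt i * ((Nat.card (G.carrier ≃+ G.carrier) : ℝ)
        * (@ite ℝ (Nonempty ((Γ i).carrier ≃+ G.carrier)) (Classical.propDecidable _) 1 0))
      ≤ mom q Wt q Γ G (2 * K) := by
  have hq1 : (1 : ℝ) < q := by exact_mod_cast hq.one_lt
  apply Finset.sum_le_sum
  intro i _
  apply mul_le_mul_of_nonneg_left _ (hW i)
  rw [← sum_ind hq (Γ i) G (hΓ i)]
  have := finite_hom (Γ i) G
  have := Fintype.ofFinite (Sur (Γ i).carrier G.carrier)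
  rw [finsum_eq_sum_of_fintype, finsum_eq_sum_of_fintype]
  exact Finset.sum_le_sum fun φ _ => pS_even hq1 K _

private theorem mom_eq {p : ℝ} {q : ℕ} {κ : Type} [Fintype κ] (Wt : κ → ℝ) (Γ : κ → FAb) (G : FAb)
    (I : ℕ) : mom p Wt q Γ G I = ∑ j ∈ range (I + 1), (-1 : ℝ) ^ j * p ^ (j.choose 2)
      * ∑ i, Wt i * ∑ᶠ φ : Sur (Γ i).carrier G.carrier, gb p (rkKer q φ.1) j := by
  rw [mom]
  simp only [Finset.mul_sum]
  rw [Finset.sum_comm]
  apply Finset.sum_congr rfl
  intro i _
  have := finite_hom (Γ i) G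
  have := Fintype.ofFinite (Sur (Γ i).carrier G.carrier)
  simp only [finsum_eq_sum_of_fintype, pS, Finset.mul_sum]
  rw [Finset.sum_comm]
  apply Finset.sum_congr rfl
  intro j _
  apply Finset.sum_congr rfl
  intro φ _
  ring

theorem dist_of_moments (p : ℕ) (hp : p.Prime) (ι : ℕ → Type) [∀ n, Fintype (ι n)]
    (Wt : ∀ n, ι n → ℝ) (hW : ∀ n i, 0 ≤ Wt n i) (Γ : ∀ n, ι n → FAb)
    (hΓ : ∀ n i, IsP p (Γ n i).carrier)
    (hmom : ∀ B : FAb, IsP p B.carrier →
      Tendsto (fun n => ∑ i, Wt n i * (Nat.card (Sur (Γ n i).carrier B.carrier) : ℝ)) atTop (𝓝 1))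
    (G : FAb) (hG : IsP p G.carrier) :
    Tendsto (fun n => ∑ i, Wt n i *
        (@ite ℝ (Nonempty ((Γ n i).carrier ≃+ G.carrier)) (Classical.propDecidable _) 1 0)) atTop
      (𝓝 ((∏' j : ℕ, (1 - ((p : ℝ)⁻¹) ^ (j + 1))) / (Nat.card (G.carrier ≃+ G.carrier) : ℝ))) := by
  have hp1 : (1 : ℝ) < p := by exact_mod_cast hp.one_lt
  have hp2 : (2 : ℝ) ≤ p := by exact_mod_cast hp.two_le
  set L : ℝ := ∏' j : ℕ, (1 - ((p : ℝ)⁻¹) ^ (j + 1)) with hL
  -- the limits of the moments
  have hlim1 : ∀ j, Tendsto (fun n => ∑ i, Wt n i *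
      ∑ᶠ φ : Sur (Γ n i).carrier G.carrier, gb p (rkKer p φ.1) j) atTop (𝓝 (1 / glc p j)) := by
    intro j
    obtain ⟨k, B, c, -, hB, hcard, hall⟩ := exists_coeff p hp G hG j
    rw [← coeff_sum p hp G hG j k B c hB hcard hall]
    have h1 : (fun n => ∑ i, Wt n i *
        ∑ᶠ φ : Sur (Γ n i).carrier G.carrier, gb p (rkKer p φ.1) j)
        = fun n => ∑ l, c l * ∑ i, Wt n i * (Nat.card (Sur (Γ n i).carrier (B l).carrier) : ℝ) := by
      funext n
      simp only [Finset.mul_sum]
      rw [Finset.sum_comm]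
      apply Finset.sum_congr rfl
      intro i _
      rw [hall (Γ n i) (hΓ n i), Finset.mul_sum]
      apply Finset.sum_congr rfl
      intro l _
      ring
    rw [h1]
    refine tendsto_finsetSum _ fun l _ => ?_
    have h2 := (hmom (B l) (hB l)).const_mul (c l)
    rwa [mul_one] at h2
  have hlim2 : ∀ I, Tendsto (fun n => mom p (Wt n) p (Γ n) G I) atTop
      (𝓝 (∑ j ∈ range (I + 1), (-1 : ℝ) ^ j * (p : ℝ) ^ (j.choose 2) * (1 / glc p j))) := by
    intro I
    simp only [mom_eq]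
    exact tendsto_finsetSum _ fun j _ => (hlim1 j).const_mul _
  have hE := gb_euler hp2
  rw [← hL] at hE
  -- the number of automorphisms
  have hA : (0 : ℝ) < (Nat.card (G.carrier ≃+ G.carrier) : ℝ) := by
    have : Finite (G.carrier ≃+ G.carrier) := DFunLike.finite _
    exact_mod_cast Nat.card_pos
  set A : ℝ := (Nat.card (G.carrier ≃+ G.carrier) : ℝ) with hAdef
  have hmain : Tendsto (fun n => ∑ i, Wt n i * (A *
        (@ite ℝ (Nonempty ((Γ n i).carrier ≃+ G.carrier)) (Classical.propDecidable _) 1 0))) atTop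
      (𝓝 L) := by
    rw [Metric.tendsto_atTop] at hE ⊢
    intro ε hε
    obtain ⟨N, hN⟩ := hE (ε / 2) (by linarith)
    have a1 := hN (2 * N + 1) (by omega)
    have a2 := hN (2 * N + 1 + 1) (by omega)
    obtain ⟨n1, hn1⟩ := (Metric.tendsto_atTop.1 (hlim2 (2 * N))) (ε / 2) (by linarith)
    obtain ⟨n2, hn2⟩ := (Metric.tendsto_atTop.1 (hlim2 (2 * N + 1))) (ε / 2) (by linarith)
    refine ⟨max n1 n2, fun n hn => ?_⟩
    have b1 := hn1 n (le_trans (le_max_left _ _) hn)
    have b2 := hn2 n (le_trans (le_max_right _ _) hn)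
    have c1 := mom_upper hp (Wt n) (hW n) (Γ n) (hΓ n) G N
    have c2 := mom_lower hp (Wt n) (hW n) (Γ n) (hΓ n) G N
    rw [← hAdef] at c1 c2
    rw [Real.dist_eq, abs_lt] at a1 a2 b1 b2 ⊢
    constructor <;> linarith [a1.1, a1.2, a2.1, a2.2, b1.1, b1.2, b2.1, b2.2]
  have h3 := hmain.div_const A
  refine h3.congr fun n => ?_
  rw [Finset.sum_div]
  apply Finset.sum_congr rfl
  intro i _
  field_simp

end

end Pool.Agent.DH10
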