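import Pool.Agent.DH10.NZDefs

/-!
# DH10.ESumL : families of triangles, large `s` (4.7)

For every `C ≥ 0`, `n` large, `n^{1/25} ≤ s ≤ n^{1.01}`:
`∑_{J : 3|J| ≤ s, tc J v ≤ n^{0.98} ∀ v} psiJ C J ≤ exp (s n^{-1/400})`.
Proof.  `e3 = 1/100`.  For `J` let `b : Fin n → ℝ`, `b v = n^{e3}` if `tc J v < n^{e3}`, otherwise `b v = 2^i` with
`2^{i-1} ≤ tc J v < 2^i` (`i ≤ log2(n)+2`).  `∑_v tc J v = 3|J| ≤ s`, so at most `s n^{-e3}` vertices have `tc ≥ n^{e3}`, and the
number of possible `b` is `≤ ((log2 n + 3)(n+1))^{s n^{-e3}} ≤ exp (s n^{-1/150})`.  For each possible `b`: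
`∑_{J with this b} psiJ C J ≤ ∑_J ∏_{t∈J} y_t ≤ ∏_t (1+y_t) ≤ exp(∑_t y_t)`, `y_t = (C/n)³ (b_a+b_b)(b_b+b_c)(b_a+b_c)`.
`∑_t y_t ≤ (C/n)³ ∑_{u,v,w} (b_u+b_v)(b_v+b_w)(b_u+b_w) ≤ 8 (C/n)³ n (∑ b²)(∑ b)` (expand; `∑_{u,v,w} b_u² b_v = n (∑b²)(∑b)`,
`(∑ b)³ ≤ n (∑b²)(∑b)` by Cauchy-Schwarz).  `∑ b ≤ 2s + n^{1+e3}`, `∑ b² ≤ 2 n^{0.98} · 2s + n^{1+2e3}`, so
`∑ y_t ≤ C' n^{-2} (n^{0.98} s + n^{1.02})(s + n^{1.01}) ≤ C'' s n^{-1/100}` for `n^{0.04} ≤ s ≤ n^{1.01}`:
the four terms are `s² n^{-1.02}`, `s n^{-0.01}`, `s n^{-0.98}`, `n^{0.03}`.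
(In the formal proof the label of a vertex is `tc J v` itself instead of its dyadic class.)
-/

set_option autoImplicit false

open Finset Filter

namespace Pool.Agent.DH10

noncomputable section

/-- label of a vertex: `tc J v` if it is at least `q`, otherwise `0` -/
private def esLab {n : ℕ} (q : ℝ) (J : Finset (Tri n)) (v : Fin n) : ℕ :=
  open Classical in if q ≤ (tc J v : ℝ) then tc J v else 0

private theorem esum_tc {n : ℕ} (J : Finset (Tri n)) :
    ∑ v, (tc J v : ℝ) ≤ 3 * J.card := by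
  have h1 : ∑ v, tc J v ≤ 3 * J.card := by
    unfold tc
    simp_rw [Finset.card_filter]
    rw [Finset.sum_comm]
    calc ∑ t ∈ J, ∑ v, (if v ∈ t.verts then 1 else 0) = ∑ t ∈ J, t.verts.card := by
          apply Finset.sum_congr rfl
          intro t _
          simp
      _ ≤ ∑ t ∈ J, 3 := Finset.sum_le_sum fun t _ => Finset.card_le_three
      _ = 3 * J.card := by rw [Finset.sum_const, smul_eq_mul, mul_comm]
  exact_mod_cast h1

/-- the majorant of the factor of a triangle -/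
private def esY {n : ℕ} (C : ℝ) (b : Fin n → ℝ) (x : Fin n × Fin n × Fin n) : ℝ :=
  (C / n) ^ 3 * ((b x.1 + b x.2.1) * (b x.2.1 + b x.2.2) * (b x.1 + b x.2.2))

private theorem esY_nonneg {n : ℕ} {C : ℝ} (hC : 0 ≤ C) {b : Fin n → ℝ} (hb : ∀ v, 0 ≤ b v)
    (x : Fin n × Fin n × Fin n) : 0 ≤ esY C b x := by
  unfold esY
  have h1 := hb x.1
  have h2 := hb x.2.1
  have h3 := hb x.2.2
  positivity

private theorem esY_sum {n : ℕ} {C : ℝ} (hC : 0 ≤ C) {b : Fin n → ℝ} (hb : ∀ v, 0 ≤ b v) :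
    ∑ t : Tri n, esY C b t.1 ≤ 8 * (C / n) ^ 3 * (n * (∑ v, b v ^ 2) * ∑ v, b v) := by
  have h1 : ∑ t : Tri n, esY C b t.1 ≤ ∑ x : Fin n × Fin n × Fin n, esY C b x := by
    rw [← Finset.sum_subtype (p := fun t : Fin n × Fin n × Fin n => t.1 < t.2.1 ∧ t.2.1 < t.2.2)
      (univ.filter fun t : Fin n × Fin n × Fin n => t.1 < t.2.1 ∧ t.2.1 < t.2.2)
      (by intro x; simp) (fun x => esY C b x)]
    exact Finset.sum_le_sum_of_subset_of_nonneg (Finset.subset_univ _)
      fun x _ _ => esY_nonneg hC hb x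
  refine h1.trans ?_
  set S1 := ∑ v, b v with hS1
  set S2 := ∑ v, b v ^ 2 with hS2
  have hS1' : 0 ≤ S1 := Finset.sum_nonneg fun v _ => hb v
  have h2 : ∑ x : Fin n × Fin n × Fin n, esY C b x
      = (C / n) ^ 3 * (6 * (n * S2 * S1) + 2 * S1 ^ 3) := by
    unfold esY
    rw [← Finset.mul_sum]
    congr 1
    rw [Fintype.sum_prod_type]
    simp_rw [Fintype.sum_prod_type]
    have e : ∀ u v w : Fin n, (b u + b v) * (b v + b w) * (b u + b w) =
        (b u ^ 2 * b v + b u ^ 2 * b w) + (b u * b v ^ 2 + b v ^ 2 * b w) +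
          (b u * b w ^ 2 + b v * b w ^ 2) + 2 * (b u * b v * b w) := by
      intro u v w; ring
    simp_rw [e]
    have hc : ∀ c : ℝ, ∑ _u : Fin n, c = n * c := by
      intro c; simp
    simp only [Finset.sum_add_distrib, ← Finset.mul_sum, ← Finset.sum_mul, hc, ← hS1, ← hS2]
    ring
  rw [h2]
  have h3 : S1 ^ 2 ≤ n * S2 := by
    have := sq_sum_le_card_mul_sum_sq (s := (univ : Finset (Fin n))) (f := b)
    simpa using this
  have h4 : S1 ^ 3 ≤ n * S2 * S1 := by
    have := mul_le_mul_of_nonneg_right h3 hS1'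
    calc S1 ^ 3 = S1 ^ 2 * S1 := by ring
      _ ≤ _ := this
  have h5 : 0 ≤ (C / n) ^ 3 := by positivity
  nlinarith [mul_le_mul_of_nonneg_left h4 h5]

private theorem psi_le {n : ℕ} {C : ℝ} (hC : 0 ≤ C) {b : Fin n → ℝ} {J : Finset (Tri n)}
    (hb : ∀ v, (tc J v : ℝ) ≤ b v) : psiJ C J ≤ ∏ t ∈ J, esY C b t.1 := by
  unfold psiJ esY
  apply Finset.prod_le_prod
  · intro t _
    positivity
  · intro t _
    have h1 := hb t.a
    have h2 := hb t.b
    have h3 := hb t.c
    have p1 : (0 : ℝ) ≤ tc J t.a := Nat.cast_nonneg _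
    have p2 : (0 : ℝ) ≤ tc J t.b := Nat.cast_nonneg _
    have p3 : (0 : ℝ) ≤ tc J t.c := Nat.cast_nonneg _
    have q1 : (0 : ℝ) ≤ b t.a := p1.trans h1
    have q2 : (0 : ℝ) ≤ b t.b := p2.trans h2
    have q3 : (0 : ℝ) ≤ b t.c := p3.trans h3
    change _ ≤ (C / n) ^ 3 * ((b t.a + b t.b) * (b t.b + b t.c) * (b t.a + b t.c))
    have p0 : (0 : ℝ) ≤ C / n := by positivity
    gcongr

private theorem fiber_le {n : ℕ} {C : ℝ} (hC : 0 ≤ C) {b : Fin n → ℝ} (hb0 : ∀ v, 0 ≤ b v)
    (G : Finset (Finset (Tri n))) (hG : ∀ J ∈ G, ∀ v, (tc J v : ℝ) ≤ b v) :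
    ∑ J ∈ G, psiJ C J ≤ Real.exp (∑ t : Tri n, esY C b t.1) := by
  calc ∑ J ∈ G, psiJ C J ≤ ∑ J ∈ G, ∏ t ∈ J, esY C b t.1 :=
        Finset.sum_le_sum fun J hJ => psi_le hC (hG J hJ)
    _ ≤ ∑ J ∈ (univ : Finset (Tri n)).powerset, ∏ t ∈ J, esY C b t.1 := by
        apply Finset.sum_le_sum_of_subset_of_nonneg
        · intro J _
          simp
        · intro J _ _
          exact Finset.prod_nonneg fun t _ => esY_nonneg hC hb0 _
    _ = ∏ t : Tri n, (1 + esY C b t.1) := by
        rw [Finset.prod_one_add]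
    _ ≤ ∏ t : Tri n, Real.exp (esY C b t.1) := by
        apply Finset.prod_le_prod
        · intro t _
          have := esY_nonneg hC hb0 t.1
          linarith
        · intro t _
          have := Real.add_one_le_exp (esY C b t.1)
          linarith
    _ = _ := by rw [Real.exp_sum]

/-- the main inequality with all the powers of `n` as parameters -/
private theorem esum_core {n : ℕ} (hn : 0 < n) {C : ℝ} (hC : 0 ≤ C) {q h S : ℝ} (hq : 1 ≤ q)
    (hh : h ≤ n) {s : ℕ} (hs : (s : ℝ) ≤ n * q)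
    (hS : ∀ T : ℝ, T ≤ 2 * n * q ^ 2 + 2 * (h * s) → 8 * (C / n) ^ 3 * (n * T * (3 * (n * q))) ≤ S) :
    ∑ J ∈ (univ : Finset (Finset (Tri n))).filter
        (fun J => 3 * J.card ≤ s ∧ ∀ v, (tc J v : ℝ) ≤ h), psiJ C J
        ≤ Real.exp (S + (s / q) * Real.log (n * (n + 1)) + 1) := by
  classical
  have hnR : (1 : ℝ) ≤ n := by exact_mod_cast hn
  have hn0 : (0 : ℝ) < n := by linarith
  have hq0 : 0 < q := by linarith
  set F := (univ : Finset (Finset (Tri n))).filter
        (fun J => 3 * J.card ≤ s ∧ ∀ v, (tc J v : ℝ) ≤ h) with hF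
  set P : Finset (Fin n → ℕ) := Fintype.piFinset (fun _ => Finset.range (n + 1)) with hP
  have hmap : ∀ J ∈ F, esLab q J ∈ P := by
    intro J hJ
    rw [hF, Finset.mem_filter] at hJ
    rw [hP, Fintype.mem_piFinset]
    intro v
    rw [Finset.mem_range]
    unfold esLab
    split_ifs with h1
    · have h2 : (tc J v : ℝ) ≤ n := (hJ.2.2 v).trans hh
      have h3 : tc J v ≤ n := by exact_mod_cast h2
      omega
    · omega
  set θ : ℝ := 1 / (n * (n + 1)) with hθ
  have hθ0 : 0 < θ := by positivity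
  set g : ℕ → ℝ := fun l => if l = 0 then 1 else θ with hg
  set L : ℝ := Real.log (n * (n + 1)) with hL
  have hL0 : 0 ≤ L := by
    apply Real.log_nonneg
    nlinarith
  have hθL : θ = Real.exp (-L) := by
    rw [hL, Real.exp_neg, Real.exp_log (by positivity), hθ, one_div]
  have hfib : ∀ f ∈ P, ∑ J ∈ F.filter (fun J => esLab q J = f), psiJ C J ≤
      Real.exp (S + (s / q) * L) * ∏ v, g (f v) := by
    intro f _
    rcases (F.filter (fun J => esLab q J = f)).eq_empty_or_nonempty with h0 | ⟨J0, hJ0⟩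
    · rw [h0, Finset.sum_empty]
      apply mul_nonneg (Real.exp_pos _).le
      apply Finset.prod_nonneg
      intro v _
      rw [hg]
      dsimp only
      split_ifs
      · norm_num
      · exact hθ0.le
    · rw [Finset.mem_filter, hF, Finset.mem_filter] at hJ0
      obtain ⟨⟨_, hJ1, hJ2⟩, hJ3⟩ := hJ0
      have hfv : ∀ v, (f v : ℝ) ≤ tc J0 v := by
        intro v
        rw [← hJ3]
        unfold esLab
        split_ifs
        · exact le_rfl
        · simp
      have hh0 : 0 ≤ h := (Nat.cast_nonneg _).trans (hJ2 ⟨0, hn⟩)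
      have hsf : ∑ v, (f v : ℝ) ≤ s := by
        calc ∑ v, (f v : ℝ) ≤ ∑ v, (tc J0 v : ℝ) := Finset.sum_le_sum fun v _ => hfv v
          _ ≤ 3 * J0.card := esum_tc J0
          _ ≤ s := by exact_mod_cast hJ1
      set b : Fin n → ℝ := fun v => q + f v with hb
      have hb0 : ∀ v, 0 ≤ b v := by
        intro v
        rw [hb]
        positivity
      have hG : ∀ J ∈ F.filter (fun J => esLab q J = f), ∀ v, (tc J v : ℝ) ≤ b v := by
        intro J hJ v
        rw [Finset.mem_filter] at hJ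
        rw [hb, ← hJ.2]
        dsimp only
        unfold esLab
        split_ifs with h1
        · linarith
        · push Not at h1
          simp only [Nat.cast_zero, add_zero]
          exact h1.le
      have h1 := fiber_le hC hb0 _ hG
      have hb1 : ∑ v, b v ≤ 3 * (n * q) := by
        rw [hb]
        rw [Finset.sum_add_distrib]
        simp only [Finset.sum_const, Finset.card_univ, Fintype.card_fin, nsmul_eq_mul]
        have : 0 ≤ (n : ℝ) * q := by positivity
        linarith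
      have hb2 : ∑ v, b v ^ 2 ≤ 2 * n * q ^ 2 + 2 * (h * s) := by
        calc ∑ v, b v ^ 2 ≤ ∑ v, (2 * q ^ 2 + 2 * (h * f v)) := by
              apply Finset.sum_le_sum
              intro v _
              rw [hb]
              dsimp only
              have e1 : (f v : ℝ) ≤ h := (hfv v).trans (hJ2 v)
              have e2 : (0 : ℝ) ≤ f v := Nat.cast_nonneg _
              nlinarith [sq_nonneg (q - f v), mul_le_mul_of_nonneg_right e1 e2]
          _ = 2 * n * q ^ 2 + 2 * (h * ∑ v, (f v : ℝ)) := by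
              rw [Finset.sum_add_distrib]
              simp only [Finset.sum_const, Finset.card_univ, Fintype.card_fin, nsmul_eq_mul,
                ← Finset.mul_sum]
              ring
          _ ≤ _ := by
              have := mul_le_mul_of_nonneg_left hsf hh0
              linarith
      have hb3 : 0 ≤ ∑ v, b v ^ 2 := Finset.sum_nonneg fun v _ => sq_nonneg _
      have h2 := esY_sum hC hb0
      have h3 : 8 * (C / n) ^ 3 * (n * (∑ v, b v ^ 2) * ∑ v, b v) ≤ S := by
        refine le_trans ?_ (hS _ hb2)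
        gcongr
      -- support
      set m := (univ.filter fun v => f v ≠ 0).card with hm
      have hm1 : (m : ℝ) * q ≤ s := by
        refine le_trans ?_ hsf
        calc (m : ℝ) * q = ∑ v ∈ univ.filter (fun v => f v ≠ 0), q := by
              rw [Finset.sum_const, nsmul_eq_mul]
          _ ≤ ∑ v ∈ univ.filter (fun v => f v ≠ 0), (f v : ℝ) := by
              apply Finset.sum_le_sum
              intro v hv
              rw [Finset.mem_filter] at hv
              rw [← hJ3] at hv ⊢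
              unfold esLab at hv ⊢
              split_ifs with h1
              · exact h1
              · exact absurd (if_neg h1) hv.2
          _ ≤ _ := Finset.sum_le_sum_of_subset_of_nonneg (Finset.subset_univ _)
              fun v _ _ => Nat.cast_nonneg _
      have hprod : ∏ v, g (f v) = Real.exp (-(m * L)) := by
        calc ∏ v, g (f v) = ∏ v, (if f v ≠ 0 then θ else 1) := by
              apply Finset.prod_congr rfl
              intro v _
              rw [hg]
              dsimp only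
              by_cases h1 : f v = 0 <;> simp [h1]
          _ = θ ^ m := by
              rw [← Finset.prod_filter, Finset.prod_const]
          _ = _ := by
              rw [hθL, ← Real.exp_nat_mul]
              congr 1
              ring
      rw [hprod, ← Real.exp_add]
      refine (h1.trans ?_)
      apply Real.exp_le_exp.mpr
      have h5 : (m : ℝ) ≤ s / q := by
        rw [le_div_iff₀ hq0]
        exact hm1
      have h6 := mul_le_mul_of_nonneg_right h5 hL0
      linarith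
  have hsum : ∑ f ∈ P, ∏ v, g (f v) ≤ Real.exp 1 := by
    have h1 : ∑ f ∈ P, ∏ v, g (f v) = (1 + n * θ) ^ n := by
      rw [hP, ← Finset.prod_univ_sum]
      have h2 : ∑ l ∈ Finset.range (n + 1), g l = 1 + n * θ := by
        rw [Finset.sum_range_succ']
        simp [hg, add_comm]
      simp only [Finset.prod_const, Finset.card_univ, Fintype.card_fin]
      rw [h2]
    rw [h1]
    have h3 : (n : ℝ) * θ = 1 / (n + 1) := by
      rw [hθ]
      field_simp
    rw [h3]
    have h4 : 1 + 1 / ((n : ℝ) + 1) ≤ Real.exp (1 / (n + 1)) := by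
      have := Real.add_one_le_exp (1 / ((n : ℝ) + 1))
      linarith
    calc (1 + 1 / ((n : ℝ) + 1)) ^ n ≤ (Real.exp (1 / (n + 1))) ^ n := by
          gcongr
      _ = Real.exp (n * (1 / (n + 1))) := by rw [← Real.exp_nat_mul]
      _ ≤ Real.exp 1 := by
          apply Real.exp_le_exp.mpr
          rw [mul_one_div, div_le_one (by positivity)]
          linarith
  calc ∑ J ∈ F, psiJ C J
      = ∑ f ∈ P, ∑ J ∈ F.filter (fun J => esLab q J = f), psiJ C J :=
        (Finset.sum_fiberwise_of_maps_to hmap _).symm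
    _ ≤ ∑ f ∈ P, Real.exp (S + (s / q) * L) * ∏ v, g (f v) := Finset.sum_le_sum hfib
    _ = Real.exp (S + (s / q) * L) * ∑ f ∈ P, ∏ v, g (f v) := by rw [← Finset.mul_sum]
    _ ≤ Real.exp (S + (s / q) * L) * Real.exp 1 := by
        gcongr
    _ = _ := by rw [← Real.exp_add]

open Classical in
theorem esum_large (C : ℝ) (hC : 0 ≤ C) :
    ∀ᶠ n : ℕ in atTop, ∀ s : ℕ, (n : ℝ) ^ (1 / 25 : ℝ) ≤ s → (s : ℝ) ≤ (n : ℝ) ^ (101 / 100 : ℝ) →
      ∑ J ∈ (univ : Finset (Finset (Tri n))).filter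
        (fun J => 3 * J.card ≤ s ∧ ∀ v, (tc J v : ℝ) ≤ (n : ℝ) ^ (1 - 1 / 50 : ℝ)), psiJ C J
        ≤ Real.exp (s * (n : ℝ) ^ (-(1 / 400) : ℝ)) := by
  have hcast : Tendsto (fun n : ℕ => (n : ℝ)) atTop atTop := tendsto_natCast_atTop_atTop
  have E1 : ∀ᶠ n : ℕ in atTop, 288 * C ^ 3 ≤ (n : ℝ) ^ (3 / 400 : ℝ) :=
    ((tendsto_rpow_atTop (by norm_num : (0 : ℝ) < 3 / 400)).comp hcast).eventually_ge_atTop _
  have E2 : ∀ᶠ n : ℕ in atTop, (3 : ℝ) ≤ (n : ℝ) ^ (15 / 400 : ℝ) :=
    ((tendsto_rpow_atTop (by norm_num : (0 : ℝ) < 15 / 400)).comp hcast).eventually_ge_atTop _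
  have E3 : ∀ᶠ n : ℕ in atTop, Real.log (n : ℝ) ≤ (1 / 9) * (n : ℝ) ^ (3 / 400 : ℝ) := by
    have h1 := (isLittleO_log_rpow_atTop (by norm_num : (0 : ℝ) < 3 / 400)).bound
      (by norm_num : (0 : ℝ) < 1 / 9)
    have h2 := hcast.eventually h1
    filter_upwards [h2, eventually_ge_atTop 1] with n hn hn1
    have hn1' : (1 : ℝ) ≤ n := by exact_mod_cast hn1
    rw [Real.norm_of_nonneg (Real.log_nonneg hn1'),
      Real.norm_of_nonneg (Real.rpow_nonneg (by linarith) _)] at hn
    exact hn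
  filter_upwards [E1, E2, E3, eventually_ge_atTop 2] with n hE1 hE2 hE3 hn2
  intro s hs1 hs2
  have hn : 0 < n := by omega
  have hnR : (2 : ℝ) ≤ n := by exact_mod_cast hn2
  have hn0 : (0 : ℝ) < n := by linarith
  have hn1 : (1 : ℝ) ≤ n := by linarith
  set q : ℝ := (n : ℝ) ^ (1 / 100 : ℝ) with hq
  set h : ℝ := (n : ℝ) ^ (1 - 1 / 50 : ℝ) with hh
  have hq1 : 1 ≤ q := Real.one_le_rpow hn1 (by norm_num)
  have hq0 : 0 < q := by linarith
  have hhn : h ≤ n := by
    calc h ≤ (n : ℝ) ^ (1 : ℝ) := Real.rpow_le_rpow_of_exponent_le hn1 (by norm_num)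
      _ = n := Real.rpow_one _
  have hh0 : 0 < h := Real.rpow_pos_of_pos hn0 _
  have hsq : (s : ℝ) ≤ n * q := by
    refine hs2.trans (le_of_eq ?_)
    rw [hq, show (101 / 100 : ℝ) = 1 + 1 / 100 by norm_num, Real.rpow_add hn0, Real.rpow_one]
  have hs0 : (0 : ℝ) ≤ s := Nat.cast_nonneg _
  -- products of powers
  have a1 : q ^ 3 * q ≤ s := by
    refine le_trans (le_of_eq ?_) hs1
    rw [hq, ← Real.rpow_natCast, ← Real.rpow_mul hn0.le, ← Real.rpow_add hn0]
    norm_num
  have a2 : h * (q * q) = n := by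
    rw [hq, hh, ← Real.rpow_add hn0, ← Real.rpow_add hn0]
    norm_num
  set x : ℝ := (n : ℝ) ^ (3 / 400 : ℝ) with hx
  have hx0 : 0 < x := Real.rpow_pos_of_pos hn0 _
  have a3 : (n : ℝ) ^ (-(1 / 400) : ℝ) = x / q := by
    rw [eq_div_iff hq0.ne', hq, hx, ← Real.rpow_add hn0]
    norm_num
  have a4 : 1 ≤ (1 / 3) * (s * (x / q)) := by
    have h1 : (n : ℝ) ^ (15 / 400 : ℝ) ≤ s * (x / q) := by
      rw [← a3]
      calc (n : ℝ) ^ (15 / 400 : ℝ) = (n : ℝ) ^ (1 / 25 : ℝ) * (n : ℝ) ^ (-(1 / 400) : ℝ) := by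
            rw [← Real.rpow_add hn0]
            norm_num
        _ ≤ s * (n : ℝ) ^ (-(1 / 400) : ℝ) := by
            gcongr
    linarith
  have hS : ∀ T : ℝ, T ≤ 2 * n * q ^ 2 + 2 * (h * s) →
      8 * (C / n) ^ 3 * (n * T * (3 * (n * q))) ≤ 96 * C ^ 3 * (s / q) := by
    intro T hT
    have h1 : 8 * (C / n) ^ 3 * (n * T * (3 * (n * q))) = 24 * C ^ 3 * (T * (q / n)) := by
      field_simp
      ring
    have h2 : T * (q / n) ≤ 4 * (s / q) := by
      have h3 : T * (q / n) ≤ (2 * n * q ^ 2 + 2 * (h * s)) * (q / n) := by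
        gcongr
      have h4 : (2 * n * q ^ 2 + 2 * (h * s)) * (q / n) = 2 * q ^ 3 + 2 * (s * (h * q / n)) := by
        field_simp
      have h5 : h * q / n = 1 / q := by
        rw [div_eq_div_iff hn0.ne' hq0.ne', one_mul, ← a2]
        ring
      have h6 : q ^ 3 ≤ s / q := by
        rw [le_div_iff₀ hq0]
        exact a1
      rw [h4, h5] at h3
      have h7 : (s : ℝ) * (1 / q) = s / q := by ring
      rw [h7] at h3
      linarith
    rw [h1]
    have h8 : 0 ≤ C ^ 3 := by positivity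
    nlinarith [mul_le_mul_of_nonneg_left h2 h8]
  have main := esum_core hn hC hq1 hhn hsq hS
  refine (le_of_eq ?_).trans (main.trans ?_)
  · congr 1
  · apply Real.exp_le_exp.mpr
    rw [a3]
    have b1 : Real.log (n * (n + 1)) ≤ 3 * Real.log n := by
      have h1 : (3 : ℝ) * Real.log n = Real.log ((n : ℝ) ^ 3) := by
        rw [Real.log_pow]
        norm_num
      rw [h1]
      apply Real.log_le_log (by positivity)
      nlinarith [mul_nonneg (by linarith : (0 : ℝ) ≤ (n : ℝ) - 2) hn0.le,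
        mul_nonneg (mul_nonneg (by linarith : (0 : ℝ) ≤ (n : ℝ) - 2) hn0.le) hn0.le]
    have b2 : Real.log (n * (n + 1)) ≤ (1 / 3) * x := by linarith
    have b3 : 0 ≤ (s : ℝ) / q := by positivity
    have b4 := mul_le_mul_of_nonneg_left b2 b3
    have b5 := mul_le_mul_of_nonneg_left hE1 b3
    have b6 : (s : ℝ) * (x / q) = s / q * x := by ring
    rw [b6] at a4 ⊢
    linarith

end

end Pool.Agent.DH10
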