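import Pool.Agent.DH10.CoreDefs

/-!
# DH10.Explore : the exploration sum (Part 2 (ii), counting half)

Fix `H ⊆ Fin n`, `Dg`, `M = |H| + 2 Dg ≥ 1`, a triangle `t0`.  Let `𝒜` be the sets `A ∋ t0` with all degrees `degE A x ≤ Dg`
for `x ∉ H` and `(xpl H A t0).fin = A`.  Then
`∑_{A ∈ 𝒜} (1/n)^{N} (1/M)^{S} exp(-2 steps) ≤ 1`.
Proof.  Generalise to a state `(k, rev, proc)` (fuel, revealed triangles, processed edges): the sum over all `A` with
`rev ⊆ A`, every triangle of `A` containing an edge of `proc` is in `rev`, degree condition, and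
`(explore H A k rev proc).fin = A`, of the same weight of `explore H A k rev proc`, is `≤ 1`.  Induction on `k`.
If `k = 0` or `pick = none` the result is `rev` for all `A`, so only `A = rev` occurs, with weight `1`.
If `pick H rev proc = some e`, group the `A` by `X = (A \ rev).filter (e ∈ ·.edges)`; for fixed `X` the weight is
`(1/n)^{|X_N|} (1/M)^{|X_S|} e^{-2}` times the weight of the state `(k-1, rev ∪ X, insert e proc)`, and the induction
hypothesis applies.  The sum over `X` (a set of triangles containing `e`, i.e. of third vertices `z`; `X_S` = those with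
`Saving`, whose third vertices are in a set of size `≤ |H| + 2 Dg = M` : in `H`, or joined in `rev ⊆ A` to an endpoint of
`e` outside `H`, which has degree `≤ Dg`) is `≤ (1+1/n)^n (1+1/M)^M e^{-2} ≤ 1`.
If no `A` satisfies the degree condition with `rev ⊆ A` the sum is empty.
-/

set_option autoImplicit false

open Finset

namespace Pool.Agent.DH10

noncomputable section

variable {n : ℕ}

namespace ExploreAux

/-- a triangle is determined by its vertices -/
theorem verts_inj {t t' : Tri n} (h : t.verts = t'.verts) : t = t' := by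
  obtain ⟨⟨a, b, c⟩, h1, h2⟩ := t
  obtain ⟨⟨a', b', c'⟩, h1', h2'⟩ := t'
  simp only [Tri.verts, Tri.a, Tri.b, Tri.c] at h
  simp only at h1 h2 h1' h2'
  have ha : a ∈ ({a', b', c'} : Finset (Fin n)) := h ▸ (by simp)
  have hb : b ∈ ({a', b', c'} : Finset (Fin n)) := h ▸ (by simp)
  have hc : c ∈ ({a', b', c'} : Finset (Fin n)) := h ▸ (by simp)
  simp only [mem_insert, mem_singleton] at ha hb hc
  simp only [Fin.ext_iff, Fin.lt_def] at ha hb hc h1 h2 h1' h2'
  have e1 : a.1 = a'.1 := by omega
  have e2 : b.1 = b'.1 := by omega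
  have e3 : c.1 = c'.1 := by omega
  have e1' : a = a' := Fin.ext e1
  have e2' : b = b' := Fin.ext e2
  have e3' : c = c' := Fin.ext e3
  subst e1' e2' e3'
  rfl

/-- third vertex -/
def thd (e : Edg n) (t : Tri n) : Fin n := if e = t.ab then t.c else if e = t.bc then t.a else t.b

theorem verts_eq {e : Edg n} {t : Tri n} (h : e ∈ t.edges) : t.verts = {e.1.1, e.1.2, thd e t} := by
  simp only [Tri.edges, mem_insert, mem_singleton] at h
  unfold thd
  by_cases h1 : e = t.ab
  · rw [if_pos h1, h1]
    rfl
  · rw [if_neg h1]
    by_cases h2 : e = t.bc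
    · rw [if_pos h2, h2]
      ext x
      simp only [Tri.verts, Tri.bc, Tri.a, Tri.b, Tri.c, mem_insert, mem_singleton]
      tauto
    · rw [if_neg h2]
      have h3 : e = t.ac := by tauto
      rw [h3]
      ext x
      simp only [Tri.verts, Tri.ac, Tri.a, Tri.b, Tri.c, mem_insert, mem_singleton]
      tauto

theorem thd_inj (e : Edg n) : Set.InjOn (thd e) {t : Tri n | e ∈ t.edges} := by
  intro t ht t' ht' h
  apply verts_inj
  rw [verts_eq ht, verts_eq ht', h]

theorem eq_thd {e : Edg n} {t : Tri n} (h : e ∈ t.edges) {z : Fin n} (hz : z ∈ t.verts) (h1 : z ≠ e.1.1)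
    (h2 : z ≠ e.1.2) : z = thd e t := by
  rw [verts_eq h] at hz
  simp only [mem_insert, mem_singleton] at hz
  tauto

theorem EE_mono {A A' : Finset (Tri n)} (h : A ⊆ A') : EE A ⊆ EE A' := biUnion_subset_biUnion_of_subset_left _ h

theorem degE_mono {A A' : Finset (Tri n)} (h : A ⊆ A') (x : Fin n) : degE A x ≤ degE A' x :=
  card_le_card (filter_subset_filter _ (EE_mono h))

open Classical in
theorem nbrs_card (rev : Finset (Tri n)) (x : Fin n) :
    ((univ : Finset (Fin n)).filter fun z => Joined rev x z).card ≤ degE rev x := by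
  have h : ((univ : Finset (Fin n)).filter fun z => Joined rev x z) ⊆
      ((EE rev).filter fun e => e.1.1 = x ∨ e.1.2 = x).image (fun e => if e.1.1 = x then e.1.2 else e.1.1) := by
    intro z hz
    rw [mem_filter] at hz
    obtain ⟨e, he, h⟩ := hz.2
    rw [mem_image]
    refine ⟨e, ?_, ?_⟩
    · rw [mem_filter]
      refine ⟨he, ?_⟩
      rcases h with h | h
      · exact Or.inl h.1
      · exact Or.inr h.2
    · rcases h with h | h
      · rw [if_pos h.1]; exact h.2
      · have : e.1.1 ≠ x := by
          intro h3
          have := e.2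
          rw [h3, h.2] at this
          exact lt_irrefl _ this
        rw [if_neg this]; exact h.1
  exact (card_le_card h).trans card_image_le

/-- weight of an exploration -/
def wt (M : ℕ) (r : XRes n) : ℝ := (1 / (n : ℝ)) ^ r.N * (1 / (M : ℝ)) ^ r.S * Real.exp (-2 * r.steps)

theorem wt_nonneg (M : ℕ) (r : XRes n) : 0 ≤ wt M r := by
  unfold wt
  positivity

open Classical in
/-- the sum over the new triangles -/
theorem step_sum (H : Finset (Fin n)) (Dg : ℕ) (hM : 1 ≤ H.card + 2 * Dg) (rev : Finset (Tri n)) (e : Edg n)
    (hdeg : ∀ x, x ∉ H → degE rev x ≤ Dg) :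
    ∑ X ∈ ((univ : Finset (Tri n)).filter fun t => e ∈ t.edges).powerset,
      (1 / (n : ℝ)) ^ (X.filter fun t => ¬ Saving H rev e t).card *
        (1 / ((H.card + 2 * Dg : ℕ) : ℝ)) ^ (X.filter fun t => Saving H rev e t).card ≤ Real.exp 2 := by
  have hn : 0 < n := Fin.pos e.1.1
  have hn' : (0 : ℝ) < n := by exact_mod_cast hn
  set M : ℕ := H.card + 2 * Dg with hMdef
  have hM' : (0 : ℝ) < M := by exact_mod_cast hM
  set T := (univ : Finset (Tri n)).filter fun t => e ∈ t.edges with hT
  let g : Tri n → ℝ := fun t => if Saving H rev e t then 1 / (M : ℝ) else 1 / (n : ℝ)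
  have h1 : ∀ X : Finset (Tri n), (1 / (n : ℝ)) ^ (X.filter fun t => ¬ Saving H rev e t).card *
        (1 / (M : ℝ)) ^ (X.filter fun t => Saving H rev e t).card = ∏ t ∈ X, g t := by
    intro X
    simp only [g]
    rw [prod_ite, prod_const, prod_const, mul_comm]
  rw [sum_congr rfl (fun X _ => h1 X), ← prod_one_add]
  have h2 : ∏ t ∈ T, (1 + g t) ≤ ∏ t ∈ T, Real.exp (g t) := by
    apply prod_le_prod
    · intro t _
      simp only [g]
      split <;> positivity
    · intro t _
      rw [add_comm]
      exact Real.add_one_le_exp _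
  refine h2.trans ?_
  rw [← Real.exp_sum]
  apply Real.exp_le_exp.mpr
  have h3 : ∑ t ∈ T, g t = ((T.filter fun t => Saving H rev e t).card : ℝ) * (1 / M) +
      ((T.filter fun t => ¬ Saving H rev e t).card : ℝ) * (1 / n) := by
    simp only [g]
    rw [sum_ite, sum_const, sum_const, nsmul_eq_mul, nsmul_eq_mul]
  rw [h3]
  -- number of saving triangles
  have h4 : (T.filter fun t => Saving H rev e t).card ≤ M := by
    let Zs : Finset (Fin n) := H ∪ ((if e.1.1 ∉ H then (univ : Finset (Fin n)).filter fun z => Joined rev e.1.1 z else ∅) ∪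
      (if e.1.2 ∉ H then (univ : Finset (Fin n)).filter fun z => Joined rev e.1.2 z else ∅))
    have h5 : Zs.card ≤ M := by
      refine (card_union_le _ _).trans ?_
      have h6 := card_union_le (if e.1.1 ∉ H then (univ : Finset (Fin n)).filter fun z => Joined rev e.1.1 z else ∅)
        (if e.1.2 ∉ H then (univ : Finset (Fin n)).filter fun z => Joined rev e.1.2 z else ∅)
      have h7 : ∀ x : Fin n, (if x ∉ H then (univ : Finset (Fin n)).filter fun z => Joined rev x z else ∅).card ≤ Dg := by
        intro x
        split
        · rename_i h8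
          exact (nbrs_card rev x).trans (hdeg x h8)
        · simp
      have h8 := h7 e.1.1
      have h9 := h7 e.1.2
      omega
    refine le_trans ?_ h5
    apply card_le_card_of_injOn (thd e)
    · intro t ht
      rw [mem_coe, mem_filter, hT, mem_filter] at ht
      obtain ⟨⟨_, hte⟩, z, hz, hz1, hz2, hz3⟩ := ht
      have hz4 := eq_thd hte hz hz1 hz2
      rw [← hz4]
      simp only [Zs, coe_union, Set.mem_union, mem_coe]
      rcases hz3 with h | ⟨h, h'⟩ | ⟨h, h'⟩
      · exact Or.inl h
      · refine Or.inr (Or.inl ?_)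
        rw [if_pos h, mem_filter]
        exact ⟨mem_univ _, h'⟩
      · refine Or.inr (Or.inr ?_)
        rw [if_pos h, mem_filter]
        exact ⟨mem_univ _, h'⟩
    · intro t ht t' ht' h
      rw [mem_coe, mem_filter, hT, mem_filter] at ht ht'
      exact thd_inj e ht.1.2 ht'.1.2 h
  have h5 : (T.filter fun t => ¬ Saving H rev e t).card ≤ n := by
    have h6 : (T.filter fun t => ¬ Saving H rev e t).card ≤ (univ : Finset (Fin n)).card := by
      apply card_le_card_of_injOn (thd e)
      · intro t _
        simp
      · intro t ht t' ht' h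
        rw [mem_coe, mem_filter, hT, mem_filter] at ht ht'
        exact thd_inj e ht.1.2 ht'.1.2 h
    simpa using h6
  have h6 : ((T.filter fun t => Saving H rev e t).card : ℝ) * (1 / M) ≤ 1 := by
    rw [mul_one_div, div_le_one hM']
    exact_mod_cast h4
  have h7 : ((T.filter fun t => ¬ Saving H rev e t).card : ℝ) * (1 / n) ≤ 1 := by
    rw [mul_one_div, div_le_one hn']
    exact_mod_cast h5
  linarith

open Classical in
/-- the generalised statement -/
theorem state_sum (H : Finset (Fin n)) (Dg : ℕ) (hM : 1 ≤ H.card + 2 * Dg) (k : ℕ) :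
    ∀ (rev : Finset (Tri n)) (proc : Finset (Edg n)),
    ∑ A ∈ (univ : Finset (Finset (Tri n))).filter
        (fun A => rev ⊆ A ∧ (∀ x, x ∉ H → degE A x ≤ Dg) ∧ (explore H A k rev proc).fin = A),
      wt (H.card + 2 * Dg) (explore H A k rev proc) ≤ 1 := by
  -- the case where nothing happens
  have stop : ∀ (k : ℕ) (rev : Finset (Tri n)) (proc : Finset (Edg n)),
      (∀ A, explore H A k rev proc = ⟨0, 0, 0, rev⟩) →
      ∑ A ∈ (univ : Finset (Finset (Tri n))).filter
        (fun A => rev ⊆ A ∧ (∀ x, x ∉ H → degE A x ≤ Dg) ∧ (explore H A k rev proc).fin = A),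
      wt (H.card + 2 * Dg) (explore H A k rev proc) ≤ 1 := by
    intro k rev proc h
    have h1 : (univ : Finset (Finset (Tri n))).filter
        (fun A => rev ⊆ A ∧ (∀ x, x ∉ H → degE A x ≤ Dg) ∧ (explore H A k rev proc).fin = A) ⊆ {rev} := by
      intro A hA
      rw [mem_filter] at hA
      have h2 := hA.2.2.2
      rw [h A] at h2
      rw [mem_singleton]
      exact h2.symm
    refine (sum_le_sum_of_subset_of_nonneg h1 (fun _ _ _ => wt_nonneg _ _)).trans ?_
    rw [sum_singleton, h rev]
    simp [wt]
  induction k with
  | zero =>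
    intro rev proc
    exact stop 0 rev proc (fun A => rfl)
  | succ k ih =>
    intro rev proc
    cases hp : pick H rev proc with
    | none =>
      apply stop
      intro A
      simp only [explore, hp]
    | some e =>
      by_cases hdeg : ∀ x, x ∉ H → degE rev x ≤ Dg
      swap
      · -- empty sum
        have h1 : (univ : Finset (Finset (Tri n))).filter
          (fun A => rev ⊆ A ∧ (∀ x, x ∉ H → degE A x ≤ Dg) ∧ (explore H A (k + 1) rev proc).fin = A) = ∅ := by
          rw [filter_eq_empty_iff]
          rintro A _ ⟨h2, h3, _⟩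
          exact hdeg (fun x hx => (degE_mono h2 x).trans (h3 x hx))
        rw [h1, sum_empty]
        exact zero_le_one
      · have hx : ∀ A X : Finset (Tri n), ((A \ rev).filter fun t => e ∈ t.edges) = X →
            (explore H A (k + 1) rev proc).fin = (explore H A k (rev ∪ X) (insert e proc)).fin ∧
            wt (H.card + 2 * Dg) (explore H A (k + 1) rev proc) =
              ((1 / (n : ℝ)) ^ (X.filter fun t => ¬ Saving H rev e t).card *
              (1 / ((H.card + 2 * Dg : ℕ) : ℝ)) ^ (X.filter fun t => Saving H rev e t).card * Real.exp (-2)) *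
              wt (H.card + 2 * Dg) (explore H A k (rev ∪ X) (insert e proc)) := by
          intro A X hX
          subst hX
          constructor
          · simp only [explore, hp]
          · simp only [explore, hp, wt]
            rw [pow_add, pow_add]
            have h9 : Real.exp (-2 * ((((explore H A k (rev ∪ (A \ rev).filter fun t => e ∈ t.edges)
                (insert e proc)).steps + 1 : ℕ)) : ℝ)) = Real.exp (-2) * Real.exp (-2 *
                ((explore H A k (rev ∪ (A \ rev).filter fun t => e ∈ t.edges) (insert e proc)).steps : ℝ)) := by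
              rw [← Real.exp_add]
              congr 1
              push_cast
              ring
            rw [h9]
            ring
        set 𝒜 := (univ : Finset (Finset (Tri n))).filter
          (fun A => rev ⊆ A ∧ (∀ x, x ∉ H → degE A x ≤ Dg) ∧ (explore H A (k + 1) rev proc).fin = A) with h𝒜
        have hmaps : ∀ A ∈ 𝒜, ((A \ rev).filter fun t => e ∈ t.edges) ∈
            ((univ : Finset (Tri n)).filter fun t => e ∈ t.edges).powerset := by
          intro A _
          rw [mem_powerset]
          exact filter_subset_filter _ (subset_univ _)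
        rw [← sum_fiberwise_of_maps_to hmaps]
        have hfib : ∀ X ∈ ((univ : Finset (Tri n)).filter fun t => e ∈ t.edges).powerset,
            ∑ A ∈ 𝒜.filter (fun A => ((A \ rev).filter fun t => e ∈ t.edges) = X),
              wt (H.card + 2 * Dg) (explore H A (k + 1) rev proc) ≤
            ((1 / (n : ℝ)) ^ (X.filter fun t => ¬ Saving H rev e t).card *
              (1 / ((H.card + 2 * Dg : ℕ) : ℝ)) ^ (X.filter fun t => Saving H rev e t).card) * Real.exp (-2) := by
          intro X _
          have h1 : ∑ A ∈ 𝒜.filter (fun A => ((A \ rev).filter fun t => e ∈ t.edges) = X),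
              wt (H.card + 2 * Dg) (explore H A (k + 1) rev proc) =
              ∑ A ∈ 𝒜.filter (fun A => ((A \ rev).filter fun t => e ∈ t.edges) = X),
              ((1 / (n : ℝ)) ^ (X.filter fun t => ¬ Saving H rev e t).card *
              (1 / ((H.card + 2 * Dg : ℕ) : ℝ)) ^ (X.filter fun t => Saving H rev e t).card * Real.exp (-2)) *
              wt (H.card + 2 * Dg) (explore H A k (rev ∪ X) (insert e proc)) := by
            apply sum_congr rfl
            intro A hA
            rw [mem_filter] at hA
            exact (hx A X hA.2).2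
          rw [h1, ← mul_sum]
          have h2 : ∑ A ∈ 𝒜.filter (fun A => ((A \ rev).filter fun t => e ∈ t.edges) = X),
              wt (H.card + 2 * Dg) (explore H A k (rev ∪ X) (insert e proc)) ≤ 1 := by
            refine le_trans ?_ (ih (rev ∪ X) (insert e proc))
            apply sum_le_sum_of_subset_of_nonneg
            · intro A hA
              rw [mem_filter, h𝒜, mem_filter] at hA
              obtain ⟨⟨_, h3, h4, h5⟩, h6⟩ := hA
              rw [mem_filter]
              refine ⟨mem_univ _, ?_, h4, ?_⟩
              · apply union_subset h3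
                rw [← h6]
                exact (filter_subset _ _).trans sdiff_subset
              · rw [← (hx A X h6).1]
                exact h5
            · intro _ _ _
              exact wt_nonneg _ _
          calc _ ≤ ((1 / (n : ℝ)) ^ (X.filter fun t => ¬ Saving H rev e t).card *
              (1 / ((H.card + 2 * Dg : ℕ) : ℝ)) ^ (X.filter fun t => Saving H rev e t).card * Real.exp (-2)) * 1 :=
                mul_le_mul_of_nonneg_left h2 (by positivity)
            _ = _ := by ring
        refine (sum_le_sum hfib).trans ?_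
        rw [← sum_mul]
        have h3 := step_sum H Dg hM rev e hdeg
        calc _ ≤ Real.exp 2 * Real.exp (-2) := mul_le_mul_of_nonneg_right h3 (Real.exp_pos _).le
          _ = 1 := by rw [← Real.exp_add]; simp

end ExploreAux

open Classical in
theorem explore_sum (H : Finset (Fin n)) (Dg : ℕ) (hM : 1 ≤ H.card + 2 * Dg) (t0 : Tri n) :
    ∑ A ∈ (univ : Finset (Finset (Tri n))).filter
        (fun A => t0 ∈ A ∧ (∀ x, x ∉ H → degE A x ≤ Dg) ∧ (xpl H A t0).fin = A),
      (1 / (n : ℝ)) ^ (xpl H A t0).N * (1 / ((H.card + 2 * Dg : ℕ) : ℝ)) ^ (xpl H A t0).S *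
        Real.exp (-2 * (xpl H A t0).steps) ≤ 1 := by
  have h := ExploreAux.state_sum H Dg hM (Fintype.card (Edg n)) {t0} ∅
  refine le_trans (le_of_eq ?_) h
  refine sum_congr ?_ (fun _ _ => rfl)
  ext A
  simp only [mem_filter, mem_univ, true_and, singleton_subset_iff]
  rfl

end

end Pool.Agent.DH10
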