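import Mathlib

/-!
# DH10.Forest : the forest lemma (4.6)

`Γ` a finite graph with all degrees `≤ Δ`, `μ ≥ 0`, `x, g ≥ 0` with `x (1+g)^Δ ≤ g`.  Then
`∑_{S ⊆ Ω} x^{|S|} det (Lap(Γ[S]) + diag μ) ≤ ∏_ω (1 + g μ_ω)`.

Proof (complete).  Strong induction on `|Ω|` (or: prove the statement for all subsets `Ω' ⊆ Ω`, i.e. the sum over
`S ⊆ Ω'`, by strong induction on `|Ω'|`; then no new graphs are needed).
(1) Expansion: for any matrix `A` and diagonal `μ`: `det (A + diag μ) = ∑_{ρ ⊆ S} (∏_{ρ} μ) det (A_{S∖ρ, S∖ρ})`.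
(2) Principal minors of a Laplacian: `Lap(Γ[S])_{S∖ρ} = Lap(Γ[S∖ρ]) + diag (number of neighbours in ρ)`.
(3) `det Lap(Γ[S]) = 0` for `S ≠ ∅` (row sums are zero), `= 1` for `S = ∅`.
So the left side is `∑_ρ (∏_{ρ} μ) c_ρ`, `c_∅ = 1`, and for `ρ ≠ ∅`, writing `S = ρ ⊔ S'`,
`c_ρ = x^{|ρ|} ∑_{S' ⊆ Ω∖ρ} x^{|S'|} det (Lap(Γ[S']) + diag |N(·) ∩ ρ|)
   ≤ x^{|ρ|} ∏_{ω ∉ ρ} (1 + g |N(ω) ∩ ρ|)`   (induction, `Ω∖ρ` is smaller)
`  ≤ x^{|ρ|} ∏_ω (1+g)^{|N(ω) ∩ ρ|} ≤ x^{|ρ|} (1+g)^{Δ |ρ|} ≤ g^{|ρ|}`  (Bernoulli `1 + g k ≤ (1+g)^k`,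
`∑_ω |N(ω) ∩ ρ| = ∑_{r ∈ ρ} deg r ≤ Δ |ρ|`).  Finally `∑_ρ ∏_ρ (g μ_r) = ∏ (1 + g μ_ω)` (`Finset.prod_one_add`).

The proof below uses the one-vertex form of the expansion,
`f(S, μ) = f(S, μ with μ_i = 0) + μ_i f(S∖i, μ + 1_{N(i)})`, and a double induction.
-/

set_option autoImplicit false

open Finset

namespace Pool.Agent.DH10

variable {Ω : Type*} [Fintype Ω] [DecidableEq Ω]

/-- Laplacian of the induced subgraph on `S` plus the diagonal `μ` -/
def lapMu (Γ : SimpleGraph Ω) [DecidableRel Γ.Adj] (μ : Ω → ℝ) (S : Finset Ω) : Matrix S S ℝ :=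
  Matrix.of fun i j =>
    if i = j then ((S.filter fun k => Γ.Adj i.1 k).card : ℝ) + μ i.1
    else if Γ.Adj i.1 j.1 then -1 else 0

omit [Fintype Ω] in
/-- only the values of `μ` on `S` matter -/
private lemma fo_congr (Γ : SimpleGraph Ω) [DecidableRel Γ.Adj] {μ ν : Ω → ℝ} {S : Finset Ω}
    (h : ∀ i ∈ S, μ i = ν i) : lapMu Γ μ S = lapMu Γ ν S := by
  ext i j
  simp only [lapMu, Matrix.of_apply, h i.1 i.2]

omit [Fintype Ω] in
private lemma fo_card (Γ : SimpleGraph Ω) [DecidableRel Γ.Adj] {S : Finset Ω} {i : Ω}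
    (hi : i ∈ S) (w : Ω) : ((S.filter fun k => Γ.Adj w k).card : ℝ) =
        (((S.erase i).filter fun k => Γ.Adj w k).card : ℝ) + if Γ.Adj i w then 1 else 0 := by
  have hS : S = insert i (S.erase i) := (Finset.insert_erase hi).symm
  have hni : i ∉ S.erase i := by simp
  generalize S.erase i = R at hS hni
  subst hS
  rw [Finset.filter_insert]
  simp only [Γ.adj_comm i w]
  split_ifs with h5
  · rw [Finset.card_insert_of_notMem (by simp [hni])]
    push_cast
    rfl
  · simp

omit [Fintype Ω] in
/-- the one-vertex recursion -/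
private lemma fo_rec (Γ : SimpleGraph Ω) [DecidableRel Γ.Adj] (μ : Ω → ℝ) {S : Finset Ω} {i : Ω}
    (hi : i ∈ S) : (lapMu Γ μ S).det = (lapMu Γ (Function.update μ i 0) S).det +
      μ i * (lapMu Γ (fun ω => μ ω + if Γ.Adj i ω then 1 else 0) (S.erase i)).det := by
  classical
  set M0 := lapMu Γ (Function.update μ i 0) S with hM0
  set i' : S := ⟨i, hi⟩ with hi'
  have h1 : lapMu Γ μ S = M0.updateRow i' (M0 i' + μ i • Pi.single i' 1) := by
    ext a b
    by_cases hab : a = i'
    · subst hab
      rw [Matrix.updateRow_self]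
      simp only [hM0, lapMu, Matrix.of_apply, Pi.add_apply, Pi.smul_apply, smul_eq_mul]
      by_cases hb : b = i'
      · subst hb
        simp [hi']
      · rw [if_neg (Ne.symm hb), if_neg (Ne.symm hb), Pi.single_eq_of_ne hb]
        ring
    · rw [Matrix.updateRow_ne hab]
      have : a.1 ≠ i := fun h => hab (Subtype.ext h)
      simp only [hM0, lapMu, Matrix.of_apply, Function.update_of_ne this]
  rw [h1, Matrix.det_updateRow_add, Matrix.updateRow_eq_self, Matrix.det_updateRow_smul]
  congr 1
  congr 1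
  rw [Matrix.twoBlockTriangular_det' _ (fun a => a = i')]
  swap
  · intro a ha b hb
    subst ha
    rw [Matrix.updateRow_self, Pi.single_eq_of_ne hb]
  have h2 : ∀ (inst1 : Fintype {a : S // a = i'}) (inst2 : DecidableEq {a : S // a = i'}),
      @Matrix.det _ inst2 inst1 ℝ _
        ((M0.updateRow i' (Pi.single i' 1)).toSquareBlockProp fun a => a = i') = 1 := by
    intro inst1 inst2
    rw [Matrix.det_eq_elem_of_subsingleton _ (⟨i', rfl⟩ : {a // a = i'})]
    simp [Matrix.toSquareBlockProp]
  rw [h2, one_mul]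
  let e : {a : S // ¬ a = i'} ≃ (S.erase i : Finset Ω) :=
    { toFun := fun a => ⟨a.1.1, Finset.mem_erase.2 ⟨fun h => a.2 (Subtype.ext h), a.1.2⟩⟩
      invFun := fun a => ⟨⟨a.1, (Finset.mem_erase.1 a.2).2⟩,
        fun h => (Finset.mem_erase.1 a.2).1 (congrArg Subtype.val h)⟩
      left_inv := fun a => rfl
      right_inv := fun a => rfl }
  rw [← Matrix.det_submatrix_equiv_self e]
  congr 1
  ext a b
  have ha : a.1.1 ≠ i := fun h => a.2 (Subtype.ext h)
  have h5 : ((M0.updateRow i' (Pi.single i' 1)).toSquareBlockProp fun a => ¬ a = i') a b = M0 a.1 b.1 := by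
    show (M0.updateRow i' (Pi.single i' 1)) a.1 b.1 = M0 a.1 b.1
    rw [Matrix.updateRow_ne a.2]
  rw [h5]
  simp only [Matrix.of_apply, Matrix.submatrix_apply, hM0, lapMu, Function.update_of_ne ha]
  have e1 : (e a = e b) ↔ (a.1 = b.1) := by
    rw [e.apply_eq_iff_eq]
    exact Subtype.ext_iff
  by_cases hab : a.1 = b.1
  · rw [if_pos hab, if_pos (e1.2 hab)]
    have h3 : (e a).1 = a.1.1 := rfl
    rw [h3]
    rw [fo_card Γ hi a.1.1]
    ring
  · rw [if_neg hab, if_neg (fun h => hab (e1.1 h))]
    rfl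

omit [Fintype Ω] in
/-- the Laplacian of a nonempty graph is singular -/
private lemma fo_zero (Γ : SimpleGraph Ω) [DecidableRel Γ.Adj] {μ : Ω → ℝ} {S : Finset Ω}
    (hS : S.Nonempty) (h : ∀ i ∈ S, μ i = 0) : (lapMu Γ μ S).det = 0 := by
  classical
  obtain ⟨w, hw⟩ := hS
  apply Matrix.exists_mulVec_eq_zero_iff.1
  refine ⟨fun _ => 1, fun h0 => by simpa using congrFun h0 ⟨w, hw⟩, ?_⟩
  ext i
  simp only [Matrix.mulVec, dotProduct, mul_one, Pi.zero_apply]
  rw [← Finset.add_sum_erase _ _ (Finset.mem_univ i)]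
  have h1 : ∑ j ∈ (univ : Finset S).erase i, lapMu Γ μ S i j =
      ∑ j ∈ (univ : Finset S), (if Γ.Adj i.1 j.1 then (-1 : ℝ) else 0) := by
    rw [← Finset.add_sum_erase (univ : Finset S) _ (Finset.mem_univ i)]
    simp only [SimpleGraph.irrefl, if_false, zero_add]
    apply Finset.sum_congr rfl
    intro j hj
    simp only [lapMu, Matrix.of_apply]
    rw [if_neg (Finset.ne_of_mem_erase hj).symm]
  rw [h1]
  have h2 : ∑ j ∈ (univ : Finset S), (if Γ.Adj i.1 j.1 then (-1 : ℝ) else 0) =
      ∑ j ∈ S, (if Γ.Adj i.1 j then (-1 : ℝ) else 0) :=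
    Finset.sum_coe_sort S (fun j => if Γ.Adj i.1 j then (-1 : ℝ) else 0)
  rw [h2, ← Finset.sum_filter]
  simp [lapMu, h i.1 i.2]

omit [Fintype Ω] in
private lemma fo_empty (Γ : SimpleGraph Ω) [DecidableRel Γ.Adj] (μ : Ω → ℝ) :
    (lapMu Γ μ ∅).det = 1 := Matrix.det_isEmpty

omit [Fintype Ω] in
private lemma fo_nonneg (Γ : SimpleGraph Ω) [DecidableRel Γ.Adj] (n : ℕ) :
    ∀ S : Finset Ω, S.card = n → ∀ μ : Ω → ℝ, (∀ ω, 0 ≤ μ ω) → 0 ≤ (lapMu Γ μ S).det := by
  classical
  induction n with
  | zero =>
    intro S hS μ _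
    rw [Finset.card_eq_zero.1 hS, fo_empty]
    exact zero_le_one
  | succ n ih =>
    intro S hS
    have key : ∀ m : ℕ, ∀ μ : Ω → ℝ, (∀ ω, 0 ≤ μ ω) → (S.filter fun i => μ i ≠ 0).card = m →
        0 ≤ (lapMu Γ μ S).det := by
      intro m
      induction m with
      | zero =>
        intro μ _ hm
        have h0 : ∀ i ∈ S, μ i = 0 := by
          intro i hi
          by_contra h
          have : i ∈ S.filter fun i => μ i ≠ 0 := Finset.mem_filter.2 ⟨hi, h⟩
          rw [Finset.card_eq_zero.1 hm] at this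
          simp at this
        rw [fo_zero Γ (Finset.card_pos.1 (by omega)) h0]
      | succ m ihm =>
        intro μ hμ hm
        obtain ⟨i, hi⟩ : (S.filter fun i => μ i ≠ 0).Nonempty := Finset.card_pos.1 (by omega)
        have hiS := (Finset.mem_filter.1 hi).1
        rw [fo_rec Γ μ hiS]
        apply add_nonneg
        · apply ihm
          · intro ω
            by_cases h : ω = i
            · subst h; simp
            · rw [Function.update_of_ne h]; exact hμ ω
          · have : (S.filter fun j => Function.update μ i 0 j ≠ 0) = (S.filter fun j => μ j ≠ 0).erase i := by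
              ext j
              by_cases h : j = i
              · subst h; simp
              · simp [Finset.mem_erase, Finset.mem_filter, h]
            rw [this, Finset.card_erase_of_mem hi, hm]
            rfl
        · apply mul_nonneg (hμ i)
          apply ih
          · rw [Finset.card_erase_of_mem hiS, hS]; rfl
          · intro ω
            have := hμ ω
            split_ifs <;> linarith
    intro μ hμ
    exact key _ μ hμ rfl

/-- these determinants are nonnegative -/
theorem det_lapMu_nonneg (Γ : SimpleGraph Ω) [DecidableRel Γ.Adj] {μ : Ω → ℝ} (hμ : ∀ ω, 0 ≤ μ ω)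
    (S : Finset Ω) : 0 ≤ (lapMu Γ μ S).det :=
  fo_nonneg Γ S.card S rfl μ hμ

private lemma fo_main (Γ : SimpleGraph Ω) [DecidableRel Γ.Adj]
    {Δ : ℕ} (hΔ : ∀ ω, (univ.filter fun k => Γ.Adj ω k).card ≤ Δ) {x g : ℝ} (hx : 0 ≤ x) (hg : 0 ≤ g)
    (h : x * (1 + g) ^ Δ ≤ g) (n : ℕ) :
    ∀ T : Finset Ω, T.card = n → ∀ μ : Ω → ℝ, (∀ ω, 0 ≤ μ ω) →
      ∑ S ∈ T.powerset, x ^ S.card * (lapMu Γ μ S).det ≤ ∏ ω ∈ T, (1 + g * μ ω) := by
  classical
  induction n with
  | zero =>
    intro T hT μ _
    rw [Finset.card_eq_zero.1 hT]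
    simp [fo_empty]
  | succ n ih =>
    intro T hT
    have key : ∀ m : ℕ, ∀ μ : Ω → ℝ, (∀ ω, 0 ≤ μ ω) → (T.filter fun i => μ i ≠ 0).card = m →
        ∑ S ∈ T.powerset, x ^ S.card * (lapMu Γ μ S).det ≤ ∏ ω ∈ T, (1 + g * μ ω) := by
      intro m
      induction m with
      | zero =>
        intro μ _ hm
        have h0 : ∀ i ∈ T, μ i = 0 := by
          intro i hi
          by_contra h
          have : i ∈ T.filter fun i => μ i ≠ 0 := Finset.mem_filter.2 ⟨hi, h⟩
          rw [Finset.card_eq_zero.1 hm] at this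
          simp at this
        have h1 : ∏ ω ∈ T, (1 + g * μ ω) = 1 := by
          apply Finset.prod_eq_one
          intro i hi
          rw [h0 i hi]; ring
        rw [h1, Finset.sum_eq_single_of_mem ∅ (Finset.empty_mem_powerset T)]
        · rw [fo_empty]; simp
        · intro S hS hS0
          rw [fo_zero Γ (Finset.nonempty_iff_ne_empty.2 hS0)
            (fun i hi => h0 i (Finset.mem_powerset.1 hS hi)), mul_zero]
      | succ m ihm =>
        intro μ hμ hm
        obtain ⟨i, hi⟩ : (T.filter fun i => μ i ≠ 0).Nonempty := Finset.card_pos.1 (by omega)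
        have hiT := (Finset.mem_filter.1 hi).1
        -- the recursion summed
        have h1 : ∑ S ∈ T.powerset, x ^ S.card * (lapMu Γ μ S).det =
            ∑ S ∈ T.powerset, x ^ S.card * (lapMu Γ (Function.update μ i 0) S).det +
            μ i * x * ∑ S ∈ (T.erase i).powerset, x ^ S.card *
              (lapMu Γ (fun ω => μ ω + if Γ.Adj i ω then 1 else 0) S).det := by
          have hT' : T = insert i (T.erase i) := (Finset.insert_erase hiT).symm
          have hni : i ∉ T.erase i := by simp
          rw [hT', Finset.sum_powerset_insert hni, Finset.sum_powerset_insert hni,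
            Finset.erase_insert_eq_erase, Finset.erase_idem, Finset.mul_sum, add_assoc]
          congr 1
          · apply Finset.sum_congr rfl
            intro S hS
            rw [fo_congr Γ (ν := Function.update μ i 0)]
            intro j hj
            have : j ≠ i := fun hji => hni (hji ▸ Finset.mem_powerset.1 hS hj)
            rw [Function.update_of_ne this]
          · rw [← Finset.sum_add_distrib]
            apply Finset.sum_congr rfl
            intro S hS
            have hiS : i ∉ S := fun hh => hni (Finset.mem_powerset.1 hS hh)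
            rw [fo_rec Γ μ (Finset.mem_insert_self i S), Finset.erase_insert hiS,
              Finset.card_insert_of_notMem hiS, pow_succ]
            ring
        have h2 : ∑ S ∈ T.powerset, x ^ S.card * (lapMu Γ (Function.update μ i 0) S).det ≤
            ∏ ω ∈ T.erase i, (1 + g * μ ω) := by
          have h3 := ihm (Function.update μ i 0) (by
            intro ω
            by_cases h : ω = i
            · subst h; simp
            · rw [Function.update_of_ne h]; exact hμ ω) (by
            have : (T.filter fun j => Function.update μ i 0 j ≠ 0) = (T.filter fun j => μ j ≠ 0).erase i := by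
              ext j
              by_cases h : j = i
              · subst h; simp
              · simp [Finset.mem_erase, Finset.mem_filter, h]
            rw [this, Finset.card_erase_of_mem hi, hm]
            rfl)
          refine h3.trans (le_of_eq ?_)
          rw [← Finset.mul_prod_erase T _ hiT]
          simp only [Function.update_self, mul_zero, add_zero, one_mul]
          apply Finset.prod_congr rfl
          intro j hj
          rw [Function.update_of_ne (Finset.ne_of_mem_erase hj)]
        have h4 : ∑ S ∈ (T.erase i).powerset, x ^ S.card *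
              (lapMu Γ (fun ω => μ ω + if Γ.Adj i ω then 1 else 0) S).det ≤
            (1 + g) ^ Δ * ∏ ω ∈ T.erase i, (1 + g * μ ω) := by
          have h5 := ih (T.erase i) (by rw [Finset.card_erase_of_mem hiT, hT]; rfl)
            (fun ω => μ ω + if Γ.Adj i ω then 1 else 0) (by
              intro ω
              have := hμ ω
              show 0 ≤ μ ω + if Γ.Adj i ω then 1 else 0
              split_ifs <;> linarith)
          refine h5.trans ?_
          have h6 : ∏ ω ∈ T.erase i, (1 + g * (μ ω + if Γ.Adj i ω then (1 : ℝ) else 0)) ≤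
              ∏ ω ∈ T.erase i, ((if Γ.Adj i ω then (1 + g) else 1) * (1 + g * μ ω)) := by
            apply Finset.prod_le_prod
            · intro j _
              have := hμ j
              have h7 : 0 ≤ g * μ j := mul_nonneg hg this
              split_ifs
              · nlinarith
              · nlinarith
            · intro j _
              have := hμ j
              have h7 : 0 ≤ g * μ j := mul_nonneg hg this
              split_ifs
              · nlinarith [mul_nonneg hg h7]
              · nlinarith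
          refine h6.trans ?_
          rw [Finset.prod_mul_distrib]
          apply mul_le_mul_of_nonneg_right
          · rw [Finset.prod_ite, Finset.prod_const, Finset.prod_const_one, mul_one]
            apply pow_le_pow_right₀ (by linarith)
            refine (Finset.card_le_card ?_).trans (hΔ i)
            intro j hj
            exact Finset.mem_filter.2 ⟨Finset.mem_univ j, (Finset.mem_filter.1 hj).2⟩
          · apply Finset.prod_nonneg
            intro j _
            have := mul_nonneg hg (hμ j)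
            linarith
        rw [h1, ← Finset.mul_prod_erase T _ hiT]
        have hP : 0 ≤ ∏ ω ∈ T.erase i, (1 + g * μ ω) := by
          apply Finset.prod_nonneg
          intro j _
          have := mul_nonneg hg (hμ j)
          linarith
        have h8 : μ i * x * ∑ S ∈ (T.erase i).powerset, x ^ S.card *
              (lapMu Γ (fun ω => μ ω + if Γ.Adj i ω then 1 else 0) S).det ≤
            μ i * g * ∏ ω ∈ T.erase i, (1 + g * μ ω) := by
          calc _ ≤ μ i * x * ((1 + g) ^ Δ * ∏ ω ∈ T.erase i, (1 + g * μ ω)) :=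
                mul_le_mul_of_nonneg_left h4 (mul_nonneg (hμ i) hx)
            _ = μ i * (x * (1 + g) ^ Δ) * ∏ ω ∈ T.erase i, (1 + g * μ ω) := by ring
            _ ≤ _ := mul_le_mul_of_nonneg_right (mul_le_mul_of_nonneg_left h (hμ i)) hP
        linarith [h2, h8]
    intro μ hμ
    exact key _ μ hμ rfl

/-- the forest lemma -/
theorem forest_lemma (Γ : SimpleGraph Ω) [DecidableRel Γ.Adj] {μ : Ω → ℝ} (hμ : ∀ ω, 0 ≤ μ ω)
    {Δ : ℕ} (hΔ : ∀ ω, (univ.filter fun k => Γ.Adj ω k).card ≤ Δ) {x g : ℝ} (hx : 0 ≤ x) (hg : 0 ≤ g)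
    (h : x * (1 + g) ^ Δ ≤ g) :
    ∑ S : Finset Ω, x ^ S.card * (lapMu Γ μ S).det ≤ ∏ ω, (1 + g * μ ω) := by
  have := fo_main Γ hΔ hx hg h (univ : Finset Ω).card univ rfl μ hμ
  rwa [Finset.powerset_univ] at this

end Pool.Agent.DH10
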