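import Pool.Agent.DH10.NZDefs
import Pool.Agent.DH10.SpecHub

/-!
# DH10.HubStar : hub stars (4.11)

`rx f x c = #{z : f(x,z) = c}` (all `z`, including `z = x`).
* `Dg_le_rx`: `D_xy ≤ rx f x (f(x,y)) + dgr f y` (split `z` by `f(z,y) = 0` or not).
* `hub_prod`: for `n` large, `|suppE f| ≤ n^{1.01}`, any `x`, `H`:
  `∏_{y∉H} D_xy/n ≤ exp(n^{0.97}) ∏_{y∉H} rx f x (f(x,y))/n`.  Proof: `D ≤ r(1 + d_y/r)`, `r = rx ≥ 1`; for a class `{y : f(x,y)=c}` of
  size `≤ r`: `∑ log(1+d_y/r) ≤ ∑ d_y/r ≤ 2s/r ≤ 2 n^{0.05}` if `r ≥ n^{0.96}`, and `≤ r log(1 + n) ≤ n^{0.96} log(n+1)` if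
  `r < n^{0.96}`; there are `k` classes.
* `star_sum` (pure): `∑_{g : U → K} ∏_{y∈U} (r_g(g y) + h)/(|U|+h) ≤ (|U|+1)^k e^{k h}`, `r_g(c) = #{z ∈ U : g z = c}`.
  Proof: group by the vector `(r_c)_c`; for a fixed vector the product is
  `∏_c ((r_c+h)/(|U|+h))^{r_c} ≤ e^{kh} ∏_c (r_c/|U|)^{r_c}` (`(r+h)^r ≤ r^r e^h`), and `∑_{g with class sizes r} ∏_c (r_c/|U|)^{r_c} ≤ 1`
  because it is part of the expansion of `∏_{y∈U} ∑_c (r_c/|U|) = 1`.
-/

set_option autoImplicit false

open Finset Filter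

namespace Pool.Agent.DH10

noncomputable section

/-- size of the class of `c` at `x` -/
def rx {n : ℕ} {K : Type} [AddCommGroup K] [DecidableEq K] (f : Coch n K) (x : Fin n) (c : K) : ℕ :=
  (univ.filter fun z => val f x z = c).card

private theorem hs_swap {n : ℕ} {K : Type} [AddCommGroup K] (f : Coch n K) (x y : Fin n) :
    val f y x = - val f x y := by
  unfold val
  rcases lt_trichotomy x y with h | h | h
  · rw [dif_pos h, dif_neg (not_lt.mpr h.le), dif_pos h]
  · subst h
    simp
  · have h' := not_lt.mpr h.le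
    simp [h, h']

private theorem hs_self {n : ℕ} {K : Type} [AddCommGroup K] (f : Coch n K) (x : Fin n) :
    val f x x = 0 := by
  unfold val
  simp

theorem Dg_le_rx {n : ℕ} {K : Type} [AddCommGroup K] [DecidableEq K] (f : Coch n K) (x y : Fin n) :
    Dg f x y ≤ rx f x (val f x y) + dgr f y := by
  unfold Dg rx dgr
  rw [← card_filter_add_card_filter_not (s := univ.filter fun z => val f x z + val f z y = val f x y)
    (fun z => val f z y = 0)]
  apply Nat.add_le_add
  · apply card_le_card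
    intro z hz
    simp only [mem_filter, mem_univ, true_and] at hz ⊢
    obtain ⟨h1, h2⟩ := hz
    rw [h2, add_zero] at h1
    exact h1
  · apply card_le_card
    intro z hz
    simp only [mem_filter, mem_univ, true_and] at hz ⊢
    obtain ⟨_, h2⟩ := hz
    rw [hs_swap, neg_ne_zero]
    exact h2

private theorem hs_rx_pos {n : ℕ} {K : Type} [AddCommGroup K] [DecidableEq K] (f : Coch n K)
    (x y : Fin n) : 1 ≤ rx f x (val f x y) := by
  unfold rx
  apply Nat.succ_le_of_lt
  apply card_pos.mpr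
  exact ⟨y, mem_filter.mpr ⟨mem_univ _, rfl⟩⟩

private theorem hs_prod_bound {n : ℕ} {K : Type} [AddCommGroup K] [Fintype K] [DecidableEq K]
    (f : Coch n K) (x : Fin n) {m : ℝ} (hm : 0 < m) :
    ∏ y : Fin n, (1 + (dgr f y : ℝ) / (rx f x (val f x y) : ℝ))
      ≤ Real.exp (Fintype.card K * (2 * ((suppE f).card : ℝ) / m + m * Real.log ((n : ℝ) + 1))) := by
  have hlog : 0 ≤ Real.log ((n : ℝ) + 1) := Real.log_nonneg (by
    linarith [(Nat.cast_nonneg n : (0 : ℝ) ≤ n)])
  have hs0 : 0 ≤ 2 * ((suppE f).card : ℝ) / m := by positivity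
  have h2s : ∑ y, (dgr f y : ℝ) = 2 * ((suppE f).card : ℝ) := by
    exact_mod_cast sum_dgr f
  rw [← prod_fiberwise_of_maps_to (s := (univ : Finset (Fin n))) (t := (univ : Finset K))
    (g := fun y => val f x y) (fun _ _ => mem_univ _)]
  rw [mul_comm (Fintype.card K : ℝ), mul_comm _ (Fintype.card K : ℝ), Real.exp_nat_mul, ← card_univ,
    ← prod_const]
  apply Finset.prod_le_prod
  · intro c _
    exact prod_nonneg (fun y _ => by positivity)
  intro c _
  have hc : ∏ y ∈ univ.filter (fun y => val f x y = c), (1 + (dgr f y : ℝ) / (rx f x (val f x y) : ℝ))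
      = ∏ y ∈ univ.filter (fun y => val f x y = c), (1 + (dgr f y : ℝ) / (rx f x c : ℝ)) := by
    apply prod_congr rfl
    intro y hy
    rw [(mem_filter.mp hy).2]
  rw [hc]
  rcases le_or_gt m (rx f x c : ℝ) with h | h
  · have hr : 0 < (rx f x c : ℝ) := lt_of_lt_of_le hm h
    calc ∏ y ∈ univ.filter (fun y => val f x y = c), (1 + (dgr f y : ℝ) / (rx f x c : ℝ))
        ≤ ∏ y ∈ univ.filter (fun y => val f x y = c), Real.exp ((dgr f y : ℝ) / (rx f x c : ℝ)) := by
          apply Finset.prod_le_prod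
          · intro y _
            positivity
          · intro y _
            have := Real.add_one_le_exp ((dgr f y : ℝ) / (rx f x c : ℝ))
            linarith
      _ = Real.exp (∑ y ∈ univ.filter (fun y => val f x y = c), (dgr f y : ℝ) / (rx f x c : ℝ)) :=
          (Real.exp_sum _ _).symm
      _ ≤ Real.exp (2 * ((suppE f).card : ℝ) / m + m * Real.log ((n : ℝ) + 1)) := by
          apply Real.exp_le_exp.mpr
          have h1 : ∑ y ∈ univ.filter (fun y => val f x y = c), (dgr f y : ℝ) / (rx f x c : ℝ)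
              ≤ 2 * ((suppE f).card : ℝ) / (rx f x c : ℝ) := by
            rw [← sum_div, ← h2s]
            apply div_le_div_of_nonneg_right _ hr.le
            apply sum_le_sum_of_subset_of_nonneg (filter_subset _ _)
            intro y _ _
            positivity
          have h2 : 2 * ((suppE f).card : ℝ) / (rx f x c : ℝ) ≤ 2 * ((suppE f).card : ℝ) / m :=
            div_le_div_of_nonneg_left (by positivity) hm h
          have h3 : 0 ≤ m * Real.log ((n : ℝ) + 1) := mul_nonneg hm.le hlog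
          linarith
  · calc ∏ y ∈ univ.filter (fun y => val f x y = c), (1 + (dgr f y : ℝ) / (rx f x c : ℝ))
        ≤ ∏ _y ∈ univ.filter (fun y => val f x y = c), ((n : ℝ) + 1) := by
          apply Finset.prod_le_prod
          · intro y _
            positivity
          · intro y hy
            have h1 : (1 : ℝ) ≤ rx f x c := by
              have := hs_rx_pos f x y
              rw [(mem_filter.mp hy).2] at this
              exact_mod_cast this
            have h2 : (dgr f y : ℝ) ≤ n := by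
              have : dgr f y ≤ n := by
                unfold dgr
                exact (card_le_univ _).trans_eq (Fintype.card_fin n)
              exact_mod_cast this
            have h3 : (dgr f y : ℝ) / (rx f x c : ℝ) ≤ dgr f y := div_le_self (by positivity) h1
            linarith
      _ = Real.exp ((rx f x c : ℝ) * Real.log ((n : ℝ) + 1)) := by
          rw [prod_const, Real.exp_nat_mul, Real.exp_log (by positivity)]
          rfl
      _ ≤ Real.exp (2 * ((suppE f).card : ℝ) / m + m * Real.log ((n : ℝ) + 1)) := by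
          apply Real.exp_le_exp.mpr
          have : (rx f x c : ℝ) * Real.log ((n : ℝ) + 1) ≤ m * Real.log ((n : ℝ) + 1) :=
            mul_le_mul_of_nonneg_right h.le hlog
          linarith

private theorem hs_ev_rpow (a C : ℝ) (ha : 0 < a) : ∀ᶠ n : ℕ in atTop, C ≤ (n : ℝ) ^ a :=
  ((tendsto_rpow_atTop ha).comp tendsto_natCast_atTop_atTop).eventually_ge_atTop C

theorem hub_prod (K : Type) [AddCommGroup K] [Fintype K] [DecidableEq K] :
    ∀ᶠ n : ℕ in atTop, ∀ f : Coch n K, ((suppE f).card : ℝ) ≤ (n : ℝ) ^ (101 / 100 : ℝ) →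
      ∀ (H : Finset (Fin n)) (x : Fin n),
        ∏ y ∈ univ.filter (fun y => y ∉ H), ((Dg f x y : ℝ) / n)
          ≤ Real.exp ((n : ℝ) ^ (97 / 100 : ℝ)) *
            ∏ y ∈ univ.filter (fun y => y ∉ H), ((rx f x (val f x y) : ℝ) / n) := by
  filter_upwards [hs_ev_rpow (1 / 200) (402 * (Fintype.card K : ℝ)) (by norm_num),
    eventually_ge_atTop 1] with n hn1 hn f hf H x
  have hnR : (1 : ℝ) ≤ n := by exact_mod_cast hn
  have hn0 : (0 : ℝ) < n := by linarith
  have hnum : (Fintype.card K : ℝ) * (2 * ((suppE f).card : ℝ) / (n : ℝ) ^ (96 / 100 : ℝ)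
      + (n : ℝ) ^ (96 / 100 : ℝ) * Real.log ((n : ℝ) + 1)) ≤ (n : ℝ) ^ (97 / 100 : ℝ) := by
    have e1 : 2 * ((suppE f).card : ℝ) / (n : ℝ) ^ (96 / 100 : ℝ) ≤ 2 * (n : ℝ) ^ (965 / 1000 : ℝ) := by
      rw [div_le_iff₀ (Real.rpow_pos_of_pos hn0 _), mul_assoc, ← Real.rpow_add hn0]
      apply mul_le_mul_of_nonneg_left _ (by norm_num)
      refine hf.trans (Real.rpow_le_rpow_of_exponent_le hnR (by norm_num))
    have e2 : Real.log ((n : ℝ) + 1) ≤ 400 * (n : ℝ) ^ (1 / 200 : ℝ) := by
      have h1 := Real.log_le_rpow_div (x := (n : ℝ) + 1) (by positivity)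
        (show (0 : ℝ) < 1 / 200 by norm_num)
      have h2 : ((n : ℝ) + 1) ^ (1 / 200 : ℝ) ≤ 2 * (n : ℝ) ^ (1 / 200 : ℝ) := by
        calc ((n : ℝ) + 1) ^ (1 / 200 : ℝ) ≤ (2 * (n : ℝ)) ^ (1 / 200 : ℝ) :=
              Real.rpow_le_rpow (by positivity) (by linarith) (by norm_num)
          _ = (2 : ℝ) ^ (1 / 200 : ℝ) * (n : ℝ) ^ (1 / 200 : ℝ) :=
              Real.mul_rpow (by norm_num) hn0.le
          _ ≤ 2 * (n : ℝ) ^ (1 / 200 : ℝ) := by
              apply mul_le_mul_of_nonneg_right _ (by positivity)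
              calc (2 : ℝ) ^ (1 / 200 : ℝ) ≤ (2 : ℝ) ^ (1 : ℝ) :=
                    Real.rpow_le_rpow_of_exponent_le (by norm_num) (by norm_num)
                _ = 2 := Real.rpow_one 2
      calc Real.log ((n : ℝ) + 1) ≤ ((n : ℝ) + 1) ^ (1 / 200 : ℝ) / (1 / 200) := h1
        _ = 200 * ((n : ℝ) + 1) ^ (1 / 200 : ℝ) := by ring
        _ ≤ 200 * (2 * (n : ℝ) ^ (1 / 200 : ℝ)) := mul_le_mul_of_nonneg_left h2 (by norm_num)
        _ = 400 * (n : ℝ) ^ (1 / 200 : ℝ) := by ring
    have e3 : (n : ℝ) ^ (96 / 100 : ℝ) * Real.log ((n : ℝ) + 1) ≤ 400 * (n : ℝ) ^ (965 / 1000 : ℝ) := by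
      calc (n : ℝ) ^ (96 / 100 : ℝ) * Real.log ((n : ℝ) + 1)
          ≤ (n : ℝ) ^ (96 / 100 : ℝ) * (400 * (n : ℝ) ^ (1 / 200 : ℝ)) :=
            mul_le_mul_of_nonneg_left e2 (by positivity)
        _ = 400 * ((n : ℝ) ^ (96 / 100 : ℝ) * (n : ℝ) ^ (1 / 200 : ℝ)) := by ring
        _ = 400 * (n : ℝ) ^ (965 / 1000 : ℝ) := by
            rw [← Real.rpow_add hn0]
            norm_num
    calc (Fintype.card K : ℝ) * (2 * ((suppE f).card : ℝ) / (n : ℝ) ^ (96 / 100 : ℝ)
          + (n : ℝ) ^ (96 / 100 : ℝ) * Real.log ((n : ℝ) + 1))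
        ≤ (Fintype.card K : ℝ) * (2 * (n : ℝ) ^ (965 / 1000 : ℝ) + 400 * (n : ℝ) ^ (965 / 1000 : ℝ)) :=
          mul_le_mul_of_nonneg_left (add_le_add e1 e3) (by positivity)
      _ = (402 * (Fintype.card K : ℝ)) * (n : ℝ) ^ (965 / 1000 : ℝ) := by ring
      _ ≤ (n : ℝ) ^ (1 / 200 : ℝ) * (n : ℝ) ^ (965 / 1000 : ℝ) :=
          mul_le_mul_of_nonneg_right hn1 (by positivity)
      _ = (n : ℝ) ^ (97 / 100 : ℝ) := by
          rw [← Real.rpow_add hn0]
          norm_num
  have hb := (hs_prod_bound f x (Real.rpow_pos_of_pos hn0 (96 / 100))).trans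
    (Real.exp_le_exp.mpr hnum)
  have hsub : ∏ y ∈ univ.filter (fun y => y ∉ H), (1 + (dgr f y : ℝ) / (rx f x (val f x y) : ℝ))
      ≤ ∏ y : Fin n, (1 + (dgr f y : ℝ) / (rx f x (val f x y) : ℝ)) := by
    apply Finset.prod_le_prod_of_subset_of_one_le (filter_subset _ _)
    · intro y _
      positivity
    · intro y _ _
      have : 0 ≤ (dgr f y : ℝ) / (rx f x (val f x y) : ℝ) := by positivity
      linarith
  calc ∏ y ∈ univ.filter (fun y => y ∉ H), ((Dg f x y : ℝ) / n)
      ≤ ∏ y ∈ univ.filter (fun y => y ∉ H), ((1 + (dgr f y : ℝ) / (rx f x (val f x y) : ℝ))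
          * ((rx f x (val f x y) : ℝ) / n)) := by
        apply Finset.prod_le_prod
        · intro y _
          positivity
        · intro y _
          have h1 : (1 : ℝ) ≤ rx f x (val f x y) := by exact_mod_cast hs_rx_pos f x y
          have h2 : (Dg f x y : ℝ) ≤ rx f x (val f x y) + dgr f y := by exact_mod_cast Dg_le_rx f x y
          have h3 : (1 + (dgr f y : ℝ) / (rx f x (val f x y) : ℝ)) * ((rx f x (val f x y) : ℝ) / n)
              = (rx f x (val f x y) + dgr f y) / n := by
            have : (rx f x (val f x y) : ℝ) ≠ 0 := by linarith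
            field_simp
          rw [h3]
          exact div_le_div_of_nonneg_right h2 hn0.le
    _ = (∏ y ∈ univ.filter (fun y => y ∉ H), (1 + (dgr f y : ℝ) / (rx f x (val f x y) : ℝ)))
          * ∏ y ∈ univ.filter (fun y => y ∉ H), ((rx f x (val f x y) : ℝ) / n) := prod_mul_distrib
    _ ≤ _ := mul_le_mul_of_nonneg_right (hsub.trans hb) (prod_nonneg (fun y _ => by positivity))

private theorem hs_XX {n : ℕ} {K : Type} [AddCommGroup K] [DecidableEq K] (H : Finset (Fin n))
    (f : Coch n K) (x : Fin n) :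
    (univ.filter fun y => y ∉ H ∧ val f x y = 0).card *
      (univ.filter fun y => y ∉ H ∧ val f x y ≠ 0).card ≤ XX H f x := by
  rw [← card_product]
  unfold XX
  refine (card_le_card (t := ((low H).filter fun e => val f x e.1.1 ≠ val f x e.1.2).image
    (fun e => if val f x e.1.1 = 0 then (e.1.1, e.1.2) else (e.1.2, e.1.1))) ?_).trans card_image_le
  rintro ⟨y, z⟩ hp
  rw [mem_product, mem_filter, mem_filter] at hp
  obtain ⟨⟨_, hyH, hy⟩, ⟨_, hzH, hz⟩⟩ := hp
  simp only at hyH hy hzH hz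
  rw [mem_image]
  rcases lt_trichotomy y z with h | h | h
  · refine ⟨⟨(y, z), h⟩, ?_, ?_⟩
    · rw [mem_filter]
      refine ⟨mem_filter.mpr ⟨mem_univ _, hyH, hzH⟩, ?_⟩
      simp only
      rw [hy]
      exact fun e => hz e.symm
    · simp only
      rw [if_pos hy]
  · subst h
    exact absurd hy hz
  · refine ⟨⟨(z, y), h⟩, ?_, ?_⟩
    · rw [mem_filter]
      refine ⟨mem_filter.mpr ⟨mem_univ _, hzH, hyH⟩, ?_⟩
      simp only
      rw [hy]
      exact hz
    · simp only
      rw [if_neg hz]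

/-- at a hub of a vertex-minimal cochain, `XX` is large -/
theorem XX_ge (K : Type) [AddCommGroup K] [Fintype K] [DecidableEq K] :
    ∀ᶠ n : ℕ in atTop, ∀ f : Coch n K, VMin f → ((suppE f).card : ℝ) ≤ (n : ℝ) ^ (101 / 100 : ℝ) →
      ∀ x ∈ hub f, (dgr f x : ℝ) * n / (4 * (Fintype.card K : ℝ)) ≤ (XX (hub f) f x : ℝ) := by
  filter_upwards [hs_ev_rpow (97 / 100) (8 * (Fintype.card K : ℝ)) (by norm_num),
    hs_ev_rpow (95 / 100) 4 (by norm_num), eventually_ge_atTop 4] with n hn1 hn2 hn f hV hf x hx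
  have hnR : (4 : ℝ) ≤ n := by exact_mod_cast hn
  have hn0 : (0 : ℝ) < n := by linarith
  have hk1 : (1 : ℝ) ≤ Fintype.card K := by
    exact_mod_cast Nat.succ_le_of_lt (Fintype.card_pos_iff.mpr ⟨(0 : K)⟩)
  set k : ℝ := (Fintype.card K : ℝ) with hk
  set H := hub f with hH
  -- number of hubs
  have hh : (H.card : ℝ) ≤ 2 * (n : ℝ) ^ (3 / 100 : ℝ) := by
    have h1 := hub_card f
    have h2 : (0 : ℝ) < (n : ℝ) ^ (1 - 1 / 50 : ℝ) := Real.rpow_pos_of_pos hn0 _
    rw [← le_div_iff₀ h2] at h1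
    refine h1.trans ?_
    rw [div_le_iff₀ h2, mul_assoc, ← Real.rpow_add hn0]
    have h3 : (3 / 100 + (1 - 1 / 50) : ℝ) = 101 / 100 := by norm_num
    rw [h3]
    exact mul_le_mul_of_nonneg_left hf (by norm_num)
  have hdx : (n : ℝ) ^ (1 - 1 / 50 : ℝ) ≤ (dgr f x : ℝ) := (mem_filter.mp hx).2
  have h4 : 4 * (n : ℝ) ^ (3 / 100 : ℝ) ≤ (n : ℝ) ^ (1 - 1 / 50 : ℝ) := by
    calc 4 * (n : ℝ) ^ (3 / 100 : ℝ) ≤ (n : ℝ) ^ (95 / 100 : ℝ) * (n : ℝ) ^ (3 / 100 : ℝ) :=
          mul_le_mul_of_nonneg_right hn2 (by positivity)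
      _ = (n : ℝ) ^ (1 - 1 / 50 : ℝ) := by
          rw [← Real.rpow_add hn0]
          norm_num
  have h5 : 8 * k * (n : ℝ) ^ (3 / 100 : ℝ) ≤ n := by
    calc 8 * k * (n : ℝ) ^ (3 / 100 : ℝ) ≤ (n : ℝ) ^ (97 / 100 : ℝ) * (n : ℝ) ^ (3 / 100 : ℝ) :=
          mul_le_mul_of_nonneg_right hn1 (by positivity)
      _ = n := by
          rw [← Real.rpow_add hn0]
          norm_num
  -- the two classes
  have hC1 : (dgr f x : ℝ) - H.card ≤ ((univ.filter fun y => y ∉ H ∧ val f x y ≠ 0).card : ℝ) := by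
    have : dgr f x ≤ (univ.filter fun y => y ∉ H ∧ val f x y ≠ 0).card + H.card := by
      unfold dgr
      refine (card_le_card (t := (univ.filter fun y => y ∉ H ∧ val f x y ≠ 0) ∪ H) ?_).trans
        (card_union_le _ _)
      intro y hy
      rw [mem_union, mem_filter]
      by_cases h : y ∈ H
      · exact Or.inr h
      · exact Or.inl ⟨mem_univ _, h, (mem_filter.mp hy).2⟩
    have : (dgr f x : ℝ) ≤ ((univ.filter fun y => y ∉ H ∧ val f x y ≠ 0).card : ℝ) + H.card := by
      exact_mod_cast this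
    linarith
  have hC0a : (n : ℝ) - 1 ≤ k * ((univ.filter fun y => y ≠ x ∧ val f x y = 0).card : ℝ) := by
    have e1 : (univ.filter fun y : Fin n => y ≠ x).card = n - 1 := by
      rw [filter_ne', card_erase_of_mem (mem_univ _), card_univ, Fintype.card_fin]
    have e2 := card_eq_sum_card_fiberwise (f := fun y => val f x y)
      (s := univ.filter fun y : Fin n => y ≠ x) (t := (univ : Finset K)) (fun _ _ => mem_univ _)
    have e3 : (univ.filter fun y : Fin n => y ≠ x).card
        ≤ Fintype.card K * (univ.filter fun y => y ≠ x ∧ val f x y = 0).card := by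
      rw [e2, ← card_univ, ← smul_eq_mul]
      apply sum_le_card_nsmul
      intro c _
      rw [filter_filter]
      exact hV x c
    rw [e1] at e3
    have e4 : n ≤ Fintype.card K * (univ.filter fun y => y ≠ x ∧ val f x y = 0).card + 1 := by omega
    have e5 : (n : ℝ) ≤ k * ((univ.filter fun y => y ≠ x ∧ val f x y = 0).card : ℝ) + 1 := by
      rw [hk]
      exact_mod_cast e4
    linarith
  have hC0b : ((univ.filter fun y => y ≠ x ∧ val f x y = 0).card : ℝ) - H.card
      ≤ ((univ.filter fun y => y ∉ H ∧ val f x y = 0).card : ℝ) := by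
    have : (univ.filter fun y => y ≠ x ∧ val f x y = 0).card
        ≤ (univ.filter fun y => y ∉ H ∧ val f x y = 0).card + H.card := by
      refine (card_le_card (t := (univ.filter fun y => y ∉ H ∧ val f x y = 0) ∪ H) ?_).trans
        (card_union_le _ _)
      intro y hy
      rw [mem_union, mem_filter]
      by_cases h : y ∈ H
      · exact Or.inr h
      · exact Or.inl ⟨mem_univ _, h, (mem_filter.mp hy).2.2⟩
    have : ((univ.filter fun y => y ≠ x ∧ val f x y = 0).card : ℝ)
        ≤ ((univ.filter fun y => y ∉ H ∧ val f x y = 0).card : ℝ) + H.card := by exact_mod_cast this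
    linarith
  have hXX : ((univ.filter fun y => y ∉ H ∧ val f x y = 0).card : ℝ) *
      ((univ.filter fun y => y ∉ H ∧ val f x y ≠ 0).card : ℝ) ≤ (XX H f x : ℝ) := by
    exact_mod_cast hs_XX H f x
  refine le_trans ?_ hXX
  have hA : (n : ℝ) / (2 * k) ≤ ((univ.filter fun y => y ∉ H ∧ val f x y = 0).card : ℝ) := by
    have e1 : ((n : ℝ) - 1) / k ≤ ((univ.filter fun y => y ≠ x ∧ val f x y = 0).card : ℝ) := by
      rw [div_le_iff₀ (by linarith)]
      linarith
    have e2 : (n : ℝ) / (2 * k) + H.card ≤ ((n : ℝ) - 1) / k := by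
      rw [div_add' _ _ _ (by positivity), div_le_div_iff₀ (by positivity) (by linarith)]
      have e3 : (H.card : ℝ) * (2 * k) ≤ (n : ℝ) / 2 := by
        calc (H.card : ℝ) * (2 * k) ≤ (2 * (n : ℝ) ^ (3 / 100 : ℝ)) * (2 * k) :=
              mul_le_mul_of_nonneg_right hh (by positivity)
          _ = (8 * k * (n : ℝ) ^ (3 / 100 : ℝ)) / 2 := by ring
          _ ≤ (n : ℝ) / 2 := by linarith
      have e4 : (n : ℝ) + H.card * (2 * k) ≤ 2 * (n - 1) := by linarith
      calc ((n : ℝ) + H.card * (2 * k)) * k ≤ (2 * (n - 1)) * k :=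
            mul_le_mul_of_nonneg_right e4 (by linarith)
        _ = (n - 1) * (2 * k) := by ring
    linarith
  have hB : (dgr f x : ℝ) / 2 ≤ ((univ.filter fun y => y ∉ H ∧ val f x y ≠ 0).card : ℝ) := by
    linarith
  calc (dgr f x : ℝ) * n / (4 * k) = ((n : ℝ) / (2 * k)) * ((dgr f x : ℝ) / 2) := by
        field_simp
        norm_num
    _ ≤ _ := mul_le_mul hA hB (by positivity) (by positivity)

theorem star_sum {U K : Type*} [Fintype U] [DecidableEq U] [Fintype K] [DecidableEq K] (h : ℕ) :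
    ∑ g : U → K, ∏ y : U, ((((univ.filter fun z => g z = g y).card + h : ℕ) : ℝ) /
        ((Fintype.card U + h : ℕ) : ℝ))
      ≤ ((Fintype.card U : ℝ) + 1) ^ (Fintype.card K) * Real.exp (Fintype.card K * h) := by
  classical
  set u := Fintype.card U with hu
  -- class sizes
  set R : (U → K) → K → ℕ := fun g c => (univ.filter fun z => g z = c).card with hR
  have hRu : ∀ g c, R g c ≤ u := fun g c => by
    rw [hR, hu]
    exact card_le_univ _
  have hRsum : ∀ g, ∑ c, R g c = u := fun g => by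
    have := card_eq_sum_card_fiberwise (f := g) (s := (univ : Finset U)) (t := univ)
      (fun _ _ => mem_univ _)
    rw [hu, ← card_univ, this]
  -- one factor
  have key : ∀ (r : ℕ), r ≤ u → (((r + h : ℕ) : ℝ) / ((u + h : ℕ) : ℝ)) ^ r
      ≤ Real.exp h * ((r : ℝ) / u) ^ r := by
    intro r hr
    rcases Nat.eq_zero_or_pos r with h0 | h0
    · subst h0
      simp
    · have hr0 : (0 : ℝ) < r := by exact_mod_cast h0
      have hu0 : (0 : ℝ) < u := lt_of_lt_of_le hr0 (by exact_mod_cast hr)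
      have e1 : ((r + h : ℕ) : ℝ) / ((u + h : ℕ) : ℝ) ≤ (1 + (h : ℝ) / r) * ((r : ℝ) / u) := by
        have e2 : (1 + (h : ℝ) / r) * ((r : ℝ) / u) = ((r + h : ℕ) : ℝ) / u := by
          push_cast
          field_simp
        rw [e2]
        apply div_le_div_of_nonneg_left (by positivity) hu0
        push_cast
        linarith [(Nat.cast_nonneg h : (0 : ℝ) ≤ h)]
      calc (((r + h : ℕ) : ℝ) / ((u + h : ℕ) : ℝ)) ^ r
          ≤ ((1 + (h : ℝ) / r) * ((r : ℝ) / u)) ^ r := pow_le_pow_left₀ (by positivity) e1 r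
        _ = (1 + (h : ℝ) / r) ^ r * ((r : ℝ) / u) ^ r := mul_pow _ _ _
        _ ≤ Real.exp h * ((r : ℝ) / u) ^ r := by
          apply mul_le_mul_of_nonneg_right _ (by positivity)
          calc (1 + (h : ℝ) / r) ^ r ≤ (Real.exp ((h : ℝ) / r)) ^ r := by
                apply pow_le_pow_left₀ (by positivity)
                have := Real.add_one_le_exp ((h : ℝ) / r)
                linarith
            _ = Real.exp h := by
                rw [← Real.exp_nat_mul]
                congr 1
                field_simp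
  -- product over y grouped by classes
  have grp : ∀ (g : U → K) (φ : ℕ → ℝ), ∏ y : U, φ (R g (g y)) = ∏ c : K, (φ (R g c)) ^ (R g c) := by
    intro g φ
    rw [← prod_fiberwise_of_maps_to (s := (univ : Finset U)) (t := (univ : Finset K)) (g := g)
      (fun _ _ => mem_univ _)]
    apply prod_congr rfl
    intro c _
    rw [prod_congr rfl (g := fun _ => φ (R g c)), prod_const]
    intro y hy
    rw [(mem_filter.mp hy).2]
  have step1 : ∀ g : U → K, ∏ y : U, ((((univ.filter fun z => g z = g y).card + h : ℕ) : ℝ) /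
        ((u + h : ℕ) : ℝ)) ≤ Real.exp (Fintype.card K * h) * ∏ y : U, ((R g (g y) : ℝ) / u) := by
    intro g
    have a1 := grp g (fun r => ((r + h : ℕ) : ℝ) / ((u + h : ℕ) : ℝ))
    have a2 := grp g (fun r => (r : ℝ) / u)
    calc ∏ y : U, ((((univ.filter fun z => g z = g y).card + h : ℕ) : ℝ) / ((u + h : ℕ) : ℝ))
        = ∏ c : K, (((R g c + h : ℕ) : ℝ) / ((u + h : ℕ) : ℝ)) ^ (R g c) := a1
      _ ≤ ∏ c : K, (Real.exp h * ((R g c : ℝ) / u) ^ (R g c)) := by
          apply Finset.prod_le_prod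
          · intro c _
            positivity
          · intro c _
            exact key _ (hRu g c)
      _ = Real.exp (Fintype.card K * h) * ∏ y : U, ((R g (g y) : ℝ) / u) := by
          rw [prod_mul_distrib, prod_const, card_univ, ← Real.exp_nat_mul, a2]
  have step2 : ∑ g : U → K, ∏ y : U, ((R g (g y) : ℝ) / u) ≤ ((u : ℝ) + 1) ^ (Fintype.card K) := by
    rw [← sum_fiberwise_of_maps_to (s := (univ : Finset (U → K)))
      (t := Fintype.piFinset (fun _ : K => range (u + 1))) (g := R)
      (fun g _ => by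
        rw [Fintype.mem_piFinset]
        intro c
        rw [mem_range]
        exact Nat.lt_succ_of_le (hRu g c))]
    have b1 : ∀ r ∈ Fintype.piFinset (fun _ : K => range (u + 1)),
        ∑ g ∈ univ.filter (fun g => R g = r), ∏ y : U, ((R g (g y) : ℝ) / u) ≤ 1 := by
      intro r _
      rcases (univ.filter (fun g : U → K => R g = r)).eq_empty_or_nonempty with he | ⟨g0, hg0⟩
      · rw [he, sum_empty]
        exact zero_le_one
      · have hr : ∑ c, r c = u := by
          rw [← (mem_filter.mp hg0).2]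
          exact hRsum g0
        calc ∑ g ∈ univ.filter (fun g => R g = r), ∏ y : U, ((R g (g y) : ℝ) / u)
            = ∑ g ∈ univ.filter (fun g => R g = r), ∏ y : U, ((r (g y) : ℝ) / u) := by
              apply sum_congr rfl
              intro g hg
              rw [(mem_filter.mp hg).2]
          _ ≤ ∑ g : U → K, ∏ y : U, ((r (g y) : ℝ) / u) := by
              apply sum_le_sum_of_subset_of_nonneg (filter_subset _ _)
              intro g _ _
              exact prod_nonneg (fun y _ => by positivity)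
          _ = ∏ y : U, ∑ c : K, ((r c : ℝ) / u) := by
              rw [Finset.prod_univ_sum]
              rw [Fintype.piFinset_univ]
          _ ≤ 1 := by
              rw [prod_const, ← sum_div]
              rcases Nat.eq_zero_or_pos u with h0 | h0
              · have : (univ : Finset U).card = 0 := by rw [card_univ]; exact h0
                rw [this, pow_zero]
              · have e1 : (∑ c, (r c : ℝ)) / u = 1 := by
                  have : (∑ c, (r c : ℝ)) = u := by exact_mod_cast hr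
                  rw [this]
                  have : (u : ℝ) ≠ 0 := by exact_mod_cast h0.ne'
                  exact div_self this
                rw [e1, one_pow]
    calc _ ≤ ∑ r ∈ Fintype.piFinset (fun _ : K => range (u + 1)), (1 : ℝ) := sum_le_sum b1
      _ = ((u : ℝ) + 1) ^ (Fintype.card K) := by
        rw [sum_const, Fintype.card_piFinset]
        simp
  calc _ ≤ ∑ g : U → K, Real.exp (Fintype.card K * h) * ∏ y : U, ((R g (g y) : ℝ) / u) :=
        sum_le_sum (fun g _ => step1 g)
    _ = Real.exp (Fintype.card K * h) * ∑ g : U → K, ∏ y : U, ((R g (g y) : ℝ) / u) := by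
        rw [mul_sum]
    _ ≤ Real.exp (Fintype.card K * h) * ((u : ℝ) + 1) ^ (Fintype.card K) :=
        mul_le_mul_of_nonneg_left step2 (Real.exp_pos _).le
    _ = _ := mul_comm _ _

end

end Pool.Agent.DH10
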