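import Pool.Agent.DH10.NZItem
import Pool.Agent.DH10.SpecHub

/-!
# DH10.Kernel : the small-support lemma (4.9)

`K` of odd order, `f ≠ 0`.  If `det (LZ)_SS ≠ 0`, `S = suppE f`, then the number of vertices of the graph `S` is `≤ |S| - 1`.
Proof.  Let `V(S) = {x : dgr f x ≠ 0}`.  Suppose `|V(S)| ≥ |S|`.  Some connected component `(V_c, S_c)` of the graph
`(V(S), S)` has `|S_c| ≤ |V_c|`.  It is enough to find an antisymmetric real `g ≠ 0` supported on `S_c` with
`g(x,y)+g(y,z)+g(z,x) = 0` for all `{x,y,z} ∈ Z f`: then `(LZ)_SS g = 0`.  (A closed triangle never has exactly one edge in `S`; if it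
has an edge in `S_c` then all its `S`-edges are in `S_c`.)
Case 1: no `t ∈ Z f` has its three edges in `S_c`.  Let `P` be a half system, `ph(a) = 1` for `a ∈ P`, `-1` for `-a ∈ P`, `ph 0 = 0`
(odd), `g = ph(f)` on `S_c`.  A closed triangle with exactly two `S_c`-edges `xy, xz` has `f(y,z) = 0`, `f(x,y) = f(x,z)`: sum zero.
Case 2: `{x0,x1,x2} ∈ Z f` with three edges in `S_c`.  For `v ∈ V_c \ {x0,x1,x2}` let `pa v` be a neighbour which is closer to
`{x0,x1,x2}` (graph distance in `S_c`).  The edges `v pa(v)` are different from each other and from the three edges of the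
triangle; their number is `|V_c| - 3`, so together they are all of `S_c` (`|S_c| ≤ |V_c|`).  Define `g` on the triangle by
`g(x0,x1) = 1, g(x1,x2) = -1, g(x2,x0) = 0`, and by recursion on the distance, for `w = pa v`:
`g(w,v) = g(w,u)` if there is an earlier neighbour `u` of `w` (`u = pa w` if `w ∉ {x0,x1,x2}`, `u` one of the two other triangle
vertices if `w ∈ {x0,x1,x2}`) with `f(w,u) = f(w,v)`, and `g(w,v) = 0` otherwise.  (For `w = x0`: `f(x0,x1) ≠ f(x0,x2)` since the
triangle is closed and `f(x1,x2) ≠ 0`, so there is no ambiguity.)  Then `f(w,u) = f(w,u')` implies `g(w,u) = g(w,u')` for all neighbours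
`u, u'` of `w`, which gives the condition for closed triangles with exactly two `S_c`-edges.  The only triangle with three
edges in `S_c` is `{x0,x1,x2}`: otherwise take its vertex `v` of largest distance `> 0` (not in `{x0,x1,x2}`); both its edges at `v` must be
`v pa(v)`.
(Any other organisation is fine, e.g. induction removing leaves.)
-/

set_option autoImplicit false

open Finset

namespace Pool.Agent.DH10

noncomputable section

/-- core of the kernel lemma: induction removing leaves -/
private theorem kcore {V K : Type} [Fintype V] [DecidableEq V] [AddCommGroup K] [DecidableEq K]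
    (ph : K → ℝ) (ph_neg : ∀ a, ph (-a) = - ph a) (ph_ne : ∀ a, a ≠ 0 → ph a ≠ 0) (ph_zero : ph 0 = 0)
    (N : ℕ) :
    ∀ F : V → V → K, (∀ x y, F y x = - F x y) → (∀ x, F x x = 0) →
      (∃ x y, F x y ≠ 0) →
      (∑ x, (univ.filter fun y => F x y ≠ 0).card = N) →
      (∑ x, (univ.filter fun y => F x y ≠ 0).card
        ≤ 2 * (univ.filter fun x => (univ.filter fun y => F x y ≠ 0).card ≠ 0).card) →
      ∃ g : V → V → ℝ, (∀ x y, g y x = - g x y) ∧ (∀ x y, F x y = 0 → g x y = 0) ∧
        (∃ x y, g x y ≠ 0) ∧ (∀ x y z, F x y = F x z → g x y = g x z) ∧
        (∀ x y z, F x y ≠ 0 → F y z ≠ 0 → F z x ≠ 0 → F x y + F y z + F z x = 0 →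
          g x y + g y z + g z x = 0) := by
  induction N using Nat.strong_induction_on with
  | _ N IH =>
  intro F hanti hself hne hN hle
  set d : V → ℕ := fun x => (univ.filter fun y => F x y ≠ 0).card with hd
  have hsym : ∀ x y, F x y ≠ 0 → F y x ≠ 0 := by
    intro x y h h'
    apply h
    rw [hanti y x, h', neg_zero]
  by_cases hleaf : ∃ v, d v = 1
  · obtain ⟨v, hv⟩ := hleaf
    obtain ⟨w, hw⟩ := card_eq_one.mp hv
    have hvw : F v w ≠ 0 := by
      have : w ∈ (univ.filter fun y => F v y ≠ 0) := by rw [hw]; exact mem_singleton_self w
      exact (mem_filter.mp this).2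
    have huniq : ∀ y, F v y ≠ 0 → y = w := by
      intro y hy
      have : y ∈ (univ.filter fun y => F v y ≠ 0) := mem_filter.mpr ⟨mem_univ _, hy⟩
      rw [hw] at this
      exact mem_singleton.mp this
    have hvnew : v ≠ w := by
      intro h
      apply hvw
      rw [← h]
      exact hself v
    have hwv : F w v ≠ 0 := hsym _ _ hvw
    have huniq' : ∀ y, F y v ≠ 0 → y = w := fun y hy => huniq y (hsym _ _ hy)
    by_cases hdw : d w = 1
    · obtain ⟨u, hu⟩ := card_eq_one.mp hdw
      have huv : u = v := by
        have : v ∈ (univ.filter fun y => F w y ≠ 0) := mem_filter.mpr ⟨mem_univ _, hwv⟩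
        rw [hu] at this
        exact (mem_singleton.mp this).symm
      subst huv
      have huniqw : ∀ y, F w y ≠ 0 → y = u := by
        intro y hy
        have : y ∈ (univ.filter fun y => F w y ≠ 0) := mem_filter.mpr ⟨mem_univ _, hy⟩
        rw [hu] at this
        exact mem_singleton.mp this
      refine ⟨fun x y => if x = u ∧ y = w then 1 else if x = w ∧ y = u then -1 else 0, ?_, ?_, ?_, ?_, ?_⟩
      · intro x y
        by_cases h1 : x = u ∧ y = w
        · obtain ⟨rfl, rfl⟩ := h1
          simp [hvnew.symm]
        · by_cases h2 : x = w ∧ y = u
          · obtain ⟨rfl, rfl⟩ := h2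
            simp [hvnew.symm]
          · simp only [if_neg h1, if_neg h2]
            rw [if_neg (fun h => h2 ⟨h.2, h.1⟩), if_neg (fun h => h1 ⟨h.2, h.1⟩)]
            simp
      · intro x y hxy
        dsimp only
        rw [if_neg, if_neg]
        · rintro ⟨rfl, rfl⟩
          exact hwv hxy
        · rintro ⟨rfl, rfl⟩
          exact hvw hxy
      · exact ⟨u, w, by simp⟩
      · intro x y z hyz
        by_cases hz : F x y = 0
        · have hz' : F x z = 0 := by rw [← hyz, hz]
          dsimp only
          rw [if_neg, if_neg, if_neg, if_neg]
          · rintro ⟨rfl, rfl⟩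
            exact hwv hz'
          · rintro ⟨rfl, rfl⟩
            exact hvw hz'
          · rintro ⟨rfl, rfl⟩
            exact hwv hz
          · rintro ⟨rfl, rfl⟩
            exact hvw hz
        · have hz' : F x z ≠ 0 := by rw [← hyz]; exact hz
          by_cases hxu : x = u
          · subst hxu
            rw [huniq y hz, huniq z hz']
          · by_cases hxw : x = w
            · subst hxw
              rw [huniqw y hz, huniqw z hz']
            · dsimp only
              rw [if_neg (fun h => hxu h.1), if_neg (fun h => hxw h.1), if_neg (fun h => hxu h.1),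
                if_neg (fun h => hxw h.1)]
      · intro x y z hxy hyz hzx _
        have key : ∀ x y z, F x y ≠ 0 → F y z ≠ 0 → F z x ≠ 0 → ¬ (x = u ∧ y = w) ∧
            ¬ (x = w ∧ y = u) := by
          intro x y z hxy hyz hzx
          constructor
          · rintro ⟨rfl, rfl⟩
            have := huniq' z hzx
            subst this
            exact hyz (hself _)
          · rintro ⟨rfl, rfl⟩
            have := huniq z hyz
            subst this
            exact hzx (hself _)
        dsimp only
        rw [if_neg (key x y z hxy hyz hzx).1, if_neg (key x y z hxy hyz hzx).2,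
          if_neg (key y z x hyz hzx hxy).1, if_neg (key y z x hyz hzx hxy).2,
          if_neg (key z x y hzx hxy hyz).1, if_neg (key z x y hzx hxy hyz).2]
        simp
    · -- remove the leaf
      set F' : V → V → K := fun x y => if (x = v ∧ y = w) ∨ (x = w ∧ y = v) then 0 else F x y with hF'
      have hF'anti : ∀ x y, F' y x = - F' x y := by
        intro x y
        simp only [hF']
        by_cases h : (x = v ∧ y = w) ∨ (x = w ∧ y = v)
        · rw [if_pos h, if_pos (by tauto), neg_zero]
        · rw [if_neg h, if_neg (by tauto)]
          exact hanti x y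
      have hF'self : ∀ x, F' x x = 0 := by
        intro x
        simp only [hF']
        split_ifs
        · rfl
        · exact hself x
      have hF'v : ∀ y, F' v y = 0 := by
        intro y
        simp only [hF']
        split_ifs with h
        · rfl
        · by_contra h'
          exact h (Or.inl ⟨trivial, huniq y h'⟩)
      have hF'vr : ∀ y, F' y v = 0 := by
        intro y
        rw [hF'anti v y, hF'v, neg_zero]
      have hF'w : ∀ y, y ≠ v → F' w y = F w y := by
        intro y hy
        simp only [hF']
        rw [if_neg]
        rintro (h | h)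
        · exact hvnew h.1.symm
        · exact hy h.2
      have hF'o : ∀ x y, x ≠ v → x ≠ w → F' x y = F x y := by
        intro x y hx hx'
        simp only [hF']
        rw [if_neg]
        rintro (h | h)
        · exact hx h.1
        · exact hx' h.1
      have hdv' : (univ.filter fun y => F' v y ≠ 0) = ∅ := by
        rw [filter_eq_empty_iff]
        intro y _ h
        exact h (hF'v y)
      have hdw' : (univ.filter fun y => F w y ≠ 0) = insert v (univ.filter fun y => F' w y ≠ 0) := by
        ext y
        simp only [mem_filter, mem_univ, true_and, mem_insert]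
        by_cases hy : y = v
        · subst hy
          simp [hwv]
        · rw [hF'w y hy]
          simp [hy]
      have hdwcard : d w = (univ.filter fun y => F' w y ≠ 0).card + 1 := by
        simp only [hd]
        rw [hdw', card_insert_of_notMem]
        intro h
        exact (mem_filter.mp h).2 (hF'vr w)
      have hdo : ∀ x, x ≠ v → x ≠ w → (univ.filter fun y => F' x y ≠ 0).card = d x := by
        intro x hx hx'
        simp only [hd]
        congr 1
        ext y
        simp only [mem_filter, mem_univ, true_and]
        rw [hF'o x y hx hx']
      have hdw0 : (univ.filter fun y => F' w y ≠ 0).card ≠ 0 := by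
        intro h
        rw [h] at hdwcard
        exact hdw (by omega)
      -- sums
      have hsum : ∑ x, d x = ∑ x, (univ.filter fun y => F' x y ≠ 0).card + 2 := by
        have h1 : ∀ x, d x = (univ.filter fun y => F' x y ≠ 0).card + ((if x = v then 1 else 0)
            + (if x = w then 1 else 0)) := by
          intro x
          by_cases hx : x = v
          · subst hx
            rw [if_pos rfl, if_neg hvnew, hdv', card_empty]
            exact hv
          · by_cases hx' : x = w
            · subst hx'
              rw [if_neg hx, if_pos rfl, hdwcard]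
            · rw [if_neg hx, if_neg hx', hdo x hx hx']
              rfl
        rw [sum_congr rfl (fun x _ => h1 x), sum_add_distrib, sum_add_distrib, sum_ite_eq', sum_ite_eq']
        simp
      have hset : (univ.filter fun x => d x ≠ 0) =
          insert v (univ.filter fun x => (univ.filter fun y => F' x y ≠ 0).card ≠ 0) := by
        ext x
        simp only [mem_filter, mem_univ, true_and, mem_insert]
        by_cases hx : x = v
        · subst hx
          simp [hv]
        · by_cases hx' : x = w
          · subst hx'
            constructor
            · intro _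
              exact Or.inr hdw0
            · intro _
              rw [hdwcard]
              exact Nat.succ_ne_zero _
          · rw [hdo x hx hx']
            simp [hx]
      have hsetcard : (univ.filter fun x => d x ≠ 0).card =
          (univ.filter fun x => (univ.filter fun y => F' x y ≠ 0).card ≠ 0).card + 1 := by
        rw [hset, card_insert_of_notMem]
        intro h
        apply (mem_filter.mp h).2
        rw [hdv', card_empty]
      have hle' : ∑ x, (univ.filter fun y => F' x y ≠ 0).card
        ≤ 2 * (univ.filter fun x => (univ.filter fun y => F' x y ≠ 0).card ≠ 0).card := by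
        have hle2 : ∑ x, d x ≤ 2 * (univ.filter fun x => d x ≠ 0).card := hle
        rw [hsum, hsetcard] at hle2
        omega
      have hne' : ∃ x y, F' x y ≠ 0 := by
        obtain ⟨y, hy⟩ := card_ne_zero.mp hdw0
        exact ⟨w, y, (mem_filter.mp hy).2⟩
      have hlt : ∑ x, (univ.filter fun y => F' x y ≠ 0).card < N := by
        have : ∑ x, d x = N := hN
        rw [← this, hsum]
        omega
      obtain ⟨g', g1, g2, g3, g4, g5⟩ := IH _ hlt F' hF'anti hF'self hne' rfl hle'
      -- the value on the leaf
      obtain ⟨c, hc⟩ : ∃ c : ℝ, ∀ u, u ≠ v → F w u = F w v → g' w u = c := by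
        by_cases h : ∃ u, u ≠ v ∧ F w u = F w v
        · obtain ⟨u, hu1, hu2⟩ := h
          refine ⟨g' w u, fun u' hu1' hu2' => ?_⟩
          apply g4
          rw [hF'w u' hu1', hF'w u hu1, hu2, hu2']
        · refine ⟨0, fun u hu1 hu2 => ?_⟩
          exact absurd ⟨u, hu1, hu2⟩ h
      set g : V → V → ℝ := fun x y => if x = w ∧ y = v then c else if x = v ∧ y = w then -c else g' x y
        with hg
      have gwv : g w v = c := by simp [hg]
      have gvw : g v w = -c := by
        simp [hg, hvnew]
      have gw : ∀ y, y ≠ v → g w y = g' w y := by
        intro y hy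
        simp only [hg]
        rw [if_neg (fun h => hy h.2), if_neg (fun h => hvnew h.1.symm)]
      have gv : ∀ y, y ≠ w → g v y = 0 := by
        intro y hy
        simp only [hg]
        rw [if_neg (fun h => hvnew h.1), if_neg (fun h => hy h.2)]
        exact g2 _ _ (hF'v y)
      have go : ∀ x y, x ≠ v → x ≠ w → g x y = g' x y := by
        intro x y hx hx'
        simp only [hg]
        rw [if_neg (fun h => hx' h.1), if_neg (fun h => hx h.1)]
      have gv' : ∀ y, y ≠ w → g y v = 0 := by
        intro y hy
        simp only [hg]
        rw [if_neg (fun h => hy h.1), if_neg (fun h => hvnew h.2)]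
        exact g2 _ _ (hF'vr y)
      have ganti : ∀ x y, g y x = - g x y := by
        intro x y
        by_cases h1 : x = v
        · subst h1
          by_cases h2 : y = w
          · subst h2
            rw [gwv, gvw, neg_neg]
          · rw [gv y h2, gv' y h2, neg_zero]
        · by_cases h2 : y = v
          · subst h2
            by_cases h3 : x = w
            · subst h3
              rw [gwv, gvw]
            · rw [gv x h3, gv' x h3, neg_zero]
          · have e1 : g x y = g' x y := by
              by_cases h3 : x = w
              · subst h3
                exact gw y h2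
              · exact go x y h1 h3
            have e2 : g y x = g' y x := by
              by_cases h3 : y = w
              · subst h3
                exact gw x h1
              · exact go y x h2 h3
            rw [e1, e2]
            exact g1 x y
      have gsupp : ∀ x y, F x y = 0 → g x y = 0 := by
        intro x y hxy
        by_cases h1 : x = v
        · subst h1
          by_cases h2 : y = w
          · subst h2
            exact absurd hxy hvw
          · exact gv y h2
        · by_cases h3 : x = w
          · subst h3
            by_cases h2 : y = v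
            · subst h2
              exact absurd hxy hwv
            · rw [gw y h2]
              apply g2
              rw [hF'w y h2]
              exact hxy
          · rw [go x y h1 h3]
            apply g2
            rw [hF'o x y h1 h3]
            exact hxy
      refine ⟨g, ganti, gsupp, ?_, ?_, ?_⟩
      · obtain ⟨x, y, hxy⟩ := g3
        have hF'xy : F' x y ≠ 0 := fun h => hxy (g2 x y h)
        have hx : x ≠ v := by
          rintro rfl
          exact hF'xy (hF'v y)
        have hy : y ≠ v := by
          rintro rfl
          exact hF'xy (hF'vr x)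
        refine ⟨x, y, ?_⟩
        by_cases h3 : x = w
        · subst h3
          rw [gw y hy]
          exact hxy
        · rw [go x y hx h3]
          exact hxy
      · intro x y z hyz
        by_cases hz : F x y = 0
        · rw [gsupp x y hz, gsupp x z (by rw [← hyz, hz])]
        · have hz' : F x z ≠ 0 := by rw [← hyz]; exact hz
          by_cases h1 : x = v
          · subst h1
            rw [huniq y hz, huniq z hz']
          · by_cases h3 : x = w
            · subst h3
              by_cases h4 : y = v
              · subst h4
                by_cases h5 : z = y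
                · rw [h5]
                · rw [gwv, gw z h5]
                  exact (hc z h5 hyz.symm).symm
              · by_cases h5 : z = v
                · subst h5
                  rw [gwv, gw y h4]
                  exact hc y h4 hyz
                · rw [gw y h4, gw z h5]
                  apply g4
                  rw [hF'w y h4, hF'w z h5]
                  exact hyz
            · rw [go x y h1 h3, go x z h1 h3]
              apply g4
              rw [hF'o x y h1 h3, hF'o x z h1 h3]
              exact hyz
      · intro x y z hxy hyz hzx hcl
        have key : ∀ x y z, F x y ≠ 0 → F y z ≠ 0 → F z x ≠ 0 → x ≠ v := by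
          intro x y z hxy hyz hzx hx
          subst hx
          have h1 := huniq y hxy
          have h2 := huniq' z hzx
          subst h1
          subst h2
          exact hyz (hself _)
        have hx := key x y z hxy hyz hzx
        have hy := key y z x hyz hzx hxy
        have hz := key z x y hzx hxy hyz
        have e1 : ∀ x y, x ≠ v → y ≠ v → g x y = g' x y ∧ F' x y = F x y := by
          intro x y hx hy
          by_cases h3 : x = w
          · subst h3
            exact ⟨gw y hy, hF'w y hy⟩
          · exact ⟨go x y hx h3, hF'o x y hx h3⟩
        rw [(e1 x y hx hy).1, (e1 y z hy hz).1, (e1 z x hz hx).1]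
        apply g5
        · rw [(e1 x y hx hy).2]; exact hxy
        · rw [(e1 y z hy hz).2]; exact hyz
        · rw [(e1 z x hz hx).2]; exact hzx
        · rw [(e1 x y hx hy).2, (e1 y z hy hz).2, (e1 z x hz hx).2]; exact hcl
  · -- no leaf: all degrees are 0 or 2
    push Not at hleaf
    have hd2 : ∀ x, d x ≠ 0 → d x = 2 := by
      by_contra hcon
      push Not at hcon
      obtain ⟨x, hx0, hx2⟩ := hcon
      have h1 : ∑ y ∈ univ.filter (fun y => d y ≠ 0), 2 < ∑ y ∈ univ.filter (fun y => d y ≠ 0), d y := by
        apply sum_lt_sum
        · intro y hy
          have := (mem_filter.mp hy).2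
          have := hleaf y
          omega
        · refine ⟨x, mem_filter.mpr ⟨mem_univ _, hx0⟩, ?_⟩
          have := hleaf x
          omega
      have h2 : ∑ y ∈ univ.filter (fun y => d y ≠ 0), d y = ∑ y, d y := by
        rw [sum_filter]
        apply sum_congr rfl
        intro y _
        split_ifs with h
        · rfl
        · push Not at h
          exact h.symm
      have h3 : ∑ x, d x ≤ 2 * (univ.filter fun x => d x ≠ 0).card := hle
      rw [h2, sum_const, smul_eq_mul] at h1
      omega
    by_cases htri : ∃ x y z, F x y ≠ 0 ∧ F y z ≠ 0 ∧ F z x ≠ 0 ∧ F x y + F y z + F z x = 0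
    · obtain ⟨p, q, s, hpq, hqs, hsp, hcl⟩ := htri
      have hpq' : p ≠ q := by
        rintro rfl
        exact hpq (hself _)
      have hqs' : q ≠ s := by
        rintro rfl
        exact hqs (hself _)
      have hsp' : s ≠ p := by
        rintro rfl
        exact hsp (hself _)
      have nb : ∀ a b c, F a b ≠ 0 → F a c ≠ 0 → b ≠ c → ∀ y, F a y ≠ 0 → y = b ∨ y = c := by
        intro a b c hab hac hbc y hy
        have h0 : d a ≠ 0 := by
          simp only [hd]
          exact card_ne_zero.mpr ⟨b, mem_filter.mpr ⟨mem_univ _, hab⟩⟩
        have h2 := hd2 a h0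
        by_contra hcon
        push Not at hcon
        have h3 : ({b, c, y} : Finset V) ⊆ (univ.filter fun y => F a y ≠ 0) := by
          intro u hu
          simp only [mem_insert, mem_singleton] at hu
          rcases hu with rfl | rfl | rfl
          · exact mem_filter.mpr ⟨mem_univ _, hab⟩
          · exact mem_filter.mpr ⟨mem_univ _, hac⟩
          · exact mem_filter.mpr ⟨mem_univ _, hy⟩
        have h4 := card_le_card h3
        have h5 : ({b, c, y} : Finset V).card = 3 := by
          rw [card_insert_of_notMem, card_insert_of_notMem, card_singleton]
          · simp [hcon.2.symm]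
          · simp [hbc, hcon.1.symm]
        rw [h5] at h4
        have : d a = (univ.filter fun y => F a y ≠ 0).card := rfl
        omega
      have nbp := nb p q s hpq (hsym _ _ hsp) hqs'
      have nbq := nb q s p hqs (hsym _ _ hpq) hsp'
      have nbs := nb s p q hsp (hsym _ _ hqs) hpq'
      have dp : F p q ≠ F p s := by
        intro h
        apply hqs
        have h1 : F s p = - F p q := by rw [hanti p s, h]
        rw [h1] at hcl
        have : F p q + F q s + -F p q = F q s := by abel
        rw [this] at hcl
        exact hcl
      have dq : F q s ≠ F q p := by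
        intro h
        apply hsp
        have h1 : F p q = - F q s := by rw [hanti q p, h]
        rw [h1] at hcl
        have : -F q s + F q s + F s p = F s p := by abel
        rw [this] at hcl
        exact hcl
      have ds : F s p ≠ F s q := by
        intro h
        apply hpq
        have h1 : F q s = - F s p := by rw [hanti s q, h]
        rw [h1] at hcl
        have : F p q + -F s p + F s p = F p q := by abel
        rw [this] at hcl
        exact hcl
      set g : V → V → ℝ := fun x y =>
        (if x = p ∧ y = q then (1 : ℝ) else 0) - (if x = q ∧ y = p then (1 : ℝ) else 0)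
        - (if x = q ∧ y = s then (1 : ℝ) else 0) + (if x = s ∧ y = q then (1 : ℝ) else 0) with hg
      have gsupp : ∀ x y, F x y = 0 → g x y = 0 := by
        intro x y hxy
        simp only [hg]
        rw [if_neg, if_neg, if_neg, if_neg]
        · simp
        · rintro ⟨rfl, rfl⟩
          exact hsym _ _ hqs hxy
        · rintro ⟨rfl, rfl⟩
          exact hqs hxy
        · rintro ⟨rfl, rfl⟩
          exact hsym _ _ hpq hxy
        · rintro ⟨rfl, rfl⟩
          exact hpq hxy
      have gout : ∀ x y, x ≠ p → x ≠ q → x ≠ s → g x y = 0 := by
        intro x y h1 h2 h3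
        simp only [hg]
        rw [if_neg (fun h => h1 h.1), if_neg (fun h => h2 h.1), if_neg (fun h => h2 h.1),
          if_neg (fun h => h3 h.1)]
        simp
      refine ⟨g, ?_, gsupp, ?_, ?_, ?_⟩
      · intro x y
        have sw : ∀ a b : V, (if y = a ∧ x = b then (1 : ℝ) else 0)
            = (if x = b ∧ y = a then (1 : ℝ) else 0) := by
          intro a b
          by_cases h : x = b ∧ y = a
          · rw [if_pos h, if_pos ⟨h.2, h.1⟩]
          · rw [if_neg h, if_neg (fun h' => h ⟨h'.2, h'.1⟩)]
        simp only [hg]
        rw [sw p q, sw q p, sw q s, sw s q]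
        ring
      · refine ⟨p, q, ?_⟩
        simp [hg, hpq', hsp'.symm]
      · intro x y z hyz
        by_cases hz : F x y = 0
        · rw [gsupp x y hz, gsupp x z (by rw [← hyz, hz])]
        · have hz' : F x z ≠ 0 := by rw [← hyz]; exact hz
          by_cases h1 : x = p
          · subst h1
            rcases nbp y hz with rfl | rfl <;> rcases nbp z hz' with rfl | rfl
            · rfl
            · exact absurd hyz dp
            · exact absurd hyz.symm dp
            · rfl
          · by_cases h2 : x = q
            · subst h2
              rcases nbq y hz with rfl | rfl <;> rcases nbq z hz' with rfl | rfl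
              · rfl
              · exact absurd hyz dq
              · exact absurd hyz.symm dq
              · rfl
            · by_cases h3 : x = s
              · subst h3
                rcases nbs y hz with rfl | rfl <;> rcases nbs z hz' with rfl | rfl
                · rfl
                · exact absurd hyz ds
                · exact absurd hyz.symm ds
                · rfl
              · rw [gout x y h1 h2 h3, gout x z h1 h2 h3]
      · intro x y z hxy hyz hzx _
        have hin : ∀ x y, F x y ≠ 0 → (x = p ∨ x = q ∨ x = s) → (y = p ∨ y = q ∨ y = s) := by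
          intro x y hxy hx
          rcases hx with rfl | rfl | rfl
          · rcases nbp y hxy with h | h <;> simp [h]
          · rcases nbq y hxy with h | h <;> simp [h]
          · rcases nbs y hxy with h | h <;> simp [h]
        by_cases hx : x = p ∨ x = q ∨ x = s
        · have hy := hin x y hxy hx
          have hz := hin y z hyz hy
          have nxy : x ≠ y := by
            rintro rfl
            exact hxy (hself _)
          have nyz : y ≠ z := by
            rintro rfl
            exact hyz (hself _)
          have nzx : z ≠ x := by
            rintro rfl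
            exact hzx (hself _)
          simp only [hg]
          rcases hx with rfl | rfl | rfl <;> rcases hy with rfl | rfl | rfl <;>
            rcases hz with rfl | rfl | rfl <;> first | contradiction | skip
          all_goals simp [hpq', hqs', hsp', hpq'.symm, hqs'.symm, hsp'.symm]
        · have hy : ¬ (y = p ∨ y = q ∨ y = s) := fun h => hx (hin y x (hsym _ _ hxy) h)
          have hz : ¬ (z = p ∨ z = q ∨ z = s) := fun h => hx (hin z x hzx h)
          push Not at hx hy hz
          rw [gout x y hx.1 hx.2.1 hx.2.2, gout y z hy.1 hy.2.1 hy.2.2, gout z x hz.1 hz.2.1 hz.2.2]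
          simp
    · refine ⟨fun x y => ph (F x y), ?_, ?_, ?_, ?_, ?_⟩
      · intro x y
        dsimp only
        rw [hanti x y, ph_neg]
      · intro x y h
        dsimp only
        rw [h, ph_zero]
      · obtain ⟨x, y, h⟩ := hne
        exact ⟨x, y, ph_ne _ h⟩
      · intro x y z h
        dsimp only
        rw [h]
      · intro x y z hxy hyz hzx hcl
        exact absurd ⟨x, y, z, hxy, hyz, hzx, hcl⟩ htri


private theorem k_val_self {n : ℕ} {K : Type} [AddCommGroup K] (f : Coch n K) (x : Fin n) :
    val f x x = 0 := by
  unfold val
  simp

private theorem k_val_anti {n : ℕ} {K : Type} [AddCommGroup K] (f : Coch n K) (x y : Fin n) :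
    val f y x = - val f x y := by
  unfold val
  rcases lt_trichotomy x y with h | h | h
  · simp [h, not_lt.mpr h.le]
  · subst h
    simp
  · simp [h, not_lt.mpr h.le]

private theorem k_val_edge {n : ℕ} {K : Type} [AddCommGroup K] (f : Coch n K) (e : Edg n) :
    val f e.1.1 e.1.2 = f e := by
  unfold val
  rw [dif_pos e.2]

private theorem k_sum_D2 {n : ℕ} (G : Edg n → ℝ) (t : Tri n) :
    ∑ e : Edg n, DM n e t * G e = G t.ab + G t.bc - G t.ac := by
  have h : ∀ e : Edg n, DM n e t * G e = (if e = t.ab then G e else 0)
      + (if e = t.bc then G e else 0) - (if e = t.ac then G e else 0) := by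
    intro e
    unfold DM
    rw [Matrix.of_apply]
    unfold D2
    push_cast
    split_ifs <;> ring
  rw [sum_congr rfl (fun e _ => h e), sum_sub_distrib, sum_add_distrib, sum_ite_eq', sum_ite_eq',
    sum_ite_eq']
  simp

theorem kernel_lemma {n : ℕ} {K : Type} [AddCommGroup K] [Fintype K] [DecidableEq K]
    (hodd : Odd (Fintype.card K)) (f : Coch n K) (hf : f ≠ 0)
    (h : ((LZ f).submatrix (fun e : suppE f => e.1) (fun e : suppE f => e.1)).det ≠ 0) :
    (univ.filter fun x => dgr f x ≠ 0).card + 1 ≤ (suppE f).card := by
  by_contra hcon
  push Not at hcon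
  obtain ⟨P, hP0, hP⟩ := exists_half K hodd
  set ph : K → ℝ := fun a => if a ∈ P then 1 else if -a ∈ P then -1 else 0 with hph
  have ph_zero : ph 0 = 0 := by simp [hph, hP0]
  have ph_ne : ∀ a, a ≠ 0 → ph a ≠ 0 := by
    intro a ha
    simp only [hph]
    by_cases h1 : a ∈ P
    · rw [if_pos h1]
      norm_num
    · have h2 : -a ∈ P := by
        by_contra h3
        exact h1 ((hP a ha).mpr h3)
      rw [if_neg h1, if_pos h2]
      norm_num
  have ph_neg : ∀ a, ph (-a) = - ph a := by
    intro a
    by_cases ha : a = 0
    · subst ha
      rw [neg_zero, ph_zero, neg_zero]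
    · simp only [hph, neg_neg]
      by_cases h1 : a ∈ P
      · have h2 := (hP a ha).mp h1
        rw [if_neg h2, if_pos h1, if_pos h1]
      · have h2 : -a ∈ P := by
          by_contra h3
          exact h1 ((hP a ha).mpr h3)
        rw [if_pos h2, if_neg h1, if_pos h2, neg_neg]
  have hne : ∃ x y, val f x y ≠ 0 := by
    by_contra hc
    push Not at hc
    apply hf
    funext e
    rw [← k_val_edge f e]
    exact hc _ _
  have hsum := sum_dgr f
  obtain ⟨g, g1, g2, g3, g4, g5⟩ := kcore ph ph_neg ph_ne ph_zero (∑ x, dgr f x) (val f)
    (k_val_anti f) (k_val_self f) hne rfl (by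
      change ∑ x, dgr f x ≤ 2 * (univ.filter fun x => dgr f x ≠ 0).card
      rw [hsum]
      omega)
  set G : Edg n → ℝ := fun e => g e.1.1 e.1.2 with hG
  -- cyclic sums vanish on closed triangles
  have hcyc : ∀ t ∈ Z f, G t.ab + G t.bc - G t.ac = 0 := by
    intro t ht
    have hc : val f t.a t.b + val f t.b t.c + val f t.c t.a = 0 := (mem_filter.mp ht).2
    have e1 : G t.ab + G t.bc - G t.ac = g t.a t.b + g t.b t.c + g t.c t.a := by
      rw [g1 t.a t.c]
      simp only [hG, Tri.ab, Tri.bc, Tri.ac, Tri.a, Tri.b, Tri.c]
      ring
    rw [e1]
    -- a triangle with one zero edge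
    have key : ∀ x y z : Fin n, val f x y + val f y z + val f z x = 0 → val f x y = 0 →
        g x y + g y z + g z x = 0 := by
      intro x y z hxyz hxy
      have h1 : val f z y = val f z x := by
        rw [hxy, zero_add] at hxyz
        rw [k_val_anti f y z]
        exact (eq_neg_of_add_eq_zero_right hxyz).symm
      have h2 := g4 z y x h1
      rw [g2 x y hxy, g1 z y, h2]
      ring
    by_cases h1 : val f t.a t.b = 0
    · exact key _ _ _ hc h1
    · by_cases h2 : val f t.b t.c = 0
      · have := key t.b t.c t.a (by rw [← hc]; abel) h2
        linarith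
      · by_cases h3 : val f t.c t.a = 0
        · have := key t.c t.a t.b (by rw [← hc]; abel) h3
          linarith
        · exact g5 _ _ _ h1 h2 h3 hc
  have hLZ : (LZ f).mulVec G = 0 := by
    unfold LZ
    rw [← Matrix.mulVec_mulVec, ← Matrix.mulVec_mulVec]
    have : (Matrix.diagonal fun t => if t ∈ Z f then (1 : ℝ) else 0).mulVec
        ((DM n).transpose.mulVec G) = 0 := by
      funext t
      rw [Matrix.mulVec_diagonal]
      split_ifs with ht
      · have h1 : (DM n).transpose.mulVec G t = ∑ e : Edg n, DM n e t * G e := rfl
        rw [h1, k_sum_D2, hcyc t ht, mul_zero]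
        rfl
      · rw [zero_mul]
        rfl
    rw [this, Matrix.mulVec_zero]
  have hGsupp : ∀ e, e ∉ suppE f → G e = 0 := by
    intro e he
    simp only [hG]
    apply g2
    rw [k_val_edge]
    by_contra hc
    exact he (mem_filter.mpr ⟨mem_univ _, hc⟩)
  have hsub : ((LZ f).submatrix (fun e : suppE f => e.1) (fun e : suppE f => e.1)).mulVec
      (fun e : suppE f => G e.1) = 0 := by
    funext e
    have h1 := congrFun hLZ e.1
    have h2 : (LZ f).mulVec G e.1 = ∑ e', LZ f e.1 e' * G e' := rfl
    have h3 : ((LZ f).submatrix (fun e : suppE f => e.1) (fun e : suppE f => e.1)).mulVec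
      (fun e : suppE f => G e.1) e = ∑ e' : suppE f, LZ f e.1 e'.1 * G e'.1 := rfl
    have h4 : ∑ e', LZ f e.1 e' * G e' = 0 := by
      rw [← h2]
      exact h1
    have h5 : ∑ e' ∈ suppE f, LZ f e.1 e' * G e' = ∑ e', LZ f e.1 e' * G e' := by
      apply sum_subset (subset_univ _)
      intro e' _ he'
      rw [hGsupp e' he', mul_zero]
    rw [h3, sum_coe_sort (suppE f) (fun e' => LZ f e.1 e' * G e'), h5, h4]
    rfl
  have hz := Matrix.eq_zero_of_mulVec_eq_zero h hsub
  obtain ⟨x, y, hxy⟩ := g3
  have hall : ∀ e : Edg n, G e = 0 := by
    intro e
    by_cases he : e ∈ suppE f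
    · exact congrFun hz ⟨e, he⟩
    · exact hGsupp e he
  rcases lt_trichotomy x y with hlt | heq | hgt
  · exact hxy (hall ⟨(x, y), hlt⟩)
  · subst heq
    apply hxy
    exact g2 _ _ (k_val_self f x)
  · apply hxy
    rw [g1 y x]
    have := hall ⟨(y, x), hgt⟩
    simp only [hG] at this
    rw [this, neg_zero]

end

end Pool.Agent.DH10
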