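import Pool.Agent.DH10.PsiLe
import Pool.Agent.DH10.BddMom

/-!
# DH10.PsiLim : the asymptotic part of (6.4)

`PsiN n G ≤ (3/n) tt n q + (3/n)(1-θ) q CycQ` (`PsiN_le`, `N (1-θ) = tt n = n^{1/100}`), the first term tends to `0`.
Split `CycQ` according to `|supp z| ≤ m0 n` or not.
* `|supp z| ≤ m0`: `θ^{..} ≤ 1`; `PS (supp z \ t') ≤ (3/n)^{|z|-1}` (`prob_superset_le`) and it is `0` unless
  `supp z \ t'` is linearly independent (`prob_superset_dep`), which implies `|supp z| ≤ rk (supp z) + 1`.  So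
  `(3/n) CycQ_small ≤ ∑_{z} |z|² (3/n)^{|z|}` over the `z` of `cyc_sum_null`: bounded; multiplied by `(1-θ) q → 0`.
* `|supp z| > m0`: `θ^{|z|-2} ≤ θ^{m0-1} ≤ 2 θ^{m0} ≤ 2 exp(-n^{1/200})` (as in `Mth_one_le`: `tt n * m0 n / NN n ≥ n^{1/200}`), and
  `∑_z ∑_{t,t'∈supp z} PS(supp z \ t') ≤ n³ ∑_{t'} ∑_T W T #{z cycle : supp z ⊆ T ∪ t'} ≤ n³ n³ q Mth n G 1`
  (`z ↦ z_{t'}` has fibres of size at most `#{z cycle : supp z ⊆ (T ∪ t') \ t'} ≤ |cycIn G T|`: fibres are cosets of the
  kernel).  `Mth n G 1` bounded (`mom_bdd`).  `n^6 exp(-n^{1/200}) → 0`.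
`PsiN ≥ 0`.
-/

set_option autoImplicit false

open Finset Filter Topology

namespace Pool.Agent.DH10

noncomputable section

private lemma pl_NN_le (n : ℕ) : (NN n : ℝ) ≤ (n : ℝ) ^ 2 / 2 := by
  have h1 : 2 * NN n ≤ n ^ 2 := by
    rw [NN, Nat.choose_two_right]
    have h2 : 2 * ((n - 1) * (n - 1 - 1) / 2) ≤ (n - 1) * (n - 1 - 1) := Nat.mul_div_le _ _
    have h3 : (n - 1) * (n - 1 - 1) ≤ n * n :=
      Nat.mul_le_mul (Nat.sub_le _ _) ((Nat.sub_le _ _).trans (Nat.sub_le _ _))
    nlinarith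
  have h2 : (2 : ℝ) * NN n ≤ (n : ℝ) ^ 2 := by exact_mod_cast h1
  linarith

private lemma pl_le_NN {n : ℕ} (hn : 5 ≤ n) : (n : ℝ) ≤ (NN n : ℝ) + 1 := by
  have h1 : n ≤ NN n + 1 := by
    rw [NN]
    have h2 : n - 1 ≤ (n - 1).choose 2 := by
      rw [Nat.choose_two_right, Nat.le_div_iff_mul_le (by norm_num)]
      exact Nat.mul_le_mul_left _ (by omega)
    omega
  exact_mod_cast h1

private lemma pl_th_bounds {n : ℕ} (hn : 5 ≤ n) : 0 ≤ th n ∧ th n ≤ 1 ∧ (0 : ℝ) < NN n := by
  have h1 := pl_le_NN hn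
  have hn' : (5 : ℝ) ≤ n := by exact_mod_cast hn
  have hN : (0 : ℝ) < NN n := by linarith
  have ht : 0 ≤ tt n := Real.rpow_nonneg (Nat.cast_nonneg _) _
  refine ⟨?_, ?_, hN⟩
  · rw [th, sub_nonneg, div_le_one hN]
    have h2 : tt n ≤ (n : ℝ) ^ (1 / 2 : ℝ) := by
      rw [tt]
      apply Real.rpow_le_rpow_of_exponent_le (by linarith)
      norm_num
    have h3 : (n : ℝ) ^ (1 / 2 : ℝ) ≤ n - 1 := by
      rw [← Real.sqrt_eq_rpow]
      apply Real.sqrt_le_iff.2
      constructor
      · linarith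
      · nlinarith
    linarith
  · rw [th]
    have : 0 ≤ tt n / NN n := div_nonneg ht hN.le
    linarith

private lemma pl_th_pow {n : ℕ} (hn : 5 ≤ n) {k : ℕ} (hk : m0 n < k) :
    th n ^ k ≤ Real.exp (-(n : ℝ) ^ (1 / 200 : ℝ)) := by
  obtain ⟨h0, h1, hN⟩ := pl_th_bounds hn
  have hn0 : (0 : ℝ) < n := by
    have : (5 : ℝ) ≤ n := by exact_mod_cast hn
    linarith
  have h2 : th n ≤ Real.exp (-(tt n / NN n)) := by
    rw [th]
    have := Real.add_one_le_exp (-(tt n / NN n))
    linarith
  have h3 : (n : ℝ) ^ (2 - 1 / 200 : ℝ) ≤ k := by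
    have h4 := Nat.lt_floor_add_one ((n : ℝ) ^ (2 - 1 / 200 : ℝ))
    have h5 : ((m0 n + 1 : ℕ) : ℝ) ≤ k := by exact_mod_cast hk
    rw [m0] at h5
    push_cast at h5
    linarith
  have htt : 0 ≤ tt n := Real.rpow_nonneg (Nat.cast_nonneg _) _
  calc th n ^ k ≤ (Real.exp (-(tt n / NN n))) ^ k := pow_le_pow_left₀ h0 h2 k
    _ = Real.exp (-(k * (tt n / NN n))) := by
      rw [← Real.exp_nat_mul]
      congr 1
      ring
    _ ≤ Real.exp (-(n : ℝ) ^ (1 / 200 : ℝ)) := by
      apply Real.exp_le_exp.2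
      apply neg_le_neg
      have h6 : (n : ℝ) ^ (1 / 200 : ℝ) * n ^ (2 : ℝ) = (n : ℝ) ^ (2 - 1 / 200 : ℝ) * tt n := by
        rw [tt, ← Real.rpow_add hn0, ← Real.rpow_add hn0]
        norm_num
      have h7 : (n : ℝ) ^ (1 / 200 : ℝ) * NN n ≤ k * tt n := by
        calc (n : ℝ) ^ (1 / 200 : ℝ) * NN n ≤ (n : ℝ) ^ (1 / 200 : ℝ) * n ^ (2 : ℝ) := by
              apply mul_le_mul_of_nonneg_left _ (Real.rpow_nonneg hn0.le _)
              have := pl_NN_le n
              rw [Real.rpow_two]
              have h8 : (0 : ℝ) ≤ (n : ℝ) ^ 2 := by positivity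
              linarith
          _ = (n : ℝ) ^ (2 - 1 / 200 : ℝ) * tt n := h6
          _ ≤ k * tt n := mul_le_mul_of_nonneg_right h3 htt
      rw [← mul_div_assoc, le_div_iff₀ hN]
      exact h7

private lemma pl_m0_pos {n : ℕ} (hn : 5 ≤ n) : 1 ≤ m0 n := by
  rw [m0, Nat.one_le_floor_iff]
  apply Real.one_le_rpow _ (by norm_num)
  have : (5 : ℝ) ≤ n := by exact_mod_cast hn
  linarith

private lemma pl_tt_n : Tendsto (fun n : ℕ => tt n / n) atTop (𝓝 0) := by
  have h : Tendsto (fun n : ℕ => (n : ℝ) ^ (-(99 / 100) : ℝ)) atTop (𝓝 0) :=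
    (tendsto_rpow_neg_atTop (by norm_num)).comp tendsto_natCast_atTop_atTop
  refine h.congr' ?_
  filter_upwards [eventually_ge_atTop 1] with n hn
  have hn0 : (0 : ℝ) < n := by exact_mod_cast hn
  have e : (-(99 / 100) : ℝ) = 1 / 100 - 1 := by norm_num
  rw [tt, e, Real.rpow_sub hn0, Real.rpow_one]

private lemma pl_tt_NN : Tendsto (fun n : ℕ => tt n / NN n) atTop (𝓝 0) := by
  have h : Tendsto (fun n : ℕ => 2 * (tt n / n)) atTop (𝓝 (2 * 0)) := pl_tt_n.const_mul 2
  rw [mul_zero] at h
  refine tendsto_of_tendsto_of_tendsto_of_le_of_le' tendsto_const_nhds h ?_ ?_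
  · exact Eventually.of_forall fun n => div_nonneg (Real.rpow_nonneg (Nat.cast_nonneg _) _)
      (Nat.cast_nonneg _)
  · filter_upwards [eventually_ge_atTop 5] with n hn
    have h1 := pl_le_NN hn
    have hn' : (5 : ℝ) ≤ n := by exact_mod_cast hn
    have ht : 0 ≤ tt n := Real.rpow_nonneg (Nat.cast_nonneg _) _
    rw [← mul_div_assoc, div_le_div_iff₀ (by linarith) (by linarith)]
    nlinarith

private lemma pl_rk_mono {n : ℕ} {A B : Finset (Tri n)} (h : A ⊆ B) : rk A ≤ rk B := by
  unfold rk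
  apply Submodule.finrank_mono
  apply Submodule.span_mono
  apply Set.image_mono
  exact_mod_cast h

private lemma pl_indep_rk {n : ℕ} {A : Finset (Tri n)}
    (h : LinearIndependent ℝ (fun t : A => fun e : Edg n => DM n e t.1)) : A.card ≤ rk A := by
  have h1 := finrank_span_eq_card h
  rw [Fintype.card_coe] at h1
  rw [rk, ← h1]
  apply le_of_eq
  have h2 : Set.range (fun t : A => fun e : Edg n => DM n e t.1) =
      (fun t : Tri n => fun e : Edg n => DM n e t) '' (A : Set (Tri n)) := by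
    ext v
    simp only [Set.mem_range, Set.mem_image, Finset.mem_coe, Subtype.exists, exists_prop]
  rw [h2]

private lemma pl_PS_nonneg {n : ℕ} (A : Finset (Tri n)) : 0 ≤ PS A :=
  Finset.sum_nonneg fun S _ => W_nonneg S

private lemma pl_PS_le {n : ℕ} (hn : 3 ≤ n) (A : Finset (Tri n)) :
    PS A ≤ if A.card ≤ rk A then (3 / (n : ℝ)) ^ A.card else 0 := by
  split_ifs with h
  · exact prob_superset_le hn A
  · exact (prob_superset_dep hn A (fun h1 => h (pl_indep_rk h1))).le

private lemma pl_supp_nonempty {n : ℕ} {G : Type} [AddCommGroup G] [Fintype G]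
    {z : Tri n → AddChar G ℂ} (hz : z ≠ 1) : (supp z).Nonempty := by
  by_contra h
  rw [Finset.not_nonempty_iff_eq_empty] at h
  apply hz
  funext t
  by_contra h1
  have : t ∈ supp z := by
    rw [supp, Finset.mem_filter]
    exact ⟨Finset.mem_univ _, h1⟩
  rw [h] at this
  simp at this

private lemma pl_cyc_mul_inv {n : ℕ} {G : Type} [AddCommGroup G] [Fintype G]
    {z z0 : Tri n → AddChar G ℂ} (hz : IsCyc z) (hz0 : IsCyc z0) : IsCyc (z * z0⁻¹) := by
  intro f
  have h1 : ∀ t, (z * z0⁻¹) t (curT f t) = z t (curT f t) * (z0 t (curT f t))⁻¹ := by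
    intro t
    rw [Pi.mul_apply, Pi.inv_apply, AddChar.mul_apply, AddChar.inv_apply']
  rw [Finset.prod_congr rfl (fun t _ => h1 t), Finset.prod_mul_distrib, Finset.prod_inv_distrib,
    hz f, hz0 f, inv_one, mul_one]

open Classical in
private lemma pl_fib {n : ℕ} (G : Type) [AddCommGroup G] [Fintype G] (S : Finset (Tri n))
    (t' : Tri n) :
    ((univ : Finset (Tri n → AddChar G ℂ)).filter
      (fun z => IsCyc z ∧ (supp z).erase t' ⊆ S)).card ≤ Fintype.card G * (cycIn G S).card := by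
  rw [Finset.card_eq_sum_card_fiberwise (f := fun z : Tri n → AddChar G ℂ => z t') (t := univ)
    (fun _ _ => Finset.mem_coe.2 (Finset.mem_univ _))]
  refine (Finset.sum_le_sum (g := fun _ => (cycIn G S).card) ?_).trans ?_
  · intro χ _
    rcases Finset.eq_empty_or_nonempty (((univ : Finset (Tri n → AddChar G ℂ)).filter
      (fun z => IsCyc z ∧ (supp z).erase t' ⊆ S)).filter (fun z => z t' = χ)) with h | ⟨z0, hz0⟩
    · rw [h, Finset.card_empty]
      exact Nat.zero_le _
    · simp only [Finset.mem_filter, Finset.mem_univ, true_and] at hz0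
      obtain ⟨⟨hc0, hs0⟩, hv0⟩ := hz0
      apply Finset.card_le_card_of_injOn (fun z => z * z0⁻¹)
      · intro z hz
        simp only [Finset.coe_filter, Finset.mem_filter, Finset.mem_univ, true_and,
          Set.mem_ofPred_eq] at hz
        obtain ⟨⟨hc, hs⟩, hv⟩ := hz
        rw [cycIn, Finset.coe_filter, Set.mem_ofPred_eq]
        refine ⟨Finset.mem_univ _, pl_cyc_mul_inv hc hc0, ?_⟩
        intro t ht
        rw [supp, Finset.mem_filter] at ht
        have ht1 : (z * z0⁻¹) t ≠ 1 := ht.2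
        rw [Pi.mul_apply, Pi.inv_apply] at ht1
        have hne : t ≠ t' := by
          rintro rfl
          apply ht1
          rw [hv, hv0, mul_inv_cancel]
        by_cases h1 : z t = 1
        · have h2 : z0 t ≠ 1 := by
            intro h2
            apply ht1
            rw [h1, h2, inv_one, mul_one]
          apply hs0
          rw [Finset.mem_erase, supp, Finset.mem_filter]
          exact ⟨hne, Finset.mem_univ _, h2⟩
        · apply hs
          rw [Finset.mem_erase, supp, Finset.mem_filter]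
          exact ⟨hne, Finset.mem_univ _, h1⟩
      · intro z _ z' _ h
        exact mul_right_cancel h
  · rw [Finset.sum_const, smul_eq_mul, Finset.card_univ, AddChar.card_eq]

/-- the sum of the probabilities for the cycles with one triangle removed -/
private lemma pl_sum_erase {n : ℕ} (G : Type) [AddCommGroup G] [Fintype G]
    (P : (Tri n → AddChar G ℂ) → Prop) [DecidablePred P] (hP : ∀ z, P z → IsCyc z) (t' : Tri n) :
    ∑ z ∈ (univ : Finset (Tri n → AddChar G ℂ)).filter P, PS ((supp z).erase t') ≤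
      Fintype.card G * Mth n G 1 := by
  classical
  unfold PS
  have h1 : ∀ z ∈ (univ : Finset (Tri n → AddChar G ℂ)).filter P,
      ∑ S ∈ (cand n).filter (fun S => (supp z).erase t' ⊆ S), W S =
      ∑ S ∈ cand n, if (supp z).erase t' ⊆ S then W S else 0 := by
    intro z _
    rw [Finset.sum_filter]
  rw [Finset.sum_congr rfl h1, Finset.sum_comm, Mth, Ex, Finset.mul_sum]
  apply Finset.sum_le_sum
  intro S _
  rw [← Finset.sum_filter, Finset.sum_const, nsmul_eq_mul]
  have h2 : (((univ : Finset (Tri n → AddChar G ℂ)).filter P).filter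
      (fun z => (supp z).erase t' ⊆ S)).card ≤ Fintype.card G * (cycIn G S).card := by
    refine le_trans (Finset.card_le_card ?_) (pl_fib G S t')
    intro z hz
    simp only [Finset.mem_filter, Finset.mem_univ, true_and] at hz ⊢
    exact ⟨hP z hz.1, hz.2⟩
  have h3 : ((((univ : Finset (Tri n → AddChar G ℂ)).filter P).filter
      (fun z => (supp z).erase t' ⊆ S)).card : ℝ) ≤ Fintype.card G * (cycIn G S).card := by
    exact_mod_cast h2
  simp only [one_pow, Finset.sum_const, nsmul_eq_mul, mul_one]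
  calc _ ≤ ((Fintype.card G : ℝ) * (cycIn G S).card) * W S :=
        mul_le_mul_of_nonneg_right h3 (W_nonneg S)
    _ = _ := by ring

open Classical in
private lemma pl_CycQ_le {n : ℕ} (hn : 5 ≤ n) (hth : 1 / 2 ≤ th n) (G : Type) [AddCommGroup G]
    [Fintype G] (B1 : ℝ)
    (hB1 : ∑ z ∈ (univ : Finset (Tri n → AddChar G ℂ)).filter
        (fun z => IsCyc z ∧ z ≠ 1 ∧ (supp z).card ≤ m0 n ∧ (supp z).card ≤ rk (supp z) + 1),
        ((supp z).card : ℝ) ^ 2 * (3 / (n : ℝ)) ^ (supp z).card ≤ B1) :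
    (3 / (n : ℝ)) * CycQ n G (fun _ => True) ≤ B1 +
      (3 / (n : ℝ)) * (4 * Real.exp (-(n : ℝ) ^ (1 / 200 : ℝ)) *
        ((n : ℝ) ^ 6 * (Fintype.card G * Mth n G 1))) := by
  classical
  obtain ⟨h0, h1, hN⟩ := pl_th_bounds hn
  have hn0 : (0 : ℝ) < n := by
    have : (5 : ℝ) ≤ n := by exact_mod_cast hn
    linarith
  have h3n : (0 : ℝ) ≤ 3 / n := by positivity
  set E : ℝ := Real.exp (-(n : ℝ) ^ (1 / 200 : ℝ)) with hE
  have hE0 : 0 ≤ E := (Real.exp_pos _).le
  have hterm : ∀ z ∈ (univ : Finset (Tri n → AddChar G ℂ)).filter (fun z => IsCyc z ∧ z ≠ 1 ∧ True),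
      (3 / (n : ℝ)) * ∑ t ∈ supp z, ∑ t' ∈ supp z, th n ^ ((supp z).card - 2) *
        PS ((supp z).erase t') ≤
      (if (supp z).card ≤ m0 n ∧ (supp z).card ≤ rk (supp z) + 1 then
        ((supp z).card : ℝ) ^ 2 * (3 / (n : ℝ)) ^ (supp z).card else 0) +
      (3 / (n : ℝ)) * (4 * E * ((n : ℝ) ^ 3 * ∑ t' : Tri n, PS ((supp z).erase t'))) := by
    intro z hz
    simp only [Finset.mem_filter, Finset.mem_univ, true_and, and_true] at hz
    obtain ⟨hc, hz1⟩ := hz
    have hne := pl_supp_nonempty hz1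
    have hcard : 1 ≤ (supp z).card := Finset.card_pos.2 hne
    have hsum0 : 0 ≤ ∑ t' : Tri n, PS ((supp z).erase t') :=
      Finset.sum_nonneg fun _ _ => pl_PS_nonneg _
    have hsec : 0 ≤ (3 / (n : ℝ)) * (4 * E * ((n : ℝ) ^ 3 * ∑ t' : Tri n, PS ((supp z).erase t'))) := by
      positivity
    by_cases hm : (supp z).card ≤ m0 n
    · by_cases hr : (supp z).card ≤ rk (supp z) + 1
      · rw [if_pos ⟨hm, hr⟩]
        have h4 : ∑ t ∈ supp z, ∑ t' ∈ supp z, th n ^ ((supp z).card - 2) *
            PS ((supp z).erase t') ≤ ∑ t ∈ supp z, ∑ t' ∈ supp z,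
              (3 / (n : ℝ)) ^ ((supp z).card - 1) := by
          apply Finset.sum_le_sum
          intro t _
          apply Finset.sum_le_sum
          intro t' ht'
          have h5 : PS ((supp z).erase t') ≤ (3 / (n : ℝ)) ^ ((supp z).card - 1) := by
            have := prob_superset_le (n := n) (by omega) ((supp z).erase t')
            rwa [Finset.card_erase_of_mem ht'] at this
          calc th n ^ ((supp z).card - 2) * PS ((supp z).erase t')
              ≤ 1 * PS ((supp z).erase t') :=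
                mul_le_mul_of_nonneg_right (pow_le_one₀ h0 h1) (pl_PS_nonneg _)
            _ = PS ((supp z).erase t') := one_mul _
            _ ≤ _ := h5
        have h44 : ∑ t ∈ supp z, ∑ t' ∈ supp z, (3 / (n : ℝ)) ^ ((supp z).card - 1) =
            ((supp z).card : ℝ) * (((supp z).card : ℝ) * (3 / (n : ℝ)) ^ ((supp z).card - 1)) := by
          rw [Finset.sum_const, Finset.sum_const, nsmul_eq_mul, nsmul_eq_mul]
        rw [h44] at h4
        have h6 := mul_le_mul_of_nonneg_left h4 h3n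
        have h7 : 3 / (n : ℝ) * (((supp z).card : ℝ) * (((supp z).card : ℝ) *
            (3 / (n : ℝ)) ^ ((supp z).card - 1))) =
            ((supp z).card : ℝ) ^ 2 * (3 / (n : ℝ)) ^ (supp z).card := by
          obtain ⟨k, hk⟩ : ∃ k, (supp z).card = k + 1 := ⟨(supp z).card - 1, by omega⟩
          rw [hk, Nat.add_sub_cancel, pow_succ]
          ring
        rw [h7] at h6
        linarith
      · rw [if_neg (fun h => hr h.2), zero_add]
        have h4 : ∑ t ∈ supp z, ∑ t' ∈ supp z, th n ^ ((supp z).card - 2) *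
            PS ((supp z).erase t') = 0 := by
          apply Finset.sum_eq_zero
          intro t _
          apply Finset.sum_eq_zero
          intro t' ht'
          have h5 := pl_PS_le (n := n) (by omega) ((supp z).erase t')
          have h6 : ¬ ((supp z).erase t').card ≤ rk ((supp z).erase t') := by
            intro h7
            rw [Finset.card_erase_of_mem ht'] at h7
            have h8 := pl_rk_mono (Finset.erase_subset t' (supp z))
            omega
          rw [if_neg h6] at h5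
          rw [le_antisymm h5 (pl_PS_nonneg _), mul_zero]
        rw [h4, mul_zero]
        exact hsec
    · rw [if_neg (fun h => hm h.1), zero_add]
      push Not at hm
      apply mul_le_mul_of_nonneg_left _ h3n
      have h2c : 2 ≤ (supp z).card := by
        have := pl_m0_pos hn
        omega
      have hpow : th n ^ ((supp z).card - 2) ≤ 4 * E := by
        have h4 := pl_th_pow hn hm
        obtain ⟨k, hk⟩ : ∃ k, (supp z).card = k + 2 := ⟨(supp z).card - 2, by omega⟩
        rw [hk] at h4 ⊢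
        rw [Nat.add_sub_cancel]
        rw [pow_add] at h4
        have h5 : 0 ≤ th n ^ k := pow_nonneg h0 _
        have h6 : (1 / 4 : ℝ) ≤ th n ^ 2 := by nlinarith
        nlinarith
      have h4 : ∑ t ∈ supp z, ∑ t' ∈ supp z, th n ^ ((supp z).card - 2) *
            PS ((supp z).erase t') ≤ ∑ t ∈ supp z, 4 * E * ∑ t' : Tri n, PS ((supp z).erase t') := by
        apply Finset.sum_le_sum
        intro t _
        rw [← Finset.mul_sum]
        apply mul_le_mul hpow _ (Finset.sum_nonneg fun _ _ => pl_PS_nonneg _) (by positivity)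
        exact Finset.sum_le_sum_of_subset_of_nonneg (Finset.subset_univ _)
          (fun _ _ _ => pl_PS_nonneg _)
      refine h4.trans ?_
      rw [Finset.sum_const, nsmul_eq_mul]
      have h5 : ((supp z).card : ℝ) ≤ (n : ℝ) ^ 3 := by
        have h6 : (supp z).card ≤ n ^ 3 :=
          (Finset.card_le_univ _).trans (LargeCoreAux.card_tri n)
        exact_mod_cast h6
      calc ((supp z).card : ℝ) * (4 * E * ∑ t' : Tri n, PS ((supp z).erase t'))
          ≤ (n : ℝ) ^ 3 * (4 * E * ∑ t' : Tri n, PS ((supp z).erase t')) :=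
            mul_le_mul_of_nonneg_right h5 (by positivity)
        _ = _ := by ring
  have hQ : CycQ n G (fun _ => True) = ∑ z ∈ (univ : Finset (Tri n → AddChar G ℂ)).filter
      (fun z => IsCyc z ∧ z ≠ 1 ∧ True), ∑ t ∈ supp z, ∑ t' ∈ supp z,
        th n ^ ((supp z).card - 2) * PS ((supp z).erase t') := by
    unfold CycQ
    apply Finset.sum_congr
    · ext z
      simp only [Finset.mem_filter]
    · intro z _
      rfl
  rw [hQ, Finset.mul_sum]
  refine (Finset.sum_le_sum hterm).trans ?_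
  rw [Finset.sum_add_distrib]
  apply add_le_add
  · rw [← Finset.sum_filter, Finset.filter_filter]
    refine le_trans (le_of_eq ?_) hB1
    apply Finset.sum_congr
    · ext z
      simp only [Finset.mem_filter, Finset.mem_univ, true_and]
      tauto
    · intro z _
      rfl
  · rw [← Finset.mul_sum, ← Finset.mul_sum, ← Finset.mul_sum, Finset.sum_comm]
    apply mul_le_mul_of_nonneg_left _ h3n
    apply mul_le_mul_of_nonneg_left _ (by positivity)
    have h5 : ∑ t' : Tri n, ∑ z ∈ (univ : Finset (Tri n → AddChar G ℂ)).filter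
        (fun z => IsCyc z ∧ z ≠ 1 ∧ True), PS ((supp z).erase t') ≤
        ∑ _t' : Tri n, (Fintype.card G : ℝ) * Mth n G 1 := by
      apply Finset.sum_le_sum
      intro t' _
      exact pl_sum_erase G _ (fun z hz => hz.1) t'
    rw [Finset.sum_const, nsmul_eq_mul, Finset.card_univ] at h5
    have h6 : ((Fintype.card (Tri n) : ℕ) : ℝ) ≤ (n : ℝ) ^ 3 := by
      exact_mod_cast LargeCoreAux.card_tri n
    have h7 : 0 ≤ (Fintype.card G : ℝ) * Mth n G 1 := by
      have := one_le_Mth G (n := n) (by omega) (θ := 1) (by norm_num)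
      positivity
    refine (mul_le_mul_of_nonneg_left h5 (by positivity)).trans ?_
    calc (n : ℝ) ^ 3 * (((Fintype.card (Tri n) : ℕ) : ℝ) * ((Fintype.card G : ℝ) * Mth n G 1)) ≤ (n : ℝ) ^ 3 * ((n : ℝ) ^ 3 * ((Fintype.card G : ℝ) * Mth n G 1)) := by
          apply mul_le_mul_of_nonneg_left _ (by positivity)
          exact mul_le_mul_of_nonneg_right h6 h7
      _ = _ := by ring

private lemma pl_exp_tendsto : Tendsto (fun n : ℕ => (n : ℝ) ^ 6 *
    Real.exp (-(n : ℝ) ^ (1 / 200 : ℝ))) atTop (𝓝 0) := by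
  have h1 : Tendsto (fun n : ℕ => (n : ℝ) ^ (1 / 200 : ℝ)) atTop atTop :=
    (tendsto_rpow_atTop (by norm_num)).comp tendsto_natCast_atTop_atTop
  have h2 := (Real.tendsto_pow_mul_exp_neg_atTop_nhds_zero 1200).comp h1
  refine h2.congr' ?_
  filter_upwards [eventually_ge_atTop 1] with n hn
  have hn0 : (0 : ℝ) < n := by exact_mod_cast hn
  simp only [Function.comp_apply]
  congr 1
  rw [← Real.rpow_natCast, ← Real.rpow_mul hn0.le]
  norm_num

theorem PsiN_tendsto (p : ℕ) [Fact p.Prime] (hp : p ≠ 2) (G : Type) [AddCommGroup G] [Fintype G]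
    (hG : IsP p G) : Tendsto (fun n : ℕ => PsiN n G) atTop (𝓝 0) := by
  classical
  obtain ⟨B1, hB1⟩ := cyc_sum_null G
  obtain ⟨B2, hB2⟩ := mom_bdd p hp G hG
  set q : ℝ := (Fintype.card G : ℝ) with hq
  have hq0 : 0 ≤ q := by positivity
  have hlim : Tendsto (fun n : ℕ => 3 * q * (tt n / n) + (tt n / NN n) * (q * |B1|) +
      12 * q ^ 2 * |B2| * ((n : ℝ) ^ 6 * Real.exp (-(n : ℝ) ^ (1 / 200 : ℝ)))) atTop (𝓝 0) := by
    have h1 := (pl_tt_n.const_mul (3 * q)).add (pl_tt_NN.mul_const (q * |B1|))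
    have h2 := h1.add (pl_exp_tendsto.const_mul (12 * q ^ 2 * |B2|))
    simpa using h2
  refine tendsto_of_tendsto_of_tendsto_of_le_of_le' tendsto_const_nhds hlim ?_ ?_
  · filter_upwards [eventually_ge_atTop 5] with n hn
    obtain ⟨h0, h1, hN⟩ := pl_th_bounds hn
    unfold PsiN
    apply Finset.sum_nonneg
    intro R _
    apply mul_nonneg
    · unfold PR
      exact mul_nonneg (pow_nonneg h0 _) (pow_nonneg (by linarith) _)
    · unfold PsiR
      apply mul_nonneg (by positivity)
      apply Finset.sum_nonneg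
      intro t _
      apply Finset.sum_nonneg
      intro t' _
      exact mul_nonneg (Nat.cast_nonneg _) (pl_PS_nonneg _)
  · have hhalf : ∀ᶠ n : ℕ in atTop, tt n / NN n < 1 / 2 :=
      pl_tt_NN.eventually_lt_const (by norm_num)
    filter_upwards [eventually_ge_atTop 5, hB1, hB2, hhalf] with n hn hb1 hb2 hh
    obtain ⟨h0, h1, hN⟩ := pl_th_bounds hn
    have hn0 : (0 : ℝ) < n := by
      have : (5 : ℝ) ≤ n := by exact_mod_cast hn
      linarith
    have hn1 : (1 : ℝ) ≤ n := by
      have : (5 : ℝ) ≤ n := by exact_mod_cast hn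
      linarith
    have hth : 1 / 2 ≤ th n := by
      rw [th]
      linarith
    have hC := pl_CycQ_le hn hth G B1 (by
      refine le_trans (le_of_eq ?_) hb1
      apply Finset.sum_congr
      · ext z
        simp only [Finset.mem_filter]
      · intro z _
        rfl)
    have hP := PsiN_le hn G
    have e1 : 1 - th n = tt n / NN n := by
      rw [th]
      ring
    have htt0 : 0 ≤ tt n / NN n := by
      rw [← e1]
      linarith
    rw [e1] at hP
    have hE0 : 0 ≤ Real.exp (-(n : ℝ) ^ (1 / 200 : ℝ)) := (Real.exp_pos _).le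
    have h3 : 3 / (n : ℝ) ≤ 3 := by
      rw [div_le_iff₀ hn0]
      linarith
    have hMth : 0 ≤ Mth n G 1 := by
      have := one_le_Mth G (n := n) (by omega) (θ := 1) (by norm_num)
      linarith
    have hC2 : (3 / (n : ℝ)) * CycQ n G (fun _ => True) ≤ |B1| +
        12 * q * |B2| * ((n : ℝ) ^ 6 * Real.exp (-(n : ℝ) ^ (1 / 200 : ℝ))) := by
      refine hC.trans (add_le_add (le_abs_self _) ?_)
      calc (3 / (n : ℝ)) * (4 * Real.exp (-(n : ℝ) ^ (1 / 200 : ℝ)) *
            ((n : ℝ) ^ 6 * (Fintype.card G * Mth n G 1)))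
          ≤ 3 * (4 * Real.exp (-(n : ℝ) ^ (1 / 200 : ℝ)) *
            ((n : ℝ) ^ 6 * (q * |B2|))) := by
            apply mul_le_mul h3 _ (by positivity) (by norm_num)
            apply mul_le_mul_of_nonneg_left _ (by positivity)
            apply mul_le_mul_of_nonneg_left _ (by positivity)
            apply mul_le_mul_of_nonneg_left _ hq0
            exact hb2.trans (le_abs_self _)
        _ = _ := by ring
    have hNN : (NN n : ℝ) ≠ 0 := hN.ne'
    calc PsiN n G ≤ (3 / n) * (tt n / NN n) * q * (NN n + CycQ n G (fun _ => True)) := hP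
      _ = 3 * q * (tt n / n) + (tt n / NN n) * q * ((3 / (n : ℝ)) * CycQ n G (fun _ => True)) := by
        field_simp
      _ ≤ 3 * q * (tt n / n) + (tt n / NN n) * q * (|B1| +
        12 * q * |B2| * ((n : ℝ) ^ 6 * Real.exp (-(n : ℝ) ^ (1 / 200 : ℝ)))) := by
        have := mul_le_mul_of_nonneg_left hC2 (mul_nonneg htt0 hq0)
        linarith
      _ ≤ _ := by
        have h6 : (tt n / NN n) * (12 * q ^ 2 * |B2| * ((n : ℝ) ^ 6 *
            Real.exp (-(n : ℝ) ^ (1 / 200 : ℝ)))) ≤ 1 * (12 * q ^ 2 * |B2| * ((n : ℝ) ^ 6 *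
            Real.exp (-(n : ℝ) ^ (1 / 200 : ℝ)))) := by
          apply mul_le_mul_of_nonneg_right (by linarith) (by positivity)
        nlinarith [h6]

end

end Pool.Agent.DH10
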