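import Pool.Agent.DH10.LowerR
import Pool.Agent.DH10.PsiLim

/-!
# DH10.Lower : the lower bound (6.5, assembly)

`good R` : `(cycIn (ZMod p) R).card = 1`.  For every `T ∈ cand n`, `∑_{R ⊆ T} PR R = 1` (binomial theorem, `|T| = N`).
`q^{n-1} SurMom n G = ∑_{ST f} w f = ∑_{ST f} ∑_{S ⊆ Z f} W S ∑_{R ⊆ S} PR R
 = ∑_R PR R ∑_{f : ST f, R ⊆ Z f} ∑_{S : R ⊆ S ⊆ Z f} W S ≥ ∑_{R good, PS R > 0} PR R (lower_R)`; so for `0 < ε ≤ 1/2`
`SurMom n G ≥ e^{-ε-ε²} (P(good) - h E[p^{-(N-|R|)}] - (2/ε²) PsiN n G)`, `h = #Hom(G,F_p)`, where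
* `P(good) = ∑_{R good} PR R PS R ≥ 1 - (Mth n (ZMod p) (th n) - 1)`: `∑_R PR R PS R |cycIn (ZMod p) R| = Mth n (ZMod p) (th n)`
  (for fixed `T` and a cycle `z` supported in `T`, `∑_{supp z ⊆ R ⊆ T} PR R = θ^{|supp z|}`), `∑_R PR R PS R = 1` and
  `|cycIn| ≥ 1`, `≥ 2` if not good;
* `E[p^{-(N-|R|)}] = ∑_R PR R PS R p^{-(N-|R|)} = (θ + (1-θ)/p)^N ≤ exp(-(1-1/p) tt n) → 0`;
* `PsiN`: good `R` satisfy `(cycIn G R).card = 1` (`cyc_trivial`), `PsiR ≥ 0`, `PsiN → 0` (`PsiN_tendsto`);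
  `Mth n (ZMod p) (th n) → 1` (`Mth_tendsto_one`).
Let `n → ∞`, then `ε → 0`.
-/

set_option autoImplicit false

open Finset Filter Topology

namespace Pool.Agent.DH10

noncomputable section

private theorem lo_bounds {n : ℕ} (hn : 5 ≤ n) :
    0 ≤ th n ∧ th n ≤ 1 ∧ (NN n : ℝ) * (1 - th n) = tt n := by
  have h1 : (n : ℝ) ≤ (NN n : ℝ) + 1 := by
    have h1 : n ≤ NN n + 1 := by
      rw [NN]
      have h2 : n - 1 ≤ (n - 1).choose 2 := by
        rw [Nat.choose_two_right, Nat.le_div_iff_mul_le (by norm_num)]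
        exact Nat.mul_le_mul_left _ (by omega)
      omega
    exact_mod_cast h1
  have hn' : (5 : ℝ) ≤ n := by exact_mod_cast hn
  have hN : (0 : ℝ) < NN n := by linarith
  have ht : 0 ≤ tt n := Real.rpow_nonneg (Nat.cast_nonneg _) _
  refine ⟨?_, ?_, ?_⟩
  · rw [th, sub_nonneg, div_le_one hN]
    have h2 : tt n ≤ (n : ℝ) ^ (1 / 2 : ℝ) := by
      rw [tt]
      apply Real.rpow_le_rpow_of_exponent_le (by linarith)
      norm_num
    have h3 : (n : ℝ) ^ (1 / 2 : ℝ) ≤ n - 1 := by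
      rw [← Real.sqrt_eq_rpow]
      apply Real.sqrt_le_iff.2
      constructor
      · linarith
      · nlinarith
    linarith
  · rw [th]
    have : 0 ≤ tt n / NN n := div_nonneg ht hN.le
    linarith
  · rw [th]
    field_simp
    ring

private theorem lo_PR_nonneg {n : ℕ} (hn : 5 ≤ n) (R : Finset (Tri n)) : 0 ≤ PR R := by
  obtain ⟨h0, h1, -⟩ := lo_bounds hn
  unfold PR
  exact mul_nonneg (pow_nonneg h0 _) (pow_nonneg (by linarith) _)

private theorem lo_PsiR_nonneg {n : ℕ} (G : Type) [AddCommGroup G] [Fintype G]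
    (R : Finset (Tri n)) : 0 ≤ PsiR G R := by
  unfold PsiR
  refine mul_nonneg (by positivity) (Finset.sum_nonneg fun t _ => Finset.sum_nonneg fun t' _ => ?_)
  exact mul_nonneg (Nat.cast_nonneg _) (PS_nonneg _)

/-- sums over a set and a random superset -/
private theorem lo_exch {n : ℕ} (X : Finset (Tri n) → ℝ) :
    ∑ R, X R * PS R = ∑ S ∈ cand n, W S * ∑ R ∈ S.powerset, X R := by
  have h1 : ∀ R : Finset (Tri n), X R * PS R = ∑ S ∈ cand n, if R ⊆ S then W S * X R else 0 := by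
    intro R
    rw [PS, Finset.mul_sum, Finset.sum_filter]
    refine Finset.sum_congr rfl fun S _ => ?_
    split_ifs
    · ring
    · rfl
  rw [Finset.sum_congr rfl fun R _ => h1 R, Finset.sum_comm]
  refine Finset.sum_congr rfl fun S _ => ?_
  rw [Finset.mul_sum, ← Finset.sum_filter]
  refine Finset.sum_congr ?_ fun _ _ => rfl
  ext R
  simp

private theorem lo_sum_PR {n : ℕ} {S : Finset (Tri n)} (hS : S ∈ cand n) :
    ∑ R ∈ S.powerset, PR R = 1 := by
  have h := Finset.sum_pow_mul_eq_add_pow (th n) (1 - th n) S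
  have hc : S.card = NN n := (mem_powersetCard.mp hS).2
  rw [hc] at h
  unfold PR
  rw [h]
  ring_nf

private theorem lo_sum_sup {n : ℕ} {S A : Finset (Tri n)} (hS : S ∈ cand n) (hA : A ⊆ S) :
    ∑ R ∈ S.powerset.filter (fun R => A ⊆ R), PR R = th n ^ A.card := by
  have hc : S.card = NN n := (mem_powersetCard.mp hS).2
  have h1 : S.powerset.filter (fun R => A ⊆ R) = (S \ A).powerset.image (A ∪ ·) := by
    rw [← Finset.Icc_eq_image_powerset hA]
    ext R
    simp [and_comm]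
  have h2 : Set.InjOn (A ∪ ·) ((S \ A).powerset : Set (Finset (Tri n))) := by
    intro R hR R' hR' h
    rw [Finset.mem_coe, Finset.mem_powerset] at hR hR'
    have h3 : ∀ Q : Finset (Tri n), Q ⊆ S \ A → (A ∪ Q) \ A = Q := by
      intro Q hQ
      rw [Finset.union_sdiff_left]
      exact Finset.sdiff_eq_self_of_disjoint
        (Finset.disjoint_of_subset_left hQ Finset.sdiff_disjoint)
    have h4 : A ∪ R = A ∪ R' := h
    rw [← h3 R hR, h4, h3 R' hR']
  rw [h1, Finset.sum_image h2]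
  have h3 := Finset.sum_pow_mul_eq_add_pow (th n) (1 - th n) (S \ A)
  have h4 : ∀ R ∈ (S \ A).powerset, PR (A ∪ R) =
      th n ^ A.card * (th n ^ R.card * (1 - th n) ^ ((S \ A).card - R.card)) := by
    intro R hR
    rw [Finset.mem_powerset] at hR
    have h5 : Disjoint A R :=
      (Finset.disjoint_of_subset_left hR Finset.sdiff_disjoint).symm
    have h6 : (A ∪ R).card = A.card + R.card := Finset.card_union_of_disjoint h5
    have h7 : (S \ A).card = NN n - A.card := by rw [Finset.card_sdiff_of_subset hA, hc]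
    unfold PR
    rw [h6, h7, pow_add, Nat.sub_sub]
    ring
  rw [Finset.sum_congr rfl h4, ← Finset.mul_sum, h3]
  ring_nf

open Classical in
private theorem lo_cyc {n : ℕ} (G : Type) [AddCommGroup G] [Fintype G] {S : Finset (Tri n)}
    (hS : S ∈ cand n) :
    ∑ R ∈ S.powerset, PR R * ((cycIn G R).card : ℝ) = ∑ z ∈ cycIn G S, th n ^ (supp z).card := by
  have h1 : ∀ R ∈ S.powerset, PR R * ((cycIn G R).card : ℝ) =
      ∑ z ∈ cycIn G S, if supp z ⊆ R then PR R else 0 := by
    intro R hR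
    rw [Finset.mem_powerset] at hR
    have h2 : cycIn G R = (cycIn G S).filter fun z => supp z ⊆ R := by
      unfold cycIn
      rw [Finset.filter_filter]
      refine Finset.filter_congr fun z _ => ?_
      constructor
      · exact fun h => ⟨⟨h.1, h.2.trans hR⟩, h.2⟩
      · exact fun h => ⟨h.1.1, h.2⟩
    rw [h2, ← Finset.sum_filter, Finset.sum_const, nsmul_eq_mul, mul_comm]
  rw [Finset.sum_congr rfl h1, Finset.sum_comm]
  refine Finset.sum_congr rfl fun z hz => ?_
  rw [← Finset.sum_filter]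
  refine lo_sum_sup hS ?_
  unfold cycIn at hz
  exact (Finset.mem_filter.1 hz).2.2

private theorem lo_Mth {n : ℕ} (G : Type) [AddCommGroup G] [Fintype G] :
    ∑ R : Finset (Tri n), PR R * ((cycIn G R).card : ℝ) * PS R = Mth n G (th n) := by
  rw [lo_exch]
  unfold Mth Ex
  exact Finset.sum_congr rfl fun S hS => by rw [lo_cyc G hS]

private theorem lo_one_le_cyc {n : ℕ} (G : Type) [AddCommGroup G] [Fintype G]
    (R : Finset (Tri n)) : 1 ≤ (cycIn G R).card := by
  classical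
  rw [Finset.one_le_card]
  refine ⟨1, ?_⟩
  unfold cycIn
  rw [Finset.mem_filter]
  refine ⟨Finset.mem_univ _, fun f => by simp, ?_⟩
  simp [supp]

/-- probability that `R` is good -/
private theorem lo_good {n : ℕ} (hn : 5 ≤ n) (G : Type) [AddCommGroup G] [Fintype G] :
    2 - Mth n G (th n) ≤
      ∑ R ∈ univ.filter (fun R : Finset (Tri n) => (cycIn G R).card = 1), PR R * PS R := by
  have h1 : ∑ R : Finset (Tri n), PR R * PS R = 1 := by
    rw [lo_exch, ← sum_W (n := n) (by omega)]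
    exact Finset.sum_congr rfl fun S hS => by rw [lo_sum_PR hS, mul_one]
  have h2 := lo_Mth (n := n) G
  have h3 : ∑ R ∈ univ.filter (fun R : Finset (Tri n) => ¬ (cycIn G R).card = 1), PR R * PS R ≤
      Mth n G (th n) - 1 := by
    rw [← h2, ← h1, ← Finset.sum_sub_distrib]
    calc ∑ R ∈ univ.filter (fun R : Finset (Tri n) => ¬ (cycIn G R).card = 1), PR R * PS R
        ≤ ∑ R ∈ univ.filter (fun R : Finset (Tri n) => ¬ (cycIn G R).card = 1),
          (PR R * ((cycIn G R).card : ℝ) * PS R - PR R * PS R) := by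
          refine Finset.sum_le_sum fun R hR => ?_
          have h4 : 2 ≤ (cycIn G R).card := by
            have h5 := lo_one_le_cyc G R
            have h6 := (Finset.mem_filter.1 hR).2
            omega
          have h5 : (2 : ℝ) ≤ (cycIn G R).card := by exact_mod_cast h4
          have h6 := mul_nonneg (lo_PR_nonneg hn R) (PS_nonneg R)
          nlinarith
      _ ≤ ∑ R : Finset (Tri n), (PR R * ((cycIn G R).card : ℝ) * PS R - PR R * PS R) := by
          refine Finset.sum_le_sum_of_subset_of_nonneg (Finset.filter_subset _ _) fun R _ _ => ?_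
          have h5 : (1 : ℝ) ≤ (cycIn G R).card := by exact_mod_cast lo_one_le_cyc G R
          have h6 := mul_nonneg (lo_PR_nonneg hn R) (PS_nonneg R)
          nlinarith
  have h4 := Finset.sum_filter_add_sum_filter_not (univ : Finset (Finset (Tri n)))
    (fun R => (cycIn G R).card = 1) (fun R => PR R * PS R)
  linarith

/-- the mean of `p^{-(N-|R|)}` -/
private theorem lo_mean {n : ℕ} (hn : 5 ≤ n) {p : ℝ} (hp : 1 ≤ p) :
    ∑ R : Finset (Tri n), PR R * (1 / p ^ (NN n - R.card)) * PS R ≤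
      Real.exp (-(1 - 1 / p) * tt n) := by
  obtain ⟨h0, h1, h2⟩ := lo_bounds hn
  have hp0 : 0 < p := by linarith
  have h3 : ∀ S ∈ cand n, W S * ∑ R ∈ S.powerset, PR R * (1 / p ^ (NN n - R.card)) =
      W S * (th n + (1 - th n) / p) ^ NN n := by
    intro S hS
    have h := Finset.sum_pow_mul_eq_add_pow (th n) ((1 - th n) / p) S
    have hc : S.card = NN n := (mem_powersetCard.mp hS).2
    rw [hc] at h
    rw [← h]
    congr 1
    refine Finset.sum_congr rfl fun R _ => ?_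
    unfold PR
    rw [div_pow]
    ring
  rw [lo_exch, Finset.sum_congr rfl h3, ← Finset.sum_mul, sum_W (by omega), one_mul]
  have h4 : 0 ≤ th n + (1 - th n) / p := add_nonneg h0 (div_nonneg (by linarith) hp0.le)
  have h5 : th n + (1 - th n) / p ≤ Real.exp (-((1 - 1 / p) * (1 - th n))) := by
    have h6 := Real.add_one_le_exp (-((1 - 1 / p) * (1 - th n)))
    have h7 : th n + (1 - th n) / p = -((1 - 1 / p) * (1 - th n)) + 1 := by
      field_simp
      ring
    linarith
  calc (th n + (1 - th n) / p) ^ NN n ≤ Real.exp (-((1 - 1 / p) * (1 - th n))) ^ NN n :=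
        pow_le_pow_left₀ h4 h5 _
    _ = Real.exp (-(1 - 1 / p) * tt n) := by
        rw [← Real.exp_nat_mul, ← h2]
        congr 1
        ring

open Classical in
/-- decomposition of the sum over the cochains -/
private theorem lo_decomp {n : ℕ} (G : Type) [AddCommGroup G] [Fintype G] :
    ∑ f ∈ univ.filter (fun f : Coch n G => ST f), w f =
      ∑ R : Finset (Tri n), PR R * ∑ f ∈ univ.filter (fun f : Coch n G => ST f ∧ R ⊆ Z f),
          ∑ S ∈ (cand n).filter (fun S => R ⊆ S ∧ S ⊆ Z f), W S := by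
  have h1 : ∀ f : Coch n G, w f =
      ∑ S ∈ cand n, ∑ R : Finset (Tri n), if R ⊆ S ∧ S ⊆ Z f then PR R * W S else 0 := by
    intro f
    unfold w
    rw [Finset.sum_filter]
    refine Finset.sum_congr rfl fun S hS => ?_
    by_cases hf : S ⊆ Z f
    · rw [if_pos hf]
      have h2 : ∑ R : Finset (Tri n), (if R ⊆ S ∧ S ⊆ Z f then PR R * W S else 0) =
          ∑ R ∈ S.powerset, PR R * W S := by
        rw [← Finset.sum_filter]
        refine Finset.sum_congr ?_ fun _ _ => rfl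
        ext R
        simp [hf]
      rw [h2, ← Finset.sum_mul, lo_sum_PR hS, one_mul]
    · rw [if_neg hf]
      symm
      exact Finset.sum_eq_zero fun R _ => if_neg fun h => hf h.2
  rw [Finset.sum_congr rfl fun f _ => h1 f]
  rw [Finset.sum_congr rfl fun f _ => Finset.sum_comm, Finset.sum_comm]
  refine Finset.sum_congr rfl fun R _ => ?_
  rw [Finset.mul_sum, ← Finset.filter_filter, Finset.sum_filter (p := fun f : Coch n G => R ⊆ Z f)]
  refine Finset.sum_congr rfl fun f _ => ?_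
  by_cases hf : R ⊆ Z f
  · rw [if_pos hf, Finset.mul_sum, Finset.sum_filter]
  · rw [if_neg hf]
    exact Finset.sum_eq_zero fun S _ => if_neg fun h => hf (h.1.trans h.2)

/-- the bound for fixed `n` -/
private theorem lo_fixed (p : ℕ) [Fact p.Prime] (G : Type) [AddCommGroup G] [Fintype G]
    (hG : IsP p G) {ε : ℝ} (h0 : 0 < ε) (h1 : ε ≤ 1 / 2) {n : ℕ} (hn : 5 ≤ n) :
    Real.exp (-ε - ε ^ 2) * (2 - Mth n (ZMod p) (th n) -
      (Nat.card (G →+ ZMod p) : ℝ) * Real.exp (-(1 - 1 / (p : ℝ)) * tt n) -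
      2 / ε ^ 2 * PsiN n G) ≤ SurMom n G := by
  classical
  have hq : (0 : ℝ) < Fintype.card G := by
    have : 0 < Fintype.card G := Fintype.card_pos
    exact_mod_cast this
  have hqn : (0 : ℝ) < (Fintype.card G : ℝ) ^ (n - 1) := by positivity
  have hp1 : (1 : ℝ) ≤ p := by exact_mod_cast (Fact.out : p.Prime).one_lt.le
  have hp0 : (0 : ℝ) < p := by linarith
  rw [surMom_eq (by omega), le_div_iff₀ hqn]
  set IN : Finset (Tri n) → ℝ := fun R =>
    ∑ f ∈ univ.filter (fun f : Coch n G => ST f ∧ R ⊆ Z f),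
      ∑ S ∈ (cand n).filter (fun S => R ⊆ S ∧ S ⊆ Z f), W S with hIN
  set good : Finset (Finset (Tri n)) :=
    univ.filter (fun R : Finset (Tri n) => (cycIn (ZMod p) R).card = 1) with hgood
  set E : ℝ := Real.exp (-ε - ε ^ 2) with hE
  set h : ℝ := (Nat.card (G →+ ZMod p) : ℝ) with hh
  have hE0 : 0 < E := Real.exp_pos _
  have hIN0 : ∀ R, 0 ≤ IN R := fun R =>
    Finset.sum_nonneg fun f _ => Finset.sum_nonneg fun S _ => W_nonneg S
  -- the bound for each good `R`
  have key : ∀ R ∈ good, (Fintype.card G : ℝ) ^ (n - 1) * E *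
      (PR R * PS R - h * (PR R * (1 / (p : ℝ) ^ (NN n - R.card)) * PS R) -
        2 / ε ^ 2 * (PR R * PsiR G R)) ≤ PR R * IN R := by
    intro R hR
    have hR1 := (Finset.mem_filter.1 hR).2
    have hPR := lo_PR_nonneg hn R
    rcases (PS_nonneg R).eq_or_lt with hPS | hPS
    · rw [← hPS]
      refine le_trans ?_ (mul_nonneg hPR (hIN0 R))
      have h2 := mul_nonneg hPR (lo_PsiR_nonneg G R)
      have h3 : 0 ≤ 2 / ε ^ 2 * (PR R * PsiR G R) := mul_nonneg (by positivity) h2
      have h4 : 0 ≤ (Fintype.card G : ℝ) ^ (n - 1) * E := by positivity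
      nlinarith
    · have h2 := lower_R (by omega) p G hG R hR1 hPS h0 h1
      have h3 := mul_le_mul_of_nonneg_left h2 hPR
      refine le_trans (le_of_eq ?_) h3
      ring
  have s1 := lo_good hn (ZMod p)
  have s2 := lo_mean hn hp1
  have s3 : ∑ R ∈ good, PR R * (1 / (p : ℝ) ^ (NN n - R.card)) * PS R ≤
      ∑ R : Finset (Tri n), PR R * (1 / (p : ℝ) ^ (NN n - R.card)) * PS R := by
    refine Finset.sum_le_sum_of_subset_of_nonneg (Finset.filter_subset _ _) fun R _ _ => ?_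
    exact mul_nonneg (mul_nonneg (lo_PR_nonneg hn R) (by positivity)) (PS_nonneg R)
  have s4 : ∑ R ∈ good, PR R * PsiR G R ≤ PsiN n G := by
    unfold PsiN
    refine Finset.sum_le_sum_of_subset_of_nonneg (fun R hR => ?_) fun R _ _ =>
      mul_nonneg (lo_PR_nonneg hn R) (lo_PsiR_nonneg G R)
    rw [Finset.mem_filter] at hR ⊢
    exact ⟨Finset.mem_univ _, cyc_trivial p G hG R hR.2⟩
  have hh0 : 0 ≤ h := Nat.cast_nonneg _
  have s5 : 2 - Mth n (ZMod p) (th n) - h * Real.exp (-(1 - 1 / (p : ℝ)) * tt n) -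
      2 / ε ^ 2 * PsiN n G ≤ ∑ R ∈ good, (PR R * PS R -
        h * (PR R * (1 / (p : ℝ) ^ (NN n - R.card)) * PS R) - 2 / ε ^ 2 * (PR R * PsiR G R)) := by
    rw [Finset.sum_sub_distrib, Finset.sum_sub_distrib, ← Finset.mul_sum, ← Finset.mul_sum]
    have t1 := mul_le_mul_of_nonneg_left (s3.trans s2) hh0
    have t2 := mul_le_mul_of_nonneg_left s4 (by positivity : (0 : ℝ) ≤ 2 / ε ^ 2)
    linarith
  calc E * (2 - Mth n (ZMod p) (th n) - h * Real.exp (-(1 - 1 / (p : ℝ)) * tt n) -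
      2 / ε ^ 2 * PsiN n G) * (Fintype.card G : ℝ) ^ (n - 1)
      ≤ E * (∑ R ∈ good, (PR R * PS R -
        h * (PR R * (1 / (p : ℝ) ^ (NN n - R.card)) * PS R) -
          2 / ε ^ 2 * (PR R * PsiR G R))) * (Fintype.card G : ℝ) ^ (n - 1) :=
        mul_le_mul_of_nonneg_right (mul_le_mul_of_nonneg_left s5 hE0.le) hqn.le
    _ = ∑ R ∈ good, (Fintype.card G : ℝ) ^ (n - 1) * E * (PR R * PS R -
        h * (PR R * (1 / (p : ℝ) ^ (NN n - R.card)) * PS R) -
          2 / ε ^ 2 * (PR R * PsiR G R)) := by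
        rw [← Finset.mul_sum]
        ring
    _ ≤ ∑ R ∈ good, PR R * IN R := Finset.sum_le_sum key
    _ ≤ ∑ R : Finset (Tri n), PR R * IN R :=
        Finset.sum_le_sum_of_subset_of_nonneg (Finset.filter_subset _ _) fun R _ _ =>
          mul_nonneg (lo_PR_nonneg hn R) (hIN0 R)
    _ = ∑ f ∈ univ.filter (fun f : Coch n G => ST f), w f := (lo_decomp G).symm

theorem lower (p : ℕ) [Fact p.Prime] (hp : p ≠ 2) (G : Type) [AddCommGroup G] [Finite G]
    (hG : IsP p G) : ∀ ε : ℝ, 0 < ε → ∀ᶠ n : ℕ in atTop, 1 - ε ≤ SurMom n G := by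
  intro ε₀ hε₀
  have : Fintype G := Fintype.ofFinite G
  set ε : ℝ := min (1 / 2) (ε₀ / 4) with hε
  have h0 : 0 < ε := lt_min (by norm_num) (by linarith)
  have h1 : ε ≤ 1 / 2 := min_le_left _ _
  have h2 : ε ≤ ε₀ / 4 := min_le_right _ _
  have hZ : IsP p (ZMod p) := fun a => ⟨1, by simp⟩
  have hp1 : (1 : ℝ) < p := by exact_mod_cast (Fact.out : p.Prime).one_lt
  have t1 := Mth_tendsto_one p hp (ZMod p) hZ
  have t2 := PsiN_tendsto p hp G hG
  have t3 : Tendsto (fun n : ℕ => Real.exp (-(1 - 1 / (p : ℝ)) * tt n)) atTop (𝓝 0) := by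
    have h3 : Tendsto tt atTop atTop := (tendsto_rpow_atTop (by norm_num)).comp
      tendsto_natCast_atTop_atTop
    have h4 : 0 < 1 - 1 / (p : ℝ) := by
      rw [sub_pos, div_lt_one (by linarith)]
      exact hp1
    refine Real.tendsto_exp_atBot.comp ?_
    have h5 := h3.const_mul_atTop h4
    have h6 := tendsto_neg_atTop_atBot.comp h5
    refine h6.congr fun n => ?_
    simp only [Function.comp]
    ring
  have t4 : Tendsto (fun n : ℕ => Real.exp (-ε - ε ^ 2) * (2 - Mth n (ZMod p) (th n) -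
      (Nat.card (G →+ ZMod p) : ℝ) * Real.exp (-(1 - 1 / (p : ℝ)) * tt n) -
      2 / ε ^ 2 * PsiN n G)) atTop (𝓝 (Real.exp (-ε - ε ^ 2) * (2 - 1 -
        (Nat.card (G →+ ZMod p) : ℝ) * 0 - 2 / ε ^ 2 * 0))) :=
    (((t1.const_sub 2).sub (t3.const_mul _)).sub (t2.const_mul _)).const_mul _
  have h3 : 1 - ε₀ < Real.exp (-ε - ε ^ 2) * (2 - 1 -
        (Nat.card (G →+ ZMod p) : ℝ) * 0 - 2 / ε ^ 2 * 0) := by
    have h4 := Real.add_one_le_exp (-ε - ε ^ 2)
    have h5 : ε ^ 2 ≤ ε := by nlinarith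
    have h6 : Real.exp (-ε - ε ^ 2) * (2 - 1 -
        (Nat.card (G →+ ZMod p) : ℝ) * 0 - 2 / ε ^ 2 * 0) = Real.exp (-ε - ε ^ 2) := by ring
    rw [h6]
    linarith
  filter_upwards [t4.eventually (lt_mem_nhds h3), eventually_ge_atTop 5] with n hn hn5
  exact hn.le.trans (lo_fixed p G hG h0 h1 hn5)

end

end Pool.Agent.DH10
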