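import Pool.Agent.DH10.Basic1
import Pool.Agent.DH10.CoreDefs
import Pool.Agent.DH10.Forest

/-!
# DH10.NZDefs : near-zero cochains (Part 4), definitions only
-/

set_option autoImplicit false

open Finset

namespace Pool.Agent.DH10

noncomputable section

variable {n : ℕ} {K : Type} [AddCommGroup K] [DecidableEq K]

/-- support of a cochain -/
def suppE (f : Coch n K) : Finset (Edg n) := univ.filter fun e => f e ≠ 0

/-- degree of a vertex in the support -/
def dgr (f : Coch n K) (x : Fin n) : ℕ := (univ.filter fun y => val f x y ≠ 0).card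

/-- minimal support in the cohomology class -/
def Minl (f : Coch n K) : Prop := ∀ c : Fin n → K, (suppE f).card ≤ (suppE (f + cob c)).card

/-- at every vertex `0` is the most frequent value -/
def VMin (f : Coch n K) : Prop :=
  ∀ (x : Fin n) (c : K), (univ.filter fun y => y ≠ x ∧ val f x y = c).card
    ≤ (univ.filter fun y => y ≠ x ∧ val f x y = 0).card

/-- `L_Z = ∑_{t ∈ Z f} D(t) D(t)ᵀ` -/
def LZ (f : Coch n K) : Matrix (Edg n) (Edg n) ℝ :=
  DM n * Matrix.diagonal (fun t => if t ∈ Z f then (1 : ℝ) else 0) * (DM n).transpose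

/-- `d` with the rows in the support set to zero -/
def CS (f : Coch n K) : Matrix (Edg n) (Fin n) ℝ := Matrix.of fun e v => if f e = 0 then dM n e v else 0

/-- Laplacian of the graph `suppE f` -/
def lapS (f : Coch n K) : Matrix (Fin n) (Fin n) ℝ :=
  (dM n).transpose * Matrix.diagonal (fun e => if f e = 0 then (0 : ℝ) else 1) * dM n

/-- hubs: vertices of degree at least `n^{1-1/50}` -/
def hub (f : Coch n K) : Finset (Fin n) :=
  univ.filter fun x => (n : ℝ) ^ (1 - 1 / 50 : ℝ) ≤ (dgr f x : ℝ)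

/-- edges with no endpoint in `H` -/
def low (H : Finset (Fin n)) : Finset (Edg n) := univ.filter fun e => e.1.1 ∉ H ∧ e.1.2 ∉ H

/-- the triangle is closed, contained in the support, and avoids `H` -/
def Full (H : Finset (Fin n)) (f : Coch n K) (t : Tri n) : Prop :=
  t ∈ Z f ∧ t.edges ⊆ suppE f ∧ t.edges ⊆ low H

/-- pairwise edge-disjoint family -/
def EDisj (J : Finset (Tri n)) : Prop := ∀ t ∈ J, ∀ t' ∈ J, t ≠ t' → Disjoint t.edges t'.edges

/-- `J` is a maximal edge-disjoint family of full triangles -/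
def MaxFam (H : Finset (Fin n)) (f : Coch n K) (J : Finset (Tri n)) : Prop :=
  EDisj J ∧ (∀ t ∈ J, Full H f t) ∧ ∀ t, Full H f t → ∃ t' ∈ J, ¬ Disjoint t.edges t'.edges

/-- `S''` : low support edges not in a triangle of `J` -/
def S2 (H : Finset (Fin n)) (f : Coch n K) (J : Finset (Tri n)) : Finset (Edg n) :=
  (suppE f ∩ low H) \ EE J

/-- support edges touching `H` -/
def SH (H : Finset (Fin n)) (f : Coch n K) : Finset (Edg n) := suppE f \ low H

/-- half system: exactly one of `a, -a` is in `P` for `a ≠ 0` -/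
def IsHalf (P : Finset K) : Prop := (0 : K) ∉ P ∧ ∀ a : K, a ≠ 0 → (a ∈ P ↔ -a ∉ P)

/-- arcs `x → y` with value `a` -/
abbrev Arc (n : ℕ) (K : Type) := Fin n × Fin n × K

/-- two arcs are adjacent if they have the same value and the same tail or the same head (and are different) -/
def arcG (n : ℕ) (K : Type) : SimpleGraph (Arc n K) where
  Adj p q := p.2.2 = q.2.2 ∧ ((p.1 = q.1 ∧ p.2.1 ≠ q.2.1) ∨ (p.1 ≠ q.1 ∧ p.2.1 = q.2.1))
  symm := ⟨fun _ _ h => ⟨h.1.symm, h.2.elim (fun h => Or.inl ⟨h.1.symm, h.2.symm⟩)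
    (fun h => Or.inr ⟨fun e => h.1 e.symm, h.2.symm⟩)⟩⟩
  loopless := ⟨fun _ h => h.2.elim (fun h => h.2 rfl) (fun h => h.1 rfl)⟩

instance : DecidableRel (arcG n K).Adj := fun p q =>
  inferInstanceAs (Decidable (p.2.2 = q.2.2 ∧ ((p.1 = q.1 ∧ p.2.1 ≠ q.2.1) ∨ (p.1 ≠ q.1 ∧ p.2.1 = q.2.1))))

/-- the arc of a support edge, oriented so that the value is in `P` -/
def arcOf (P : Finset K) (f : Coch n K) (e : Edg n) : Arc n K :=
  if f e ∈ P then (e.1.1, e.1.2, f e) else (e.1.2, e.1.1, - f e)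

/-- root weights: `h_ω + 2 (d¹_x + d¹_y)` -/
def muF (P : Finset K) (H : Finset (Fin n)) (f : Coch n K) (J : Finset (Tri n)) (ω : Arc n K) : ℝ :=
  (if ω.1 ≠ ω.2.1 ∧ ω.1 ∉ H ∧ ω.2.1 ∉ H ∧ ω.2.2 ∈ P then
    ((H.filter fun h => val f h ω.2.1 - val f h ω.1 = ω.2.2).card : ℝ) else 0)
  + 2 * ((degE J ω.1 : ℝ) + degE J ω.2.1)

/-- `X_x` : number of low edges whose endpoints have different values at `x` -/
def XX (H : Finset (Fin n)) (f : Coch n K) (x : Fin n) : ℕ :=
  ((low H).filter fun e => val f x e.1.1 ≠ val f x e.1.2).card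

/-- number of triangles of `J` at a vertex -/
def tc (J : Finset (Tri n)) (v : Fin n) : ℕ := (J.filter fun t => v ∈ t.verts).card

/-- weight of a family of triangles -/
def psiJ (C : ℝ) (J : Finset (Tri n)) : ℝ :=
  ∏ t ∈ J, (C / n) ^ 3 * (((tc J t.a : ℝ) + tc J t.b) * ((tc J t.b : ℝ) + tc J t.c) *
    ((tc J t.a : ℝ) + tc J t.c))

end

end Pool.Agent.DH10
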