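import Pool.Agent.DH10.MidDefs
import Pool.Agent.DH10.NZDefs
import Pool.Agent.DH10.GroupPairs
import Pool.Agent.DH10.Mid1

/-!
# DH10.Push : push-forward of cochains, coboundaries, small classes (Part 5, algebra)

* `push ψ f = ψ ∘ f`; `val`, `cur` commute with `push`, so `Z f ⊆ Z (push ψ f)`.
* `IsCob f` : `f = cob c`.  `isCob_iff`: iff all curvatures vanish (take `c y = val f r y` for a fixed vertex `r`).
* `card_cob`: `c` can be normalised by `c r = 0`, so there are at most `q^{n-1}` coboundaries.
* `w (f + cob c) = w f` because `cur` does not change (`val (f + cob c) x y = val f x y + (c y - c x)`).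
* `Sm C f` (small class): some representative of the class of `f` has at most `C n^{2-1/50}` nonzero edges.
* `sm_of_ncd`: if the number `ncd f` of (ordered) triples with nonzero curvature is at most `C κ n³`, some `x` has at most
  `C κ n² = C n^{2-1/50}` pairs `(y,z)` with `cur f x y z ≠ 0`; the representative
  `f' = f + cob c`, `c y = - val f x y`: `val f' y z = cur f x y z`.
* `sm_pi`: representatives of the coordinates combine.
-/

set_option autoImplicit false

open Finset

namespace Pool.Agent.DH10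

noncomputable section

variable {n : ℕ} {G K : Type} [AddCommGroup G] [AddCommGroup K]

/-- composition with a homomorphism -/
def push (ψ : G →+ K) (f : Coch n G) : Coch n K := fun e => ψ (f e)

/-- coboundary -/
def IsCob (f : Coch n G) : Prop := ∃ c : Fin n → G, f = cob c

/-- all nontrivial characters are uniform -/
def AllUnif (f : Coch n G) : Prop := ∀ χ : AddChar G ℂ, χ ≠ 1 → Unif χ f

section
variable [DecidableEq G] [DecidableEq K]

/-- number of ordered triples with nonzero curvature -/
def ncd (f : Coch n G) : ℕ :=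
  (univ.filter fun p : Fin n × Fin n × Fin n => cur f p.1 p.2.1 p.2.2 ≠ 0).card

/-- small class -/
def Sm (C : ℝ) (f : Coch n G) : Prop :=
  ∃ c : Fin n → G, ((suppE (f + cob c)).card : ℝ) ≤ C * (n : ℝ) ^ (2 - 1 / 50 : ℝ)

end

theorem val_push (ψ : G →+ K) (f : Coch n G) (x y : Fin n) : val (push ψ f) x y = ψ (val f x y) := by
  unfold val push
  split_ifs with h h'
  · rfl
  · rw [map_neg]
  · rw [map_zero]

theorem cur_push (ψ : G →+ K) (f : Coch n G) (x y z : Fin n) :
    cur (push ψ f) x y z = ψ (cur f x y z) := by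
  unfold cur
  rw [val_push, val_push, val_push, map_add, map_add]

theorem Z_push [DecidableEq G] [DecidableEq K] (ψ : G →+ K) (f : Coch n G) : Z f ⊆ Z (push ψ f) := by
  intro t ht
  unfold Z at ht ⊢
  rw [mem_filter] at ht ⊢
  refine ⟨mem_univ _, ?_⟩
  have h := ht.2
  unfold curT at h ⊢
  rw [cur_push, h, map_zero]

private theorem push_val_add (f : Coch n G) (c : Fin n → G) (x y : Fin n) :
    val (f + cob c) x y = val f x y + (c y - c x) := by
  unfold val
  rcases lt_trichotomy x y with h | h | h
  · rw [dif_pos h, dif_pos h]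
    rfl
  · subst h
    simp
  · rw [dif_neg (not_lt.2 h.le), dif_pos h, dif_neg (not_lt.2 h.le), dif_pos h]
    change -(f _ + (c x - c y)) = -f _ + (c y - c x)
    abel

theorem cur_add_cob (f : Coch n G) (c : Fin n → G) (x y z : Fin n) :
    cur (f + cob c) x y z = cur f x y z := by
  unfold cur
  rw [push_val_add, push_val_add, push_val_add]
  abel

theorem Z_add_cob [DecidableEq G] (f : Coch n G) (c : Fin n → G) : Z (f + cob c) = Z f := by
  unfold Z curT
  simp only [cur_add_cob]

theorem w_add_cob [DecidableEq G] (f : Coch n G) (c : Fin n → G) : w (f + cob c) = w f := by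
  unfold w
  rw [Z_add_cob]

private theorem push_val_edge (f : Coch n G) (e : Edg n) : val f e.1.1 e.1.2 = f e := by
  unfold val
  rw [dif_pos e.2]

theorem isCob_iff (f : Coch n G) : IsCob f ↔ ∀ x y z, cur f x y z = 0 := by
  constructor
  · rintro ⟨c, rfl⟩ x y z
    have h := cur_add_cob (0 : Coch n G) c x y z
    rw [zero_add] at h
    rw [h]
    simp [cur, val]
  · intro h
    rcases Nat.eq_zero_or_pos n with h0 | h0
    · subst h0
      exact ⟨fun _ => 0, funext fun e => e.1.1.elim0⟩
    · refine ⟨fun y => val f ⟨0, h0⟩ y, funext fun e => ?_⟩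
      have h1 := h ⟨0, h0⟩ e.1.1 e.1.2
      unfold cur at h1
      rw [push_val_edge, val_neg f ⟨0, h0⟩ e.1.2] at h1
      change f e = val f ⟨0, h0⟩ e.1.2 - val f ⟨0, h0⟩ e.1.1
      have h2 : f e = -(val f ⟨0, h0⟩ e.1.1 + -val f ⟨0, h0⟩ e.1.2) := by
        rw [eq_neg_iff_add_eq_zero, ← h1]
        abel
      rw [h2]
      abel

open Classical in
theorem card_cob (hn : 1 ≤ n) [Fintype G] :
    (univ.filter fun f : Coch n G => IsCob f).card ≤ Fintype.card G ^ (n - 1) := by
  obtain ⟨m, rfl⟩ : ∃ m, n = m + 1 := ⟨n - 1, by omega⟩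
  have hsub : (univ.filter fun f : Coch (m + 1) G => IsCob f) ⊆
      univ.image fun c : Fin m → G => cob (Fin.cons 0 c : Fin (m + 1) → G) := by
    intro f hf
    rw [mem_filter] at hf
    obtain ⟨c, rfl⟩ := hf.2
    rw [mem_image]
    refine ⟨fun i => c i.succ - c 0, mem_univ _, ?_⟩
    have h1 : ∀ y : Fin (m + 1),
        (Fin.cons 0 (fun i : Fin m => c i.succ - c 0) : Fin (m + 1) → G) y = c y - c 0 := by
      intro y
      refine Fin.cases ?_ (fun i => ?_) y
      · simp
      · simp
    funext e
    unfold cob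
    rw [h1, h1]
    abel
  refine (card_le_card hsub).trans (card_image_le.trans (le_of_eq ?_))
  rw [Finset.card_univ, Fintype.card_fun, Fintype.card_fin, Nat.add_sub_cancel]

theorem sm_of_ncd [DecidableEq G] (hn : 1 ≤ n) (C : ℝ) (f : Coch n G)
    (h : (ncd f : ℝ) ≤ C * kap n * (n : ℝ) ^ 3) : Sm C f := by
  have hn0 : (0 : ℝ) < n := by exact_mod_cast hn
  -- the number of pairs at a vertex
  let N : Fin n → ℕ := fun x => (univ.filter fun p : Fin n × Fin n => cur f x p.1 p.2 ≠ 0).card
  have hsum : ncd f = ∑ x, N x := by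
    unfold ncd
    simp only [N, Finset.card_filter]
    rw [Fintype.sum_prod_type]
  obtain ⟨x, hx⟩ : ∃ x, (N x : ℝ) ≤ C * kap n * (n : ℝ) ^ 2 := by
    by_contra hcon
    push Not at hcon
    have h1 : ∑ _x : Fin n, C * kap n * (n : ℝ) ^ 2 < ∑ x : Fin n, (N x : ℝ) :=
      Finset.sum_lt_sum_of_nonempty ⟨⟨0, hn⟩, mem_univ _⟩ fun x _ => hcon x
    rw [Finset.sum_const, Finset.card_univ, Fintype.card_fin, nsmul_eq_mul] at h1
    rw [hsum] at h
    push_cast at h
    nlinarith
  refine ⟨fun y => -val f x y, ?_⟩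
  have hv : ∀ e : Edg n, (f + cob fun y => -val f x y) e = cur f x e.1.1 e.1.2 := by
    intro e
    rw [← push_val_edge (f + cob fun y => -val f x y) e, push_val_add]
    unfold cur
    rw [val_neg f x e.1.2]
    abel
  have hc : (suppE (f + cob fun y => -val f x y)).card ≤ N x := by
    refine Finset.card_le_card_of_injOn (fun e => e.1) (fun e he => ?_)
      (fun e _ e' _ h => Subtype.ext h)
    simp only [suppE, coe_filter, mem_univ, true_and, Set.mem_ofPred_eq] at he ⊢
    rw [← hv e]
    exact he
  have hk : C * kap n * (n : ℝ) ^ 2 = C * (n : ℝ) ^ (2 - 1 / 50 : ℝ) := by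
    unfold kap
    rw [mul_assoc, ← Real.rpow_natCast, ← Real.rpow_add hn0]
    congr 2
    norm_num
  rw [← hk]
  exact le_trans (by exact_mod_cast hc) hx

theorem sm_pi [DecidableEq G] {l : ℕ} (C : ℝ) (F : Coch n (Fin l → G))
    (h : ∀ i, Sm C (push (Pi.evalAddMonoidHom (fun _ : Fin l => G) i) F)) : Sm (l * C) F := by
  choose c hc using h
  refine ⟨fun y i => c i y, ?_⟩
  have hsub : suppE (F + cob fun y i => c i y) ⊆ univ.biUnion fun i : Fin l =>
      suppE (push (Pi.evalAddMonoidHom (fun _ : Fin l => G) i) F + cob (c i)) := by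
    intro e he
    simp only [suppE, mem_filter, mem_univ, true_and] at he
    obtain ⟨i, hi⟩ := Function.ne_iff.1 he
    simp only [mem_biUnion, mem_univ, true_and, suppE, mem_filter]
    exact ⟨i, hi⟩
  calc ((suppE (F + cob fun y i => c i y)).card : ℝ) ≤
      ((∑ i : Fin l, (suppE (push (Pi.evalAddMonoidHom (fun _ : Fin l => G) i) F +
        cob (c i))).card : ℕ) : ℝ) := by
        exact_mod_cast (card_le_card hsub).trans card_biUnion_le
    _ = ∑ i : Fin l, ((suppE (push (Pi.evalAddMonoidHom (fun _ : Fin l => G) i) F +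
        cob (c i))).card : ℝ) := by push_cast; rfl
    _ ≤ ∑ _i : Fin l, C * (n : ℝ) ^ (2 - 1 / 50 : ℝ) := Finset.sum_le_sum fun i _ => hc i
    _ = l * C * (n : ℝ) ^ (2 - 1 / 50 : ℝ) := by
        rw [Finset.sum_const, Finset.card_univ, Fintype.card_fin, nsmul_eq_mul]
        ring

end

end Pool.Agent.DH10
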