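import Pool.Agent.DH10.CycP
import Pool.Agent.DH10.Push

/-!
# DH10.NotST : few cocycles on `R` are not of surjective type (6.5)

Assume the only `F_p`-cycle on `R` is `1`, `k = NN n - |R|`, `q = |G|`.  `card_ZR`: `|Z¹(R;G)| = q^{n-1+k}`
(`card_cocycles_fourier`, `cyc_trivial`, `card_Edg`; `|R| ≤ NN n`).
If `R ⊆ Z f` and not `ST f`, the values of the curvature generate a proper subgroup, so (`exists_psi`) some
`ψ : G → ZMod p` onto kills them: `push ψ f` is a coboundary (`isCob_iff`, `cur_push`).  For fixed `ψ`: write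
`push ψ f = cob c` with `c r = 0`, lift `c` to `c~ : Fin n → G` (fixed lift, `ψ ∘ c~ = c`, `c~ r = 0`);
`f - cob c~` is a cochain with values in the group `ker ψ` (of order `q/p`), closed on `R`.  So `f` is determined by `c`
(`p^{n-1}` choices) and an element of `Z¹(R; ker ψ)`, and `|Z¹(R; ker ψ)| = (q/p)^{n-1+k}` (`card_ZR` for `ker ψ`, a
`p`-group).  Product: `q^{n-1+k}/p^k = |Z¹(R;G)|/p^k`.
-/

set_option autoImplicit false

open Finset

namespace Pool.Agent.DH10

noncomputable section

variable {n : ℕ}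

theorem card_ZR (hn : 3 ≤ n) (p : ℕ) [Fact p.Prime] (G : Type) [AddCommGroup G] [Fintype G]
    [DecidableEq G] (hG : IsP p G) (R : Finset (Tri n)) (hR : R.card ≤ NN n)
    (h : (cycIn (ZMod p) R).card = 1) :
    (univ.filter fun f : Coch n G => R ⊆ Z f).card = Fintype.card G ^ (n - 1 + (NN n - R.card)) := by
  have h1 := card_cocycles_fourier (n := n) (G := G) R
  rw [cyc_trivial p G hG R h, mul_one, card_Edg (by omega)] at h1
  have hq : 0 < Fintype.card G := Fintype.card_pos
  have h2 : NN n + (n - 1) = R.card + (n - 1 + (NN n - R.card)) := by omega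
  rw [h2, pow_add] at h1
  exact Nat.eq_of_mul_eq_mul_left (pow_pos hq _) h1

private theorem nst_val_sub {G : Type} [AddCommGroup G] (f g : Coch n G) (x y : Fin n) :
    val (f - g) x y = val f x y - val g x y := by
  unfold val
  split_ifs
  · rfl
  · simp only [Pi.sub_apply]
    abel
  · simp

private theorem nst_curT_sub {G : Type} [AddCommGroup G] (f g : Coch n G) (t : Tri n) :
    curT (f - g) t = curT f t - curT g t := by
  unfold curT cur
  rw [nst_val_sub, nst_val_sub, nst_val_sub]
  abel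

private theorem nst_isP_ker {p : ℕ} {G K : Type} [AddCommGroup G] [AddCommGroup K] (hG : IsP p G)
    (ψ : G →+ K) : IsP p ψ.ker := by
  intro a
  obtain ⟨k, hk⟩ := hG a.1
  refine ⟨k, ?_⟩
  apply Subtype.ext
  rw [AddSubgroup.coe_nsmul, hk]
  rfl

private theorem nst_card_ker {p : ℕ} [Fact p.Prime] {G : Type} [AddCommGroup G] [Fintype G]
    (ψ : G →+ ZMod p) (hψ : Function.Surjective ψ) [Fintype ψ.ker] :
    Fintype.card G = p * Fintype.card ψ.ker := by
  have h1 := AddSubgroup.card_eq_card_quotient_mul_card_addSubgroup ψ.ker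
  rw [Nat.card_congr (QuotientAddGroup.quotientKerEquivOfSurjective ψ hψ).toEquiv] at h1
  rw [Nat.card_eq_fintype_card, Nat.card_eq_fintype_card, Nat.card_eq_fintype_card, ZMod.card] at h1
  exact h1

open Classical in
private theorem nst_fiber (p : ℕ) [Fact p.Prime] (G : Type) [AddCommGroup G] [Fintype G] [DecidableEq G]
    (ψ : G →+ ZMod p) (R : Finset (Tri n)) (f0 : Coch n G) (hf0 : R ⊆ Z f0) :
    (univ.filter fun f : Coch n G => R ⊆ Z f ∧ push ψ f = push ψ f0).card ≤
      (univ.filter fun g : Coch n ψ.ker => R ⊆ Z g).card := by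
  have hker : ∀ f : Coch n G, push ψ f = push ψ f0 → ∀ e, (f - f0) e ∈ ψ.ker := by
    intro f hf e
    rw [AddMonoidHom.mem_ker, Pi.sub_apply, map_sub, sub_eq_zero]
    exact congrFun hf e
  refine Finset.card_le_card_of_injOn
    (fun f => fun e => if h : (f - f0) e ∈ ψ.ker then ⟨(f - f0) e, h⟩ else 0) ?_ ?_
  · intro f hf
    simp only [coe_filter, mem_univ, true_and, Set.mem_ofPred_eq] at hf ⊢
    intro t ht
    have hk := hker f hf.2
    have hZ : curT (f - f0) t = 0 := by
      have a1 := hf.1 ht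
      have a2 := hf0 ht
      unfold Z at a1 a2
      rw [mem_filter] at a1 a2
      rw [nst_curT_sub, a1.2, a2.2, sub_zero]
    unfold Z
    rw [mem_filter]
    refine ⟨mem_univ _, ?_⟩
    have hpush : push ψ.ker.subtype
        (fun e => if h : (f - f0) e ∈ ψ.ker then (⟨(f - f0) e, h⟩ : ψ.ker) else 0) = f - f0 := by
      funext e
      change ψ.ker.subtype (if h : (f - f0) e ∈ ψ.ker then (⟨(f - f0) e, h⟩ : ψ.ker) else 0)
        = (f - f0) e
      rw [dif_pos (hk e)]
      rfl
    have hc : ψ.ker.subtype (curT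
        (fun e => if h : (f - f0) e ∈ ψ.ker then (⟨(f - f0) e, h⟩ : ψ.ker) else 0) t) = 0 := by
      unfold curT at hZ ⊢
      rw [← cur_push, hpush, hZ]
    exact Subtype.ext hc
  · intro f hf g hg hfg
    simp only [coe_filter, mem_univ, true_and, Set.mem_ofPred_eq] at hf hg
    funext e
    have h1 := congrFun hfg e
    simp only [dif_pos (hker f hf.2 e), dif_pos (hker g hg.2 e)] at h1
    have h2 := congrArg Subtype.val h1
    simp only [Pi.sub_apply] at h2
    exact sub_left_injective h2

open Classical in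
private theorem nst_psi (hn : 3 ≤ n) (p : ℕ) [Fact p.Prime] (G : Type) [AddCommGroup G] [Fintype G] [DecidableEq G]
    (hG : IsP p G) (R : Finset (Tri n)) (hR : R.card ≤ NN n)
    (h : (cycIn (ZMod p) R).card = 1) (ψ : G →+ ZMod p) (hψ : Function.Surjective ψ) :
    (univ.filter fun f : Coch n G => R ⊆ Z f ∧ ∀ x y z, ψ (cur f x y z) = 0).card *
      p ^ (NN n - R.card) ≤ (univ.filter fun f : Coch n G => R ⊆ Z f).card := by
  have hK := card_ZR hn p ψ.ker (nst_isP_ker hG ψ) R hR h
  have hM := card_ZR hn p G hG R hR h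
  have h1 : (univ.filter fun f : Coch n G => R ⊆ Z f ∧ ∀ x y z, ψ (cur f x y z) = 0).card ≤
      (univ.filter fun g : Coch n ψ.ker => R ⊆ Z g).card *
      ((univ.filter fun f : Coch n G => R ⊆ Z f ∧ ∀ x y z, ψ (cur f x y z) = 0).image
        (push ψ)).card := by
    apply Finset.card_le_mul_card_image
    intro a ha
    obtain ⟨f0, hf0, rfl⟩ := mem_image.1 ha
    rw [mem_filter] at hf0
    refine le_trans (card_le_card ?_) (nst_fiber p G ψ R f0 hf0.2.1)
    intro f hf
    simp only [mem_filter, mem_univ, true_and] at hf ⊢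
    exact ⟨hf.1.1, hf.2⟩
  have h2 : ((univ.filter fun f : Coch n G => R ⊆ Z f ∧ ∀ x y z, ψ (cur f x y z) = 0).image
        (push ψ)).card ≤ p ^ (n - 1) := by
    have h3 := card_cob (n := n) (G := ZMod p) (by omega)
    rw [ZMod.card] at h3
    refine le_trans (card_le_card ?_) h3
    intro a ha
    obtain ⟨f, hf, rfl⟩ := mem_image.1 ha
    rw [mem_filter] at hf
    rw [mem_filter]
    refine ⟨mem_univ _, ?_⟩
    rw [isCob_iff]
    intro x y z
    rw [cur_push]
    exact hf.2.2 x y z
  rw [hK] at h1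
  rw [hM, nst_card_ker ψ hψ, mul_pow, pow_add p]
  calc _ ≤ (Fintype.card ψ.ker ^ (n - 1 + (NN n - R.card)) * p ^ (n - 1)) * p ^ (NN n - R.card) :=
        Nat.mul_le_mul_right _ (h1.trans (Nat.mul_le_mul_left _ h2))
    _ = _ := by ring

open Classical in
theorem card_notST (hn : 3 ≤ n) (p : ℕ) [Fact p.Prime] (G : Type) [AddCommGroup G] [Fintype G]
    [DecidableEq G] (hG : IsP p G) (R : Finset (Tri n)) (hR : R.card ≤ NN n)
    (h : (cycIn (ZMod p) R).card = 1) :
    (univ.filter fun f : Coch n G => R ⊆ Z f ∧ ¬ ST f).card * p ^ (NN n - R.card)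
      ≤ Nat.card (G →+ ZMod p) * (univ.filter fun f : Coch n G => R ⊆ Z f).card := by
  have : Finite (G →+ ZMod p) := DFunLike.finite _
  have : Fintype (G →+ ZMod p) := Fintype.ofFinite _
  have hsub : (univ.filter fun f : Coch n G => R ⊆ Z f ∧ ¬ ST f) ⊆
      (univ.filter fun ψ : G →+ ZMod p => Function.Surjective ψ).biUnion fun ψ =>
        univ.filter fun f : Coch n G => R ⊆ Z f ∧ ∀ x y z, ψ (cur f x y z) = 0 := by
    intro f hf
    simp only [mem_filter, mem_univ, true_and, mem_biUnion] at hf ⊢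
    obtain ⟨ψ, hs, hk⟩ := exists_psi p G hG _ hf.2
    refine ⟨ψ, hs, hf.1, fun x y z => ?_⟩
    exact AddMonoidHom.mem_ker.1 (hk (AddSubgroup.subset_closure ⟨(x, y, z), rfl⟩))
  have h1 := (card_le_card hsub).trans card_biUnion_le
  calc (univ.filter fun f : Coch n G => R ⊆ Z f ∧ ¬ ST f).card * p ^ (NN n - R.card) ≤
      (∑ ψ ∈ univ.filter (fun ψ : G →+ ZMod p => Function.Surjective ψ),
        (univ.filter fun f : Coch n G => R ⊆ Z f ∧ ∀ x y z, ψ (cur f x y z) = 0).card) *
        p ^ (NN n - R.card) := Nat.mul_le_mul_right _ h1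
    _ = ∑ ψ ∈ univ.filter (fun ψ : G →+ ZMod p => Function.Surjective ψ),
        (univ.filter fun f : Coch n G => R ⊆ Z f ∧ ∀ x y z, ψ (cur f x y z) = 0).card *
        p ^ (NN n - R.card) := Finset.sum_mul _ _ _
    _ ≤ ∑ ψ ∈ univ.filter (fun ψ : G →+ ZMod p => Function.Surjective ψ),
        (univ.filter fun f : Coch n G => R ⊆ Z f).card := by
        refine Finset.sum_le_sum fun ψ hψ => ?_
        have h2 := nst_psi hn p G hG R hR h ψ (mem_filter.1 hψ).2
        convert h2 using 2
    _ = (univ.filter fun ψ : G →+ ZMod p => Function.Surjective ψ).card *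
        (univ.filter fun f : Coch n G => R ⊆ Z f).card := by
        rw [Finset.sum_const, smul_eq_mul]
    _ ≤ _ := by
        refine Nat.mul_le_mul_right _ ?_
        rw [Nat.card_eq_fintype_card]
        exact card_le_univ _

end

end Pool.Agent.DH10
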