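import Pool.Agent.DH10.PsiDefs
import Pool.Agent.DH10.NotST

/-!
# DH10.LowerR : the lower bound for a fixed good `R` (6.5)

`k = NN n - |R|` (`|R| ≤ NN n` since `PS R > 0`), `B` from `cond_kernel`, `Y_f = B diag(gg f) Bᵀ` (symmetric),
`1 + Y_f = q B diag(1_{Z f}) Bᵀ` (`B Bᵀ = 1`).  For `f` with `R ⊆ Z f`:
`∑_{S : R ⊆ S ⊆ Z f} W S = PS R det(B diag(1_{Z f}) Bᵀ) = PS R q^{-k} det(1 + Y_f) ≥ 0` (`x = 1_{Z f}` in `cond_kernel`).
If `(tr Y_f)² + ∑ Y_ij² ≤ ε²` then `det(1 + Y_f) ≥ exp(-ε - ε²)` (`det_one_add_lower`, `ε² ≤ 1/4`).  The number of `f ∈ Z¹(R)`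
with `(tr Y_f)² + ∑ Y_ij² > ε²` is at most `ε^{-2}` times the left side of `second_moments` (`cyc_trivial`), and
`PS R ∑_{t,t'} |B_t|² |B_t'|² cnt ≤ (3/n) ∑_{t,t'∉R} PS(insert t R) cnt = PsiR G R` (`|B_t'|² ≤ 3/n`,
`PS R |B_t|² = PS (insert t R)`, `B_t = 0` on `R`).  The number of `f ∈ Z¹(R)` with not `ST f` is `≤ #Hom(G,F_p) |Z¹(R)|/p^k`
(`card_notST`), `|Z¹(R)| = q^{n-1+k}` (`card_ZR`).
-/

set_option autoImplicit false

open Finset

namespace Pool.Agent.DH10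

noncomputable section

variable {n : ℕ}

private theorem lr_quad {k : ℕ} (B : Matrix (Fin k) (Tri n) ℝ) (x : Tri n → ℝ) (i j : Fin k) :
    (B * Matrix.diagonal x * B.transpose) i j = ∑ t, B i t * x t * B j t := by
  rw [Matrix.mul_apply]
  refine Finset.sum_congr rfl fun t _ => ?_
  rw [Matrix.mul_diagonal, Matrix.transpose_apply]

private theorem lr_symm {k : ℕ} (B : Matrix (Fin k) (Tri n) ℝ) (x : Tri n → ℝ) :
    (B * Matrix.diagonal x * B.transpose).transpose = B * Matrix.diagonal x * B.transpose := by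
  ext i j
  rw [Matrix.transpose_apply, lr_quad, lr_quad]
  refine Finset.sum_congr rfl fun t _ => ?_
  ring

private theorem lr_one_add {G : Type} [AddCommGroup G] [Fintype G] [DecidableEq G] {k : ℕ}
    (B : Matrix (Fin k) (Tri n) ℝ) (hB : B * B.transpose = 1) (f : Coch n G) :
    1 + B * Matrix.diagonal (gg f) * B.transpose =
      (Fintype.card G : ℝ) • (B * Matrix.diagonal (fun t => if t ∈ Z f then (1 : ℝ) else 0) *
        B.transpose) := by
  rw [← hB]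
  ext i j
  rw [Matrix.add_apply, Matrix.smul_apply, lr_quad, lr_quad, Matrix.mul_apply, ← Finset.sum_add_distrib,
    smul_eq_mul, Finset.mul_sum]
  refine Finset.sum_congr rfl fun t _ => ?_
  rw [Matrix.transpose_apply]
  unfold gg
  split_ifs <;> ring

private theorem lr_card {R : Finset (Tri n)} (hR : 0 < PS R) : R.card ≤ NN n := by
  by_contra hcon
  have h0 : PS R = 0 := by
    unfold PS
    refine Finset.sum_eq_zero fun S hS => ?_
    exfalso
    obtain ⟨h1, h2⟩ := Finset.mem_filter.mp hS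
    have h3 : S.card = NN n := (Finset.mem_powersetCard.mp h1).2
    have h4 := Finset.card_le_card h2
    omega
  rw [h0] at hR
  exact lt_irrefl _ hR

private theorem lr_inner {G : Type} [AddCommGroup G] [Fintype G] [DecidableEq G]
    {R : Finset (Tri n)} {k : ℕ} {B : Matrix (Fin k) (Tri n) ℝ}
    (hx : ∀ x : Tri n → ℝ, ∑ S ∈ (cand n).filter (fun S => R ⊆ S), W S * ∏ t ∈ S \ R, x t =
        PS R * (B * Matrix.diagonal x * B.transpose).det)
    {f : Coch n G} (hf : R ⊆ Z f) :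
    ∑ S ∈ (cand n).filter (fun S => R ⊆ S ∧ S ⊆ Z f), W S =
      PS R * (B * Matrix.diagonal (fun t => if t ∈ Z f then (1 : ℝ) else 0) *
        B.transpose).det := by
  rw [← hx, ← Finset.filter_filter, Finset.sum_filter]
  refine Finset.sum_congr rfl fun S _ => ?_
  by_cases hS : S ⊆ Z f
  · rw [if_pos hS, Finset.prod_eq_one, mul_one]
    intro t ht
    rw [if_pos (hS (Finset.mem_sdiff.mp ht).1)]
  · rw [if_neg hS]
    obtain ⟨t, htS, htZ⟩ := Finset.not_subset.mp hS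
    have htR : t ∉ R := fun h => htZ (hf h)
    rw [Finset.prod_eq_zero (Finset.mem_sdiff.mpr ⟨htS, htR⟩) (if_neg htZ), mul_zero]

private theorem lr_psi {G : Type} [AddCommGroup G] [Fintype G]
    {R : Finset (Tri n)} {k : ℕ} {B : Matrix (Fin k) (Tri n) ℝ}
    (hR : 0 ≤ PS R) (h0 : ∀ t ∈ R, ∀ i, B i t = 0) (h3 : ∀ t, ∑ i, B i t ^ 2 ≤ 3 / n)
    (hi : ∀ t ∉ R, PS (insert t R) = PS R * ∑ i, B i t ^ 2) :
    PS R * ∑ t, ∑ t', (∑ i, B i t ^ 2) * (∑ i, B i t' ^ 2) * (cnt G R t t' : ℝ) ≤ PsiR G R := by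
  have hz : ∀ t ∈ R, ∑ i, B i t ^ 2 = 0 := fun t ht =>
    Finset.sum_eq_zero fun i _ => by rw [h0 t ht i]; norm_num
  have hnn : ∀ t, 0 ≤ ∑ i, B i t ^ 2 := fun t => Finset.sum_nonneg fun i _ => sq_nonneg _
  have h1 : ∑ t, ∑ t', (∑ i, B i t ^ 2) * (∑ i, B i t' ^ 2) * (cnt G R t t' : ℝ) =
      ∑ t ∈ Rᶜ, ∑ t' ∈ Rᶜ, (∑ i, B i t ^ 2) * (∑ i, B i t' ^ 2) * (cnt G R t t' : ℝ) := by
    rw [← Finset.sum_subset (Finset.subset_univ Rᶜ)]
    · refine Finset.sum_congr rfl fun t _ => ?_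
      rw [← Finset.sum_subset (Finset.subset_univ Rᶜ)]
      intro t' _ ht'
      have : t' ∈ R := by simpa using ht'
      rw [hz t' this]
      ring
    · intro t _ ht
      have : t ∈ R := by simpa using ht
      refine Finset.sum_eq_zero fun t' _ => ?_
      rw [hz t this]
      ring
  rw [h1]
  unfold PsiR
  rw [Finset.mul_sum, Finset.mul_sum]
  refine Finset.sum_le_sum fun t ht => ?_
  rw [Finset.mul_sum, Finset.mul_sum]
  refine Finset.sum_le_sum fun t' _ => ?_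
  have htR : t ∉ R := by simpa using ht
  rw [hi t htR]
  have hc : 0 ≤ (cnt G R t t' : ℝ) * (PS R * ∑ i, B i t ^ 2) :=
    mul_nonneg (Nat.cast_nonneg _) (mul_nonneg hR (hnn t))
  calc PS R * ((∑ i, B i t ^ 2) * (∑ i, B i t' ^ 2) * (cnt G R t t' : ℝ))
      = (∑ i, B i t' ^ 2) * ((cnt G R t t' : ℝ) * (PS R * ∑ i, B i t ^ 2)) := by ring
    _ ≤ 3 / n * ((cnt G R t t' : ℝ) * (PS R * ∑ i, B i t ^ 2)) :=
        mul_le_mul_of_nonneg_right (h3 t') hc

private theorem lr_det {k : ℕ} {Y : Matrix (Fin k) (Fin k) ℝ} (hY : Y.transpose = Y) {ε : ℝ}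
    (h0 : 0 < ε) (h1 : ε ≤ 1 / 2) (h : Y.trace ^ 2 + ∑ i, ∑ j, Y i j ^ 2 ≤ ε ^ 2) :
    Real.exp (-ε - ε ^ 2) ≤ (1 + Y).det := by
  have hs : 0 ≤ ∑ i, ∑ j, Y i j ^ 2 :=
    Finset.sum_nonneg fun i _ => Finset.sum_nonneg fun j _ => sq_nonneg _
  have h2 : ∑ i, ∑ j, Y i j ^ 2 ≤ ε ^ 2 := by nlinarith [sq_nonneg Y.trace]
  have h3 : Y.trace ^ 2 ≤ ε ^ 2 := by linarith
  have h4 : -ε ≤ Y.trace := (abs_le.mp (abs_le_of_sq_le_sq' h3 h0.le |> abs_le.mpr)).1
  have h5 : ∑ i, ∑ j, Y i j ^ 2 ≤ 1 / 4 := by nlinarith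
  refine le_trans (Real.exp_le_exp.mpr ?_) (det_one_add_lower hY h5)
  linarith

open Classical in
theorem lower_R (hn : 3 ≤ n) (p : ℕ) [Fact p.Prime] (G : Type) [AddCommGroup G] [Fintype G]
    [DecidableEq G] (hG : IsP p G) (R : Finset (Tri n)) (h : (cycIn (ZMod p) R).card = 1)
    (hR : 0 < PS R) {ε : ℝ} (h0 : 0 < ε) (h1 : ε ≤ 1 / 2) :
    (Fintype.card G : ℝ) ^ (n - 1) * Real.exp (-ε - ε ^ 2) *
        (PS R * (1 - (Nat.card (G →+ ZMod p) : ℝ) / (p : ℝ) ^ (NN n - R.card)) -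
          2 / ε ^ 2 * PsiR G R)
      ≤ ∑ f ∈ univ.filter (fun f : Coch n G => ST f ∧ R ⊆ Z f),
          ∑ S ∈ (cand n).filter (fun S => R ⊆ S ∧ S ⊆ Z f), W S := by
  have hcyc : (cycIn G R).card = 1 := cyc_trivial p G hG R h
  have hRcard : R.card ≤ NN n := lr_card hR
  obtain ⟨B, hBB, hB0, hB3, hBx, hBi⟩ := cond_kernel hn R hR
  have hq0 : (0 : ℝ) < (Fintype.card G : ℝ) := by
    have : 0 < Fintype.card G := Fintype.card_pos
    exact_mod_cast this
  have hp0 : (0 : ℝ) < (p : ℝ) := by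
    have : 0 < p := (Fact.out : p.Prime).pos
    exact_mod_cast this
  set ZR : Finset (Coch n G) := univ.filter (fun f : Coch n G => R ⊆ Z f) with hZR
  have hZcard : (ZR.card : ℝ) =
      (Fintype.card G : ℝ) ^ (n - 1) * (Fintype.card G : ℝ) ^ (NN n - R.card) := by
    rw [hZR, card_ZR hn p G hG R hRcard h, ← pow_add]
    push_cast
    rfl
  have hnST := card_notST hn p G hG R hRcard h
  have hmom := second_moments (G := G) R hcyc B
  have hpsi := lr_psi (G := G) hR.le hB0 hB3 hBi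
  -- abbreviations
  set q : ℝ := (Fintype.card G : ℝ) with hq
  set M : ℝ := ∑ t, ∑ t', (∑ i, B i t ^ 2) * (∑ i, B i t' ^ 2) * (cnt G R t t' : ℝ) with hM
  set F : Coch n G → ℝ := fun f =>
    (B * Matrix.diagonal (gg f) * B.transpose).trace ^ 2 +
      ∑ i, ∑ j, (B * Matrix.diagonal (gg f) * B.transpose) i j ^ 2 with hF
  have hF0 : ∀ f, 0 ≤ F f := fun f => add_nonneg (sq_nonneg _)
    (Finset.sum_nonneg fun i _ => Finset.sum_nonneg fun j _ => sq_nonneg _)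
  -- bad cochains
  have hbad : ((ZR.filter (fun f => ε ^ 2 < F f)).card : ℝ) * ε ^ 2 ≤ 2 * (ZR.card : ℝ) * M := by
    calc ((ZR.filter (fun f => ε ^ 2 < F f)).card : ℝ) * ε ^ 2
        = ∑ f ∈ ZR.filter (fun f => ε ^ 2 < F f), ε ^ 2 := by
          rw [Finset.sum_const, nsmul_eq_mul]
      _ ≤ ∑ f ∈ ZR.filter (fun f => ε ^ 2 < F f), F f :=
          Finset.sum_le_sum fun f hf => (Finset.mem_filter.mp hf).2.le
      _ ≤ ∑ f ∈ ZR, F f :=
          Finset.sum_le_sum_of_subset_of_nonneg (Finset.filter_subset _ _) fun f _ _ => hF0 f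
      _ ≤ 2 * (ZR.card : ℝ) * M := hmom
  have hST : ((ZR.filter (fun f => ¬ ST f)).card : ℝ) * (p : ℝ) ^ (NN n - R.card) ≤
      (Nat.card (G →+ ZMod p) : ℝ) * (ZR.card : ℝ) := by
    have h2 : ZR.filter (fun f => ¬ ST f) =
        univ.filter (fun f : Coch n G => R ⊆ Z f ∧ ¬ ST f) := by
      rw [hZR, Finset.filter_filter]
    rw [h2]
    exact_mod_cast hnST
  -- good cochains
  set Gd := ZR.filter (fun f => ST f ∧ ¬ ε ^ 2 < F f) with hGd
  have hcover : (ZR.card : ℝ) ≤ (Gd.card : ℝ) + ((ZR.filter (fun f => ¬ ST f)).card : ℝ) +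
      ((ZR.filter (fun f => ε ^ 2 < F f)).card : ℝ) := by
    have h2 : ZR ⊆ Gd ∪ ZR.filter (fun f => ¬ ST f) ∪ ZR.filter (fun f => ε ^ 2 < F f) := by
      intro f hf
      simp only [hGd, Finset.mem_union, Finset.mem_filter]
      tauto
    have h3 := (Finset.card_le_card h2).trans (Finset.card_union_le _ _)
    have h4 := Finset.card_union_le Gd (ZR.filter (fun f => ¬ ST f))
    have h5 : ZR.card ≤ Gd.card + (ZR.filter (fun f => ¬ ST f)).card +
        (ZR.filter (fun f => ε ^ 2 < F f)).card := by omega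
    exact_mod_cast h5
  have hgood : ∀ f ∈ Gd, PS R * (q ^ (NN n - R.card))⁻¹ * Real.exp (-ε - ε ^ 2) ≤
      ∑ S ∈ (cand n).filter (fun S => R ⊆ S ∧ S ⊆ Z f), W S := by
    intro f hf
    obtain ⟨hfZ, _, hfF⟩ := Finset.mem_filter.mp hf
    have hfR : R ⊆ Z f := (Finset.mem_filter.mp hfZ).2
    have h2 := lr_det (lr_symm B (gg f)) h0 h1 (not_lt.mp hfF)
    rw [lr_one_add B hBB f, Matrix.det_smul, Fintype.card_fin] at h2
    have h3 := lr_inner hBx hfR
    have h4 : 0 < q ^ (NN n - R.card) := pow_pos hq0 _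
    have h5 : ∑ S ∈ (cand n).filter (fun S => R ⊆ S ∧ S ⊆ Z f), W S = PS R *
        (B * Matrix.diagonal (fun t => if t ∈ Z f then (1 : ℝ) else 0) * B.transpose).det := by
      convert h3
    rw [h5, mul_assoc]
    refine mul_le_mul_of_nonneg_left ?_ hR.le
    rw [inv_mul_le_iff₀ h4]
    exact h2
  have hsum : (Gd.card : ℝ) * (PS R * (q ^ (NN n - R.card))⁻¹ * Real.exp (-ε - ε ^ 2)) ≤
      ∑ f ∈ univ.filter (fun f : Coch n G => ST f ∧ R ⊆ Z f),
          ∑ S ∈ (cand n).filter (fun S => R ⊆ S ∧ S ⊆ Z f), W S := by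
    calc (Gd.card : ℝ) * (PS R * (q ^ (NN n - R.card))⁻¹ * Real.exp (-ε - ε ^ 2))
        = ∑ f ∈ Gd, PS R * (q ^ (NN n - R.card))⁻¹ * Real.exp (-ε - ε ^ 2) := by
          rw [Finset.sum_const, nsmul_eq_mul]
      _ ≤ ∑ f ∈ Gd, ∑ S ∈ (cand n).filter (fun S => R ⊆ S ∧ S ⊆ Z f), W S :=
          Finset.sum_le_sum hgood
      _ ≤ _ := by
          refine Finset.sum_le_sum_of_subset_of_nonneg ?_ fun f _ _ =>
            Finset.sum_nonneg fun S _ => W_nonneg S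
          intro f hf
          obtain ⟨hfZ, hfS, _⟩ := Finset.mem_filter.mp hf
          exact Finset.mem_filter.mpr ⟨Finset.mem_univ _, hfS, (Finset.mem_filter.mp hfZ).2⟩
  refine le_trans ?_ hsum
  -- numerics
  have hqk : 0 < q ^ (NN n - R.card) := pow_pos hq0 _
  have hpk : 0 < (p : ℝ) ^ (NN n - R.card) := pow_pos hp0 _
  have hε2 : 0 < ε ^ 2 := by positivity
  have hb : ((ZR.filter (fun f => ε ^ 2 < F f)).card : ℝ) ≤ 2 / ε ^ 2 * (ZR.card : ℝ) * M := by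
    rw [← le_div_iff₀ hε2] at hbad
    refine hbad.trans (le_of_eq ?_)
    ring
  have hs : ((ZR.filter (fun f => ¬ ST f)).card : ℝ) ≤
      (Nat.card (G →+ ZMod p) : ℝ) / (p : ℝ) ^ (NN n - R.card) * (ZR.card : ℝ) := by
    rw [← le_div_iff₀ hpk] at hST
    refine hST.trans (le_of_eq ?_)
    ring
  have hGdlow : (ZR.card : ℝ) * (1 - (Nat.card (G →+ ZMod p) : ℝ) / (p : ℝ) ^ (NN n - R.card) -
      2 / ε ^ 2 * M) ≤ (Gd.card : ℝ) := by
    nlinarith
  have hE : 0 < Real.exp (-ε - ε ^ 2) := Real.exp_pos _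
  have hc : 0 ≤ PS R * (q ^ (NN n - R.card))⁻¹ * Real.exp (-ε - ε ^ 2) := by positivity
  calc q ^ (n - 1) * Real.exp (-ε - ε ^ 2) *
        (PS R * (1 - (Nat.card (G →+ ZMod p) : ℝ) / (p : ℝ) ^ (NN n - R.card)) -
          2 / ε ^ 2 * PsiR G R)
      ≤ q ^ (n - 1) * Real.exp (-ε - ε ^ 2) *
        (PS R * (1 - (Nat.card (G →+ ZMod p) : ℝ) / (p : ℝ) ^ (NN n - R.card)) -
          2 / ε ^ 2 * (PS R * M)) := by
        refine mul_le_mul_of_nonneg_left ?_ (by positivity)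
        have : 0 ≤ 2 / ε ^ 2 := by positivity
        have := mul_le_mul_of_nonneg_left hpsi this
        linarith
    _ = ((ZR.card : ℝ) * (1 - (Nat.card (G →+ ZMod p) : ℝ) / (p : ℝ) ^ (NN n - R.card) -
      2 / ε ^ 2 * M)) * (PS R * (q ^ (NN n - R.card))⁻¹ * Real.exp (-ε - ε ^ 2)) := by
        rw [hZcard]
        field_simp
    _ ≤ _ := mul_le_mul_of_nonneg_right hGdlow hc

end

end Pool.Agent.DH10
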