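import Mathlib
import Pool.Agent.Subspace.Compound

set_option autoImplicit false

open Finset

namespace Pool.Agent.DH10

/-- Cauchy-Binet for `A diag(w) Aᵀ`, arbitrary index types -/
theorem cauchyBinet_diag {m k : Type*} [Fintype m] [DecidableEq m] [Fintype k] [DecidableEq k]
    (A : Matrix m k ℝ) (w : k → ℝ) :
    (A * Matrix.diagonal w * A.transpose).det
      = ∑ C ∈ powersetCard (Fintype.card m) (univ : Finset k), (∏ c ∈ C, w c) *
          ((A.submatrix id (fun c : C => c.1)) * (A.submatrix id (fun c : C => c.1)).transpose).det := by
  classical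
  set e : m ≃ Fin (Fintype.card m) := Fintype.equivFin m with he
  set f : k ≃ Fin (Fintype.card k) := Fintype.equivFin k with hf
  set A' : Matrix (Fin (Fintype.card m)) (Fin (Fintype.card k)) ℝ := A.submatrix e.symm f.symm with hA'
  set w' : Fin (Fintype.card k) → ℝ := fun i => w (f.symm i) with hw'
  have h1 : (A * Matrix.diagonal w * A.transpose).det
      = ((A' * Matrix.diagonal w') * A'.transpose).det := by
    rw [← Matrix.det_submatrix_equiv_self e.symm (A * Matrix.diagonal w * A.transpose)]
    congr 1
    have h2 : A' * Matrix.diagonal w' = (A * Matrix.diagonal w).submatrix e.symm f.symm := by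
      ext i j
      simp [hA', hw', Matrix.mul_diagonal]
    rw [h2, hA', Matrix.transpose_submatrix, Matrix.submatrix_mul_equiv]
  rw [h1, SST.det_mul_rect]
  have h3 : ∀ L : Fin (Fintype.card m) ↪o Fin (Fintype.card k),
      ((A' * Matrix.diagonal w').submatrix id L).det * (A'.transpose.submatrix L id).det
        = (∏ i, w' (L i)) * ((A'.submatrix id L) * (A'.submatrix id L).transpose).det := by
    intro L
    have h4 : (A' * Matrix.diagonal w').submatrix id L
        = (A'.submatrix id L) * Matrix.diagonal (fun i => w' (L i)) := by
      ext i j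
      simp [Matrix.mul_diagonal]
    have h5 : A'.transpose.submatrix L id = (A'.submatrix id L).transpose := rfl
    rw [h4, h5, Matrix.det_mul, Matrix.det_mul, Matrix.det_diagonal, Matrix.det_transpose]
    ring
  rw [Finset.sum_congr rfl fun L _ => h3 L]
  refine Finset.sum_bij (fun L _ => univ.map (L.toEmbedding.trans f.symm.toEmbedding)) ?_ ?_ ?_ ?_
  · intro L _
    rw [mem_powersetCard]
    refine ⟨subset_univ _, ?_⟩
    rw [card_map, card_univ, Fintype.card_fin]
  · intro L _ L' _ h
    apply DFunLike.coe_injective
    apply (L.strictMono.range_inj L'.strictMono).1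
    have h5 := congrArg (fun s : Finset k => (s.map f.toEmbedding : Set (Fin (Fintype.card k)))) h
    have h6 : ∀ K : Fin (Fintype.card m) ↪o Fin (Fintype.card k),
        (((univ.map (K.toEmbedding.trans f.symm.toEmbedding)).map f.toEmbedding : Finset _) :
          Set (Fin (Fintype.card k))) = Set.range K := by
      intro K
      ext i
      simp
    simpa only [h6] using h5
  · intro C hC
    rw [mem_powersetCard] at hC
    have hC' : (C.map f.toEmbedding).card = Fintype.card m := by rw [card_map]; exact hC.2
    refine ⟨(C.map f.toEmbedding).orderEmbOfFin hC', mem_univ _, ?_⟩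
    apply Finset.coe_injective
    ext c
    simp only [coe_map, Function.Embedding.trans_apply, coe_univ, Set.image_univ, Set.mem_range,
      mem_coe]
    constructor
    · rintro ⟨i, rfl⟩
      have h7 := orderEmbOfFin_mem (C.map f.toEmbedding) hC' i
      rw [mem_map] at h7
      obtain ⟨c, hc, h8⟩ := h7
      have h9 : ((C.map f.toEmbedding).orderEmbOfFin hC').toEmbedding i = f c := h8.symm
      simp only [Equiv.coe_toEmbedding]
      rw [h9]
      simpa using hc
    · intro hc
      have h7 : f c ∈ Set.range ((C.map f.toEmbedding).orderEmbOfFin hC') := by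
        rw [range_orderEmbOfFin]
        simpa using hc
      obtain ⟨i, hi⟩ := h7
      refine ⟨i, ?_⟩
      show f.symm ((C.map f.toEmbedding).orderEmbOfFin hC' i) = c
      rw [hi]
      simp
  · intro L _
    have h5 : ∏ c ∈ univ.map (L.toEmbedding.trans f.symm.toEmbedding), w c = ∏ i, w' (L i) := by
      rw [prod_map]
      rfl
    rw [h5]
    congr 1
    set C : Finset k := univ.map (L.toEmbedding.trans f.symm.toEmbedding) with hC
    have hmem : ∀ i, f.symm (L i) ∈ C := by
      intro i
      rw [hC, mem_map]
      exact ⟨i, mem_univ _, rfl⟩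
    have hbij : Function.Bijective (fun i : Fin (Fintype.card m) => (⟨f.symm (L i), hmem i⟩ : C)) := by
      constructor
      · intro i j hij
        have := congrArg Subtype.val hij
        exact L.injective (f.symm.injective this)
      · rintro ⟨c, hc⟩
        rw [hC, mem_map] at hc
        obtain ⟨i, _, hi⟩ := hc
        exact ⟨i, Subtype.ext hi⟩
    set g : Fin (Fintype.card m) ≃ C := Equiv.ofBijective _ hbij with hg
    rw [← Matrix.det_submatrix_equiv_self e.symm
      ((A.submatrix id (fun c : C => c.1)) * (A.submatrix id (fun c : C => c.1)).transpose)]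
    congr 1
    have h6 : A'.submatrix id L = (A.submatrix id (fun c : C => c.1)).submatrix e.symm g := by
      ext i j
      rfl
    rw [h6, Matrix.transpose_submatrix, Matrix.submatrix_mul_equiv]

end Pool.Agent.DH10
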