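import Pool.Agent.DH10.MinorDet

/-!
# DH10.MinorGen : weighted version of the bordered determinant

`det (dr drᵀ + D diag(x) Dᵀ) = n^{2(n-2)} det (B diag(x) Bᵀ)` for all weights `x`, where `B` has rows the edges
not containing the last vertex and columns all triangles.
-/

set_option autoImplicit false

open Finset

namespace Pool.Agent.DH10.Gen

noncomputable section

variable {n : ℕ}

/-- boundary matrix, rows the edges not containing the last vertex, all triangles -/
def Bw (n : ℕ) : Matrix (NSE n) (Tri n) ℝ := Matrix.of fun e t => (D2 e.1 t : ℝ)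

/-- the vertices other than the last one -/
abbrev Pv (n : ℕ) := {v : Fin n // (v : ℕ) ≠ n - 1}

/-- star edges and the others -/
def edgSplit (n : ℕ) (hn : 1 ≤ n) : Pv n ⊕ NSE n ≃ Edg n where
  toFun := Sum.elim (fun v => ⟨(v.1, ⟨n - 1, by omega⟩), by
    rw [Fin.lt_def]
    have h1 := v.2
    have h2 := v.1.2
    simp only
    omega⟩) (fun a => a.1)
  invFun := fun e => if h : (e.1.2 : ℕ) = n - 1 then
      Sum.inl ⟨e.1.1, by
        have h1 := e.2
        rw [Fin.lt_def] at h1
        omega⟩
    else Sum.inr ⟨e, h⟩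
  left_inv := by
    rintro (v | a)
    · simp
    · have := a.2
      simp [this]
  right_inv := by
    intro e
    by_cases h : (e.1.2 : ℕ) = n - 1
    · simp only [h, dite_true, Sum.elim_inl]
      apply Subtype.ext
      apply Prod.ext
      · rfl
      · apply Fin.ext
        exact h.symm
    · simp [h]

theorem sum_edg (hn : 1 ≤ n) (g : Edg n → ℝ) :
    ∑ e, g e = ∑ v : Pv n, g (edgSplit n hn (Sum.inl v)) + ∑ a : NSE n, g a.1 := by
  rw [← Equiv.sum_comp (edgSplit n hn), Fintype.sum_sum_type]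
  rfl

theorem dM_star (hn : 1 ≤ n) (u v : Pv n) :
    dM n (edgSplit n hn (Sum.inl v)) u.1 = if v = u then -1 else 0 := by
  have h1 : u.1 ≠ (⟨n - 1, by omega⟩ : Fin n) := by
    intro h
    apply u.2
    rw [h]
  simp only [dM, D1, edgSplit, Matrix.of_apply, Equiv.coe_fn_mk, Sum.elim_inl, if_neg h1]
  by_cases h : v = u
  · subst h; simp
  · have h' : u.1 ≠ v.1 := fun h2 => h (Subtype.ext h2.symm)
    simp [h, h']

/-- the rows of `d` outside the star -/
def dq (n : ℕ) : Matrix (NSE n) (Pv n) ℝ := Matrix.of fun a v => dM n a.1 v.1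

/-- `[d'ᵀ ; 1]` -/
def Um (n : ℕ) (hn : 1 ≤ n) : Matrix (Edg n) (NSE n) ℝ :=
  (Matrix.of (Sum.elim (fun (v : Pv n) (a : NSE n) => dq n a v)
    (fun (b a : NSE n) => if b = a then (1 : ℝ) else 0))).submatrix (edgSplit n hn).symm id

theorem Um_star (hn : 1 ≤ n) (v : Pv n) (a : NSE n) :
    Um n hn (edgSplit n hn (Sum.inl v)) a = dM n a.1 v.1 := by
  simp [Um, dq]

theorem Um_rest (hn : 1 ≤ n) (b a : NSE n) :
    Um n hn b.1 a = if b = a then 1 else 0 := by
  have : (edgSplit n hn).symm b.1 = Sum.inr b := by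
    rw [Equiv.symm_apply_eq]; rfl
  simp [Um, this]

theorem DM_eq_Um (hn : 1 ≤ n) : DM n = Um n hn * Bw n := by
  ext e t
  obtain ⟨s, rfl⟩ := (edgSplit n hn).surjective e
  rw [Matrix.mul_apply]
  rcases s with v | b
  · have h1 := congrFun (congrFun (dM_transpose_mul_DM n) v.1) t
    rw [Matrix.mul_apply, sum_edg hn] at h1
    simp only [Matrix.transpose_apply, Matrix.zero_apply, dM_star] at h1
    have h2 : ∑ x : Pv n, (if x = v then (-1 : ℝ) else 0) * DM n (edgSplit n hn (Sum.inl x)) t
        = - DM n (edgSplit n hn (Sum.inl v)) t := by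
      rw [Finset.sum_eq_single v]
      · simp
      · intro x _ hx; simp [hx]
      · simp
    rw [h2] at h1
    simp only [Um_star]
    have h3 : ∑ a : NSE n, dM n a.1 v.1 * Bw n a t = ∑ a : NSE n, dM n a.1 v.1 * DM n a.1 t := rfl
    rw [h3]
    linarith
  · have h0 : edgSplit n hn (Sum.inr b) = b.1 := rfl
    rw [h0]
    simp only [Um_rest]
    rw [Finset.sum_eq_single b]
    · simp [Bw, DM]
    · intro x _ hx; simp [Ne.symm hx]
    · simp

theorem dr_transpose_mul_Um (hn : 1 ≤ n) : (dr n).transpose * Um n hn = 0 := by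
  ext v a
  rw [Matrix.mul_apply, sum_edg hn]
  simp only [Matrix.transpose_apply, dr, Matrix.of_apply, dM_star, Um_star, Um_rest,
    Matrix.zero_apply]
  rw [Finset.sum_eq_single v, Finset.sum_eq_single a]
  · simp
  · intro x _ hx; simp [hx]
  · simp
  · intro x _ hx; simp [hx]
  · simp

theorem Um_transpose_mul (hn : 1 ≤ n) :
    (Um n hn).transpose * Um n hn = 1 + dq n * (dq n).transpose := by
  ext a b
  rw [Matrix.mul_apply, sum_edg hn, Matrix.add_apply, Matrix.mul_apply, Matrix.one_apply]
  simp only [Matrix.transpose_apply, Um_star, Um_rest]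
  rw [add_comm]
  congr 1
  rw [Finset.sum_eq_single a]
  · simp
  · intro x _ hx; simp [hx]
  · simp

theorem dr_transpose_mul (hn : 1 ≤ n) :
    (dr n).transpose * dr n = 1 + (dq n).transpose * dq n := by
  ext u v
  rw [Matrix.mul_apply, sum_edg hn, Matrix.add_apply, Matrix.mul_apply, Matrix.one_apply]
  simp only [Matrix.transpose_apply, dr, Matrix.of_apply, dM_star, dq]
  congr 1
  rw [Finset.sum_eq_single u]
  · simp
  · intro x _ hx; simp [hx]
  · simp

theorem card_Pv (n : ℕ) (hn : 1 ≤ n) : Fintype.card (Pv n) = n - 1 := by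
  have h := Finset.card_erase_of_mem (mem_univ (⟨n - 1, by omega⟩ : Fin n))
  rw [card_univ, Fintype.card_fin] at h
  rw [Fintype.card_subtype, ← h]
  congr 1
  ext v
  simp [Fin.ext_iff]

theorem det_dr (hn : 2 ≤ n) : ((dr n).transpose * dr n).det = (n : ℝ) ^ (n - 2) := by
  have hn0 : (n : ℝ) ≠ 0 := by
    have : 0 < n := by omega
    positivity
  have h1 : (dr n).transpose * dr n
      = (n : ℝ) • (1 + (Matrix.of fun (_ : Pv n) (_ : Unit) => (1 : ℝ)) *
          (Matrix.of fun (_ : Unit) (_ : Pv n) => - (1 / (n : ℝ)))) := by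
    ext u v
    have h2 := congrFun (congrFun (dM_transpose_mul n) u.1) v.1
    have h3 : ((dr n).transpose * dr n) u v = ((dM n).transpose * dM n) u.1 v.1 := rfl
    rw [h3, h2]
    simp only [Matrix.sub_apply, Matrix.smul_apply, Matrix.one_apply, Matrix.of_apply,
      Matrix.add_apply, Matrix.mul_apply, Finset.univ_unique, Finset.sum_singleton, smul_eq_mul]
    have h4 : (u.1 = v.1) ↔ (u = v) := ⟨fun h => Subtype.ext h, fun h => by rw [h]⟩
    simp only [h4]
    field_simp
    ring
  rw [h1, Matrix.det_smul, Matrix.det_one_add_mul_comm, Matrix.det_unique, card_Pv n (by omega)]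
  simp only [Matrix.add_apply, Matrix.mul_apply, Matrix.of_apply, Matrix.one_apply_eq,
    Finset.sum_const, card_univ, card_Pv n (by omega : 1 ≤ n), nsmul_eq_mul]
  obtain ⟨k, rfl⟩ : ∃ k, n = k + 2 := ⟨n - 2, by omega⟩
  have h5 : k + 2 - 1 = k + 1 := by omega
  rw [h5, Nat.add_sub_cancel, pow_succ]
  push_cast at hn0 ⊢
  field_simp
  ring

theorem minor_det_w (hn : 2 ≤ n) (x : Tri n → ℝ) :
    (dr n * (dr n).transpose + DM n * Matrix.diagonal x * (DM n).transpose).det
      = (n : ℝ) ^ (2 * (n - 2)) * (Bw n * Matrix.diagonal x * (Bw n).transpose).det := by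
  have hn1 : 1 ≤ n := by omega
  set Y := Bw n * Matrix.diagonal x * (Bw n).transpose with hY
  set Q : Matrix (Edg n) (Pv n ⊕ NSE n) ℝ := Matrix.fromCols (dr n) (Um n hn1) with hQ
  set K : Matrix (Pv n ⊕ NSE n) (Pv n ⊕ NSE n) ℝ := Matrix.fromBlocks 1 0 0 Y with hK
  have h1 : dr n * (dr n).transpose + DM n * Matrix.diagonal x * (DM n).transpose
      = Q * K * Q.transpose := by
    rw [hQ, hK, Matrix.transpose_fromCols, Matrix.fromCols_mul_fromBlocks,
      Matrix.fromCols_mul_fromRows, DM_eq_Um hn1, Matrix.transpose_mul]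
    simp only [Matrix.mul_one, Matrix.mul_zero, add_zero, zero_add, hY, Matrix.mul_assoc]
  set e := edgSplit n hn1 with he
  set Q' := Q.submatrix e id with hQ'
  have h2 : (Q * K * Q.transpose).det = (Q' * K * Q'.transpose).det := by
    rw [← Matrix.det_submatrix_equiv_self e (Q * K * Q.transpose)]
    rfl
  have h3 : Q'.det * Q'.det
      = ((dr n).transpose * dr n).det * ((dr n).transpose * dr n).det := by
    have h4 : Q'.det * Q'.det = (Q.transpose * Q).det := by
      have h6 : Q.transpose * Q = Q'.transpose * Q' := by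
        rw [hQ', Matrix.transpose_submatrix, Matrix.submatrix_mul_equiv, Matrix.submatrix_id_id]
      rw [h6, Matrix.det_mul, Matrix.det_transpose]
    rw [h4, hQ, Matrix.transpose_fromCols, Matrix.fromRows_mul_fromCols, dr_transpose_mul_Um]
    have h5 : (Um n hn1).transpose * dr n = 0 := by
      rw [← Matrix.transpose_transpose (dr n), ← Matrix.transpose_mul, dr_transpose_mul_Um,
        Matrix.transpose_zero]
    rw [h5, Matrix.det_fromBlocks_zero₂₁, Um_transpose_mul, Matrix.det_one_add_mul_comm,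
      dr_transpose_mul hn1]
  rw [h1, h2, Matrix.det_mul, Matrix.det_mul, Matrix.det_transpose, hK,
    Matrix.det_fromBlocks_zero₂₁, Matrix.det_one, one_mul]
  rw [mul_right_comm, h3, det_dr hn, two_mul, pow_add]

end

end Pool.Agent.DH10.Gen
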