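import Pool.Agent.DH10.MinorDet
import Pool.Agent.DH10.MinorGen
import Pool.Agent.DH10.MasterAux

/-!
# DH10.Master : the master identity (1.2)

`∑_{|S| = N} W(S) ∏_{t ∈ S} x_t = det (1/n (d dᵀ + D diag(x) Dᵀ))`.
Proof.  Both sides are polynomials in `x` so (or directly) use Cauchy-Binet for
`d dᵀ + D diag(x) Dᵀ = [d | D] diag(1,x) [d | D]ᵀ` (rows `Edg n`, columns `Fin n ⊕ Tri n`):
`= ∑_{C} (∏_C weights) det([d|D]_C)²` over column sets `C` of size `|Edg n| = (n-1) + N`.  A square submatrix is singular
if it contains all `n` columns of `d` (they sum to `0`) or more than `N` columns of `D` (`rank D ≤ N`: the columns of `D`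
lie in `ker dᵀ`, or: on the columns of `D` the star rows are combinations of the others).  So exactly one column `v` of
`d` is missing and the rest is `S` with `|S| = N`.  For fixed `S` the square is independent of the missing `v`
(replace column `v` by minus the sum of the others), so it equals the value for `v =` last vertex, which is
`det (dr drᵀ + D_S D_Sᵀ) = n^{2(n-2)} det (B_S B_Sᵀ) = n^{2(n-2)} |H_1(S)|²` by `minor_det`, `card_H1_sq`.  Total
`det (d dᵀ + D diag(x) Dᵀ) = n · n^{2(n-2)} ∑_S x^S |H_1(S)|²`; dividing by `n^{|Edg n|}` and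
`|Edg n| = n(n-1)/2 = 1 + 2(n-2) + C(n-2,2)` gives the claim.
Cauchy-Binet is available as `SST.det_mul_rect` (`Pool/Agent/Subspace/Compound.lean`, index types `Fin r`, `Fin d`,
sum over order embeddings).  Alternative to Cauchy-Binet with all columns: since both sides are multi-affine in `x`, it
is enough to compare for `x = 1_A` ... (free choice).
-/

set_option autoImplicit false

open Finset

namespace Pool.Agent.DH10

noncomputable section

variable {n : ℕ}

private theorem dM_row_sum (e : Edg n) : ∑ v, dM n e v = 0 := by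
  simp only [dM, Matrix.of_apply, D1]
  push_cast
  rw [Finset.sum_sub_distrib]
  simp

/-- replacing `d` by `dr` costs a factor `n` -/
private theorem det_d_eq (hn : 1 ≤ n) (x : Tri n → ℝ) :
    (dM n * (dM n).transpose + DM n * Matrix.diagonal x * (DM n).transpose).det
      = (n : ℝ) * (dr n * (dr n).transpose + DM n * Matrix.diagonal x * (DM n).transpose).det := by
  classical
  set r : Fin n := ⟨n - 1, by omega⟩ with hr
  set X : Matrix (Edg n) (Edg n) ℝ := DM n * Matrix.diagonal x * (DM n).transpose with hX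
  set Δ : Matrix (Edg n) Unit ℝ := Matrix.of fun e _ => dM n e r with hΔ
  have hsub : ∀ g : Fin n → ℝ, ∑ v, g v = g r + ∑ v : {v : Fin n // (v : ℕ) ≠ n - 1}, g v.1 := by
    intro g
    rw [← Finset.add_sum_erase univ g (mem_univ r)]
    congr 1
    rw [← Finset.sum_subtype (univ.erase r) (p := fun v : Fin n => (v : ℕ) ≠ n - 1)]
    intro v
    simp [hr, Fin.ext_iff]
  have hdd : dM n * (dM n).transpose = dr n * (dr n).transpose + Δ * Δ.transpose := by
    ext e f
    rw [Matrix.add_apply, Matrix.mul_apply, Matrix.mul_apply, Matrix.mul_apply, hsub]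
    simp [hΔ, dr, add_comm]
  have hX0 : Δ.transpose * X = 0 := by
    have h1 : Δ.transpose * DM n = 0 := by
      ext u t
      have := congrFun (congrFun (dM_transpose_mul_DM n) r) t
      rw [Matrix.mul_apply] at this ⊢
      simpa [hΔ] using this
    rw [hX, ← Matrix.mul_assoc, ← Matrix.mul_assoc, h1, Matrix.zero_mul, Matrix.zero_mul]
  have hdr : Δ.transpose * dr n = Matrix.of fun _ _ => (-1 : ℝ) := by
    ext u v
    have := congrFun (congrFun (dM_transpose_mul n) r) v.1
    rw [Matrix.mul_apply] at this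
    rw [Matrix.mul_apply]
    have hv : r ≠ v.1 := by
      intro h
      apply v.2
      rw [← h]
    simp only [Matrix.sub_apply, Matrix.smul_apply, Matrix.one_apply_ne hv, Matrix.of_apply,
      smul_zero, zero_sub] at this
    simpa [hΔ, dr] using this
  have hdr2 : Δ.transpose * (dr n * (dr n).transpose) = Δ.transpose := by
    rw [← Matrix.mul_assoc, hdr]
    ext u e
    rw [Matrix.mul_apply]
    have h1 := dM_row_sum e
    rw [hsub] at h1
    simp only [Matrix.of_apply, Matrix.transpose_apply, dr, hΔ, neg_mul, one_mul,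
      Finset.sum_neg_distrib]
    linarith
  have hG : (1 + Δ * Δ.transpose) * (dr n * (dr n).transpose + X)
      = dM n * (dM n).transpose + X := by
    rw [Matrix.add_mul, Matrix.one_mul, Matrix.mul_assoc, Matrix.mul_add, hX0, hdr2, add_zero, hdd]
    abel
  have hdet : (1 + Δ * Δ.transpose).det = (n : ℝ) := by
    rw [Matrix.det_one_add_mul_comm, Matrix.det_unique]
    have := congrFun (congrFun (dM_transpose_mul n) r) r
    rw [Matrix.mul_apply] at this
    rw [Matrix.add_apply, Matrix.mul_apply]
    simp only [Matrix.sub_apply, Matrix.smul_apply, Matrix.one_apply_eq, Matrix.of_apply,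
      smul_eq_mul, mul_one] at this
    have h2 : ∑ j, Δ.transpose (default : Unit) j * Δ j default = (n : ℝ) - 1 := by
      simpa [hΔ] using this
    rw [h2]
    simp
  rw [← hG, Matrix.det_mul, hdet]

/-- number of edges -/
theorem Gen.card_Edg (n : ℕ) : Fintype.card (Edg n) = n.choose 2 := by
  have h1 : Fintype.card (Edg n) = ∑ y : Fin n, (y : ℕ) := by
    rw [Fintype.card_subtype]
    rw [Finset.card_eq_sum_card_fiberwise (f := fun p : Fin n × Fin n => p.2) (t := univ)
      (fun _ _ => mem_univ _)]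
    refine Finset.sum_congr rfl fun y _ => ?_
    have h2 : ((univ.filter fun p : Fin n × Fin n => p.1 < p.2).filter fun p => p.2 = y)
        = (Finset.Iio y).map ⟨fun x => (x, y), fun a b h => (Prod.ext_iff.1 h).1⟩ := by
      ext ⟨a, b⟩
      simp only [mem_filter, mem_univ, true_and, mem_map, mem_Iio]
      constructor
      · rintro ⟨h3, rfl⟩
        exact ⟨a, h3, rfl⟩
      · rintro ⟨c, hc, h4⟩
        obtain ⟨h5, h6⟩ := Prod.ext_iff.1 h4
        simp only at h5 h6
        subst h5
        subst h6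
        exact ⟨hc, rfl⟩
    rw [h2, card_map, Fin.card_Iio]
  rw [h1, Fin.sum_univ_eq_sum_range (fun i => i) n, Finset.sum_range_id, Nat.choose_two_right]

private theorem Bw_det (S : Finset (Tri n)) :
    (((Gen.Bw n).submatrix id (fun c : S => c.1)) *
      ((Gen.Bw n).submatrix id (fun c : S => c.1)).transpose).det
      = (((Bm S * (Bm S).transpose).det : ℤ) : ℝ) := by
  have h := RingHom.map_det (Int.castRingHom ℝ) (Bm S * (Bm S).transpose)
  rw [eq_intCast] at h
  rw [h]
  congr 1
  ext e f
  simp [Gen.Bw, Bm, Matrix.mul_apply]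

private theorem exp_arith (hn : 3 ≤ n) : n.choose 2 = 1 + 2 * (n - 2) + (n - 2).choose 2 := by
  obtain ⟨k, rfl⟩ : ∃ k, n = k + 2 := ⟨n - 2, by omega⟩
  have h1 : (k + 2).choose 2 = (k + 1).choose 1 + (k + 1).choose 2 := Nat.choose_succ_succ' _ _
  have h2 : (k + 1).choose 2 = k.choose 1 + k.choose 2 := Nat.choose_succ_succ' _ _
  rw [h1, h2, Nat.choose_one_right, Nat.choose_one_right]
  simp only [Nat.add_sub_cancel]
  ring

/-- master identity (1.2) -/
theorem master (hn : 3 ≤ n) (x : Tri n → ℝ) :
    ∑ S ∈ cand n, W S * ∏ t ∈ S, x t = (Mx x).det := by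
  have hn0 : (n : ℝ) ≠ 0 := by
    have : 0 < n := by omega
    positivity
  rw [Mx, Matrix.det_smul, det_d_eq (by omega), Gen.minor_det_w (by omega), cauchyBinet_diag,
    card_NSE, Gen.card_Edg, exp_arith hn]
  rw [Finset.mul_sum, Finset.mul_sum, Finset.mul_sum]
  refine Finset.sum_congr rfl fun S hS => ?_
  have hS' : S.card = NN n := by
    rw [mem_powersetCard] at hS
    exact hS.2
  rw [Bw_det, ← card_H1_sq S (by omega) hS', W]
  push_cast
  rw [pow_add, pow_add, pow_one]
  have h3 : (1 / (n : ℝ)) ^ (2 * (n - 2)) * (n : ℝ) ^ (2 * (n - 2)) = 1 := by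
    rw [← mul_pow, one_div_mul_cancel hn0, one_pow]
  have h4 : (1 / (n : ℝ)) * n = 1 := one_div_mul_cancel hn0
  have h5 : (1 / (n : ℝ)) ^ ((n - 2).choose 2) = ((n : ℝ) ^ ((n - 2).choose 2))⁻¹ := by
    rw [one_div, inv_pow]
  rw [h5, div_eq_mul_inv]
  calc (Nat.card (H1 S) : ℝ) ^ 2 * ((n : ℝ) ^ ((n - 2).choose 2))⁻¹ * ∏ t ∈ S, x t
      = ((1 / (n : ℝ)) * n) * ((1 / (n : ℝ)) ^ (2 * (n - 2)) * (n : ℝ) ^ (2 * (n - 2))) *
        ((Nat.card (H1 S) : ℝ) ^ 2 * ((n : ℝ) ^ ((n - 2).choose 2))⁻¹ * ∏ t ∈ S, x t) := by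
        rw [h3, h4]; ring
    _ = _ := by ring

end

end Pool.Agent.DH10
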