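import Pool.Agent.DH10.Cyc

/-!
# DH10.MidDefs : definitions for the spectral trichotomy (Part 3)
-/

set_option autoImplicit false

open Finset

namespace Pool.Agent.DH10

noncomputable section

variable {n : ℕ} {G : Type} [AddCommGroup G]

/-- the Hermitian matrix `χ(f(x,y))/n` -/
def AM (χ : AddChar G ℂ) (f : Coch n G) : Matrix (Fin n) (Fin n) ℂ :=
  Matrix.of fun x y => χ (val f x y) / n

/-- `tau = tr A³ = n^{-3} ∑ χ(cur f x y z)` (a real number) -/
def tau (χ : AddChar G ℂ) (f : Coch n G) : ℝ :=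
  ((∑ x, ∑ y, ∑ z, χ (cur f x y z)) / (n : ℂ) ^ 3).re

/-- `κ = n^{-1/50}` -/
def kap (n : ℕ) : ℝ := (n : ℝ) ^ (-(1 / 50) : ℝ)

/-- `χ` is uniform for `f` -/
def Unif (χ : AddChar G ℂ) (f : Coch n G) : Prop := |tau χ f| ≤ kap n

/-- `χ` is near trivial for `f` -/
def Near (χ : AddChar G ℂ) (f : Coch n G) : Prop := 1 - 64 * kap n ≤ tau χ f

/-- `χ` is mid for `f` -/
def Mid (χ : AddChar G ℂ) (f : Coch n G) : Prop := ¬ Unif χ f ∧ ¬ Near χ f

variable [DecidableEq G]

/-- `r_xy(a) = #{z : f(x,z)+f(z,y) = a}/n` -/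
def rr (f : Coch n G) (x y : Fin n) (a : G) : ℝ :=
  ((univ.filter fun z => val f x z + val f z y = a).card : ℝ) / n

/-- empirical version for a sample `φ_i = f(z_i, ·)` -/
def qq {k : ℕ} (φ : Fin k → Fin n → G) (x y : Fin n) (a : G) : ℝ :=
  ((univ.filter fun i => φ i y - φ i x = a).card : ℝ) / k

variable [Fintype G]

/-- the mean matrix of `AM` under independent entries with laws `π` -/
def PM (χ : AddChar G ℂ) (π : Fin n → Fin n → G → ℝ) : Matrix (Fin n) (Fin n) ℂ :=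
  Matrix.of fun x y => if x = y then 1 / (n : ℂ) else (∑ a, (π x y a : ℂ) * χ a) / n

end

end Pool.Agent.DH10
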