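import Pool.Agent.DH10.CardH1

/-!
# DH10.MinorDet : the bordered determinant (1.2)(b)

`dr` = the matrix `d` without the column of the last vertex `r`, `D_S` = boundary matrix with all rows, columns `S`.
Claim: `det (dr drᵀ + D_S D_Sᵀ) = n^{2(n-2)} det (B_S B_Sᵀ)` for `|S| = C(n-1,2)`.
Proof.  `dr drᵀ + D_S D_Sᵀ = Q Qᵀ` with `Q = [dr | D_S]` square (`|E| = (n-1) + C(n-1,2)`).  Split the rows in star
edges `{v,r}`, `v ≠ r`, and the others.  On the star rows `dr` is diagonal with entries `±1` (row `{v,r}`, column `v`;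
`r` is the larger vertex, so the entry is `-1`): call it `A1 = -1`.  On the other rows call it `d'`; `D_S` has blocks `St`
(star rows) and `B_S`.  `dᵀ D = 0` (columns `v ≠ r`): `A1ᵀ St + d'ᵀ B_S = 0`, i.e. `St = d'ᵀ B_S` for `A1 = -1`.  Block
determinant: `det Q = det A1 · det (B_S - d' A1⁻¹ St) = ± det (B_S + d' d'ᵀ B_S) = ± det (1 + d' d'ᵀ) det B_S`, and
`det (1 + d' d'ᵀ) = det (1 + d'ᵀ d')` (`Matrix.det_one_add_mul_comm`), `1 + d'ᵀ d' = drᵀ dr =` the reduced Laplacian
`n 1 - J` of size `n-1`, whose determinant is `n^{n-2}` (`det (n 1 - J) = n^{n-1} (1 - (n-1)/n)`,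
`Matrix.det_one_add_replicateCol_mul_replicateRow` or similar).
(To avoid reindexing, work with `det (Q Qᵀ)` where convenient, or choose a bijection `S ≃ NSE n`.)
Also here: the basic identities `dᵀ D = 0`, `d dᵀ + D Dᵀ = n`, `dᵀ d = n - J`.
-/

set_option autoImplicit false

open Finset

namespace Pool.Agent.DH10

noncomputable section

variable {n : ℕ}

/-! ### sums over edges and triangles -/

private theorem md_sum_Tri (F : Fin n → Fin n → Fin n → ℝ) :
    ∑ t : Tri n, F t.1.1 t.1.2.1 t.1.2.2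
      = ∑ x, ∑ y, ∑ z, if x < y ∧ y < z then F x y z else 0 := by
  rw [← Finset.sum_subtype (univ.filter fun t : Fin n × Fin n × Fin n => t.1 < t.2.1 ∧ t.2.1 < t.2.2)
    (by simp) (fun t => F t.1 t.2.1 t.2.2), Finset.sum_filter, Fintype.sum_prod_type]
  refine Finset.sum_congr rfl fun x _ => ?_
  rw [Fintype.sum_prod_type]

private theorem md_sum_Edg (F : Fin n → Fin n → ℝ) :
    ∑ e : Edg n, F e.1.1 e.1.2 = ∑ x, ∑ y, if x < y then F x y else 0 := by
  rw [← Finset.sum_subtype (univ.filter fun t : Fin n × Fin n => t.1 < t.2)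
    (by simp) (fun t => F t.1 t.2), Finset.sum_filter, Fintype.sum_prod_type]

private theorem md_D2_cast (e : Edg n) (t : Tri n) :
    ((D2 e t : ℤ) : ℝ) = (if e.1.1 = t.1.1 ∧ e.1.2 = t.1.2.1 then 1 else 0)
      + (if e.1.1 = t.1.2.1 ∧ e.1.2 = t.1.2.2 then 1 else 0)
      - (if e.1.1 = t.1.1 ∧ e.1.2 = t.1.2.2 then 1 else 0) := by
  have h1 : (e = t.ab) ↔ (e.1.1 = t.1.1 ∧ e.1.2 = t.1.2.1) := by
    rw [Subtype.ext_iff, Prod.ext_iff]; rfl
  have h2 : (e = t.bc) ↔ (e.1.1 = t.1.2.1 ∧ e.1.2 = t.1.2.2) := by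
    rw [Subtype.ext_iff, Prod.ext_iff]; rfl
  have h3 : (e = t.ac) ↔ (e.1.1 = t.1.1 ∧ e.1.2 = t.1.2.2) := by
    rw [Subtype.ext_iff, Prod.ext_iff]; rfl
  unfold D2
  simp only [h1, h2, h3]
  push_cast
  rfl

private theorem md_D1_cast (v : Fin n) (e : Edg n) :
    ((D1 v e : ℤ) : ℝ) = (if v = e.1.2 then 1 else 0) - (if v = e.1.1 then 1 else 0) := by
  unfold D1
  push_cast
  rfl

/-- sum over the triangles against the boundary coefficient -/
private theorem md_sum_D2 (e : Edg n) (g : Fin n → Fin n → Fin n → ℝ)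
    (h1 : ∀ x y z, g y z x = g x y z) (h2 : ∀ x y z, g x z y = -g x y z) :
    ∑ t : Tri n, ((D2 e t : ℤ) : ℝ) * g t.1.1 t.1.2.1 t.1.2.2 = ∑ z, g e.1.1 e.1.2 z := by
  have hlt : e.1.1 < e.1.2 := e.2
  set a := e.1.1 with ha
  set b := e.1.2 with hb
  have key : ∑ t : Tri n, ((D2 e t : ℤ) : ℝ) * g t.1.1 t.1.2.1 t.1.2.2
      = ∑ x, ∑ y, ∑ z, if x < y ∧ y < z then
          (((if a = x ∧ b = y then 1 else 0) + (if a = y ∧ b = z then 1 else 0)
            - (if a = x ∧ b = z then 1 else 0) : ℝ) * g x y z) else 0 := by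
    rw [← md_sum_Tri (fun x y z => ((if a = x ∧ b = y then 1 else 0)
      + (if a = y ∧ b = z then 1 else 0) - (if a = x ∧ b = z then 1 else 0) : ℝ) * g x y z)]
    refine Finset.sum_congr rfl fun t _ => ?_
    rw [md_D2_cast]
  rw [key]
  have e1 : ∑ x, ∑ y, ∑ z, (if x < y ∧ y < z then
      (if a = x ∧ b = y then g x y z else 0) else 0) = ∑ z, if b < z then g a b z else 0 := by
    rw [Finset.sum_eq_single a, Finset.sum_eq_single b]
    · refine Finset.sum_congr rfl fun z _ => ?_
      simp [hlt]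
    · intro y _ hy
      refine Finset.sum_eq_zero fun z _ => ?_
      simp [Ne.symm hy]
    · simp
    · intro x _ hx
      refine Finset.sum_eq_zero fun y _ => Finset.sum_eq_zero fun z _ => ?_
      simp [Ne.symm hx]
    · simp
  have e2 : ∑ x, ∑ y, ∑ z, (if x < y ∧ y < z then
      (if a = y ∧ b = z then g x y z else 0) else 0) = ∑ x, if x < a then g x a b else 0 := by
    refine Finset.sum_congr rfl fun x _ => ?_
    rw [Finset.sum_eq_single a, Finset.sum_eq_single b]
    · simp [hlt]
    · intro y _ hy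
      simp [Ne.symm hy]
    · simp
    · intro x _ hx
      refine Finset.sum_eq_zero fun y _ => ?_
      simp [Ne.symm hx]
    · simp
  have e3 : ∑ x, ∑ y, ∑ z, (if x < y ∧ y < z then
      (if a = x ∧ b = z then g x y z else 0) else 0) = ∑ y, if a < y ∧ y < b then g a y b else 0 := by
    rw [Finset.sum_eq_single a]
    · refine Finset.sum_congr rfl fun y _ => ?_
      rw [Finset.sum_eq_single b]
      · simp
      · intro y _ hy
        simp [Ne.symm hy]
      · simp
    · intro x _ hx
      refine Finset.sum_eq_zero fun y _ => Finset.sum_eq_zero fun z _ => ?_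
      simp [Ne.symm hx]
    · simp
  have split : ∀ x y z : Fin n, (if x < y ∧ y < z then
          (((if a = x ∧ b = y then 1 else 0) + (if a = y ∧ b = z then 1 else 0)
            - (if a = x ∧ b = z then 1 else 0) : ℝ) * g x y z) else 0)
      = (if x < y ∧ y < z then (if a = x ∧ b = y then g x y z else 0) else 0)
        + (if x < y ∧ y < z then (if a = y ∧ b = z then g x y z else 0) else 0)
        - (if x < y ∧ y < z then (if a = x ∧ b = z then g x y z else 0) else 0) := by
    intro x y z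
    by_cases hxyz : x < y ∧ y < z
    · simp only [if_pos hxyz, sub_mul, add_mul, ite_mul, one_mul, zero_mul]
    · simp only [if_neg hxyz, add_zero, sub_zero]
  simp only [split, Finset.sum_sub_distrib, Finset.sum_add_distrib]
  rw [e1, e2, e3, ← Finset.sum_add_distrib, ← Finset.sum_sub_distrib]
  refine Finset.sum_congr rfl fun z _ => ?_
  have g1 : g z a b = g a b z := (h1 z a b).symm
  have g2 : g a z b = -g a b z := h2 a b z
  rw [g1, g2]
  rcases lt_trichotomy z a with h | h | h
  · have c1 : ¬ b < z := by intro h'; exact absurd (h'.trans h) (not_lt.mpr hlt.le)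
    have c2 : ¬ (a < z ∧ z < b) := fun h' => absurd h'.1 (not_lt.mpr h.le)
    simp [c1, c2, h]
  · have c0 : g a b z = 0 := by
      have k1 : g a b a = g b a a := (h1 a b a).symm
      have k2 := h2 b a a
      rw [h, k1]
      linarith
    simp [c0]
  · rcases lt_trichotomy z b with h' | h' | h'
    · have c1 : ¬ b < z := not_lt.mpr h'.le
      have c2 : ¬ z < a := not_lt.mpr h.le
      simp [c1, c2, h, h']
    · have c0 : g a b z = 0 := by
        have k2 := h2 a b b
        rw [h']
        linarith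
      simp [c0]
    · have c1 : ¬ (a < z ∧ z < b) := fun h'' => absurd h''.2 (not_lt.mpr h'.le)
      have c2 : ¬ z < a := not_lt.mpr h.le
      simp [c1, c2, h']

/-- sum over the edges against the boundary coefficient -/
private theorem md_sum_D1 (v : Fin n) (k : Fin n → Fin n → ℝ) (hk : ∀ x y, k y x = -k x y) :
    ∑ e : Edg n, ((D1 v e : ℤ) : ℝ) * k e.1.1 e.1.2 = ∑ x, k x v := by
  have key : ∑ e : Edg n, ((D1 v e : ℤ) : ℝ) * k e.1.1 e.1.2
      = ∑ x, ∑ y, if x < y then (((if v = y then 1 else 0) - (if v = x then 1 else 0) : ℝ)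
          * k x y) else 0 := by
    rw [← md_sum_Edg (fun x y => ((if v = y then 1 else 0) - (if v = x then 1 else 0) : ℝ)
      * k x y)]
    refine Finset.sum_congr rfl fun t _ => ?_
    rw [md_D1_cast]
  rw [key]
  have e1 : ∑ x, ∑ y, (if x < y then (if v = y then k x y else 0) else 0)
      = ∑ x, if x < v then k x v else 0 := by
    refine Finset.sum_congr rfl fun x _ => ?_
    rw [Finset.sum_eq_single v]
    · simp
    · intro y _ hy
      simp [Ne.symm hy]
    · simp
  have e2 : ∑ x, ∑ y, (if x < y then (if v = x then k x y else 0) else 0)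
      = ∑ y, if v < y then k v y else 0 := by
    rw [Finset.sum_eq_single v]
    · simp
    · intro x _ hx
      refine Finset.sum_eq_zero fun y _ => ?_
      simp [Ne.symm hx]
    · simp
  have split : ∀ x y : Fin n, (if x < y then
          (((if v = y then 1 else 0) - (if v = x then 1 else 0) : ℝ) * k x y) else 0)
      = (if x < y then (if v = y then k x y else 0) else 0)
        - (if x < y then (if v = x then k x y else 0) else 0) := by
    intro x y
    by_cases hxy : x < y
    · simp only [if_pos hxy, sub_mul, ite_mul, one_mul, zero_mul]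
    · simp only [if_neg hxy, sub_zero]
  simp only [split, Finset.sum_sub_distrib]
  rw [e1, e2, ← Finset.sum_sub_distrib]
  refine Finset.sum_congr rfl fun z _ => ?_
  rw [hk z v]
  rcases lt_trichotomy z v with h | h | h
  · have c1 : ¬ v < z := not_lt.mpr h.le
    simp [c1, h]
  · have c0 : k z v = 0 := by
      have := hk v v
      rw [h]
      linarith
    simp [c0]
  · have c1 : ¬ z < v := not_lt.mpr h.le
    simp [c1, h]

/-! ### the basic identities -/

theorem dM_transpose_mul_DM (n : ℕ) : (dM n).transpose * DM n = 0 := by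
  ext v t
  rw [Matrix.mul_apply]
  simp only [Matrix.transpose_apply, dM, DM, Matrix.of_apply, Matrix.zero_apply]
  have hsplit : ∀ e : Edg n, ((D1 v e : ℤ) : ℝ) * ((D2 e t : ℤ) : ℝ)
      = (if e = t.ab then ((D1 v e : ℤ) : ℝ) else 0) + (if e = t.bc then ((D1 v e : ℤ) : ℝ) else 0)
        - (if e = t.ac then ((D1 v e : ℤ) : ℝ) else 0) := by
    intro e
    unfold D2
    push_cast
    rw [mul_sub, mul_add]
    simp only [mul_ite, mul_one, mul_zero]
  simp only [hsplit, Finset.sum_sub_distrib, Finset.sum_add_distrib, Finset.sum_ite_eq',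
    Finset.mem_univ, if_true]
  simp only [md_D1_cast, Tri.ab, Tri.bc, Tri.ac]
  ring

private theorem md_D1_dot (e f : Edg n) :
    ∑ v, ((D1 v e : ℤ) : ℝ) * ((D1 v f : ℤ) : ℝ)
      = ((D1 e.1.2 f : ℤ) : ℝ) - ((D1 e.1.1 f : ℤ) : ℝ) := by
  have hsplit : ∀ v : Fin n, ((D1 v e : ℤ) : ℝ) * ((D1 v f : ℤ) : ℝ)
      = (if v = e.1.2 then ((D1 v f : ℤ) : ℝ) else 0)
        - (if v = e.1.1 then ((D1 v f : ℤ) : ℝ) else 0) := by
    intro v
    rw [md_D1_cast v e, sub_mul]
    simp only [ite_mul, one_mul, zero_mul]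
  simp only [hsplit, Finset.sum_sub_distrib, Finset.sum_ite_eq', Finset.mem_univ, if_true]

/-- signed indicator of an edge on ordered pairs -/
private def md_s (f : Edg n) (x y : Fin n) : ℝ :=
  (if f.1.1 = x ∧ f.1.2 = y then 1 else 0) - (if f.1.1 = y ∧ f.1.2 = x then 1 else 0)

private theorem md_s_anti (f : Edg n) (x y : Fin n) : md_s f y x = -md_s f x y := by
  unfold md_s
  ring

private theorem md_s_sum_right (f : Edg n) (x : Fin n) :
    ∑ z, md_s f x z = (if f.1.1 = x then 1 else 0) - (if f.1.2 = x then 1 else 0) := by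
  unfold md_s
  rw [Finset.sum_sub_distrib]
  congr 1
  · by_cases h : f.1.1 = x
    · simp [h]
    · simp [h]
  · by_cases h : f.1.2 = x
    · simp [h]
    · simp [h]

private theorem md_D2_eq (f : Edg n) (t : Tri n) :
    ((D2 f t : ℤ) : ℝ) = md_s f t.1.1 t.1.2.1 + md_s f t.1.2.1 t.1.2.2 + md_s f t.1.2.2 t.1.1 := by
  rw [md_D2_cast]
  have hf : f.1.1 < f.1.2 := f.2
  have ht1 : t.1.1 < t.1.2.1 := t.2.1
  have ht2 : t.1.2.1 < t.1.2.2 := t.2.2
  have k1 : ¬ (f.1.1 = t.1.2.1 ∧ f.1.2 = t.1.1) := by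
    rintro ⟨h, h'⟩
    rw [h, h'] at hf
    exact absurd hf (not_lt.mpr ht1.le)
  have k2 : ¬ (f.1.1 = t.1.2.2 ∧ f.1.2 = t.1.2.1) := by
    rintro ⟨h, h'⟩
    rw [h, h'] at hf
    exact absurd hf (not_lt.mpr ht2.le)
  have k3 : ¬ (f.1.1 = t.1.2.2 ∧ f.1.2 = t.1.1) := by
    rintro ⟨h, h'⟩
    rw [h, h'] at hf
    exact absurd hf (not_lt.mpr (ht1.trans ht2).le)
  unfold md_s
  rw [if_neg k1, if_neg k2, if_neg k3]
  ring

/-- (1.1) -/
theorem dM_mul_add (n : ℕ) :
    dM n * (dM n).transpose + DM n * (DM n).transpose = (n : ℝ) • (1 : Matrix (Edg n) (Edg n) ℝ) := by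
  ext e f
  rw [Matrix.add_apply, Matrix.mul_apply, Matrix.mul_apply]
  simp only [Matrix.transpose_apply, dM, DM, Matrix.of_apply, Matrix.smul_apply, smul_eq_mul]
  rw [md_D1_dot]
  have h1 : ∑ t : Tri n, ((D2 e t : ℤ) : ℝ) * ((D2 f t : ℤ) : ℝ)
      = ∑ z, (md_s f e.1.1 e.1.2 + md_s f e.1.2 z + md_s f z e.1.1) := by
    rw [← md_sum_D2 e (fun x y z => md_s f x y + md_s f y z + md_s f z x)
      (fun x y z => by ring)
      (fun x y z => by
        have r1 := md_s_anti f x y
        have r2 := md_s_anti f y z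
        have r3 := md_s_anti f z x
        linarith)]
    refine Finset.sum_congr rfl fun t _ => ?_
    rw [md_D2_eq f t]
  rw [h1, Finset.sum_add_distrib, Finset.sum_add_distrib, md_s_sum_right]
  have h2 : ∑ z, md_s f z e.1.1 = -∑ z, md_s f e.1.1 z := by
    rw [← Finset.sum_neg_distrib]
    exact Finset.sum_congr rfl fun z _ => md_s_anti f _ _
  rw [h2, md_s_sum_right, md_D1_cast, md_D1_cast]
  simp only [Finset.sum_const, Finset.card_univ, Fintype.card_fin, nsmul_eq_mul]
  have hs : md_s f e.1.1 e.1.2 = (1 : Matrix (Edg n) (Edg n) ℝ) e f := by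
    unfold md_s
    have he : e.1.1 < e.1.2 := e.2
    have hf : f.1.1 < f.1.2 := f.2
    have k1 : ¬ (f.1.1 = e.1.2 ∧ f.1.2 = e.1.1) := by
      rintro ⟨h, h'⟩
      rw [h, h'] at hf
      exact absurd hf (not_lt.mpr he.le)
    rw [if_neg k1, sub_zero, Matrix.one_apply]
    by_cases h : e = f
    · rw [if_pos h, h]
      simp
    · rw [if_neg h, if_neg]
      rintro ⟨h', h''⟩
      exact h (Subtype.ext (Prod.ext h'.symm h''.symm))
  rw [hs]
  have c1 : (if e.1.2 = f.1.2 then (1 : ℝ) else 0) = (if f.1.2 = e.1.2 then 1 else 0) := by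
    simp only [eq_comm]
  have c2 : (if e.1.2 = f.1.1 then (1 : ℝ) else 0) = (if f.1.1 = e.1.2 then 1 else 0) := by
    simp only [eq_comm]
  have c3 : (if e.1.1 = f.1.2 then (1 : ℝ) else 0) = (if f.1.2 = e.1.1 then 1 else 0) := by
    simp only [eq_comm]
  have c4 : (if e.1.1 = f.1.1 then (1 : ℝ) else 0) = (if f.1.1 = e.1.1 then 1 else 0) := by
    simp only [eq_comm]
  rw [c1, c2, c3, c4]
  ring

theorem dM_transpose_mul (n : ℕ) :
    (dM n).transpose * dM n = (n : ℝ) • (1 : Matrix (Fin n) (Fin n) ℝ) - Matrix.of fun _ _ => 1 := by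
  ext u v
  rw [Matrix.mul_apply]
  simp only [Matrix.transpose_apply, dM, Matrix.of_apply, Matrix.sub_apply, Matrix.smul_apply,
    smul_eq_mul]
  have h1 : ∑ e : Edg n, ((D1 u e : ℤ) : ℝ) * ((D1 v e : ℤ) : ℝ)
      = ∑ x, ((if v = u then 1 else 0) - (if v = x then 1 else 0) : ℝ) := by
    rw [← md_sum_D1 u (fun x y => (if v = y then 1 else 0) - (if v = x then 1 else 0))
      (fun x y => by ring)]
    refine Finset.sum_congr rfl fun e _ => ?_
    rw [md_D1_cast v e]
  rw [h1, Finset.sum_sub_distrib]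
  simp only [Finset.sum_const, Finset.card_univ, Fintype.card_fin, nsmul_eq_mul,
    Finset.sum_ite_eq, Finset.mem_univ, if_true, Matrix.one_apply]
  have : (if v = u then (1 : ℝ) else 0) = (if u = v then 1 else 0) := by simp only [eq_comm]
  rw [this]

/-- `d` without the column of the last vertex -/
def dr (n : ℕ) : Matrix (Edg n) {v : Fin n // (v : ℕ) ≠ n - 1} ℝ := Matrix.of fun e v => dM n e v.1

/-- columns `S` of the boundary matrix -/
def DS (S : Finset (Tri n)) : Matrix (Edg n) S ℝ := Matrix.of fun e t => DM n e t.1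

/-- the edges are the star edges and the others -/
private def md_equiv (hn : 2 ≤ n) : {v : Fin n // (v : ℕ) ≠ n - 1} ⊕ NSE n ≃ Edg n where
  toFun := Sum.elim
    (fun v => ⟨(v.1, ⟨n - 1, by omega⟩), by
      rw [Fin.lt_def]
      have h1 := v.1.isLt
      have h2 := v.2
      simp only
      omega⟩)
    (fun e => e.1)
  invFun := fun e => if h : (e.1.2 : ℕ) = n - 1 then
      Sum.inl ⟨e.1.1, by
        have h1 : (e.1.1 : ℕ) < (e.1.2 : ℕ) := e.2
        omega⟩
    else Sum.inr ⟨e, h⟩
  left_inv := by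
    rintro (v | e)
    · simp
    · simp [e.2]
  right_inv := by
    intro e
    by_cases h : (e.1.2 : ℕ) = n - 1
    · simp only [h, dif_pos, Sum.elim_inl]
      apply Subtype.ext
      apply Prod.ext
      · rfl
      · apply Fin.ext
        exact h.symm
    · simp [h]

/-- the non-star rows of `dr` -/
private def md_d' (n : ℕ) : Matrix (NSE n) {v : Fin n // (v : ℕ) ≠ n - 1} ℝ :=
  Matrix.of fun e v => dM n e.1 v.1

/-- the non-star rows of `DS` -/
private def md_B (S : Finset (Tri n)) : Matrix (NSE n) S ℝ := Matrix.of fun e t => DM n e.1 t.1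

private theorem md_star_entry (hn : 2 ≤ n) (v w : {v : Fin n // (v : ℕ) ≠ n - 1}) :
    dM n (md_equiv hn (Sum.inl v)) w.1 = -(1 : Matrix _ _ ℝ) v w := by
  simp only [dM, Matrix.of_apply, md_D1_cast]
  have h1 : (md_equiv hn (Sum.inl v)).1.2 = ⟨n - 1, by omega⟩ := rfl
  have h2 : (md_equiv hn (Sum.inl v)).1.1 = v.1 := rfl
  rw [h1, h2]
  have h3 : ¬ (w.1 = (⟨n - 1, by omega⟩ : Fin n)) := by
    intro h
    exact w.2 (by rw [h])
  rw [if_neg h3, zero_sub, Matrix.one_apply]
  congr 1
  by_cases h : w = v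
  · simp [h]
  · have h' : ¬ (w.1 = v.1) := fun h'' => h (Subtype.ext h'')
    have h4 : ¬ (v = w) := fun h'' => h h''.symm
    simp [h', h4]

private theorem md_St (hn : 2 ≤ n) (S : Finset (Tri n)) (v : {v : Fin n // (v : ℕ) ≠ n - 1})
    (t : S) :
    DM n (md_equiv hn (Sum.inl v)) t.1 = ((md_d' n).transpose * md_B S) v t := by
  have h := congrFun (congrFun (dM_transpose_mul_DM n) v.1) t.1
  rw [Matrix.mul_apply, ← Equiv.sum_comp (md_equiv hn), Fintype.sum_sum_type] at h
  simp only [Matrix.transpose_apply, Matrix.zero_apply] at h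
  have h1 : ∑ x : {v : Fin n // (v : ℕ) ≠ n - 1}, dM n (md_equiv hn (Sum.inl x)) v.1
      * DM n (md_equiv hn (Sum.inl x)) t.1 = -DM n (md_equiv hn (Sum.inl v)) t.1 := by
    simp only [md_star_entry, Matrix.one_apply]
    simp
  rw [h1] at h
  rw [Matrix.mul_apply]
  have h2 : ∑ x : NSE n, dM n (md_equiv hn (Sum.inr x)) v.1 * DM n (md_equiv hn (Sum.inr x)) t.1
      = ∑ j, (md_d' n).transpose v j * md_B S j t := rfl
  rw [h2] at h
  linarith

private theorem md_card (n : ℕ) (hn : 2 ≤ n) :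
    Fintype.card {v : Fin n // (v : ℕ) ≠ n - 1} = n - 1 := by
  have h := Fintype.card_subtype_compl (fun v : Fin n => (v : ℕ) = n - 1)
  rw [Fintype.card_fin] at h
  have h1 : Fintype.card {v : Fin n // (v : ℕ) = n - 1} = 1 := by
    rw [Fintype.card_eq_one_iff]
    refine ⟨⟨⟨n - 1, by omega⟩, rfl⟩, ?_⟩
    rintro ⟨v, hv⟩
    apply Subtype.ext
    apply Fin.ext
    exact hv
  rw [h1] at h
  exact h

private theorem md_lap (hn : 2 ≤ n) :
    (1 + (md_d' n).transpose * md_d' n).det = (n : ℝ) ^ (n - 2) := by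
  have hn0 : (n : ℝ) ≠ 0 := by
    have : n ≠ 0 := by omega
    exact_mod_cast this
  have h1 : 1 + (md_d' n).transpose * md_d' n
      = (n : ℝ) • (1 + Matrix.replicateCol Unit (fun _ : {v : Fin n // (v : ℕ) ≠ n - 1} =>
          (-(1 / (n : ℝ)))) * Matrix.replicateRow Unit (fun _ => (1 : ℝ))) := by
    ext u v
    have h := congrFun (congrFun (dM_transpose_mul n) u.1) v.1
    rw [Matrix.mul_apply, ← Equiv.sum_comp (md_equiv hn), Fintype.sum_sum_type] at h
    simp only [Matrix.transpose_apply, Matrix.sub_apply, Matrix.smul_apply, Matrix.of_apply,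
      smul_eq_mul] at h
    have h2 : ∑ x : {v : Fin n // (v : ℕ) ≠ n - 1}, dM n (md_equiv hn (Sum.inl x)) u.1
        * dM n (md_equiv hn (Sum.inl x)) v.1
        = (1 : Matrix {v : Fin n // (v : ℕ) ≠ n - 1} {v : Fin n // (v : ℕ) ≠ n - 1} ℝ) u v := by
      simp only [md_star_entry, Matrix.one_apply]
      simp [eq_comm]
    have h3 : ∑ x : NSE n, dM n (md_equiv hn (Sum.inr x)) u.1 * dM n (md_equiv hn (Sum.inr x)) v.1
        = ((md_d' n).transpose * md_d' n) u v := rfl
    rw [h2, h3] at h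
    rw [Matrix.add_apply, h, Matrix.smul_apply, Matrix.add_apply, Matrix.mul_apply]
    have h4 : (1 : Matrix (Fin n) (Fin n) ℝ) u.1 v.1
        = (1 : Matrix {v : Fin n // (v : ℕ) ≠ n - 1} {v : Fin n // (v : ℕ) ≠ n - 1} ℝ) u v := by
      simp only [Matrix.one_apply]
      by_cases huv : u = v
      · simp [huv]
      · have : ¬ (u.1 = v.1) := fun h'' => huv (Subtype.ext h'')
        simp [huv, this]
    rw [h4]
    simp only [Matrix.replicateCol_apply, Matrix.replicateRow_apply, Finset.univ_unique,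
      Finset.sum_singleton, smul_eq_mul]
    field_simp
    ring
  rw [h1, Matrix.det_smul, Matrix.det_one_add_replicateCol_mul_replicateRow, md_card n hn]
  have h5 : (fun _ : {v : Fin n // (v : ℕ) ≠ n - 1} => (1 : ℝ)) ⬝ᵥ
      (fun _ : {v : Fin n // (v : ℕ) ≠ n - 1} => (-(1 / (n : ℝ)))) = -(((n : ℝ) - 1) / n) := by
    simp only [dotProduct, Finset.sum_const, Finset.card_univ, md_card n hn, nsmul_eq_mul]
    rw [Nat.cast_sub (by omega)]
    push_cast
    ring
  rw [h5]
  obtain ⟨m, rfl⟩ : ∃ m, n = m + 2 := ⟨n - 2, by omega⟩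
  have h6 : m + 2 - 1 = m + 1 := by omega
  have h7 : m + 2 - 2 = m := by omega
  rw [h6, h7, pow_succ]
  field_simp
  ring

theorem minor_det (hn : 2 ≤ n) (S : Finset (Tri n)) (hS : S.card = NN n) :
    (dr n * (dr n).transpose + DS S * (DS S).transpose).det
      = (n : ℝ) ^ (2 * (n - 2)) * (((Bm S * (Bm S).transpose).det : ℤ) : ℝ) := by
  classical
  set P : Matrix ({v : Fin n // (v : ℕ) ≠ n - 1} ⊕ NSE n) ({v : Fin n // (v : ℕ) ≠ n - 1} ⊕ NSE n) ℝ
    := Matrix.fromBlocks (-1) (md_d' n).transpose (md_d' n) 1 with hP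
  have hblock : (dr n * (dr n).transpose + DS S * (DS S).transpose).submatrix
      (md_equiv hn) (md_equiv hn)
      = P * Matrix.fromBlocks 1 0 0 (md_B S * (md_B S).transpose) * P.transpose := by
    have h1 : P * Matrix.fromBlocks 1 0 0 (md_B S * (md_B S).transpose) * P.transpose
        = Matrix.fromBlocks
          (1 + ((md_d' n).transpose * md_B S) * ((md_d' n).transpose * md_B S).transpose)
          (-(md_d' n).transpose + ((md_d' n).transpose * md_B S) * (md_B S).transpose)
          (-(md_d' n) + md_B S * ((md_d' n).transpose * md_B S).transpose)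
          (md_d' n * (md_d' n).transpose + md_B S * (md_B S).transpose) := by
      rw [hP, Matrix.fromBlocks_transpose, Matrix.fromBlocks_multiply, Matrix.fromBlocks_multiply]
      simp only [Matrix.transpose_neg, Matrix.transpose_one, Matrix.transpose_transpose,
        Matrix.mul_one, Matrix.mul_zero, Matrix.one_mul, Matrix.neg_mul, Matrix.mul_neg, neg_neg,
        add_zero, zero_add, Matrix.transpose_mul, Matrix.mul_assoc]
    rw [h1]
    have hdr1 : ∀ (v w : {v : Fin n // (v : ℕ) ≠ n - 1}), dr n (md_equiv hn (Sum.inl v)) w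
        = -(1 : Matrix _ _ ℝ) v w := fun v w => md_star_entry hn v w
    have hdr2 : ∀ (e : NSE n) (w : {v : Fin n // (v : ℕ) ≠ n - 1}),
        dr n (md_equiv hn (Sum.inr e)) w = md_d' n e w := fun e w => rfl
    have hds1 : ∀ (v : {v : Fin n // (v : ℕ) ≠ n - 1}) (t : S), DS S (md_equiv hn (Sum.inl v)) t
        = ((md_d' n).transpose * md_B S) v t := fun v t => md_St hn S v t
    have hds2 : ∀ (e : NSE n) (t : S), DS S (md_equiv hn (Sum.inr e)) t
        = md_B S e t := fun e t => rfl
    ext i j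
    rcases i with i | i <;> rcases j with j | j
    · rw [Matrix.submatrix_apply, Matrix.add_apply, Matrix.mul_apply, Matrix.mul_apply,
        Matrix.fromBlocks_apply₁₁, Matrix.add_apply, Matrix.mul_apply]
      simp only [Matrix.transpose_apply, hdr1, hds1]
      congr 1
      simp [Matrix.one_apply]
    · rw [Matrix.submatrix_apply, Matrix.add_apply, Matrix.mul_apply, Matrix.mul_apply,
        Matrix.fromBlocks_apply₁₂, Matrix.add_apply, Matrix.mul_apply]
      simp only [Matrix.transpose_apply, hdr1, hds1, hdr2, hds2]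
      congr 1
      simp [Matrix.one_apply]
    · rw [Matrix.submatrix_apply, Matrix.add_apply, Matrix.mul_apply, Matrix.mul_apply,
        Matrix.fromBlocks_apply₂₁, Matrix.add_apply, Matrix.mul_apply]
      simp only [Matrix.transpose_apply, hdr1, hds1, hdr2, hds2]
      congr 1
      simp [Matrix.one_apply]
    · rw [Matrix.submatrix_apply, Matrix.add_apply, Matrix.mul_apply, Matrix.mul_apply,
        Matrix.fromBlocks_apply₂₂, Matrix.add_apply, Matrix.mul_apply, Matrix.mul_apply]
      simp only [Matrix.transpose_apply, hdr2, hds2]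
  have hdet : (dr n * (dr n).transpose + DS S * (DS S).transpose).det
      = P.det ^ 2 * (md_B S * (md_B S).transpose).det := by
    rw [← Matrix.det_submatrix_equiv_self (md_equiv hn), hblock, Matrix.det_mul, Matrix.det_mul,
      Matrix.det_transpose, Matrix.det_fromBlocks_zero₂₁, Matrix.det_one]
    ring
  have hPdet : P.det ^ 2 = ((n : ℝ) ^ (n - 2)) ^ 2 := by
    rw [hP, Matrix.det_fromBlocks_one₂₂]
    have h2 : (-1 : Matrix {v : Fin n // (v : ℕ) ≠ n - 1} {v : Fin n // (v : ℕ) ≠ n - 1} ℝ)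
        - (md_d' n).transpose * md_d' n = -(1 + (md_d' n).transpose * md_d' n) := by
      rw [neg_add, sub_eq_add_neg]
    rw [h2, Matrix.det_neg, md_lap hn, mul_pow, ← pow_mul, mul_comm (Fintype.card _) 2, pow_mul]
    simp
  have hB : (md_B S * (md_B S).transpose).det = (((Bm S * (Bm S).transpose).det : ℤ) : ℝ) := by
    have h3 : md_B S * (md_B S).transpose
        = (Int.castRingHom ℝ).mapMatrix (Bm S * (Bm S).transpose) := by
      ext e f
      simp only [RingHom.mapMatrix_apply, Matrix.map_apply, Matrix.mul_apply,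
        Matrix.transpose_apply, map_sum, map_mul]
      rfl
    rw [h3, ← RingHom.map_det]
    rfl
  rw [hdet, hPdet, hB, ← pow_mul, mul_comm (n - 2) 2]

end

end Pool.Agent.DH10
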