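import Pool.Agent.DH10.Upper
import Pool.Agent.DH10.Lower
import Pool.Agent.DH10.Dist

/-!
# DH10.Moments : all surjection moments tend to one, and the limit law (Part 7)

`surMom_tendsto`: `upper`, `lower`.
`limit_law`: `dist_of_moments` with `ι n = {S // S ∈ cand n ∧ Finite (H1 S)}`, `Wt n S = W S`,
`Γ n S = AddCommGroup.primaryComponent (H1 S) p`.  Moments: for `B` a finite abelian `p`-group,
`∑_{S ∈ cand n, H1 S finite} W S #Sur(Γ, B) = ∑_{..} W S #Sur(H1 S, B)` (`sur_syl`) `= SurMom n B`
(`W S = 0` if `H1 S` is infinite, as `Nat.card (H1 S) = 0`).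
-/

set_option autoImplicit false

open Finset Filter Topology

namespace Pool.Agent.DH10

noncomputable section

theorem surMom_tendsto (p : ℕ) [Fact p.Prime] (hp : p ≠ 2) (G : Type) [AddCommGroup G] [Finite G]
    (hG : IsP p G) : Tendsto (fun n : ℕ => SurMom n G) atTop (𝓝 1) := by
  rw [Metric.tendsto_nhds]
  intro ε hε
  filter_upwards [upper p hp G hG (ε / 2) (by linarith), lower p hp G hG (ε / 2) (by linarith)] with n h1 h2
  rw [Real.dist_eq, abs_lt]
  constructor <;> linarith

/-- `W S ≥ 0` -/
private theorem W_nonneg' {n : ℕ} (S : Finset (Tri n)) : 0 ≤ W S := by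
  unfold W
  positivity

/-- `W S = 0` if the homology is infinite -/
private theorem W_eq_zero_of_infinite {n : ℕ} (S : Finset (Tri n)) (h : ¬ Finite (H1 S)) : W S = 0 := by
  have : Infinite (H1 S) := not_finite_iff_infinite.mp h
  simp [W, Nat.card_eq_zero_of_infinite]

private theorem isP_primary (p : ℕ) [Fact p.Prime] (A : Type) [AddCommGroup A] :
    IsP p (AddCommGroup.primaryComponent A p) := by
  intro a
  obtain ⟨k, hk⟩ := a.2
  refine ⟨k, ?_⟩
  apply Subtype.ext
  simpa using hk

open Classical in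
theorem limit_law (p : ℕ) [Fact p.Prime] (hp : p ≠ 2) (G : Type) [AddCommGroup G] [Finite G]
    (hG : IsP p G) :
    Tendsto (fun n : ℕ => ∑ S ∈ (cand n).filter (fun S => Finite (H1 S) ∧
        Nonempty (AddCommGroup.primaryComponent (H1 S) p ≃+ G)), W S) atTop
      (𝓝 ((∏' j : ℕ, (1 - ((p : ℝ)⁻¹) ^ (j + 1))) / (Nat.card (G ≃+ G) : ℝ))) := by
  have hpp : p.Prime := Fact.out
  have hfin : ∀ (n : ℕ) (i : {S : Finset (Tri n) // S ∈ (cand n).filter (fun S => Finite (H1 S))}),
      Finite (AddCommGroup.primaryComponent (H1 i.1) p) := by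
    intro n i
    have : Finite (H1 i.1) := (Finset.mem_filter.mp i.2).2
    infer_instance
  have key := dist_of_moments p hpp
    (fun n => {S : Finset (Tri n) // S ∈ (cand n).filter (fun S => Finite (H1 S))})
    (fun n i => W i.1) (fun n i => W_nonneg' i.1)
    (fun n i => @FAb.mk (AddCommGroup.primaryComponent (H1 i.1) p) _ (hfin n i))
    (fun n i => isP_primary p (H1 i.1)) ?_ (@FAb.mk G _ _) hG
  · refine key.congr fun n => ?_
    show ∑ i : {S : Finset (Tri n) // S ∈ (cand n).filter (fun S => Finite (H1 S))}, W i.1 *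
      (@ite ℝ (Nonempty (AddCommGroup.primaryComponent (H1 i.1) p ≃+ G)) (Classical.propDecidable _) 1 0) = _
    rw [Finset.sum_coe_sort ((cand n).filter (fun S => Finite (H1 S)))
      (fun S => W S * (@ite ℝ (Nonempty (AddCommGroup.primaryComponent (H1 S) p ≃+ G))
        (Classical.propDecidable _) 1 0))]
    rw [← Finset.filter_filter, Finset.sum_filter (s := (cand n).filter (fun S => Finite (H1 S)))]
    apply Finset.sum_congr rfl
    intro S _
    by_cases h : Nonempty (AddCommGroup.primaryComponent (H1 S) p ≃+ G)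
    · simp [h]
    · simp [h]
  · intro B hB
    refine (surMom_tendsto p hp B.carrier hB).congr fun n => ?_
    show SurMom n B.carrier = ∑ i : {S : Finset (Tri n) // S ∈ (cand n).filter (fun S => Finite (H1 S))}, W i.1 *
      (Nat.card (Sur (AddCommGroup.primaryComponent (H1 i.1) p) B.carrier) : ℝ)
    rw [Finset.sum_coe_sort ((cand n).filter (fun S => Finite (H1 S)))
      (fun S => W S * (Nat.card (Sur (AddCommGroup.primaryComponent (H1 S) p) B.carrier) : ℝ))]
    rw [Finset.sum_filter]
    unfold SurMom Ex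
    apply Finset.sum_congr rfl
    intro S _
    split_ifs with h
    · have hs := sur_syl p (H1 S) B.carrier hB
      show W S * (Nat.card (Sur (H1 S) B.carrier) : ℝ) = _
      rw [hs]
    · rw [W_eq_zero_of_infinite S h, zero_mul]

end

end Pool.Agent.DH10
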