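import Pool.Agent.DH10.NZDefs
import Pool.Agent.DH10.PsdDet

/-!
# DH10.NZItem : the block bound (4.3)

`item_det`: `det (LZ)_{S''S''} ≤ det (Lap(arcG[I]) + diag muF)`, `I` = set of arcs of the edges of `S'' = S2 H f J`.
Proof.  `e ↦ arcOf P f e` is injective on the support (the unordered pair of endpoints determines `e`).  In the basis
`σ_e` (`σ_e = 1` if `f e ∈ P`, `-1` otherwise) the matrix `(LZ)_{S''S''}` becomes `∑_{t ∈ Z f} v_t v_tᵀ`, `v_t` = restriction of
`D(t)` to `S''` with signs `σ` (the determinant does not change).  Compare quadratic forms (`psd_sub_of_forall`,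
`det_mono`):
 `∑_t (v_t·g)² ≤ ∑_{pairs of adjacent arcs} (g_ω - g_ω')² + ∑_ω mu_ω g_ω²`.
Let `t ∈ Z f`, `m = |t.edges ∩ S''|`.
 * `m = 3` impossible (then `Full H f t`, so `t` shares an edge with some `t' ∈ J` by maximality, but `S''` avoids `EE J`).
 * `m = 1`, `ω` the arc: `(v_t g)² = g_ω²`; `m = 2`: `(v_t g)² = (g_ω ± g_ω')² ≤ 2g_ω² + 2 g_ω'²`.
 * `t` has a vertex `x ∈ H`: then `m ≤ 1`; for given `ω = (u → v, a)` these `t` (with `u,v,x` the vertices) correspond to
   `x ∈ H` with `f(x,v) - f(x,u) = a` (`cur f x u v = 0`): total contribution `≤ h_ω g_ω²`.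
 * `t` avoids `H` and has an edge in `EE J`: contribution `≤ 2 g_ω²` for each `ω` in `t ∩ S''`; for given `ω` on `{u,v}`
   the third vertex `w` satisfies `{u,w} ∈ EE J` or `{v,w} ∈ EE J`: at most `degE J u + degE J v` triangles.
 * otherwise `t` avoids `H`, no edge in `EE J`, `m = 2` (a closed triangle cannot have exactly one support edge, and
   support edges of `t` not in `EE J` are in `S''`), third edge not in the support: `t = {x,y,z}`, `f(y,z) = 0`,
   `f(x,y) = f(x,z) = b`.  If `b ∈ P` both arcs have tail `x` and value `b`, if `-b ∈ P` both have head `x` and value `-b`: adjacent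
   in `arcG`.  The coefficients of `D(t)` on `x→y` and `x→z` are opposite, so `(v_t g)² = (g_ω - g_ω')²`.  Different `t` give
   different pairs.
Diagonal entries: `(LZ)_{ee}` = number of closed triangles containing `e`; if `f e ≠ 0` every such triangle has another
support edge, so it is at most `dgr f x + dgr f y`; `(CS CSᵀ)_{ee} = 2` if `f e = 0`, `0` otherwise;
`Dg f x y = 2 + #closed triangles` (see `Mx_diag`).
-/

set_option autoImplicit false

open Finset

namespace Pool.Agent.DH10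

noncomputable section

variable {n : ℕ} {K : Type} [AddCommGroup K] [DecidableEq K]

theorem exists_half (K : Type) [AddCommGroup K] [Fintype K] [DecidableEq K]
    (hodd : Odd (Fintype.card K)) : ∃ P : Finset K, IsHalf P := by
  classical
  let e := Fintype.equivFin K
  refine ⟨univ.filter fun a => e a < e (-a), ?_, fun a ha => ?_⟩
  · simp
  · simp only [mem_filter, mem_univ, true_and, neg_neg, not_lt]
    have hne : e a ≠ e (-a) := by
      intro h
      have h1 : a = -a := e.injective h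
      have h2 : (2 : ℕ) • a = 0 := by
        rw [two_nsmul]
        nth_rewrite 2 [h1]
        exact add_neg_cancel a
      have h3 : addOrderOf a ∣ 2 := addOrderOf_dvd_of_nsmul_eq_zero h2
      have h4 : addOrderOf a ∣ Fintype.card K := addOrderOf_dvd_card
      have h5 : addOrderOf a ∣ Nat.gcd 2 (Fintype.card K) := Nat.dvd_gcd h3 h4
      have h6 : Nat.gcd 2 (Fintype.card K) = 1 := by
        have : Nat.Coprime 2 (Fintype.card K) := (Nat.coprime_two_left).2 hodd
        exact this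
      rw [h6, Nat.dvd_one] at h5
      exact ha (AddMonoid.addOrderOf_eq_one_iff.1 h5)
    exact ⟨fun h => h.le, fun h => lt_of_le_of_ne h hne⟩

/-! ### edges of triangles -/

private lemma nz_mem {t : Tri n} {e : Edg n} : e ∈ t.edges ↔ e = t.ab ∨ e = t.bc ∨ e = t.ac := by
  simp [Tri.edges]

private lemma nz_ab_bc (t : Tri n) : t.ab ≠ t.bc := by
  intro h
  have := congrArg (fun q : Edg n => q.1.1) h
  exact (ne_of_lt t.2.1) this

private lemma nz_ab_ac (t : Tri n) : t.ab ≠ t.ac := by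
  intro h
  have := congrArg (fun q : Edg n => q.1.2) h
  exact (ne_of_lt t.2.2) this

private lemma nz_bc_ac (t : Tri n) : t.bc ≠ t.ac := by
  intro h
  have := congrArg (fun q : Edg n => q.1.1) h
  exact (ne_of_gt t.2.1) this

private lemma nz_pair {t t' : Tri n} {e e' : Edg n} (hne : e ≠ e') (h1 : e ∈ t.edges)
    (h2 : e' ∈ t.edges) (h3 : e ∈ t'.edges) (h4 : e' ∈ t'.edges) : t = t' := by
  obtain ⟨⟨a, b, c⟩, hab, hbc⟩ := t
  obtain ⟨⟨a', b', c'⟩, hab', hbc'⟩ := t'
  obtain ⟨⟨x, y⟩, hxy⟩ := e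
  obtain ⟨⟨x', y'⟩, hxy'⟩ := e'
  have k1 : (a : ℕ) < b := hab
  have k2 : (b : ℕ) < c := hbc
  have k3 : (a' : ℕ) < b' := hab'
  have k4 : (b' : ℕ) < c' := hbc'
  simp only [nz_mem, Tri.ab, Tri.bc, Tri.ac, Subtype.mk.injEq, Prod.mk.injEq, ne_eq, Fin.ext_iff]
    at hne h1 h2 h3 h4 ⊢
  omega

private lemma nz_share {t : Tri n} {e e' : Edg n} (h1 : e ∈ t.edges)
    (h2 : e' ∈ t.edges) : (e'.1.1 = e.1.1 ∨ e'.1.2 = e.1.1) ∨ (e'.1.1 = e.1.2 ∨ e'.1.2 = e.1.2) := by
  obtain ⟨⟨a, b, c⟩, hab, hbc⟩ := t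
  obtain ⟨⟨x, y⟩, hxy⟩ := e
  obtain ⟨⟨x', y'⟩, hxy'⟩ := e'
  simp only [nz_mem, Tri.ab, Tri.bc, Tri.ac, Subtype.mk.injEq, Prod.mk.injEq, Fin.ext_iff]
    at h1 h2 ⊢
  omega

/-- the vertex of the triangle not on the edge -/
private def nzThd (t : Tri n) (e : Edg n) : Fin n :=
  if e = t.ab then t.1.2.2 else if e = t.bc then t.1.1 else t.1.2.1

private lemma nz_thd_ab (t : Tri n) : nzThd t t.ab = t.1.2.2 := by simp [nzThd]
private lemma nz_thd_bc (t : Tri n) : nzThd t t.bc = t.1.1 := by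
  simp [nzThd, (nz_ab_bc t).symm]
private lemma nz_thd_ac (t : Tri n) : nzThd t t.ac = t.1.2.1 := by
  simp [nzThd, (nz_ab_ac t).symm, (nz_bc_ac t).symm]

private lemma nz_thd_inj {t t' : Tri n} {e : Edg n} (h : e ∈ t.edges) (h' : e ∈ t'.edges)
    (hh : nzThd t e = nzThd t' e) : t = t' := by
  have key : ∀ {t : Tri n} {e : Edg n}, e ∈ t.edges →
      (e = t.ab ∧ nzThd t e = t.1.2.2) ∨ (e = t.bc ∧ nzThd t e = t.1.1) ∨
      (e = t.ac ∧ nzThd t e = t.1.2.1) := by
    intro t e h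
    rcases nz_mem.1 h with h | h | h
    · subst h; exact Or.inl ⟨rfl, nz_thd_ab t⟩
    · subst h; exact Or.inr (Or.inl ⟨rfl, nz_thd_bc t⟩)
    · subst h; exact Or.inr (Or.inr ⟨rfl, nz_thd_ac t⟩)
  have k1 := key h
  have k2 := key h'
  rw [hh] at k1
  generalize nzThd t' e = z at k1 k2
  clear key h h' hh
  obtain ⟨⟨a, b, c⟩, hab, hbc⟩ := t
  obtain ⟨⟨a', b', c'⟩, hab', hbc'⟩ := t'
  obtain ⟨⟨x, y⟩, hxy⟩ := e
  have j1 : (a : ℕ) < b := hab
  have j2 : (b : ℕ) < c := hbc
  have j3 : (a' : ℕ) < b' := hab'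
  have j4 : (b' : ℕ) < c' := hbc'
  simp only [Tri.ab, Tri.bc, Tri.ac, Subtype.mk.injEq, Prod.mk.injEq, Fin.ext_iff] at k1 k2 ⊢
  omega

theorem exists_maxFam (H : Finset (Fin n)) (f : Coch n K) : ∃ J, MaxFam H f J := by
  classical
  let F : Finset (Finset (Tri n)) := univ.filter fun J => EDisj J ∧ ∀ t ∈ J, Full H f t
  have hF : F.Nonempty := ⟨∅, by simp [F, EDisj]⟩
  obtain ⟨J, hJ, hmax⟩ := exists_max_image F card hF
  have hJ' : EDisj J ∧ ∀ t ∈ J, Full H f t := by simpa [F] using hJ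
  refine ⟨J, hJ'.1, hJ'.2, fun t ht => ?_⟩
  by_contra hcon
  push Not at hcon
  have htJ : t ∉ J := by
    intro h
    have := hcon t h
    rw [disjoint_self_iff_empty] at this
    have h2 : t.ab ∈ t.edges := nz_mem.2 (Or.inl rfl)
    rw [this] at h2
    exact absurd h2 (notMem_empty _)
  have h1 : insert t J ∈ F := by
    simp only [F, mem_filter, mem_univ, true_and]
    refine ⟨?_, ?_⟩
    · intro s hs s' hs' hne
      rw [mem_insert] at hs hs'
      rcases hs with rfl | hs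
      · rcases hs' with rfl | hs'
        · exact absurd rfl hne
        · exact hcon s' hs'
      · rcases hs' with rfl | hs'
        · exact (hcon s hs).symm
        · exact hJ'.1 s hs s' hs' hne
    · intro s hs
      rw [mem_insert] at hs
      rcases hs with rfl | hs
      · exact ht
      · exact hJ'.2 s hs
  have h2 := hmax _ h1
  rw [card_insert_of_notMem htJ] at h2
  omega

theorem arcOf_inj (P : Finset K) (f : Coch n K) {e e' : Edg n} (h : arcOf P f e = arcOf P f e') :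
    e = e' := by
  obtain ⟨⟨x, y⟩, hxy⟩ := e
  obtain ⟨⟨x', y'⟩, hxy'⟩ := e'
  unfold arcOf at h
  have h1 : x < y := hxy
  have h2 : x' < y' := hxy'
  split_ifs at h <;> simp only [Prod.mk.injEq] at h <;> obtain ⟨h3, h4, -⟩ := h
  · subst h3; subst h4; rfl
  · subst h3; subst h4; exact absurd h1 (not_lt.2 h2.le)
  · subst h3; subst h4; exact absurd h1 (not_lt.2 h2.le)
  · subst h3; subst h4; rfl

/-! ### closed triangles -/

omit [DecidableEq K] in
private lemma nz_val (f : Coch n K) {x y : Fin n} (h : x < y) :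
    val f x y = f ⟨(x, y), h⟩ ∧ val f y x = - f ⟨(x, y), h⟩ := by
  unfold val
  exact ⟨dif_pos h, by rw [dif_neg (not_lt.2 h.le), dif_pos h]⟩

private lemma nz_closed (f : Coch n K) (t : Tri n) : t ∈ Z f ↔ f t.ab + f t.bc = f t.ac := by
  unfold Z
  rw [mem_filter]
  have h1 : curT f t = val f t.1.1 t.1.2.1 + val f t.1.2.1 t.1.2.2 + val f t.1.2.2 t.1.1 := rfl
  rw [h1, (nz_val f t.2.1).1, (nz_val f t.2.2).1, (nz_val f (t.2.1.trans t.2.2)).2,
    ← sub_eq_add_neg, sub_eq_zero]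
  exact ⟨fun h => h.2, fun h => ⟨mem_univ _, h⟩⟩

private lemma nz_thd_val (f : Coch n K) {t : Tri n} (ht : t ∈ Z f) {e : Edg n} (he : e ∈ t.edges) :
    val f (nzThd t e) e.1.2 - val f (nzThd t e) e.1.1 = f e := by
  rw [nz_closed] at ht
  have hv : ∀ {x y : Fin n} (h : x < y), val f x y = f ⟨(x, y), h⟩ ∧ val f y x = - f ⟨(x, y), h⟩ :=
    fun h => nz_val f h
  rcases nz_mem.1 he with rfl | rfl | rfl
  · rw [nz_thd_ab]
    change val f t.1.2.2 t.1.2.1 - val f t.1.2.2 t.1.1 = f t.ab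
    rw [(hv t.2.2).2, (hv (t.2.1.trans t.2.2)).2]
    change - f t.bc - - f t.ac = f t.ab
    rw [← ht]; abel
  · rw [nz_thd_bc]
    change val f t.1.1 t.1.2.2 - val f t.1.1 t.1.2.1 = f t.bc
    rw [(hv t.2.1).1, (hv (t.2.1.trans t.2.2)).1]
    change f t.ac - f t.ab = f t.bc
    rw [← ht]; abel
  · rw [nz_thd_ac]
    change val f t.1.2.1 t.1.2.2 - val f t.1.2.1 t.1.1 = f t.ac
    rw [(hv t.2.2).1, (hv t.2.1).2]
    change f t.bc - - f t.ab = f t.ac
    rw [← ht]; abel

/-! ### counting triangles at an edge -/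

private lemma nz_vert_H {H : Finset (Fin n)} {t : Tri n} (h : ¬ t.edges ⊆ low H) :
    t.1.1 ∈ H ∨ t.1.2.1 ∈ H ∨ t.1.2.2 ∈ H := by
  by_contra hcon
  push Not at hcon
  obtain ⟨h1, h2, h3⟩ := hcon
  refine h fun e he => ?_
  simp only [low, mem_filter, mem_univ, true_and]
  rcases nz_mem.1 he with rfl | rfl | rfl
  · exact ⟨h1, h2⟩
  · exact ⟨h2, h3⟩
  · exact ⟨h1, h3⟩

private lemma nz_thd_H {H : Finset (Fin n)} {t : Tri n} (h : ¬ t.edges ⊆ low H) {e : Edg n}
    (he : e ∈ t.edges) (hl : e ∈ low H) : nzThd t e ∈ H := by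
  have hl' : e.1.1 ∉ H ∧ e.1.2 ∉ H := by simpa [low] using hl
  rcases nz_mem.1 he with rfl | rfl | rfl
  · rw [nz_thd_ab]
    rcases nz_vert_H h with h1 | h1 | h1
    · exact absurd h1 hl'.1
    · exact absurd h1 hl'.2
    · exact h1
  · rw [nz_thd_bc]
    rcases nz_vert_H h with h1 | h1 | h1
    · exact h1
    · exact absurd h1 hl'.1
    · exact absurd h1 hl'.2
  · rw [nz_thd_ac]
    rcases nz_vert_H h with h1 | h1 | h1
    · exact absurd h1 hl'.1
    · exact h1
    · exact absurd h1 hl'.2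

private lemma nz_cnt_H (H : Finset (Fin n)) (f : Coch n K) {e : Edg n} (he : e ∈ low H) :
    ((Z f).filter fun t => e ∈ t.edges ∧ ¬ t.edges ⊆ low H).card
      ≤ (H.filter fun h => val f h e.1.2 - val f h e.1.1 = f e).card := by
  refine card_le_card_of_injOn (fun t => nzThd t e) ?_ ?_
  · intro t ht
    have ht' : t ∈ Z f ∧ e ∈ t.edges ∧ ¬ t.edges ⊆ low H := by simpa using ht
    obtain ⟨h1, h2, h3⟩ := ht'
    rw [mem_coe, mem_filter]
    exact ⟨nz_thd_H h3 h2 he, nz_thd_val f h1 h2⟩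
  · intro t ht t' ht' hh
    have h1 : t ∈ Z f ∧ e ∈ t.edges ∧ ¬ t.edges ⊆ low H := by simpa using ht
    have h2 : t' ∈ Z f ∧ e ∈ t'.edges ∧ ¬ t'.edges ⊆ low H := by simpa using ht'
    exact nz_thd_inj h1.2.1 h2.2.1 hh

private lemma nz_cnt_J (f : Coch n K) (J : Finset (Tri n)) {e : Edg n} (he : e ∉ EE J) :
    ((Z f).filter fun t => e ∈ t.edges ∧ (t.edges ∩ EE J).Nonempty).card
      ≤ degE J e.1.1 + degE J e.1.2 := by
  classical
  let φ : Tri n → Edg n := fun t => if h : (t.edges ∩ EE J).Nonempty then h.choose else e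
  have hφ : ∀ t : Tri n, (t.edges ∩ EE J).Nonempty → φ t ∈ t.edges ∧ φ t ∈ EE J := by
    intro t h
    have h2 : φ t = h.choose := dif_pos h
    rw [h2]
    exact mem_inter.1 h.choose_spec
  have h0 : ((Z f).filter fun t => e ∈ t.edges ∧ (t.edges ∩ EE J).Nonempty).card
      ≤ (((EE J).filter fun e' => e'.1.1 = e.1.1 ∨ e'.1.2 = e.1.1) ∪
        ((EE J).filter fun e' => e'.1.1 = e.1.2 ∨ e'.1.2 = e.1.2)).card := by
    refine card_le_card_of_injOn φ ?_ ?_
    · intro t ht
      have ht' : t ∈ Z f ∧ e ∈ t.edges ∧ (t.edges ∩ EE J).Nonempty := by simpa using ht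
      obtain ⟨-, h2, h3⟩ := ht'
      obtain ⟨h4, h5⟩ := hφ t h3
      rw [mem_coe, mem_union, mem_filter, mem_filter]
      rcases nz_share h2 h4 with h | h
      · exact Or.inl ⟨h5, h⟩
      · exact Or.inr ⟨h5, h⟩
    · intro t ht t' ht' hh
      have h1 : t ∈ Z f ∧ e ∈ t.edges ∧ (t.edges ∩ EE J).Nonempty := by simpa using ht
      have h2 : t' ∈ Z f ∧ e ∈ t'.edges ∧ (t'.edges ∩ EE J).Nonempty := by simpa using ht'
      obtain ⟨h4, h5⟩ := hφ t h1.2.2
      obtain ⟨h4', h5'⟩ := hφ t' h2.2.2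
      have hne : e ≠ φ t := fun h => he (h ▸ h5)
      refine nz_pair hne h1.2.1 h4 h2.2.1 ?_
      have : φ t = φ t' := hh
      rw [this]
      exact h4'
  exact h0.trans (card_union_le _ _)

/-! ### signs -/

/-- sign of an edge -/
private def nzSg (P : Finset K) (f : Coch n K) (e : Edg n) : ℝ := if f e ∈ P then 1 else -1

omit [AddCommGroup K] in
private lemma nz_sg_sq (P : Finset K) (f : Coch n K) (e : Edg n) :
    nzSg P f e * nzSg P f e = 1 := by
  unfold nzSg
  split_ifs <;> norm_num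

private lemma nz_mem_S2 {H : Finset (Fin n)} {f : Coch n K} {J : Finset (Tri n)} {e : Edg n} :
    e ∈ S2 H f J ↔ f e ≠ 0 ∧ e ∈ low H ∧ e ∉ EE J := by
  simp [S2, suppE, and_assoc]

/-- the structure of a closed low triangle without edges in `EE J` -/
private lemma nz_type3 {P : Finset K} (hP : IsHalf P) {H : Finset (Fin n)} {f : Coch n K}
    {J : Finset (Tri n)} (hJ : MaxFam H f J) {t : Tri n} (ht : t ∈ Z f) (hl : t.edges ⊆ low H)
    (hE : ¬ (t.edges ∩ EE J).Nonempty) (g : Edg n → ℝ) (hg : ∀ e, e ∉ S2 H f J → g e = 0) :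
    ∃ e ∈ t.edges, ∃ e' ∈ t.edges,
      (nzSg P f t.ab * g t.ab + nzSg P f t.bc * g t.bc - nzSg P f t.ac * g t.ac) ^ 2
        = (g e - g e') ^ 2 ∧
      ((e ∈ S2 H f J ∧ e' ∈ S2 H f J ∧ e ≠ e' ∧ (arcG n K).Adj (arcOf P f e) (arcOf P f e')) ∨
        (g e = 0 ∧ g e' = 0)) := by
  have hnE : ∀ e ∈ t.edges, e ∉ EE J := fun e he h => hE ⟨e, mem_inter.2 ⟨he, h⟩⟩
  have hS : ∀ e ∈ t.edges, f e ≠ 0 → e ∈ S2 H f J := fun e he h =>
    nz_mem_S2.2 ⟨h, hl he, hnE e he⟩
  have hS0 : ∀ e, f e = 0 → g e = 0 := fun e h => hg e fun h2 => (nz_mem_S2.1 h2).1 h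
  have mab : t.ab ∈ t.edges := nz_mem.2 (Or.inl rfl)
  have mbc : t.bc ∈ t.edges := nz_mem.2 (Or.inr (Or.inl rfl))
  have mac : t.ac ∈ t.edges := nz_mem.2 (Or.inr (Or.inr rfl))
  have hcl := (nz_closed f t).1 ht
  have hab : t.1.1 < t.1.2.1 := t.2.1
  have hbc : t.1.2.1 < t.1.2.2 := t.2.2
  have hnot : f t.ab = 0 ∨ f t.bc = 0 ∨ f t.ac = 0 := by
    by_contra hcon
    push Not at hcon
    have hfull : Full H f t := by
      refine ⟨ht, fun e he => ?_, hl⟩
      simp only [suppE, mem_filter, mem_univ, true_and]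
      rcases nz_mem.1 he with rfl | rfl | rfl
      · exact hcon.1
      · exact hcon.2.1
      · exact hcon.2.2
    obtain ⟨t', ht', hd⟩ := hJ.2.2 t hfull
    rw [not_disjoint_iff] at hd
    obtain ⟨e, he, he'⟩ := hd
    exact hnE e he (mem_biUnion.2 ⟨t', ht', he'⟩)
  rcases hnot with h0 | h0 | h0
  · -- `ab` not in the support
    have hf : f t.bc = f t.ac := by rw [← hcl, h0, zero_add]
    refine ⟨t.bc, mbc, t.ac, mac, ?_, ?_⟩
    · have hs : nzSg P f t.bc = nzSg P f t.ac := by unfold nzSg; rw [hf]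
      rw [hS0 _ h0, hs]
      have := nz_sg_sq P f t.ac
      linear_combination (g t.bc - g t.ac) ^ 2 * this
    · by_cases hz : f t.bc = 0
      · exact Or.inr ⟨hS0 _ hz, hS0 _ (hf ▸ hz)⟩
      · refine Or.inl ⟨hS _ mbc hz, hS _ mac (hf ▸ hz), nz_bc_ac t, ?_⟩
        unfold arcOf
        rw [hf]
        split_ifs
        · exact ⟨rfl, Or.inr ⟨hab.ne', rfl⟩⟩
        · exact ⟨rfl, Or.inl ⟨rfl, hab.ne'⟩⟩
  · have hf : f t.ab = f t.ac := by rw [← hcl, h0, add_zero]
    refine ⟨t.ab, mab, t.ac, mac, ?_, ?_⟩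
    · have hs : nzSg P f t.ab = nzSg P f t.ac := by unfold nzSg; rw [hf]
      rw [hS0 _ h0, hs]
      have := nz_sg_sq P f t.ac
      linear_combination (g t.ab - g t.ac) ^ 2 * this
    · by_cases hz : f t.ab = 0
      · exact Or.inr ⟨hS0 _ hz, hS0 _ (hf ▸ hz)⟩
      · refine Or.inl ⟨hS _ mab hz, hS _ mac (hf ▸ hz), nz_ab_ac t, ?_⟩
        unfold arcOf
        rw [hf]
        split_ifs
        · exact ⟨rfl, Or.inl ⟨rfl, hbc.ne⟩⟩
        · exact ⟨rfl, Or.inr ⟨hbc.ne, rfl⟩⟩
  · have hf : f t.bc = - f t.ab := by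
      rw [h0] at hcl
      exact (neg_eq_of_add_eq_zero_right hcl).symm
    refine ⟨t.ab, mab, t.bc, mbc, ?_, ?_⟩
    · by_cases hz : f t.ab = 0
      · have hz' : f t.bc = 0 := by rw [hf, hz, neg_zero]
        rw [hS0 _ h0, hS0 _ hz, hS0 _ hz']
        ring
      · have hs : nzSg P f t.bc = - nzSg P f t.ab := by
          unfold nzSg
          rw [hf]
          by_cases h1 : f t.ab ∈ P
          · rw [if_pos h1, if_neg ((hP.2 _ hz).1 h1)]
          · have h2 : - f t.ab ∈ P := by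
              by_contra h3
              exact h1 ((hP.2 _ hz).2 h3)
            rw [if_neg h1, if_pos h2, neg_neg]
        rw [hS0 _ h0, hs]
        have := nz_sg_sq P f t.ab
        linear_combination (g t.ab - g t.bc) ^ 2 * this
    · by_cases hz : f t.ab = 0
      · exact Or.inr ⟨hS0 _ hz, hS0 _ (by rw [hf, hz, neg_zero])⟩
      · refine Or.inl ⟨hS _ mab hz, hS _ mbc (by rw [hf]; exact neg_ne_zero.2 hz), nz_ab_bc t, ?_⟩
        unfold arcOf
        rw [hf, neg_neg]
        by_cases h1 : f t.ab ∈ P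
        · rw [if_pos h1, if_neg ((hP.2 _ hz).1 h1)]
          exact ⟨rfl, Or.inr ⟨(hab.trans hbc).ne, rfl⟩⟩
        · have h2 : - f t.ab ∈ P := by
            by_contra h3
            exact h1 ((hP.2 _ hz).2 h3)
          rw [if_neg h1, if_pos h2]
          exact ⟨rfl, Or.inl ⟨rfl, (hab.trans hbc).ne⟩⟩

omit [AddCommGroup K] in
private lemma nz_sq_sg (P : Finset K) (f : Coch n K) (g : Edg n → ℝ) (e : Edg n) :
    (nzSg P f e * g e) ^ 2 = g e ^ 2 := by
  have := nz_sg_sq P f e
  linear_combination g e ^ 2 * this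

omit [AddCommGroup K] in
/-- triangles with a vertex in `H` -/
private lemma nz_tri_H (P : Finset K) {H : Finset (Fin n)} (f : Coch n K) {t : Tri n}
    (g : Edg n → ℝ) (hlow : ∀ e, e ∉ low H → g e = 0) (hl : ¬ t.edges ⊆ low H) :
    (nzSg P f t.ab * g t.ab + nzSg P f t.bc * g t.bc - nzSg P f t.ac * g t.ac) ^ 2
      ≤ g t.ab ^ 2 + g t.bc ^ 2 + g t.ac ^ 2 := by
  have hnl : ∀ {x y : Fin n} (h : x < y), (x ∈ H ∨ y ∈ H) → g ⟨(x, y), h⟩ = 0 := by
    intro x y h hor
    refine hlow _ fun h2 => ?_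
    simp only [low, mem_filter, mem_univ, true_and] at h2
    exact hor.elim h2.1 h2.2
  rw [← nz_sq_sg P f g t.ab, ← nz_sq_sg P f g t.bc, ← nz_sq_sg P f g t.ac]
  rcases nz_vert_H hl with h | h | h
  · have h1 : g t.ab = 0 := hnl t.2.1 (Or.inl h)
    have h2 : g t.ac = 0 := hnl (t.2.1.trans t.2.2) (Or.inl h)
    rw [h1, h2]
    exact le_of_eq (by ring)
  · have h1 : g t.ab = 0 := hnl t.2.1 (Or.inr h)
    have h2 : g t.bc = 0 := hnl t.2.2 (Or.inl h)
    rw [h1, h2]
    exact le_of_eq (by ring)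
  · have h1 : g t.bc = 0 := hnl t.2.2 (Or.inr h)
    have h2 : g t.ac = 0 := hnl (t.2.1.trans t.2.2) (Or.inr h)
    rw [h1, h2]
    exact le_of_eq (by ring)

omit [AddCommGroup K] in
/-- triangles with an edge where `g` vanishes -/
private lemma nz_tri_E (P : Finset K) (f : Coch n K) {t : Tri n} (g : Edg n → ℝ) {e : Edg n}
    (he : e ∈ t.edges) (hge : g e = 0) :
    (nzSg P f t.ab * g t.ab + nzSg P f t.bc * g t.bc - nzSg P f t.ac * g t.ac) ^ 2
      ≤ 2 * (g t.ab ^ 2 + g t.bc ^ 2 + g t.ac ^ 2) := by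
  rw [← nz_sq_sg P f g t.ab, ← nz_sq_sg P f g t.bc, ← nz_sq_sg P f g t.ac]
  rcases nz_mem.1 he with rfl | rfl | rfl
  · rw [hge]
    nlinarith [sq_nonneg (nzSg P f t.bc * g t.bc + nzSg P f t.ac * g t.ac)]
  · rw [hge]
    nlinarith [sq_nonneg (nzSg P f t.ab * g t.ab + nzSg P f t.ac * g t.ac)]
  · rw [hge]
    nlinarith [sq_nonneg (nzSg P f t.ab * g t.ab - nzSg P f t.bc * g t.bc)]

/-- weight of a triangle on its edges -/
private def nzK (H : Finset (Fin n)) (J : Finset (Tri n)) (t : Tri n) : ℝ :=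
  (if ¬ t.edges ⊆ low H then (1 : ℝ) else 0) + (if (t.edges ∩ EE J).Nonempty then 2 else 0)

private lemma nzK_nonneg (H : Finset (Fin n)) (J : Finset (Tri n)) (t : Tri n) :
    0 ≤ nzK H J t := by
  unfold nzK; split_ifs <;> norm_num

/-- the pair sum of a triangle -/
private def nzPr (P : Finset K) (H : Finset (Fin n)) (f : Coch n K) (J : Finset (Tri n))
    (g : Edg n → ℝ) (t : Tri n) : ℝ :=
  ∑ p ∈ S2 H f J ×ˢ S2 H f J,
    if (p.1 ∈ t.edges ∧ p.2 ∈ t.edges) ∧ (arcG n K).Adj (arcOf P f p.1) (arcOf P f p.2)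
      then (g p.1 - g p.2) ^ 2 else 0

private lemma nzPr_nonneg (P : Finset K) (H : Finset (Fin n)) (f : Coch n K) (J : Finset (Tri n))
    (g : Edg n → ℝ) (t : Tri n) : 0 ≤ nzPr P H f J g t :=
  sum_nonneg fun p _ => by split_ifs; exacts [sq_nonneg _, le_rfl]

private lemma nzPr_ge {P : Finset K} {H : Finset (Fin n)} {f : Coch n K} {J : Finset (Tri n)}
    (g : Edg n → ℝ) {t : Tri n} {e e' : Edg n} (he : e ∈ t.edges) (he' : e' ∈ t.edges)
    (hS : e ∈ S2 H f J) (hS' : e' ∈ S2 H f J) (hne : e ≠ e')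
    (hadj : (arcG n K).Adj (arcOf P f e) (arcOf P f e')) :
    2 * (g e - g e') ^ 2 ≤ nzPr P H f J g t := by
  classical
  have hpne : (e, e') ≠ (e', e) := fun h => hne (Prod.mk.inj h).1
  have h6 : ∑ p ∈ ({(e, e'), (e', e)} : Finset (Edg n × Edg n)),
      (if (p.1 ∈ t.edges ∧ p.2 ∈ t.edges) ∧ (arcG n K).Adj (arcOf P f p.1) (arcOf P f p.2)
      then (g p.1 - g p.2) ^ 2 else 0) ≤ nzPr P H f J g t := by
    refine sum_le_sum_of_subset_of_nonneg ?_ fun p _ _ => by
      split_ifs; exacts [sq_nonneg _, le_rfl]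
    intro p hp
    rw [mem_insert, mem_singleton] at hp
    rw [mem_product]
    rcases hp with rfl | rfl
    · exact ⟨hS, hS'⟩
    · exact ⟨hS', hS⟩
  rw [sum_pair hpne, if_pos ⟨⟨he, he'⟩, hadj⟩, if_pos ⟨⟨he', he⟩, hadj.symm⟩] at h6
  nlinarith [h6]

/-- bound for one closed triangle -/
private lemma nz_tri {P : Finset K} (hP : IsHalf P) {H : Finset (Fin n)} {f : Coch n K}
    {J : Finset (Tri n)} (hJ : MaxFam H f J) {t : Tri n} (ht : t ∈ Z f)
    (g : Edg n → ℝ) (hg : ∀ e, e ∉ S2 H f J → g e = 0) :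
    (nzSg P f t.ab * g t.ab + nzSg P f t.bc * g t.bc - nzSg P f t.ac * g t.ac) ^ 2
      ≤ (∑ e ∈ S2 H f J, if e ∈ t.edges then nzK H J t * g e ^ 2 else 0)
        + 1 / 2 * nzPr P H f J g t := by
  classical
  have hlow : ∀ e, e ∉ low H → g e = 0 := fun e h => hg e fun h2 => h (nz_mem_S2.1 h2).2.1
  have hEE : ∀ e, e ∈ EE J → g e = 0 := fun e h => hg e fun h2 => (nz_mem_S2.1 h2).2.2 h
  have h1 : (∑ e ∈ S2 H f J, if e ∈ t.edges then nzK H J t * g e ^ 2 else 0)
      = nzK H J t * (g t.ab ^ 2 + g t.bc ^ 2 + g t.ac ^ 2) := by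
    have h2 : (∑ e ∈ S2 H f J, if e ∈ t.edges then nzK H J t * g e ^ 2 else 0)
        = ∑ e, if e ∈ t.edges then nzK H J t * g e ^ 2 else 0 := by
      refine sum_subset (subset_univ _) fun e _ he => ?_
      rw [hg e he]; simp
    rw [h2, ← sum_filter, filter_mem_eq_inter, univ_inter]
    have h3 : t.edges = {t.ab, t.bc, t.ac} := rfl
    rw [h3, sum_insert (by simp [nz_ab_bc, nz_ab_ac]), sum_insert (by simp [nz_bc_ac]),
      sum_singleton]
    ring
  have h4 := nzPr_nonneg P H f J g t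
  have hq : 0 ≤ g t.ab ^ 2 + g t.bc ^ 2 + g t.ac ^ 2 := by positivity
  rw [h1]
  by_cases hl : t.edges ⊆ low H
  · by_cases hE : (t.edges ∩ EE J).Nonempty
    · have hk : nzK H J t = 2 := by
        unfold nzK
        rw [if_neg (not_not.2 hl), if_pos hE]; norm_num
      rw [hk]
      obtain ⟨e, he⟩ := hE
      rw [mem_inter] at he
      have := nz_tri_E P f g he.1 (hEE e he.2)
      linarith
    · obtain ⟨e, he, e', he', heq, hor⟩ := nz_type3 hP hJ ht hl hE g hg
      have h5 := mul_nonneg (nzK_nonneg H J t) hq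
      rw [heq]
      rcases hor with ⟨hS, hS', hne, hadj⟩ | ⟨h0, h0'⟩
      · have := nzPr_ge g he he' hS hS' hne hadj
        linarith
      · rw [h0, h0', sub_zero]
        have h8 : (0 : ℝ) ^ 2 = 0 := by norm_num
        rw [h8]
        linarith
  · have hk : 1 ≤ nzK H J t := by
      unfold nzK
      rw [if_pos hl]
      split_ifs <;> norm_num
    have h7 := nz_tri_H P f g hlow hl
    have h10 := le_mul_of_one_le_left hq hk
    linarith

/-- the comparison of the quadratic forms -/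
private lemma nz_quad {P : Finset K} (hP : IsHalf P) {H : Finset (Fin n)} {f : Coch n K}
    {J : Finset (Tri n)} (hJ : MaxFam H f J) (g : Edg n → ℝ) (hg : ∀ e, e ∉ S2 H f J → g e = 0) :
    ∑ t ∈ Z f, (nzSg P f t.ab * g t.ab + nzSg P f t.bc * g t.bc - nzSg P f t.ac * g t.ac) ^ 2
      ≤ (∑ e ∈ S2 H f J, muF P H f J (arcOf P f e) * g e ^ 2)
        + 1 / 2 * ∑ p ∈ S2 H f J ×ˢ S2 H f J,
          if (arcG n K).Adj (arcOf P f p.1) (arcOf P f p.2) then (g p.1 - g p.2) ^ 2 else 0 := by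
  classical
  refine (sum_le_sum fun t ht => nz_tri hP hJ ht g hg).trans ?_
  rw [sum_add_distrib, ← mul_sum]
  refine add_le_add ?_ (mul_le_mul_of_nonneg_left ?_ (by norm_num))
  · rw [sum_comm]
    refine sum_le_sum fun e he => ?_
    obtain ⟨hf, hl, hE⟩ := nz_mem_S2.1 he
    have h1 : (∑ t ∈ Z f, if e ∈ t.edges then nzK H J t * g e ^ 2 else 0)
        = ((((Z f).filter fun t => e ∈ t.edges ∧ ¬ t.edges ⊆ low H).card : ℝ)
          + 2 * (((Z f).filter fun t => e ∈ t.edges ∧ (t.edges ∩ EE J).Nonempty).card : ℝ))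
          * g e ^ 2 := by
      rw [card_filter, card_filter]
      push_cast
      rw [mul_sum, ← sum_add_distrib, sum_mul]
      refine sum_congr rfl fun t _ => ?_
      unfold nzK
      by_cases a1 : e ∈ t.edges <;> by_cases a2 : t.edges ⊆ low H <;>
        by_cases a3 : (t.edges ∩ EE J).Nonempty <;> simp [a1, a2, a3]
    rw [h1]
    refine mul_le_mul_of_nonneg_right ?_ (sq_nonneg _)
    have c1 := nz_cnt_H H f hl
    have c2 := nz_cnt_J f J hE
    have c1' : (((Z f).filter fun t => e ∈ t.edges ∧ ¬ t.edges ⊆ low H).card : ℝ)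
      ≤ ((H.filter fun h => val f h e.1.2 - val f h e.1.1 = f e).card : ℝ) := by exact_mod_cast c1
    have c2' : (((Z f).filter fun t => e ∈ t.edges ∧ (t.edges ∩ EE J).Nonempty).card : ℝ)
      ≤ (degE J e.1.1 : ℝ) + degE J e.1.2 := by exact_mod_cast c2
    have hl' : e.1.1 ∉ H ∧ e.1.2 ∉ H := by simpa [low] using hl
    have hne : e.1.1 ≠ e.1.2 := ne_of_lt e.2
    have hmu : muF P H f J (arcOf P f e)
        = ((H.filter fun h => val f h e.1.2 - val f h e.1.1 = f e).card : ℝ)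
          + 2 * ((degE J e.1.1 : ℝ) + degE J e.1.2) := by
      unfold muF arcOf
      by_cases hm : f e ∈ P
      · rw [if_pos hm]
        simp only []
        rw [if_pos ⟨hne, hl'.1, hl'.2, hm⟩]
      · have hm' : - f e ∈ P := by
          by_contra h3
          exact hm ((hP.2 _ hf).2 h3)
        rw [if_neg hm]
        simp only []
        rw [if_pos ⟨hne.symm, hl'.2, hl'.1, hm'⟩]
        have h2 : (H.filter fun h => val f h e.1.1 - val f h e.1.2 = - f e)
            = H.filter fun h => val f h e.1.2 - val f h e.1.1 = f e := by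
          refine filter_congr fun h _ => ?_
          rw [← neg_sub (val f h e.1.2) (val f h e.1.1), neg_inj]
        rw [h2, add_comm (degE J e.1.2 : ℝ)]
    rw [hmu]
    linarith
  · unfold nzPr
    rw [sum_comm]
    refine sum_le_sum fun p hp => ?_
    by_cases hadj : (arcG n K).Adj (arcOf P f p.1) (arcOf P f p.2)
    · rw [if_pos hadj]
      have hne : p.1 ≠ p.2 := by
        intro h
        rw [h] at hadj
        exact (arcG n K).loopless.irrefl _ hadj
      have h1 : (∑ t ∈ Z f, if (p.1 ∈ t.edges ∧ p.2 ∈ t.edges) ∧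
          (arcG n K).Adj (arcOf P f p.1) (arcOf P f p.2) then (g p.1 - g p.2) ^ 2 else 0)
          = (((Z f).filter fun t => p.1 ∈ t.edges ∧ p.2 ∈ t.edges).card : ℝ)
            * (g p.1 - g p.2) ^ 2 := by
        rw [card_filter]
        push_cast
        rw [sum_mul]
        refine sum_congr rfl fun t _ => ?_
        by_cases a1 : p.1 ∈ t.edges ∧ p.2 ∈ t.edges
        · rw [if_pos ⟨a1, hadj⟩, if_pos a1, one_mul]
        · rw [if_neg (fun h => a1 h.1), if_neg a1, zero_mul]
      rw [h1]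
      have h2 : ((Z f).filter fun t => p.1 ∈ t.edges ∧ p.2 ∈ t.edges).card ≤ 1 := by
        rw [card_le_one]
        intro t ht t' ht'
        rw [mem_filter] at ht ht'
        exact nz_pair hne ht.2.1 ht.2.2 ht'.2.1 ht'.2.2
      have h3 : (((Z f).filter fun t => p.1 ∈ t.edges ∧ p.2 ∈ t.edges).card : ℝ) ≤ 1 := by
        exact_mod_cast h2
      exact mul_le_of_le_one_left (sq_nonneg _) h3
    · rw [if_neg hadj]
      refine le_of_eq (sum_eq_zero fun t _ => if_neg fun h => hadj h.2)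

/-! ### the two quadratic forms -/

private lemma nz_sum_D2 (t : Tri n) (u : Edg n → ℝ) :
    ∑ e, DM n e t * u e = u t.ab + u t.bc - u t.ac := by
  have h : ∀ e, DM n e t * u e = (if e = t.ab then u e else 0) + (if e = t.bc then u e else 0)
      - (if e = t.ac then u e else 0) := by
    intro e
    unfold DM D2
    rw [Matrix.of_apply]
    push_cast
    rw [sub_mul, add_mul, ite_mul, ite_mul, ite_mul, one_mul, zero_mul]
  rw [sum_congr rfl fun e _ => h e, sum_sub_distrib, sum_add_distrib]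
  simp

private lemma nz_LZ_apply (f : Coch n K) (e e' : Edg n) :
    LZ f e e' = ∑ t ∈ Z f, DM n e t * DM n e' t := by
  unfold LZ
  have h : ∑ t ∈ Z f, DM n e t * DM n e' t
      = ∑ t, if t ∈ Z f then DM n e t * DM n e' t else 0 := by
    rw [← sum_filter, filter_mem_eq_inter, univ_inter]
  rw [Matrix.mul_apply, h]
  refine sum_congr rfl fun t _ => ?_
  rw [Matrix.mul_diagonal, Matrix.transpose_apply]
  split_ifs <;> ring

private lemma nz_quad_LZ (f : Coch n K) (S : Finset (Edg n)) (u : Edg n → ℝ)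
    (hu : ∀ e, e ∉ S → u e = 0) :
    ∑ e ∈ S, ∑ e' ∈ S, LZ f e e' * u e * u e' = ∑ t ∈ Z f, (u t.ab + u t.bc - u t.ac) ^ 2 := by
  have h0 : ∀ t : Tri n, u t.ab + u t.bc - u t.ac = ∑ e ∈ S, DM n e t * u e := by
    intro t
    rw [← nz_sum_D2 t u]
    exact (sum_subset (subset_univ S) fun e _ he => by rw [hu e he, mul_zero]).symm
  have h1 : ∀ t : Tri n, (u t.ab + u t.bc - u t.ac) ^ 2
      = ∑ e ∈ S, ∑ e' ∈ S, (DM n e t * DM n e' t) * u e * u e' := by
    intro t
    rw [h0 t, sq, sum_mul_sum]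
    exact sum_congr rfl fun e _ => sum_congr rfl fun e' _ => by ring
  symm
  rw [sum_congr rfl fun t _ => h1 t, sum_comm]
  refine sum_congr rfl fun e _ => ?_
  rw [sum_comm]
  refine sum_congr rfl fun e' _ => ?_
  rw [nz_LZ_apply, sum_mul, sum_mul]

private lemma nz_lap_quad (P : Finset K) (H : Finset (Fin n)) (f : Coch n K) (J : Finset (Tri n))
    (v : S2 H f J → ℝ) :
    ∑ i : S2 H f J, ∑ j : S2 H f J,
      lapMu (arcG n K) (muF P H f J) ((S2 H f J).image (arcOf P f))
        ⟨arcOf P f i.1, mem_image_of_mem _ i.2⟩ ⟨arcOf P f j.1, mem_image_of_mem _ j.2⟩ * v i * v j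
      = (∑ i : S2 H f J, muF P H f J (arcOf P f i.1) * v i ^ 2)
        + 1 / 2 * ∑ i : S2 H f J, ∑ j : S2 H f J,
          if (arcG n K).Adj (arcOf P f i.1) (arcOf P f j.1) then (v i - v j) ^ 2 else 0 := by
  classical
  have hdeg : ∀ i : S2 H f J,
      ((((S2 H f J).image (arcOf P f)).filter fun k => (arcG n K).Adj (arcOf P f i.1) k).card : ℝ)
        = ∑ j : S2 H f J, if (arcG n K).Adj (arcOf P f i.1) (arcOf P f j.1) then (1 : ℝ) else 0 := by
    intro i
    rw [filter_image, card_image_of_injective _ (fun a b h => arcOf_inj P f h), card_filter]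
    have h := sum_coe_sort (S2 H f J)
      (fun e : Edg n => if (arcG n K).Adj (arcOf P f i.1) (arcOf P f e) then (1 : ℝ) else 0)
    rw [h]
    push_cast
    rfl
  have hent : ∀ i j : S2 H f J,
      lapMu (arcG n K) (muF P H f J) ((S2 H f J).image (arcOf P f))
        ⟨arcOf P f i.1, mem_image_of_mem _ i.2⟩ ⟨arcOf P f j.1, mem_image_of_mem _ j.2⟩ * v i * v j
      = (if i = j then ((∑ k : S2 H f J,
          if (arcG n K).Adj (arcOf P f i.1) (arcOf P f k.1) then (1 : ℝ) else 0)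
            + muF P H f J (arcOf P f i.1)) * v i ^ 2 else 0)
        - (if (arcG n K).Adj (arcOf P f i.1) (arcOf P f j.1) then v i * v j else 0) := by
    intro i j
    unfold lapMu
    rw [Matrix.of_apply]
    by_cases hij : i = j
    · subst hij
      rw [if_pos rfl, if_pos rfl, if_neg ((arcG n K).loopless.irrefl _), hdeg i]
      ring
    · have hne : (⟨arcOf P f i.1, mem_image_of_mem _ i.2⟩ :
          ((S2 H f J).image (arcOf P f) : Finset (Arc n K)))
          ≠ ⟨arcOf P f j.1, mem_image_of_mem _ j.2⟩ := by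
        intro h
        exact hij (Subtype.ext (arcOf_inj P f (Subtype.mk.inj h)))
      rw [if_neg hne, if_neg hij]
      split_ifs <;> ring
  rw [sum_congr rfl fun i _ => sum_congr rfl fun j _ => hent i j]
  have h1 : ∀ i : S2 H f J, (∑ j : S2 H f J,
      ((if i = j then ((∑ k : S2 H f J,
          if (arcG n K).Adj (arcOf P f i.1) (arcOf P f k.1) then (1 : ℝ) else 0)
            + muF P H f J (arcOf P f i.1)) * v i ^ 2 else 0)
        - (if (arcG n K).Adj (arcOf P f i.1) (arcOf P f j.1) then v i * v j else 0)))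
      = muF P H f J (arcOf P f i.1) * v i ^ 2
        + ∑ j : S2 H f J, ((if (arcG n K).Adj (arcOf P f i.1) (arcOf P f j.1) then v i ^ 2 else 0)
        - (if (arcG n K).Adj (arcOf P f i.1) (arcOf P f j.1) then v i * v j else 0)) := by
    intro i
    rw [sum_sub_distrib, sum_ite_eq, if_pos (mem_univ i), sum_sub_distrib, add_mul, sum_mul]
    have : ∀ k : S2 H f J, (if (arcG n K).Adj (arcOf P f i.1) (arcOf P f k.1) then (1 : ℝ) else 0)
        * v i ^ 2 = if (arcG n K).Adj (arcOf P f i.1) (arcOf P f k.1) then v i ^ 2 else 0 := by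
      intro k; split_ifs <;> ring
    rw [sum_congr rfl fun k _ => this k]
    ring
  rw [sum_congr rfl fun i _ => h1 i, sum_add_distrib]
  congr 1
  have h2 : (∑ i : S2 H f J, ∑ j : S2 H f J,
      if (arcG n K).Adj (arcOf P f i.1) (arcOf P f j.1) then v j ^ 2 else 0)
      = ∑ i : S2 H f J, ∑ j : S2 H f J,
      if (arcG n K).Adj (arcOf P f i.1) (arcOf P f j.1) then v i ^ 2 else 0 := by
    rw [sum_comm]
    exact sum_congr rfl fun i _ => sum_congr rfl fun j _ =>
      if_congr ((arcG n K).adj_comm _ _) rfl rfl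
  have h3 : (∑ i : S2 H f J, ∑ j : S2 H f J,
      if (arcG n K).Adj (arcOf P f i.1) (arcOf P f j.1) then (v i - v j) ^ 2 else 0)
      = (∑ i : S2 H f J, ∑ j : S2 H f J,
      if (arcG n K).Adj (arcOf P f i.1) (arcOf P f j.1) then v i ^ 2 else 0)
      + (∑ i : S2 H f J, ∑ j : S2 H f J,
      if (arcG n K).Adj (arcOf P f i.1) (arcOf P f j.1) then v j ^ 2 else 0)
      - 2 * (∑ i : S2 H f J, ∑ j : S2 H f J,
      if (arcG n K).Adj (arcOf P f i.1) (arcOf P f j.1) then v i * v j else 0) := by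
    rw [mul_sum, ← sum_add_distrib, ← sum_sub_distrib]
    refine sum_congr rfl fun i _ => ?_
    rw [mul_sum, ← sum_add_distrib, ← sum_sub_distrib]
    refine sum_congr rfl fun j _ => ?_
    split_ifs <;> ring
  rw [h3, h2]
  have h4 : (∑ i : S2 H f J, ∑ j : S2 H f J,
      ((if (arcG n K).Adj (arcOf P f i.1) (arcOf P f j.1) then v i ^ 2 else 0)
        - (if (arcG n K).Adj (arcOf P f i.1) (arcOf P f j.1) then v i * v j else 0)))
      = (∑ i : S2 H f J, ∑ j : S2 H f J,
      if (arcG n K).Adj (arcOf P f i.1) (arcOf P f j.1) then v i ^ 2 else 0)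
      - (∑ i : S2 H f J, ∑ j : S2 H f J,
      if (arcG n K).Adj (arcOf P f i.1) (arcOf P f j.1) then v i * v j else 0) := by
    rw [← sum_sub_distrib]
    exact sum_congr rfl fun i _ => sum_sub_distrib _ _
  rw [h4]
  ring

private lemma nz_LZ_psd (f : Coch n K) : (LZ f).PosSemidef :=
  psd_gram (DM n) _ fun t => by split_ifs <;> norm_num

private lemma nz_e1 (P : Finset K) (H : Finset (Fin n)) (f : Coch n K) (J : Finset (Tri n))
    (v : S2 H f J → ℝ) (g : Edg n → ℝ) (hg : ∀ e, e ∉ S2 H f J → g e = 0)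
    (hgv : ∀ i : S2 H f J, g i.1 = v i) :
    ∑ i : S2 H f J, ∑ j : S2 H f J, (nzSg P f i.1 * LZ f i.1 j.1 * nzSg P f j.1) * v i * v j
        = ∑ t ∈ Z f, (nzSg P f t.ab * g t.ab + nzSg P f t.bc * g t.bc
          - nzSg P f t.ac * g t.ac) ^ 2 := by
  have h1 := nz_quad_LZ f (S2 H f J) (fun e => nzSg P f e * g e)
    (fun e he => by rw [hg e he, mul_zero])
  rw [← h1]
  have h2 := sum_coe_sort (S2 H f J) (fun e : Edg n => ∑ e' ∈ S2 H f J,
    LZ f e e' * (nzSg P f e * g e) * (nzSg P f e' * g e'))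
  rw [← h2]
  refine sum_congr rfl fun i _ => ?_
  have h3 := sum_coe_sort (S2 H f J) (fun e' : Edg n =>
    LZ f i.1 e' * (nzSg P f i.1 * g i.1) * (nzSg P f e' * g e'))
  rw [← h3]
  refine sum_congr rfl fun j _ => ?_
  rw [hgv i, hgv j]
  ring

private lemma nz_e2 (P : Finset K) (H : Finset (Fin n)) (f : Coch n K) (J : Finset (Tri n))
    (v : S2 H f J → ℝ) (g : Edg n → ℝ) (hgv : ∀ i : S2 H f J, g i.1 = v i) :
    (∑ i : S2 H f J, muF P H f J (arcOf P f i.1) * v i ^ 2)
        + 1 / 2 * ∑ i : S2 H f J, ∑ j : S2 H f J,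
          (if (arcG n K).Adj (arcOf P f i.1) (arcOf P f j.1) then (v i - v j) ^ 2 else 0)
      = (∑ e ∈ S2 H f J, muF P H f J (arcOf P f e) * g e ^ 2)
        + 1 / 2 * ∑ p ∈ S2 H f J ×ˢ S2 H f J,
          if (arcG n K).Adj (arcOf P f p.1) (arcOf P f p.2) then (g p.1 - g p.2) ^ 2 else 0 := by
  rw [sum_product]
  have h1 := sum_coe_sort (S2 H f J) (fun e : Edg n => muF P H f J (arcOf P f e) * g e ^ 2)
  have h2 := sum_coe_sort (S2 H f J) (fun e : Edg n => ∑ e' ∈ S2 H f J,
    if (arcG n K).Adj (arcOf P f e) (arcOf P f e') then (g e - g e') ^ 2 else 0)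
  rw [← h1, ← h2]
  refine congrArg₂ (fun x y : ℝ => x + 1 / 2 * y) ?_ ?_
  · exact sum_congr rfl fun i _ => by rw [hgv i]
  · refine sum_congr rfl fun i _ => ?_
    have h3 := sum_coe_sort (S2 H f J) (fun e' : Edg n =>
      if (arcG n K).Adj (arcOf P f i.1) (arcOf P f e') then (g i.1 - g e') ^ 2 else 0)
    rw [← h3]
    exact sum_congr rfl fun j _ => by rw [hgv i, hgv j]

omit [AddCommGroup K] in
private lemma nz_det_sgn {S : Finset (Edg n)} (P : Finset K) (f : Coch n K) (A : Matrix S S ℝ) :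
    (Matrix.of fun i j : S => nzSg P f i.1 * A i j * nzSg P f j.1).det = A.det := by
  have h1 : (Matrix.of fun i j : S => nzSg P f i.1 * A i j * nzSg P f j.1)
      = Matrix.diagonal (fun e : S => nzSg P f e.1) * A
        * Matrix.diagonal (fun e : S => nzSg P f e.1) := by
    ext i j
    rw [Matrix.mul_diagonal, Matrix.diagonal_mul, Matrix.of_apply]
  have hD1 : (Matrix.diagonal (fun e : S => nzSg P f e.1)).det
      * (Matrix.diagonal (fun e : S => nzSg P f e.1)).det = 1 := by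
    rw [Matrix.det_diagonal, ← prod_mul_distrib]
    exact prod_eq_one fun e _ => nz_sg_sq P f e.1
  rw [h1, Matrix.det_mul, Matrix.det_mul]
  linear_combination A.det * hD1

omit [AddCommGroup K] in
private lemma nz_psd_sgn {S : Finset (Edg n)} (P : Finset K) (f : Coch n K) {A : Matrix S S ℝ}
    (hA : A.PosSemidef) :
    (Matrix.of fun i j : S => nzSg P f i.1 * A i j * nzSg P f j.1).PosSemidef := by
  have h1 : (Matrix.of fun i j : S => nzSg P f i.1 * A i j * nzSg P f j.1)
      = Matrix.diagonal (fun e : S => nzSg P f e.1) * A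
        * (Matrix.diagonal (fun e : S => nzSg P f e.1)).conjTranspose := by
    ext i j
    rw [Matrix.conjTranspose_eq_transpose_of_trivial, Matrix.diagonal_transpose,
      Matrix.mul_diagonal, Matrix.diagonal_mul, Matrix.of_apply]
  rw [h1]
  exact hA.mul_mul_conjTranspose_same _

theorem item_det {P : Finset K} (hP : IsHalf P) (H : Finset (Fin n)) (f : Coch n K)
    {J : Finset (Tri n)} (hJ : MaxFam H f J) :
    ((LZ f).submatrix (fun e : S2 H f J => e.1) (fun e : S2 H f J => e.1)).det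
      ≤ (lapMu (arcG n K) (muF P H f J) ((S2 H f J).image (arcOf P f))).det := by
  classical
  let ε0 : S2 H f J → ((S2 H f J).image (arcOf P f) : Finset (Arc n K)) :=
    fun e => ⟨arcOf P f e.1, mem_image_of_mem _ e.2⟩
  have hε : Function.Bijective ε0 := by
    refine ⟨fun a b h => Subtype.ext (arcOf_inj P f (Subtype.mk.inj h)), fun y => ?_⟩
    obtain ⟨e, he, hy⟩ := mem_image.1 y.2
    exact ⟨⟨e, he⟩, Subtype.ext hy⟩
  have hdB : ((lapMu (arcG n K) (muF P H f J) ((S2 H f J).image (arcOf P f))).submatrix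
      ε0 ε0).det = (lapMu (arcG n K) (muF P H f J) ((S2 H f J).image (arcOf P f))).det :=
    Matrix.det_submatrix_equiv_self (Equiv.ofBijective ε0 hε) _
  have hApsd : ((LZ f).submatrix (fun e : S2 H f J => e.1) (fun e : S2 H f J => e.1)).PosSemidef :=
    (nz_LZ_psd f).submatrix _
  rw [← nz_det_sgn P f ((LZ f).submatrix (fun e : S2 H f J => e.1) (fun e : S2 H f J => e.1)),
    ← hdB]
  have hA' := nz_psd_sgn P f hApsd
  refine det_mono hA' (psd_sub_of_forall ?_ ?_ fun v => ?_)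
  · have := hA'.1
    rwa [Matrix.IsHermitian, Matrix.conjTranspose_eq_transpose_of_trivial] at this
  · ext i j
    simp only [Matrix.transpose_apply, Matrix.submatrix_apply, lapMu, Matrix.of_apply]
    by_cases hij : i = j
    · subst hij; rfl
    · have h1 : ε0 i ≠ ε0 j := fun h => hij (hε.1 h)
      rw [if_neg h1, if_neg h1.symm]
      exact if_congr ((arcG n K).adj_comm _ _) rfl rfl
  · let g : Edg n → ℝ := fun e => if h : e ∈ S2 H f J then v ⟨e, h⟩ else 0
    have hg : ∀ e, e ∉ S2 H f J → g e = 0 := fun e h => dif_neg h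
    have hgv : ∀ i : S2 H f J, g i.1 = v i := fun i => dif_pos i.2
    have hq := nz_quad hP hJ g hg
    have e1 := nz_e1 P H f J v g hg hgv
    have e2 := (nz_lap_quad P H f J v).trans (nz_e2 P H f J v g hgv)
    exact (le_of_eq e1).trans (hq.trans (le_of_eq e2.symm))

theorem LZ_CS_psd (f : Coch n K) : (LZ f + CS f * (CS f).transpose).PosSemidef := by
  refine (nz_LZ_psd f).add ?_
  have h := psd_gram (CS f) (fun _ => (1 : ℝ)) fun _ => zero_le_one
  rwa [Matrix.diagonal_one, Matrix.mul_one] at h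

private lemma nz_CS_le (f : Coch n K) (e : Edg n) :
    (CS f * (CS f).transpose) e e ≤ (dM n * (dM n).transpose) e e := by
  rw [Matrix.mul_apply, Matrix.mul_apply]
  refine sum_le_sum fun v _ => ?_
  simp only [Matrix.transpose_apply, CS, Matrix.of_apply]
  split_ifs
  · exact le_rfl
  · rw [mul_zero]
    exact mul_self_nonneg _

private lemma nz_LZ_Dg (hn : 3 ≤ n) (f : Coch n K) (e : Edg n) :
    (dM n * (dM n).transpose) e e + LZ f e e = (Dg f e.1.1 e.1.2 : ℝ) := by
  have h := Mx_diag hn f e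
  have h1 : Mx (fun t => if t ∈ Z f then (1 : ℝ) else 0) e e
      = (1 / (n : ℝ)) * ((dM n * (dM n).transpose) e e + LZ f e e) := rfl
  rw [h1] at h
  have hn0 : (n : ℝ) ≠ 0 := by
    have : 0 < n := by omega
    exact_mod_cast this.ne'
  field_simp at h
  exact h

theorem diag_le_Dg (hn : 3 ≤ n) (f : Coch n K) (e : Edg n) :
    (LZ f + CS f * (CS f).transpose) e e ≤ (Dg f e.1.1 e.1.2 : ℝ) := by
  rw [Matrix.add_apply, ← nz_LZ_Dg hn f e]
  have := nz_CS_le f e
  linarith

theorem diag_supp (f : Coch n K) {e : Edg n} (he : f e ≠ 0) :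
    (LZ f + CS f * (CS f).transpose) e e ≤ (dgr f e.1.1 : ℝ) + dgr f e.1.2 := by
  have h0 : (CS f * (CS f).transpose) e e = 0 := by
    rw [Matrix.mul_apply]
    refine sum_eq_zero fun v _ => ?_
    simp only [Matrix.transpose_apply, CS, Matrix.of_apply, if_neg he, mul_zero]
  rw [Matrix.add_apply, h0, add_zero]
  by_cases hn : 3 ≤ n
  · have h1 := nz_LZ_Dg hn f e
    have h2 : 0 ≤ (dM n * (dM n).transpose) e e := by
      rw [Matrix.mul_apply]
      exact sum_nonneg fun v _ => mul_self_nonneg _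
    have h3 : Dg f e.1.1 e.1.2 ≤ dgr f e.1.1 + dgr f e.1.2 := by
      unfold Dg dgr
      refine (card_le_card ?_).trans (card_union_le _ _)
      intro z hz
      rw [mem_filter] at hz
      rw [mem_union, mem_filter, mem_filter]
      by_contra hcon
      push Not at hcon
      have a1 := hcon.1 (mem_univ z)
      have a2 := hcon.2 (mem_univ z)
      have a3 : val f z e.1.2 = 0 := by
        rcases lt_trichotomy e.1.2 z with h | h | h
        · rw [(nz_val f h).1] at a2
          rw [(nz_val f h).2, a2, neg_zero]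
        · rw [← h]; unfold val; simp
        · rw [(nz_val f h).2, neg_eq_zero] at a2
          rw [(nz_val f h).1, a2]
      have a4 : val f e.1.1 e.1.2 = f e := (nz_val f e.2).1
      have a5 := hz.2
      rw [a1, a3, a4, add_zero] at a5
      exact he a5.symm
    have h3' : (Dg f e.1.1 e.1.2 : ℝ) ≤ (dgr f e.1.1 : ℝ) + dgr f e.1.2 := by exact_mod_cast h3
    linarith
  · have h1 : LZ f e e = 0 := by
      rw [nz_LZ_apply]
      refine sum_eq_zero fun t _ => ?_
      exfalso
      have h1 : t.1.1 < t.1.2.1 := t.2.1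
      have h2 : t.1.2.1 < t.1.2.2 := t.2.2
      have h3 := t.1.2.2.isLt
      rw [Fin.lt_def] at h1 h2
      omega
    rw [h1]
    positivity

end

end Pool.Agent.DH10
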