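import Pool.Agent.DH10.NZDefs

/-!
# DH10.NZProd : the product over the zero edges (4.5)

For `f(y,z) = 0` and all `x`: `z` (as summation vertex) counts in `D_yz` iff `f(y,x) + f(x,z) = 0`, i.e. `f(x,y) = f(x,z)`
(also for `x = y, z`), so `D_yz = n - #{x : f(x,y) ≠ f(x,z)} ≤ n exp(-#{x : f(x,y) ≠ f(x,z)}/n)`.  Sum over the edges `yz` in
`low H` with `f(y,z) = 0`:
 * `x ∈ H`: `XX H f x` minus the number of such `yz` in the support: `≥ XX H f x - sl`, `sl = |suppE f ∩ low H|`;
 * `x ∉ H`: at least the number of pairs `{y,z}`, `y,z ∉ H`, `y,z ≠ x`, with exactly one of `xy, xz` in the support, minus those with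
   `yz` in the support.  With `d_x` = number of support edges at `x` inside `low H`, the first number is `d_x (|U| - 1 - d_x)`,
   `|U| = n - |H|`, `∑_x d_x = 2 sl`; the sum over `x` of the second is `≤ ∑_{yz ∈ supp, low} (d_y + d_z) = ∑ d_y²`.
Total `≥ ∑_{x∈H} XX - |H| sl + 2 sl (n-|H|-1) - 2 ∑ d² ≥ ∑ XX + 2 sl (n - 1 - 2|H| - 2Δ)`, using `d_x ≤ Δ`.
-/

set_option autoImplicit false

open Finset

namespace Pool.Agent.DH10

noncomputable section

variable {n : ℕ} {K : Type} [AddCommGroup K] [DecidableEq K]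

omit [DecidableEq K] in
private theorem nzp_anti (f : Coch n K) (x y : Fin n) : val f y x = - val f x y := by
  unfold val
  rcases lt_trichotomy x y with h | h | h
  · simp [h, h.not_gt]
  · subst h
    simp
  · simp [h, h.not_gt]

omit [DecidableEq K] in
private theorem nzp_self (f : Coch n K) (x : Fin n) : val f x x = 0 := by
  unfold val
  simp

omit [DecidableEq K] in
private theorem nzp_lt (f : Coch n K) (e : Edg n) : val f e.1.1 e.1.2 = f e := by
  unfold val
  rw [dif_pos e.2]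

private theorem nzp_sum_symm (g : Fin n → Fin n → ℝ) (hg : ∀ x y, g x y = g y x)
    (h0 : ∀ x, g x x = 0) : ∑ x, ∑ y, g x y = 2 * ∑ e : Edg n, g e.1.1 e.1.2 := by
  classical
  have h1 : ∑ e : Edg n, g e.1.1 e.1.2 =
      ∑ p ∈ (univ : Finset (Fin n × Fin n)).filter (fun p => p.1 < p.2), g p.1 p.2 := by
    rw [Finset.sum_subtype ((univ : Finset (Fin n × Fin n)).filter (fun p => p.1 < p.2))
      (p := fun p => p.1 < p.2) (by simp)]
  have h2 : ∑ p ∈ (univ : Finset (Fin n × Fin n)).filter (fun p => p.2 < p.1), g p.1 p.2 =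
      ∑ p ∈ (univ : Finset (Fin n × Fin n)).filter (fun p => p.1 < p.2), g p.1 p.2 := by
    refine Finset.sum_nbij' Prod.swap Prod.swap ?_ ?_ ?_ ?_ ?_
    · intro p hp
      simpa using hp
    · intro p hp
      simpa using hp
    · intro p _
      simp
    · intro p _
      simp
    · intro p _
      exact hg _ _
  have h3 : ∑ x, ∑ y, g x y = ∑ p : Fin n × Fin n, g p.1 p.2 := by
    rw [← Finset.univ_product_univ, Finset.sum_product]
  have h4 : ∑ p : Fin n × Fin n, g p.1 p.2 =
      ∑ p ∈ (univ : Finset (Fin n × Fin n)).filter (fun p => p.1 < p.2), g p.1 p.2 +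
      ∑ p ∈ (univ : Finset (Fin n × Fin n)).filter (fun p => p.2 < p.1), g p.1 p.2 := by
    rw [← Finset.sum_filter_add_sum_filter_not univ (fun p : Fin n × Fin n => p.1 < p.2)]
    congr 1
    symm
    refine Finset.sum_subset ?_ ?_
    · intro p hp
      simp only [Finset.mem_filter, Finset.mem_univ, true_and] at hp ⊢
      exact hp.not_gt
    · intro p hp hp2
      simp only [Finset.mem_filter, Finset.mem_univ, true_and] at hp hp2
      have : p.1 = p.2 := le_antisymm (not_lt.mp hp2) (not_lt.mp hp)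
      rw [this]
      exact h0 _
  rw [h3, h4, h2, h1]
  ring

private theorem nzp_Dg (f : Coch n K) (e : Edg n) (he : f e = 0) :
    (Dg f e.1.1 e.1.2 : ℝ) =
      n - ∑ x : Fin n, (if val f x e.1.1 ≠ val f x e.1.2 then (1 : ℝ) else 0) := by
  have h1 : Dg f e.1.1 e.1.2 =
      (univ.filter fun x => ¬ (val f x e.1.1 ≠ val f x e.1.2)).card := by
    unfold Dg
    congr 1
    ext x
    simp only [Finset.mem_filter, Finset.mem_univ, true_and, not_not]
    rw [nzp_lt, he, nzp_anti f x e.1.1]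
    constructor
    · intro h
      have : val f x e.1.2 = val f x e.1.1 := by
        rwa [neg_add_eq_zero, eq_comm] at h
      exact this.symm
    · intro h
      rw [h]
      abel
  have h2 := Finset.card_filter_add_card_filter_not (s := (univ : Finset (Fin n)))
    (fun x => val f x e.1.1 ≠ val f x e.1.2)
  rw [← Finset.sum_filter, Finset.sum_const, nsmul_eq_mul, mul_one, h1]
  rw [Finset.card_univ, Fintype.card_fin] at h2
  have h3 : (n : ℝ) = ((univ.filter fun x => val f x e.1.1 ≠ val f x e.1.2).card : ℝ) +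
      ((univ.filter fun x => ¬ (val f x e.1.1 ≠ val f x e.1.2)).card : ℝ) := by
    exact_mod_cast h2.symm
  rw [h3]
  ring

/-- indicator of a support pair -/
private def nzpN (f : Coch n K) (x y : Fin n) : ℝ := if val f x y ≠ 0 then 1 else 0

private def nzpU (H : Finset (Fin n)) (x : Fin n) : ℝ := if x ∈ H then 0 else 1

private def nzpB (f : Coch n K) (x y z : Fin n) : ℝ :=
  nzpN f x y * (1 - nzpN f x z) + nzpN f x z * (1 - nzpN f x y)

private theorem nzpN_symm (f : Coch n K) (x y : Fin n) : nzpN f x y = nzpN f y x := by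
  unfold nzpN
  rw [nzp_anti f x y]
  simp

private theorem nzpN_cases (f : Coch n K) (x y : Fin n) : nzpN f x y = 0 ∨ nzpN f x y = 1 := by
  unfold nzpN
  split_ifs
  · exact Or.inr rfl
  · exact Or.inl rfl

private theorem nzpN_nonneg (f : Coch n K) (x y : Fin n) : 0 ≤ nzpN f x y := by
  unfold nzpN
  split_ifs <;> norm_num

private theorem nzpU_nonneg (H : Finset (Fin n)) (x : Fin n) : 0 ≤ nzpU H x := by
  unfold nzpU
  split_ifs <;> norm_num

private theorem nzpB_le (f : Coch n K) (x y z : Fin n) :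
    nzpB f x y z ≤ if val f x y ≠ val f x z then (1 : ℝ) else 0 := by
  unfold nzpB nzpN
  by_cases h1 : val f x y = 0 <;> by_cases h2 : val f x z = 0 <;> by_cases h3 : val f x y = val f x z
  all_goals simp_all

private theorem nzpB_le2 (f : Coch n K) (x y z : Fin n) :
    nzpB f x y z ≤ nzpN f x y + nzpN f x z := by
  unfold nzpB
  rcases nzpN_cases f x y with h | h <;> rcases nzpN_cases f x z with h' | h' <;> rw [h, h'] <;>
    norm_num

private def nzpD (H : Finset (Fin n)) (f : Coch n K) (x : Fin n) : ℝ :=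
  ∑ y, nzpU H y * nzpN f x y

private theorem nzpD_le (H : Finset (Fin n)) (f : Coch n K) (x : Fin n) :
    nzpD H f x ≤ dgr f x := by
  unfold nzpD dgr nzpN
  rw [Finset.card_filter]
  push_cast
  refine Finset.sum_le_sum fun y _ => ?_
  unfold nzpU
  split_ifs <;> norm_num

private theorem nzpD_nonneg (H : Finset (Fin n)) (f : Coch n K) (x : Fin n) :
    0 ≤ nzpD H f x :=
  Finset.sum_nonneg fun y _ => mul_nonneg (nzpU_nonneg H y) (nzpN_nonneg f x y)

private theorem nzp_low (H : Finset (Fin n)) (F : Edg n → ℝ) :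
    ∑ e ∈ low H, F e = ∑ e, nzpU H e.1.1 * nzpU H e.1.2 * F e := by
  unfold low
  rw [Finset.sum_filter]
  refine Finset.sum_congr rfl fun e _ => ?_
  unfold nzpU
  by_cases h1 : e.1.1 ∈ H <;> by_cases h2 : e.1.2 ∈ H <;> simp [h1, h2]

private theorem nzp_cardU (H : Finset (Fin n)) : ∑ z, nzpU H z = (n : ℝ) - H.card := by
  classical
  have h1 : ∀ z, nzpU H z = 1 - (if z ∈ H then (1 : ℝ) else 0) := by
    intro z
    unfold nzpU
    split_ifs <;> norm_num
  rw [Finset.sum_congr rfl fun z _ => h1 z, Finset.sum_sub_distrib]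
  simp

private theorem nzp_pairs (H : Finset (Fin n)) (f : Coch n K) (x : Fin n) :
    ∑ e ∈ low H, nzpB f x e.1.1 e.1.2 = nzpD H f x * ((n : ℝ) - H.card - nzpD H f x) := by
  rw [nzp_low]
  have h1 := nzp_sum_symm (n := n) (fun y z => nzpU H y * nzpU H z * nzpB f x y z)
    (fun y z => by unfold nzpB; ring)
    (fun y => by
      unfold nzpB
      rcases nzpN_cases f x y with h | h <;> rw [h] <;> norm_num)
  have h2 : ∑ y, ∑ z, nzpU H y * nzpU H z * nzpB f x y z =
      2 * (nzpD H f x * ((n : ℝ) - H.card - nzpD H f x)) := by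
    have h3 : ∀ y z, nzpU H y * nzpU H z * nzpB f x y z =
        (nzpU H y * nzpN f x y) * nzpU H z + nzpU H y * (nzpU H z * nzpN f x z) -
          2 * ((nzpU H y * nzpN f x y) * (nzpU H z * nzpN f x z)) := by
      intro y z
      unfold nzpB
      ring
    simp_rw [h3, Finset.sum_sub_distrib, Finset.sum_add_distrib, ← Finset.mul_sum,
      ← Finset.sum_mul]
    rw [nzp_cardU]
    change nzpD H f x * _ + _ * nzpD H f x - 2 * (nzpD H f x * nzpD H f x) = _
    ring
  linarith

private theorem nzp_deg (H : Finset (Fin n)) (f : Coch n K) :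
    ∑ x, nzpU H x * nzpD H f x = 2 * ((suppE f ∩ low H).card : ℝ) := by
  have h1 := nzp_sum_symm (n := n) (fun x y => nzpU H x * nzpU H y * nzpN f x y)
    (fun y z => by rw [nzpN_symm f z y]; ring)
    (fun y => by
      unfold nzpN
      rw [nzp_self]
      simp)
  have h2 : ((suppE f ∩ low H).card : ℝ) = ∑ e : Edg n, nzpU H e.1.1 * nzpU H e.1.2 *
      nzpN f e.1.1 e.1.2 := by
    rw [← nzp_low H (fun e => nzpN f e.1.1 e.1.2)]
    have h3 : suppE f ∩ low H = (low H).filter (fun e => f e ≠ 0) := by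
      ext e
      simp [suppE, and_comm]
    rw [h3, Finset.card_filter]
    push_cast
    refine Finset.sum_congr rfl fun e _ => ?_
    unfold nzpN
    rw [nzp_lt]
  rw [h2, ← h1]
  refine Finset.sum_congr rfl fun x _ => ?_
  unfold nzpD
  rw [Finset.mul_sum]
  refine Finset.sum_congr rfl fun y _ => ?_
  ring

private theorem nzp_total (H : Finset (Fin n)) (f : Coch n K) {Δ : ℕ}
    (hΔ : ∀ x, x ∉ H → dgr f x ≤ Δ) :
    2 * ((suppE f ∩ low H).card : ℝ) * ((n : ℝ) - 2 * H.card - 2 * Δ) + ∑ x ∈ H, (XX H f x : ℝ)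
      ≤ ∑ x, ∑ e ∈ (low H).filter (fun e => f e = 0),
        (if val f x e.1.1 ≠ val f x e.1.2 then (1 : ℝ) else 0) := by
  classical
  set sl : ℝ := ((suppE f ∩ low H).card : ℝ) with hsl
  have hsl0 : 0 ≤ sl := by positivity
  set F : Fin n → ℝ := fun x => ∑ e ∈ (low H).filter (fun e => f e = 0),
        (if val f x e.1.1 ≠ val f x e.1.2 then (1 : ℝ) else 0) with hF
  have hsupp : suppE f ∩ low H = (low H).filter (fun e => ¬ f e = 0) := by
    ext e
    simp [suppE, and_comm]
  -- hubs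
  have hH : ∀ x ∈ H, (XX H f x : ℝ) - sl ≤ F x := by
    intro x _
    have h1 : (XX H f x : ℝ) = ∑ e ∈ low H,
        (if val f x e.1.1 ≠ val f x e.1.2 then (1 : ℝ) else 0) := by
      unfold XX
      rw [Finset.card_filter]
      push_cast
      rfl
    have h2 := Finset.sum_filter_add_sum_filter_not (low H) (fun e => f e = 0)
      (fun e => if val f x e.1.1 ≠ val f x e.1.2 then (1 : ℝ) else 0)
    have h3 : ∑ e ∈ (low H).filter (fun e => ¬ f e = 0),
        (if val f x e.1.1 ≠ val f x e.1.2 then (1 : ℝ) else 0) ≤ sl := by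
      rw [hsl, hsupp, ← nsmul_one, ← Finset.sum_const]
      refine Finset.sum_le_sum fun e _ => ?_
      split_ifs <;> norm_num
    rw [h1, ← h2]
    simp only [hF]
    linarith
  -- low vertices
  have hU : ∀ x, x ∉ H → nzpD H f x * ((n : ℝ) - H.card - nzpD H f x) -
      ∑ e ∈ suppE f ∩ low H, (nzpN f x e.1.1 + nzpN f x e.1.2) ≤ F x := by
    intro x _
    rw [← nzp_pairs, hsupp]
    have h2 := Finset.sum_filter_add_sum_filter_not (low H) (fun e => f e = 0)
      (fun e => nzpB f x e.1.1 e.1.2)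
    have h3 : ∑ e ∈ (low H).filter (fun e => ¬ f e = 0), nzpB f x e.1.1 e.1.2 ≤
        ∑ e ∈ (low H).filter (fun e => ¬ f e = 0), (nzpN f x e.1.1 + nzpN f x e.1.2) :=
      Finset.sum_le_sum fun e _ => nzpB_le2 f x _ _
    have h4 : ∑ e ∈ (low H).filter (fun e => f e = 0), nzpB f x e.1.1 e.1.2 ≤ F x :=
      Finset.sum_le_sum fun e _ => nzpB_le f x _ _
    linarith
  have hD : ∀ x, x ∉ H → nzpD H f x ≤ Δ := fun x hx =>
    (nzpD_le H f x).trans (by exact_mod_cast hΔ x hx)
  -- sum over all vertices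
  have hsplit : ∑ x, F x = ∑ x ∈ H, F x + ∑ x ∈ univ \ H, F x := by
    rw [add_comm, Finset.sum_sdiff (Finset.subset_univ H)]
  have hHs : ∑ x ∈ H, (XX H f x : ℝ) - H.card * sl ≤ ∑ x ∈ H, F x := by
    calc ∑ x ∈ H, (XX H f x : ℝ) - H.card * sl = ∑ x ∈ H, ((XX H f x : ℝ) - sl) := by
          rw [Finset.sum_sub_distrib, Finset.sum_const, nsmul_eq_mul]
      _ ≤ _ := Finset.sum_le_sum hH
  have hnotH : ∀ x ∈ univ \ H, x ∉ H := fun x hx => (Finset.mem_sdiff.mp hx).2
  have hUsum : ∀ g : Fin n → ℝ, ∑ x ∈ univ \ H, g x = ∑ x, nzpU H x * g x := by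
    intro g
    rw [← Finset.sum_sdiff (Finset.subset_univ H) (f := fun x => nzpU H x * g x)]
    have h1 : ∑ x ∈ H, nzpU H x * g x = 0 :=
      Finset.sum_eq_zero fun x hx => by simp [nzpU, hx]
    rw [h1, add_zero]
    refine Finset.sum_congr rfl fun x hx => ?_
    simp [nzpU, hnotH x hx]
  have hU1 : 2 * sl * ((n : ℝ) - H.card - Δ) ≤
      ∑ x ∈ univ \ H, nzpD H f x * ((n : ℝ) - H.card - nzpD H f x) := by
    have h1 : 2 * sl * ((n : ℝ) - H.card - Δ) =
        ∑ x ∈ univ \ H, nzpD H f x * ((n : ℝ) - H.card - Δ) := by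
      rw [← Finset.sum_mul, hUsum, nzp_deg]
    rw [h1]
    refine Finset.sum_le_sum fun x hx => ?_
    refine mul_le_mul_of_nonneg_left ?_ (nzpD_nonneg H f x)
    linarith [hD x (hnotH x hx)]
  have hU2 : ∑ x ∈ univ \ H, ∑ e ∈ suppE f ∩ low H, (nzpN f x e.1.1 + nzpN f x e.1.2) ≤
      2 * Δ * sl := by
    rw [Finset.sum_comm]
    calc ∑ e ∈ suppE f ∩ low H, ∑ x ∈ univ \ H, (nzpN f x e.1.1 + nzpN f x e.1.2)
        ≤ ∑ e ∈ suppE f ∩ low H, (2 * (Δ : ℝ)) := by
          refine Finset.sum_le_sum fun e he => ?_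
          have hlow : e.1.1 ∉ H ∧ e.1.2 ∉ H := by
            have := (Finset.mem_inter.mp he).2
            simpa [low] using this
          rw [Finset.sum_add_distrib, hUsum, hUsum]
          have h1 : ∀ v, ∑ x, nzpU H x * nzpN f x v = nzpD H f v := by
            intro v
            unfold nzpD
            refine Finset.sum_congr rfl fun x _ => ?_
            rw [nzpN_symm]
          rw [h1, h1]
          linarith [hD _ hlow.1, hD _ hlow.2]
      _ = 2 * Δ * sl := by
          rw [Finset.sum_const, nsmul_eq_mul]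
          ring
  have hUs : 2 * sl * ((n : ℝ) - H.card - Δ) - 2 * Δ * sl ≤ ∑ x ∈ univ \ H, F x := by
    calc 2 * sl * ((n : ℝ) - H.card - Δ) - 2 * Δ * sl
        ≤ ∑ x ∈ univ \ H, (nzpD H f x * ((n : ℝ) - H.card - nzpD H f x) -
          ∑ e ∈ suppE f ∩ low H, (nzpN f x e.1.1 + nzpN f x e.1.2)) := by
          rw [Finset.sum_sub_distrib]
          linarith
      _ ≤ _ := Finset.sum_le_sum fun x hx => hU x (hnotH x hx)
  rw [hsplit]
  have hpos : 0 ≤ sl * (H.card : ℝ) := by positivity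
  nlinarith

theorem sc_prod (hn : 3 ≤ n) (H : Finset (Fin n)) (f : Coch n K) {Δ : ℕ}
    (hΔ : ∀ x, x ∉ H → dgr f x ≤ Δ) :
    ∏ e ∈ (low H).filter (fun e => f e = 0), ((Dg f e.1.1 e.1.2 : ℝ) / n)
      ≤ Real.exp (-2 * ((suppE f ∩ low H).card : ℝ) * (1 - 1 / n - 2 * H.card / n - 2 * Δ / n)
          - (∑ x ∈ H, (XX H f x : ℝ)) / n) := by
  have hn0 : (0 : ℝ) < n := by
    have : 0 < n := by omega
    exact_mod_cast this
  have h1 : ∏ e ∈ (low H).filter (fun e => f e = 0), ((Dg f e.1.1 e.1.2 : ℝ) / n) ≤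
      ∏ e ∈ (low H).filter (fun e => f e = 0),
        Real.exp (-(∑ x : Fin n, (if val f x e.1.1 ≠ val f x e.1.2 then (1 : ℝ) else 0)) / n) := by
    refine Finset.prod_le_prod (fun e _ => by positivity) fun e he => ?_
    have he0 : f e = 0 := (Finset.mem_filter.mp he).2
    rw [nzp_Dg f e he0]
    have h2 := Real.add_one_le_exp
      (-(∑ x : Fin n, (if val f x e.1.1 ≠ val f x e.1.2 then (1 : ℝ) else 0)) / n)
    refine le_trans (le_of_eq ?_) h2
    field_simp
    ring
  refine h1.trans ?_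
  rw [← Real.exp_sum]
  refine Real.exp_le_exp.mpr ?_
  rw [← Finset.sum_div, Finset.sum_neg_distrib, Finset.sum_comm]
  have h3 := nzp_total H f hΔ
  have h4 : -2 * ((suppE f ∩ low H).card : ℝ) * (1 - 1 / n - 2 * H.card / n - 2 * Δ / n)
          - (∑ x ∈ H, (XX H f x : ℝ)) / n =
      -(2 * ((suppE f ∩ low H).card : ℝ) * ((n : ℝ) - 1 - 2 * H.card - 2 * Δ) +
        ∑ x ∈ H, (XX H f x : ℝ)) / n := by
    field_simp
    ring
  rw [h4]
  refine div_le_div_of_nonneg_right ?_ hn0.le
  have h5 : 0 ≤ ((suppE f ∩ low H).card : ℝ) := by positivity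
  nlinarith

theorem Dg_le (f : Coch n K) (x y : Fin n) : Dg f x y ≤ n := by
  unfold Dg
  refine (Finset.card_le_univ _).trans ?_
  rw [Fintype.card_fin]

theorem Dg_symm (f : Coch n K) (x y : Fin n) : Dg f x y = Dg f y x := by
  unfold Dg
  congr 1
  ext z
  simp only [Finset.mem_filter, Finset.mem_univ, true_and]
  rw [nzp_anti f z y, nzp_anti f x z, nzp_anti f x y]
  constructor
  · intro h
    rw [← h]
    abel
  · intro h
    rw [← neg_inj, ← h]
    abel

end

end Pool.Agent.DH10
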