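import Pool.Agent.DH10.RBound
import Pool.Agent.DH10.NZItem
import Pool.Agent.DH10.NZTrick
import Pool.Agent.DH10.NZProd

/-!
# DH10.NZPoint : pointwise bound for `w f` (4.4)

Proof.  `w_le_R`; then `det_le_block` (Fischer-Hadamard) with `S = S2 H f J`; the submatrix of `LZ + CS CSᵀ` on `S2` is that of
`LZ` (`CS` has zero rows on the support), `item_det`.  The complement of `S2` in `Edg n` is the disjoint union of
`EE J` (diagonal `≤ dgr + dgr`, `diag_supp`, `trick`), the zero edges in `low H` (`diag_le_Dg`, `sc_prod`), the edges with exactly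
one endpoint in `H` (`diag_le_Dg`; each corresponds to one pair `(x,y)`, `x ∈ H`, `y ∉ H`, `Dg_symm`) and the edges inside `H`
(`Dg ≤ n`, factor `≤ 1`).  Divide by `n^{|E|}`.
-/

set_option autoImplicit false

open Finset

namespace Pool.Agent.DH10

noncomputable section

variable {n : ℕ} {K : Type} [AddCommGroup K] [DecidableEq K]


/-! ### auxiliary -/

private theorem npt_mem_low {H : Finset (Fin n)} {e : Edg n} :
    e ∈ low H ↔ e.1.1 ∉ H ∧ e.1.2 ∉ H := by
  unfold low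
  rw [Finset.mem_filter]
  exact ⟨fun h => h.2, fun h => ⟨Finset.mem_univ _, h⟩⟩

private theorem npt_mem_supp {f : Coch n K} {e : Edg n} : e ∈ suppE f ↔ f e ≠ 0 := by
  unfold suppE
  rw [Finset.mem_filter]
  exact ⟨fun h => h.2, fun h => ⟨Finset.mem_univ _, h⟩⟩

private theorem npt_EE {H : Finset (Fin n)} {f : Coch n K} {J : Finset (Tri n)} (hJ : MaxFam H f J)
    {e : Edg n} (he : e ∈ EE J) : e ∈ suppE f ∧ e ∈ low H := by
  obtain ⟨t, ht, het⟩ := Finset.mem_biUnion.mp he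
  have h := hJ.2.1 t ht
  exact ⟨h.2.1 het, h.2.2 het⟩

/-- edges with an endpoint in `H` -/
private theorem npt_hub_prod (hn : 3 ≤ n) (H : Finset (Fin n)) (f : Coch n K) :
    ∏ e ∈ (low H)ᶜ, ((Dg f e.1.1 e.1.2 : ℝ) / n)
      ≤ ∏ x ∈ H, ∏ y ∈ univ.filter (fun y => y ∉ H), ((Dg f x y : ℝ) / n) := by
  classical
  have hn0 : (0 : ℝ) < n := by
    have : 0 < n := by omega
    exact_mod_cast this
  have hle1 : ∀ x y, (Dg f x y : ℝ) / n ≤ 1 := fun x y => by
    rw [div_le_one hn0]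
    exact_mod_cast Dg_le f x y
  have h0 : ∀ x y, 0 ≤ (Dg f x y : ℝ) / n := fun x y => by positivity
  set T : Finset (Edg n) := univ.filter fun e => (e.1.1 ∈ H ∧ e.1.2 ∉ H) ∨ (e.1.1 ∉ H ∧ e.1.2 ∈ H) with hT
  have hmem : ∀ e, e ∈ T ↔ ((e.1.1 ∈ H ∧ e.1.2 ∉ H) ∨ (e.1.1 ∉ H ∧ e.1.2 ∈ H)) := fun e => by
    rw [hT, Finset.mem_filter]
    exact ⟨fun h => h.2, fun h => ⟨Finset.mem_univ _, h⟩⟩
  have hsub : T ⊆ (low H)ᶜ := by
    intro e he
    rw [Finset.mem_compl, npt_mem_low]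
    rcases (hmem e).mp he with h | h
    · exact fun q => q.1 h.1
    · exact fun q => q.2 h.2
  have h1 : ∏ e ∈ (low H)ᶜ, ((Dg f e.1.1 e.1.2 : ℝ) / n) ≤ ∏ e ∈ T, ((Dg f e.1.1 e.1.2 : ℝ) / n) := by
    rw [← Finset.prod_sdiff hsub]
    have h2 : ∏ e ∈ (low H)ᶜ \ T, ((Dg f e.1.1 e.1.2 : ℝ) / n) ≤ 1 :=
      Finset.prod_le_one (fun e _ => h0 _ _) (fun e _ => hle1 _ _)
    have h3 : 0 ≤ ∏ e ∈ T, ((Dg f e.1.1 e.1.2 : ℝ) / n) := Finset.prod_nonneg fun e _ => h0 _ _
    calc _ ≤ 1 * ∏ e ∈ T, ((Dg f e.1.1 e.1.2 : ℝ) / n) := mul_le_mul_of_nonneg_right h2 h3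
      _ = _ := one_mul _
  refine h1.trans (le_of_eq ?_)
  rw [← Finset.prod_product' H (univ.filter fun y => y ∉ H) (fun x y => ((Dg f x y : ℝ) / n))]
  refine Finset.prod_bij (fun e _ => if e.1.1 ∈ H then (e.1.1, e.1.2) else (e.1.2, e.1.1)) ?_ ?_ ?_ ?_
  · intro e he
    rw [Finset.mem_product, Finset.mem_filter]
    rcases (hmem e).mp he with h | h
    · rw [if_pos h.1]
      exact ⟨h.1, Finset.mem_univ _, h.2⟩
    · rw [if_neg h.1]
      exact ⟨h.2, Finset.mem_univ _, h.1⟩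
  · intro e he e' he' hee
    have q := e.2
    have q' := e'.2
    rcases (hmem e).mp he with h | h <;> rcases (hmem e').mp he' with h' | h'
    · rw [if_pos h.1, if_pos h'.1, Prod.mk.injEq] at hee
      exact Subtype.ext (Prod.ext hee.1 hee.2)
    · rw [if_pos h.1, if_neg h'.1, Prod.mk.injEq] at hee
      rw [hee.1, hee.2] at q
      exact absurd q q'.not_gt
    · rw [if_neg h.1, if_pos h'.1, Prod.mk.injEq] at hee
      rw [hee.1, hee.2] at q
      exact absurd q q'.not_gt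
    · rw [if_neg h.1, if_neg h'.1, Prod.mk.injEq] at hee
      exact Subtype.ext (Prod.ext hee.2 hee.1)
  · rintro ⟨x, y⟩ hxy
    rw [Finset.mem_product, Finset.mem_filter] at hxy
    simp only at hxy
    obtain ⟨hx, _, hy⟩ := hxy
    have hne : x ≠ y := fun h => hy (h ▸ hx)
    rcases lt_or_gt_of_ne hne with hlt | hlt
    · refine ⟨⟨(x, y), hlt⟩, (hmem _).mpr (Or.inl ⟨hx, hy⟩), ?_⟩
      simp only
      rw [if_pos hx]
    · refine ⟨⟨(y, x), hlt⟩, (hmem _).mpr (Or.inr ⟨hy, hx⟩), ?_⟩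
      simp only
      rw [if_neg hy]
  · intro e he
    rcases (hmem e).mp he with h | h
    · rw [if_pos h.1]
    · rw [if_neg h.1, Dg_symm]

private theorem npt_sub (H : Finset (Fin n)) (f : Coch n K) (J : Finset (Tri n)) :
    (LZ f + CS f * (CS f).transpose).submatrix (fun e : S2 H f J => e.1) (fun e : S2 H f J => e.1)
      = (LZ f).submatrix (fun e : S2 H f J => e.1) (fun e : S2 H f J => e.1) := by
  ext e e'
  rw [Matrix.submatrix_apply, Matrix.submatrix_apply, Matrix.add_apply]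
  have h1 : f e.1 ≠ 0 := by
    have h2 := e.2
    unfold S2 at h2
    rw [Finset.mem_sdiff, Finset.mem_inter] at h2
    exact npt_mem_supp.mp h2.1.1
  have h3 : (CS f * (CS f).transpose) e.1 e'.1 = 0 := by
    rw [Matrix.mul_apply]
    refine Finset.sum_eq_zero fun v _ => ?_
    unfold CS
    rw [Matrix.of_apply, if_neg h1, zero_mul]
  rw [h3, add_zero]

theorem w_le_point (hn : 3 ≤ n) {P : Finset K} (hP : IsHalf P) (H : Finset (Fin n)) (f : Coch n K)
    {J : Finset (Tri n)} (hJ : MaxFam H f J) {Δ : ℕ} (hΔ : ∀ x, x ∉ H → dgr f x ≤ Δ)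
    {η : ℝ} (hη : 0 < η) (hη1 : η ≤ 1) {c : ℝ} (hc : 0 < c) (hc1 : c < 1)
    (h : ∀ g : Fin n → ℝ, ∑ e ∈ suppE f, (g e.1.2 - g e.1.1) ^ 2 ≤ (1 - c) * n * ∑ x, g x ^ 2) :
    w f ≤ Real.exp (4 * ((-Real.log c) / (1 - c)) * (suppE f).card / n) *
      Real.exp (η * (2 * (S2 H f J).card + (SH H f).card)) *
      ((1 / (n : ℝ)) ^ (S2 H f J).card *
        (lapMu (arcG n K) (muF P H f J) ((S2 H f J).image (arcOf P f))).det) *
      (∏ e ∈ EE J, (((degE J e.1.1 : ℝ) + degE J e.1.2) / (η * n))) *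
      Real.exp (-2 * ((suppE f ∩ low H).card : ℝ) * (1 - 1 / n - 2 * H.card / n - 2 * Δ / n)
          - (∑ x ∈ H, (XX H f x : ℝ)) / n) *
      ∏ x ∈ H, ∏ y ∈ univ.filter (fun y => y ∉ H), ((Dg f x y : ℝ) / n) := by
  classical
  have hn0 : (0 : ℝ) < n := by
    have : 0 < n := by omega
    exact_mod_cast this
  set M := LZ f + CS f * (CS f).transpose with hM
  have hpsd : M.PosSemidef := LZ_CS_psd f
  have hdiag : ∀ e, 0 ≤ M e e := fun e => hpsd.diag_nonneg
  have h1 := w_le_R hn f hc hc1 h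
  rw [← hM] at h1
  refine h1.trans ?_
  -- determinant
  have h2 := det_le_block hpsd (S2 H f J)
  have h3 : (M.submatrix (fun e : S2 H f J => e.1) (fun e : S2 H f J => e.1)).det ≤
      (lapMu (arcG n K) (muF P H f J) ((S2 H f J).image (arcOf P f))).det := by
    rw [hM, npt_sub]
    exact item_det hP H f hJ
  have h4 : 0 ≤ ∏ e ∈ (S2 H f J)ᶜ, M e e := Finset.prod_nonneg fun e _ => hdiag e
  have h3' : 0 ≤ (M.submatrix (fun e : S2 H f J => e.1) (fun e : S2 H f J => e.1)).det :=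
    (hpsd.submatrix _).det_nonneg
  have h5 : M.det / (n : ℝ) ^ (Fintype.card (Edg n)) ≤
      ((1 / (n : ℝ)) ^ (S2 H f J).card *
        (lapMu (arcG n K) (muF P H f J) ((S2 H f J).image (arcOf P f))).det) *
        ∏ e ∈ (S2 H f J)ᶜ, (M e e / n) := by
    have h6 : Fintype.card (Edg n) = (S2 H f J).card + ((S2 H f J)ᶜ).card := by
      rw [Finset.card_add_card_compl]
    rw [Finset.prod_div_distrib, Finset.prod_const, h6, pow_add, div_le_iff₀ (by positivity)]
    refine (h2.trans (mul_le_mul_of_nonneg_right h3 h4)).trans (le_of_eq ?_)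
    rw [one_div, inv_pow]
    field_simp
  -- the three parts of the complement
  have hcompl : (S2 H f J)ᶜ = (EE J ∪ (low H).filter (fun e => f e = 0)) ∪ (low H)ᶜ := by
    ext e
    rw [Finset.mem_compl, Finset.mem_union, Finset.mem_union, Finset.mem_compl, Finset.mem_filter]
    unfold S2
    rw [Finset.mem_sdiff, Finset.mem_inter, npt_mem_supp]
    constructor
    · intro q
      by_cases q1 : e ∈ low H
      · by_cases q2 : f e = 0
        · exact Or.inl (Or.inr ⟨q1, q2⟩)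
        · by_cases q3 : e ∈ EE J
          · exact Or.inl (Or.inl q3)
          · exact absurd ⟨⟨q2, q1⟩, q3⟩ q
      · exact Or.inr q1
    · rintro ((q | q) | q) ⟨⟨r1, r2⟩, r3⟩
      · exact r3 q
      · exact r1 q.2
      · exact q r2
  have hd1 : Disjoint (EE J) ((low H).filter (fun e => f e = 0)) := by
    rw [Finset.disjoint_left]
    intro e he he2
    exact npt_mem_supp.mp (npt_EE hJ he).1 (Finset.mem_filter.mp he2).2
  have hd2 : Disjoint (EE J ∪ (low H).filter (fun e => f e = 0)) (low H)ᶜ := by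
    rw [Finset.disjoint_left]
    intro e he he2
    rw [Finset.mem_compl] at he2
    rcases Finset.mem_union.mp he with q | q
    · exact he2 (npt_EE hJ q).2
    · exact he2 (Finset.mem_filter.mp q).1
  have hA : ∏ e ∈ EE J, (M e e / n) ≤ Real.exp (η * (2 * (S2 H f J).card + (SH H f).card)) *
      ∏ e ∈ EE J, (((degE J e.1.1 : ℝ) + degE J e.1.2) / (η * n)) := by
    have q1 : ∏ e ∈ EE J, (M e e / n) ≤ ∏ e ∈ EE J, (((dgr f e.1.1 : ℝ) + dgr f e.1.2) / n) := by
      refine Finset.prod_le_prod (fun e _ => div_nonneg (hdiag e) hn0.le) fun e he => ?_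
      exact div_le_div_of_nonneg_right (diag_supp f (npt_mem_supp.mp (npt_EE hJ he).1)) hn0.le
    refine q1.trans ?_
    have q2 := trick H f hJ hη hη1
    have q3 : ∏ e ∈ EE J, (((dgr f e.1.1 : ℝ) + dgr f e.1.2) / n) =
        (∏ e ∈ EE J, ((dgr f e.1.1 : ℝ) + dgr f e.1.2)) / (n : ℝ) ^ (EE J).card := by
      rw [Finset.prod_div_distrib, Finset.prod_const]
    have q4 : ∏ e ∈ EE J, (((degE J e.1.1 : ℝ) + degE J e.1.2) / (η * n)) =
        (∏ e ∈ EE J, (((degE J e.1.1 : ℝ) + degE J e.1.2) / η)) / (n : ℝ) ^ (EE J).card := by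
      rw [← Finset.prod_const, ← Finset.prod_div_distrib]
      refine Finset.prod_congr rfl fun e _ => ?_
      rw [div_div]
    rw [q3, q4, ← mul_div_assoc]
    exact div_le_div_of_nonneg_right q2 (by positivity)
  have hB : ∏ e ∈ (low H).filter (fun e => f e = 0), (M e e / n) ≤
      Real.exp (-2 * ((suppE f ∩ low H).card : ℝ) * (1 - 1 / n - 2 * H.card / n - 2 * Δ / n)
          - (∑ x ∈ H, (XX H f x : ℝ)) / n) := by
    refine le_trans ?_ (sc_prod hn H f hΔ)
    refine Finset.prod_le_prod (fun e _ => div_nonneg (hdiag e) hn0.le) fun e _ => ?_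
    exact div_le_div_of_nonneg_right (diag_le_Dg hn f e) hn0.le
  have hC : ∏ e ∈ (low H)ᶜ, (M e e / n) ≤
      ∏ x ∈ H, ∏ y ∈ univ.filter (fun y => y ∉ H), ((Dg f x y : ℝ) / n) := by
    refine le_trans ?_ (npt_hub_prod hn H f)
    refine Finset.prod_le_prod (fun e _ => div_nonneg (hdiag e) hn0.le) fun e _ => ?_
    exact div_le_div_of_nonneg_right (diag_le_Dg hn f e) hn0.le
  have hA0 : 0 ≤ ∏ e ∈ EE J, (M e e / n) := Finset.prod_nonneg fun e _ => div_nonneg (hdiag e) hn0.le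
  have hB0 : 0 ≤ ∏ e ∈ (low H).filter (fun e => f e = 0), (M e e / n) :=
    Finset.prod_nonneg fun e _ => div_nonneg (hdiag e) hn0.le
  have hC0 : 0 ≤ ∏ e ∈ (low H)ᶜ, (M e e / n) := Finset.prod_nonneg fun e _ => div_nonneg (hdiag e) hn0.le
  have hprod : ∏ e ∈ (S2 H f J)ᶜ, (M e e / n) ≤
      (Real.exp (η * (2 * (S2 H f J).card + (SH H f).card)) *
      ∏ e ∈ EE J, (((degE J e.1.1 : ℝ) + degE J e.1.2) / (η * n))) *
      Real.exp (-2 * ((suppE f ∩ low H).card : ℝ) * (1 - 1 / n - 2 * H.card / n - 2 * Δ / n)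
          - (∑ x ∈ H, (XX H f x : ℝ)) / n) *
      ∏ x ∈ H, ∏ y ∈ univ.filter (fun y => y ∉ H), ((Dg f x y : ℝ) / n) := by
    rw [hcompl, Finset.prod_union hd2, Finset.prod_union hd1]
    exact mul_le_mul (mul_le_mul hA hB hB0 (hA0.trans hA)) hC hC0
      (mul_nonneg (hA0.trans hA) (Real.exp_nonneg _))
  have hL0 : 0 ≤ (lapMu (arcG n K) (muF P H f J) ((S2 H f J).image (arcOf P f))).det := h3'.trans h3
  calc Real.exp (4 * ((-Real.log c) / (1 - c)) * (suppE f).card / n) *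
        (M.det / (n : ℝ) ^ (Fintype.card (Edg n)))
      ≤ Real.exp (4 * ((-Real.log c) / (1 - c)) * (suppE f).card / n) *
        (((1 / (n : ℝ)) ^ (S2 H f J).card *
        (lapMu (arcG n K) (muF P H f J) ((S2 H f J).image (arcOf P f))).det) *
        ((Real.exp (η * (2 * (S2 H f J).card + (SH H f).card)) *
      ∏ e ∈ EE J, (((degE J e.1.1 : ℝ) + degE J e.1.2) / (η * n))) *
      Real.exp (-2 * ((suppE f ∩ low H).card : ℝ) * (1 - 1 / n - 2 * H.card / n - 2 * Δ / n)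
          - (∑ x ∈ H, (XX H f x : ℝ)) / n) *
      ∏ x ∈ H, ∏ y ∈ univ.filter (fun y => y ∉ H), ((Dg f x y : ℝ) / n))) := by
        refine mul_le_mul_of_nonneg_left (h5.trans ?_) (Real.exp_nonneg _)
        exact mul_le_mul_of_nonneg_left hprod (mul_nonneg (by positivity) hL0)
    _ = _ := by ring

end

end Pool.Agent.DH10
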