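import Pool.Agent.DH10.NZDefs
import Pool.Agent.DH10.SpecIneq

/-!
# DH10.RBound : removing `d dᵀ` on the support (4.1)

`det_LZ_CS`: with `C = CS f` (`d` with the rows in the support set to `0`), `Gm = 1 + (1/n) (C - d) dᵀ`:
`Gm LZ = LZ` (`dᵀ LZ = 0` from `dᵀ D = 0`), `LZ Gmᵀ = LZ`, `Gm d = d + (1/n)(C-d)(n - J) = C` (`dᵀ d = n - J`,
`(C - d) J = 0` because the rows of `C` and `d` have sum zero).  So `LZ + C Cᵀ = Gm (LZ + d dᵀ) Gmᵀ`, and
`det Gm = det (1 + (1/n) dᵀ (C - d))` (`Matrix.det_one_add_mul_comm`) `= det (1 - (1/n) lapS f)`.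
(`dM_transpose_mul_DM`, `dM_transpose_mul` are in `MinorDet`.)
`w_le_R`: `n^{|E|} w f = det (LZ + d dᵀ)` (`w_eq_det`), `X = (1/n) lapS f` is PSD with `X ≤ 1-c`, trace `2 |suppE f|/n`;
`det_one_sub_lower` gives `det (1-X) ≥ exp(-(−log c/(1−c)) 2s/n)`.
-/

set_option autoImplicit false

open Finset

namespace Pool.Agent.DH10

noncomputable section

variable {n : ℕ} {K : Type} [AddCommGroup K] [DecidableEq K]

private theorem rb_row_sum (e : Edg n) : ∑ v, dM n e v = 0 := by
  have h : ∀ v, dM n e v = (if v = e.1.2 then (1 : ℝ) else 0) - (if v = e.1.1 then 1 else 0) := by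
    intro v
    unfold dM D1
    simp only [Matrix.of_apply]
    push_cast
    rfl
  rw [sum_congr rfl fun v _ => h v, sum_sub_distrib, sum_ite_eq', sum_ite_eq']
  simp

private theorem rb_mulVec (g : Fin n → ℝ) (e : Edg n) :
    (dM n).mulVec g e = g e.1.2 - g e.1.1 := by
  have h : ∀ v, dM n e v * g v
      = (if v = e.1.2 then g v else 0) - (if v = e.1.1 then g v else 0) := by
    intro v
    unfold dM D1
    simp only [Matrix.of_apply]
    push_cast
    rw [sub_mul]
    simp only [ite_mul, one_mul, zero_mul]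
  unfold Matrix.mulVec dotProduct
  rw [sum_congr rfl fun v _ => h v, sum_sub_distrib, sum_ite_eq', sum_ite_eq']
  simp

private theorem rb_sq_sum (e : Edg n) : ∑ v, dM n e v * dM n e v = 2 := by
  have h := rb_mulVec (fun v => dM n e v) e
  unfold Matrix.mulVec dotProduct at h
  rw [h]
  have hne : e.1.1 ≠ e.1.2 := e.2.ne
  unfold dM D1
  simp only [Matrix.of_apply, if_true, if_neg hne, if_neg hne.symm]
  norm_num

private theorem rb_mul_J : dM n * (Matrix.of fun _ _ => (1 : ℝ) : Matrix (Fin n) (Fin n) ℝ) = 0 := by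
  ext e v
  rw [Matrix.mul_apply]
  simp only [Matrix.of_apply, mul_one, Matrix.zero_apply]
  exact rb_row_sum e

private theorem rb_CS (f : Coch n K) :
    CS f = Matrix.diagonal (fun e => if f e = 0 then (1 : ℝ) else 0) * dM n := by
  ext e v
  rw [Matrix.diagonal_mul]
  unfold CS
  simp only [Matrix.of_apply, ite_mul, one_mul, zero_mul]

private theorem rb_dT_LZ (f : Coch n K) : (dM n).transpose * LZ f = 0 := by
  unfold LZ
  rw [← Matrix.mul_assoc, ← Matrix.mul_assoc, dM_transpose_mul_DM, Matrix.zero_mul, Matrix.zero_mul]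

private theorem rb_LZ_symm (f : Coch n K) : (LZ f).transpose = LZ f := by
  unfold LZ
  rw [Matrix.transpose_mul, Matrix.transpose_mul, Matrix.transpose_transpose,
    Matrix.diagonal_transpose, Matrix.mul_assoc]

private theorem rb_C_sub (f : Coch n K) :
    (dM n).transpose * (CS f - dM n) = - lapS f := by
  rw [rb_CS]
  unfold lapS
  rw [Matrix.mul_sub, Matrix.mul_assoc, ← Matrix.mul_neg, ← Matrix.mul_sub]
  congr 1
  ext e v
  rw [Matrix.sub_apply, Matrix.neg_apply, Matrix.diagonal_mul, Matrix.diagonal_mul]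
  split_ifs <;> ring

theorem det_LZ_CS (hn : 1 ≤ n) (f : Coch n K) :
    (LZ f + CS f * (CS f).transpose).det
      = ((1 : Matrix (Fin n) (Fin n) ℝ) - (1 / (n : ℝ)) • lapS f).det ^ 2
        * (LZ f + dM n * (dM n).transpose).det := by
  have hn0 : (n : ℝ) ≠ 0 := by
    have : (0 : ℝ) < n := by exact_mod_cast hn
    exact this.ne'
  set d := dM n with hd
  set C := CS f with hC
  set Gm : Matrix (Edg n) (Edg n) ℝ := 1 + (C - d) * ((1 / (n : ℝ)) • d.transpose) with hGm
  have hGL : Gm * LZ f = LZ f := by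
    rw [hGm, Matrix.add_mul, Matrix.one_mul, Matrix.mul_assoc, Matrix.smul_mul, rb_dT_LZ, smul_zero,
      Matrix.mul_zero, add_zero]
  have hLG : LZ f * Gm.transpose = LZ f := by
    have h := congrArg Matrix.transpose hGL
    rwa [Matrix.transpose_mul, rb_LZ_symm] at h
  have hCJ : (C - d) * (Matrix.of fun _ _ => (1 : ℝ) : Matrix (Fin n) (Fin n) ℝ) = 0 := by
    rw [Matrix.sub_mul, hC, rb_CS, Matrix.mul_assoc, rb_mul_J, Matrix.mul_zero, sub_zero]
  have hGd : Gm * d = C := by
    rw [hGm, Matrix.add_mul, Matrix.one_mul, Matrix.mul_assoc, Matrix.smul_mul, hd,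
      dM_transpose_mul, ← hd, Matrix.mul_smul, Matrix.mul_sub, hCJ, sub_zero, Matrix.mul_smul,
      Matrix.mul_one, smul_smul, one_div, inv_mul_cancel₀ hn0, one_smul]
    abel
  have hmain : LZ f + C * C.transpose = Gm * (LZ f + d * d.transpose) * Gm.transpose := by
    rw [Matrix.mul_add, Matrix.add_mul, hGL, hLG, ← Matrix.mul_assoc Gm d, hGd, Matrix.mul_assoc,
      ← Matrix.transpose_mul, hGd]
  have hdet : Gm.det = ((1 : Matrix (Fin n) (Fin n) ℝ) - (1 / (n : ℝ)) • lapS f).det := by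
    rw [hGm, Matrix.det_one_add_mul_comm, Matrix.smul_mul, rb_C_sub, smul_neg, ← sub_eq_add_neg]
  rw [hmain, Matrix.det_mul, Matrix.det_mul, Matrix.det_transpose, hdet]
  ring

theorem w_le_R (hn : 3 ≤ n) (f : Coch n K) {c : ℝ} (hc : 0 < c) (hc1 : c < 1)
    (h : ∀ g : Fin n → ℝ, ∑ e ∈ suppE f, (g e.1.2 - g e.1.1) ^ 2 ≤ (1 - c) * n * ∑ x, g x ^ 2) :
    w f ≤ Real.exp (4 * ((-Real.log c) / (1 - c)) * (suppE f).card / n) *
      ((LZ f + CS f * (CS f).transpose).det / (n : ℝ) ^ (Fintype.card (Edg n))) := by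
  have hn1 : 1 ≤ n := by omega
  have hnpos : (0 : ℝ) < n := by exact_mod_cast hn1
  have hN : (n : ℝ) ^ (Fintype.card (Edg n)) ≠ 0 := pow_ne_zero _ hnpos.ne'
  have hw : (LZ f + dM n * (dM n).transpose).det = (n : ℝ) ^ (Fintype.card (Edg n)) * w f := by
    rw [w_eq_det hn]
    unfold Mx
    have e1 : DM n * Matrix.diagonal (fun t => if t ∈ Z f then (1 : ℝ) else 0) * (DM n).transpose
        = LZ f := rfl
    rw [e1, Matrix.det_smul, add_comm (dM n * (dM n).transpose), ← mul_assoc, ← mul_pow]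
    rw [mul_one_div_cancel hnpos.ne', one_pow, one_mul]
  rw [det_LZ_CS hn1, hw]
  have hlap : (lapS f).PosSemidef := by
    have := psd_gram (dM n).transpose (fun e => if f e = 0 then (0 : ℝ) else 1)
      (fun e => by split_ifs <;> norm_num)
    rwa [Matrix.transpose_transpose] at this
  set X : Matrix (Fin n) (Fin n) ℝ := (1 / (n : ℝ)) • lapS f with hX
  have hXp : X.PosSemidef := Matrix.PosSemidef.smul hlap (by positivity)
  have hquad : ∀ g : Fin n → ℝ, g ⬝ᵥ (lapS f).mulVec g
      = ∑ e ∈ suppE f, (g e.1.2 - g e.1.1) ^ 2 := by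
    intro g
    unfold lapS
    rw [Matrix.mul_assoc, ← Matrix.mulVec_mulVec, Matrix.dotProduct_mulVec, Matrix.vecMul_transpose,
      ← Matrix.mulVec_mulVec]
    unfold dotProduct suppE
    rw [sum_filter]
    refine sum_congr rfl fun e _ => ?_
    rw [Matrix.mulVec_diagonal, rb_mulVec]
    by_cases h0 : f e = 0
    · simp [h0]
    · simp [h0]; ring
  have hX2 : ((1 - c) • (1 : Matrix (Fin n) (Fin n) ℝ) - X).PosSemidef := by
    refine Matrix.PosSemidef.of_dotProduct_mulVec_nonneg ?_ fun g => ?_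
    · refine Matrix.IsHermitian.sub ?_ hXp.1
      unfold Matrix.IsHermitian
      rw [Matrix.conjTranspose_smul, Matrix.conjTranspose_one]
      simp
    · rw [star_trivial, Matrix.sub_mulVec, dotProduct_sub, Matrix.smul_mulVec, Matrix.one_mulVec,
        dotProduct_smul, hX, Matrix.smul_mulVec, dotProduct_smul, hquad, smul_eq_mul, smul_eq_mul]
      have h1 := h g
      have h2 : g ⬝ᵥ g = ∑ x, g x ^ 2 := by
        unfold dotProduct
        exact sum_congr rfl fun x _ => by ring
      rw [h2, sub_nonneg, one_div, inv_mul_le_iff₀ hnpos]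
      linarith
  have htr : X.trace = 2 * (suppE f).card / n := by
    rw [hX, Matrix.trace_smul, smul_eq_mul]
    have h1 : (lapS f).trace = 2 * (suppE f).card := by
      unfold lapS
      rw [Matrix.trace_mul_comm, ← Matrix.mul_assoc, Matrix.trace_mul_comm]
      unfold Matrix.trace
      have h2 : ∀ e : Edg n, (Matrix.diagonal (fun e => if f e = 0 then (0 : ℝ) else 1)
          * (dM n * (dM n).transpose)).diag e = if f e ≠ 0 then (2 : ℝ) else 0 := by
        intro e
        rw [Matrix.diag_apply, Matrix.diagonal_mul, Matrix.mul_apply]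
        simp only [Matrix.transpose_apply]
        rw [rb_sq_sum]
        by_cases h0 : f e = 0
        · simp [h0]
        · simp [h0]
      rw [sum_congr rfl fun e _ => h2 e, ← sum_filter]
      unfold suppE
      rw [sum_const, nsmul_eq_mul]
      ring
    rw [h1]
    field_simp
  have hlow := det_one_sub_lower hXp hc hc1 hX2
  rw [htr] at hlow
  set κ := (-Real.log c) / (1 - c) with hκ
  set s : ℝ := ((suppE f).card : ℝ) with hs
  have hsq : Real.exp (-(4 * κ * s / n)) ≤ ((1 : Matrix (Fin n) (Fin n) ℝ) - X).det ^ 2 := by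
    have h1 := pow_le_pow_left₀ (Real.exp_pos _).le hlow 2
    rw [← Real.exp_nat_mul] at h1
    refine le_trans (le_of_eq ?_) h1
    congr 1
    push_cast
    field_simp
    ring
  have hw0 : 0 ≤ w f := w_nonneg f
  have h3 : (((1 : Matrix (Fin n) (Fin n) ℝ) - X).det ^ 2
      * ((n : ℝ) ^ (Fintype.card (Edg n)) * w f)) / (n : ℝ) ^ (Fintype.card (Edg n))
      = ((1 : Matrix (Fin n) (Fin n) ℝ) - X).det ^ 2 * w f := by
    field_simp
  rw [h3]
  calc w f = Real.exp (4 * κ * s / n) * (Real.exp (-(4 * κ * s / n)) * w f) := by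
        rw [← mul_assoc, ← Real.exp_add, add_neg_cancel, Real.exp_zero, one_mul]
    _ ≤ _ := mul_le_mul_of_nonneg_left (mul_le_mul_of_nonneg_right hsq hw0) (Real.exp_pos _).le

end

end Pool.Agent.DH10
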