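import Pool.Agent.DH10.Kernel
import Pool.Agent.DH10.RBound
import Pool.Agent.DH10.SpecHub

/-!
# DH10.NZS1 : bounded support (4.9)

For fixed `s ≥ 1`: `∑_{|suppE f| = s} w f ≤ C/n` for large `n`.
Proof.  `w_le_R` with `c = 1/2` (`spec_small`, `4 s ≤ n`) and `det_le_block` with `S = suppE f` (the `suppE`-block of `LZ + CS CSᵀ` is that of
`LZ`; the other diagonal entries are `≤ n`, `diag_le_Dg`, `Dg ≤ n`):
`w f ≤ e^{C s/n} n^{-s} det (LZ)_SS ≤ C n^{-s} (2s)^s`, and `= 0` if `det (LZ)_SS = 0`.  If it is not `0`, `kernel_lemma`: the number `v` of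
vertices is `≤ s-1`.  The number of `f` with `|suppE f| = s` and vertex set of size `v` is `≤ n^v (v² k)^s`.  Sum `≤ C_s n^{v-s} ≤ C_s/n`.
-/

set_option autoImplicit false

open Finset Filter

namespace Pool.Agent.DH10

noncomputable section

section aux

variable {n : ℕ} {K : Type} [AddCommGroup K] [DecidableEq K]

theorem nzs1_dgr_le (f : Coch n K) (x : Fin n) : dgr f x ≤ 2 * (suppE f).card := by
  rw [← sum_dgr f]
  exact single_le_sum (f := fun x => dgr f x) (fun _ _ => Nat.zero_le _) (mem_univ x)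

theorem nzs1_Dg_le (f : Coch n K) (x y : Fin n) : Dg f x y ≤ n := by
  unfold Dg
  exact (card_filter_le _ _).trans (by simp)

theorem nzs1_sub (f : Coch n K) :
    (LZ f + CS f * (CS f).transpose).submatrix (fun e : suppE f => e.1) (fun e : suppE f => e.1)
      = (LZ f).submatrix (fun e : suppE f => e.1) (fun e : suppE f => e.1) := by
  ext e e'
  rw [Matrix.submatrix_apply, Matrix.submatrix_apply, Matrix.add_apply, Matrix.mul_apply]
  have he : f e.1 ≠ 0 := (mem_filter.mp e.2).2
  have h1 : ∀ v, CS f e.1 v * (CS f).transpose v e'.1 = 0 := by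
    intro v
    have h2 : CS f e.1 v = 0 := if_neg he
    rw [h2, zero_mul]
  rw [sum_eq_zero (fun v _ => h1 v), add_zero]

theorem nzs1_point (f : Coch n K) {s : ℕ} (hs : 1 ≤ s) (hf : (suppE f).card = s)
    (hn : 8 * s ≤ n) :
    w f ≤ Real.exp (4 * ((-Real.log (1 / 2)) / (1 - 1 / 2)) * s) *
      (((LZ f).submatrix (fun e : suppE f => e.1) (fun e : suppE f => e.1)).det * (1 / (n : ℝ)) ^ s)
      ∧ 0 ≤ ((LZ f).submatrix (fun e : suppE f => e.1) (fun e : suppE f => e.1)).det
      ∧ ((LZ f).submatrix (fun e : suppE f => e.1) (fun e : suppE f => e.1)).det ≤ (4 * s : ℝ) ^ s := by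
  have hn3 : 3 ≤ n := by omega
  have hnpos : (0 : ℝ) < n := by exact_mod_cast (by omega : 0 < n)
  have hn1 : (1 : ℝ) ≤ n := by exact_mod_cast (by omega : 1 ≤ n)
  have hd : ∀ x, dgr f x ≤ 2 * s := by
    intro x
    rw [← hf]
    exact nzs1_dgr_le f x
  have hw := w_le_R hn3 f (c := 1 / 2) (by norm_num) (by norm_num)
    (spec_small f (fun x => by have := hd x; omega))
  rw [hf] at hw
  have hA := LZ_CS_psd f
  have hblock := det_le_block hA (suppE f)
  have hA2 := hA.submatrix (fun e : suppE f => e.1)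
  have hnn : 0 ≤ ((LZ f).submatrix (fun e : suppE f => e.1) (fun e : suppE f => e.1)).det := by
    rw [← nzs1_sub]
    exact hA2.det_nonneg
  have hle : ((LZ f).submatrix (fun e : suppE f => e.1) (fun e : suppE f => e.1)).det
      ≤ (4 * s : ℝ) ^ s := by
    rw [← nzs1_sub]
    refine (det_le_prod_diag hA2).trans ?_
    have h1 : ∀ i : suppE f, ((LZ f + CS f * (CS f).transpose).submatrix
        (fun e : suppE f => e.1) (fun e : suppE f => e.1)) i i ≤ 4 * s := by
      intro i
      rw [Matrix.submatrix_apply]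
      refine (diag_supp f (mem_filter.mp i.2).2).trans ?_
      have h2 : (dgr f i.1.1.1 : ℝ) ≤ 2 * s := by exact_mod_cast hd _
      have h3 : (dgr f i.1.1.2 : ℝ) ≤ 2 * s := by exact_mod_cast hd _
      linarith
    calc ∏ i : suppE f, ((LZ f + CS f * (CS f).transpose).submatrix
        (fun e : suppE f => e.1) (fun e : suppE f => e.1)) i i
        ≤ ∏ i : suppE f, (4 * s : ℝ) :=
          prod_le_prod (fun i _ => hA2.diag_nonneg) (fun i _ => h1 i)
      _ = (4 * s : ℝ) ^ s := by
          rw [prod_const, card_univ, Fintype.card_coe, hf]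
  refine ⟨?_, hnn, hle⟩
  have hcard : (suppE f)ᶜ.card = Fintype.card (Edg n) - s := by
    rw [card_compl, hf]
  have hsE : s ≤ Fintype.card (Edg n) := by
    rw [← hf]
    exact card_le_univ _
  have hprod : ∏ e ∈ (suppE f)ᶜ, (LZ f + CS f * (CS f).transpose) e e
      ≤ (n : ℝ) ^ (Fintype.card (Edg n) - s) := by
    rw [← hcard, ← prod_const]
    refine prod_le_prod (fun i _ => hA.diag_nonneg) (fun i _ => ?_)
    refine (diag_le_Dg hn3 f i).trans ?_
    exact_mod_cast nzs1_Dg_le f _ _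
  rw [nzs1_sub] at hblock
  have hdiv : (LZ f + CS f * (CS f).transpose).det / (n : ℝ) ^ (Fintype.card (Edg n))
      ≤ ((LZ f).submatrix (fun e : suppE f => e.1) (fun e : suppE f => e.1)).det *
        (1 / (n : ℝ)) ^ s := by
    rw [div_le_iff₀ (by positivity)]
    have h4 : (1 / (n : ℝ)) ^ s * (n : ℝ) ^ (Fintype.card (Edg n)) =
        (n : ℝ) ^ (Fintype.card (Edg n) - s) := by
      have h5 : (n : ℝ) ^ (Fintype.card (Edg n)) =
          (n : ℝ) ^ (Fintype.card (Edg n) - s) * (n : ℝ) ^ s := by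
        rw [← pow_add, Nat.sub_add_cancel hsE]
      rw [h5, one_div, inv_pow]
      field_simp
    rw [mul_assoc, h4]
    exact hblock.trans (mul_le_mul_of_nonneg_left hprod hnn)
  have hexp : Real.exp (4 * ((-Real.log (1 / 2)) / (1 - 1 / 2)) * s / n)
      ≤ Real.exp (4 * ((-Real.log (1 / 2)) / (1 - 1 / 2)) * s) := by
    apply Real.exp_le_exp.mpr
    apply div_le_self _ hn1
    have hlog : Real.log (1 / 2) ≤ 0 := Real.log_nonpos (by norm_num) (by norm_num)
    have h6 : (0 : ℝ) ≤ (-Real.log (1 / 2)) / (1 - 1 / 2) :=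
      div_nonneg (by linarith) (by norm_num)
    exact mul_nonneg (mul_nonneg (by norm_num) h6) (Nat.cast_nonneg s)
  have hfin := mul_le_mul_of_nonneg_left hdiv
    (Real.exp_pos (4 * ((-Real.log (1 / 2)) / (1 - 1 / 2)) * s / n)).le
  have hfin2 := mul_le_mul_of_nonneg_right hexp (mul_nonneg hnn
    (pow_nonneg (one_div_nonneg.mpr hnpos.le) s))
  exact (hw.trans hfin).trans hfin2

theorem nzs1_val_zero {f : Coch n K} {x : Fin n} (h : dgr f x = 0) (y : Fin n) : val f x y = 0 := by
  by_contra hne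
  have h1 : y ∈ univ.filter fun y => val f x y ≠ 0 := mem_filter.mpr ⟨mem_univ _, hne⟩
  have h2 : (univ.filter fun y => val f x y ≠ 0) = ∅ := card_eq_zero.mp h
  rw [h2] at h1
  exact notMem_empty _ h1

theorem nzs1_val_edge (f : Coch n K) (e : Edg n) : val f e.1.1 e.1.2 = f e := by
  unfold val
  rw [dif_pos e.2]

theorem nzs1_val_edge' (f : Coch n K) (e : Edg n) : val f e.1.2 e.1.1 = - f e := by
  unfold val
  rw [dif_neg (not_lt.2 e.2.le), dif_pos e.2]

end aux

open Classical in
theorem nzs1_count (n : ℕ) (hn : 1 ≤ n) (K : Type) [AddCommGroup K] [Fintype K] [DecidableEq K]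
    (m : ℕ) :
    (univ.filter (fun f : Coch n K => (univ.filter fun x => dgr f x ≠ 0).card ≤ m)).card
      ≤ n ^ m * (Fintype.card K) ^ (m * m) := by
  have hphi : ∀ V : Finset (Fin n), V.card ≤ m → ∃ φ : Fin m → Fin n, ∀ x ∈ V, ∃ i, φ i = x := by
    intro V hV
    refine ⟨fun i => if h : i.1 < V.card then (V.equivFin.symm ⟨i.1, h⟩).1 else ⟨0, hn⟩, ?_⟩
    intro x hx
    refine ⟨⟨(V.equivFin ⟨x, hx⟩).1, lt_of_lt_of_le (V.equivFin ⟨x, hx⟩).2 hV⟩, ?_⟩
    simp
  have : Nonempty (Fin n) := ⟨⟨0, hn⟩⟩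
  choose! φ hφ using hphi
  set V : Coch n K → Finset (Fin n) := fun f => univ.filter fun x => dgr f x ≠ 0 with hV
  have hinj := card_le_card_of_injOn (s := univ.filter (fun f : Coch n K => (V f).card ≤ m))
    (t := (univ : Finset ((Fin m → Fin n) × (Fin m × Fin m → K))))
    (fun f => (φ (V f), fun ab => val f (φ (V f) ab.1) (φ (V f) ab.2)))
    (fun _ _ => mem_coe.mpr (mem_univ _)) ?_
  · refine hinj.trans (le_of_eq ?_)
    rw [card_univ, Fintype.card_prod, Fintype.card_fun, Fintype.card_fun, Fintype.card_prod,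
      Fintype.card_fin, Fintype.card_fin]
  · intro f hf f' hf' hff
    have h1 : (V f).card ≤ m := (mem_filter.mp (mem_coe.mp hf)).2
    have h1' : (V f').card ≤ m := (mem_filter.mp (mem_coe.mp hf')).2
    have h2 : φ (V f) = φ (V f') := congrArg Prod.fst hff
    have h3 : ∀ a b, val f (φ (V f) a) (φ (V f) b) = val f' (φ (V f') a) (φ (V f') b) :=
      fun a b => congrFun (congrArg Prod.snd hff) (a, b)
    have hout : ∀ (g : Coch n K), (V g).card ≤ m → ∀ x : Fin n, (¬ ∃ a, φ (V g) a = x) →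
        dgr g x = 0 := by
      intro g hg x hx
      by_contra hne
      exact hx (hφ _ hg x (mem_filter.mpr ⟨mem_univ _, hne⟩))
    funext e
    by_cases ha : ∃ a, φ (V f) a = e.1.1
    · by_cases hb : ∃ b, φ (V f) b = e.1.2
      · obtain ⟨a, ha⟩ := ha
        obtain ⟨b, hb⟩ := hb
        have h4 := h3 a b
        rw [← h2, ha, hb, nzs1_val_edge, nzs1_val_edge] at h4
        exact h4
      · have h5 := nzs1_val_zero (hout f h1 _ hb) e.1.1
        have h6 := nzs1_val_zero (hout f' h1' _ (by rw [← h2]; exact hb)) e.1.1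
        rw [nzs1_val_edge'] at h5 h6
        rw [neg_eq_zero.mp h5, neg_eq_zero.mp h6]
    · have h5 := nzs1_val_zero (hout f h1 _ ha) e.1.2
      have h6 := nzs1_val_zero (hout f' h1' _ (by rw [← h2]; exact ha)) e.1.2
      rw [nzs1_val_edge] at h5 h6
      rw [h5, h6]

open Classical in
theorem s1_sum (K : Type) [AddCommGroup K] [Fintype K] [DecidableEq K] (hodd : Odd (Fintype.card K))
    (s : ℕ) (hs : 1 ≤ s) :
    ∃ C : ℝ, ∀ᶠ n : ℕ in atTop,
      ∑ f ∈ univ.filter (fun f : Coch n K => (suppE f).card = s), w f ≤ C / n := by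
  set c0 : ℝ := Real.exp (4 * ((-Real.log (1 / 2)) / (1 - 1 / 2)) * s) * (4 * s : ℝ) ^ s with hc0
  have hc0n : 0 ≤ c0 := by positivity
  refine ⟨c0 * (Fintype.card K : ℝ) ^ ((s - 1) * (s - 1)), ?_⟩
  filter_upwards [eventually_ge_atTop (8 * s)] with n hn
  have hn1 : 1 ≤ n := by omega
  have hnpos : (0 : ℝ) < n := by exact_mod_cast (by omega : 0 < n)
  have hpt : ∀ f ∈ univ.filter (fun f : Coch n K => (suppE f).card = s),
      w f ≤ if (univ.filter fun x => dgr f x ≠ 0).card ≤ s - 1 then c0 * (1 / (n : ℝ)) ^ s else 0 := by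
    intro f hf
    have hfs : (suppE f).card = s := (mem_filter.mp hf).2
    obtain ⟨h1, h2, h3⟩ := nzs1_point f hs hfs hn
    split_ifs with hV
    · refine h1.trans ?_
      rw [hc0, mul_assoc (Real.exp _)]
      refine mul_le_mul_of_nonneg_left ?_ (Real.exp_pos _).le
      exact mul_le_mul_of_nonneg_right h3 (by positivity)
    · have hf0 : f ≠ 0 := by
        rintro rfl
        have h4 : suppE (0 : Coch n K) = ∅ := by
          unfold suppE
          simp
        rw [h4, card_empty] at hfs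
        omega
      have hdet : ((LZ f).submatrix (fun e : suppE f => e.1) (fun e : suppE f => e.1)).det = 0 := by
        by_contra hne
        have h5 := kernel_lemma hodd f hf0 hne
        rw [hfs] at h5
        omega
      rw [hdet, zero_mul, mul_zero] at h1
      exact h1
  refine (sum_le_sum hpt).trans ?_
  have hcnt := nzs1_count n hn1 K (s - 1)
  have hle : ∑ f ∈ univ.filter (fun f : Coch n K => (suppE f).card = s),
      (if (univ.filter fun x => dgr f x ≠ 0).card ≤ s - 1 then c0 * (1 / (n : ℝ)) ^ s else 0)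
      ≤ ∑ f : Coch n K, (if (univ.filter fun x => dgr f x ≠ 0).card ≤ s - 1 then
        c0 * (1 / (n : ℝ)) ^ s else 0) := by
    refine sum_le_sum_of_subset_of_nonneg (filter_subset _ _) (fun f _ _ => ?_)
    split_ifs
    · positivity
    · exact le_refl _
  refine hle.trans ?_
  rw [← sum_filter, sum_const, nsmul_eq_mul]
  have hcnt' : ((univ.filter (fun f : Coch n K =>
      (univ.filter fun x => dgr f x ≠ 0).card ≤ s - 1)).card : ℝ)
      ≤ (n : ℝ) ^ (s - 1) * (Fintype.card K : ℝ) ^ ((s - 1) * (s - 1)) := by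
    exact_mod_cast hcnt
  refine (mul_le_mul_of_nonneg_right hcnt' (by positivity)).trans (le_of_eq ?_)
  obtain ⟨m, rfl⟩ : ∃ m, s = m + 1 := ⟨s - 1, by omega⟩
  rw [Nat.add_sub_cancel, one_div, inv_pow]
  have hne : (n : ℝ) ≠ 0 := hnpos.ne'
  rw [pow_succ (n : ℝ) m]
  field_simp

end

end Pool.Agent.DH10
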