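import Pool.Agent.DH10.NZPoint
import Pool.Agent.DH10.NZSum
import Pool.Agent.DH10.SpecHub
import Pool.Agent.DH10.ESumL
import Pool.Agent.DH10.HubStar

/-!
# DH10.NZS3a : the range `n^{1/25} ≤ s ≤ n^{1.01}`, fixed hub part (4.11)

Proof.  `k = |K|`, `h = |H|`, `η = min(1/20, 1/(20k))`, `c0 = 1/(4k)` (`spec_hub`; for `k = 1` there is no `f` with `s > 0`),
`Δ = ⌊n^{0.98}⌋` (vertices outside `hub f` have degree `< n^{0.98}`), `ξ = 0.1662`, `T = 0.65`.  For each `sl ≤ s` let `Fm` be the `f` in the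
family with `|suppE f ∩ low H| = sl`.  `w_le_point`, `hub_prod` (`rx f x = rx φ x` for `x ∈ H`), `nz_sum_forest`, `esum_large`
(`Js = {3|J| ≤ s, tc J v ≤ n^{0.98}}`; for `v ∉ H` `2 tc = degE ≤ dgr f v < n^{0.98}`, for `v ∈ H` `tc = 0`) give
`∑_{Fm} w ≤ exp(E) ∏_{x∈H} ∏_{y∉H} rx/n`, with (using `XX H f x = XX H φ x`, `|S''| ≤ sl`, `|SH| ≤ ∑_{x∈H} d_x`)
`E = C s/n + η(2 sl + ∑ d_x) - 2 sl (1 - 1/n - 2h/n - 2Δ/n) + sl log(1/ξ) - (1-T/2) ∑_{x∈H} XX/n + h n^{0.97} + s n^{-1/400}`.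
`XX_ge`: `XX/n ≥ d_x/(4k)`; `(1-T/2)/(4k) = 0.16875/k` and `η ≤ 0.05/k`; `d_x ≥ n^{0.98}` so `h n^{0.97} ≤ n^{-0.01} ∑ d_x`;
`2η - 2 + log(1/ξ) ≤ 0.1 - 2 + 1.7946 ≤ -0.105`; `s ≤ sl + ∑_{x∈H} d_x`.  So
`E ≤ -0.1 sl - (0.1/k) ∑ d_x + s n^{-1/500} ≤ -(0.09/k) s`.  Sum over `sl ≤ s` (factor `s+1`): take `c = 0.05/k`.
-/

set_option autoImplicit false

open Finset Filter Topology

namespace Pool.Agent.DH10

noncomputable section

section aux

variable {n : ℕ} {K : Type} [AddCommGroup K] [DecidableEq K]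

private lemma val_agree {H : Finset (Fin n)} {f φ : Coch n K} (h : ∀ e, e ∉ low H → f e = φ e)
    {x : Fin n} (hx : x ∈ H) (y : Fin n) : val f x y = val φ x y := by
  unfold val
  split_ifs with h1 h2
  · exact h _ (by simp [low, hx])
  · rw [h _ (by simp [low, hx])]
  · rfl

private lemma dgr_agree {H : Finset (Fin n)} {f φ : Coch n K} (h : ∀ e, e ∉ low H → f e = φ e)
    {x : Fin n} (hx : x ∈ H) : dgr f x = dgr φ x := by
  unfold dgr
  simp only [val_agree h hx]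

private lemma rx_agree {H : Finset (Fin n)} {f φ : Coch n K} (h : ∀ e, e ∉ low H → f e = φ e)
    {x : Fin n} (hx : x ∈ H) (c : K) : rx f x c = rx φ x c := by
  unfold rx
  simp only [val_agree h hx]

private lemma XX_agree {H : Finset (Fin n)} {f φ : Coch n K} (h : ∀ e, e ∉ low H → f e = φ e)
    {x : Fin n} (hx : x ∈ H) : XX H f x = XX H φ x := by
  unfold XX
  simp only [val_agree h hx]

private lemma card_edges_at_le (f : Coch n K) (x : Fin n) :
    ((suppE f).filter fun e => e.1.1 = x ∨ e.1.2 = x).card ≤ dgr f x := by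
  unfold dgr
  refine Finset.card_le_card_of_injOn (fun e => if e.1.1 = x then e.1.2 else e.1.1) ?_ ?_
  · intro e he
    have he' := Finset.mem_filter.1 (Finset.mem_coe.1 he)
    have hne : f e ≠ 0 := (Finset.mem_filter.1 he'.1).2
    simp only [Finset.coe_filter, Finset.mem_univ, true_and, Set.mem_ofPred_eq]
    by_cases h1 : e.1.1 = x
    · rw [if_pos h1]
      have h2 : x < e.1.2 := h1 ▸ e.2
      have h3 : (⟨(x, e.1.2), h2⟩ : Edg n) = e := Subtype.ext (Prod.ext h1.symm rfl)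
      rw [val, dif_pos h2, h3]
      exact hne
    · rw [if_neg h1]
      have h2 : e.1.2 = x := he'.2.resolve_left h1
      have h3 : e.1.1 < x := h2 ▸ e.2
      have h4 : (⟨(e.1.1, x), h3⟩ : Edg n) = e := Subtype.ext (Prod.ext rfl h2.symm)
      rw [val, dif_neg h3.le.not_gt, dif_pos h3, h4]
      exact neg_ne_zero.2 hne
  · intro e he e' he' hee
    have he1 := (Finset.mem_filter.1 (Finset.mem_coe.1 he)).2
    have he2 := (Finset.mem_filter.1 (Finset.mem_coe.1 he')).2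
    simp only at hee
    by_cases h1 : e.1.1 = x
    · rw [if_pos h1] at hee
      by_cases h2 : e'.1.1 = x
      · rw [if_pos h2] at hee
        exact Subtype.ext (Prod.ext (h1.trans h2.symm) hee)
      · rw [if_neg h2] at hee
        have h3 := he2.resolve_left h2
        have h4 : x < e.1.2 := h1 ▸ e.2
        have h5 : e'.1.1 < x := h3 ▸ e'.2
        rw [hee] at h4
        exact absurd h4 h5.not_gt
    · rw [if_neg h1] at hee
      have h3 := he1.resolve_left h1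
      by_cases h2 : e'.1.1 = x
      · rw [if_pos h2] at hee
        have h4 : x < e'.1.2 := h2 ▸ e'.2
        have h5 : e.1.1 < x := h3 ▸ e.2
        rw [← hee] at h4
        exact absurd h4 h5.not_gt
      · rw [if_neg h2] at hee
        have h4 := he2.resolve_left h2
        exact Subtype.ext (Prod.ext hee (h3.trans h4.symm))

private lemma SH_card_le (H : Finset (Fin n)) (f : Coch n K) :
    (SH H f).card ≤ ∑ x ∈ H, dgr f x := by
  have h1 : SH H f ⊆ H.biUnion fun x => (suppE f).filter fun e => e.1.1 = x ∨ e.1.2 = x := by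
    intro e he
    have he1 : e ∈ suppE f := (Finset.mem_sdiff.1 he).1
    have he2 : e ∉ low H := (Finset.mem_sdiff.1 he).2
    rw [Finset.mem_biUnion]
    by_cases h : e.1.1 ∈ H
    · exact ⟨e.1.1, h, Finset.mem_filter.2 ⟨he1, Or.inl rfl⟩⟩
    · have h2 : e.1.2 ∈ H := by
        by_contra h3
        exact he2 (Finset.mem_filter.2 ⟨Finset.mem_univ _, h, h3⟩)
      exact ⟨e.1.2, h2, Finset.mem_filter.2 ⟨he1, Or.inr rfl⟩⟩
  calc (SH H f).card ≤ _ := Finset.card_le_card h1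
    _ ≤ ∑ x ∈ H, ((suppE f).filter fun e => e.1.1 = x ∨ e.1.2 = x).card := Finset.card_biUnion_le
    _ ≤ _ := Finset.sum_le_sum fun x _ => card_edges_at_le f x

private lemma EE_sub {H : Finset (Fin n)} {f : Coch n K} {J : Finset (Tri n)} (hJ : MaxFam H f J) :
    EE J ⊆ suppE f := by
  intro e he
  obtain ⟨t, ht, het⟩ := Finset.mem_biUnion.1 he
  exact (hJ.2.1 t ht).2.1 het

private lemma EE_sub_low {H : Finset (Fin n)} {f : Coch n K} {J : Finset (Tri n)}
    (hJ : MaxFam H f J) : EE J ⊆ low H := by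
  intro e he
  obtain ⟨t, ht, het⟩ := Finset.mem_biUnion.1 he
  exact (hJ.2.1 t ht).2.2 het

private lemma tc_le {H : Finset (Fin n)} {f : Coch n K} {J : Finset (Tri n)} (hJ : MaxFam H f J)
    (hH : hub f = H) (v : Fin n) : (tc J v : ℝ) ≤ (n : ℝ) ^ (1 - 1 / 50 : ℝ) := by
  have h1 : degE J v = 2 * tc J v := degE_eq_tc hJ.1 v
  have h0 : degE J v ≤ dgr f v := by
    refine le_trans (Finset.card_le_card ?_) (card_edges_at_le f v)
    exact Finset.filter_subset_filter _ (EE_sub hJ)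
  by_cases hv : v ∈ H
  · have h2 : degE J v = 0 := by
      unfold degE
      rw [Finset.card_eq_zero, Finset.filter_eq_empty_iff]
      intro e he hev
      have := (Finset.mem_filter.1 (EE_sub_low hJ he)).2
      rcases hev with h | h
      · exact this.1 (h ▸ hv)
      · exact this.2 (h ▸ hv)
    have h3 : tc J v = 0 := by omega
    rw [h3]
    simp only [Nat.cast_zero]
    positivity
  · have h2 : ¬ ((n : ℝ) ^ (1 - 1 / 50 : ℝ) ≤ (dgr f v : ℝ)) := by
      intro h3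
      apply hv
      rw [← hH]
      exact Finset.mem_filter.2 ⟨Finset.mem_univ _, h3⟩
    have h3 : (tc J v : ℝ) ≤ (dgr f v : ℝ) := by
      have : tc J v ≤ dgr f v := by omega
      exact_mod_cast this
    linarith [not_le.1 h2]

/-- pointwise bound in the form needed for the summation -/
private lemma s3_point [Fintype K] (hn : 3 ≤ n) {P : Finset K} (hP : IsHalf P) {H : Finset (Fin n)}
    {f φ : Coch n K} (hagree : ∀ e, e ∉ low H → f e = φ e) (hH : hub f = H)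
    {J : Finset (Tri n)} (hJ : MaxFam H f J) {s sl : ℕ} (hs : (suppE f).card = s)
    (hsl : (suppE f ∩ low H).card = sl)
    {η : ℝ} (hη : 0 < η) (hη1 : η ≤ 1) {c : ℝ} (hc : 0 < c) (hc1 : c < 1)
    (h : ∀ g : Fin n → ℝ, ∑ e ∈ suppE f, (g e.1.2 - g e.1.1) ^ 2 ≤ (1 - c) * n * ∑ x, g x ^ 2)
    {h97 : ℝ} (hprod : ∀ x, ∏ y ∈ univ.filter (fun y => y ∉ H), ((Dg f x y : ℝ) / n)
          ≤ Real.exp h97 *
            ∏ y ∈ univ.filter (fun y => y ∉ H), ((rx f x (val f x y) : ℝ) / n)) :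
    w f ≤ (Real.exp (4 * ((-Real.log c) / (1 - c)) * s / n + η * (2 * sl + ∑ x ∈ H, (dgr φ x : ℝ))
        - 2 * sl * (1 - 1 / n - 2 * H.card / n - 2 * (⌊(n : ℝ) ^ (1 - 1 / 50 : ℝ)⌋₊ : ℝ) / n)
        - (∑ x ∈ H, (XX H φ x : ℝ)) / n + H.card * h97) *
        ∏ x ∈ H, ∏ y ∈ univ.filter (fun y => y ∉ H), ((rx φ x (val φ x y) : ℝ) / n)) *
      (((1 / (n : ℝ)) ^ (S2 H f J).card *
        (lapMu (arcG n K) (muF P H f J) ((S2 H f J).image (arcOf P f))).det) *
        ∏ e ∈ EE J, (((degE J e.1.1 : ℝ) + degE J e.1.2) / (η * n))) := by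
  have hΔ : ∀ x, x ∉ H → dgr f x ≤ ⌊(n : ℝ) ^ (1 - 1 / 50 : ℝ)⌋₊ := by
    intro x hx
    refine Nat.le_floor ?_
    by_contra h3
    apply hx
    rw [← hH]
    exact Finset.mem_filter.2 ⟨Finset.mem_univ _, (not_le.1 h3).le⟩
  have h1 := w_le_point hn hP H f hJ hΔ hη hη1 hc hc1 h
  rw [hs, hsl] at h1
  have hXX : ∑ x ∈ H, (XX H f x : ℝ) = ∑ x ∈ H, (XX H φ x : ℝ) :=
    Finset.sum_congr rfl fun x hx => by rw [XX_agree hagree hx]
  rw [hXX] at h1
  set A : ℝ := (1 / (n : ℝ)) ^ (S2 H f J).card *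
        (lapMu (arcG n K) (muF P H f J) ((S2 H f J).image (arcOf P f))).det with hA
  set B : ℝ := ∏ e ∈ EE J, (((degE J e.1.1 : ℝ) + degE J e.1.2) / (η * n)) with hB
  have hA0 : 0 ≤ A := by
    rw [hA]
    refine mul_nonneg (pow_nonneg (one_div_nonneg.2 (Nat.cast_nonneg n)) _)
      (det_lapMu_nonneg _ (fun ω => ?_) _)
    unfold muF
    have h3 : (0 : ℝ) ≤ (if ω.1 ≠ ω.2.1 ∧ ω.1 ∉ H ∧ ω.2.1 ∉ H ∧ ω.2.2 ∈ P then
      ((H.filter fun h => val f h ω.2.1 - val f h ω.1 = ω.2.2).card : ℝ) else 0) := by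
      split_ifs
      · exact Nat.cast_nonneg _
      · exact le_rfl
    exact add_nonneg h3 (mul_nonneg zero_le_two (add_nonneg (Nat.cast_nonneg _) (Nat.cast_nonneg _)))
  have hB0 : 0 ≤ B := by
    rw [hB]
    exact Finset.prod_nonneg fun e _ => div_nonneg (add_nonneg (Nat.cast_nonneg _)
      (Nat.cast_nonneg _)) (mul_nonneg hη.le (Nat.cast_nonneg _))
  have hpr : ∏ x ∈ H, ∏ y ∈ univ.filter (fun y => y ∉ H), ((Dg f x y : ℝ) / n)
      ≤ Real.exp (H.card * h97) *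
        ∏ x ∈ H, ∏ y ∈ univ.filter (fun y => y ∉ H), ((rx φ x (val φ x y) : ℝ) / n) := by
    have h3 : ∏ x ∈ H, ∏ y ∈ univ.filter (fun y => y ∉ H), ((Dg f x y : ℝ) / n)
        ≤ ∏ x ∈ H, (Real.exp h97 *
            ∏ y ∈ univ.filter (fun y => y ∉ H), ((rx f x (val f x y) : ℝ) / n)) :=
      Finset.prod_le_prod (fun x _ => Finset.prod_nonneg fun y _ => by positivity)
        fun x _ => hprod x
    refine h3.trans (le_of_eq ?_)
    rw [Finset.prod_mul_distrib, Finset.prod_const, ← Real.exp_nat_mul]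
    congr 1
    refine Finset.prod_congr rfl fun x hx => Finset.prod_congr rfl fun y _ => ?_
    rw [rx_agree hagree hx, val_agree hagree hx]
  have hS2 : ((S2 H f J).card : ℝ) ≤ sl := by
    rw [← hsl]
    exact_mod_cast Finset.card_le_card Finset.sdiff_subset
  have hSH : ((SH H f).card : ℝ) ≤ ∑ x ∈ H, (dgr φ x : ℝ) := by
    have h3 := SH_card_le H f
    have h4 : ∑ x ∈ H, dgr f x = ∑ x ∈ H, dgr φ x :=
      Finset.sum_congr rfl fun x hx => dgr_agree hagree hx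
    rw [h4] at h3
    exact_mod_cast h3
  have hexp2 : Real.exp (η * (2 * (S2 H f J).card + (SH H f).card))
      ≤ Real.exp (η * (2 * sl + ∑ x ∈ H, (dgr φ x : ℝ))) := by
    apply Real.exp_le_exp.2
    apply mul_le_mul_of_nonneg_left _ hη.le
    linarith
  set Pi : ℝ := ∏ x ∈ H, ∏ y ∈ univ.filter (fun y => y ∉ H), ((rx φ x (val φ x y) : ℝ) / n) with hPi
  have hPi0 : 0 ≤ Pi := Finset.prod_nonneg fun x _ => Finset.prod_nonneg fun y _ => by positivity
  set e1 := Real.exp (4 * ((-Real.log c) / (1 - c)) * s / n) with he1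
  set e3 := Real.exp (-2 * (sl : ℝ) * (1 - 1 / n - 2 * H.card / n
      - 2 * (⌊(n : ℝ) ^ (1 - 1 / 50 : ℝ)⌋₊ : ℝ) / n) - (∑ x ∈ H, (XX H φ x : ℝ)) / n) with he3
  refine h1.trans ?_
  calc e1 * Real.exp (η * (2 * (S2 H f J).card + (SH H f).card)) * A * B * e3 *
        ∏ x ∈ H, ∏ y ∈ univ.filter (fun y => y ∉ H), ((Dg f x y : ℝ) / n)
      ≤ e1 * Real.exp (η * (2 * sl + ∑ x ∈ H, (dgr φ x : ℝ))) * A * B * e3 *
        (Real.exp (H.card * h97) * Pi) := by
        have he10 : 0 ≤ e1 := (Real.exp_pos _).le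
        have he30 : 0 ≤ e3 := (Real.exp_pos _).le
        have hq0 : 0 ≤ ∏ x ∈ H, ∏ y ∈ univ.filter (fun y => y ∉ H), ((Dg f x y : ℝ) / n) :=
          Finset.prod_nonneg fun x _ => Finset.prod_nonneg fun y _ => by positivity
        refine mul_le_mul (mul_le_mul_of_nonneg_right (mul_le_mul_of_nonneg_right
          (mul_le_mul_of_nonneg_right (mul_le_mul_of_nonneg_left hexp2 he10) hA0) hB0) he30) hpr hq0
          (mul_nonneg (mul_nonneg (mul_nonneg (mul_nonneg he10 (Real.exp_pos _).le) hA0) hB0) he30)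
    _ = _ := by
        rw [he1, he3]
        have : Real.exp (4 * ((-Real.log c) / (1 - c)) * s / n + η * (2 * sl + ∑ x ∈ H, (dgr φ x : ℝ))
            - 2 * sl * (1 - 1 / n - 2 * H.card / n - 2 * (⌊(n : ℝ) ^ (1 - 1 / 50 : ℝ)⌋₊ : ℝ) / n)
            - (∑ x ∈ H, (XX H φ x : ℝ)) / n + H.card * h97)
            = Real.exp (4 * ((-Real.log c) / (1 - c)) * s / n) *
              Real.exp (η * (2 * sl + ∑ x ∈ H, (dgr φ x : ℝ))) *
              Real.exp (-2 * (sl : ℝ) * (1 - 1 / n - 2 * H.card / n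
                - 2 * (⌊(n : ℝ) ^ (1 - 1 / 50 : ℝ)⌋₊ : ℝ) / n) - (∑ x ∈ H, (XX H φ x : ℝ)) / n) *
              Real.exp (H.card * h97) := by
          rw [← Real.exp_add, ← Real.exp_add, ← Real.exp_add]
          congr 1
          ring
        rw [this]
        ring

end aux

/-- the exponent -/
private lemma expo_bound {kk s sl D X n L ε hc n97 n400 : ℝ} (hk : 1 ≤ kk) (hn : 0 < n)
    (hsl0 : 0 ≤ sl) (hD0 : 0 ≤ D) (hX : D * n / (4 * kk) ≤ X)
    (hh : hc * n97 ≤ (1 / 100) / kk * D) (hs : s ≤ sl + D) 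
    (h1 : 4 * L * s / n ≤ (1 / 200) / kk * s) (h2 : s * n400 ≤ (1 / 200) / kk * s)
    (hε : ε ≤ 1 / 2000) :
    4 * L * s / n + 1 / (20 * kk) * (2 * sl + D) - 2 * sl * (1 - ε) - X / n + hc * n97
      + 1.8 * sl + 0.65 / (2 * n) * X + s * n400 ≤ -(8 / 100 / kk) * s := by
  have hk0 : 0 < kk := by linarith
  have hXn : D / (4 * kk) ≤ X / n := by
    rw [le_div_iff₀ hn]
    calc D / (4 * kk) * n = D * n / (4 * kk) := by ring
      _ ≤ X := hX
  have e1 : 0.65 / (2 * n) * X = 0.325 * (X / n) := by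
    ring
  have e2 : 1 / (20 * kk) * (2 * sl + D) = (1 / 10) * (sl / kk) + (1 / 20) * (D / kk) := by
    field_simp
    ring
  have e3 : D / (4 * kk) = (1 / 4) * (D / kk) := by
    field_simp
  have e4 : (1 / 100) / kk * D = (1 / 100) * (D / kk) := by ring
  have e5 : (1 / 200) / kk * s = (1 / 200) * (s / kk) := by ring
  have e6 : -(8 / 100 / kk) * s = -(8 / 100) * (s / kk) := by ring
  rw [e3] at hXn
  rw [e4] at hh
  rw [e5] at h1 h2
  rw [e1, e2, e6]
  have hslk : sl / kk ≤ sl := div_le_self hsl0 hk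
  have hslk0 : 0 ≤ sl / kk := by positivity
  have hDk0 : 0 ≤ D / kk := by positivity
  have hsk : s / kk ≤ sl / kk + D / kk := by
    rw [← add_div]
    exact div_le_div_of_nonneg_right hs hk0.le
  have h3 : 2 * sl * (1 - ε) ≥ 2 * sl * (1 - 1 / 2000) := by
    apply mul_le_mul_of_nonneg_left _ (by positivity)
    linarith
  nlinarith

private lemma num1 : 2 * (0.1662 : ℝ) ≤ 0.65 * Real.exp (-0.65) := by
  have h1 : Real.exp 0.65 ≤ 1.9554 := by
    have := Real.exp_bound' (x := 0.65) (by norm_num) (by norm_num) (n := 4) (by norm_num)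
    refine this.trans ?_
    norm_num [Finset.sum_range_succ, Nat.factorial]
  rw [Real.exp_neg]
  have h2 : (1.9554 : ℝ)⁻¹ ≤ (Real.exp 0.65)⁻¹ := inv_anti₀ (Real.exp_pos _) h1
  have h3 : (0.5114 : ℝ) ≤ (1.9554 : ℝ)⁻¹ := by norm_num
  linarith

private lemma num2 : 1 / (0.1662 : ℝ) ≤ Real.exp 1.8 := by
  have h1 := Real.sum_le_exp_of_nonneg (x := 1.8) (by norm_num) 9
  refine le_trans ?_ h1
  norm_num [Finset.sum_range_succ, Nat.factorial]

open Classical in
theorem s3_fixed (K : Type) [AddCommGroup K] [Fintype K] [DecidableEq K] (hodd : Odd (Fintype.card K)) :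
    ∃ c : ℝ, 0 < c ∧ ∀ᶠ n : ℕ in atTop, ∀ s : ℕ, (n : ℝ) ^ (1 / 25 : ℝ) ≤ s →
      (s : ℝ) ≤ (n : ℝ) ^ (101 / 100 : ℝ) → ∀ (H : Finset (Fin n)) (φ : Coch n K),
      ∑ f ∈ univ.filter (fun f : Coch n K => VMin f ∧ hub f = H ∧ (suppE f).card = s ∧
          ∀ e, e ∉ low H → f e = φ e), w f
        ≤ Real.exp (-c * s) *
          ∏ x ∈ H, ∏ y ∈ univ.filter (fun y => y ∉ H), ((rx φ x (val φ x y) : ℝ) / n) := by
  obtain ⟨P, hP⟩ := exists_half K hodd
  set kk : ℝ := (Fintype.card K : ℝ) with hkk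
  have hk1 : 1 ≤ kk := by
    rw [hkk]
    exact_mod_cast Fintype.card_pos
  have hk0 : 0 < kk := by linarith
  refine ⟨5 / 100 / kk, by positivity, ?_⟩
  set c0 : ℝ := 1 / (4 * kk) with hc0
  have hc0pos : 0 < c0 := by positivity
  have hc0lt : c0 < 1 := by
    rw [hc0, div_lt_one (by positivity)]
    linarith
  set L : ℝ := (-Real.log c0) / (1 - c0) with hL
  set η : ℝ := 1 / (20 * kk) with hη
  have hη0 : 0 < η := by positivity
  have hη1 : η ≤ 1 := by
    rw [hη, div_le_one (by positivity)]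
    linarith
  set Cst : ℝ := 2 * kk * Real.exp (4 * 0.65 * kk) / η with hCst
  have hCst0 : 0 ≤ Cst := by positivity
  -- asymptotic facts
  have t0 : Tendsto (fun n : ℕ => (n : ℝ)) atTop atTop := tendsto_natCast_atTop_atTop
  have trp : ∀ y : ℝ, 0 < y → Tendsto (fun n : ℕ => (n : ℝ) ^ (-y)) atTop (𝓝 0) := fun y hy =>
    (tendsto_rpow_neg_atTop hy).comp t0
  have N2 : ∀ᶠ n : ℕ in atTop, 4 * L / (n : ℝ) ≤ 1 / 200 / kk := by
    have : Tendsto (fun n : ℕ => 4 * L / (n : ℝ)) atTop (𝓝 0) := tendsto_const_nhds.div_atTop t0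
    exact this.eventually_le_const (by positivity)
  have N3 : ∀ᶠ n : ℕ in atTop, (n : ℝ) ^ (-(1 / 400) : ℝ) ≤ 1 / 200 / kk :=
    (trp (1 / 400) (by norm_num)).eventually_le_const (by positivity)
  have N4 : ∀ᶠ n : ℕ in atTop, (n : ℝ) ^ (-(1 / 100) : ℝ) ≤ 1 / 100 / kk :=
    (trp (1 / 100) (by norm_num)).eventually_le_const (by positivity)
  have N5 : ∀ᶠ n : ℕ in atTop,
      (n : ℝ)⁻¹ + 4 * (n : ℝ) ^ (-(97 / 100) : ℝ) + 2 * (n : ℝ) ^ (-(1 / 50) : ℝ) ≤ 1 / 2000 := by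
    have h1 : Tendsto (fun n : ℕ => (n : ℝ)⁻¹) atTop (𝓝 0) := tendsto_inv_atTop_zero.comp t0
    have h2 := (trp (97 / 100) (by norm_num)).const_mul 4
    have h3 := (trp (1 / 50) (by norm_num)).const_mul 2
    have h4 := (h1.add h2).add h3
    simp only [mul_zero, add_zero] at h4
    exact h4.eventually_le_const (by norm_num)
  have N6 : ∀ᶠ n : ℕ in atTop, ∀ s : ℕ, (n : ℝ) ^ (1 / 25 : ℝ) ≤ s →
      (s : ℝ) + 1 ≤ Real.exp (3 / 100 / kk * s) := by
    have h1 : Tendsto (fun x : ℝ => Real.exp (3 / 100 / kk * x) / x ^ (1 : ℝ)) atTop atTop := by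
      exact tendsto_exp_mul_div_rpow_atTop 1 (3 / 100 / kk) (by positivity)
    have h2 : ∀ᶠ x : ℝ in atTop, 2 ≤ Real.exp (3 / 100 / kk * x) / x ^ (1 : ℝ) :=
      h1.eventually_ge_atTop 2
    obtain ⟨x0, hx0⟩ := Filter.eventually_atTop.1 (h2.and (eventually_ge_atTop 1))
    have h3 : Tendsto (fun n : ℕ => (n : ℝ) ^ (1 / 25 : ℝ)) atTop atTop :=
      (tendsto_rpow_atTop (by norm_num)).comp t0
    filter_upwards [h3.eventually_ge_atTop x0] with n hn s hs
    obtain ⟨h4, h5⟩ := hx0 s (hn.trans hs)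
    rw [Real.rpow_one, le_div_iff₀ (by linarith)] at h4
    linarith
  filter_upwards [eventually_ge_atTop 3, spec_hub K, hub_prod K, XX_ge K, esum_large Cst hCst0,
    N2, N3, N4, N5, N6] with n hn hspec hhub hXXge hesum n2 n3 n4 n5 n6 s hs1 hs2 H φ
  have hn0 : (0 : ℝ) < n := by
    have : 0 < n := by omega
    exact_mod_cast this
  set F := univ.filter (fun f : Coch n K => VMin f ∧ hub f = H ∧ (suppE f).card = s ∧
          ∀ e, e ∉ low H → f e = φ e) with hF
  set Pi : ℝ := ∏ x ∈ H, ∏ y ∈ univ.filter (fun y => y ∉ H), ((rx φ x (val φ x y) : ℝ) / n) with hPi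
  have hPi0 : 0 ≤ Pi := Finset.prod_nonneg fun x _ => Finset.prod_nonneg fun y _ => by positivity
  -- decomposition according to the number of low support edges
  have hdec : ∑ f ∈ F, w f = ∑ sl ∈ range (s + 1),
      ∑ f ∈ F.filter (fun f => (suppE f ∩ low H).card = sl), w f := by
    rw [← Finset.sum_fiberwise_of_maps_to (t := range (s + 1))
      (g := fun f => (suppE f ∩ low H).card)]
    intro f hf
    have h1 := (Finset.mem_filter.1 hf).2.2.2.1
    rw [Finset.mem_range]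
    have h2 : (suppE f ∩ low H).card ≤ (suppE f).card := Finset.card_le_card Finset.inter_subset_left
    omega
  have hone : ∀ sl ∈ range (s + 1), ∑ f ∈ F.filter (fun f => (suppE f ∩ low H).card = sl), w f
      ≤ Real.exp (-(8 / 100 / kk) * s) * Pi := by
    intro sl _
    set Fm := F.filter (fun f => (suppE f ∩ low H).card = sl) with hFm
    rcases Fm.eq_empty_or_nonempty with hemp | ⟨f0, hf0⟩
    · rw [hemp, Finset.sum_empty]
      positivity
    have hmem : ∀ f ∈ Fm, VMin f ∧ hub f = H ∧ (suppE f).card = s ∧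
        (∀ e, e ∉ low H → f e = φ e) ∧ (suppE f ∩ low H).card = sl := by
      intro f hf
      have h1 := Finset.mem_filter.1 hf
      have h2 := (Finset.mem_filter.1 h1.1).2
      exact ⟨h2.1, h2.2.1, h2.2.2.1, h2.2.2.2, h1.2⟩
    set Jf : Coch n K → Finset (Tri n) := fun f => Classical.choose (exists_maxFam H f) with hJf
    have hJf1 : ∀ f, MaxFam H f (Jf f) := fun f => Classical.choose_spec (exists_maxFam H f)
    set Js : Finset (Finset (Tri n)) := (univ : Finset (Finset (Tri n))).filter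
        (fun J => 3 * J.card ≤ s ∧ ∀ v, (tc J v : ℝ) ≤ (n : ℝ) ^ (1 - 1 / 50 : ℝ)) with hJs
    have hJmem : ∀ f ∈ Fm, Jf f ∈ Js := by
      intro f hf
      obtain ⟨g1, g2, g3, g4, g5⟩ := hmem f hf
      refine Finset.mem_filter.2 ⟨Finset.mem_univ _, ?_, fun v => tc_le (hJf1 f) g2 v⟩
      rw [← EE_card (hJf1 f).1, ← g3]
      exact Finset.card_le_card (EE_sub (hJf1 f))
    set D : ℝ := ∑ x ∈ H, (dgr φ x : ℝ) with hD
    set X : ℝ := ∑ x ∈ H, (XX H φ x : ℝ) with hX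
    set ε : ℝ := 1 / n + 2 * H.card / n + 2 * (⌊(n : ℝ) ^ (1 - 1 / 50 : ℝ)⌋₊ : ℝ) / n with hε
    set h97 : ℝ := (n : ℝ) ^ (97 / 100 : ℝ) with hh97
    -- pointwise bound
    have hpt : ∀ f ∈ Fm, w f ≤ (Real.exp (4 * L * s / n + η * (2 * sl + D)
        - 2 * sl * (1 - ε) - X / n + H.card * h97) * Pi) *
      (((1 / (n : ℝ)) ^ (S2 H f (Jf f)).card *
        (lapMu (arcG n K) (muF P H f (Jf f)) ((S2 H f (Jf f)).image (arcOf P f))).det) *
        ∏ e ∈ EE (Jf f), (((degE (Jf f) e.1.1 : ℝ) + degE (Jf f) e.1.2) / (η * n))) := by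
      intro f hf
      obtain ⟨g1, g2, g3, g4, g5⟩ := hmem f hf
      have hsf : ((suppE f).card : ℝ) ≤ (n : ℝ) ^ (101 / 100 : ℝ) := by rw [g3]; exact hs2
      have := s3_point hn hP g4 g2 (hJf1 f) g3 g5 hη0 hη1 hc0pos hc0lt (hspec f g1 hsf)
        (fun x => hhub f hsf H x)
      have he : 1 - ε = 1 - 1 / n - 2 * H.card / n
          - 2 * (⌊(n : ℝ) ^ (1 - 1 / 50 : ℝ)⌋₊ : ℝ) / n := by rw [hε]; ring
      rw [he]
      exact this
    have hsum := nz_sum_forest hn hP H φ sl Fm Jf Js (fun f hf => (hmem f hf).2.2.2.1)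
      (fun f hf => (hmem f hf).2.2.2.2) (fun f hf => ⟨hJf1 f, hJmem f hf⟩)
      (ξ := 0.1662) (T := 0.65) (η := η) (by norm_num) (by norm_num) (by norm_num) num1 hη0
    have hes := hesum s hs1 hs2
    -- facts from f0
    obtain ⟨g1, g2, g3, g4, g5⟩ := hmem f0 hf0
    have hsf : ((suppE f0).card : ℝ) ≤ (n : ℝ) ^ (101 / 100 : ℝ) := by rw [g3]; exact hs2
    have hdgr : ∀ x ∈ H, (n : ℝ) ^ (1 - 1 / 50 : ℝ) ≤ (dgr φ x : ℝ) := by
      intro x hx
      rw [← dgr_agree g4 hx]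
      rw [← g2] at hx
      exact (Finset.mem_filter.1 hx).2
    have hXD : D * n / (4 * kk) ≤ X := by
      rw [hD, hX, Finset.sum_mul, Finset.sum_div]
      refine Finset.sum_le_sum fun x hx => ?_
      have h1 := hXXge f0 g1 hsf x (by rw [g2]; exact hx)
      rw [g2, XX_agree g4 hx, dgr_agree g4 hx] at h1
      exact h1
    have hHD : (H.card : ℝ) * (n : ℝ) ^ (1 - 1 / 50 : ℝ) ≤ D := by
      rw [hD, ← nsmul_eq_mul]
      exact Finset.card_nsmul_le_sum _ _ _ hdgr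
    have hsD : (s : ℝ) ≤ sl + D := by
      have h1 : (suppE f0).card = (suppE f0 ∩ low H).card + (SH H f0).card := by
        unfold SH
        rw [Finset.card_inter_add_card_sdiff]
      have h2 := SH_card_le H f0
      have h3 : ∑ x ∈ H, dgr f0 x = ∑ x ∈ H, dgr φ x :=
        Finset.sum_congr rfl fun x hx => dgr_agree g4 hx
      rw [h3] at h2
      have h4 : s ≤ sl + ∑ x ∈ H, dgr φ x := by omega
      rw [hD]
      exact_mod_cast h4
    have hh : (H.card : ℝ) * h97 ≤ (1 / 100) / kk * D := by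
      have h1 : h97 = (n : ℝ) ^ (1 - 1 / 50 : ℝ) * (n : ℝ) ^ (-(1 / 100) : ℝ) := by
        rw [hh97, ← Real.rpow_add hn0]
        norm_num
      have hD0 : 0 ≤ D := Finset.sum_nonneg fun x _ => by positivity
      calc (H.card : ℝ) * h97 = ((H.card : ℝ) * (n : ℝ) ^ (1 - 1 / 50 : ℝ)) * (n : ℝ) ^ (-(1 / 100) : ℝ) := by
            rw [h1]; ring
        _ ≤ D * (n : ℝ) ^ (-(1 / 100) : ℝ) := by gcongr
        _ ≤ D * ((1 / 100) / kk) := by gcongr
        _ = _ := by ring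
    have hεb : ε ≤ 1 / 2000 := by
      have h1 := hub_card f0
      rw [g2, g3] at h1
      have h2 : (H.card : ℝ) * (n : ℝ) ^ (1 - 1 / 50 : ℝ) ≤ 2 * (n : ℝ) ^ (101 / 100 : ℝ) := by
        linarith
      have hp : (0 : ℝ) < (n : ℝ) ^ (1 - 1 / 50 : ℝ) := Real.rpow_pos_of_pos hn0 _
      have h3 : 2 * (H.card : ℝ) / n ≤ 4 * (n : ℝ) ^ (-(97 / 100) : ℝ) := by
        have h4 : (n : ℝ) ^ (-(97 / 100) : ℝ) * ((n : ℝ) ^ (1 : ℝ) * (n : ℝ) ^ (1 - 1 / 50 : ℝ))
            = (n : ℝ) ^ (101 / 100 : ℝ) := by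
          rw [← Real.rpow_add hn0, ← Real.rpow_add hn0]
          norm_num
        rw [Real.rpow_one] at h4
        rw [div_le_iff₀ hn0]
        refine le_of_mul_le_mul_right ?_ hp
        calc 2 * (H.card : ℝ) * (n : ℝ) ^ (1 - 1 / 50 : ℝ) ≤ 2 * (2 * (n : ℝ) ^ (101 / 100 : ℝ)) := by
              linarith
          _ = _ := by rw [← h4]; ring
      have h5 : 2 * (⌊(n : ℝ) ^ (1 - 1 / 50 : ℝ)⌋₊ : ℝ) / n ≤ 2 * (n : ℝ) ^ (-(1 / 50) : ℝ) := by
        have h6 : (⌊(n : ℝ) ^ (1 - 1 / 50 : ℝ)⌋₊ : ℝ) ≤ (n : ℝ) ^ (1 - 1 / 50 : ℝ) :=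
          Nat.floor_le hp.le
        have h7 : (n : ℝ) ^ (-(1 / 50) : ℝ) * (n : ℝ) ^ (1 : ℝ) = (n : ℝ) ^ (1 - 1 / 50 : ℝ) := by
          rw [← Real.rpow_add hn0]
          norm_num
        rw [Real.rpow_one] at h7
        rw [div_le_iff₀ hn0, mul_assoc, h7]
        linarith
      rw [hε, one_div]
      linarith
    have hexpo := expo_bound (kk := kk) (s := s) (sl := sl) (D := D) (X := X) (n := n) (L := L)
      (ε := ε) (hc := H.card) (n97 := h97) (n400 := (n : ℝ) ^ (-(1 / 400) : ℝ)) hk1 hn0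
      (Nat.cast_nonneg _) (Finset.sum_nonneg fun x _ => Nat.cast_nonneg _) hXD hh hsD
      (by
        calc 4 * L * s / n = 4 * L / n * s := by ring
          _ ≤ _ := by gcongr)
      (by rw [mul_comm]; gcongr) hεb
    have hpow : (1 / (0.1662 : ℝ)) ^ sl ≤ Real.exp (1.8 * sl) := by
      rw [mul_comm, Real.exp_nat_mul]
      exact pow_le_pow_left₀ (by norm_num) num2 sl
    calc ∑ f ∈ Fm, w f ≤ ∑ f ∈ Fm, (Real.exp (4 * L * s / n + η * (2 * sl + D)
            - 2 * sl * (1 - ε) - X / n + H.card * h97) * Pi) *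
          (((1 / (n : ℝ)) ^ (S2 H f (Jf f)).card *
            (lapMu (arcG n K) (muF P H f (Jf f)) ((S2 H f (Jf f)).image (arcOf P f))).det) *
            ∏ e ∈ EE (Jf f), (((degE (Jf f) e.1.1 : ℝ) + degE (Jf f) e.1.2) / (η * n))) :=
          Finset.sum_le_sum hpt
      _ ≤ (Real.exp (4 * L * s / n + η * (2 * sl + D)
            - 2 * sl * (1 - ε) - X / n + H.card * h97) * Pi) *
          ((1 / 0.1662) ^ sl * Real.exp (0.65 / (2 * n) * X) * ∑ J ∈ Js, psiJ Cst J) := by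
          rw [← Finset.mul_sum]
          exact mul_le_mul_of_nonneg_left hsum (by positivity)
      _ ≤ (Real.exp (4 * L * s / n + η * (2 * sl + D)
            - 2 * sl * (1 - ε) - X / n + H.card * h97) * Pi) *
          (Real.exp (1.8 * sl) * Real.exp (0.65 / (2 * n) * X) *
            Real.exp (s * (n : ℝ) ^ (-(1 / 400) : ℝ))) := by
          refine mul_le_mul_of_nonneg_left ?_ (by positivity)
          have hps0 : 0 ≤ ∑ J ∈ Js, psiJ Cst J :=
            Finset.sum_nonneg fun J _ => Finset.prod_nonneg fun t _ => by positivity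
          exact mul_le_mul (mul_le_mul_of_nonneg_right hpow (Real.exp_pos _).le) hes hps0
            (by positivity)
      _ = Real.exp (4 * L * s / n + η * (2 * sl + D)
            - 2 * sl * (1 - ε) - X / n + H.card * h97 + 1.8 * sl + 0.65 / (2 * n) * X
            + s * (n : ℝ) ^ (-(1 / 400) : ℝ)) * Pi := by
          rw [Real.exp_add _ (s * (n : ℝ) ^ (-(1 / 400) : ℝ)), Real.exp_add _ (0.65 / (2 * n) * X),
            Real.exp_add _ (1.8 * (sl : ℝ))]
          ring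
      _ ≤ Real.exp (-(8 / 100 / kk) * s) * Pi := by
          exact mul_le_mul_of_nonneg_right (Real.exp_le_exp.2 hexpo) hPi0
  rw [hdec]
  calc ∑ sl ∈ range (s + 1), ∑ f ∈ F.filter (fun f => (suppE f ∩ low H).card = sl), w f
      ≤ ∑ sl ∈ range (s + 1), Real.exp (-(8 / 100 / kk) * s) * Pi := Finset.sum_le_sum hone
    _ = ((s : ℝ) + 1) * (Real.exp (-(8 / 100 / kk) * s) * Pi) := by
        rw [Finset.sum_const, card_range, nsmul_eq_mul]
        push_cast
        ring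
    _ ≤ Real.exp (3 / 100 / kk * s) * (Real.exp (-(8 / 100 / kk) * s) * Pi) := by
        have := n6 s hs1
        gcongr
    _ = Real.exp (-(5 / 100 / kk) * s) * Pi := by
        rw [← mul_assoc, ← Real.exp_add]
        congr 2
        ring

end

end Pool.Agent.DH10
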