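import Pool.Agent.DH10.NZDefs
import Pool.Agent.DH10.SpecHub
import Pool.Agent.DH10.Mid1

/-!
# DH10.NZS4 : the range `n^{1.01} ≤ s ≤ n^{1.99}`, two lemmas (4.12)

* `s4_sample`: `w = ⌈n^{0.995}⌉` samples `z_i`, `φ_i = val f z_i ·`.  `sample_chern` (`ρ = s/n²`, `w ρ ≥ n^{0.005}`) and a union bound over
  `n² k` triples: the fraction of bad samples for (a) tends to `0`.  (b): the average of `∑_i #{y : φ_i y ≠ 0}` over all samples is
  `w · 2s/n`, so at least half of the samples have it `≤ 4 w s/n` (Markov).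
* `s4_mean`: `∑_{x<y} (1 - rr f x y 0) = (1/n) ∑_z #{x<y : f(z,x) ≠ f(z,y)} = (1/n) ∑_z (n² - ∑_c r_z(c)²)/2`, `r_z(c) = #{x : f(z,x)=c}`
  (all `x`, including `x = z` with value `0`).  With `d_z = dgr f z = n - r_z(0)`: `∑_c r² ≤ r_z(0) n` (vertex-minimality: `r_z(0)` is the
  largest) gives `≥ n d_z/2`, and `∑_c r² ≤ (n-d)² + d²` gives `≥ d_z(n-d_z)`.  Let `Big = {z : d_z ≥ n/1000}`, `|Big| ≤ 2000 s/n`, number
  of support edges inside `Big` `≤ |Big|²/2 ≤ 2·10^6 s²/n² ≤ 10^{-4} s` for large `n` (`s ≤ n^{1.99}`).  So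
  `∑_z (..)/n ≥ 0.999 ∑_{z∉Big} d_z + ½ ∑_{z∈Big} d_z ≥ 1.499 (s - e(Big)) ≥ 1.49 s` (an edge with an endpoint outside `Big` contributes at
  least `0.999 + 0.5`).
-/

set_option autoImplicit false

open Finset Filter

namespace Pool.Agent.DH10

noncomputable section

/-- sample size `⌈n^{0.995}⌉` -/
def w4 (n : ℕ) : ℕ := ⌈(n : ℝ) ^ (995 / 1000 : ℝ)⌉₊

private theorem s4_sum_Edg {n : ℕ} (F : Fin n → Fin n → ℝ) (h0 : ∀ x, F x x = 0) :
    ∑ x, ∑ y, F x y = ∑ e : Edg n, (F e.1.1 e.1.2 + F e.1.2 e.1.1) := by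
  have key : ∀ H : Fin n → Fin n → ℝ,
      ∑ e : Edg n, H e.1.1 e.1.2 = ∑ x, ∑ y, if x < y then H x y else 0 := by
    intro H
    rw [← Finset.sum_subtype (univ.filter fun t : Fin n × Fin n => t.1 < t.2)
      (by simp) (fun t => H t.1 t.2), Finset.sum_filter, Fintype.sum_prod_type]
  rw [Finset.sum_add_distrib, key F, key (fun x y => F y x)]
  have hs : ∑ x, ∑ y, (if x < y then F y x else 0) = ∑ x, ∑ y, (if y < x then F x y else 0) :=
    Finset.sum_comm
  rw [hs, ← Finset.sum_add_distrib]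
  refine Finset.sum_congr rfl fun x _ => ?_
  rw [← Finset.sum_add_distrib]
  refine Finset.sum_congr rfl fun y _ => ?_
  rcases lt_trichotomy x y with h | h | h
  · simp [h, not_lt.mpr h.le]
  · simp [h, h0]
  · simp [h, not_lt.mpr h.le]

/-- the union bound is small -/
private theorem s4_small {q c : ℝ} (hc : 0 < c) : ∀ᶠ n : ℕ in atTop,
    (n : ℝ) ^ 2 * q * (2 * Real.exp (-(c * (n : ℝ) ^ (5 / 1000 : ℝ)))) < 1 / 2 := by
  have h1 : Tendsto (fun n : ℕ => c * (n : ℝ) ^ (5 / 1000 : ℝ)) atTop atTop :=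
    ((tendsto_rpow_atTop (by norm_num)).comp tendsto_natCast_atTop_atTop).const_mul_atTop hc
  have h2 := ((Real.tendsto_pow_mul_exp_neg_atTop_nhds_zero 400).comp h1).const_mul
    (2 * q / c ^ 400)
  rw [mul_zero] at h2
  filter_upwards [h2.eventually_lt_const (u := 1 / 2) (by norm_num), eventually_ge_atTop 1]
    with n hn hn1
  have hn0 : (0 : ℝ) < n := by exact_mod_cast hn1
  refine lt_of_le_of_lt (le_of_eq ?_) hn
  have e1 : (n : ℝ) ^ 2 = (c * (n : ℝ) ^ (5 / 1000 : ℝ)) ^ 400 / c ^ 400 := by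
    rw [mul_pow, mul_div_cancel_left₀ _ (by positivity : c ^ 400 ≠ 0), ← Real.rpow_natCast
      ((n : ℝ) ^ (5 / 1000 : ℝ)) 400, ← Real.rpow_mul hn0.le, ← Real.rpow_natCast]
    congr 1
    norm_num
  simp only [Function.comp_apply]
  rw [e1]
  field_simp

/-- sum over samples of a function of one coordinate -/
private theorem s4_coord {n k : ℕ} (hn : 0 < n) (g : Fin n → ℝ) (i : Fin k) :
    ∑ z : Fin k → Fin n, g (z i) = (∑ v, g v) / n * (n : ℝ) ^ k := by
  have hn0 : (n : ℝ) ≠ 0 := by exact_mod_cast hn.ne'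
  have h1 : ∑ z : Fin k → Fin n, g (z i) =
      ∑ z : Fin k → Fin n, ∏ j, (if j = i then g (z j) else 1) := by
    refine Finset.sum_congr rfl fun z _ => ?_
    rw [Finset.prod_ite_eq' univ i (fun j => g (z j)), if_pos (mem_univ _)]
  have h2 : ∑ z : Fin k → Fin n, ∏ j, (if j = i then g (z j) else 1) =
      ∏ j : Fin k, ∑ a : Fin n, (if j = i then g a else 1) := by
    rw [Finset.prod_univ_sum, Fintype.piFinset_univ]
  have h3 : ∀ j : Fin k, ∑ a : Fin n, (if j = i then g a else 1) =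
      (if j = i then (∑ v, g v) / n else 1) * (n : ℝ) := by
    intro j
    by_cases h : j = i
    · simp only [h, if_true]
      field_simp
    · simp [h]
  rw [h1, h2, Finset.prod_congr rfl fun j _ => h3 j, Finset.prod_mul_distrib,
    Finset.prod_ite_eq' univ i (fun _ => (∑ v, g v) / n), if_pos (mem_univ _), Finset.prod_const,
    Finset.card_univ, Fintype.card_fin]

/-- Markov for the number of nonzero values -/
private theorem s4_markov {n k : ℕ} (hn : 0 < n) (g : Fin n → ℝ) (hg : ∀ v, 0 ≤ g v) {s : ℝ}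
    (hs : 0 < s) (hk : 0 < k) (hsum : ∑ v, g v = 2 * s) :
    ((univ.filter fun z : Fin k → Fin n => 4 * k * s / n < ∑ i, g (z i)).card : ℝ)
      ≤ (n : ℝ) ^ k / 2 := by
  have hn0 : (0 : ℝ) < n := by exact_mod_cast hn
  have hk0 : (0 : ℝ) < k := by exact_mod_cast hk
  set B := univ.filter fun z : Fin k → Fin n => 4 * k * s / n < ∑ i, g (z i) with hB
  have h1 : ∑ z : Fin k → Fin n, ∑ i, g (z i) = k * (2 * s / n * (n : ℝ) ^ k) := by
    rw [Finset.sum_comm, Finset.sum_congr rfl fun i _ => s4_coord hn g i, Finset.sum_const,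
      Finset.card_univ, Fintype.card_fin, nsmul_eq_mul, hsum]
  have h2 : (B.card : ℝ) * (4 * k * s / n) ≤ ∑ z : Fin k → Fin n, ∑ i, g (z i) := by
    calc (B.card : ℝ) * (4 * k * s / n) = ∑ z ∈ B, (4 * k * s / n) := by
          rw [Finset.sum_const, nsmul_eq_mul]
      _ ≤ ∑ z ∈ B, ∑ i, g (z i) := Finset.sum_le_sum fun z hz => (mem_filter.1 hz).2.le
      _ ≤ ∑ z : Fin k → Fin n, ∑ i, g (z i) :=
          Finset.sum_le_sum_of_subset_of_nonneg (subset_univ _)
            fun z _ _ => Finset.sum_nonneg fun i _ => hg _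
  rw [h1] at h2
  have h3 : (0 : ℝ) < 4 * k * s / n := by positivity
  have h4 : (k : ℝ) * (2 * s / n * (n : ℝ) ^ k) = (n : ℝ) ^ k / 2 * (4 * k * s / n) := by ring
  rw [h4] at h2
  exact le_of_mul_le_mul_right h2 h3

theorem s4_sample (K : Type) [AddCommGroup K] [Fintype K] [DecidableEq K] {η : ℝ} (hη : 0 < η)
    (hη1 : η ≤ 1) :
    ∀ᶠ n : ℕ in atTop, ∀ f : Coch n K, (n : ℝ) ^ (101 / 100 : ℝ) ≤ (suppE f).card →
      ∃ φ : Fin (w4 n) → Fin n → K,
        (∀ x y a, a ≠ 0 → |qq φ x y a - rr f x y a|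
          ≤ η * max (rr f x y a) ((suppE f).card / (n : ℝ) ^ 2)) ∧
        (∑ i, ((univ.filter fun y => φ i y ≠ 0).card : ℝ)) ≤ 4 * (w4 n) * (suppE f).card / n := by
  classical
  filter_upwards [s4_small (q := Fintype.card K) (c := η ^ 2 / 4) (by positivity),
    eventually_ge_atTop 1] with n hn hn1 f hf
  have hn0 : (0 : ℝ) < n := by exact_mod_cast hn1
  have hn1' : 0 < n := hn1
  obtain ⟨s, hs⟩ : ∃ s : ℝ, s = ((suppE f).card : ℝ) := ⟨_, rfl⟩
  rw [← hs] at hf ⊢
  have hs0 : 0 < s := lt_of_lt_of_le (Real.rpow_pos_of_pos hn0 _) hf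
  have hρ0 : 0 < s / (n : ℝ) ^ 2 := by positivity
  have hw : (n : ℝ) ^ (995 / 1000 : ℝ) ≤ (w4 n : ℝ) := Nat.le_ceil _
  have hk : 1 ≤ w4 n := by
    unfold w4
    rw [Nat.one_le_ceil_iff]
    exact Real.rpow_pos_of_pos hn0 _
  have hwρ : (n : ℝ) ^ (5 / 1000 : ℝ) ≤ (w4 n : ℝ) * (s / (n : ℝ) ^ 2) := by
    have e1 : (n : ℝ) ^ (5 / 1000 : ℝ) =
        (n : ℝ) ^ (995 / 1000 : ℝ) * ((n : ℝ) ^ (101 / 100 : ℝ) / (n : ℝ) ^ 2) := by
      rw [← Real.rpow_natCast, ← Real.rpow_sub hn0, ← Real.rpow_add hn0]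
      congr 1
      norm_num
    rw [e1]
    gcongr
  let A : Fin n → Fin n → K → Finset (Fin n) := fun x y a =>
    univ.filter fun z => val f x z + val f z y = a
  let bad : Fin n × Fin n × K → Finset (Fin (w4 n) → Fin n) := fun p =>
    univ.filter fun z : Fin (w4 n) → Fin n =>
      η * max (((A p.1 p.2.1 p.2.2).card : ℝ) / Fintype.card (Fin n)) (s / (n : ℝ) ^ 2) <
        |((univ.filter fun i => z i ∈ A p.1 p.2.1 p.2.2).card : ℝ) / (w4 n : ℕ) -
        ((A p.1 p.2.1 p.2.2).card : ℝ) / Fintype.card (Fin n)|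
  have hbad : ∀ p, ((bad p).card : ℝ) ≤
      2 * Real.exp (-(η ^ 2 / 4 * (n : ℝ) ^ (5 / 1000 : ℝ))) * (n : ℝ) ^ (w4 n) := by
    intro p
    have h := sample_chern (A p.1 p.2.1 p.2.2) (w4 n) hη hη1 hρ0 hk
      (by rw [Fintype.card_fin]; omega)
    have h' : ((bad p).card : ℝ) ≤ 2 * Real.exp (-(η ^ 2 * (w4 n : ℕ) * (s / (n : ℝ) ^ 2) / 4)) *
        (Fintype.card (Fin n) : ℝ) ^ (w4 n) := by
      convert h using 3
    rw [Fintype.card_fin] at h'
    refine h'.trans ?_
    have h3 : -(η ^ 2 * (w4 n : ℕ) * (s / (n : ℝ) ^ 2) / 4) ≤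
        -(η ^ 2 / 4 * (n : ℝ) ^ (5 / 1000 : ℝ)) := by
      have := mul_le_mul_of_nonneg_left hwρ (by positivity : 0 ≤ η ^ 2 / 4)
      have e : η ^ 2 * (w4 n : ℕ) * (s / (n : ℝ) ^ 2) / 4 =
          η ^ 2 / 4 * ((w4 n : ℝ) * (s / (n : ℝ) ^ 2)) := by ring
      rw [e]
      linarith
    have h4 := Real.exp_le_exp.2 h3
    gcongr
  have hlt1 : ((univ.biUnion bad).card : ℝ) < (n : ℝ) ^ (w4 n) / 2 := by
    calc ((univ.biUnion bad).card : ℝ) ≤ ((∑ p, (bad p).card : ℕ) : ℝ) := by
          exact_mod_cast Finset.card_biUnion_le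
      _ = ∑ p, ((bad p).card : ℝ) := by push_cast; rfl
      _ ≤ ∑ _p : Fin n × Fin n × K, 2 * Real.exp (-(η ^ 2 / 4 * (n : ℝ) ^ (5 / 1000 : ℝ))) *
            (n : ℝ) ^ (w4 n) := Finset.sum_le_sum fun p _ => hbad p
      _ = ((n : ℝ) ^ 2 * Fintype.card K *
            (2 * Real.exp (-(η ^ 2 / 4 * (n : ℝ) ^ (5 / 1000 : ℝ))))) * (n : ℝ) ^ (w4 n) := by
          rw [Finset.sum_const, Finset.card_univ, Fintype.card_prod, Fintype.card_prod,
            Fintype.card_fin, nsmul_eq_mul]
          push_cast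
          ring
      _ < 1 / 2 * (n : ℝ) ^ (w4 n) := mul_lt_mul_of_pos_right hn (by positivity)
      _ = (n : ℝ) ^ (w4 n) / 2 := by ring
  have hsum : ∑ v, (dgr f v : ℝ) = 2 * s := by
    rw [hs]
    exact_mod_cast sum_dgr f
  have hbad2 := s4_markov (k := w4 n) hn1' (fun v => (dgr f v : ℝ)) (fun v => by positivity) hs0
    (by omega) hsum
  set bad2 := univ.filter fun z : Fin (w4 n) → Fin n =>
    4 * (w4 n : ℝ) * s / n < ∑ i, (dgr f (z i) : ℝ) with hbad2def
  have hlt : (univ.biUnion bad ∪ bad2).card < Fintype.card (Fin (w4 n) → Fin n) := by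
    have h1 : ((univ.biUnion bad ∪ bad2).card : ℝ) < (n : ℝ) ^ (w4 n) := by
      calc ((univ.biUnion bad ∪ bad2).card : ℝ) ≤ (univ.biUnion bad).card + bad2.card := by
            exact_mod_cast Finset.card_union_le _ _
        _ < (n : ℝ) ^ (w4 n) / 2 + (n : ℝ) ^ (w4 n) / 2 := add_lt_add_of_lt_of_le hlt1 hbad2
        _ = (n : ℝ) ^ (w4 n) := by ring
    rw [Fintype.card_fun, Fintype.card_fin, Fintype.card_fin]
    exact_mod_cast h1
  obtain ⟨z, hz⟩ : ∃ z, z ∉ univ.biUnion bad ∪ bad2 := by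
    by_contra hcon
    push Not at hcon
    have : univ.biUnion bad ∪ bad2 = univ := Finset.eq_univ_of_forall hcon
    rw [this, Finset.card_univ] at hlt
    exact lt_irrefl _ hlt
  rw [Finset.mem_union, not_or] at hz
  refine ⟨fun i y => val f (z i) y, fun x y a _ => ?_, ?_⟩
  · have hz1 := hz.1
    rw [Finset.mem_biUnion] at hz1
    push Not at hz1
    have h1 := hz1 (x, y, a) (mem_univ _)
    simp only [bad, mem_filter, mem_univ, true_and, not_lt, Fintype.card_fin] at h1
    have h2 : (univ.filter fun i => val f (z i) y - val f (z i) x = a) =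
        univ.filter fun i => z i ∈ A x y a := by
      ext i
      simp only [A, mem_filter, mem_univ, true_and]
      rw [val_neg f x (z i), sub_neg_eq_add, add_comm]
    unfold qq rr
    rw [h2]
    exact h1
  · have hz2 := hz.2
    rw [hbad2def, mem_filter] at hz2
    push Not at hz2
    exact hz2 (mem_univ _)


/-- the number of values equal to a given value is at most the number of zeros -/
private theorem s4_vmin {n : ℕ} {K : Type} [AddCommGroup K] [DecidableEq K] {f : Coch n K}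
    (hf : VMin f) (z : Fin n) (c : K) :
    (univ.filter fun y => val f z y = c).card ≤ (univ.filter fun y => val f z y = 0).card := by
  by_cases hc : c = 0
  · rw [hc]
  · have h0 : val f z z = 0 := by
      unfold val
      rw [dif_neg (lt_irrefl _), dif_neg (lt_irrefl _)]
    calc (univ.filter fun y => val f z y = c).card
        ≤ (univ.filter fun y => y ≠ z ∧ val f z y = c).card := by
          refine card_le_card fun y hy => ?_
          rw [mem_filter] at hy ⊢
          refine ⟨hy.1, ?_, hy.2⟩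
          rintro rfl
          exact hc (hy.2.symm.trans h0)
      _ ≤ (univ.filter fun y => y ≠ z ∧ val f z y = 0).card := hf z c
      _ ≤ (univ.filter fun y => val f z y = 0).card := by
          refine card_le_card fun y hy => ?_
          rw [mem_filter] at hy ⊢
          exact ⟨hy.1, hy.2.2⟩

private theorem s4_card_compl {n : ℕ} {K : Type} [AddCommGroup K] [DecidableEq K] (f : Coch n K)
    (z : Fin n) (c : K) :
    ((univ.filter fun y => c ≠ val f z y).card : ℝ) =
      n - ((univ.filter fun y => val f z y = c).card : ℝ) := by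
  have h := Finset.card_filter_add_card_filter_not (s := (univ : Finset (Fin n)))
    (fun y => val f z y = c)
  rw [Finset.card_univ, Fintype.card_fin] at h
  have h2 : (univ.filter fun y => c ≠ val f z y) = univ.filter fun y => ¬ val f z y = c := by
    ext y
    simp [eq_comm]
  rw [h2]
  have h3 : ((univ.filter fun y => val f z y = c).card : ℝ) +
      ((univ.filter fun y => ¬ val f z y = c).card : ℝ) = n := by exact_mod_cast h
  linarith

/-- the number of ordered pairs with different values -/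
private def s4P {n : ℕ} {K : Type} [AddCommGroup K] [DecidableEq K] (f : Coch n K) (z : Fin n) : ℝ :=
  ∑ x : Fin n, ∑ y : Fin n, if val f z x ≠ val f z y then (1 : ℝ) else 0

private theorem s4_row {n : ℕ} {K : Type} [AddCommGroup K] [DecidableEq K] (f : Coch n K)
    (z x : Fin n) : (∑ y : Fin n, if val f z x ≠ val f z y then (1 : ℝ) else 0) =
      n - ((univ.filter fun y => val f z y = val f z x).card : ℝ) := by
  rw [← s4_card_compl, Finset.sum_boole]

private theorem s4_zero {n : ℕ} {K : Type} [AddCommGroup K] [DecidableEq K] (f : Coch n K)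
    (z : Fin n) : ((univ.filter fun y => val f z y = 0).card : ℝ) = n - dgr f z := by
  have h := s4_card_compl f z 0
  have h2 : (univ.filter fun y => (0 : K) ≠ val f z y) = univ.filter fun y => val f z y ≠ 0 := by
    ext y
    simp [eq_comm]
  rw [h2] at h
  have h3 : (dgr f z : ℝ) = ((univ.filter fun y => val f z y ≠ 0).card : ℝ) := rfl
  rw [h3]
  linarith

private theorem s4P_ge1 {n : ℕ} {K : Type} [AddCommGroup K] [DecidableEq K] {f : Coch n K}
    (hf : VMin f) (z : Fin n) : (n : ℝ) * dgr f z ≤ s4P f z := by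
  unfold s4P
  calc (n : ℝ) * dgr f z = ∑ _x : Fin n, (dgr f z : ℝ) := by
        rw [Finset.sum_const, Finset.card_univ, Fintype.card_fin, nsmul_eq_mul]
    _ ≤ _ := by
        refine Finset.sum_le_sum fun x _ => ?_
        rw [s4_row]
        have h1 : ((univ.filter fun y => val f z y = val f z x).card : ℝ) ≤
            (univ.filter fun y => val f z y = 0).card := by exact_mod_cast s4_vmin hf z _
        rw [s4_zero] at h1
        linarith

private theorem s4P_ge2 {n : ℕ} {K : Type} [AddCommGroup K] [DecidableEq K] (f : Coch n K)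
    (z : Fin n) : 2 * ((dgr f z : ℝ) * (n - dgr f z)) ≤ s4P f z := by
  unfold s4P
  have h0 := s4_zero f z
  have hd : (dgr f z : ℝ) = ∑ x : Fin n, (if val f z x ≠ 0 then (1 : ℝ) else 0) := by
    unfold dgr
    rw [Finset.sum_boole]
  have hz : ((n : ℝ) - dgr f z) = ∑ x : Fin n, (if val f z x = 0 then (1 : ℝ) else 0) := by
    rw [← h0, Finset.sum_boole]
  have h1 : 2 * ((dgr f z : ℝ) * (n - dgr f z)) =
      ∑ x : Fin n, ((if val f z x ≠ 0 then (1 : ℝ) else 0) * (n - dgr f z) +
        (if val f z x = 0 then (1 : ℝ) else 0) * dgr f z) := by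
    rw [Finset.sum_add_distrib, ← Finset.sum_mul, ← Finset.sum_mul, ← hd, ← hz]
    ring
  rw [h1]
  refine Finset.sum_le_sum fun x _ => ?_
  rw [s4_row]
  by_cases hx : val f z x = 0
  · simp only [hx, ne_eq, not_true_eq_false, if_false, if_true, zero_mul, one_mul, zero_add]
    rw [h0]
    linarith
  · simp only [hx, ne_eq, not_false_eq_true, if_false, if_true, zero_mul, one_mul, add_zero]
    have h2 : ((univ.filter fun y => val f z y = val f z x).card : ℝ) ≤ dgr f z := by
      unfold dgr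
      have : (univ.filter fun y => val f z y = val f z x).card ≤
          (univ.filter fun y => val f z y ≠ 0).card := by
        refine card_le_card fun y hy => ?_
        rw [mem_filter] at hy ⊢
        refine ⟨hy.1, ?_⟩
        rw [hy.2]
        exact hx
      exact_mod_cast this
    linarith

private theorem s4_sum_rr {n : ℕ} (hn : 0 < n) {K : Type} [AddCommGroup K] [DecidableEq K]
    (f : Coch n K) :
    ∑ e : Edg n, (1 - rr f e.1.1 e.1.2 0) = (∑ z, s4P f z) / (2 * n) := by
  have hn0 : (n : ℝ) ≠ 0 := by exact_mod_cast hn.ne'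
  have h1 : ∀ x y : Fin n, (1 - rr f x y 0) =
      (∑ z : Fin n, if val f z x ≠ val f z y then (1 : ℝ) else 0) / n := by
    intro x y
    have h2 : rr f x y 0 = ((univ.filter fun z => val f z x = val f z y).card : ℝ) / n := by
      unfold rr
      congr 3
      ext z
      simp only [mem_filter, mem_univ, true_and]
      rw [val_neg f z x, neg_add_eq_zero]
    have h3 := Finset.card_filter_add_card_filter_not (s := (univ : Finset (Fin n)))
      (fun z => val f z x = val f z y)
    rw [Finset.card_univ, Fintype.card_fin] at h3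
    have h4 : ((univ.filter fun z => val f z x = val f z y).card : ℝ) +
      ((univ.filter fun z => ¬ val f z x = val f z y).card : ℝ) = n := by exact_mod_cast h3
    have h5 : (∑ z : Fin n, if val f z x ≠ val f z y then (1 : ℝ) else 0) =
        ((univ.filter fun z => ¬ val f z x = val f z y).card : ℝ) := by
      rw [Finset.sum_boole]
    rw [h2, h5]
    field_simp
    linarith
  have h6 : ∑ z, s4P f z =
      2 * ∑ e : Edg n, ∑ z : Fin n, (if val f z e.1.1 ≠ val f z e.1.2 then (1 : ℝ) else 0) := by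
    unfold s4P
    rw [Finset.sum_comm (s := (univ : Finset (Edg n))), Finset.mul_sum]
    refine Finset.sum_congr rfl fun z _ => ?_
    rw [s4_sum_Edg (fun x y => if val f z x ≠ val f z y then (1 : ℝ) else 0) (by simp),
      Finset.mul_sum]
    refine Finset.sum_congr rfl fun e _ => ?_
    by_cases h : val f z e.1.1 = val f z e.1.2
    · simp [h]
    · have h' : val f z e.1.2 ≠ val f z e.1.1 := fun hh => h hh.symm
      rw [if_pos h, if_pos h']
      norm_num
  rw [h6, Finset.sum_congr rfl fun e _ => h1 e.1.1 e.1.2, ← Finset.sum_div]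
  field_simp

/-- degrees of a set of vertices -/
private theorem s4_big {n : ℕ} {K : Type} [AddCommGroup K] [DecidableEq K] (f : Coch n K)
    (B : Finset (Fin n)) :
    ∑ z ∈ B, (dgr f z : ℝ) ≤ (suppE f).card + (B.card : ℝ) ^ 2 / 2 := by
  let A : Fin n → Fin n → ℝ := fun z y => if val f z y ≠ 0 then 1 else 0
  let b : Fin n → ℝ := fun z => if z ∈ B then 1 else 0
  have hA : ∀ z, (dgr f z : ℝ) = ∑ y, A z y := by
    intro z
    unfold dgr
    simp only [A]
    rw [Finset.sum_boole]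
  have hAs : ∀ z y, A z y = A y z := by
    intro z y
    simp only [A]
    rw [val_neg f z y]
    simp
  have hb : ∑ z, b z = B.card := by simp [b]
  have h1 : ∑ z ∈ B, (dgr f z : ℝ) = ∑ z, ∑ y, b z * A z y := by
    rw [← Finset.sum_filter_add_sum_filter_not univ (fun z => z ∈ B)]
    have e1 : ∑ z ∈ univ.filter (fun z => z ∈ B), ∑ y, b z * A z y = ∑ z ∈ B, (dgr f z : ℝ) := by
      have : univ.filter (fun z => z ∈ B) = B := by ext z; simp
      rw [this]
      refine Finset.sum_congr rfl fun z hz => ?_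
      simp [b, hz, hA]
    have e2 : ∑ z ∈ univ.filter (fun z => ¬ z ∈ B), ∑ y, b z * A z y = 0 := by
      refine Finset.sum_eq_zero fun z hz => ?_
      have : z ∉ B := (mem_filter.1 hz).2
      simp [b, this]
    rw [e1, e2, add_zero]
  have h2 : ∑ z, ∑ y, b z * A z y = ∑ z, ∑ y, b y * A z y := by
    rw [Finset.sum_comm]
    refine Finset.sum_congr rfl fun z _ => Finset.sum_congr rfl fun y _ => ?_
    rw [hAs]
  have h3 : ∑ z, ∑ y, b z * A z y + ∑ z, ∑ y, b y * A z y ≤
      ∑ z, ∑ y, (A z y + b z * b y) := by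
    rw [← Finset.sum_add_distrib]
    refine Finset.sum_le_sum fun z _ => ?_
    rw [← Finset.sum_add_distrib]
    refine Finset.sum_le_sum fun y _ => ?_
    simp only [A, b]
    split_ifs <;> norm_num
  have h4 : ∑ z, ∑ y, (A z y + b z * b y) = 2 * (suppE f).card + (B.card : ℝ) ^ 2 := by
    have e1 : ∑ z, ∑ y, A z y = 2 * ((suppE f).card : ℝ) := by
      rw [← Finset.sum_congr rfl fun z _ => hA z]
      exact_mod_cast sum_dgr f
    have e2 : ∑ z, ∑ y, b z * b y = (B.card : ℝ) ^ 2 := by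
      rw [← hb, sq, Finset.sum_mul_sum]
    rw [← e1, ← e2, ← Finset.sum_add_distrib]
    refine Finset.sum_congr rfl fun z _ => ?_
    rw [Finset.sum_add_distrib]
  rw [h1]
  linarith

theorem s4_mean (K : Type) [AddCommGroup K] [Fintype K] [DecidableEq K] :
    ∀ᶠ n : ℕ in atTop, ∀ f : Coch n K, VMin f → ((suppE f).card : ℝ) ≤ (n : ℝ) ^ (199 / 100 : ℝ) →
      1.49 * ((suppE f).card : ℝ) ≤ ∑ e : Edg n, (1 - rr f e.1.1 e.1.2 0) := by
  have hlim : Tendsto (fun n : ℕ => (n : ℝ) ^ (-(1 / 100) : ℝ)) atTop (nhds 0) :=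
    (tendsto_rpow_neg_atTop (by norm_num)).comp tendsto_natCast_atTop_atTop
  filter_upwards [hlim.eventually_lt_const (u := 9 / 10 ^ 9) (by norm_num), eventually_ge_atTop 1]
    with n hn hn1 f hV hs
  have hn0 : (0 : ℝ) < n := by exact_mod_cast hn1
  obtain ⟨s, hsd⟩ : ∃ s : ℝ, s = ((suppE f).card : ℝ) := ⟨_, rfl⟩
  have hs0 : 0 ≤ s := by rw [hsd]; positivity
  have hsum : ∑ v, (dgr f v : ℝ) = 2 * s := by
    rw [hsd]
    exact_mod_cast sum_dgr f
  set B : Finset (Fin n) := univ.filter fun z => (n : ℝ) / 1000 ≤ dgr f z with hB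
  have hbig := s4_big f B
  have hBc : (B.card : ℝ) * (n / 1000) ≤ 2 * s := by
    rw [← hsum]
    calc (B.card : ℝ) * (n / 1000) = ∑ z ∈ B, ((n : ℝ) / 1000) := by
          rw [Finset.sum_const, nsmul_eq_mul]
      _ ≤ ∑ z ∈ B, (dgr f z : ℝ) := Finset.sum_le_sum fun z hz => (mem_filter.1 hz).2
      _ ≤ ∑ z, (dgr f z : ℝ) :=
          Finset.sum_le_sum_of_subset_of_nonneg (subset_univ _) fun z _ _ => by positivity
  have hpt : ∀ z, 2 * n * (0.999 * (dgr f z : ℝ) - (if z ∈ B then 0.499 * (dgr f z : ℝ) else 0))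
      ≤ s4P f z := by
    intro z
    by_cases hz : z ∈ B
    · rw [if_pos hz]
      have h := s4P_ge1 hV z
      have e : 2 * n * (0.999 * (dgr f z : ℝ) - 0.499 * (dgr f z : ℝ)) = n * dgr f z := by ring
      rw [e]
      exact h
    · rw [if_neg hz, sub_zero]
      have h := s4P_ge2 f z
      have hz' : (dgr f z : ℝ) < n / 1000 := by
        rw [hB, mem_filter] at hz
        push Not at hz
        exact hz (mem_univ _)
      refine le_trans ?_ h
      have hd0 : (0 : ℝ) ≤ dgr f z := by positivity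
      nlinarith
  have htot : 2 * n * (0.999 * (2 * s) - 0.499 * ∑ z ∈ B, (dgr f z : ℝ)) ≤ ∑ z, s4P f z := by
    refine le_trans (le_of_eq ?_) (Finset.sum_le_sum fun z _ => hpt z)
    rw [← Finset.mul_sum, Finset.sum_sub_distrib, ← Finset.mul_sum, hsum, Finset.mul_sum,
      Finset.sum_ite_mem, Finset.univ_inter]
  rw [s4_sum_rr hn1 f, le_div_iff₀ (by positivity), ← hsd]
  refine le_trans ?_ htot
  have hB2 : (B.card : ℝ) ^ 2 ≤ 36 / 1000 * s := by
    have h1 : (B.card : ℝ) ≤ 2000 * s / n := by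
      rw [le_div_iff₀ hn0]
      linarith
    have h2 : (B.card : ℝ) ^ 2 ≤ (2000 * s / n) ^ 2 := by
      have : (0 : ℝ) ≤ B.card := by positivity
      exact pow_le_pow_left₀ this h1 2
    have h3 : (2000 * s / n) ^ 2 ≤ 4000000 * s * (n : ℝ) ^ (-(1 / 100) : ℝ) := by
      have e1 : (n : ℝ) ^ (-(1 / 100) : ℝ) = (n : ℝ) ^ (199 / 100 : ℝ) / (n : ℝ) ^ 2 := by
        rw [← Real.rpow_natCast, ← Real.rpow_sub hn0]
        congr 1
        norm_num
      rw [e1]
      have e2 : (2000 * s / n) ^ 2 = 4000000 * s * (s / (n : ℝ) ^ 2) := by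
        field_simp
        ring
      rw [e2]
      rw [← hsd] at hs
      gcongr
    have h4 : 4000000 * s * (n : ℝ) ^ (-(1 / 100) : ℝ) ≤ 4000000 * s * (9 / 10 ^ 9) := by
      gcongr
    linarith
  rw [← hsd] at hbig
  have hfin : 1.49 * s ≤ 0.999 * (2 * s) - 0.499 * ∑ z ∈ B, (dgr f z : ℝ) := by
    linarith
  have := mul_le_mul_of_nonneg_left hfin (by positivity : (0 : ℝ) ≤ 2 * n)
  linarith

end

end Pool.Agent.DH10
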