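import Pool.Agent.DH10.AvgCyc
import Pool.Agent.DH10.CondKer
import Pool.Agent.DH10.CoreSum

/-!
# DH10.PsiDefs : the random subset `R` of `T` (Part 6), definitions

Given `T ∈ cand n`, `R` is a random subset of `T`: each triangle is kept with probability `θ = th n`;
`PR R = θ^{|R|} (1-θ)^{N-|R|}` is the probability of `R` given `T ⊇ R`.
-/

set_option autoImplicit false

open Finset

namespace Pool.Agent.DH10

noncomputable section

variable {n : ℕ}

/-- probability of `R` given `T ⊇ R` -/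
def PR (R : Finset (Tri n)) : ℝ := th n ^ R.card * (1 - th n) ^ (NN n - R.card)

/-- `(3/n) ∑_{t,t' ∉ R} cnt(R,t,t') P(R ∪ t ⊆ T)` -/
def PsiR (G : Type) [AddCommGroup G] [Fintype G] (R : Finset (Tri n)) : ℝ :=
  (3 / n) * ∑ t ∈ Rᶜ, ∑ t' ∈ Rᶜ, (cnt G R t t' : ℝ) * PS (insert t R)

/-- the sum of `PR R * PsiR G R` over the `R` without nontrivial cycles -/
def PsiN (n : ℕ) (G : Type) [AddCommGroup G] [Fintype G] : ℝ :=
  ∑ R ∈ univ.filter (fun R : Finset (Tri n) => (cycIn G R).card = 1), PR R * PsiR G R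

/-- the bound of (6.4): cycle sum -/
def CycQ (n : ℕ) (G : Type) [AddCommGroup G] [Fintype G] (P : (Tri n → AddChar G ℂ) → Prop) : ℝ :=
  by
    classical
    exact ∑ z ∈ (univ : Finset (Tri n → AddChar G ℂ)).filter (fun z => IsCyc z ∧ z ≠ 1 ∧ P z),
      ∑ t ∈ supp z, ∑ t' ∈ supp z, th n ^ ((supp z).card - 2) * PS ((supp z).erase t')

end

end Pool.Agent.DH10
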