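import Pool.Agent.DH10.PsiDefs

/-!
# DH10.PsiLe : the deterministic part of (6.4)

`PsiN n G = (3/n) ∑_{R good} PR R ∑_{t,t'∉R} ∑_{(χ,χ',c)} ∑_{T ∈ cand, R ∪ t ⊆ T} W T` where `(χ,χ',c)` runs over the triples of
`cnt`.  Interchange: for fixed `(t,t',χ,χ',c)` and `T` with `t ∈ T`, `supp c ⊆ T \ t`, the sum of `PR R` over the `R` with
`supp c ⊆ R ⊆ T \ t` is `θ^{|supp c|} (1-θ)` (binomial theorem: `|T \ t| = N - 1`).  Let `z = c χ_t χ'_{t'}`, a cycle.
(i) `z = 1`: as `t, t' ∉ R ⊇ supp c`, this forces `c = 1`, `t = t'`, `χ' = χ⁻¹`.  Contribution at most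
`(3/n) (1-θ) ∑_T W T ∑_{t∈T} q = (3/n)(1-θ) N q`.
(ii) `z ≠ 1`.  If `t = t'` and `χ χ' = 1` then `z = c` is a nontrivial cycle supported in the good `R`: impossible.  So
`t, t' ∈ supp z`, and `supp c ∪ {t} ⊇ supp z \ {t'}`, `|supp c| ≥ |supp z| - 2`, so
`θ^{|supp c|} P(supp c ∪ t ⊆ T) ≤ θ^{|supp z|-2} PS(supp z \ t')`.  For given `(z,t,t')`: if `t ≠ t'` then
`χ = z_t`, `χ' = z_{t'}` and `c` are determined; if `t = t'`, `χχ' = z_t`: at most `q` choices.
Hence `PsiN ≤ (3/n)(1-θ) q (N + CycQ n G (fun _ => True))`, and `N (1-θ) = tt n`.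
(`0 ≤ th n ≤ 1` for `n ≥ 5`, see CoreSum.)
-/

set_option autoImplicit false

open Finset

namespace Pool.Agent.DH10

noncomputable section

private lemma pl_le_NN {n : ℕ} (hn : 5 ≤ n) : (n : ℝ) ≤ (NN n : ℝ) + 1 := by
  have h1 : n ≤ NN n + 1 := by
    rw [NN]
    have h2 : n - 1 ≤ (n - 1).choose 2 := by
      rw [Nat.choose_two_right, Nat.le_div_iff_mul_le (by norm_num)]
      exact Nat.mul_le_mul_left _ (by omega)
    omega
  exact_mod_cast h1

private lemma pl_th_bounds {n : ℕ} (hn : 5 ≤ n) : 0 ≤ th n ∧ th n ≤ 1 := by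
  have h1 := pl_le_NN hn
  have hn' : (5 : ℝ) ≤ n := by exact_mod_cast hn
  have hN : (0 : ℝ) < NN n := by linarith
  have ht : 0 ≤ tt n := Real.rpow_nonneg (Nat.cast_nonneg _) _
  refine ⟨?_, ?_⟩
  · rw [th, sub_nonneg, div_le_one hN]
    have h2 : tt n ≤ (n : ℝ) ^ (1 / 2 : ℝ) := by
      rw [tt]
      apply Real.rpow_le_rpow_of_exponent_le (by linarith)
      norm_num
    have h3 : (n : ℝ) ^ (1 / 2 : ℝ) ≤ n - 1 := by
      rw [← Real.sqrt_eq_rpow]
      apply Real.sqrt_le_iff.2
      constructor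
      · linarith
      · nlinarith
    linarith
  · rw [th]
    have : 0 ≤ tt n / NN n := div_nonneg ht hN.le
    linarith

variable {n : ℕ}

private lemma pl_PR_nonneg (hn : 5 ≤ n) (R : Finset (Tri n)) : 0 ≤ PR R := by
  obtain ⟨h0, h1⟩ := pl_th_bounds hn
  unfold PR
  exact mul_nonneg (pow_nonneg h0 _) (pow_nonneg (by linarith) _)

private lemma pl_PS_nonneg (R : Finset (Tri n)) : 0 ≤ PS R :=
  Finset.sum_nonneg fun S _ => W_nonneg S

private lemma pl_PS_anti {A B : Finset (Tri n)} (h : A ⊆ B) : PS B ≤ PS A := by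
  unfold PS
  apply Finset.sum_le_sum_of_subset_of_nonneg
  · intro S hS
    simp only [Finset.mem_filter] at hS ⊢
    exact ⟨hS.1, h.trans hS.2⟩
  · intro S _ _
    exact W_nonneg S

/-- binomial theorem over the interval `A ⊆ R ⊆ B` -/
private lemma pl_binom (x y : ℝ) (A B : Finset (Tri n)) (h : A ⊆ B) :
    ∑ R ∈ (univ : Finset (Finset (Tri n))).filter (fun R => A ⊆ R ∧ R ⊆ B),
      x ^ R.card * y ^ (B.card + 1 - R.card) = x ^ A.card * y * (x + y) ^ (B \ A).card := by
  rw [← Finset.sum_pow_mul_eq_add_pow, Finset.mul_sum]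
  symm
  apply Finset.sum_bij' (fun S _ => A ∪ S) (fun R _ => R \ A)
  · intro S hS
    rw [Finset.mem_powerset] at hS
    simp only [Finset.mem_filter, Finset.mem_univ, true_and]
    exact ⟨Finset.subset_union_left, Finset.union_subset h (hS.trans Finset.sdiff_subset)⟩
  · intro R hR
    simp only [Finset.mem_filter, Finset.mem_univ, true_and] at hR
    rw [Finset.mem_powerset]
    exact Finset.sdiff_subset_sdiff hR.2 le_rfl
  · intro S hS
    rw [Finset.mem_powerset] at hS
    have hd : Disjoint A S := by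
      rw [Finset.disjoint_left]
      intro a ha hs
      exact (Finset.mem_sdiff.1 (hS hs)).2 ha
    exact Finset.union_sdiff_cancel_left hd
  · intro R hR
    simp only [Finset.mem_filter, Finset.mem_univ, true_and] at hR
    exact Finset.union_sdiff_of_subset hR.1
  · intro S hS
    rw [Finset.mem_powerset] at hS
    have hd : Disjoint A S := by
      rw [Finset.disjoint_left]
      intro a ha hs
      exact (Finset.mem_sdiff.1 (hS hs)).2 ha
    have h1 : (A ∪ S).card = A.card + S.card := Finset.card_union_of_disjoint hd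
    have h2 : (B \ A).card = B.card - A.card := Finset.card_sdiff_of_subset h
    have h3 : S.card ≤ (B \ A).card := Finset.card_le_card hS
    have h4 : A.card ≤ B.card := Finset.card_le_card h
    have h5 : B.card + 1 - (A.card + S.card) = ((B \ A).card - S.card) + 1 := by omega
    rw [h1, h5, pow_add, pow_succ]
    ring

/-- interchange of the sums over `R` and `T` -/
private lemma pl_interchange (A : Finset (Tri n)) (t : Tri n) (htA : t ∉ A) :
    ∑ R ∈ (univ : Finset (Finset (Tri n))).filter (fun R => A ⊆ R ∧ t ∉ R), PR R * PS (insert t R) =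
      th n ^ A.card * (1 - th n) * PS (insert t A) := by
  have h1 : ∀ R : Finset (Tri n), PR R * PS (insert t R) =
      ∑ T ∈ cand n, if insert t R ⊆ T then PR R * W T else 0 := by
    intro R
    rw [PS, Finset.sum_filter, Finset.mul_sum]
    apply Finset.sum_congr rfl
    intro T _
    split_ifs <;> simp
  rw [Finset.sum_congr rfl (fun R _ => h1 R), Finset.sum_comm, PS, Finset.sum_filter, Finset.mul_sum]
  apply Finset.sum_congr rfl
  intro T hT
  have hTc : T.card = NN n := (Finset.mem_powersetCard.1 hT).2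
  rw [← Finset.sum_filter, Finset.filter_filter]
  split_ifs with hs
  · have htT : t ∈ T := hs (Finset.mem_insert_self _ _)
    have hAT : A ⊆ T.erase t := fun a ha =>
      Finset.mem_erase.2 ⟨fun h => htA (h ▸ ha), hs (Finset.mem_insert_of_mem ha)⟩
    have h2 : (univ : Finset (Finset (Tri n))).filter
        (fun R => (A ⊆ R ∧ t ∉ R) ∧ insert t R ⊆ T) =
        (univ : Finset (Finset (Tri n))).filter (fun R => A ⊆ R ∧ R ⊆ T.erase t) := by
      ext R
      simp only [Finset.mem_filter, Finset.mem_univ, true_and]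
      constructor
      · rintro ⟨⟨h3, h4⟩, h5⟩
        exact ⟨h3, fun a ha => Finset.mem_erase.2 ⟨fun h => h4 (h ▸ ha), h5 (Finset.mem_insert_of_mem ha)⟩⟩
      · rintro ⟨h3, h4⟩
        refine ⟨⟨h3, fun h => (Finset.mem_erase.1 (h4 h)).1 rfl⟩, ?_⟩
        exact Finset.insert_subset htT (h4.trans (Finset.erase_subset _ _))
    rw [h2, ← Finset.sum_mul]
    congr 1
    have h3 := pl_binom (th n) (1 - th n) A (T.erase t) hAT
    have h4 : (T.erase t).card + 1 = NN n := by
      rw [Finset.card_erase_add_one htT, hTc]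
    rw [h4] at h3
    simp only [add_sub_cancel, one_pow, mul_one] at h3
    exact h3
  · have h2 : (univ : Finset (Finset (Tri n))).filter
        (fun R => (A ⊆ R ∧ t ∉ R) ∧ insert t R ⊆ T) = ∅ := by
      rw [Finset.filter_eq_empty_iff]
      rintro R _ ⟨⟨h3, _⟩, h5⟩
      exact hs ((Finset.insert_subset_insert t h3).trans h5)
    rw [h2]
    simp

section
variable {G : Type} [AddCommGroup G] [Fintype G]

private lemma pl_mem_supp {z : Tri n → AddChar G ℂ} {t : Tri n} : t ∈ supp z ↔ z t ≠ 1 := by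
  simp [supp]

private lemma pl_cyc_one : IsCyc (1 : Tri n → AddChar G ℂ) := by
  intro f
  simp

/-- a cycle supported in a good set is trivial -/
private lemma pl_good {R : Finset (Tri n)} (hR : (cycIn G R).card = 1) {z : Tri n → AddChar G ℂ}
    (hz : IsCyc z) (hs : supp z ⊆ R) : z = 1 := by
  obtain ⟨a, ha⟩ := Finset.card_eq_one.1 hR
  have h1 : z ∈ cycIn G R := by
    simp only [cycIn, Finset.mem_filter, Finset.mem_univ, true_and]
    exact ⟨hz, hs⟩
  have h2 : (1 : Tri n → AddChar G ℂ) ∈ cycIn G R := by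
    simp only [cycIn, Finset.mem_filter, Finset.mem_univ, true_and]
    refine ⟨pl_cyc_one, ?_⟩
    intro t ht
    exact absurd rfl (pl_mem_supp.1 ht)
  rw [ha, Finset.mem_singleton] at h1 h2
  rw [h1, h2]

open Classical in
/-- the map `(χ, χ', c) ↦ (z, χ)` is injective, with image in a small set -/
private lemma pl_cnt_le {R : Finset (Tri n)} (hR : (cycIn G R).card = 1) {t t' : Tri n}
    (ht : t ∉ R) (ht' : t' ∉ R) :
    (cnt G R t t' : ℝ) ≤ Fintype.card G * ((if t = t' then 1 else 0) +
      ((univ : Finset (Tri n → AddChar G ℂ)).filter (fun z => IsCyc z ∧ z ≠ 1 ∧ t ∈ supp z ∧ t' ∈ supp z ∧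
        (supp z \ {t, t'}) ⊆ R)).card) := by
  set ZZ := (univ : Finset (Tri n → AddChar G ℂ)).filter (fun z => IsCyc z ∧ z ≠ 1 ∧ t ∈ supp z ∧
    t' ∈ supp z ∧ (supp z \ {t, t'}) ⊆ R) with hZZ
  set Z1 : Finset (Tri n → AddChar G ℂ) := if t = t' then {1} else ∅ with hZ1
  have hc1 : (Z1.card : ℝ) = if t = t' then 1 else 0 := by
    rw [hZ1]
    split_ifs <;> simp
  have hmain : cnt G R t t' ≤ ((Z1 ∪ ZZ) ×ˢ (univ : Finset (AddChar G ℂ))).card := by
    unfold cnt
    apply Finset.card_le_card_of_injOn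
      (fun x => (x.2.2 * (Pi.mulSingle t x.1 * Pi.mulSingle t' x.2.1), x.1))
    · rintro ⟨χ, χ', c⟩ hx
      simp only [Finset.coe_filter, Finset.mem_univ, true_and, Set.mem_ofPred_eq] at hx
      obtain ⟨hχ, hχ', hc, hcyc⟩ := hx
      simp only [Finset.coe_product, Finset.coe_univ, Set.mem_prod, Set.mem_univ, and_true,
        Finset.mem_coe, Finset.mem_union]
      have hct : c t = 1 := by
        by_contra h
        exact ht (hc (pl_mem_supp.2 h))
      have hct' : c t' = 1 := by
        by_contra h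
        exact ht' (hc (pl_mem_supp.2 h))
      set z := c * (Pi.mulSingle t χ * Pi.mulSingle t' χ') with hz
      by_cases htt : t = t'
      · subst htt
        by_cases hz1 : z = 1
        · left
          rw [hZ1, if_pos rfl, Finset.mem_singleton]
          exact hz1
        · right
          have hzt : z t = χ * χ' := by
            simp [hz, hct]
          have hzo : ∀ s, s ≠ t → z s = c s := by
            intro s hs
            simp [hz, Pi.mulSingle_eq_of_ne hs]
          have hsub : (supp z \ {t, t}) ⊆ R := by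
            intro s hs
            rw [Finset.mem_sdiff, pl_mem_supp] at hs
            have hst : s ≠ t := by
              intro h
              exact hs.2 (by simp [h])
            rw [hzo s hst] at hs
            exact hc (pl_mem_supp.2 hs.1)
          have hts : t ∈ supp z := by
            by_contra h
            have h1 : supp z ⊆ R := by
              intro s hs
              apply hsub
              rw [Finset.mem_sdiff]
              refine ⟨hs, ?_⟩
              simp only [Finset.mem_insert, Finset.mem_singleton, or_self]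
              rintro rfl
              exact h hs
            exact hz1 (pl_good hR hcyc h1)
          rw [hZZ, Finset.mem_filter]
          exact ⟨Finset.mem_univ _, hcyc, hz1, hts, hts, hsub⟩
      · right
        have hzt : z t = χ := by
          simp [hz, hct, Pi.mulSingle_eq_of_ne htt]
        have hzt' : z t' = χ' := by
          simp [hz, hct', Pi.mulSingle_eq_of_ne (Ne.symm htt)]
        have hzo : ∀ s, s ≠ t → s ≠ t' → z s = c s := by
          intro s hs hs'
          simp [hz, Pi.mulSingle_eq_of_ne hs, Pi.mulSingle_eq_of_ne hs']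
        rw [hZZ, Finset.mem_filter]
        refine ⟨Finset.mem_univ _, hcyc, ?_, ?_, ?_, ?_⟩
        · intro h
          apply hχ
          rw [← hzt, h]
          rfl
        · rw [pl_mem_supp, hzt]
          exact hχ
        · rw [pl_mem_supp, hzt']
          exact hχ'
        · intro s hs
          rw [Finset.mem_sdiff, pl_mem_supp] at hs
          simp only [Finset.mem_insert, Finset.mem_singleton, not_or] at hs
          rw [hzo s hs.2.1 hs.2.2] at hs
          exact hc (pl_mem_supp.2 hs.1)
    · rintro ⟨χ, χ', c⟩ hx ⟨ψ, ψ', d⟩ hy hxy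
      simp only [Finset.coe_filter, Finset.mem_univ, true_and, Set.mem_ofPred_eq] at hx hy
      simp only [Prod.mk.injEq] at hxy
      obtain ⟨hxy1, hxy2⟩ := hxy
      subst hxy2
      have hct : c t = 1 := by
        by_contra h
        exact ht (hx.2.2.1 (pl_mem_supp.2 h))
      have hct' : c t' = 1 := by
        by_contra h
        exact ht' (hx.2.2.1 (pl_mem_supp.2 h))
      have hdt : d t = 1 := by
        by_contra h
        exact ht (hy.2.2.1 (pl_mem_supp.2 h))
      have hdt' : d t' = 1 := by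
        by_contra h
        exact ht' (hy.2.2.1 (pl_mem_supp.2 h))
      have h1 : χ' = ψ' := by
        have h2 := congrFun hxy1 t'
        by_cases htt : t = t'
        · subst htt
          simp only [Pi.mul_apply, Pi.mulSingle_eq_same, hct, hdt, one_mul] at h2
          exact mul_left_cancel h2
        · simp only [Pi.mul_apply, Pi.mulSingle_eq_same, hct', hdt', one_mul,
            Pi.mulSingle_eq_of_ne (Ne.symm htt)] at h2
          exact h2
      subst h1
      have h2 : c = d := mul_right_cancel hxy1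
      rw [h2]
  have hcard : (((Z1 ∪ ZZ) ×ˢ (univ : Finset (AddChar G ℂ))).card : ℝ) ≤
      Fintype.card G * ((if t = t' then 1 else 0) + (ZZ.card : ℝ)) := by
    rw [Finset.card_product, Finset.card_univ, AddChar.card_eq, Nat.cast_mul, mul_comm]
    apply mul_le_mul_of_nonneg_left _ (Nat.cast_nonneg _)
    rw [← hc1]
    exact_mod_cast Finset.card_union_le _ _
  exact le_trans (by exact_mod_cast hmain) hcard

end

/-- total mass of the pairs `(t, T)`, `t ∈ T` -/
private lemma pl_diag (hn : 3 ≤ n) : ∑ t : Tri n, PS (insert t ∅) = NN n := by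
  have h1 : ∀ t : Tri n, PS (insert t ∅) = ∑ T ∈ cand n, if t ∈ T then W T else 0 := by
    intro t
    rw [PS, Finset.sum_filter]
    apply Finset.sum_congr rfl
    intro T _
    congr 1
    simp
  rw [Finset.sum_congr rfl (fun t _ => h1 t), Finset.sum_comm]
  have h2 : ∀ T ∈ cand n, (∑ t : Tri n, if t ∈ T then W T else 0) = NN n * W T := by
    intro T hT
    have hTc : T.card = NN n := (Finset.mem_powersetCard.1 hT).2
    rw [← Finset.sum_filter, Finset.sum_const, nsmul_eq_mul]
    congr 2
    rw [← hTc]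
    congr 1
    ext t
    simp
  rw [Finset.sum_congr rfl h2, ← Finset.mul_sum, sum_W hn, mul_one]


open Classical in
private lemma pl_ite_sum {ι : Type*} [Fintype ι] (A : Finset ι) (P : ι → ι → Prop) (c : ι → ℝ) :
    (∑ t ∈ A, ∑ t' ∈ A, if P t t' then c t else 0) =
      ∑ t, ∑ t', if t ∈ A ∧ t' ∈ A ∧ P t t' then c t else 0 := by
  have h1 : ∀ t, (∑ t', if t ∈ A ∧ t' ∈ A ∧ P t t' then c t else 0) =
      if t ∈ A then ∑ t' ∈ A, (if P t t' then c t else 0) else 0 := by
    intro t
    by_cases ht : t ∈ A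
    · simp only [ht, true_and, if_true]
      rw [← Finset.sum_filter, ← Finset.sum_filter]
      apply Finset.sum_congr _ (fun _ _ => rfl)
      ext t'
      simp
    · simp [ht]
  rw [Finset.sum_congr rfl (fun t _ => h1 t), ← Finset.sum_filter]
  apply Finset.sum_congr _ (fun _ _ => rfl)
  ext t
  simp

section
variable {G : Type} [AddCommGroup G] [Fintype G]

open Classical in
/-- the nontrivial cycles -/
private def plCY (n : ℕ) (G : Type) [AddCommGroup G] [Fintype G] : Finset (Tri n → AddChar G ℂ) :=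
  (univ : Finset (Tri n → AddChar G ℂ)).filter (fun z => IsCyc z ∧ z ≠ 1)

open Classical in
private lemma pl_swap (R : Finset (Tri n)) :
    (∑ t ∈ Rᶜ, ∑ t' ∈ Rᶜ, ∑ z ∈ plCY n G,
      if t ∈ supp z ∧ t' ∈ supp z ∧ (supp z \ {t, t'}) ⊆ R then PS (insert t R) else 0) ≤
    ∑ z ∈ plCY n G, ∑ t ∈ supp z, ∑ t' ∈ supp z,
      if (supp z \ {t, t'}) ⊆ R ∧ t ∉ R then PS (insert t R) else 0 := by
  have h1 : (∑ t ∈ Rᶜ, ∑ t' ∈ Rᶜ, ∑ z ∈ plCY n G,
      if t ∈ supp z ∧ t' ∈ supp z ∧ (supp z \ {t, t'}) ⊆ R then PS (insert t R) else 0) ≤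
      ∑ t : Tri n, ∑ t' : Tri n, ∑ z ∈ plCY n G,
      if t ∈ supp z ∧ t' ∈ supp z ∧ ((supp z \ {t, t'}) ⊆ R ∧ t ∉ R) then PS (insert t R) else 0 := by
    have h2 : ∀ t ∈ Rᶜ, (∑ t' ∈ Rᶜ, ∑ z ∈ plCY n G,
        if t ∈ supp z ∧ t' ∈ supp z ∧ (supp z \ {t, t'}) ⊆ R then PS (insert t R) else 0) ≤
        ∑ t' : Tri n, ∑ z ∈ plCY n G,
        if t ∈ supp z ∧ t' ∈ supp z ∧ ((supp z \ {t, t'}) ⊆ R ∧ t ∉ R) then PS (insert t R) else 0 := by
      intro t ht
      have ht' := Finset.mem_compl.1 ht
      have h3 : ∀ t' ∈ Rᶜ, (∑ z ∈ plCY n G,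
          if t ∈ supp z ∧ t' ∈ supp z ∧ (supp z \ {t, t'}) ⊆ R then PS (insert t R) else 0) =
          ∑ z ∈ plCY n G,
          if t ∈ supp z ∧ t' ∈ supp z ∧ ((supp z \ {t, t'}) ⊆ R ∧ t ∉ R) then PS (insert t R) else 0 := by
        intro t' _
        simp only [ht', not_false_eq_true, and_true]
      rw [Finset.sum_congr rfl h3]
      apply Finset.sum_le_sum_of_subset_of_nonneg (Finset.subset_univ _)
      intro t' _ _
      apply Finset.sum_nonneg
      intro z _
      split_ifs
      · exact pl_PS_nonneg _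
      · exact le_rfl
    refine (Finset.sum_le_sum h2).trans ?_
    apply Finset.sum_le_sum_of_subset_of_nonneg (Finset.subset_univ _)
    intro t _ _
    apply Finset.sum_nonneg
    intro t' _
    apply Finset.sum_nonneg
    intro z _
    split_ifs
    · exact pl_PS_nonneg _
    · exact le_rfl
  refine h1.trans (le_of_eq ?_)
  have h4 : ∀ z ∈ plCY n G, (∑ t ∈ supp z, ∑ t' ∈ supp z,
      if (supp z \ {t, t'}) ⊆ R ∧ t ∉ R then PS (insert t R) else 0) =
      ∑ t : Tri n, ∑ t' : Tri n,
      if t ∈ supp z ∧ t' ∈ supp z ∧ ((supp z \ {t, t'}) ⊆ R ∧ t ∉ R) then PS (insert t R) else 0 := by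
    intro z _
    convert pl_ite_sum (supp z) (fun t t' => (supp z \ {t, t'}) ⊆ R ∧ t ∉ R) (fun t => PS (insert t R))
  rw [Finset.sum_congr rfl h4]
  rw [Finset.sum_congr rfl (fun t _ => Finset.sum_comm), Finset.sum_comm]

open Classical in
/-- bound for one good `R` -/
private lemma pl_PsiR_le {R : Finset (Tri n)} (hR : (cycIn G R).card = 1) :
    PsiR G R ≤ (3 / n) * (Fintype.card G * ((∑ t ∈ Rᶜ, PS (insert t R)) +
      ∑ z ∈ plCY n G, ∑ t ∈ supp z, ∑ t' ∈ supp z,
        if (supp z \ {t, t'}) ⊆ R ∧ t ∉ R then PS (insert t R) else 0)) := by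
  have h2 : ∀ t ∈ Rᶜ, ∀ t' ∈ Rᶜ, (cnt G R t t' : ℝ) * PS (insert t R) ≤
      (Fintype.card G : ℝ) * ((if t = t' then PS (insert t R) else 0) + ∑ z ∈ plCY n G,
        if t ∈ supp z ∧ t' ∈ supp z ∧ (supp z \ {t, t'}) ⊆ R then PS (insert t R) else 0) := by
    intro t ht t' ht'
    have h3 := pl_cnt_le (G := G) hR (Finset.mem_compl.1 ht) (Finset.mem_compl.1 ht')
    have h4 := mul_le_mul_of_nonneg_right h3 (pl_PS_nonneg (insert t R))
    refine h4.trans (le_of_eq ?_)
    rw [mul_assoc]
    congr 1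
    rw [add_mul]
    congr 1
    · split_ifs <;> simp
    · rw [← Finset.sum_filter, Finset.sum_const, nsmul_eq_mul, plCY, Finset.filter_filter]
      congr 2
      congr 1
      ext z
      simp only [Finset.mem_filter, Finset.mem_univ, true_and]
      tauto
  unfold PsiR
  apply mul_le_mul_of_nonneg_left _ (by positivity)
  refine (Finset.sum_le_sum fun t ht => Finset.sum_le_sum fun t' ht' => h2 t ht t' ht').trans ?_
  simp only [← Finset.mul_sum, Finset.sum_add_distrib]
  apply mul_le_mul_of_nonneg_left _ (Nat.cast_nonneg _)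
  apply add_le_add
  · apply Finset.sum_le_sum
    intro t ht
    rw [Finset.sum_ite_eq, if_pos ht]
  · exact pl_swap R

open Classical in
private lemma pl_CycQ : CycQ n G (fun _ => True) =
    ∑ z ∈ plCY n G, ∑ t ∈ supp z, ∑ t' ∈ supp z,
      th n ^ ((supp z).card - 2) * PS ((supp z).erase t') := by
  unfold CycQ plCY
  apply Finset.sum_congr _ (fun _ _ => rfl)
  ext z
  simp

end

theorem PsiN_le {n : ℕ} (hn : 5 ≤ n) (G : Type) [AddCommGroup G] [Fintype G] :
    PsiN n G ≤ (3 / n) * (1 - th n) * Fintype.card G * (NN n + CycQ n G (fun _ => True)) := by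
  classical
  obtain ⟨h0, h1⟩ := pl_th_bounds hn
  set q : ℝ := (Fintype.card G : ℝ) with hq
  have hq0 : 0 ≤ q := Nat.cast_nonneg _
  -- sum over all `R`
  have hall : PsiN n G ≤ (3 / n) * (q * ((∑ R : Finset (Tri n), ∑ t ∈ Rᶜ, PR R * PS (insert t R)) +
      ∑ R : Finset (Tri n), ∑ z ∈ plCY n G, ∑ t ∈ supp z, ∑ t' ∈ supp z,
        if (supp z \ {t, t'}) ⊆ R ∧ t ∉ R then PR R * PS (insert t R) else 0)) := by
    unfold PsiN
    have h2 : ∀ R ∈ (univ : Finset (Finset (Tri n))).filter
        (fun R : Finset (Tri n) => (cycIn G R).card = 1), PR R * PsiR G R ≤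
        (3 / n) * (q * ((∑ t ∈ Rᶜ, PR R * PS (insert t R)) +
        ∑ z ∈ plCY n G, ∑ t ∈ supp z, ∑ t' ∈ supp z,
        if (supp z \ {t, t'}) ⊆ R ∧ t ∉ R then PR R * PS (insert t R) else 0)) := by
      intro R hR
      have h3 := mul_le_mul_of_nonneg_left (pl_PsiR_le (G := G) (Finset.mem_filter.1 hR).2)
        (pl_PR_nonneg hn R)
      refine h3.trans (le_of_eq ?_)
      have h4 : (∑ t ∈ Rᶜ, PR R * PS (insert t R)) = PR R * ∑ t ∈ Rᶜ, PS (insert t R) := by
        rw [Finset.mul_sum]
      have h5 : (∑ z ∈ plCY n G, ∑ t ∈ supp z, ∑ t' ∈ supp z,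
          if (supp z \ {t, t'}) ⊆ R ∧ t ∉ R then PR R * PS (insert t R) else 0) =
          PR R * ∑ z ∈ plCY n G, ∑ t ∈ supp z, ∑ t' ∈ supp z,
          if (supp z \ {t, t'}) ⊆ R ∧ t ∉ R then PS (insert t R) else 0 := by
        simp only [Finset.mul_sum, mul_ite, mul_zero]
      rw [h4, h5]
      ring
    refine (Finset.sum_le_sum h2).trans ?_
    refine (Finset.sum_le_sum_of_subset_of_nonneg (Finset.filter_subset _ _) ?_).trans ?_
    · intro R _ _
      have hPR := pl_PR_nonneg hn R
      apply mul_nonneg (by positivity)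
      apply mul_nonneg hq0
      apply add_nonneg
      · exact Finset.sum_nonneg fun t _ => mul_nonneg hPR (pl_PS_nonneg _)
      · apply Finset.sum_nonneg
        intro z _
        apply Finset.sum_nonneg
        intro t _
        apply Finset.sum_nonneg
        intro t' _
        split_ifs
        · exact mul_nonneg hPR (pl_PS_nonneg _)
        · exact le_rfl
    · rw [← Finset.mul_sum, ← Finset.mul_sum, Finset.sum_add_distrib]
  -- first part
  have hA : (∑ R : Finset (Tri n), ∑ t ∈ Rᶜ, PR R * PS (insert t R)) = (1 - th n) * NN n := by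
    have h2 : ∀ R : Finset (Tri n), (∑ t ∈ Rᶜ, PR R * PS (insert t R)) =
        ∑ t : Tri n, if t ∉ R then PR R * PS (insert t R) else 0 := by
      intro R
      rw [← Finset.sum_filter]
      apply Finset.sum_congr _ (fun _ _ => rfl)
      ext t
      simp
    rw [Finset.sum_congr rfl (fun R _ => h2 R), Finset.sum_comm, ← pl_diag (by omega : 3 ≤ n),
      Finset.mul_sum]
    apply Finset.sum_congr rfl
    intro t _
    have h3 := pl_interchange (∅ : Finset (Tri n)) t (Finset.notMem_empty t)
    rw [Finset.card_empty, pow_zero, one_mul] at h3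
    rw [← h3, ← Finset.sum_filter]
    apply Finset.sum_congr _ (fun _ _ => rfl)
    ext R
    simp
  -- second part
  have hB : (∑ R : Finset (Tri n), ∑ z ∈ plCY n G, ∑ t ∈ supp z, ∑ t' ∈ supp z,
        if (supp z \ {t, t'}) ⊆ R ∧ t ∉ R then PR R * PS (insert t R) else 0) ≤
      (1 - th n) * CycQ n G (fun _ => True) := by
    rw [pl_CycQ, Finset.sum_comm, Finset.mul_sum]
    apply Finset.sum_le_sum
    intro z _
    rw [Finset.sum_comm, Finset.mul_sum]
    apply Finset.sum_le_sum
    intro t ht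
    rw [Finset.sum_comm, Finset.mul_sum]
    apply Finset.sum_le_sum
    intro t' ht'
    have htA : t ∉ supp z \ {t, t'} := by simp
    have h3 := pl_interchange (supp z \ {t, t'}) t htA
    rw [← Finset.sum_filter, h3]
    have h4 : (supp z).card - 2 ≤ (supp z \ {t, t'}).card := by
      have h5 := Finset.le_card_sdiff ({t, t'} : Finset (Tri n)) (supp z)
      have h6 : ({t, t'} : Finset (Tri n)).card ≤ 2 := Finset.card_le_two
      omega
    have h5 : th n ^ (supp z \ {t, t'}).card ≤ th n ^ ((supp z).card - 2) :=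
      pow_le_pow_of_le_one h0 h1 h4
    have h6 : PS (insert t (supp z \ {t, t'})) ≤ PS ((supp z).erase t') := by
      apply pl_PS_anti
      intro s hs
      rw [Finset.mem_erase] at hs
      by_cases hst : s = t
      · rw [hst]
        exact Finset.mem_insert_self _ _
      · apply Finset.mem_insert_of_mem
        rw [Finset.mem_sdiff]
        refine ⟨hs.2, ?_⟩
        simp only [Finset.mem_insert, Finset.mem_singleton, not_or]
        exact ⟨hst, hs.1⟩
    have h7 : 0 ≤ 1 - th n := by linarith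
    calc th n ^ (supp z \ {t, t'}).card * (1 - th n) * PS (insert t (supp z \ {t, t'}))
        = (1 - th n) * (th n ^ (supp z \ {t, t'}).card * PS (insert t (supp z \ {t, t'}))) := by ring
      _ ≤ (1 - th n) * (th n ^ ((supp z).card - 2) * PS ((supp z).erase t')) := by
          apply mul_le_mul_of_nonneg_left _ h7
          exact mul_le_mul h5 h6 (pl_PS_nonneg _) (pow_nonneg h0 _)
  refine hall.trans ?_
  have h3n : (0 : ℝ) ≤ 3 / n := by positivity
  calc (3 / (n : ℝ)) * (q * ((∑ R : Finset (Tri n), ∑ t ∈ Rᶜ, PR R * PS (insert t R)) +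
      ∑ R : Finset (Tri n), ∑ z ∈ plCY n G, ∑ t ∈ supp z, ∑ t' ∈ supp z,
        if (supp z \ {t, t'}) ⊆ R ∧ t ∉ R then PR R * PS (insert t R) else 0))
      ≤ (3 / (n : ℝ)) * (q * ((1 - th n) * NN n + (1 - th n) * CycQ n G (fun _ => True))) := by
        apply mul_le_mul_of_nonneg_left _ h3n
        apply mul_le_mul_of_nonneg_left _ hq0
        exact add_le_add hA.le hB
    _ = (3 / n) * (1 - th n) * q * (NN n + CycQ n G (fun _ => True)) := by ring

end

end Pool.Agent.DH10
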