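import Pool.Agent.DH10.BddMom

/-!
# DH10.Upper : the upper bound (5.5)

`q^{n-1} SurMom n G = ∑_{ST f} w f` (`surMom_eq`).  Split the `f` with `ST f`:
(a) `AllUnif f`: `≤ (1+ε) q^{n-1} Mth n G (th n)` (`unif_sum`), `Mth → 1`;
(b) some `χ` is mid: `mid_sum`;
(c) some `χ ≠ 1` is near: `near_push` gives `ψ` onto `ZMod p` with `Sm C (push ψ f)`, and `push ψ f` is not a coboundary
(otherwise `ψ(cur f x y z) = 0` for all `x,y,z`, contradiction with `ST f` and `ψ ≠ 0`).  So if `S ⊆ Z f` then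
`S ∈ E_n := {S : ∃ g ∈ C¹(F_p), S ⊆ Z g, Sm C g, ¬ IsCob g}` and
`∑_{(c)} w f ≤ ∑_{S ∈ E_n} W S #{f : S ⊆ Z f} = q^{n-1} ∑_{S ∈ E_n} W S h(S)`, `h(S) = #Hom(H1 S, G)` (`card_cocycles`).
For every `δ > 0`: `h ≤ δ h² + 1/(4δ)`, so this is `≤ q^{n-1} (δ Ex(h²) + P(E_n)/(4δ))`; `Ex(h²)` is bounded (`hom_sq`) and
`P(E_n) → 0` (`small_prob` with `K = ZMod p`).
-/

set_option autoImplicit false

open Finset Filter Topology

namespace Pool.Agent.DH10

noncomputable section

/-- the push of a cochain with `ST` along a surjection onto `ZMod p` is not a coboundary -/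
private theorem up_not_cob {n : ℕ} (p : ℕ) [Fact p.Prime] {G : Type} [AddCommGroup G]
    (f : Coch n G) (hf : ST f) (ψ : G →+ ZMod p) (hψ : Function.Surjective ψ) :
    ¬ IsCob (push ψ f) := by
  intro h
  rw [isCob_iff] at h
  have h1 : AddSubgroup.closure (Set.range fun p : Fin n × Fin n × Fin n => cur f p.1 p.2.1 p.2.2)
      ≤ ψ.ker := by
    rw [AddSubgroup.closure_le]
    rintro _ ⟨x, rfl⟩
    have h2 := h x.1 x.2.1 x.2.2
    rw [cur_push] at h2
    exact h2
  rw [ST] at hf
  rw [hf] at h1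
  obtain ⟨a, ha⟩ := hψ 1
  have h2 : a ∈ ψ.ker := h1 (AddSubgroup.mem_top a)
  rw [AddMonoidHom.mem_ker] at h2
  rw [h2] at ha
  exact zero_ne_one ha

open Classical in
/-- exchange of sums restricted to a class of `f` -/
private theorem up_exch {n : ℕ} {G : Type} [AddCommGroup G] [Fintype G] [DecidableEq G]
    (hn : 1 ≤ n) (P : Coch n G → Prop) (E : Finset (Tri n) → Prop)
    (hPE : ∀ f, P f → ∀ S, S ⊆ Z f → E S) :
    ∑ f ∈ univ.filter (fun f : Coch n G => P f), w f ≤
      (Fintype.card G : ℝ) ^ (n - 1) *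
        ∑ S ∈ (cand n).filter (fun S => E S), W S * (Nat.card (H1 S →+ G) : ℝ) := by
  have h1 : ∀ f ∈ univ.filter (fun f : Coch n G => P f),
      w f ≤ ∑ S ∈ (cand n).filter (fun S => E S), if S ⊆ Z f then W S else 0 := by
    intro f hf
    rw [mem_filter] at hf
    rw [← Finset.sum_filter]
    unfold w
    apply Finset.sum_le_sum_of_subset_of_nonneg
    · intro S hS
      rw [mem_filter] at hS
      rw [mem_filter, mem_filter]
      exact ⟨⟨hS.1, hPE f hf.2 S hS.2⟩, hS.2⟩
    · intro S _ _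
      exact W_nonneg S
  refine (Finset.sum_le_sum h1).trans ?_
  have h2 : ∑ f ∈ univ.filter (fun f : Coch n G => P f),
      (∑ S ∈ (cand n).filter (fun S => E S), if S ⊆ Z f then W S else 0) ≤
      ∑ f : Coch n G, (∑ S ∈ (cand n).filter (fun S => E S), if S ⊆ Z f then W S else 0) := by
    apply Finset.sum_le_sum_of_subset_of_nonneg (Finset.filter_subset _ _)
    intro f _ _
    apply Finset.sum_nonneg
    intro S _
    split_ifs
    · exact W_nonneg S
    · exact le_rfl
  refine h2.trans (le_of_eq ?_)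
  rw [Finset.sum_comm, Finset.mul_sum]
  refine Finset.sum_congr rfl fun S _ => ?_
  rw [← Finset.sum_filter, Finset.sum_const, nsmul_eq_mul]
  have h3 := card_cocycles (G := G) hn S
  rw [Nat.card_eq_fintype_card, Fintype.card_subtype] at h3
  have h4 : ((univ.filter fun f : Coch n G => S ⊆ Z f).card : ℝ) =
      (Fintype.card G : ℝ) ^ (n - 1) * (Nat.card (H1 S →+ G) : ℝ) := by
    have h5 : (univ.filter fun f : Coch n G => S ⊆ Z f).card =
        Fintype.card G ^ (n - 1) * Nat.card (H1 S →+ G) := by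
      rw [← h3]
    rw [h5]
    push_cast
    ring
  rw [h4]
  ring

/-- the elementary inequality -/
private theorem up_young {δ h : ℝ} (hδ : 0 < δ) : h ≤ δ * h ^ 2 + 1 / (4 * δ) := by
  have h1 : 0 ≤ δ * (h - 1 / (2 * δ)) ^ 2 := by positivity
  have h2 : δ * (h - 1 / (2 * δ)) ^ 2 = δ * h ^ 2 - h + 1 / (4 * δ) := by
    field_simp
    ring
  linarith

open Classical in
private theorem up_cs {n : ℕ} {G : Type} [AddCommGroup G] {δ : ℝ} (hδ : 0 < δ)
    (E : Finset (Tri n) → Prop) :
    ∑ S ∈ (cand n).filter (fun S => E S), W S * (Nat.card (H1 S →+ G) : ℝ) ≤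
      δ * Ex n (fun S => (Nat.card (H1 S →+ G) : ℝ) ^ 2) +
        1 / (4 * δ) * ∑ S ∈ (cand n).filter (fun S => E S), W S := by
  have h1 : ∑ S ∈ (cand n).filter (fun S => E S), W S * (Nat.card (H1 S →+ G) : ℝ) ≤
      ∑ S ∈ (cand n).filter (fun S => E S),
        (δ * (W S * (Nat.card (H1 S →+ G) : ℝ) ^ 2) + 1 / (4 * δ) * W S) := by
    apply Finset.sum_le_sum
    intro S _
    have h2 := mul_le_mul_of_nonneg_left (up_young (h := (Nat.card (H1 S →+ G) : ℝ)) hδ) (W_nonneg S)
    linarith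
  refine h1.trans ?_
  rw [Finset.sum_add_distrib, ← Finset.mul_sum, ← Finset.mul_sum]
  have h3 : ∑ S ∈ (cand n).filter (fun S => E S), W S * (Nat.card (H1 S →+ G) : ℝ) ^ 2 ≤
      Ex n (fun S => (Nat.card (H1 S →+ G) : ℝ) ^ 2) := by
    unfold Ex
    apply Finset.sum_le_sum_of_subset_of_nonneg (Finset.filter_subset _ _)
    intro S _ _
    exact mul_nonneg (W_nonneg S) (by positivity)
  have h4 := mul_le_mul_of_nonneg_left h3 hδ.le
  linarith

open Classical in
/-- the splitting of the sum over the `f` with `ST f` -/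
private theorem up_split {n : ℕ} {G : Type} [AddCommGroup G] [Fintype G] [DecidableEq G] :
    ∑ f ∈ univ.filter (fun f : Coch n G => ST f), w f ≤
      ∑ f ∈ univ.filter (fun f : Coch n G => AllUnif f), w f +
      ∑ f ∈ univ.filter (fun f : Coch n G => ∃ χ : AddChar G ℂ, Mid χ f), w f +
      ∑ f ∈ univ.filter (fun f : Coch n G => ST f ∧ ∃ χ : AddChar G ℂ, χ ≠ 1 ∧ Near χ f), w f := by
  simp only [Finset.sum_filter]
  rw [← Finset.sum_add_distrib, ← Finset.sum_add_distrib]
  apply Finset.sum_le_sum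
  intro f _
  have hw : 0 ≤ w f := w_nonneg f
  by_cases h : ST f
  · rw [if_pos h]
    by_cases h1 : AllUnif f
    · rw [if_pos h1]
      have h2 : 0 ≤ (if ∃ χ : AddChar G ℂ, Mid χ f then w f else 0) := by
        split_ifs <;> first | exact hw | exact le_rfl
      have h3 : 0 ≤ (if ST f ∧ ∃ χ : AddChar G ℂ, χ ≠ 1 ∧ Near χ f then w f else 0) := by
        split_ifs <;> first | exact hw | exact le_rfl
      linarith
    · rw [if_neg h1]
      by_cases h2 : ∃ χ : AddChar G ℂ, Mid χ f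
      · rw [if_pos h2]
        have h3 : 0 ≤ (if ST f ∧ ∃ χ : AddChar G ℂ, χ ≠ 1 ∧ Near χ f then w f else 0) := by
          split_ifs <;> first | exact hw | exact le_rfl
        linarith
      · rw [if_neg h2]
        have h3 : ST f ∧ ∃ χ : AddChar G ℂ, χ ≠ 1 ∧ Near χ f := by
          refine ⟨h, ?_⟩
          unfold AllUnif at h1
          push Not at h1
          obtain ⟨χ, hχ, hu⟩ := h1
          refine ⟨χ, hχ, ?_⟩
          by_contra hne
          exact h2 ⟨χ, hu, hne⟩
        rw [if_pos h3]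
        linarith
  · rw [if_neg h]
    have h1 : 0 ≤ (if AllUnif f then w f else 0) := by
      split_ifs <;> first | exact hw | exact le_rfl
    have h2 : 0 ≤ (if ∃ χ : AddChar G ℂ, Mid χ f then w f else 0) := by
      split_ifs <;> first | exact hw | exact le_rfl
    have h3 : 0 ≤ (if ST f ∧ ∃ χ : AddChar G ℂ, χ ≠ 1 ∧ Near χ f then w f else 0) := by
      split_ifs <;> first | exact hw | exact le_rfl
    linarith

private theorem up_exp_small {η : ℝ} (hη : 0 < η) :
    ∀ᶠ n : ℕ in atTop, Real.exp (-(n : ℝ) ^ (18 / 10 : ℝ)) ≤ η := by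
  have h1 : Tendsto (fun n : ℕ => Real.exp (-(n : ℝ) ^ (18 / 10 : ℝ))) atTop (𝓝 0) := by
    apply Real.tendsto_exp_neg_atTop_nhds_zero.comp
    exact (tendsto_rpow_atTop (by norm_num)).comp tendsto_natCast_atTop_atTop
  filter_upwards [h1.eventually (gt_mem_nhds hη)] with n hn
  exact hn.le

theorem upper (p : ℕ) [Fact p.Prime] (hp : p ≠ 2) (G : Type) [AddCommGroup G] [Finite G]
    (hG : IsP p G) : ∀ ε : ℝ, 0 < ε → ∀ᶠ n : ℕ in atTop, SurMom n G ≤ 1 + ε := by
  classical
  intro ε hε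
  have : Fintype G := Fintype.ofFinite G
  have : Fintype (ZMod p) := ZMod.fintype p
  set q : ℝ := (Fintype.card G : ℝ) with hq
  have hq1 : 1 ≤ q := by
    rw [hq]; exact_mod_cast Fintype.card_pos
  -- constants
  set η : ℝ := min (ε / 12) 1 with hη
  have hη0 : 0 < η := lt_min (by positivity) one_pos
  have hη1 : η ≤ 1 := min_le_right _ _
  have hηε : η ≤ ε / 12 := min_le_left _ _
  obtain ⟨C, hC⟩ := near_push p G hG
  obtain ⟨B, hB⟩ := hom_sq p hp G hG
  set δ : ℝ := η / (|B| + 1) with hδ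
  have hB1 : 0 < |B| + 1 := by positivity
  have hδ0 : 0 < δ := by positivity
  have hodd : Odd (Fintype.card (ZMod p)) := by
    have h1 : Fintype.card (ZMod p) = p := by
      convert ZMod.card p
    rw [h1]
    exact (Fact.out : p.Prime).odd_of_ne_two hp
  have hE := small_prob (ZMod p) hodd C
  have hE' := hE.eventually (gt_mem_nhds (show (0 : ℝ) < 4 * δ * η by positivity))
  filter_upwards [unif_sum G η hη0, (Mth_tendsto_one p hp G hG).eventually (gt_mem_nhds
    (show (1 : ℝ) < 1 + η by linarith)), mid_sum G, up_exp_small hη0, hB, hE',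
    eventually_ge_atTop 3] with n h1 h2 h3 h4 h5 h6 hn
  have hqn : 1 ≤ q ^ (n - 1) := one_le_pow₀ hq1
  have hqn0 : 0 < q ^ (n - 1) := by linarith
  rw [surMom_eq (by omega : 1 ≤ n), div_le_iff₀ hqn0]
  refine (le_trans (le_of_eq ?_) (up_split (n := n) (G := G))).trans ?_
  · apply Finset.sum_congr _ (fun _ _ => rfl)
    ext f
    simp only [Finset.mem_filter]
  -- (a)
  have ha : ∑ f ∈ univ.filter (fun f : Coch n G => AllUnif f), w f ≤ (1 + η) * (1 + η) * q ^ (n - 1) := by
    rw [div_le_iff₀ hqn0] at h1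
    refine h1.trans ?_
    gcongr
  -- (b)
  have hb : ∑ f ∈ univ.filter (fun f : Coch n G => ∃ χ : AddChar G ℂ, Mid χ f), w f ≤
      η * q ^ (n - 1) := by
    calc ∑ f ∈ univ.filter (fun f : Coch n G => ∃ χ : AddChar G ℂ, Mid χ f), w f
        ≤ ∑ f ∈ univ.filter (fun f : Coch n G => ∃ χ : AddChar G ℂ, Mid χ f), Phi f :=
          Finset.sum_le_sum (by
            intro f _
            exact w_le_Phi hn f)
      _ ≤ Real.exp (-(n : ℝ) ^ (18 / 10 : ℝ)) := by
          refine le_trans (le_of_eq ?_) h3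
          apply Finset.sum_congr _ (fun _ _ => rfl)
          ext f
          simp only [Finset.mem_filter]
      _ ≤ η := h4
      _ ≤ η * q ^ (n - 1) := by nlinarith
  -- (c)
  have hc : ∑ f ∈ univ.filter (fun f : Coch n G => ST f ∧ ∃ χ : AddChar G ℂ, χ ≠ 1 ∧ Near χ f), w f ≤
      2 * η * q ^ (n - 1) := by
    have h7 := up_exch (n := n) (G := G) (by omega)
      (fun f => ST f ∧ ∃ χ : AddChar G ℂ, χ ≠ 1 ∧ Near χ f)
      (fun S => ∃ g : Coch n (ZMod p), S ⊆ Z g ∧ Sm C g ∧ ¬ IsCob g) (by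
        rintro f ⟨hST, χ, hχ, hN⟩ S hS
        obtain ⟨ψ, hψ, hSm⟩ := hC n (by omega) f χ hχ hN
        exact ⟨push ψ f, hS.trans (Z_push ψ f), hSm, up_not_cob p f hST ψ hψ⟩)
    refine (le_trans (le_of_eq ?_) h7).trans ?_
    · apply Finset.sum_congr _ (fun _ _ => rfl)
      ext f
      simp only [Finset.mem_filter]
    rw [mul_comm (2 * η)]
    apply mul_le_mul_of_nonneg_left _ hqn0.le
    refine (up_cs hδ0 _).trans ?_
    have h8 : δ * Ex n (fun S => (Nat.card (H1 S →+ G) : ℝ) ^ 2) ≤ η := by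
      calc δ * Ex n (fun S => (Nat.card (H1 S →+ G) : ℝ) ^ 2) ≤ δ * (|B| + 1) := by
            apply mul_le_mul_of_nonneg_left _ hδ0.le
            have := le_abs_self B
            linarith
        _ = η := by
            rw [hδ]
            field_simp
    refine (add_le_add h8 (?_ : _ ≤ η)).trans (by linarith)
    refine (mul_le_mul_of_nonneg_left (?_ : _ ≤ 4 * δ * η) (by positivity)).trans
      (le_of_eq (by field_simp))
    refine le_trans (le_of_eq ?_) h6.le
    apply Finset.sum_congr _ (fun _ _ => rfl)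
    ext S
    simp only [Finset.mem_filter]
  have hfin : (1 + η) * (1 + η) * q ^ (n - 1) + η * q ^ (n - 1) + 2 * η * q ^ (n - 1) ≤
      (1 + ε) * q ^ (n - 1) := by
    rw [← add_mul, ← add_mul]
    apply mul_le_mul_of_nonneg_right _ hqn0.le
    nlinarith
  linarith

end

end Pool.Agent.DH10
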